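import Pool.Agent.Lib.MP_755177_an.Finite

set_option autoImplicit false

/-!
# Closed geodesics, cylinders, families of parallel cylinders, the Veech group
-/

open Set Filter Topology Complex Metric
open scoped MatrixGroups ComplexConjugate

namespace Pool.Agent.Lib.MP_755177_an

/-- The cross product. -/
def cr (v w : ℂ) : ℝ := (conj v * w).im

theorem cr_eq (v w : ℂ) : cr v w = v.re * w.im - v.im * w.re := by
  simp [cr, Complex.mul_im]
  ring

theorem cr_act (A : SL(2, ℝ)) (v w : ℂ) : cr (act A v) (act A w) = cr v w := by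
  have h := A.det_coe
  rw [Matrix.det_fin_two] at h
  rw [cr_eq, cr_eq]
  simp only [act]
  linear_combination (v.re * w.im - v.im * w.re) * h

/-- The open strip between the lines `cr v z = 0` and `cr v z = a`. -/
def Strip (v : ℂ) (a : ℝ) : Set ℂ := {z | 0 < cr v z ∧ cr v z < a}

namespace MSurf

variable {X : Type*} [TopologicalSpace X] (M : MSurf X)

/-- `v` is the holonomy of a closed straight-line trajectory avoiding the marked points. -/
def Closed (v : ℂ) : Prop := v ≠ 0 ∧ ∃ f : ℂ → X, M.IsTr f (segment ℝ 0 v) ∧ f 0 = f v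

/-- `f` parametrises a maximal cylinder with core holonomy `v` and area `a`. -/
structure IsCyl (v : ℂ) (a : ℝ) (f : ℂ → X) : Prop where
  ne : v ≠ 0
  pos : 0 < a
  tr : M.IsTr f (Strip v a)
  inj : ∀ z ∈ Strip v a, ∀ z' ∈ Strip v a, f z = f z' ↔ ∃ n : ℤ, z' = z + n * v
  bot : ∃ z, cr v z = 0 ∧ ∃ q ∈ M.Sg, Tendsto f (𝓝[Strip v a] z) (𝓝 q)
  top : ∃ z, cr v z = a ∧ ∃ q ∈ M.Sg, Tendsto f (𝓝[Strip v a] z) (𝓝 q)

/-- A complete family of parallel cylinders. -/
structure IsFam {ι : Type} (v : ι → ℂ) (a : ι → ℝ) (f : ι → ℂ → X) : Prop where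
  cyl : ∀ i, M.IsCyl (v i) (a i) (f i)
  par : ∀ i j, ∃ t : ℝ, 0 < t ∧ v j = t * v i
  disj : ∀ i j, i ≠ j → Disjoint (f i '' Strip (v i) (a i)) (f j '' Strip (v j) (a j))
  cover : (⋃ i, closure (f i '' Strip (v i) (a i))) = univ

/-- Complete parabolicity in terms of the cylinders of the marked surface. The moduli of two
cylinders with core holonomies `v`, `t * v` and areas `a`, `a'` are `a / ‖v‖ ^ 2` and
`a' / (t ^ 2 * ‖v‖ ^ 2)`. -/
def CPar : Prop := ∀ v a f, M.IsCyl v a f →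
  (∀ x : X, ∃ v' a' f', M.IsCyl v' a' f' ∧ (∃ t : ℝ, 0 < t ∧ v' = t * v) ∧
    x ∈ closure (f' '' Strip v' a')) ∧
  ∀ (t : ℝ) a' f', 0 < t → M.IsCyl (t * v) a' f' → ∃ q : ℚ, a' = q * t ^ 2 * a

end MSurf

end Pool.Agent.Lib.MP_755177_an
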