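import Pool.Agent.Lib.MP_755177_an.Defs

set_option autoImplicit false

/-!
# Exact statements of the independent modules (as propositions)
-/

open Set Filter Topology Complex
open scoped MatrixGroups ComplexConjugate

namespace Pool.Agent.Lib.MP_755177_an

/-- Module ALG1: finiteness of cylinder areas and circumference ratios. `x l + i y l` is the core
holonomy of the `l`-th cylinder of a parallel family, `ξ l + i η l` is a crossing holonomy. -/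
def AlgFinite : Prop :=
  ∀ (k : IntermediateField ℚ ℝ), FiniteDimensional ℚ k →
    (∀ (σ : k →+* ℂ) (x : k), (σ x).im = 0) →
    ∀ (Λ : Submodule ℤ ℝ), Λ.FG → (∀ x ∈ Λ, x ∈ k) → ∀ A : ℝ, A ∈ k →
    ∃ F : Set ℝ, F.Finite ∧ ∀ (ι : Type) [Fintype ι] (x y ξ η : ι → ℝ),
      (∀ l, x l ∈ Λ ∧ y l ∈ Λ ∧ ξ l ∈ Λ ∧ η l ∈ Λ) →
      (∀ l, 0 < x l * η l - y l * ξ l) →
      (∀ l l', ∃ t : ℝ, 0 < t ∧ x l' = t * x l ∧ y l' = t * y l ∧ ∃ q : ℚ,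
          (x l' * η l' - y l' * ξ l') / t ^ 2 = q * (x l * η l - y l * ξ l)) →
      ∑ l, (x l * η l - y l * ξ l) = A →
      (∀ l, x l * η l - y l * ξ l ∈ F) ∧
        ∀ l l' (t : ℝ), 0 < t → x l' = t * x l → y l' = t * y l → t ∈ F

/-- Module ALG2: the totally real field of a pair of transverse periodic directions. -/
def ExistsField : Prop :=
  ∀ (m n : Type) [Fintype m] [Fintype n] [Nonempty m] (I : m → n → ℕ) (q : m → ℚ) (q' : n → ℚ)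
    (t t' : ℝ) (h : m → ℝ) (w : n → ℝ),
    (∀ i, 0 < q i) → (∀ j, 0 < q' j) → 0 < t → 0 < t' → (∀ i, 0 < h i) → (∀ j, 0 < w j) →
    (∀ i, h i = q i * t * ∑ j, I i j * w j) → (∀ j, w j = q' j * t' * ∑ i, I i j * h i) →
    (∀ s : Set m, s.Nonempty → (∀ i ∈ s, ∀ j, 0 < I i j → ∀ i', 0 < I i' j → i' ∈ s) →
      s = univ) →
    ∃ k : IntermediateField ℚ ℝ, FiniteDimensional ℚ k ∧
      (∀ (σ : k →+* ℂ) (x : k), (σ x).im = 0) ∧
      ∃ ξ η : ℝ, 0 < ξ ∧ 0 < η ∧ (∀ j, ξ * w j ∈ k) ∧ ∀ i, η * h i ∈ k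

/-- Module LC: a criterion for lattices. -/
def LatticeCriterion : Prop :=
  ∀ (Γ : Subgroup SL(2, ℝ)) (V : Set ℂ) (C : ℝ),
    (∀ γ ∈ Γ, ∀ v ∈ V, act γ v ∈ V) →
    (0 : ℂ) ∉ V →
    (∃ v ∈ V, ∃ v' ∈ V, (conj v * v').im ≠ 0) →
    (∀ R : ℝ, {v ∈ V | ‖v‖ ≤ R}.Finite) →
    (∃ s : Set ℂ, s.Finite ∧ s ⊆ V ∧ ∀ v ∈ V, ∃ γ ∈ Γ, act γ v ∈ s) →
    (∀ v ∈ V, ∃ γ ∈ Γ, γ ≠ 1 ∧ act γ v = v) →
    (∀ g : SL(2, ℝ), ∃ v ∈ V, ‖act g v‖ ≤ C) →
    IsLattice Γ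

/-- Module PM1: an injective map which is locally a translation preserves the area. -/
def VolumeLocalTranslation : Prop :=
  ∀ (E : Set ℂ) (g : ℂ → ℂ), MeasurableSet E → InjOn g E →
    (∀ z ∈ E, ∃ c : ℂ, ∀ᶠ z' in 𝓝[E] z, g z' = z' + c) →
    MeasureTheory.volume (g '' E) = MeasureTheory.volume E

/-- Module PM2: the three corners of a triangle `0, a, b` fill half of a disc. -/
def VolumeCorners : Prop :=
  ∀ (a b : ℂ) (r : ℝ), 0 < (conj a * b).im → 0 < r →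
    MeasureTheory.volume {v : ℂ | ‖v‖ < r ∧ ∃ s t : ℝ, 0 < s ∧ 0 < t ∧ v = s * a + t * b} +
    MeasureTheory.volume
      {v : ℂ | ‖v‖ < r ∧ ∃ s t : ℝ, 0 < s ∧ 0 < t ∧ v = s * (-a) + t * (b - a)} +
    MeasureTheory.volume
      {v : ℂ | ‖v‖ < r ∧ ∃ s t : ℝ, 0 < s ∧ 0 < t ∧ v = s * (-b) + t * (a - b)} =
      MeasureTheory.volume (Metric.ball (0 : ℂ) r) / 2

/-- Module PM3: area of a half disc. -/
def VolumeHalfDisc : Prop :=
  ∀ (u : ℂ) (r : ℝ), u ≠ 0 → 0 < r →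
    MeasureTheory.volume {v : ℂ | ‖v‖ < r ∧ 0 < (v / u).im} =
      MeasureTheory.volume (Metric.ball (0 : ℂ) r) / 2

/-- Module SL: the action of `SL(2,ℝ)` on translation structures. -/
def ExistsSLAction.{u} : Prop :=
  ∀ (X : Type u) [TopologicalSpace X] (M : TransStr X) (g : SL(2, ℝ)),
    ∃ M' : TransStr X, M'.atlas = (fun a : Set X × (X → ℂ) => (a.1, fun x => act g (a.2 x))) '' M.atlas

end Pool.Agent.Lib.MP_755177_an
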