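import Pool.Agent.Lib.MP_755177_an.Finite
import Pool.Agent.Lib.MP_755177_an.Defs2

set_option autoImplicit false

/-!
# Exact statements of the geometric modules (as propositions)
-/

open Set Filter Topology Complex Metric MeasureTheory
open scoped MatrixGroups ComplexConjugate

namespace Pool.Agent.Lib.MP_755177_an

/-- Module SHORT: bounded closed trajectories in every metric `‖act g ·‖`. -/
def ShortCyl.{u} : Prop :=
  ∀ (X : Type u) [TopologicalSpace X] [CompactSpace X] [T2Space X] [ConnectedSpace X]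
    (M : MSurf X), M.Sg.Nonempty → ∃ C : ℝ, ∀ g : SL(2, ℝ), ∃ v, M.Closed v ∧ ‖act g v‖ ≤ C

/-- Module MAXCYL: every closed trajectory lies in a maximal cylinder. -/
def MaxCyl.{u} : Prop :=
  ∀ (X : Type u) [TopologicalSpace X] [CompactSpace X] [T2Space X] [ConnectedSpace X]
    (M : MSurf X), M.Sg.Nonempty → ∀ (v : ℂ) (f : ℂ → X), v ≠ 0 → M.IsTr f (segment ℝ 0 v) →
      f 0 = f v → ∃ (n : ℕ) (a : ℝ) (g : ℂ → X) (z : ℂ), 0 < n ∧ M.IsCyl (v / n) a g ∧
        z ∈ Strip (v / n) a ∧ g z = f 0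

/-- Module CYLPAR: two parallel maximal cylinders are disjoint or equal. -/
def CylPar.{u} : Prop :=
  ∀ (X : Type u) [TopologicalSpace X] [CompactSpace X] [T2Space X] (M : MSurf X)
    (v : ℂ) (a : ℝ) (f : ℂ → X) (t : ℝ) (a' : ℝ) (f' : ℂ → X), 0 < t → M.IsCyl v a f →
    M.IsCyl (t * v) a' f' → ¬ Disjoint (f '' Strip v a) (f' '' Strip (t * v) a') →
    t = 1 ∧ a = a' ∧ f '' Strip v a = f' '' Strip v a

/-- Module FAM: a cylinder of a completely parabolic surface belongs to a finite complete family of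
parallel cylinders. -/
def ExistsFam.{u} : Prop :=
  ∀ (X : Type u) [TopologicalSpace X] [CompactSpace X] [T2Space X] (M : MSurf X),
    M.CPar → ∀ v a f, M.IsCyl v a f → ∃ (n : ℕ) (v' : Fin n → ℂ) (a' : Fin n → ℝ)
      (f' : Fin n → ℂ → X) (i : Fin n), M.IsFam v' a' f' ∧ v' i = v ∧ a' i = a ∧ f' i = f ∧
      ∀ w b g, M.IsCyl w b g → (∃ t : ℝ, 0 < t ∧ w = t * v) → ∃ j, w = v' j

/-- Module TWO: two transverse complete families of cylinders. Coordinates: `z = x * e + y * e'`,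
the horizontal cylinders have width `γ i` and height `H i`, the vertical ones have
width `W j` and height `δ j`. -/
def TwoFam.{u} : Prop :=
  ∀ (X : Type u) [TopologicalSpace X] [CompactSpace X] [T2Space X] [ConnectedSpace X]
    (M : MSurf X) (m n : Type) [Fintype m] [Fintype n] (e e' : ℂ) (γ a H : m → ℝ)
    (δ a' W : n → ℝ) (f : m → ℂ → X) (g : n → ℂ → X),
    0 < cr e e' → (∀ i, 0 < γ i) → (∀ j, 0 < δ j) →
    (∀ i, H i = a i / (γ i * cr e e')) → (∀ j, W j = a' j / (δ j * cr e e')) →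
    M.IsFam (fun i => γ i * e) a f → M.IsFam (fun j => δ j * e') a' g →
    (∃ I : m → n → ℕ, (∀ i, ∑ j, I i j * W j = γ i) ∧ (∀ j, ∑ i, I i j * H i = δ j) ∧
      ∀ s : Set m, s.Nonempty →
        (∀ i ∈ s, ∀ j, 0 < I i j → ∀ i', 0 < I i' j → i' ∈ s) → s = univ) ∧
    (((⋃ i, f i '' Strip (γ i * e) (a i)) ∪ ⋃ j, g j '' Strip (δ j * e') (a' j))ᶜ).Finite ∧
    (∀ w b h, M.IsCyl w b h →
      (∃ x ∈ AddSubgroup.closure (range W), ∃ y ∈ AddSubgroup.closure (range H),
        w = x * e + y * e') ∧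
      ∃ x ∈ AddSubgroup.closure (range W), ∃ y ∈ AddSubgroup.closure (range H),
        cr w (x * e + y * e') = b) ∧
    ((∀ i, ∃ q ∈ M.Sg, Tendsto (f i) (𝓝[Strip (γ i * e) (a i)] 0) (𝓝 q)) →
      (∀ j, ∃ q ∈ M.Sg, Tendsto (g j) (𝓝[Strip (δ j * e') (a' j)] 0) (𝓝 q)) →
      ∀ i j z τ, z ∈ Strip (γ i * e) (a i) → z + τ ∈ Strip (δ j * e') (a' j) →
        f i z = g j (z + τ) → ∃ s ∈ AddSubmonoid.closure (range W),
          ∃ σ ∈ AddSubmonoid.closure (range H), ∃ k l : ℤ, 0 ≤ s ∧ s < γ i ∧ 0 ≤ σ ∧ σ < δ j ∧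
            τ = (k * γ i - s : ℝ) * e + (σ + l * δ j : ℝ) * e')

/-- Module PAIR: finiteness of the pairs of transverse families with bounded data, modulo affine
homeomorphisms. -/
def PairFinite.{u} : Prop :=
  ∀ (X : Type u) [TopologicalSpace X] [CompactSpace X] [T2Space X] [ConnectedSpace X]
    (M : MSurf X) (P : Set ℝ) (N : ℕ), P.Finite → ∃ S : Set (ℂ × ℂ), S.Finite ∧
      ∀ (m n : ℕ) (e e' : ℂ) (γ a : Fin m → ℝ) (δ a' : Fin n → ℝ) (f : Fin m → ℂ → X)
        (g : Fin n → ℂ → X), m ≤ N → n ≤ N → 0 < cr e e' → cr e e' ∈ P →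
        (∀ i, 0 < γ i ∧ γ i ∈ P) → (∀ j, 0 < δ j ∧ δ j ∈ P) → (∀ i, a i ∈ P) →
        (∀ j, a' j ∈ P) → M.IsFam (fun i => γ i * e) a f → M.IsFam (fun j => δ j * e') a' g →
        ∃ A : SL(2, ℝ), (∃ φ : X ≃ₜ X, M.toTransStr.IsAffine A φ) ∧ (act A e, act A e') ∈ S

/-- Module TRANS: from a translation surface to a marked surface (the zeros are marked; if there are
no zeros then one point is marked). -/
def TransCPar.{u} : Prop :=
  ∀ (X : Type u) [TopologicalSpace X] [CompactSpace X] [T2Space X] [ConnectedSpace X]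
    (M : TransStr X), M.CompletelyParabolic →
    ∃ M' : MSurf X, M'.toTransStr = M ∧ M'.Sg.Nonempty ∧ M'.CPar

/-- Module AFF: affine homeomorphisms form a group and act on closed trajectories. -/
def AffGroup.{u} : Prop :=
  ∀ (X : Type u) [TopologicalSpace X] [CompactSpace X] [T2Space X] (M : MSurf X),
    M.toTransStr.IsAffine 1 (Homeomorph.refl X) ∧
    (∀ A φ, M.toTransStr.IsAffine A φ → M.toTransStr.IsAffine A⁻¹ φ.symm) ∧
    (∀ A φ B ψ, M.toTransStr.IsAffine A φ → M.toTransStr.IsAffine B ψ →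
      M.toTransStr.IsAffine (A * B) (ψ.trans φ)) ∧
    ∀ A φ v, M.toTransStr.IsAffine A φ → M.Closed v → M.Closed (act A v)

end Pool.Agent.Lib.MP_755177_an
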