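import Pool.Agent.Lib.MP_755177_an.TriNew
import Pool.Agent.Lib.MP_755177_an.Spec3

set_option autoImplicit false

/-!
# Exact statements of the parts of the short cylinder theorem, and of the final assembly
-/

open Set Filter Topology Complex Metric MeasureTheory
open scoped MatrixGroups ComplexConjugate

namespace Pool.Agent.Lib.MP_755177_an

namespace MSurf

variable {X : Type*} [TopologicalSpace X] (M : MSurf X)

/-- A complex of `n` disjoint triangles with short edges, bounded by the graph `Z`. -/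
structure Cpx (g : SL(2, ℝ)) (ε : ℝ) (Z : Set X) (n : ℕ) (f : Fin n → ℂ → X)
    (V : Fin n → Fin 3 → ℂ) : Prop where
  tri : ∀ i, M.Tri (f i) (V i)
  int : ∀ i, ∀ z ∈ TI (V i), f i z ∉ Z
  bd : ∀ i, ∀ z ∈ TT (V i), z ∉ TI (V i) → f i z ∈ Z
  short : ∀ i j, ‖act g (V i (j + 1) - V i j)‖ < ε
  disj : ∀ i i', i ≠ i' → Disjoint (f i '' TI (V i)) (f i' '' TI (V i'))

end MSurf

/-- Module SCOUNT: the number of disjoint triangles is bounded. -/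
def TriCount.{u} : Prop :=
  ∀ (X : Type u) [TopologicalSpace X] [CompactSpace X] [T2Space X] (M : MSurf X),
    ∃ N : ℕ, ∀ (n : ℕ) (f : Fin n → ℂ → X) (V : Fin n → Fin 3 → ℂ), (∀ i, M.Tri (f i) (V i)) →
      (∀ i i', i ≠ i' → Disjoint (f i '' TI (V i)) (f i' '' TI (V i'))) → n ≤ N

/-- Module SAREA: small triangles do not cover the surface. -/
def TriArea.{u} : Prop :=
  ∀ (X : Type u) [TopologicalSpace X] [CompactSpace X] [T2Space X] (M : MSurf X) (p₀ : X),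
    p₀ ∉ M.Sg → ∃ c : ℝ, 0 < c ∧ ∀ (g : SL(2, ℝ)) (ε : ℝ) (Z : Set X) (n : ℕ)
      (f : Fin n → ℂ → X) (V : Fin n → Fin 3 → ℂ), 0 < ε → M.IsGraph g ε Z → M.Cpx g ε Z n f V →
      (∀ x, x ∉ M.Sg → ∃ i, ∃ z ∈ TT (V i), f i z = x) → c ≤ n * ε ^ 2

/-- Module SBDY: a complex which does not cover the surface has a free side. -/
def FreeSide.{u} : Prop :=
  ∀ (X : Type u) [TopologicalSpace X] [CompactSpace X] [T2Space X] [ConnectedSpace X] (M : MSurf X)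
    (g : SL(2, ℝ)) (ε : ℝ) (Z : Set X) (n : ℕ) (f : Fin n → ℂ → X) (V : Fin n → Fin 3 → ℂ),
    M.IsGraph g ε Z → M.Cpx g ε Z n f V → (∃ p ∈ Z, p ∉ M.Sg) →
    (∃ x, x ∉ M.Sg ∧ ∀ i, ∀ z ∈ TT (V i), f i z ≠ x) →
    ∃ p ∈ Z, p ∉ M.Sg ∧ ∃ b, ‖act g b‖ < ε ∧ M.EdgeAt Z p b ∧ ∃ r : ℝ, 0 < r ∧
      ∀ z ∈ ball (0 : ℂ) r, 0 < cr b z → ∀ i, ∀ y ∈ TI (V i), f i y ≠ M.exp p z

/-- Module SHALF: half ellipses of large area are not contained in the domain of the exponential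
map, if there is no short closed trajectory. -/
def HalfEllipse.{u} : Prop :=
  ∀ (X : Type u) [TopologicalSpace X] [CompactSpace X] [T2Space X] (M : MSurf X),
    ∃ R : ℝ, 0 < R ∧ ∀ g : SL(2, ℝ), (∀ v, M.Closed v → 2 * R < ‖act g v‖) → ∀ p : X,
      ∀ b : ℂ, b ≠ 0 → ∃ z, 0 < cr b z ∧ ‖act g z‖ < R ∧ z ∉ M.Dom p

/-- Module SADD: adding a new triangle to a complex. -/
def AddTri.{u} : Prop :=
  ∀ (X : Type u) [TopologicalSpace X] [CompactSpace X] [T2Space X] (M : MSurf X)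
    (g : SL(2, ℝ)) (ε : ℝ) (Z : Set X) (n : ℕ) (f : Fin n → ℂ → X) (V : Fin n → Fin 3 → ℂ) (p : X)
    (b : ℂ) (t1 t2 : ℝ) (z0 : ℂ),
    M.IsGraph g ε Z → M.Cpx g ε Z n f V → p ∉ M.Sg → M.EdgeAt Z p b →
    (∃ r : ℝ, 0 < r ∧ ∀ z ∈ ball (0 : ℂ) r, 0 < cr b z → ∀ i, ∀ y ∈ TI (V i), f i y ≠ M.exp p z) →
    0 < t1 → 0 < t2 → t1 + t2 = 1 → 0 < cr b z0 → M.Tri (M.exp p) (MSurf.newV t1 t2 b z0) →
    TT (MSurf.newV t1 t2 b z0) ⊆ M.Dom p → TI (MSurf.newV t1 t2 b z0) ⊆ M.Free Z p b →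
    (∀ i, (∀ z ∈ TT (MSurf.newV t1 t2 b z0), lam (MSurf.newV t1 t2 b z0) i z = 0 → M.exp p z ∈ Z) ∨
        ∀ z ∈ TT (MSurf.newV t1 t2 b z0), lam (MSurf.newV t1 t2 b z0) i z = 0 → M.exp p z ∉ Z) →
    ∀ (g' : SL(2, ℝ)) (ε' : ℝ), (∀ v, ‖act g v‖ < ε → ‖act g' v‖ < ε') →
      (∀ j, ‖act g' (MSurf.newV t1 t2 b z0 (j + 1) - MSurf.newV t1 t2 b z0 j)‖ < ε') →
      ∃ (Z' : Set X) (f' : Fin (n + 1) → ℂ → X) (V' : Fin (n + 1) → Fin 3 → ℂ),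
        Z ⊆ Z' ∧ M.IsGraph g' ε' Z' ∧ M.Cpx g' ε' Z' (n + 1) f' V'

/-- Module SSTART: a first saddle connection of bounded length, if there is no short closed
trajectory. -/
def StartGraph.{u} : Prop :=
  ∀ (X : Type u) [TopologicalSpace X] [CompactSpace X] [T2Space X] (M : MSurf X) (p₀ : X),
    p₀ ∉ M.Sg → ∃ R : ℝ, 0 < R ∧ ∀ g : SL(2, ℝ), (∀ v, M.Closed v → 2 * R < ‖act g v‖) →
      ∃ (Z : Set X) (b : ℂ), b ≠ 0 ∧ ‖act g b‖ < R ∧ IsClosed Z ∧ M.Sg ⊆ Z ∧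
        (∃ p ∈ Z, p ∉ M.Sg) ∧ ∀ p ∈ Z, p ∉ M.Sg → M.EdgeAt Z p b

/-- FINAL assembly. -/
def FinalStatement.{u} : Prop :=
  ∀ (X : Type u) [TopologicalSpace X] [CompactSpace X] [T2Space X] [ConnectedSpace X]
    (M : TransStr X), M.CompletelyParabolic →
    ∃ Γ : Subgroup SL(2, ℝ), (∀ A, A ∈ Γ ↔ ∃ φ : X ≃ₜ X, M.IsAffine A φ) ∧ IsLattice Γ

end Pool.Agent.Lib.MP_755177_an
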