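import Pool.Agent.Lib.MP_755177_an.Spec2
import Pool.Agent.Lib.MP_755177_an.Spec3
import Pool.Agent.Lib.MP_755177_an.Spec4
import Pool.Agent.Lib.MP_755177_an.Spec

section
set_option autoImplicit false

/-!
# Modules AREA and COUNT
-/

open Set Filter Topology Complex Metric MeasureTheory
open scoped MatrixGroups ComplexConjugate ENNReal

namespace Pool.Agent.Lib.MP_755177_an

namespace Area

/-- Sets which cover each point at most `k` times. -/
theorem tsum_volume_le {ι : Type*} [Countable ι] {S : ι → Set ℂ} (hS : ∀ i, MeasurableSet (S i))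
    {B : Set ℂ} (hB : MeasurableSet B) (hSB : ∀ i, S i ⊆ B) {k : ℕ}
    (hk : ∀ (v : ℂ) (F : Finset ι), (∀ i ∈ F, v ∈ S i) → F.card ≤ k) :
    ∑' i, volume (S i) ≤ k * volume B := by
  classical
  calc ∑' i, volume (S i) = ∑' i, ∫⁻ v, (S i).indicator (fun _ => (1 : ℝ≥0∞)) v := by
        congr 1
        ext1 i
        rw [lintegral_indicator (hS i), setLIntegral_one]
    _ = ∫⁻ v, ∑' i, (S i).indicator (fun _ => (1 : ℝ≥0∞)) v := by
        rw [lintegral_tsum]
        intro i
        exact (measurable_const.indicator (hS i)).aemeasurable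
    _ ≤ ∫⁻ v, B.indicator (fun _ => (k : ℝ≥0∞)) v := by
        apply lintegral_mono
        intro v
        simp only
        rw [ENNReal.tsum_eq_iSup_sum]
        apply iSup_le
        intro F
        by_cases hv : v ∈ B
        · rw [indicator_of_mem hv]
          have h1 : ∑ i ∈ F, (S i).indicator (fun _ => (1 : ℝ≥0∞)) v =
              ((F.filter (fun i => v ∈ S i)).card : ℝ≥0∞) := by
            rw [Finset.card_filter]
            push_cast
            apply Finset.sum_congr rfl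
            intro i _
            simp [indicator_apply]
          rw [h1]
          exact_mod_cast hk v _ (fun i hi => (Finset.mem_filter.1 hi).2)
        · rw [indicator_of_notMem hv]
          apply le_of_eq
          apply Finset.sum_eq_zero
          intro i _
          exact indicator_of_notMem (fun h => hv (hSB i h)) _
    _ = k * volume B := by
        rw [lintegral_indicator hB, setLIntegral_const]

/-- A map which is locally a translation, with fibres of at most `k` elements. -/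
theorem volume_le_of_fibre {E : Set ℂ} (hE : IsOpen E) {h : ℂ → ℂ} {B : Set ℂ}
    (hB : MeasurableSet B) (hm : MapsTo h E B)
    (hloc : ∀ z ∈ E, ∃ c : ℂ, ∀ᶠ z' in 𝓝 z, h z' = z' + c) {k : ℕ}
    (hk : ∀ (w : ℂ) (F : Finset ℂ), (∀ z ∈ F, z ∈ E ∧ h z = w) → F.card ≤ k) :
    volume E ≤ k * volume B := by
  classical
  rcases E.eq_empty_or_nonempty with rfl | hne
  · simp
  have hex : ∀ z, ∃ (c : ℂ) (U : Set ℂ), z ∈ E → IsOpen U ∧ z ∈ U ∧ ∀ z' ∈ U, h z' = z' + c := by
    intro z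
    by_cases hz : z ∈ E
    · obtain ⟨c, hc⟩ := hloc z hz
      obtain ⟨U, hU, hUo, hzU⟩ := _root_.eventually_nhds_iff.1 hc
      exact ⟨c, U, fun _ => ⟨hUo, hzU, hU⟩⟩
    · exact ⟨0, ∅, fun h => absurd h hz⟩
  choose c U hU using hex
  obtain ⟨t, htE, htc, hcov⟩ := TopologicalSpace.countable_cover_nhdsWithin (s := E) (f := U)
    (fun z hz => mem_nhdsWithin_of_mem_nhds ((hU z hz).1.mem_nhds (hU z hz).2.1))
  have htne : t.Nonempty := by
    obtain ⟨z, hz⟩ := hne
    obtain ⟨x, hx, _⟩ := mem_iUnion₂.1 (hcov hz)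
    exact ⟨x, hx⟩
  obtain ⟨u, rfl⟩ := htc.exists_eq_range htne
  have huE : ∀ n, u n ∈ E := fun n => htE ⟨n, rfl⟩
  set V : ℕ → Set ℂ := fun n => U (u n) with hV
  have hVm : ∀ n, MeasurableSet (V n) := fun n => (hU _ (huE n)).1.measurableSet
  set D : ℕ → Set ℂ := disjointed V with hD
  have hDm : ∀ n, MeasurableSet (D n) := fun n => MeasurableSet.disjointed hVm n
  have hDV : ∀ n, D n ⊆ V n := fun n => disjointed_subset V n
  have hDd : Pairwise (Function.onFun Disjoint D) := disjoint_disjointed V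
  have hED : E ⊆ ⋃ n, E ∩ D n := by
    intro z hz
    have h1 : z ∈ ⋃ n, V n := by
      obtain ⟨x, ⟨n, rfl⟩, hx⟩ := mem_iUnion₂.1 (hcov hz)
      exact mem_iUnion.2 ⟨n, hx⟩
    rw [← iUnion_disjointed] at h1
    obtain ⟨n, hn⟩ := mem_iUnion.1 h1
    exact mem_iUnion.2 ⟨n, hz, hn⟩
  set S : ℕ → Set ℂ := fun n => (fun z => z + c (u n)) '' (E ∩ D n) with hS
  have hval : ∀ n, ∀ z ∈ D n, h z = z + c (u n) := fun n z hz =>
    (hU _ (huE n)).2.2 z (hDV n hz)
  have hSm : ∀ n, MeasurableSet (S n) := by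
    intro n
    have : MeasurableEmbedding (fun z : ℂ => z + c (u n)) :=
      (Homeomorph.addRight (c (u n))).measurableEmbedding
    exact this.measurableSet_image.2 (hE.measurableSet.inter (hDm n))
  have hSv : ∀ n, volume (S n) = volume (E ∩ D n) := by
    intro n
    rw [hS]
    simp only
    rw [image_add_right, measure_preimage_add_right]
  calc volume E ≤ volume (⋃ n, E ∩ D n) := measure_mono hED
    _ ≤ ∑' n, volume (E ∩ D n) := measure_iUnion_le _
    _ = ∑' n, volume (S n) := by simp_rw [hSv]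
    _ ≤ k * volume B := by
        apply tsum_volume_le hSm hB
        · rintro n _ ⟨z, ⟨hzE, hzD⟩, rfl⟩
          simp only
          rw [← hval n z hzD]
          exact hm hzE
        · intro w F hF
          have h1 : ∀ n ∈ F, ∃ z, z ∈ E ∧ z ∈ D n ∧ h z = w := by
            intro n hn
            obtain ⟨z, ⟨hzE, hzD⟩, hzw⟩ := hF n hn
            exact ⟨z, hzE, hzD, by rw [hval n z hzD]; exact hzw⟩
          choose! y hy using h1
          have hinj : InjOn y F := by
            intro a ha b hb hab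
            by_contra hne
            have h2 := hDd hne
            exact disjoint_left.1 h2 (hy a ha).2.1 (hab ▸ (hy b hb).2.1)
          rw [← Finset.card_image_of_injOn hinj]
          apply hk w
          intro z hz
          obtain ⟨n, hn, rfl⟩ := Finset.mem_image.1 hz
          exact ⟨(hy n hn).1, (hy n hn).2.2⟩

/-- Number of roots. -/
theorem card_roots_le {k : ℕ} (hk : 0 < k) (w : ℂ) (F : Finset ℂ) (hF : ∀ y ∈ F, y ^ k = w) :
    F.card ≤ k := by
  classical
  have h1 : F ⊆ (Polynomial.nthRoots k w).toFinset := by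
    intro y hy
    rw [Multiset.mem_toFinset, Polynomial.mem_nthRoots hk]
    exact hF y hy
  calc F.card ≤ (Polynomial.nthRoots k w).toFinset.card := Finset.card_le_card h1
    _ ≤ Multiset.card (Polynomial.nthRoots k w) := Multiset.toFinset_card_le _
    _ ≤ k := Polynomial.card_nthRoots k w

end Area

open Area in
theorem areaBound : AreaBound := by
  classical
  intro X _ _ _ M
  let C : ∀ p : X, M.Cone p := fun p => Classical.choice (MSurf.exists_cone (M := M) p)
  set D : X → Set X := fun p => (C p).ζ.source ∩ (C p).ζ ⁻¹' {y : ℂ | ‖y‖ ^ (C p).k < (C p).r}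
    with hD
  have hDo : ∀ p, IsOpen (D p) := fun p =>
    (C p).ζ.isOpen_inter_preimage (isOpen_lt (by fun_prop) continuous_const)
  have hpD : ∀ p, p ∈ D p := by
    intro p
    refine ⟨(C p).mem, ?_⟩
    simp only [mem_preimage, mem_ofPred_eq]
    rw [(C p).zero, norm_zero, zero_pow (C p).hk.ne']
    exact (C p).hr
  obtain ⟨t, -, ht⟩ := isCompact_univ.elim_nhds_subcover D (fun p _ => (hDo p).mem_nhds (hpD p))
  refine ⟨1 + ∑ p ∈ t, (C p).k * (volume (ball (0 : ℂ) (C p).r)).toReal, by positivity, ?_⟩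
  intro E f hE hf hinj
  have hpc : ∀ p, volume (E ∩ f ⁻¹' D p) ≤ (C p).k * volume (ball (0 : ℂ) (C p).r) := by
    intro p
    have hEo : IsOpen (E ∩ f ⁻¹' D p) := hf.1.1.isOpen_inter_preimage hE (hDo p)
    apply volume_le_of_fibre hEo (h := fun z => (C p).ζ (f z) ^ (C p).k) measurableSet_ball
    · intro z hz
      rw [mem_ball_zero_iff, norm_pow]
      exact hz.2.2
    · intro z hz
      obtain ⟨c, hc⟩ := hf.1.2 z hz.1 (C p).a (C p).ha ((C p).sub hz.2.1)
      rw [hE.nhdsWithin_eq hz.1] at hc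
      refine ⟨c - (C p).a.2 p, ?_⟩
      filter_upwards [hc, hEo.mem_nhds hz] with z' e1 e2
      have := (C p).form _ e2.2.1
      rw [e1] at this
      linear_combination -this
    · intro w F hF
      have hinj' : InjOn (fun z => (C p).ζ (f z)) F := by
        intro z hz z' hz' hzz
        have h1 := (hF z hz).1
        have h2 := (hF z' hz').1
        exact hinj h1.1 h2.1 ((C p).ζ.injOn h1.2.1 h2.2.1 hzz)
      rw [← Finset.card_image_of_injOn hinj']
      apply card_roots_le (C p).hk w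
      intro y hy
      obtain ⟨z, hz, rfl⟩ := Finset.mem_image.1 hy
      exact (hF z hz).2
  calc volume E ≤ volume (⋃ p ∈ t, E ∩ f ⁻¹' D p) := by
        apply measure_mono
        intro z hz
        obtain ⟨p, hp, hzp⟩ := mem_iUnion₂.1 (ht (mem_univ (f z)))
        exact mem_iUnion₂.2 ⟨p, hp, hz, hzp⟩
    _ ≤ ∑ p ∈ t, volume (E ∩ f ⁻¹' D p) := measure_biUnion_finset_le _ _
    _ ≤ ∑ p ∈ t, (C p).k * volume (ball (0 : ℂ) (C p).r) := Finset.sum_le_sum fun p _ => hpc p
    _ = ENNReal.ofReal (∑ p ∈ t, (C p).k * (volume (ball (0 : ℂ) (C p).r)).toReal) := by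
        rw [ENNReal.ofReal_sum_of_nonneg (fun p _ => by positivity)]
        apply Finset.sum_congr rfl
        intro p _
        rw [ENNReal.ofReal_mul (by positivity), ENNReal.ofReal_natCast,
          ENNReal.ofReal_toReal measure_ball_lt_top.ne]
    _ ≤ _ := ENNReal.ofReal_le_ofReal (by linarith)

open Area in
theorem cornerCount : CornerCount := by
  classical
  intro X _ _ _ M
  let C : ∀ p : X, M.Cone p := fun p => Classical.choice (MSurf.exists_cone (M := M) p)
  set T : Finset X := M.finite_Sg.toFinset with hT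
  have hTm : ∀ q, q ∈ T ↔ q ∈ M.Sg := fun q => by rw [hT, Set.Finite.mem_toFinset]
  refine ⟨1 + ∑ q ∈ T, ((C q).k : ℝ), by positivity, ?_⟩
  intro ι _ E f Z hE hconv hf hinj hdisj hZ
  obtain ⟨ρ₀, hρ₀, hρ₀r⟩ : ∃ ρ₀ : ℝ, 0 < ρ₀ ∧ ∀ q ∈ T, ρ₀ ≤ (C q).r := by
    rcases T.eq_empty_or_nonempty with h | h
    · exact ⟨1, one_pos, by rw [h]; simp⟩
    · refine ⟨T.inf' h fun q => (C q).r, ?_, fun q hq => Finset.inf'_le _ hq⟩
      rw [Finset.lt_inf'_iff]
      exact fun q _ => (C q).hr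
  refine ⟨ρ₀, hρ₀, fun ρ hρ hρρ => ?_⟩
  rcases isEmpty_or_nonempty X with hX | hX
  · have : IsEmpty ι := ⟨fun i => isEmptyElim (f i 0)⟩
    simp
  -- index set: pairs
  set P : Finset (ι × ℂ) := Finset.univ.biUnion fun i => (Z i).image fun z => (i, z) with hP
  have hPm : ∀ q : ι × ℂ, q ∈ P ↔ q.2 ∈ Z q.1 := by
    rintro ⟨i, z⟩
    simp [hP]
  have hlim : ∀ s ∈ P, ∃ q ∈ T, Tendsto (f s.1) (𝓝[E s.1] s.2) (𝓝 q) ∧ s.2 ∈ closure (E s.1) := by
    intro s hs
    obtain ⟨h1, q, hq, h2⟩ := hZ s.1 s.2 ((hPm s).1 hs)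
    exact ⟨q, (hTm q).2 hq, h2, h1⟩
  choose! Q hQT hQl hQc using hlim
  have hsum : ∑ i, ∑ z ∈ Z i, volume (E i ∩ ball z ρ) =
      ∑ s ∈ P, volume (E s.1 ∩ ball s.2 ρ) := by
    rw [hP, Finset.sum_biUnion]
    · apply Finset.sum_congr rfl
      intro i _
      rw [Finset.sum_image]
      intro a _ b _ hab
      exact (Prod.mk.inj hab).2
    · intro i _ j _ hij
      rw [Function.onFun, Finset.disjoint_left]
      intro s hs hs'
      obtain ⟨z, _, rfl⟩ := Finset.mem_image.1 hs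
      obtain ⟨z', _, h2⟩ := Finset.mem_image.1 hs'
      exact hij (Prod.mk.inj h2).1.symm
  have hfib : ∑ s ∈ P, volume (E s.1 ∩ ball s.2 ρ) =
      ∑ q ∈ T, ∑ s ∈ P with Q s = q, volume (E s.1 ∩ ball s.2 ρ) :=
    (Finset.sum_fiberwise_of_maps_to (fun s hs => hQT s hs) _).symm
  have hq : ∀ q ∈ T, ∑ s ∈ P with Q s = q, volume (E s.1 ∩ ball s.2 ρ) ≤
      (C q).k * volume (ball (0 : ℂ) ρ) := by
    intro q hq
    set P' : Finset (ι × ℂ) := P.filter fun s => Q s = q with hP'
    have hP'm : ∀ s ∈ P', s ∈ P ∧ Q s = q := fun s hs => Finset.mem_filter.1 hs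
    have hkey : ∀ s ∈ P', ∀ v : ℂ, s.2 + v ∈ E s.1 → ‖v‖ < ρ →
        f s.1 (s.2 + v) ∈ (C q).ζ.source ∧ (C q).ζ (f s.1 (s.2 + v)) ^ (C q).k = v := by
      intro s hs v hv hvn
      obtain ⟨hsP, hsQ⟩ := hP'm s hs
      have h1 := (C q).of_tendsto (hf s.1).1 (hconv s.1) (hQc s hsP) (hsQ ▸ hQl s hsP) hv (by
        rw [add_sub_cancel_left]
        exact hvn.trans (hρρ.trans_le (hρ₀r q hq)))
      rw [add_sub_cancel_left] at h1
      exact h1
    rw [← Finset.sum_coe_sort P', ← tsum_fintype (L := .unconditional _)]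
    have hvol : ∀ s : P', volume (E s.1.1 ∩ ball s.1.2 ρ) =
        volume {v : ℂ | s.1.2 + v ∈ E s.1.1 ∧ ‖v‖ < ρ} := by
      intro s
      have : {v : ℂ | s.1.2 + v ∈ E s.1.1 ∧ ‖v‖ < ρ} =
          (fun v => s.1.2 + v) ⁻¹' (E s.1.1 ∩ ball s.1.2 ρ) := by
        ext v
        simp only [mem_ofPred_eq, mem_preimage, mem_inter_iff, mem_ball_iff_norm,
          add_sub_cancel_left]
      rw [this, measure_preimage_add]
    simp_rw [hvol]
    apply tsum_volume_le
    · intro s
      have h1 : IsOpen ((fun v => s.1.2 + v) ⁻¹' (E s.1.1)) :=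
        (hE s.1.1).preimage (by fun_prop)
      have h2 : IsOpen {v : ℂ | ‖v‖ < ρ} := isOpen_lt continuous_norm continuous_const
      exact (h1.inter h2).measurableSet
    · exact measurableSet_ball
    · intro s v hv
      rw [mem_ball_zero_iff]
      exact hv.2
    · intro v F hF
      have hinj' : InjOn (fun s : P' => (C q).ζ (f s.1.1 (s.1.2 + v))) F := by
        intro s hs s' hs' hss
        have h1 := hF s hs
        have h2 := hF s' hs'
        have h3 := hkey s.1 s.2 v h1.1 h1.2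
        have h4 := hkey s'.1 s'.2 v h2.1 h2.2
        have h5 := (C q).ζ.injOn h3.1 h4.1 hss
        have h6 : s.1.1 = s'.1.1 := by
          by_contra hne
          exact disjoint_left.1 (hdisj _ _ hne) ⟨_, h1.1, rfl⟩ ⟨_, h2.1, h5.symm⟩
        have h7 : s.1.2 = s'.1.2 := by
          have h8 : s'.1.2 + v ∈ E s.1.1 := by rw [h6]; exact h2.1
          have h9 : f s.1.1 (s.1.2 + v) = f s.1.1 (s'.1.2 + v) := by rw [h5, h6]
          exact add_right_cancel (hinj s.1.1 h1.1 h8 h9)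
        exact Subtype.ext (Prod.ext h6 h7)
      rw [← Finset.card_image_of_injOn hinj']
      apply card_roots_le (C q).hk v
      intro y hy
      obtain ⟨s, hs, rfl⟩ := Finset.mem_image.1 hy
      have h1 := hF s hs
      exact (hkey s.1 s.2 v h1.1 h1.2).2
  rw [hsum, hfib]
  calc _ ≤ ∑ q ∈ T, (C q).k * volume (ball (0 : ℂ) ρ) := Finset.sum_le_sum hq
    _ = (∑ q ∈ T, ((C q).k : ℝ≥0∞)) * volume (ball (0 : ℂ) ρ) := by rw [Finset.sum_mul]
    _ ≤ _ := by
        gcongr
        rw [ENNReal.ofReal_add (by norm_num) (by positivity),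
          ENNReal.ofReal_sum_of_nonneg (fun p _ => by positivity)]
        simp only [ENNReal.ofReal_natCast]
        exact le_add_self

end Pool.Agent.Lib.MP_755177_an
end

section
set_option autoImplicit false

/-!
# Module PATCH
-/

open Set Filter Topology Complex Metric MeasureTheory
open scoped MatrixGroups ComplexConjugate

namespace Pool.Agent.Lib.MP_755177_an

namespace Patch

theorem isConnected_punctured_ball {r : ℝ} (hr : 0 < r) :
    IsConnected (ball (0 : ℂ) r \ {0}) := by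
  have h1 : ball (0 : ℂ) r \ {0} =
      (fun q : ℝ × ℂ => (q.1 : ℂ) * q.2) '' (Ioo 0 r ×ˢ sphere (0 : ℂ) 1) := by
    ext z
    constructor
    · rintro ⟨hz, hz0⟩
      have hz0' : z ≠ 0 := hz0
      have hn : 0 < ‖z‖ := norm_pos_iff.2 hz0'
      refine ⟨(‖z‖, (‖z‖ : ℂ)⁻¹ * z), ⟨⟨hn, by simpa using hz⟩, ?_⟩, ?_⟩
      · simp [hn.ne']
      · have : (‖z‖ : ℂ) ≠ 0 := by exact_mod_cast hn.ne'
        simp only
        field_simp
    · rintro ⟨⟨t, u⟩, ⟨⟨ht0, ht1⟩, hu⟩, rfl⟩
      simp only [mem_sphere_zero_iff_norm] at ht0 ht1 hu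
      have hu0 : u ≠ 0 := by
        rintro rfl
        simp at hu
      refine ⟨?_, ?_⟩
      · simp only [mem_ball_zero_iff, norm_mul, Complex.norm_real, Real.norm_eq_abs,
          abs_of_pos ht0, hu, mul_one]
        exact ht1
      · simp [ht0.ne', hu0]
  rw [h1]
  have h2 : IsConnected (sphere (0 : ℂ) 1) :=
    isConnected_sphere (by rw [Complex.rank_real_complex]; norm_num) 0 zero_le_one
  exact ((isConnected_Ioo hr).prod h2).image _ (by fun_prop)

section top

variable {X : Type*} [TopologicalSpace X]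

/-- Every point has arbitrarily small open neighbourhoods which stay connected after removing the
point. -/
def PuncConn (X : Type*) [TopologicalSpace X] : Prop :=
  ∀ x : X, ∀ V ∈ 𝓝 x, ∃ U, IsOpen U ∧ x ∈ U ∧ U ⊆ V ∧ IsConnected (U \ {x})

theorem puncConn (M : TransStr X) : PuncConn X := by
  intro x V hV
  obtain ⟨a, ha, k, ζ, hk, h1, h2, h3, h4⟩ := M.normal_form x
  have h5 : (0 : ℂ) ∈ ζ.target := by
    have := ζ.map_source h1
    rwa [h3] at this
  have h6 : ζ.symm 0 = x := by rw [← h3]; exact ζ.left_inv h1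
  have h7 : ζ.symm ⁻¹' (interior V) ∩ ζ.target ∈ 𝓝 (0 : ℂ) := by
    apply inter_mem
    · have h8 := (ζ.continuousAt_symm h5).preimage_mem_nhds (t := interior V)
      apply h8
      rw [h6]
      exact interior_mem_nhds.2 hV
    · exact ζ.open_target.mem_nhds h5
  obtain ⟨r, hr, hrs⟩ := Metric.mem_nhds_iff.1 h7
  have hbt : ball (0 : ℂ) r ⊆ ζ.target := fun z hz => (hrs hz).2
  refine ⟨ζ.symm '' ball 0 r, ?_, ⟨0, mem_ball_self hr, h6⟩, ?_, ?_⟩
  · exact ζ.isOpen_image_symm_of_subset_target isOpen_ball hbt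
  · rintro _ ⟨z, hz, rfl⟩
    exact interior_subset (hrs hz).1
  · have h9 : ζ.symm '' ball 0 r \ {x} = ζ.symm '' (ball 0 r \ {0}) := by
      ext y
      constructor
      · rintro ⟨⟨z, hz, rfl⟩, hne⟩
        refine ⟨z, ⟨hz, ?_⟩, rfl⟩
        rintro rfl
        exact hne h6
      · rintro ⟨z, ⟨hz, hz0⟩, rfl⟩
        refine ⟨⟨z, hz, rfl⟩, ?_⟩
        intro h
        apply hz0
        have : ζ.symm z = ζ.symm 0 := by rw [h6]; exact h
        exact ζ.symm.injOn (hbt hz) h5 this
    rw [h9]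
    exact (isConnected_punctured_ball hr).image _
      (ζ.continuousOn_symm.mono (sdiff_subset.trans hbt))

theorem PuncConn.neBot (h : PuncConn X) (x : X) : (𝓝[≠] x).NeBot := by
  rw [nhdsWithin_neBot]
  intro V hV
  obtain ⟨U, hU, hxU, hUV, hc⟩ := h x V hV
  obtain ⟨y, hy⟩ := hc.nonempty
  exact ⟨y, hUV hy.1, hy.2⟩

/-- Extension over finitely many points. -/
theorem exists_limit [CompactSpace X] [T2Space X] (hX : PuncConn X) {O O' : Set X}
    (hO' : IsOpen O') (hf : Oᶜ.Finite) (hf' : O'ᶜ.Finite) {f g : X → X}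
    (hfc : ContinuousOn f O) (hgc : ContinuousOn g O')
    (hm' : MapsTo g O' O) (hgf : ∀ x ∈ O, g (f x) = x)
    (x : X) (hx : x ∉ O) : ∃ y, Tendsto f (𝓝[≠] x) (𝓝 y) := by
  have hne := hX.neBot x
  -- separation of the missing points of the target
  obtain ⟨W, hW, hdisj⟩ := hf'.t2_separation
  have hWo : ∀ y, IsOpen (W y) := fun y => (hW y).2
  have hWm : ∀ y, y ∈ W y := fun y => (hW y).1
  set N : Set X := (⋃ y ∈ O'ᶜ, W y)ᶜ with hN
  have hNc : IsClosed N := (isOpen_biUnion fun y _ => hWo y).isClosed_compl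
  have hNO : N ⊆ O' := by
    intro y hy
    by_contra hcon
    exact hy (mem_biUnion (show y ∈ O'ᶜ from hcon) (hWm y))
  have hK : IsCompact (g '' N) := hNc.isCompact.image_of_continuousOn (hgc.mono hNO)
  have hKx : x ∉ g '' N := by
    rintro ⟨y, hy, rfl⟩
    exact hx (hm' (hNO hy))
  have hTx : (Oᶜ \ {x}).Finite := hf.subset sdiff_subset
  have hV : (g '' N)ᶜ ∩ (Oᶜ \ {x})ᶜ ∈ 𝓝 x := by
    apply inter_mem
    · exact hK.isClosed.isOpen_compl.mem_nhds hKx
    · exact hTx.isClosed.isOpen_compl.mem_nhds (fun h => h.2 rfl)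
  obtain ⟨U, hU, hxU, hUV, hconn⟩ := hX x _ hV
  have hUO : U \ {x} ⊆ O := by
    intro y hy
    by_contra hcon
    exact (hUV hy.1).2 ⟨hcon, hy.2⟩
  have hfU : f '' (U \ {x}) ⊆ ⋃ y ∈ O'ᶜ, W y := by
    rintro _ ⟨y, hy, rfl⟩
    by_contra hcon
    apply (hUV hy.1).1
    exact ⟨f y, hcon, hgf y (hUO hy)⟩
  have hfconn : IsConnected (f '' (U \ {x})) := hconn.image _ (hfc.mono hUO)
  obtain ⟨p, hp⟩ := hfconn.nonempty
  obtain ⟨y, hyT, hpy⟩ := mem_iUnion₂.1 (hfU hp)
  have hsub : f '' (U \ {x}) ⊆ W y := by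
    have h1 : f '' (U \ {x}) ⊆ W y ∪ ⋃ y' ∈ O'ᶜ \ {y}, W y' := by
      intro q hq
      obtain ⟨y', hy', hqy⟩ := mem_iUnion₂.1 (hfU hq)
      by_cases h : y' = y
      · left; rw [← h]; exact hqy
      · right; exact mem_biUnion (show y' ∈ O'ᶜ \ {y} from ⟨hy', h⟩) hqy
    have h2 : Disjoint (W y) (⋃ y' ∈ O'ᶜ \ {y}, W y') := by
      rw [disjoint_iUnion₂_right]
      intro y' hy'
      exact hdisj hyT hy'.1 (fun h => hy'.2 h.symm)
    exact hfconn.isPreconnected.subset_left_of_subset_union (hWo y)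
      (isOpen_biUnion fun y _ => hWo y) h2 h1 ⟨p, hp, hpy⟩
  refine ⟨y, ?_⟩
  apply le_nhds_of_unique_clusterPt
  intro z hz
  -- cluster points are not in the good set
  have hzT : z ∉ O' := by
    intro hzO
    have h3 : ∃ K ∈ 𝓝 z, K ⊆ O' ∧ IsCompact K := local_compact_nhds (hO'.mem_nhds hzO)
    obtain ⟨K, hKn, hKO, hKc⟩ := h3
    have h4 : IsCompact (g '' K) := hKc.image_of_continuousOn (hgc.mono hKO)
    have h5 : x ∉ g '' K := by
      rintro ⟨w, hw, rfl⟩
      exact hx (hm' (hKO hw))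
    have h6 : ∀ᶠ w in 𝓝[≠] x, w ∉ g '' K :=
      mem_nhdsWithin_of_mem_nhds (h4.isClosed.isOpen_compl.mem_nhds h5)
    have h7 : ∀ᶠ w in 𝓝[≠] x, w ∈ U \ {x} := by
      rw [Set.sdiff_eq]
      exact inter_mem (mem_nhdsWithin_of_mem_nhds (hU.mem_nhds hxU)) self_mem_nhdsWithin
    have h8 : ∀ᶠ w in map f (𝓝[≠] x), w ∉ K := by
      rw [eventually_map]
      filter_upwards [h6, h7] with w e6 e7 e8
      exact e6 ⟨f w, e8, hgf w (hUO e7)⟩
    have h9 := hz.frequently hKn
    exact h9 h8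
  by_contra hne'
  have h10 : Disjoint (W z) (W y) := hdisj hzT hyT hne'
  have h11 : ∀ᶠ w in map f (𝓝[≠] x), w ∉ W z := by
    rw [eventually_map]
    have h7 : ∀ᶠ w in 𝓝[≠] x, w ∈ U \ {x} := by
      rw [Set.sdiff_eq]
      exact inter_mem (mem_nhdsWithin_of_mem_nhds (hU.mem_nhds hxU)) self_mem_nhdsWithin
    filter_upwards [h7] with w e7 e8
    exact disjoint_left.1 h10 e8 (hsub ⟨w, e7, rfl⟩)
  exact (hz.frequently ((hWo z).mem_nhds (hWm z))) h11

/-- Extension of a continuous map over finitely many points. -/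
theorem exists_extension [CompactSpace X] [T2Space X] (hX : PuncConn X) {O O' : Set X}
    (hO : IsOpen O) (hO' : IsOpen O') (hf : Oᶜ.Finite) (hf' : O'ᶜ.Finite) {f g : X → X}
    (hfc : ContinuousOn f O) (hgc : ContinuousOn g O')
    (hm' : MapsTo g O' O) (hgf : ∀ x ∈ O, g (f x) = x) :
    ∃ φ : X → X, Continuous φ ∧ EqOn φ f O := by
  classical
  have h1 : ∀ x, ∃ y, x ∉ O → Tendsto f (𝓝[≠] x) (𝓝 y) := by
    intro x
    by_cases hx : x ∈ O
    · exact ⟨x, fun h => absurd hx h⟩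
    · obtain ⟨y, hy⟩ := exists_limit hX hO' hf hf' hfc hgc hm' hgf x hx
      exact ⟨y, fun _ => hy⟩
  choose l hl using h1
  refine ⟨fun x => if x ∈ O then f x else l x, ?_, fun x hx => if_pos hx⟩
  rw [continuous_iff_continuousAt]
  intro x
  by_cases hx : x ∈ O
  · have h2 : (fun x => if x ∈ O then f x else l x) =ᶠ[𝓝 x] f := by
      filter_upwards [hO.mem_nhds hx] with y hy
      exact if_pos hy
    exact (hfc.continuousAt (hO.mem_nhds hx)).congr h2.symm
  · rw [← continuousWithinAt_compl_self]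
    have hTx : (Oᶜ \ {x}).Finite := hf.subset sdiff_subset
    have h3 : ∀ᶠ y in 𝓝[≠] x, y ∈ O := by
      have h4 : (Oᶜ \ {x})ᶜ ∈ 𝓝 x := hTx.isClosed.isOpen_compl.mem_nhds (fun h => h.2 rfl)
      filter_upwards [mem_nhdsWithin_of_mem_nhds h4, self_mem_nhdsWithin] with y e1 e2
      by_contra hcon
      exact e1 ⟨hcon, e2⟩
    have h5 : Tendsto (fun x => if x ∈ O then f x else l x) (𝓝[≠] x) (𝓝 (l x)) := by
      refine (hl x hx).congr' ?_
      filter_upwards [h3] with y hy
      exact (if_pos hy).symm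
    have h6 : (if x ∈ O then f x else l x) = l x := if_neg hx
    unfold ContinuousWithinAt
    simp only [h6]
    exact h5

/-- A set with finite complement is dense. -/
theorem dense_of_finite_compl [T1Space X] (hX : PuncConn X) {O : Set X} (hf : Oᶜ.Finite) :
    Dense O := by
  intro x
  rw [mem_closure_iff_nhdsWithin_neBot]
  by_cases hx : x ∈ O
  · exact mem_closure_iff_nhdsWithin_neBot.1 (subset_closure hx)
  · have hne := hX.neBot x
    have hTx : (Oᶜ \ {x}).Finite := hf.subset sdiff_subset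
    have h3 : O ∈ 𝓝[≠] x := by
      have h4 : (Oᶜ \ {x})ᶜ ∈ 𝓝 x := hTx.isClosed.isOpen_compl.mem_nhds (fun h => h.2 rfl)
      filter_upwards [mem_nhdsWithin_of_mem_nhds h4, self_mem_nhdsWithin] with y e1 e2
      by_contra hcon
      exact e1 ⟨hcon, e2⟩
    have h5 : 𝓝[≠] x ≤ 𝓝[O] x := by
      rw [nhdsWithin, nhdsWithin]
      apply le_inf inf_le_left
      rw [le_principal_iff]
      exact h3
    exact hne.mono h5

/-- Two partial inverses extend to a homeomorphism. -/
theorem exists_homeo [CompactSpace X] [T2Space X] (hX : PuncConn X) {O O' : Set X}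
    (hO : IsOpen O) (hO' : IsOpen O') (hf : Oᶜ.Finite) (hf' : O'ᶜ.Finite) {f g : X → X}
    (hfc : ContinuousOn f O) (hgc : ContinuousOn g O')
    (hm : MapsTo f O O') (hm' : MapsTo g O' O) (hgf : ∀ x ∈ O, g (f x) = x)
    (hfg : ∀ x ∈ O', f (g x) = x) : ∃ φ : X ≃ₜ X, EqOn φ f O := by
  obtain ⟨φ, hφ, hφe⟩ := exists_extension hX hO hO' hf hf' hfc hgc hm' hgf
  obtain ⟨ψ, hψ, hψe⟩ := exists_extension hX hO' hO hf' hf hgc hfc hm hfg
  have h1 : ψ ∘ φ = id := by
    apply (hψ.comp hφ).ext_on (dense_of_finite_compl hX hf) continuous_id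
    intro x hx
    simp only [Function.comp, id]
    rw [hφe hx, hψe (hm hx), hgf x hx]
  have h2 : φ ∘ ψ = id := by
    apply (hφ.comp hψ).ext_on (dense_of_finite_compl hX hf') continuous_id
    intro x hx
    simp only [Function.comp, id]
    rw [hψe hx, hφe (hm' hx), hfg x hx]
  exact ⟨⟨⟨φ, ψ, fun x => congrFun h1 x, fun x => congrFun h2 x⟩, hφ, hψ⟩, hφe⟩

end top

section tr

variable {X : Type*} [TopologicalSpace X] {M : MSurf X}

/-- Translation maps are local homeomorphisms. -/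
theorem IsTr.map_nhds {f : ℂ → X} {S : Set ℂ} (hf : M.IsTr f S) (hS : IsOpen S) {z : ℂ}
    (hz : z ∈ S) : map f (𝓝 z) = 𝓝 (f z) := by
  obtain ⟨a, ha, ζ, h1, h2, h3, h4⟩ := M.regular (f z) (hf.2 z hz)
  obtain ⟨c, hc⟩ := hf.1.2 z hz a ha (h2 h1)
  rw [hS.nhdsWithin_eq hz] at hc
  have h5 : ∀ᶠ z' in 𝓝 z, f z' ∈ ζ.source :=
    (hf.1.1.continuousAt (hS.mem_nhds hz)).eventually (ζ.open_source.mem_nhds h1)
  have h6 := hc.self_of_nhds
  have h7 : ∀ᶠ z' in 𝓝 z, f z' = ζ.symm (z' - z) := by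
    filter_upwards [hc, h5] with z' e1 e2
    have e3 : ζ (f z') = z' - z := by
      have := h4 _ e2
      rw [e1, h6] at this
      linear_combination -this
    rw [← e3, ζ.left_inv e2]
  have h8 : (0 : ℂ) ∈ ζ.target := by
    have := ζ.map_source h1
    rwa [h3] at this
  rw [Filter.map_congr h7]
  have h9 : map (fun z' : ℂ => ζ.symm (z' - z)) (𝓝 z) = map ζ.symm (map (fun z' => z' - z) (𝓝 z)) :=
    (Filter.map_map).symm
  have h10 : map (fun z' : ℂ => z' - z) (𝓝 z) = 𝓝 0 := by simp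
  rw [h9, h10]
  have h11 := ζ.symm.map_nhds_eq (x := (0 : ℂ)) h8
  have h12 : ζ.symm 0 = f z := by rw [← h3]; exact ζ.left_inv h1
  rw [h11, h12]

theorem act_add (A : SL(2, ℝ)) (z w : ℂ) : act A (z + w) = act A z + act A w := by
  apply Complex.ext
  · simp only [act, Complex.add_re, Complex.add_im]; ring
  · simp only [act, Complex.add_re, Complex.add_im]; ring

theorem act_sub (A : SL(2, ℝ)) (z w : ℂ) : act A (z - w) = act A z - act A w := by
  apply Complex.ext
  · simp only [act, Complex.sub_re, Complex.sub_im]; ring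
  · simp only [act, Complex.sub_re, Complex.sub_im]; ring

theorem continuous_act (A : SL(2, ℝ)) : Continuous (act A) := by
  have h : act A = fun z : ℂ => ((A 0 0 * z.re + A 0 1 * z.im : ℝ) : ℂ) +
      ((A 1 0 * z.re + A 1 1 * z.im : ℝ) : ℂ) * Complex.I := by
    ext1 z
    apply Complex.ext <;> simp [act]
  rw [h]
  fun_prop

theorem act_inv_act (A : SL(2, ℝ)) (z : ℂ) : act A⁻¹ (act A z) = z := by
  have hdet : A 0 0 * A 1 1 - A 0 1 * A 1 0 = 1 := by
    have := A.det_coe
    rwa [Matrix.det_fin_two] at this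
  have e00 : A⁻¹ 0 0 = A 1 1 := by rw [Matrix.SpecialLinearGroup.SL2_inv_expl]; rfl
  have e01 : A⁻¹ 0 1 = -A 0 1 := by rw [Matrix.SpecialLinearGroup.SL2_inv_expl]; rfl
  have e10 : A⁻¹ 1 0 = -A 1 0 := by rw [Matrix.SpecialLinearGroup.SL2_inv_expl]; rfl
  have e11 : A⁻¹ 1 1 = A 0 0 := by rw [Matrix.SpecialLinearGroup.SL2_inv_expl]; rfl
  apply Complex.ext
  · simp only [act, e00, e01, e10, e11]
    linear_combination z.re * hdet
  · simp only [act, e00, e01, e10, e11]
    linear_combination z.im * hdet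

theorem isOpen_act_image (A : SL(2, ℝ)) {E : Set ℂ} (hE : IsOpen E) : IsOpen (act A '' E) := by
  have h : act A '' E = act A⁻¹ ⁻¹' E := by
    ext z
    constructor
    · rintro ⟨w, hw, rfl⟩
      rw [mem_preimage, act_inv_act]
      exact hw
    · intro hz
      refine ⟨act A⁻¹ z, hz, ?_⟩
      have := act_inv_act A⁻¹ z
      rwa [inv_inv] at this
  rw [h]
  exact hE.preimage (continuous_act _)

/-- Local primitives are continuous. -/
theorem continuousAt_prim {M : TransStr X} {a : Set X × (X → ℂ)} (ha : a ∈ M.atlas) {p : X}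
    (hp : p ∈ a.1) : ContinuousAt a.2 p := by
  obtain ⟨b, hb, k, ζ, hk, h1, h2, h3, h4⟩ := M.normal_form p
  obtain ⟨c, hc⟩ := M.compat a ha b hb p hp (h2 h1)
  have h5 : ∀ᶠ x in 𝓝 p, a.2 x = b.2 p + ζ x ^ k + c := by
    filter_upwards [hc, ζ.open_source.mem_nhds h1] with x e1 e2
    rw [e1, h4 x e2]
  have h6 : ContinuousAt (fun x => b.2 p + ζ x ^ k + c) p :=
    (continuousAt_const.add ((ζ.continuousAt h1).pow k)).add continuousAt_const
  exact h6.congr (h5.mono fun x hx => hx.symm)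

end tr

end Patch

open Patch in
theorem patchStatement : PatchStatement := by
  classical
  intro X _ _ _ M A ι _ E F G hE hF hG hfin hfin' hpat
  have hX : PuncConn X := puncConn M.toTransStr
  set O : Set X := ⋃ i, F i '' E i with hOdef
  set O' : Set X := ⋃ i, G i '' (act A '' E i) with hO'def
  have hmF : ∀ i, ∀ z ∈ E i, map (F i) (𝓝 z) = 𝓝 (F i z) := fun i z hz =>
    IsTr.map_nhds (hF i) (hE i) hz
  have hmG : ∀ i, ∀ z ∈ E i, map (G i) (𝓝 (act A z)) = 𝓝 (G i (act A z)) := fun i z hz =>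
    IsTr.map_nhds (hG i) (isOpen_act_image A (hE i)) ⟨z, hz, rfl⟩
  have hevG : ∀ i, ∀ z ∈ E i, ∀ P : X → Prop, (∀ᶠ w in 𝓝 z, P (G i (act A w))) →
      ∀ᶠ x in 𝓝 (G i (act A z)), P x := by
    intro i z hz P hP
    rw [← hmG i z hz, eventually_map]
    have h1 : Tendsto (act A⁻¹) (𝓝 (act A z)) (𝓝 z) := by
      have := (continuous_act A⁻¹).tendsto (act A z)
      rwa [act_inv_act] at this
    filter_upwards [h1.eventually hP] with w hw
    have := act_inv_act A⁻¹ w
    rw [inv_inv] at this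
    rwa [this] at hw
  have hO : IsOpen O := by
    rw [isOpen_iff_mem_nhds]
    intro x hx
    obtain ⟨i, z, hz, rfl⟩ := mem_iUnion.1 hx
    rw [← hmF i z hz, mem_map]
    filter_upwards [(hE i).mem_nhds hz] with w hw
    exact mem_iUnion.2 ⟨i, w, hw, rfl⟩
  have hO' : IsOpen O' := by
    rw [isOpen_iff_mem_nhds]
    intro x hx
    obtain ⟨i, _, ⟨z, hz, rfl⟩, rfl⟩ := mem_iUnion.1 hx
    apply hevG i z hz
    filter_upwards [(hE i).mem_nhds hz] with w hw
    exact mem_iUnion.2 ⟨i, act A w, ⟨w, hw, rfl⟩, rfl⟩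
  have hexf : ∀ x, ∃ y, ∀ i, ∀ z ∈ E i, F i z = x → y = G i (act A z) := by
    intro x
    by_cases hx : ∃ i, ∃ z ∈ E i, F i z = x
    · obtain ⟨i, z, hz, rfl⟩ := hx
      exact ⟨G i (act A z), fun j w hw h => (hpat i j z hz w hw).1 h.symm⟩
    · push Not at hx
      exact ⟨x, fun i z hz h => absurd h (hx i z hz)⟩
  have hexg : ∀ x, ∃ y, ∀ i, ∀ z ∈ E i, G i (act A z) = x → y = F i z := by
    intro x
    by_cases hx : ∃ i, ∃ z ∈ E i, G i (act A z) = x
    · obtain ⟨i, z, hz, rfl⟩ := hx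
      exact ⟨F i z, fun j w hw h => (hpat i j z hz w hw).2 h.symm⟩
    · push Not at hx
      exact ⟨x, fun i z hz h => absurd h (hx i z hz)⟩
  choose f hf using hexf
  choose g hg using hexg
  have hf' : ∀ i, ∀ z ∈ E i, f (F i z) = G i (act A z) := fun i z hz => hf _ i z hz rfl
  have hg' : ∀ i, ∀ z ∈ E i, g (G i (act A z)) = F i z := fun i z hz => hg _ i z hz rfl
  have hfc : ContinuousOn f O := by
    intro x hx
    obtain ⟨i, z, hz, rfl⟩ := mem_iUnion.1 hx
    apply ContinuousAt.continuousWithinAt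
    unfold ContinuousAt
    rw [← hmF i z hz, tendsto_map'_iff, hf' i z hz]
    have h1 : Tendsto (fun w => G i (act A w)) (𝓝 z) (𝓝 (G i (act A z))) := by
      have h2 : ContinuousAt (G i) (act A z) :=
        (hG i).1.1.continuousAt ((isOpen_act_image A (hE i)).mem_nhds ⟨z, hz, rfl⟩)
      exact h2.tendsto.comp (continuous_act A).continuousAt
    refine h1.congr' ?_
    filter_upwards [(hE i).mem_nhds hz] with w hw
    exact (hf' i w hw).symm
  have hgc : ContinuousOn g O' := by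
    intro x hx
    obtain ⟨i, _, ⟨z, hz, rfl⟩, rfl⟩ := mem_iUnion.1 hx
    apply ContinuousAt.continuousWithinAt
    intro V hV
    rw [hg' i z hz] at hV
    have h1 : ∀ᶠ w in 𝓝 z, F i w ∈ V :=
      ((hF i).1.1.continuousAt ((hE i).mem_nhds hz)).eventually hV
    have h2 := hevG i z hz (fun x => g x ∈ V) (by
      filter_upwards [h1, (hE i).mem_nhds hz] with w e1 e2
      rw [hg' i w e2]
      exact e1)
    exact h2
  have hm : MapsTo f O O' := by
    intro x hx
    obtain ⟨i, z, hz, rfl⟩ := mem_iUnion.1 hx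
    rw [hf' i z hz]
    exact mem_iUnion.2 ⟨i, act A z, ⟨z, hz, rfl⟩, rfl⟩
  have hm' : MapsTo g O' O := by
    intro x hx
    obtain ⟨i, _, ⟨z, hz, rfl⟩, rfl⟩ := mem_iUnion.1 hx
    rw [hg' i z hz]
    exact mem_iUnion.2 ⟨i, z, hz, rfl⟩
  have hgf : ∀ x ∈ O, g (f x) = x := by
    intro x hx
    obtain ⟨i, z, hz, rfl⟩ := mem_iUnion.1 hx
    rw [hf' i z hz, hg' i z hz]
  have hfg : ∀ x ∈ O', f (g x) = x := by
    intro x hx
    obtain ⟨i, _, ⟨z, hz, rfl⟩, rfl⟩ := mem_iUnion.1 hx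
    rw [hg' i z hz, hf' i z hz]
  obtain ⟨φ, hφ⟩ := exists_homeo hX hO hO' hfin hfin' hfc hgc hm hm' hgf hfg
  refine ⟨φ, ?_⟩
  -- the affine property on the good set
  have hgood : ∀ a ∈ M.atlas, ∀ b ∈ M.atlas, ∀ p, p ∈ O → p ∈ a.1 → φ p ∈ b.1 →
      ∃ c : ℂ, ∀ᶠ x in 𝓝 p, b.2 (φ x) = act A (a.2 x) + c := by
    intro a ha b hb p hp hpa hpb
    obtain ⟨i, z, hz, rfl⟩ := mem_iUnion.1 hp
    have hφz : φ (F i z) = G i (act A z) := by rw [hφ hp, hf' i z hz]
    rw [hφz] at hpb
    obtain ⟨c1, hc1⟩ := (hF i).1.2 z hz a ha hpa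
    obtain ⟨c2, hc2⟩ := (hG i).1.2 (act A z) ⟨z, hz, rfl⟩ b hb hpb
    rw [(hE i).nhdsWithin_eq hz] at hc1
    rw [(isOpen_act_image A (hE i)).nhdsWithin_eq ⟨z, hz, rfl⟩] at hc2
    refine ⟨c2 - act A c1, ?_⟩
    rw [← hmF i z hz, eventually_map]
    have hc2' := (continuous_act A).continuousAt.eventually hc2
    filter_upwards [hc1, hc2', (hE i).mem_nhds hz] with w e1 e2 e3
    rw [hφ (mem_iUnion.2 ⟨i, w, e3, rfl⟩), hf' i w e3, e2, e1, act_add]
    ring
  intro a ha b hb p hpa hpb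
  by_cases hp : p ∈ O
  · exact hgood a ha b hb p hp hpa hpb
  have hTx : (Oᶜ \ {p}).Finite := hfin.subset sdiff_subset
  have hV : a.1 ∩ (φ ⁻¹' b.1) ∩ (Oᶜ \ {p})ᶜ ∈ 𝓝 p := by
    refine inter_mem (inter_mem ((M.isOpen_source a ha).mem_nhds hpa) ?_) ?_
    · exact ((M.isOpen_source b hb).preimage φ.continuous).mem_nhds hpb
    · exact hTx.isClosed.isOpen_compl.mem_nhds (fun h => h.2 rfl)
  obtain ⟨U, hU, hpU, hUV, hconn⟩ := hX p _ hV
  have hUO : U \ {p} ⊆ O := by
    intro y hy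
    by_contra hcon
    exact (hUV hy.1).2 ⟨hcon, hy.2⟩
  set D : X → ℂ := fun x => b.2 (φ x) - act A (a.2 x) with hD
  have hUp : IsOpen (U \ {p}) := hU.sdiff isClosed_singleton
  have hloc : ∀ y ∈ U \ {p}, ∃ c, ∀ᶠ x in 𝓝 y, D x = c := by
    intro y hy
    obtain ⟨c, hc⟩ := hgood a ha b hb y (hUO hy) (hUV hy.1).1.1 (hUV hy.1).1.2
    exact ⟨c, hc.mono fun x hx => by rw [hD]; simp only [hx]; ring⟩
  obtain ⟨y₀, hy₀⟩ := hconn.nonempty
  have hconst : ∀ y ∈ U \ {p}, D y = D y₀ := by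
    refine preconnected_induction hconn.isPreconnected (P := fun y => D y = D y₀)
      (fun y hy h => ?_) (fun y hy h => ?_) hy₀ rfl
    · obtain ⟨c, hc⟩ := hloc y hy
      have h1 := hc.self_of_nhds
      filter_upwards [mem_nhdsWithin_of_mem_nhds hc] with x hx
      have hx' : D x = c := hx
      rw [hx', ← h1, h]
    · obtain ⟨c, hc⟩ := hloc y hy
      have h1 := hc.self_of_nhds
      obtain ⟨x, hx1, hx2⟩ := (h.and_eventually (mem_nhdsWithin_of_mem_nhds hc)).exists
      have hx2' : D x = c := hx2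
      rw [h1, ← hx2', hx1]
  have hDc : ContinuousAt D p := by
    have h1 : ContinuousAt a.2 p := continuousAt_prim ha hpa
    have h2 : ContinuousAt b.2 (φ p) := continuousAt_prim hb hpb
    have h3 : ContinuousAt (fun x => b.2 (φ x)) p := h2.comp φ.continuous.continuousAt
    have h4 : ContinuousAt (fun x => act A (a.2 x)) p :=
      (continuous_act A).continuousAt.comp h1
    exact h3.sub h4
  have hne := hX.neBot p
  have hDp : D p = D y₀ := by
    have h1 : Tendsto D (𝓝[≠] p) (𝓝 (D p)) := hDc.tendsto.mono_left nhdsWithin_le_nhds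
    have h2 : Tendsto D (𝓝[≠] p) (𝓝 (D y₀)) := by
      apply tendsto_const_nhds.congr'
      filter_upwards [mem_nhdsWithin_of_mem_nhds (hU.mem_nhds hpU), self_mem_nhdsWithin] with x e1 e2
      exact (hconst x ⟨e1, e2⟩).symm
    exact tendsto_nhds_unique h1 h2
  refine ⟨D y₀, ?_⟩
  filter_upwards [hU.mem_nhds hpU] with x hx
  have h1 : D x = D y₀ := by
    by_cases hxp : x = p
    · rw [hxp, hDp]
    · exact hconst x ⟨hx, hxp⟩
  rw [← h1, hD]
  ring

end Pool.Agent.Lib.MP_755177_an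
end

section
set_option autoImplicit false

/-!
# Module MAXCYL
-/

open Set Filter Topology Complex Metric MeasureTheory
open scoped MatrixGroups ComplexConjugate

namespace Pool.Agent.Lib.MP_755177_an

namespace MaxC

section coord

theorem cr_add (v z w : ℂ) : cr v (z + w) = cr v z + cr v w := by
  simp only [cr_eq, Complex.add_re, Complex.add_im]; ring

theorem cr_sub (v z w : ℂ) : cr v (z - w) = cr v z - cr v w := by
  simp only [cr_eq, Complex.sub_re, Complex.sub_im]; ring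

theorem cr_mul (v w : ℂ) (t : ℝ) : cr v (t * w) = t * cr v w := by
  simp only [cr_eq, Complex.mul_re, Complex.mul_im, Complex.ofReal_re, Complex.ofReal_im]; ring

theorem cr_mul_left (v w : ℂ) (t : ℝ) : cr (t * v) w = t * cr v w := by
  simp only [cr_eq, Complex.mul_re, Complex.mul_im, Complex.ofReal_re, Complex.ofReal_im]; ring

theorem cr_neg_left (v w : ℂ) : cr (-v) w = -cr v w := by
  simp only [cr_eq, Complex.neg_re, Complex.neg_im]; ring

theorem cr_self (v : ℂ) : cr v v = 0 := by rw [cr_eq]; ring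

theorem cr_zero (v : ℂ) : cr v 0 = 0 := by rw [cr_eq]; simp

theorem continuous_cr (v : ℂ) : Continuous (cr v) := by
  have : cr v = fun w => v.re * w.im - v.im * w.re := by ext w; exact cr_eq v w
  rw [this]
  fun_prop

/-- The unit normal, with `cr v (nor v) = 1`. -/
noncomputable def nor (v : ℂ) : ℂ := (Complex.I * v) / ((‖v‖ ^ 2 : ℝ) : ℂ)

theorem norm_sq_eq (v : ℂ) : ‖v‖ ^ 2 = v.re * v.re + v.im * v.im := by
  rw [← Complex.normSq_eq_norm_sq, Complex.normSq_apply]

theorem cr_nor {v : ℂ} (hv : v ≠ 0) : cr v (nor v) = 1 := by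
  have h1 : (‖v‖ ^ 2 : ℝ) ≠ 0 := by positivity
  have h2 : nor v = (((‖v‖ ^ 2 : ℝ)⁻¹ : ℝ) : ℂ) * (Complex.I * v) := by
    rw [nor]; push_cast; field_simp
  rw [h2, cr_mul, cr_eq]
  simp only [Complex.mul_re, Complex.mul_im, Complex.I_re, Complex.I_im]
  rw [norm_sq_eq] at h1 ⊢
  have h3 := inv_mul_cancel₀ h1
  linear_combination h3

theorem norm_nor {v : ℂ} (hv : v ≠ 0) : ‖nor v‖ = ‖v‖⁻¹ := by
  have h1 : ‖v‖ ≠ 0 := norm_ne_zero_iff.2 hv
  rw [nor, norm_div, norm_mul, Complex.norm_I, Complex.norm_real, Real.norm_eq_abs,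
    abs_of_nonneg (by positivity)]
  field_simp

/-- The longitudinal coordinate. -/
noncomputable def lon (v z : ℂ) : ℝ := (z / v).re

theorem lon_add (v z w : ℂ) : lon v (z + w) = lon v z + lon v w := by
  rw [lon, add_div, Complex.add_re]; rfl

theorem lon_sub (v z w : ℂ) : lon v (z - w) = lon v z - lon v w := by
  rw [lon, sub_div, Complex.sub_re]; rfl

theorem lon_mul_self {v : ℂ} (hv : v ≠ 0) (t : ℝ) : lon v (t * v) = t := by
  rw [lon, mul_div_assoc, div_self hv, mul_one, Complex.ofReal_re]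

theorem lon_zero (v : ℂ) : lon v 0 = 0 := by rw [lon]; simp

theorem continuous_lon (v : ℂ) : Continuous (lon v) := by
  unfold lon
  fun_prop

theorem decomp {v : ℂ} (hv : v ≠ 0) (z : ℂ) : z = (lon v z : ℂ) * v + (cr v z : ℂ) * nor v := by
  have h0 : v.re * v.re + v.im * v.im ≠ 0 := by
    rw [← norm_sq_eq]; positivity
  have h1 : lon v z = (z.re * v.re + z.im * v.im) / (v.re * v.re + v.im * v.im) := by
    rw [lon, Complex.div_re, Complex.normSq_apply]
    ring
  have h2 : nor v = ((((v.re * v.re + v.im * v.im) : ℝ)⁻¹ : ℝ) : ℂ) * (Complex.I * v) := by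
    rw [nor, norm_sq_eq]; push_cast; field_simp
  have h3 := inv_mul_cancel₀ h0
  rw [h1, h2, cr_eq, div_eq_mul_inv]
  generalize (v.re * v.re + v.im * v.im)⁻¹ = d at h3 ⊢
  apply Complex.ext
  · simp only [Complex.add_re, Complex.mul_re, Complex.mul_im, Complex.ofReal_re, Complex.ofReal_im,
      Complex.I_re, Complex.I_im]
    linear_combination (-z.re) * h3
  · simp only [Complex.add_im, Complex.mul_re, Complex.mul_im, Complex.ofReal_re, Complex.ofReal_im,
      Complex.I_re, Complex.I_im]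
    linear_combination (-z.im) * h3

/-- A band of lines parallel to `v`. -/
def Band (v : ℂ) (I : Set ℝ) : Set ℂ := {z | cr v z ∈ I}

theorem convex_Band (v : ℂ) {I : Set ℝ} (hI : I.OrdConnected) : Convex ℝ (Band v I) := by
  have h1 : IsLinearMap ℝ (cr v) := ⟨cr_add v, fun t w => by
    rw [Complex.real_smul, cr_mul]; rfl⟩
  exact (hI.convex).is_linear_preimage h1

theorem isOpen_Band (v : ℂ) {I : Set ℝ} (hI : IsOpen I) : IsOpen (Band v I) :=
  hI.preimage (continuous_cr v)

/-- A box. -/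
def Box (v : ℂ) (c₁ c₂ : ℝ) : Set ℂ := {z | lon v z ∈ Icc (0 : ℝ) 1 ∧ cr v z ∈ Icc c₁ c₂}

theorem Box_eq {v : ℂ} (hv : v ≠ 0) (c₁ c₂ : ℝ) : Box v c₁ c₂ =
    (fun q : ℝ × ℝ => (q.1 : ℂ) * v + (q.2 : ℂ) * nor v) '' (Icc 0 1 ×ˢ Icc c₁ c₂) := by
  ext z
  constructor
  · rintro ⟨h1, h2⟩
    exact ⟨(lon v z, cr v z), ⟨h1, h2⟩, (decomp hv z).symm⟩
  · rintro ⟨⟨s, t⟩, ⟨h1, h2⟩, rfl⟩
    have h3 : lon v (nor v) = 0 := by
      have h4 := decomp hv (nor v)
      rw [cr_nor hv] at h4
      push_cast at h4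
      rw [one_mul] at h4
      have h5 : (lon v (nor v) : ℂ) * v = 0 := by linear_combination -h4
      rcases mul_eq_zero.1 h5 with h | h
      · exact_mod_cast h
      · exact absurd h hv
    have h4 : lon v ((t : ℂ) * nor v) = t * lon v (nor v) := by
      rw [lon, lon, mul_div_assoc, Complex.re_ofReal_mul]
    refine ⟨?_, ?_⟩
    · simp only at h1 ⊢
      rw [lon_add, lon_mul_self hv, h4, h3, mul_zero, add_zero]
      exact h1
    · simp only at h2 ⊢
      rw [cr_add, cr_mul, cr_self, cr_mul, cr_nor hv]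
      simpa using h2

theorem isCompact_Box {v : ℂ} (hv : v ≠ 0) (c₁ c₂ : ℝ) : IsCompact (Box v c₁ c₂) := by
  rw [Box_eq hv]
  exact (isCompact_Icc.prod isCompact_Icc).image (by fun_prop)

theorem convex_Box (v : ℂ) (c₁ c₂ : ℝ) : Convex ℝ (Box v c₁ c₂) := by
  have h1 : IsLinearMap ℝ (lon v) := ⟨lon_add v, fun t w => by
    rw [Complex.real_smul, lon, lon, mul_div_assoc, Complex.re_ofReal_mul]; rfl⟩
  have h2 : IsLinearMap ℝ (cr v) := ⟨cr_add v, fun t w => by
    rw [Complex.real_smul, cr_mul]; rfl⟩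
  exact ((convex_Icc (0 : ℝ) 1).is_linear_preimage h1).inter
    ((convex_Icc c₁ c₂).is_linear_preimage h2)

theorem zero_mem_Box {v : ℂ} {c₁ c₂ : ℝ} (h1 : c₁ ≤ 0) (h2 : 0 ≤ c₂) : (0 : ℂ) ∈ Box v c₁ c₂ := by
  refine ⟨?_, ?_⟩
  · rw [lon_zero]; exact ⟨le_rfl, zero_le_one⟩
  · rw [cr_zero]; exact ⟨h1, h2⟩

theorem self_mem_Box {v : ℂ} (hv : v ≠ 0) {c₁ c₂ : ℝ} (h1 : c₁ ≤ 0) (h2 : 0 ≤ c₂) :
    v ∈ Box v c₁ c₂ := by
  refine ⟨?_, ?_⟩
  · have := lon_mul_self hv 1
    rw [Complex.ofReal_one, one_mul] at this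
    rw [this]
    exact ⟨zero_le_one, le_rfl⟩
  · rw [cr_self]; exact ⟨h1, h2⟩

theorem lon_self {v : ℂ} (hv : v ≠ 0) : lon v v = 1 := by
  have := lon_mul_self hv 1
  rwa [Complex.ofReal_one, one_mul] at this

theorem lon_nor {v : ℂ} (hv : v ≠ 0) : lon v (nor v) = 0 := by
  have h4 := decomp hv (nor v)
  rw [cr_nor hv] at h4
  push_cast at h4
  rw [one_mul] at h4
  have h5 : (lon v (nor v) : ℂ) * v = 0 := by linear_combination -h4
  rcases mul_eq_zero.1 h5 with h | h
  · exact_mod_cast h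
  · exact absurd h hv

theorem lon_mul (v w : ℂ) (t : ℝ) : lon v (t * w) = t * lon v w := by
  rw [lon, lon, mul_div_assoc, Complex.re_ofReal_mul]

/-- Points near the box. -/
theorem mem_thickening_Box {v : ℂ} (hv : v ≠ 0) {c₁ c₂ δ : ℝ} (hδ : 0 < δ) (hc : c₁ ≤ c₂) {z : ℂ}
    (h1 : lon v z ∈ Icc (0 : ℝ) 1) (h2 : cr v z ∈ Ioo (c₁ - δ * ‖v‖) (c₂ + δ * ‖v‖)) :
    z ∈ thickening δ (Box v c₁ c₂) := by
  rw [mem_thickening_iff]
  have hvn : 0 < ‖v‖ := norm_pos_iff.2 hv
  refine ⟨z + ((max c₁ (min c₂ (cr v z)) - cr v z : ℝ) : ℂ) * nor v, ⟨?_, ?_⟩, ?_⟩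
  · rw [lon_add, lon_mul, lon_nor hv, mul_zero, add_zero]
    exact h1
  · rw [cr_add, cr_mul, cr_nor hv, mul_one, add_sub_cancel]
    exact ⟨le_max_left _ _, max_le hc (min_le_left _ _)⟩
  · rw [dist_eq_norm]
    rw [show z - (z + ((max c₁ (min c₂ (cr v z)) - cr v z : ℝ) : ℂ) * nor v)
      = -(((max c₁ (min c₂ (cr v z)) - cr v z : ℝ) : ℂ) * nor v) by ring, norm_neg, norm_mul,
      norm_nor hv, Complex.norm_real, Real.norm_eq_abs, ← div_eq_mul_inv, div_lt_iff₀ hvn]
    rw [abs_lt]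
    obtain ⟨h3, h4⟩ := h2
    have hd : 0 < δ * ‖v‖ := by positivity
    constructor
    · rcases le_total c₂ (cr v z) with h | h
      · rw [min_eq_left h, max_eq_right hc]; linarith
      · rw [min_eq_right h]
        have := le_max_right c₁ (cr v z)
        linarith
    · rcases le_total c₁ (cr v z) with h | h
      · have h5 : c₁ ≤ min c₂ (cr v z) := le_min hc h
        rw [max_eq_right h5]
        have := min_le_right c₂ (cr v z)
        linarith
      · have h5 : min c₂ (cr v z) ≤ c₁ := (min_le_right _ _).trans h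
        rw [max_eq_left h5]
        linarith

end coord

section per

variable {X : Type*} [TopologicalSpace X] [T2Space X] {M : MSurf X}

/-- Periodic continuation. -/
theorem per {v : ℂ} (hv : v ≠ 0) {c₁ c₂ : ℝ} (h1 : c₁ ≤ 0) (h2 : 0 ≤ c₂) {g : ℂ → X}
    (hg : M.IsTr g (Box v c₁ c₂)) (h0 : g 0 = g v) :
    ∃ δ > 0, Band v (Ioo (c₁ - δ) (c₂ + δ)) ⊆ M.Dom (g 0) := by
  obtain ⟨δ, hδ, G, hG, hGe⟩ := MSurf.exists_tube hg (isCompact_Box hv c₁ c₂) (convex_Box v c₁ c₂)
  have hvn : 0 < ‖v‖ := norm_pos_iff.2 hv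
  set T := thickening δ (Box v c₁ c₂) with hT
  have hTc : Convex ℝ T := (convex_Box v c₁ c₂).thickening δ
  have hTo : IsOpen T := isOpen_thickening
  have h0T : (0 : ℂ) ∈ T := self_subset_thickening hδ _ (zero_mem_Box h1 h2)
  have hvT : v ∈ T := self_subset_thickening hδ _ (self_mem_Box hv h1 h2)
  have hmem : ∀ z, lon v z ∈ Icc (0 : ℝ) 1 →
      cr v z ∈ Ioo (c₁ - δ * ‖v‖) (c₂ + δ * ‖v‖) → z ∈ T := fun z h3 h4 =>
    mem_thickening_Box hv hδ (h1.trans h2) h3 h4
  -- periodicity of `G`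
  have hW : EqOn G (fun z => G (z + v)) (T ∩ {z | z + v ∈ T}) := by
    have hWc : Convex ℝ (T ∩ {z | z + v ∈ T}) := by
      refine hTc.inter ?_
      have := hTc.translate_preimage_left v
      exact this
    refine (hG.mono inter_subset_left).eqOn ((hG.comp_add v).mono inter_subset_right)
      hWc.isPreconnected (z := 0) ⟨h0T, by simpa using hvT⟩ ?_
    simp only [zero_add]
    rw [hGe (zero_mem_Box h1 h2), hGe (self_mem_Box hv h1 h2), h0]
  set F : ℂ → X := fun z => G (z + (((-⌊lon v z⌋ : ℤ) : ℝ) : ℂ) * v) with hF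
  refine ⟨δ * ‖v‖, by positivity, ?_⟩
  have hFtr : M.IsTr F (Band v (Ioo (c₁ - δ * ‖v‖) (c₂ + δ * ‖v‖))) := by
    refine MSurf.IsTr.of_locally fun z hz => ?_
    set n : ℤ := ⌊lon v z⌋ with hn
    set U : Set ℂ := {y | y + (((-n : ℤ) : ℝ) : ℂ) * v ∈ T} ∩
      ({y | lon v y ∈ Ioo ((n : ℝ) - 1) (n + 1)} ∩
        Band v (Ioo (c₁ - δ * ‖v‖) (c₂ + δ * ‖v‖))) with hU
    have hcrn : ∀ y : ℂ, ∀ m : ℤ, cr v (y + ((m : ℝ) : ℂ) * v) = cr v y := fun y m => by
      rw [cr_add, cr_mul, cr_self, mul_zero, add_zero]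
    have hlonn : ∀ y : ℂ, ∀ m : ℤ, lon v (y + ((m : ℝ) : ℂ) * v) = lon v y + m := fun y m => by
      rw [lon_add, lon_mul_self hv]
    have hUo : IsOpen U := by
      refine IsOpen.inter (hTo.preimage (by fun_prop)) (IsOpen.inter ?_ (isOpen_Band v isOpen_Ioo))
      exact isOpen_Ioo.preimage (continuous_lon v)
    have hzU : z ∈ U := by
      refine ⟨hmem _ ?_ ?_, ⟨?_, ?_⟩, hz⟩
      · rw [hlonn]
        have h3 := Int.floor_le (lon v z)
        have h4 := Int.lt_floor_add_one (lon v z)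
        rw [← hn] at h3 h4
        push_cast
        constructor <;> linarith
      · rw [hcrn]; exact hz
      · have h3 := Int.floor_le (lon v z)
        rw [← hn] at h3
        linarith
      · have h4 := Int.lt_floor_add_one (lon v z)
        rw [← hn] at h4
        linarith
    refine ⟨fun y => G (y + (((-n : ℤ) : ℝ) : ℂ) * v), U, hzU,
      mem_nhdsWithin_of_mem_nhds (hUo.mem_nhds hzU), (hG.comp_add _).mono inter_subset_left, ?_⟩
    intro y hy
    have h3 : ⌊lon v y⌋ = n ∨ ⌊lon v y⌋ = n - 1 := by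
      rcases lt_or_ge (lon v y) n with h | h
      · right
        rw [Int.floor_eq_iff]
        push_cast
        exact ⟨hy.2.1.1.le, by linarith⟩
      · left
        rw [Int.floor_eq_iff]
        exact ⟨h, hy.2.1.2⟩
    rcases h3 with h3 | h3
    · show G (y + (((-⌊lon v y⌋ : ℤ) : ℝ) : ℂ) * v) = _
      rw [h3]
    · show G (y + (((-⌊lon v y⌋ : ℤ) : ℝ) : ℂ) * v) = _
      rw [h3]
      have h5 : y + (((-(n - 1) : ℤ) : ℝ) : ℂ) * v = (y + (((-n : ℤ) : ℝ) : ℂ) * v) + v := by
        push_cast; ring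
      rw [h5]
      have h6 : (y + (((-n : ℤ) : ℝ) : ℂ) * v) + v ∈ T := by
        rw [← h5]
        refine hmem _ ?_ ?_
        · rw [hlonn]
          have h7 := Int.floor_le (lon v y)
          have h8 := Int.lt_floor_add_one (lon v y)
          rw [h3] at h7 h8
          push_cast at h7 h8 ⊢
          constructor <;> linarith
        · rw [hcrn]; exact hy.2.2
      exact (hW ⟨hy.1, h6⟩).symm
  have hc : Convex ℝ (Band v (Ioo (c₁ - δ * ‖v‖) (c₂ + δ * ‖v‖))) :=
    convex_Band v ordConnected_Ioo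
  have h0B : (0 : ℂ) ∈ Band v (Ioo (c₁ - δ * ‖v‖) (c₂ + δ * ‖v‖)) := by
    have : 0 < δ * ‖v‖ := by positivity
    show cr v 0 ∈ Ioo (c₁ - δ * ‖v‖) (c₂ + δ * ‖v‖)
    rw [cr_zero]
    constructor <;> linarith
  have hF0 : F 0 = g 0 := by
    simp only [hF, lon_zero, Int.floor_zero, neg_zero, Int.cast_zero, Complex.ofReal_zero, zero_mul,
      add_zero]
    exact hGe (zero_mem_Box h1 h2)
  exact (MSurf.subset_Dom hFtr (fun w hw => hc.segment_subset h0B hw) hF0).1

end per

section band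

variable {X : Type*} [TopologicalSpace X] [T2Space X] {M : MSurf X}

variable (M) in
/-- The heights of the lines which are contained in the domain of the exponential map. -/
def II (p : X) (v : ℂ) : Set ℝ := {t | Band v (uIcc 0 t) ⊆ M.Dom p}

theorem ordConnected_II (p : X) (v : ℂ) : (II M p v).OrdConnected := by
  refine ⟨fun s hs t ht r hr => ?_⟩
  rcases le_total 0 r with h | h
  · refine Subset.trans (fun z hz => ?_) ht
    have hz' : cr v z ∈ uIcc 0 r := hz
    rw [uIcc_of_le h] at hz'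
    show cr v z ∈ uIcc 0 t
    rw [uIcc_of_le (h.trans hr.2)]
    exact ⟨hz'.1, hz'.2.trans hr.2⟩
  · refine Subset.trans (fun z hz => ?_) hs
    have hz' : cr v z ∈ uIcc 0 r := hz
    rw [uIcc_of_ge h] at hz'
    show cr v z ∈ uIcc 0 s
    rw [uIcc_of_ge (hr.1.trans h)]
    exact ⟨hr.1.trans hz'.1, hz'.2⟩

theorem Band_II (p : X) (v : ℂ) : Band v (II M p v) ⊆ M.Dom p := by
  intro z hz
  have hz' : Band v (uIcc 0 (cr v z)) ⊆ M.Dom p := hz
  exact hz' (show cr v z ∈ uIcc 0 (cr v z) from right_mem_uIcc)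

theorem zero_mem_II {p : X} {v : ℂ} (hv : v ≠ 0) (h1 : v ∈ M.Dom p) (h2 : M.exp p v = p) :
    (0 : ℝ) ∈ II M p v := by
  have hp := MSurf.notMem_of_mem_Dom h1
  have h3 : Box v 0 0 ⊆ segment ℝ 0 v := by
    intro z hz
    have h4 := decomp hv z
    have h5 : cr v z = 0 := le_antisymm hz.2.2 hz.2.1
    rw [h5, Complex.ofReal_zero, zero_mul, add_zero] at h4
    rw [h4, ← Complex.real_smul]
    exact MSurf.smul_mem_segment_zero hz.1.1 hz.1.2
  have h4 : M.IsTr (M.exp p) (Box v 0 0) :=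
    (MSurf.isTr_exp p).mono (h3.trans (MSurf.segment_subset_Dom h1))
  obtain ⟨δ, hδ, h5⟩ := per hv le_rfl le_rfl h4 (by rw [h2, MSurf.exp_zero hp])
  rw [MSurf.exp_zero hp] at h5
  refine Subset.trans (fun z hz => ?_) h5
  have hz' : cr v z ∈ uIcc (0 : ℝ) 0 := hz
  rw [uIcc_self, mem_singleton_iff] at hz'
  show cr v z ∈ Ioo (0 - δ) (0 + δ)
  rw [hz']
  constructor <;> linarith

theorem isOpen_II {p : X} {v : ℂ} (hv : v ≠ 0) (h1 : v ∈ M.Dom p) (h2 : M.exp p v = p) :
    IsOpen (II M p v) := by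
  have hp := MSurf.notMem_of_mem_Dom h1
  rw [isOpen_iff_mem_nhds]
  intro t ht
  have h4 : M.IsTr (M.exp p) (Box v (min 0 t) (max 0 t)) :=
    (MSurf.isTr_exp p).mono (Subset.trans (fun z hz => hz.2) ht)
  obtain ⟨δ, hδ, h5⟩ := per hv (min_le_left 0 t) (le_max_left 0 t) h4
    (by rw [h2, MSurf.exp_zero hp])
  rw [MSurf.exp_zero hp] at h5
  have h6 : Ioo (t - δ) (t + δ) ∈ 𝓝 t := Ioo_mem_nhds (by linarith) (by linarith)
  filter_upwards [h6] with s hs
  refine Subset.trans (fun z hz => ?_) h5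
  obtain ⟨h7, h8⟩ : cr v z ∈ Icc (min 0 s) (max 0 s) := hz
  refine ⟨lt_of_lt_of_le ?_ h7, lt_of_le_of_lt h8 ?_⟩
  · rw [lt_min_iff]
    have h9 := min_le_left 0 t
    have h10 := min_le_right 0 t
    exact ⟨by linarith, by linarith [hs.1]⟩
  · rw [max_lt_iff]
    have h9 := le_max_left 0 t
    have h10 := le_max_right 0 t
    exact ⟨by linarith, by linarith [hs.2]⟩

/-- Uniqueness on bands. -/
theorem shift_eq {p : X} {v : ℂ} {I : Set ℝ} (hI : I.OrdConnected) (hB : Band v I ⊆ M.Dom p)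
    {s : ℝ} {z₀ : ℂ} (hz₀ : z₀ ∈ Band v I) (h : M.exp p (z₀ + s * v) = M.exp p z₀) {z : ℂ}
    (hz : z ∈ Band v I) : M.exp p (z + s * v) = M.exp p z := by
  have h1 : M.IsTr (M.exp p) (Band v I) := (MSurf.isTr_exp p).mono hB
  have h2 : M.IsTr (fun z => M.exp p (z + s * v)) (Band v I) := by
    refine (h1.comp_add (s * v)).mono fun z hz => ?_
    show cr v (z + s * v) ∈ I
    rw [cr_add, cr_mul, cr_self, mul_zero, add_zero]
    exact hz
  exact h2.eqOn h1 (convex_Band v hI).isPreconnected hz₀ h hz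

/-- Coincidences of the exponential map shift the band. -/
theorem shift_II {p : X} {v w z₀ : ℂ} (h0 : (0 : ℝ) ∈ II M p v) (hIo : IsOpen (II M p v))
    (h1 : z₀ ∈ Band v (II M p v)) (h2 : z₀ + w ∈ Band v (II M p v))
    (h3 : M.exp p (z₀ + w) = M.exp p z₀) {t : ℝ} (ht : t ∈ II M p v) :
    t + cr v w ∈ II M p v := by
  have hI := ordConnected_II (M := M) p v
  set I := II M p v with hIdef
  set J : Set ℝ := {s | s - cr v w ∈ I} with hJ
  have hJo : IsOpen J := hIo.preimage (by fun_prop)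
  have hJc : J.OrdConnected := ⟨fun a ha b hb r hr =>
    hI.out ha hb ⟨by linarith [hr.1], by linarith [hr.2]⟩⟩
  have hE : M.IsTr (M.exp p) (Band v I) := (MSurf.isTr_exp p).mono (Band_II p v)
  have hE' : M.IsTr (fun z => M.exp p (z + -w)) (Band v J) := by
    refine (hE.comp_add (-w)).mono fun z hz => ?_
    show cr v (z + -w) ∈ I
    rw [← sub_eq_add_neg, cr_sub]
    exact hz
  have hz0J : z₀ + w ∈ Band v J := by
    show cr v (z₀ + w) - cr v w ∈ I
    rw [cr_add, add_sub_cancel_right]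
    exact h1
  have hIJ : Band v I ∩ Band v J = Band v (I ∩ J) := rfl
  have heq : EqOn (M.exp p) (fun z => M.exp p (z + -w)) (Band v I ∩ Band v J) := by
    have hc : Convex ℝ (Band v I ∩ Band v J) := by
      rw [hIJ]
      exact convex_Band v (hI.inter hJc)
    refine (hE.mono inter_subset_left).eqOn (hE'.mono inter_subset_right) hc.isPreconnected
      (z := z₀ + w) ⟨h2, hz0J⟩ ?_
    simp only [add_neg_cancel_right]
    exact h3
  obtain ⟨F, hF, hF1, hF2⟩ := MSurf.IsTr.glue hE hE' heq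
    (fun z hz => mem_nhdsWithin_of_mem_nhds ((isOpen_Band v hIo).mem_nhds hz))
    (fun z hz => mem_nhdsWithin_of_mem_nhds ((isOpen_Band v hJo).mem_nhds hz))
  have hU : (I ∪ J).OrdConnected := by
    refine IsPreconnected.ordConnected ?_
    exact IsPreconnected.union (cr v (z₀ + w)) h2 hz0J hI.isPreconnected hJc.isPreconnected
  have hUB : Band v I ∪ Band v J = Band v (I ∪ J) := rfl
  have h0B : (0 : ℂ) ∈ Band v I := by
    show cr v 0 ∈ I
    rw [cr_zero]
    exact h0
  have hp : p ∉ M.Sg := MSurf.notMem_of_mem_Dom (Band_II p v h0B)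
  have hF0 : F 0 = p := by
    rw [hF1 h0B, MSurf.exp_zero hp]
  have h5 : Band v (I ∪ J) ⊆ M.Dom p := by
    rw [← hUB]
    refine (MSurf.subset_Dom hF (fun z hz => ?_) hF0).1
    rw [hUB] at hz ⊢
    exact (convex_Band v hU).segment_subset (Or.inl h0B) hz
  have h6 : t + cr v w ∈ J := by
    show t + cr v w - cr v w ∈ I
    rwa [add_sub_cancel_right]
  show Band v (uIcc 0 (t + cr v w)) ⊆ M.Dom p
  refine Subset.trans (fun z hz => ?_) h5
  exact hU.uIcc_subset (Or.inl h0) (Or.inr h6) hz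

end band

section torus

variable {X : Type*} [TopologicalSpace X] [T2Space X] {M : MSurf X}

/-- A surface with a marked point has no bi-infinite domain with two transverse periods. -/
theorem no_torus [ConnectedSpace X] (hSg : M.Sg.Nonempty) {p : X} {v w : ℂ} (hv : v ≠ 0)
    (hD : M.Dom p = univ) (h1 : ∀ z, M.exp p (z + v) = M.exp p z)
    (h2 : ∀ z, M.exp p (z + w) = M.exp p z) : cr v w = 0 := by
  by_contra hc
  have hE : M.IsTr (M.exp p) univ := hD ▸ MSurf.isTr_exp p
  have hEc : Continuous (M.exp p) := continuousOn_univ.1 hE.continuousOn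
  have hp1 : Function.Periodic (M.exp p) v := h1
  have hp2 : Function.Periodic (M.exp p) w := h2
  have hr : range (M.exp p) = M.exp p '' Box v (-|cr v w|) |cr v w| := by
    refine Subset.antisymm ?_ (image_subset_range _ _)
    rintro _ ⟨z, rfl⟩
    set k : ℤ := ⌊cr v z / cr v w⌋ with hk
    set l : ℤ := ⌊lon v (z - k * w)⌋ with hl
    refine ⟨z - k * w - l * v, ⟨?_, ?_⟩, ?_⟩
    · rw [lon_sub]
      have h3 : lon v ((l : ℂ) * v) = l := by
        have := lon_mul_self hv (l : ℝ)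
        rwa [Complex.ofReal_intCast] at this
      rw [h3]
      have h4 := Int.floor_le (lon v (z - k * w))
      have h5 := Int.lt_floor_add_one (lon v (z - k * w))
      rw [← hl] at h4 h5
      constructor <;> linarith
    · have h3 : cr v ((l : ℂ) * v) = 0 := by
        have := cr_mul v v (l : ℝ)
        rw [cr_self, mul_zero, Complex.ofReal_intCast] at this
        exact this
      have h4 : cr v ((k : ℂ) * w) = k * cr v w := by
        have := cr_mul v w (k : ℝ)
        rwa [Complex.ofReal_intCast] at this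
      rw [cr_sub, cr_sub, h3, h4, sub_zero]
      have h5 := Int.floor_le (cr v z / cr v w)
      have h6 := Int.lt_floor_add_one (cr v z / cr v w)
      rw [← hk] at h5 h6
      have h7 : cr v z - k * cr v w = cr v w * (cr v z / cr v w - k) := by
        field_simp
      rw [h7]
      rw [mem_Icc, ← abs_le, abs_mul]
      have h8 : |cr v z / cr v w - k| ≤ 1 := by
        rw [abs_le]
        constructor <;> linarith
      have := abs_nonneg (cr v w)
      nlinarith
    · rw [hp1.sub_int_mul_eq, hp2.sub_int_mul_eq]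
  have hcomp : IsCompact (range (M.exp p)) := by
    rw [hr]
    exact (isCompact_Box hv _ _).image hEc
  have hopen : IsOpen (range (M.exp p)) := by
    rw [isOpen_iff_mem_nhds]
    rintro _ ⟨z, rfl⟩
    rw [← Patch.IsTr.map_nhds hE isOpen_univ (mem_univ z)]
    exact mem_map.2 (Filter.univ_mem' fun y => mem_range_self y)
  have huniv : range (M.exp p) = univ :=
    IsClopen.eq_univ ⟨hcomp.isClosed, hopen⟩ (range_nonempty _)
  obtain ⟨q, hq⟩ := hSg
  have hq' : q ∈ range (M.exp p) := by rw [huniv]; trivial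
  obtain ⟨z, rfl⟩ := hq'
  exact hE.2 z (mem_univ z) hq

/-- In the maximal band, coincidences of the exponential map are parallel to `v`. -/
theorem parallel [ConnectedSpace X] (hSg : M.Sg.Nonempty) {p : X} {v w z₀ : ℂ} (hv : v ≠ 0)
    (h1 : v ∈ M.Dom p) (h2 : M.exp p v = p) (h3 : z₀ ∈ Band v (II M p v))
    (h4 : z₀ + w ∈ Band v (II M p v)) (h5 : M.exp p (z₀ + w) = M.exp p z₀) : cr v w = 0 := by
  by_contra hc
  have hp := MSurf.notMem_of_mem_Dom h1
  have h0 := zero_mem_II hv h1 h2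
  have hIo := isOpen_II hv h1 h2
  have hI := ordConnected_II (M := M) p v
  have hup : ∀ n : ℕ, (n : ℝ) * cr v w ∈ II M p v := by
    intro n
    induction n with
    | zero => simpa using h0
    | succ n ih =>
      have := shift_II h0 hIo h3 h4 h5 ih
      push_cast
      rwa [add_mul, one_mul]
  have hdn : ∀ n : ℕ, -((n : ℝ) * cr v w) ∈ II M p v := by
    intro n
    induction n with
    | zero => simpa using h0
    | succ n ih =>
      have := shift_II (w := -w) (z₀ := z₀ + w) h0 hIo h4 (by simpa using h3)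
        (by simpa using h5.symm) ih
      have h6 : cr v (-w) = -cr v w := by
        simp only [cr_eq, Complex.neg_re, Complex.neg_im]; ring
      rw [h6] at this
      push_cast
      rwa [add_mul, one_mul, neg_add]
  have hIu : II M p v = univ := by
    rw [eq_univ_iff_forall]
    intro t
    obtain ⟨n, hn⟩ := exists_nat_gt (|t| / |cr v w|)
    have hcpos : 0 < |cr v w| := abs_pos.2 hc
    rw [div_lt_iff₀ hcpos] at hn
    have h6 : |t| ≤ |(n : ℝ) * cr v w| := by
      rw [abs_mul, Nat.abs_cast]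
      exact hn.le
    have h7 := abs_le.1 (le_refl |t|)
    rcases le_total 0 ((n : ℝ) * cr v w) with h | h
    · rw [abs_of_nonneg h] at h6
      exact hI.out (hdn n) (hup n) ⟨by linarith, by linarith⟩
    · rw [abs_of_nonpos h] at h6
      exact hI.out (hup n) (hdn n) ⟨by linarith, by linarith⟩
  have hD : M.Dom p = univ := by
    rw [eq_univ_iff_forall]
    intro z
    apply Band_II p v
    show cr v z ∈ II M p v
    rw [hIu]
    trivial
  have hBu : Band v (univ : Set ℝ) ⊆ M.Dom p := by rw [hD]; exact subset_univ _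
  have hE : M.IsTr (M.exp p) univ := hD ▸ MSurf.isTr_exp p
  refine hc (no_torus hSg hv hD (fun z => ?_) (fun z => ?_))
  · have := shift_eq (s := 1) (z₀ := 0) ordConnected_univ hBu (mem_univ _)
      (by rw [Complex.ofReal_one, one_mul, zero_add, h2, MSurf.exp_zero hp]) (z := z) (mem_univ _)
    rwa [Complex.ofReal_one, one_mul] at this
  · have h6 : M.IsTr (fun z => M.exp p (z + w)) univ :=
      (hE.comp_add w).mono fun z _ => mem_univ _
    exact h6.eqOn hE isPreconnected_univ (mem_univ z₀) h5 (mem_univ z)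

/-- The period group. -/
def PG (E : ℂ → X) (v : ℂ) (I : Set ℝ) : AddSubgroup ℝ where
  carrier := {s | ∀ z ∈ Band v I, E (z + s * v) = E z}
  zero_mem' := by
    intro z _
    simp
  add_mem' := by
    intro a b ha hb z hz
    have h1 : z + a * v ∈ Band v I := by
      show cr v (z + a * v) ∈ I
      rw [cr_add, cr_mul, cr_self, mul_zero, add_zero]
      exact hz
    have h2 := hb _ h1
    rw [ha z hz] at h2
    rw [← h2]
    congr 1
    push_cast
    ring
  neg_mem' := by
    intro a ha z hz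
    have h1 : z + ((-a : ℝ) : ℂ) * v ∈ Band v I := by
      show cr v (z + ((-a : ℝ) : ℂ) * v) ∈ I
      rw [cr_add, cr_mul, cr_self, mul_zero, add_zero]
      exact hz
    have h2 := ha _ h1
    rw [← h2]
    congr 1
    push_cast
    ring

/-- The exponential map is locally injective at the origin. -/
theorem loc_inj {p : X} (hp : p ∉ M.Sg) :
    ∃ ε > 0, ∀ z : ℂ, ‖z‖ < ε → M.exp p z = p → z = 0 := by
  have h0 := MSurf.zero_mem_Dom hp
  have hE := MSurf.isTr_exp (M := M) p
  obtain ⟨a, ha, ζ, h1, h2, h3, h4⟩ := M.regular p hp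
  obtain ⟨c, hc⟩ := hE.1.2 0 h0 a ha (by rw [MSurf.exp_zero hp]; exact h2 h1)
  rw [(MSurf.isOpen_Dom p).nhdsWithin_eq h0] at hc
  have h5 := hc.self_of_nhds
  obtain ⟨ε, hε, h6⟩ := Metric.eventually_nhds_iff.1 hc
  refine ⟨ε, hε, fun z hz hzp => ?_⟩
  have h7 := h6 (by rwa [dist_zero_right] : dist z 0 < ε)
  rw [hzp] at h7
  rw [MSurf.exp_zero hp, h7] at h5
  have : z + c = 0 + c := h5
  exact add_right_cancel this

/-- The primitive period. -/
theorem exists_period [ConnectedSpace X] (hSg : M.Sg.Nonempty) {p : X} {v : ℂ} (hv : v ≠ 0)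
    (h1 : v ∈ M.Dom p) (h2 : M.exp p v = p) : ∃ n : ℕ, 0 < n ∧
      ∀ z ∈ Band v (II M p v), ∀ z' ∈ Band v (II M p v),
        M.exp p z = M.exp p z' ↔ ∃ k : ℤ, z' = z + k * (v / n) := by
  have hp := MSurf.notMem_of_mem_Dom h1
  have h0 := zero_mem_II hv h1 h2
  have hI := ordConnected_II (M := M) p v
  have hB := Band_II (M := M) p v
  have h0B : (0 : ℂ) ∈ Band v (II M p v) := by
    show cr v 0 ∈ II M p v
    rw [cr_zero]
    exact h0
  obtain ⟨ε, hε, hinj⟩ := loc_inj hp
  have hvn : 0 < ‖v‖ := norm_pos_iff.2 hv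
  set G := PG (M.exp p) v (II M p v) with hG
  have hGmem : ∀ s : ℝ, s ∈ G ↔ ∀ z ∈ Band v (II M p v), M.exp p (z + s * v) = M.exp p z :=
    fun s => Iff.rfl
  have h1G : (1 : ℝ) ∈ G := by
    rw [hGmem]
    intro z hz
    exact shift_eq hI hB h0B
      (by rw [Complex.ofReal_one, one_mul, zero_add, h2, MSurf.exp_zero hp]) hz
  have hdisj : Disjoint (G : Set ℝ) (Ioo 0 (ε / ‖v‖)) := by
    rw [disjoint_left]
    intro s hs hs'
    have h3 := (hGmem s).1 hs 0 h0B
    rw [zero_add, MSurf.exp_zero hp] at h3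
    have h4 := hinj (s * v) (by
      rw [norm_mul, Complex.norm_real, Real.norm_eq_abs, abs_of_pos hs'.1, ← lt_div_iff₀ hvn]
      exact hs'.2) h3
    rcases mul_eq_zero.1 h4 with h | h
    · exact hs'.1.ne' (by exact_mod_cast h)
    · exact hv h
  obtain ⟨b, hb⟩ := AddSubgroup.cyclic_of_isolated_zero (H := G) (a := ε / ‖v‖) (by positivity) hdisj
  have hmem : ∀ s : ℝ, s ∈ G ↔ ∃ k : ℤ, (k : ℝ) * b = s := by
    intro s
    rw [hb, AddSubgroup.mem_closure_singleton]
    simp only [zsmul_eq_mul]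
  obtain ⟨m, hm⟩ := (hmem 1).1 h1G
  have hm0 : m ≠ 0 := by
    rintro rfl
    simp at hm
  have hmR : (m : ℝ) ≠ 0 := by exact_mod_cast hm0
  have hbm : b = 1 / m := by
    field_simp
    linarith
  have habs : ∀ s : ℝ, s ∈ G ↔ ∃ k : ℤ, s = k / (m.natAbs : ℝ) := by
    intro s
    rw [hmem, hbm]
    have h3 : ((m.natAbs : ℝ)) = |(m : ℝ)| := by
      rw [Nat.cast_natAbs, Int.cast_abs]
    rw [h3]
    rcases lt_or_gt_of_ne hm0 with h | h
    · have h4 : (m : ℝ) < 0 := by exact_mod_cast h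
      rw [abs_of_neg h4]
      constructor
      · rintro ⟨k, hk⟩
        refine ⟨-k, ?_⟩
        rw [← hk]
        push_cast
        field_simp
      · rintro ⟨k, hk⟩
        refine ⟨-k, ?_⟩
        rw [hk]
        push_cast
        field_simp
    · have h4 : (0 : ℝ) < m := by exact_mod_cast h
      rw [abs_of_pos h4]
      constructor
      · rintro ⟨k, hk⟩
        exact ⟨k, by rw [← hk]; ring⟩
      · rintro ⟨k, hk⟩
        exact ⟨k, by rw [hk]; ring⟩
  have hnpos : 0 < m.natAbs := Int.natAbs_pos.2 hm0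
  refine ⟨m.natAbs, hnpos, fun z hz z' hz' => ⟨fun h => ?_, ?_⟩⟩
  · have hw : z + (z' - z) = z' := by ring
    have h3 : cr v (z' - z) = 0 :=
      parallel hSg hv h1 h2 hz (by rw [hw]; exact hz') (by rw [hw]; exact h.symm)
    have h4 := decomp hv (z' - z)
    rw [h3, Complex.ofReal_zero, zero_mul, add_zero] at h4
    have h5 : lon v (z' - z) ∈ G := by
      rw [hGmem]
      intro y hy
      refine shift_eq hI hB hz ?_ hy
      rw [← h4, hw]
      exact h.symm
    obtain ⟨k, hk⟩ := (habs _).1 h5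
    refine ⟨k, ?_⟩
    rw [hk] at h4
    push_cast at h4
    linear_combination h4
  · rintro ⟨k, rfl⟩
    have h5 : ((k : ℝ) / (m.natAbs : ℝ)) ∈ G := (habs _).2 ⟨k, rfl⟩
    have h6 := (hGmem _).1 h5 z hz
    rw [← h6]
    congr 1
    push_cast
    ring

end torus

section area

variable {X : Type*} [TopologicalSpace X] [T2Space X] {M : MSurf X}

/-- A box used for the area estimate. -/
def Q (v : ℂ) (b c : ℝ) (N : ℕ) : Set ℂ := {z | lon v z ∈ Ioo 0 b ∧ cr v z ∈ Ioo c (c + N)}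

theorem isOpen_Q (v : ℂ) (b c : ℝ) (N : ℕ) : IsOpen (Q v b c N) :=
  (isOpen_Ioo.preimage (continuous_lon v)).inter (isOpen_Ioo.preimage (continuous_cr v))

theorem volume_Q_shift {v : ℂ} (hv : v ≠ 0) (b c : ℝ) (N : ℕ) :
    volume (Q v b c N) = volume (Q v b 0 N) := by
  have h1 : Q v b 0 N = (fun z => z + (c : ℂ) * nor v) ⁻¹' Q v b c N := by
    ext z
    show (lon v z ∈ Ioo 0 b ∧ cr v z ∈ Ioo 0 (0 + (N : ℝ))) ↔
      (lon v (z + (c : ℂ) * nor v) ∈ Ioo 0 b ∧ cr v (z + (c : ℂ) * nor v) ∈ Ioo c (c + N))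
    rw [lon_add, lon_mul, lon_nor hv, cr_add, cr_mul, cr_nor hv]
    simp only [mul_zero, add_zero, mul_one, mem_Ioo, zero_add]
    constructor
    · rintro ⟨h1, h2, h3⟩; exact ⟨h1, by linarith, by linarith⟩
    · rintro ⟨h1, h2, h3⟩; exact ⟨h1, by linarith, by linarith⟩
  rw [h1, measure_preimage_add_right]

theorem volume_Q {v : ℂ} (hv : v ≠ 0) (b : ℝ) (N : ℕ) :
    N * volume (Q v b 0 1) ≤ volume (Q v b 0 N) := by
  induction N with
  | zero => simp
  | succ N ih =>
    have h1 : Q v b 0 N ∪ Q v b N 1 ⊆ Q v b 0 (N + 1) := by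
      rintro z (⟨h1, h2, h3⟩ | ⟨h1, h2, h3⟩)
      · refine ⟨h1, h2, ?_⟩
        push_cast
        linarith
      · refine ⟨h1, ?_, ?_⟩
        · have : (0 : ℝ) ≤ N := Nat.cast_nonneg N
          linarith
        · push_cast at h3 ⊢
          linarith
    have h2 : Disjoint (Q v b 0 N) (Q v b N 1) := by
      rw [disjoint_left]
      rintro z ⟨h1, h2, h3⟩ ⟨h4, h5, h6⟩
      linarith
    calc ((N + 1 : ℕ) : ENNReal) * volume (Q v b 0 1)
        = N * volume (Q v b 0 1) + volume (Q v b 0 1) := by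
          push_cast
          rw [add_mul, one_mul]
      _ ≤ volume (Q v b 0 N) + volume (Q v b N 1) := by
          rw [volume_Q_shift hv b N 1]
          gcongr
      _ = volume (Q v b 0 N ∪ Q v b N 1) :=
          (measure_union h2 (isOpen_Q v b N 1).measurableSet).symm
      _ ≤ volume (Q v b 0 (N + 1)) := measure_mono h1

theorem Q_nonempty {v : ℂ} (hv : v ≠ 0) {b : ℝ} (hb : 0 < b) : (Q v b 0 1).Nonempty := by
  refine ⟨((b / 2 : ℝ) : ℂ) * v + ((1 / 2 : ℝ) : ℂ) * nor v, ?_, ?_⟩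
  · rw [lon_add, lon_mul_self hv, lon_mul, lon_nor hv]
    constructor <;> linarith
  · rw [cr_add, cr_mul, cr_self, cr_mul, cr_nor hv]
    constructor <;> norm_num

/-- The maximal band has bounded height. -/
theorem exists_bound [ConnectedSpace X] (hSg : M.Sg.Nonempty) {A : ℝ}
    (hA : ∀ (E : Set ℂ) (f : ℂ → X), IsOpen E → M.IsTr f E → InjOn f E →
      volume E ≤ ENNReal.ofReal A) {p : X} {v : ℂ} (hv : v ≠ 0)
    (h1 : v ∈ M.Dom p) (h2 : M.exp p v = p) :
    ∃ N : ℕ, ∀ c : ℝ, ¬ Icc c (c + N) ⊆ II M p v := by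
  obtain ⟨n, hn, hinj⟩ := exists_period hSg hv h1 h2
  have hnR : (0 : ℝ) < n := by exact_mod_cast hn
  have hb : (0 : ℝ) < 1 / n := by positivity
  have hpos : 0 < volume (Q v (1 / n) 0 1) := (isOpen_Q _ _ _ _).measure_pos _ (Q_nonempty hv hb)
  obtain ⟨N, hN⟩ := ENNReal.exists_nat_mul_gt hpos.ne' (ENNReal.ofReal_ne_top (r := A))
  refine ⟨N, fun c hc => ?_⟩
  have hsub : Q v (1 / n) c N ⊆ Band v (II M p v) := fun z hz =>
    hc (Ioo_subset_Icc_self hz.2)
  have h3 := hA (Q v (1 / n) c N) (M.exp p) (isOpen_Q _ _ _ _)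
    ((MSurf.isTr_exp p).mono (hsub.trans (Band_II p v))) ?_
  · rw [volume_Q_shift hv] at h3
    exact absurd (hN.trans_le ((volume_Q hv _ N).trans h3)) (lt_irrefl _)
  · intro z hz z' hz' he
    obtain ⟨k, hk⟩ := (hinj z (hsub hz) z' (hsub hz')).1 he
    have h4 : lon v z' = lon v z + k / n := by
      rw [hk, lon_add]
      congr 1
      have h5 : ((k : ℂ) * (v / n)) = ((k / n : ℝ) : ℂ) * v := by
        push_cast; ring
      rw [h5, lon_mul_self hv]
    have h5 : |(k : ℝ) / n| < 1 / n := by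
      rw [abs_lt]
      have := hz.1.1
      have := hz.1.2
      have := hz'.1.1
      have := hz'.1.2
      constructor <;> linarith
    rw [abs_div, Nat.abs_cast, div_lt_div_iff_of_pos_right hnR] at h5
    have h6 : |k| < 1 := by
      have : ((|k| : ℤ) : ℝ) < 1 := by rwa [Int.cast_abs]
      exact_mod_cast this
    rw [Int.abs_lt_one_iff] at h6
    rw [hk, h6]
    simp

end area

section sing

variable {X : Type*} [TopologicalSpace X] [CompactSpace X] [T2Space X] {M : MSurf X}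

/-- The boundary of the maximal band contains a singular point. -/
theorem sing {p : X} {v : ℂ} (hv : v ≠ 0) {α β : ℝ} (hα : α < 0) (hβ : 0 < β)
    (hB : Band v (Ioo α β) ⊆ M.Dom p) (h2 : M.exp p v = p)
    (hno : ¬ Band v (Icc 0 β) ⊆ M.Dom p) :
    ∃ z, cr v z = β ∧ ∃ q ∈ M.Sg, Tendsto (M.exp p) (𝓝[Band v (Ioo α β)] z) (𝓝 q) := by
  set B := Band v (Ioo α β) with hBdef
  have hBc : Convex ℝ B := convex_Band v ordConnected_Ioo
  have hE : M.IsTr (M.exp p) B := (MSurf.isTr_exp p).mono hB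
  have h0B : (0 : ℂ) ∈ B := by
    show cr v 0 ∈ Ioo α β
    rw [cr_zero]
    exact ⟨hα, hβ⟩
  have hp : p ∉ M.Sg := MSurf.notMem_of_mem_Dom (hB h0B)
  have hcl : ∀ z, cr v z = β → z ∈ closure B := by
    intro z hz
    have h3 : Tendsto (fun t : ℝ => z + (t : ℂ) * nor v) (𝓝[<] 0) (𝓝 z) := by
      have : Continuous fun t : ℝ => z + (t : ℂ) * nor v := by fun_prop
      have h4 := (this.tendsto 0).mono_left (nhdsWithin_le_nhds (s := Iio 0))
      simpa using h4
    refine mem_closure_of_tendsto h3 ?_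
    have h5 : Ioo (α - β) 0 ∈ 𝓝[<] (0 : ℝ) := Ioo_mem_nhdsLT (by linarith)
    filter_upwards [h5] with t ht
    show cr v (z + (t : ℂ) * nor v) ∈ Ioo α β
    rw [cr_add, cr_mul, cr_nor hv, hz, mul_one]
    exact ⟨by linarith [ht.1], by linarith [ht.2]⟩
  by_contra hcon
  push Not at hcon
  apply hno
  have hlim : ∀ z, cr v z = β → ∃ q, q ∉ M.Sg ∧ Tendsto (M.exp p) (𝓝[B] z) (𝓝 q) := by
    intro z hz
    obtain ⟨q, hq⟩ := MSurf.exists_lim hE.1 hBc (hcl z hz)
    exact ⟨q, fun hqS => hcon z hz q hqS hq, hq⟩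
  have : Nonempty X := ⟨p⟩
  choose! L hL1 hL2 using hlim
  classical
  set F : ℂ → X := fun z => if cr v z < β then M.exp p z else L z with hF
  have hFB : ∀ z, cr v z < β → F z = M.exp p z := fun z hz => if_pos hz
  have hFL : ∀ z, cr v z = β → F z = L z := fun z hz => if_neg (by rw [hz]; exact lt_irrefl _)
  have hFtr : M.IsTr F (Box v 0 β) := by
    refine MSurf.IsTr.of_locally fun z hz => ?_
    rcases lt_or_eq_of_le hz.2.2 with hlt | heq
    · refine ⟨M.exp p, Box v 0 β ∩ {y | cr v y < β}, ⟨hz, hlt⟩, ?_, hE.mono ?_, fun y hy =>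
        hFB y hy.2⟩
      · refine inter_mem self_mem_nhdsWithin (mem_nhdsWithin_of_mem_nhds ?_)
        exact (isOpen_Iio.preimage (continuous_cr v)).mem_nhds hlt
      · intro y hy
        exact ⟨lt_of_lt_of_le hα hy.1.2.1, hy.2⟩
    · obtain ⟨r, hr, g, hg1, hg2, hg3⟩ := MSurf.exists_extend hE.1 hBc (hcl z heq) (hL1 z heq)
        (hL2 z heq)
      refine ⟨g, Box v 0 β ∩ ball z r, ⟨hz, mem_ball_self hr⟩, ?_, hg1.mono inter_subset_right, ?_⟩
      · exact inter_mem self_mem_nhdsWithin (mem_nhdsWithin_of_mem_nhds (ball_mem_nhds _ hr))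
      · intro y hy
        rcases lt_or_eq_of_le hy.1.2.2 with hlt' | heq'
        · rw [hFB y hlt']
          exact hg3 ⟨⟨lt_of_lt_of_le hα hy.1.2.1, hlt'⟩, hy.2⟩
        · rw [hFL y heq']
          have hne : (𝓝[B] y).NeBot := mem_closure_iff_nhdsWithin_neBot.mp (hcl y heq')
          have h6 : Tendsto g (𝓝[B] y) (𝓝 (g y)) :=
            (hg1.continuousOn.continuousAt (isOpen_ball.mem_nhds hy.2)).tendsto.mono_left
              nhdsWithin_le_nhds
          refine tendsto_nhds_unique (hL2 y heq') (h6.congr' ?_)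
          have h7 : B ∩ ball z r ∈ 𝓝[B] y :=
            inter_mem self_mem_nhdsWithin (mem_nhdsWithin_of_mem_nhds (isOpen_ball.mem_nhds hy.2))
          filter_upwards [h7] with x hx
          exact (hg3 hx).symm
  have h00 : F 0 = p := by
    rw [hFB 0 (by rw [cr_zero]; exact hβ), MSurf.exp_zero hp]
  have h0v : F 0 = F v := by
    rw [h00, hFB v (by rw [cr_self]; exact hβ), h2]
  obtain ⟨δ, hδ, h8⟩ := per hv le_rfl hβ.le hFtr h0v
  rw [h00] at h8
  refine Subset.trans (fun z hz => ?_) h8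
  have hz' : cr v z ∈ Icc 0 β := hz
  exact ⟨by linarith [hz'.1], by linarith [hz'.2]⟩

end sing

end MaxC

open MaxC in
/-- Module MAXCYL. -/
theorem maxCyl.{u} (h : AreaBound.{u}) : MaxCyl.{u} := by
  intro X _ _ _ _ M hSg v f hv hf hfv
  obtain ⟨A, hApos, hA⟩ := h X M
  set p := f 0 with hp0
  have h1 : v ∈ M.Dom p := ⟨f, hf, rfl⟩
  have h2 : M.exp p v = p := by
    rw [MSurf.exp_eq hf rfl]
    exact hfv.symm
  have hp := MSurf.notMem_of_mem_Dom h1
  obtain ⟨n, hn, hinj⟩ := exists_period hSg hv h1 h2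
  have h0 := zero_mem_II hv h1 h2
  have hIo := isOpen_II hv h1 h2
  have hI := ordConnected_II (M := M) p v
  have hB := Band_II (M := M) p v
  obtain ⟨N, hN⟩ := exists_bound hSg hA hv h1 h2
  set I := II M p v with hIdef
  have hNpos : (0 : ℝ) ≤ N := Nat.cast_nonneg N
  have hbdA : BddAbove I := by
    refine ⟨N, fun t ht => ?_⟩
    by_contra hlt
    push Not at hlt
    refine hN 0 fun s hs => hI.out h0 ht ⟨hs.1, ?_⟩
    linarith [hs.2]
  have hbdB : BddBelow I := by
    refine ⟨-N, fun t ht => ?_⟩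
    by_contra hlt
    push Not at hlt
    refine hN (-N) fun s hs => hI.out ht h0 ⟨by linarith [hs.1], ?_⟩
    linarith [hs.2]
  set β := sSup I with hβdef
  set α := sInf I with hαdef
  have hβI : β ∉ I := fun hmem => by
    obtain ⟨ε, hε, h3⟩ := Metric.isOpen_iff.1 hIo β hmem
    have h4 : β + ε / 2 ∈ I := h3 (by
      rw [mem_ball, Real.dist_eq, add_sub_cancel_left, abs_of_pos (by positivity)]; linarith)
    have := le_csSup hbdA h4
    linarith
  have hαI : α ∉ I := fun hmem => by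
    obtain ⟨ε, hε, h3⟩ := Metric.isOpen_iff.1 hIo α hmem
    have h4 : α - ε / 2 ∈ I := h3 (by
      rw [mem_ball, Real.dist_eq, show α - ε / 2 - α = -(ε / 2) by ring, abs_neg,
        abs_of_pos (by positivity)]; linarith)
    have := csInf_le hbdB h4
    linarith
  have hβ : 0 < β := lt_of_le_of_ne (le_csSup hbdA h0) fun h => hβI (h ▸ h0)
  have hα : α < 0 := lt_of_le_of_ne (csInf_le hbdB h0) fun h => hαI (h ▸ h0)
  have hII : I = Ioo α β := by
    ext t
    constructor
    · intro ht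
      exact ⟨lt_of_le_of_ne (csInf_le hbdB ht) fun h => hαI (h ▸ ht),
        lt_of_le_of_ne (le_csSup hbdA ht) fun h => hβI (h ▸ ht)⟩
    · rintro ⟨h3, h4⟩
      obtain ⟨a, ha, hat⟩ := exists_lt_of_csInf_lt ⟨0, h0⟩ h3
      obtain ⟨b, hb, hbt⟩ := exists_lt_of_lt_csSup ⟨0, h0⟩ h4
      exact hI.out ha hb ⟨hat.le, hbt.le⟩
  have hvn : M.exp p (-v) = p := by
    have h0B : (0 : ℂ) ∈ Band v I := by
      show cr v 0 ∈ I
      rw [cr_zero]
      exact h0
    have h3 : -v ∈ Band v I := by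
      show cr v (-v) ∈ I
      have : cr v (-v) = 0 := by
        have := cr_mul v v (-1)
        rw [cr_self, mul_zero] at this
        rw [← this]
        congr 1
        push_cast
        ring
      rw [this]
      exact h0
    have h4 := shift_eq (s := 1) hI hB h0B
      (by rw [Complex.ofReal_one, one_mul, zero_add, h2, MSurf.exp_zero hp]) h3
    rw [Complex.ofReal_one, one_mul, neg_add_cancel, MSurf.exp_zero hp] at h4
    exact h4.symm
  -- the top
  obtain ⟨zt, hzt, qt, hqt, hlt⟩ := sing hv hα hβ (by rw [← hII]; exact hB) h2 (fun hcon => hβI (by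
    show Band v (uIcc 0 β) ⊆ M.Dom p
    rw [uIcc_of_le hβ.le]
    exact hcon))
  -- the bottom
  have hneg : ∀ a b : ℝ, Band (-v) (Ioo (-b) (-a)) = Band v (Ioo a b) := by
    intro a b
    ext z
    show cr (-v) z ∈ Ioo (-b) (-a) ↔ cr v z ∈ Ioo a b
    rw [cr_neg_left]
    simp only [mem_Ioo]
    constructor
    · rintro ⟨h3, h4⟩; exact ⟨by linarith, by linarith⟩
    · rintro ⟨h3, h4⟩; exact ⟨by linarith, by linarith⟩
  obtain ⟨zb, hzb, qb, hqb, hlb⟩ := sing (neg_ne_zero.2 hv) (α := -β) (β := -α) (by linarith)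
    (by linarith) (by rw [hneg, ← hII]; exact hB) hvn (fun hcon => hαI (by
      show Band v (uIcc 0 α) ⊆ M.Dom p
      rw [uIcc_of_ge hα.le]
      refine Subset.trans (fun z hz => ?_) hcon
      have hz' : cr v z ∈ Icc α 0 := hz
      show cr (-v) z ∈ Icc 0 (-α)
      rw [cr_neg_left]
      exact ⟨by linarith [hz'.2], by linarith [hz'.1]⟩))
  rw [hneg] at hlb
  rw [cr_neg_left] at hzb
  have hzb' : cr v zb = α := by linarith
  -- conclusion
  have hnR : (0 : ℝ) < n := by exact_mod_cast hn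
  have hcrn : ∀ z, cr (v / n) z = cr v z / n := by
    intro z
    have h3 : v / (n : ℂ) = ((1 / n : ℝ) : ℂ) * v := by push_cast; ring
    rw [h3, cr_mul_left]
    ring
  set u : ℂ := (α : ℂ) * nor v with hu
  have hcru : ∀ z, cr v (z + u) = cr v z + α := by
    intro z
    rw [cr_add, hu, cr_mul, cr_nor hv, mul_one]
  have hstrip : ∀ z, z ∈ Strip (v / n) ((β - α) / n) ↔ z + u ∈ Band v I := by
    intro z
    show (0 < cr (v / n) z ∧ cr (v / n) z < (β - α) / n) ↔ cr v (z + u) ∈ I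
    rw [hcru, hcrn, hII, div_lt_div_iff_of_pos_right hnR, div_pos_iff_of_pos_right hnR, mem_Ioo]
    constructor
    · rintro ⟨h3, h4⟩; exact ⟨by linarith, by linarith⟩
    · rintro ⟨h3, h4⟩; exact ⟨by linarith, by linarith⟩
  have htend : ∀ y : ℂ, ∀ q : X, Tendsto (M.exp p) (𝓝[Band v (Ioo α β)] y) (𝓝 q) →
      Tendsto (fun z => M.exp p (z + u)) (𝓝[Strip (v / n) ((β - α) / n)] (y - u)) (𝓝 q) := by
    intro y q hq
    refine hq.comp ?_
    refine tendsto_nhdsWithin_iff.2 ⟨?_, ?_⟩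
    · have h3 : Continuous fun z : ℂ => z + u := by fun_prop
      have h4 := (h3.tendsto (y - u)).mono_left
        (nhdsWithin_le_nhds (s := Strip (v / n) ((β - α) / n)))
      rwa [sub_add_cancel] at h4
    · filter_upwards [self_mem_nhdsWithin] with z hz
      rw [← hII]
      exact (hstrip z).1 hz
  refine ⟨n, (β - α) / n, fun z => M.exp p (z + u), -u, hn, ⟨?_, ?_, ?_, ?_, ?_, ?_⟩, ?_, ?_⟩
  · exact div_ne_zero hv (by exact_mod_cast hn.ne')
  · exact div_pos (by linarith) hnR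
  · refine (((MSurf.isTr_exp p).mono hB).comp_add u).mono fun z hz => (hstrip z).1 hz
  · intro z hz z' hz'
    rw [hinj _ ((hstrip z).1 hz) _ ((hstrip z').1 hz')]
    constructor
    · rintro ⟨k, hk⟩
      exact ⟨k, by linear_combination hk⟩
    · rintro ⟨k, hk⟩
      exact ⟨k, by linear_combination hk⟩
  · refine ⟨zb - u, ?_, qb, hqb, htend _ _ hlb⟩
    have h3 := hcru (zb - u)
    rw [sub_add_cancel, hzb'] at h3
    rw [hcrn]
    have : cr v (zb - u) = 0 := by linarith
    rw [this, zero_div]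
  · refine ⟨zt - u, ?_, qt, hqt, htend _ _ hlt⟩
    have h3 := hcru (zt - u)
    rw [sub_add_cancel, hzt] at h3
    rw [hcrn]
    have : cr v (zt - u) = β - α := by linarith
    rw [this]
  · rw [hstrip, neg_add_cancel]
    show cr v 0 ∈ I
    rw [cr_zero]
    exact h0
  · show M.exp p (-u + u) = p
    rw [neg_add_cancel, MSurf.exp_zero hp]

end Pool.Agent.Lib.MP_755177_an
end

section
set_option autoImplicit false

/-!
# Module TRANS: from a translation surface to a marked surface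
-/

open Set Filter Topology Complex Metric MeasureTheory
open scoped MatrixGroups ComplexConjugate

namespace Pool.Agent.Lib.MP_755177_an

namespace TRANS

/-! ### The cross product and strips -/

theorem cr_add (v z w : ℂ) : cr v (z + w) = cr v z + cr v w := by
  simp only [cr_eq, Complex.add_re, Complex.add_im]; ring

theorem cr_sub (v z w : ℂ) : cr v (z - w) = cr v z - cr v w := by
  simp only [cr_eq, Complex.sub_re, Complex.sub_im]; ring

theorem cr_mul_left (t : ℝ) (v z : ℂ) : cr (t * v) z = t * cr v z := by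
  simp only [cr_eq, Complex.mul_re, Complex.mul_im, Complex.ofReal_re, Complex.ofReal_im]; ring

theorem cr_mul_right (t : ℝ) (v z : ℂ) : cr v (t * z) = t * cr v z := by
  simp only [cr_eq, Complex.mul_re, Complex.mul_im, Complex.ofReal_re, Complex.ofReal_im]; ring

theorem cr_self (v : ℂ) : cr v v = 0 := by
  simp only [cr_eq]; ring

theorem cr_mul_self (v : ℂ) (t : ℝ) : cr v (t * v) = 0 := by
  rw [cr_mul_right, cr_self, mul_zero]

theorem cr_int_mul_self (v : ℂ) (n : ℤ) : cr v (n * v) = 0 := by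
  have := cr_mul_self v n
  simpa using this

theorem continuous_cr (v : ℂ) : Continuous (cr v) := by
  unfold cr; fun_prop

theorem exists_height {v : ℂ} (hv : v ≠ 0) (s : ℝ) : ∃ y, cr v y = s := by
  have h : 0 < v.re * v.re + v.im * v.im := by
    have h1 : 0 < Complex.normSq v := Complex.normSq_pos.2 hv
    rwa [Complex.normSq_apply] at h1
  refine ⟨((s / (v.re * v.re + v.im * v.im) : ℝ) : ℂ) * (I * v), ?_⟩
  rw [cr_mul_right]
  have h2 : cr v (I * v) = v.re * v.re + v.im * v.im := by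
    simp only [cr_eq, Complex.mul_re, Complex.mul_im, Complex.I_re, Complex.I_im]; ring
  rw [h2, div_mul_cancel₀ _ h.ne']

theorem isOpen_Strip (v : ℂ) (a : ℝ) : IsOpen (Strip v a) :=
  (isOpen_lt continuous_const (continuous_cr v)).inter (isOpen_lt (continuous_cr v) continuous_const)

theorem convex_slab (v : ℂ) {I : Set ℝ} (hI : Convex ℝ I) : Convex ℝ {z | cr v z ∈ I} := by
  intro z hz w hw s t hs ht hst
  have : cr v (s • z + t • w) = s • cr v z + t • cr v w := by
    rw [cr_add]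
    simp only [Complex.real_smul, smul_eq_mul, cr_mul_right]
  show cr v (s • z + t • w) ∈ I
  rw [this]
  exact hI hz hw hs ht hst

theorem convex_Strip (v : ℂ) (a : ℝ) : Convex ℝ (Strip v a) :=
  convex_slab v (convex_Ioo 0 a)

theorem mem_closure_Strip {v : ℂ} (hv : v ≠ 0) {a : ℝ} (ha : 0 < a) {z : ℂ} (h0 : 0 ≤ cr v z)
    (h1 : cr v z ≤ a) : z ∈ closure (Strip v a) := by
  obtain ⟨w, hw⟩ := exists_height hv (a / 2)
  have h2 : Tendsto (fun t : ℝ => ((1 - t : ℝ) : ℂ) * z + (t : ℂ) * w) (𝓝[>] 0) (𝓝 z) := by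
    have h3 : Continuous (fun t : ℝ => ((1 - t : ℝ) : ℂ) * z + (t : ℂ) * w) := by fun_prop
    have h4 := h3.tendsto 0
    simp only [sub_zero, Complex.ofReal_one, one_mul, Complex.ofReal_zero, zero_mul, add_zero] at h4
    exact h4.mono_left nhdsWithin_le_nhds
  refine mem_closure_of_tendsto h2 ?_
  have h3 : ∀ᶠ t : ℝ in 𝓝[>] 0, t < 1 :=
    nhdsWithin_le_nhds (gt_mem_nhds one_pos)
  filter_upwards [self_mem_nhdsWithin, h3] with t ht ht1
  have ht0 : 0 < t := ht
  have h4 : cr v (((1 - t : ℝ) : ℂ) * z + (t : ℂ) * w) = (1 - t) * cr v z + t * (a / 2) := by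
    rw [cr_add, cr_mul_right, cr_mul_right, hw]
  show 0 < _ ∧ _ < a
  rw [h4]
  constructor
  · have : 0 < t * (a / 2) := by positivity
    have : 0 ≤ (1 - t) * cr v z := mul_nonneg (by linarith) h0
    linarith
  · have h5 : (1 - t) * cr v z ≤ (1 - t) * a := mul_le_mul_of_nonneg_left h1 (by linarith)
    have h6 : t * (a / 2) < t * a := by
      apply mul_lt_mul_of_pos_left _ ht0
      linarith
    linarith

theorem strip_eq {u : ℂ} (hu : ‖u‖ = 1) {c : ℝ} (hc : 0 < c) (h : ℝ) :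
    TransStr.strip u h = Strip (c * u) (c * h) := by
  have hinv : ∀ z : ℂ, (z / u).im = cr u z := by
    intro z
    rw [div_eq_mul_inv, Complex.inv_eq_conj hu, mul_comm]
    rfl
  ext z
  show (0 < (z / u).im ∧ (z / u).im < h) ↔ (0 < cr (c * u) z ∧ cr (c * u) z < c * h)
  rw [hinv, cr_mul_left]
  constructor
  · rintro ⟨h1, h2⟩
    exact ⟨mul_pos hc h1, mul_lt_mul_of_pos_left h2 hc⟩
  · rintro ⟨h1, h2⟩
    exact ⟨pos_of_mul_pos_right (by linarith) hc.le, lt_of_mul_lt_mul_left h2 hc.le⟩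

/-! ### Regular points -/

section reg

variable {X : Type*} [TopologicalSpace X]

/-- Regular points. -/
def Reg (M : TransStr X) (p : X) : Prop :=
  ∃ a ∈ M.atlas, ∃ ζ : OpenPartialHomeomorph X ℂ,
    p ∈ ζ.source ∧ ζ.source ⊆ a.1 ∧ ζ p = 0 ∧ ∀ x ∈ ζ.source, a.2 x = a.2 p + ζ x

theorem reg_near (M : TransStr X) (p : X) : ∃ U ∈ 𝓝 p, ∀ x ∈ U, x ≠ p → Reg M x := by
  obtain ⟨a, ha, k, ζ, hk, h1, h2, h3, h4⟩ := M.normal_form p
  refine ⟨ζ.source, ζ.open_source.mem_nhds h1, fun x hx hxp => ?_⟩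
  have hy : ζ x ≠ 0 := by
    intro h
    exact hxp (ζ.injOn hx h1 (h.trans h3.symm))
  have hd : HasStrictDerivAt (fun y : ℂ => y ^ k) ((k : ℂ) * ζ x ^ (k - 1)) (ζ x) :=
    hasStrictDerivAt_pow k (ζ x)
  have hne : (k : ℂ) * ζ x ^ (k - 1) ≠ 0 :=
    mul_ne_zero (by exact_mod_cast hk.ne') (pow_ne_zero _ hy)
  have hf := hd.hasStrictFDerivAt_equiv hne
  let e := hf.toOpenPartialHomeomorph (fun y : ℂ => y ^ k)
  have he : ∀ y, e y = y ^ k := fun y => rfl
  have hmem : ζ x ∈ e.source := hf.mem_toOpenPartialHomeomorph_source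
  let t : OpenPartialHomeomorph ℂ ℂ := (Homeomorph.subRight (ζ x ^ k)).toOpenPartialHomeomorph
  have ht : ∀ y, t y = y - ζ x ^ k := fun y => rfl
  refine ⟨a, ha, (ζ.trans e).trans t, ?_, ?_, ?_, ?_⟩
  · simp [hx, hmem, t]
  · intro y hy
    simp only [OpenPartialHomeomorph.trans_source, mem_inter_iff] at hy
    exact h2 hy.1.1
  · show t (e (ζ x)) = 0
    rw [ht, he, sub_self]
  · intro y hy
    simp only [OpenPartialHomeomorph.trans_source, mem_inter_iff] at hy
    show a.2 y = a.2 x + t (e (ζ y))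
    rw [ht, he, h4 y hy.1.1, h4 x hx]
    ring

theorem finite_not_reg [CompactSpace X] (M : TransStr X) : {p | ¬Reg M p}.Finite := by
  choose U hU h using reg_near M
  obtain ⟨t, ht⟩ := CompactSpace.elim_nhds_subcover U hU
  refine t.finite_toSet.subset fun p hp => ?_
  have : p ∈ ⋃ x ∈ t, U x := by rw [ht]; trivial
  simp only [mem_iUnion] at this
  obtain ⟨x, hx, hpx⟩ := this
  by_cases hxp : p = x
  · rw [hxp]; exact hx
  · exact absurd (h x p hpx hxp) hp

/-- The marked surface. -/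
def mkSurf (M : TransStr X) (S : Set X) (hS : S.Finite) (h : ∀ p, p ∉ S → Reg M p) : MSurf X :=
  { M with Sg := S, finite_Sg := hS, regular := h }

end reg

section cyl

variable {X : Type*} [TopologicalSpace X] [T2Space X] {M : MSurf X}

omit [T2Space X] in
/-- A cylinder is an annulus. -/
theorem isAnnulus_of_isCyl {v : ℂ} {a : ℝ} {f : ℂ → X} (h : M.IsCyl v a f) :
    M.toTransStr.IsAnnulus (v / ‖v‖) ‖v‖ (a / ‖v‖) (f '' Strip v a) := by
  have hv : 0 < ‖v‖ := norm_pos_iff.2 h.ne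
  have hv' : (‖v‖ : ℂ) ≠ 0 := by exact_mod_cast hv.ne'
  have hu : ‖v / ‖v‖‖ = 1 := by
    rw [norm_div, Complex.norm_real, norm_norm, div_self hv.ne']
  have e1 : (‖v‖ : ℂ) * (v / ‖v‖) = v := by field_simp
  have e2 : ‖v‖ * (a / ‖v‖) = a := by field_simp
  have e3 : TransStr.strip (v / ‖v‖) (a / ‖v‖) = Strip v a := by
    rw [strip_eq hu hv, e1, e2]
  refine ⟨hv, div_pos h.pos hv, f, ?_, ?_, ?_⟩
  · rw [e3]; exact h.tr.1
  · rw [e3, e1]; exact h.inj
  · rw [e3]

/-- A boundary point of a cylinder with marked limit is not in the domain of a translation map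
which continues it. -/
theorem not_mem_of_bdry {v : ℂ} {a : ℝ} {f : ℂ → X} (hv : v ≠ 0) (ha : 0 < a)
    (hf : M.IsTr f (Strip v a)) {g : ℂ → X} {S : Set ℂ} (hS : IsOpen S) (hc : Convex ℝ S)
    (hg : M.IsTr g S) {d z0 : ℂ} (h0 : z0 ∈ Strip v a) (h0' : z0 + d ∈ S)
    (he : f z0 = g (z0 + d)) {z : ℂ} (hz0 : 0 ≤ cr v z) (hz1 : cr v z ≤ a) {q : X} (hq : q ∈ M.Sg)
    (hl : Tendsto f (𝓝[Strip v a] z) (𝓝 q)) : z + d ∉ S := by
  intro hzS
  have hT : IsPreconnected (Strip v a ∩ {z | z + d ∈ S}) := by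
    refine ((convex_Strip v a).inter ?_).isPreconnected
    intro x hx y hy s t hs ht hst
    have := hc hx hy hs ht hst
    show s • x + t • y + d ∈ S
    convert this using 1
    have : (s : ℂ) + t = 1 := by exact_mod_cast hst
    simp only [Complex.real_smul]
    linear_combination (-d) * this
  have hg' := (hg.comp_add d).mono (inter_subset_right (s := Strip v a))
  have heq := (hf.mono (inter_subset_left (t := {z | z + d ∈ S}))).eqOn hg' hT ⟨h0, h0'⟩ he
  have hne : (𝓝[Strip v a] z).NeBot :=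
    mem_closure_iff_nhdsWithin_neBot.mp (mem_closure_Strip hv ha hz0 hz1)
  have hcont : ContinuousAt (fun z => g (z + d)) z := by
    have h1 : ContinuousAt g (z + d) := hg.1.1.continuousAt (hS.mem_nhds hzS)
    exact ContinuousAt.comp (f := fun z => z + d) h1 (by fun_prop)
  have h1 : Tendsto (fun z => g (z + d)) (𝓝[Strip v a] z) (𝓝 (g (z + d))) :=
    hcont.tendsto.mono_left nhdsWithin_le_nhds
  have h2 : ∀ᶠ z' in 𝓝[Strip v a] z, f z' = g (z' + d) := by
    have h3 : ∀ᶠ z' in 𝓝 z, z' + d ∈ S := by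
      have : ContinuousAt (fun z => z + d) z := by fun_prop
      exact this.eventually (hS.mem_nhds hzS)
    filter_upwards [self_mem_nhdsWithin, nhdsWithin_le_nhds h3] with z' h4 h5
    exact heq ⟨h4, h5⟩
  have h3 : q = g (z + d) := tendsto_nhds_unique hl (h1.congr' (h2.mono fun _ h => h.symm))
  rw [h3] at hq
  exact hg.2 _ hzS hq

/-- A translation map on a parallel strip which overlaps a maximal cylinder is a restriction. -/
theorem sub_of_overlap {v : ℂ} {a : ℝ} {f : ℂ → X} (hf : M.IsCyl v a f) {b : ℝ} {g : ℂ → X}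
    (hg : M.IsTr g (Strip v b)) {d z0 : ℂ} (h0 : z0 ∈ Strip v a) (h0' : z0 + d ∈ Strip v b)
    (he : f z0 = g (z0 + d)) :
    cr v d ≤ 0 ∧ b - cr v d ≤ a ∧ ∀ z ∈ Strip v b, z - d ∈ Strip v a ∧ f (z - d) = g z := by
  obtain ⟨zb, hzb, qb, hqb, hlb⟩ := hf.bot
  obtain ⟨zt, hzt, qt, hqt, hlt⟩ := hf.top
  have hb := not_mem_of_bdry hf.ne hf.pos hf.tr (isOpen_Strip v b) (convex_Strip v b) hg h0 h0' he
    hzb.ge (by rw [hzb]; exact hf.pos.le) hqb hlb
  have ht := not_mem_of_bdry hf.ne hf.pos hf.tr (isOpen_Strip v b) (convex_Strip v b) hg h0 h0' he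
    (by rw [hzt]; exact hf.pos.le) hzt.le hqt hlt
  have h1 : 0 < cr v z0 ∧ cr v z0 < a := h0
  have h2 : 0 < cr v (z0 + d) ∧ cr v (z0 + d) < b := h0'
  rw [cr_add] at h2
  have e1 : cr v d ≤ 0 := by
    by_contra hlt
    apply hb
    show 0 < cr v (zb + d) ∧ cr v (zb + d) < b
    rw [cr_add, hzb]
    constructor <;> linarith [h1.1, h1.2, h2.1, h2.2]
  have e2 : b - cr v d ≤ a := by
    by_contra hlt
    apply ht
    show 0 < cr v (zt + d) ∧ cr v (zt + d) < b
    rw [cr_add, hzt]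
    constructor <;> linarith [h1.1, h1.2, h2.1, h2.2]
  have hsub : ∀ z ∈ Strip v b, z - d ∈ Strip v a := by
    intro z hz
    have hz' : 0 < cr v z ∧ cr v z < b := hz
    show 0 < cr v (z - d) ∧ cr v (z - d) < a
    rw [cr_sub]
    constructor <;> linarith [hz'.1, hz'.2]
  refine ⟨e1, e2, fun z hz => ⟨hsub z hz, ?_⟩⟩
  have hm : Strip v b ⊆ {z | z + (-d) ∈ Strip v a} := fun z hz => by
    show z + -d ∈ Strip v a
    rw [← sub_eq_add_neg]
    exact hsub z hz
  have h3 := ((hf.tr.comp_add (-d)).mono hm).eqOn hg (convex_Strip v b).isPreconnected h0'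
    (by simp only [add_neg_cancel_right]; exact he)
  have := h3 hz
  simp only at this
  rw [sub_eq_add_neg]
  exact this

end cyl

/-! ### Surfaces with zeros -/

section zeros

universe u

variable {X : Type u} [TopologicalSpace X] [T2Space X] {M : MSurf X}

omit [T2Space X] in
theorem isTr_of_isTrans (hmono : MonoStatement.{u}) (hZ : ∀ p ∈ M.Sg, ¬Reg M.toTransStr p)
    {f : ℂ → X} {S : Set ℂ} (hS : IsOpen S) (hf : M.toTransStr.IsTrans f S) : M.IsTr f S := by
  refine ⟨hf, fun z hz hq => ?_⟩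
  obtain ⟨a, ha, k, ζ, hk, h1, h2, h3, h4⟩ := M.normal_form (f z)
  have hk1 := hmono X M.toTransStr f S hS hf z hz a ha k ζ hk h1 h2 h3 h4
  subst hk1
  exact hZ _ hq ⟨a, ha, ζ, h1, h2, h3, fun x hx => by rw [h4 x hx, pow_one]⟩

theorem cylinder_of_cyl (hmono : MonoStatement.{u}) (hZ : ∀ p ∈ M.Sg, ¬Reg M.toTransStr p)
    {v : ℂ} {a : ℝ} {f : ℂ → X} (h : M.IsCyl v a f) :
    M.toTransStr.IsCylinder (v / ‖v‖) ‖v‖ (a / ‖v‖) (f '' Strip v a) := by
  refine ⟨isAnnulus_of_isCyl h, ?_⟩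
  rintro c' h' C' ⟨hc', hh', g, hg, hinj, himg⟩ hsub
  have hv : 0 < ‖v‖ := norm_pos_iff.2 h.ne
  have hv' : (‖v‖ : ℂ) ≠ 0 := by exact_mod_cast hv.ne'
  have hu : ‖v / ‖v‖‖ = 1 := by
    rw [norm_div, Complex.norm_real, norm_norm, div_self hv.ne']
  have e1 : (‖v‖ : ℂ) * (v / ‖v‖) = v := by field_simp
  have e3 : TransStr.strip (v / ‖v‖) h' = Strip v (‖v‖ * h') := by
    rw [strip_eq hu hv, e1]
  rw [e3] at hg himg
  have hg' : M.IsTr g (Strip v (‖v‖ * h')) :=
    isTr_of_isTrans hmono hZ (isOpen_Strip _ _) hg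
  obtain ⟨z0, hz0⟩ := exists_height h.ne (a / 2)
  have hz0' : z0 ∈ Strip v a := by
    have := h.pos
    constructor <;> rw [hz0] <;> linarith
  have h1 : f z0 ∈ C' := hsub ⟨z0, hz0', rfl⟩
  rw [← himg] at h1
  obtain ⟨z1, hz1, he⟩ := h1
  obtain ⟨_, _, h2⟩ := sub_of_overlap h hg' (d := z1 - z0) hz0' (by rwa [add_sub_cancel])
    (by rw [add_sub_cancel]; exact he.symm)
  refine Subset.antisymm ?_ hsub
  rw [← himg]
  rintro _ ⟨z, hz, rfl⟩
  exact ⟨_, (h2 z hz).1, (h2 z hz).2⟩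

theorem cyl_of_cylinder [CompactSpace X] [ConnectedSpace X] (hmax : MaxCyl.{u})
    (hmono : MonoStatement.{u}) (hne : M.Sg.Nonempty) (hZ : ∀ p ∈ M.Sg, ¬Reg M.toTransStr p)
    {u : ℂ} {c h : ℝ} {C : Set X} (hu : ‖u‖ = 1) (hC : M.toTransStr.IsCylinder u c h C) :
    ∃ g, M.IsCyl (c * u) (c * h) g ∧ g '' Strip (c * u) (c * h) = C := by
  obtain ⟨⟨hc, hh, f, hf, hinj, himg⟩, hmaxC⟩ := hC
  have hu0 : u ≠ 0 := by
    rintro rfl
    simp at hu
  have hc0 : (c : ℂ) ≠ 0 := by exact_mod_cast hc.ne'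
  rw [strip_eq hu hc] at hf hinj himg
  have hv : (c : ℂ) * u ≠ 0 := mul_ne_zero hc0 hu0
  have hf' : M.IsTr f (Strip (c * u) (c * h)) :=
    isTr_of_isTrans hmono hZ (isOpen_Strip _ _) hf
  have hb : 0 < c * h := mul_pos hc hh
  obtain ⟨z0, hz0⟩ := exists_height hv (c * h / 2)
  have hz0' : z0 ∈ Strip (c * u) (c * h) := by
    constructor <;> rw [hz0] <;> linarith
  have hseg : segment ℝ 0 ((c : ℂ) * u) ⊆ {z | z + z0 ∈ Strip (c * u) (c * h)} := by
    rintro z ⟨s, t, hs, ht, hst, rfl⟩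
    show 0 < _ ∧ _ < c * h
    have : cr (c * u) (s • (0 : ℂ) + t • ((c : ℂ) * u) + z0) = c * h / 2 := by
      rw [cr_add, smul_zero, zero_add, Complex.real_smul, cr_mul_self, hz0, zero_add]
    rw [this]
    constructor <;> linarith
  have hper : f z0 = f (c * u + z0) := by
    rw [hinj z0 hz0' _ (hseg (right_mem_segment ℝ 0 _))]
    exact ⟨1, by simp [add_comm]⟩
  obtain ⟨n, a, g, z, hn, hg, hz, hgz⟩ := hmax X M hne (c * u) (fun z => f (z + z0)) hv
    ((hf'.comp_add z0).mono hseg) (by simpa using hper)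
  simp only [zero_add] at hgz
  have hnC : (n : ℂ) ≠ 0 := by exact_mod_cast hn.ne'
  have hnR : (0 : ℝ) < n := by exact_mod_cast hn
  -- the strip of `f` in terms of `w = v / n`
  have hw : ((n : ℝ) : ℂ) * ((c : ℂ) * u / n) = c * u := by
    push_cast
    field_simp
  have hstrip : Strip (c * u) (c * h) = Strip ((c : ℂ) * u / n) (c * h / n) := by
    ext y
    have e : cr (c * u) y = n * cr ((c : ℂ) * u / n) y := by
      rw [← cr_mul_left, hw]
    show (0 < cr (c * u) y ∧ cr (c * u) y < c * h) ↔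
      (0 < cr ((c : ℂ) * u / n) y ∧ cr ((c : ℂ) * u / n) y < c * h / n)
    rw [e, lt_div_iff₀ hnR, mul_comm (n : ℝ)]
    constructor
    · rintro ⟨h1, h2⟩
      exact ⟨pos_of_mul_pos_left h1 hnR.le, h2⟩
    · rintro ⟨h1, h2⟩
      exact ⟨mul_pos h1 hnR, h2⟩
  have hf'' := hf'
  rw [hstrip] at hf''
  obtain ⟨k1, k2, k3⟩ := sub_of_overlap hg hf'' (d := z0 - z) hz
    (by rw [add_sub_cancel, ← hstrip]; exact hz0') (by rw [add_sub_cancel]; exact hgz)
  have hann := isAnnulus_of_isCyl hg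
  have hnorm : ‖(c : ℂ) * u / n‖ = c / n := by
    rw [norm_div, norm_mul, hu, mul_one, Complex.norm_real, Real.norm_of_nonneg hc.le]
    simp
  have hdir : (c : ℂ) * u / n / (‖(c : ℂ) * u / n‖ : ℝ) = u := by
    rw [hnorm]
    push_cast
    field_simp
  rw [hdir] at hann
  have hsub : C ⊆ g '' Strip ((c : ℂ) * u / n) a := by
    rw [← himg, hstrip]
    rintro _ ⟨y, hy, rfl⟩
    exact ⟨_, (k3 y hy).1, (k3 y hy).2⟩
  have heq : g '' Strip ((c : ℂ) * u / n) a = C := hmaxC _ _ _ hann hsub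
  -- `n = 1`
  have hn1 : n = 1 := by
    have hz0'' : z0 + (c : ℂ) * u / n ∈ Strip ((c : ℂ) * u / n) (c * h / n) := by
      have h1 : z0 ∈ Strip ((c : ℂ) * u / n) (c * h / n) := by rw [← hstrip]; exact hz0'
      show 0 < cr _ _ ∧ cr _ _ < _
      rw [cr_add, cr_self, add_zero]
      exact h1
    have hz0w : z0 ∈ Strip ((c : ℂ) * u / n) (c * h / n) := by rw [← hstrip]; exact hz0'
    have e1 := k3 _ hz0''
    have e2 := k3 _ hz0w
    have e3 : g (z0 - (z0 - z)) = g (z0 + (c : ℂ) * u / n - (z0 - z)) := by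
      rw [hg.inj _ e2.1 _ e1.1]
      exact ⟨1, by push_cast; ring⟩
    rw [e1.2, e2.2] at e3
    rw [hinj _ hz0' _ (by rw [hstrip]; exact hz0'')] at e3
    obtain ⟨m, hm⟩ := e3
    have h1 : ((m : ℂ) * n) * ((c : ℂ) * u) = 1 * (c * u) := by
      have h2 : (c : ℂ) * u / n = m * (c * u) := by linear_combination hm
      field_simp at h2
      rw [one_mul]
      have h3 : (n : ℂ) * m = 1 := h2.symm
      rw [mul_comm (m : ℂ), h3, one_mul]
    have h2 : (m : ℂ) * n = 1 := mul_right_cancel₀ hv h1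
    have h3 : m * (n : ℤ) = 1 := by exact_mod_cast h2
    have h4 : (n : ℤ) ∣ 1 := ⟨m, by rw [mul_comm]; exact h3.symm⟩
    have h5 := Int.eq_one_of_dvd_one (by positivity) h4
    exact_mod_cast h5
  subst hn1
  simp only [Nat.cast_one, div_one] at *
  -- the heights
  have hheight : ∀ y ∈ Strip ((c : ℂ) * u) a, -cr (c * u) (z0 - z) < cr (c * u) y ∧
      cr (c * u) y < c * h - cr (c * u) (z0 - z) := by
    intro y hy
    have h1 : g y ∈ C := by rw [← heq]; exact ⟨y, hy, rfl⟩
    rw [← himg] at h1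
    obtain ⟨y', hy', he⟩ := h1
    have h2 := k3 y' hy'
    rw [← h2.2] at he
    rw [hg.inj _ h2.1 _ hy] at he
    obtain ⟨m, hm⟩ := he
    have h3 : cr (c * u) y = cr (c * u) y' - cr (c * u) (z0 - z) := by
      rw [hm, cr_add, cr_int_mul_self, add_zero, cr_sub]
    have h4 : 0 < cr (c * u) y' ∧ cr (c * u) y' < c * h := hy'
    rw [h3]
    constructor <;> linarith [h4.1, h4.2]
  have ha := hg.pos
  have hd0 : cr (c * u) (z0 - z) = 0 := by
    by_contra hne0
    have h1 : cr (c * u) (z0 - z) < 0 := lt_of_le_of_ne k1 hne0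
    obtain ⟨y, hy⟩ := exists_height hv (min (-cr (c * u) (z0 - z)) (a / 2))
    have h2 : y ∈ Strip ((c : ℂ) * u) a := by
      show 0 < cr _ _ ∧ cr _ _ < _
      rw [hy]
      exact ⟨lt_min (by linarith) (by linarith), (min_le_right _ _).trans_lt (by linarith)⟩
    have h3 := (hheight y h2).1
    rw [hy] at h3
    exact absurd h3 (not_lt.2 (min_le_left _ _))
  rw [hd0] at k2 hheight
  have hab : a = c * h := by
    apply le_antisymm _ (by linarith)
    by_contra hlt
    push Not at hlt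
    obtain ⟨y, hy⟩ := exists_height hv (c * h)
    have h2 : y ∈ Strip ((c : ℂ) * u) a := by
      show 0 < cr _ _ ∧ cr _ _ < _
      rw [hy]
      exact ⟨hb, hlt⟩
    have h3 := (hheight y h2).2
    rw [hy] at h3
    linarith
  subst hab
  exact ⟨g, hg, heq⟩

end zeros

/-! ### Surfaces without zeros -/

section torus

variable {X : Type*} [TopologicalSpace X] [T2Space X] [CompactSpace X] {M : MSurf X}

theorem Dom_eq_univ (hS : M.Sg = ∅) (p : X) : M.Dom p = univ := by
  have hn : ∀ x : X, x ∉ M.Sg := fun x => by rw [hS]; exact notMem_empty x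
  rw [eq_univ_iff_forall]
  intro v
  by_contra hv
  obtain ⟨t, ht0, ht1, h1, h2⟩ := MSurf.exists_first_hit (M := M) (hn p) hv
  set w : ℂ := t • v with hw
  -- the half-open segment
  let S : Set ℂ := (fun s : ℝ => s • w) '' Ico 0 1
  have hSD : S ⊆ M.Dom p := by
    rintro _ ⟨s, hs, rfl⟩
    exact h1 s hs.1 hs.2
  have hSc : Convex ℝ S := by
    have : S = (LinearMap.toSpanSingleton ℝ ℂ w) '' Ico 0 1 := rfl
    rw [this]
    exact (convex_Ico 0 1).linear_image _
  have hcl : w ∈ closure S := by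
    have h3 : Tendsto (fun s : ℝ => s • w) (𝓝[<] 1) (𝓝 w) := by
      have h4 : Continuous (fun s : ℝ => s • w) := by fun_prop
      have h5 := h4.tendsto 1
      rw [one_smul] at h5
      exact h5.mono_left nhdsWithin_le_nhds
    refine mem_closure_of_tendsto h3 ?_
    have h4 : ∀ᶠ s : ℝ in 𝓝[<] 1, 0 < s := nhdsWithin_le_nhds (lt_mem_nhds one_pos)
    filter_upwards [self_mem_nhdsWithin, h4] with s hs1 hs0
    exact ⟨s, ⟨hs0.le, hs1⟩, rfl⟩
  have htr : M.IsTr (M.exp p) S := (MSurf.isTr_exp p).mono hSD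
  obtain ⟨q, hq⟩ := MSurf.exists_lim htr.1 hSc hcl
  obtain ⟨r, hr, g, hg, hgq, heq⟩ := MSurf.exists_extend htr.1 hSc hcl (hn q) hq
  -- the closed segment
  have hseg : ∀ z ∈ segment ℝ 0 w, z ∈ S ∨ z = w := by
    intro z hz
    rw [segment_eq_image] at hz
    obtain ⟨s, hs, rfl⟩ := hz
    rcases hs.2.lt_or_eq with h | h
    · left
      exact ⟨s, ⟨hs.1, h⟩, by simp⟩
    · right
      rw [h]; simp
  classical
  let F : ℂ → X := fun z => if z = w then q else M.exp p z
  have hwS : w ∉ S := fun h => h2 (hSD h)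
  have hFS : EqOn F (M.exp p) S := by
    intro z hz
    have : z ≠ w := fun h => hwS (h ▸ hz)
    simp only [F, if_neg this]
  have hF : M.IsTr F (segment ℝ 0 w) := by
    refine MSurf.IsTr.of_locally fun z hz => ?_
    rcases hseg z hz with h | h
    · refine ⟨M.exp p, S, h, ?_, htr, hFS⟩
      have hne : z ≠ w := fun h' => hwS (h' ▸ h)
      have h3 : ({w}ᶜ : Set ℂ) ∈ 𝓝 z := isOpen_ne.mem_nhds hne
      filter_upwards [self_mem_nhdsWithin, mem_nhdsWithin_of_mem_nhds h3] with y hy hyw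
      exact (hseg y hy).resolve_right hyw
    · subst h
      refine ⟨g, segment ℝ 0 w ∩ ball w r, ⟨hz, mem_ball_self hr⟩, ?_, ?_, ?_⟩
      · exact inter_mem self_mem_nhdsWithin (mem_nhdsWithin_of_mem_nhds (ball_mem_nhds w hr))
      · exact hg.mono inter_subset_right
      · intro y hy
        rcases hseg y hy.1 with h | h
        · rw [hFS h]
          exact heq ⟨h, hy.2⟩
        · subst h
          simp only [F, if_pos]
          exact hgq.symm
  apply h2
  have h0S : (0 : ℂ) ∈ S := ⟨0, ⟨le_rfl, one_pos⟩, by simp⟩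
  refine ⟨F, hF, ?_⟩
  rw [hFS h0S]
  exact MSurf.exp_zero (hn p)

theorem eq_mul_of_cr_eq_zero {v z : ℂ} (hv : v ≠ 0) (h : cr v z = 0) : ∃ s : ℝ, z = s * v := by
  have h1 : (z / v).im = 0 := by
    have h2 : conj v * v = (Complex.normSq v : ℂ) := by rw [mul_comm]; exact Complex.mul_conj v
    have h3 : (Complex.normSq v : ℂ) ≠ 0 := by
      exact_mod_cast (Complex.normSq_pos.2 hv).ne'
    have h4 : z / v = ((Complex.normSq v)⁻¹ : ℝ) * (conj v * z) := by
      rw [Complex.ofReal_inv, eq_inv_mul_iff_mul_eq₀ h3, ← h2]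
      field_simp
    have h5 : (conj v * z).im = 0 := h
    rw [h4, Complex.im_ofReal_mul, h5, mul_zero]
  refine ⟨(z / v).re, ?_⟩
  have h2 : ((z / v).re : ℂ) = z / v := by
    apply Complex.ext <;> simp [h1]
  rw [h2, div_mul_cancel₀ _ hv]

/-- On a surface without zeros a cylinder whose two sides carry the same point is dense. -/
theorem dense_of_torus [ConnectedSpace X] (hS : M.Sg = ∅) {v : ℂ} {a : ℝ} {f : ℂ → X}
    (hv : v ≠ 0) (ha : 0 < a) (hf : M.IsTr f (Strip v a))
    (hper : ∀ z ∈ Strip v a, f (z + v) = f z) {p0 : X} {zb zt : ℂ} (hzb : cr v zb = 0)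
    (hlb : Tendsto f (𝓝[Strip v a] zb) (𝓝 p0)) (hzt : cr v zt = a)
    (hlt : Tendsto f (𝓝[Strip v a] zt) (𝓝 p0)) : closure (f '' Strip v a) = univ := by
  obtain ⟨z0, hz0⟩ := exists_height hv (a / 2)
  have hz0' : z0 ∈ Strip v a := by
    constructor <;> rw [hz0] <;> linarith
  -- the global extension
  let H : ℂ → X := fun z => M.exp (f z0) (z + (-z0))
  have hH : M.IsTr H univ := by
    have h1 : M.IsTr (M.exp (f z0)) univ := by
      have := MSurf.isTr_exp (M := M) (f z0)
      rwa [Dom_eq_univ hS] at this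
    exact (h1.comp_add (-z0)).mono (fun _ _ => trivial)
  have hHz0 : H z0 = f z0 := by
    show M.exp (f z0) (z0 + -z0) = f z0
    rw [add_neg_cancel]
    exact MSurf.exp_zero (by rw [hS]; exact notMem_empty _)
  have hHf : EqOn H f (Strip v a) :=
    (hH.mono (subset_univ _)).eqOn hf (convex_Strip v a).isPreconnected hz0' hHz0
  have hcont : Continuous H := by
    rw [← continuousOn_univ]
    exact hH.continuousOn
  have hlim : ∀ z, 0 ≤ cr v z → cr v z ≤ a → Tendsto f (𝓝[Strip v a] z) (𝓝 p0) → H z = p0 := by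
    intro z h0 h1 hl
    have hne : (𝓝[Strip v a] z).NeBot :=
      mem_closure_iff_nhdsWithin_neBot.mp (mem_closure_Strip hv ha h0 h1)
    have h2 : Tendsto H (𝓝[Strip v a] z) (𝓝 (H z)) := (hcont.tendsto z).mono_left nhdsWithin_le_nhds
    have h3 : ∀ᶠ y in 𝓝[Strip v a] z, H y = f y := by
      filter_upwards [self_mem_nhdsWithin] with y hy
      exact hHf hy
    exact tendsto_nhds_unique (h2.congr' h3) hl
  have hb := hlim zb hzb.ge (by rw [hzb]; exact ha.le) hlb
  have ht := hlim zt (by rw [hzt]; exact ha.le) hzt.le hlt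
  have hperiod : ∀ w y : ℂ, H (y + w) = H y → Function.Periodic H w := by
    intro w y h z
    have h1 := ((hH.comp_add w).mono (T := univ) (fun _ _ => trivial)).eqOn hH
      isPreconnected_univ (mem_univ y) h
    exact h1 (mem_univ z)
  have hpv : Function.Periodic H v := by
    refine hperiod v z0 ?_
    have : z0 + v ∈ Strip v a := by
      show 0 < cr v _ ∧ cr v _ < a
      rw [cr_add, cr_self, add_zero]
      exact hz0'
    rw [hHf this, hHf hz0']
    exact hper z0 hz0'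
  set τ := zt - zb with hτ
  have hpτ : Function.Periodic H τ := by
    refine hperiod τ zb ?_
    rw [hτ, add_sub_cancel, hb, ht]
  have hcrτ : cr v τ = a := by rw [hτ, cr_sub, hzt, hzb, sub_zero]
  have hdec : ∀ z, ∃ s : ℝ, z = s * v + (cr v z / a : ℝ) * τ := by
    intro z
    obtain ⟨s, hs⟩ := eq_mul_of_cr_eq_zero (z := z - (cr v z / a : ℝ) * τ) hv (by
      rw [cr_sub, cr_mul_right, hcrτ, div_mul_cancel₀ _ ha.ne', sub_self])
    exact ⟨s, by rw [← hs]; ring⟩
  have hred : ∀ (z : ℂ) (m n : ℤ), H (z - m * v - n * τ) = H z := by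
    intro z m n
    have h1 := (hpτ.int_mul n) (z - m * v - n * τ)
    have h2 := (hpv.int_mul m) (z - m * v)
    rw [sub_add_cancel] at h1 h2
    rw [← h1, h2]
  -- the image of `H` is everything
  have hrange : range H = univ := by
    have hclosed : IsClosed (range H) := by
      have h1 : range H = (fun q : ℝ × ℝ => H (q.1 * v + q.2 * τ)) '' (Icc 0 1 ×ˢ Icc 0 1) := by
        apply Subset.antisymm
        · rintro _ ⟨z, rfl⟩
          obtain ⟨s, hs⟩ := hdec z
          refine ⟨(Int.fract s, Int.fract (cr v z / a)),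
            ⟨⟨Int.fract_nonneg _, (Int.fract_lt_one _).le⟩,
              ⟨Int.fract_nonneg _, (Int.fract_lt_one _).le⟩⟩, ?_⟩
          show H ((Int.fract s : ℝ) * v + (Int.fract (cr v z / a) : ℝ) * τ) = H z
          rw [← hred z ⌊s⌋ ⌊cr v z / a⌋]
          congr 1
          rw [Int.fract, Int.fract]
          push_cast
          nth_rewrite 3 [hs]
          push_cast
          ring
        · rintro _ ⟨q, _, rfl⟩
          exact ⟨_, rfl⟩
      rw [h1]
      refine IsCompact.isClosed ?_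
      exact (isCompact_Icc.prod isCompact_Icc).image (by fun_prop)
    have hopen : IsOpen (range H) := by
      rw [isOpen_iff_mem_nhds]
      rintro _ ⟨z, rfl⟩
      rw [← Patch.IsTr.map_nhds hH isOpen_univ (mem_univ z)]
      exact Filter.mem_map.2 (Filter.univ_mem' fun y => ⟨y, rfl⟩)
    exact IsClopen.eq_univ ⟨hclosed, hopen⟩ ⟨H 0, 0, rfl⟩
  rw [eq_univ_iff_forall]
  intro x
  have hx : x ∈ range H := by rw [hrange]; trivial
  obtain ⟨z, rfl⟩ := hx
  rw [← hred z 0 ⌊cr v z / a⌋]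
  have hfl : cr v (z - ((0 : ℤ) : ℂ) * v - (⌊cr v z / a⌋ : ℂ) * τ) = a * Int.fract (cr v z / a) := by
    have h1 : ((⌊cr v z / a⌋ : ℤ) : ℂ) = ((⌊cr v z / a⌋ : ℝ) : ℂ) := by push_cast; rfl
    rw [Int.cast_zero, zero_mul, sub_zero, cr_sub, h1, cr_mul_right, hcrτ, Int.fract]
    field_simp
  have hcl : (z - ((0 : ℤ) : ℂ) * v - (⌊cr v z / a⌋ : ℂ) * τ) ∈ closure (Strip v a) := by
    apply mem_closure_Strip hv ha
    · rw [hfl]
      exact mul_nonneg ha.le (Int.fract_nonneg _)
    · rw [hfl]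
      have := (Int.fract_lt_one (cr v z / a)).le
      nlinarith
  have h1 := image_closure_subset_closure_image hcont (s := Strip v a) ⟨_, hcl, rfl⟩
  rwa [hHf.image_eq] at h1

end torus

end TRANS

open TRANS in
/-- Module TRANS. -/
theorem transCPar.{u} (h : MaxCyl.{u}) (h' : MonoStatement.{u}) (h'' : CylPar.{u}) :
    TransCPar.{u} := by
  intro X _ _ _ _ M hpar
  by_cases hZ : {p | ¬Reg M p}.Nonempty
  · -- surfaces with zeros
    let M' : MSurf X := mkSurf M {p | ¬Reg M p} (finite_not_reg M) (fun p hp => by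
      by_contra hr
      exact hp hr)
    have hZ' : ∀ p ∈ M'.Sg, ¬Reg M'.toTransStr p := fun p hp => hp
    refine ⟨M', rfl, hZ, ?_⟩
    intro v a f hcyl
    have hv : 0 < ‖v‖ := norm_pos_iff.2 hcyl.ne
    have hv' : (‖v‖ : ℂ) ≠ 0 := by exact_mod_cast hv.ne'
    have hu : ‖v / ‖v‖‖ = 1 := by
      rw [norm_div, Complex.norm_real, norm_norm, div_self hv.ne']
    have e1 : (‖v‖ : ℂ) * (v / ‖v‖) = v := by field_simp
    have hC := cylinder_of_cyl h' hZ' hcyl
    refine ⟨fun x => ?_, fun t a' f' ht hcyl' => ?_⟩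
    · have h1 := hpar.1 (v / ‖v‖) hu ⟨_, _, _, hC⟩
      have h2 : x ∈ ⋃ C ∈ {C : Set X | ∃ c h, M.IsCylinder (v / ‖v‖) c h C}, closure C := by
        rw [h1]; trivial
      simp only [mem_iUnion] at h2
      obtain ⟨C, ⟨c, b, hCyl⟩, hx⟩ := h2
      obtain ⟨g, hg, himg⟩ := cyl_of_cylinder (M := M') h h' hZ hZ' hu hCyl
      refine ⟨c * (v / ‖v‖), c * b, g, hg, ⟨c / ‖v‖, div_pos hCyl.1.1 hv, ?_⟩, ?_⟩
      · push_cast
        ring
      · rw [himg]; exact hx
    · have hC' := cylinder_of_cyl h' hZ' hcyl'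
      have hn : ‖(t : ℂ) * v‖ = t * ‖v‖ := by
        rw [norm_mul, Complex.norm_real, Real.norm_of_nonneg ht.le]
      have ht0 : (t : ℂ) ≠ 0 := by exact_mod_cast ht.ne'
      have hd : (t : ℂ) * v / (‖(t : ℂ) * v‖ : ℝ) = v / ‖v‖ := by
        rw [hn]
        push_cast
        field_simp
      rw [hd, hn] at hC'
      obtain ⟨q, hq⟩ := hpar.2 _ hu _ _ _ _ _ _ hC hC'
      refine ⟨q⁻¹, ?_⟩
      push_cast
      have ha := hcyl.pos
      have ha' := hcyl'.pos
      rw [← hq]
      field_simp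
  · -- the torus
    have hreg : ∀ p, Reg M p := by
      intro p
      by_contra hp
      exact hZ ⟨p, hp⟩
    obtain ⟨p0⟩ := (inferInstance : Nonempty X)
    let M' : MSurf X := mkSurf M {p0} (finite_singleton p0) (fun p _ => hreg p)
    let M0 : MSurf X := mkSurf M ∅ finite_empty (fun p _ => hreg p)
    have hdense : ∀ v a f, M'.IsCyl v a f → closure (f '' Strip v a) = univ := by
      intro v a f hcyl
      obtain ⟨zb, hzb, qb, hqb, hlb⟩ := hcyl.bot
      obtain ⟨zt, hzt, qt, hqt, hlt⟩ := hcyl.top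
      have e1 : qb = p0 := hqb
      have e2 : qt = p0 := hqt
      subst e1
      rw [e2] at hlt
      refine dense_of_torus (M := M0) rfl hcyl.ne hcyl.pos ⟨hcyl.tr.1, fun z _ h => h⟩ ?_ hzb hlb
        hzt hlt
      intro z hz
      have hz' : z + v ∈ Strip v a := by
        show 0 < cr v _ ∧ cr v _ < a
        rw [cr_add, cr_self, add_zero]
        exact hz
      symm
      rw [hcyl.inj z hz _ hz']
      exact ⟨1, by push_cast; ring⟩
    have hopen : ∀ v a f, M'.IsCyl v a f → IsOpen (f '' Strip v a) := by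
      intro v a f hcyl
      rw [isOpen_iff_mem_nhds]
      rintro _ ⟨z, hz, rfl⟩
      rw [← Patch.IsTr.map_nhds hcyl.tr (isOpen_Strip v a) hz]
      exact Filter.image_mem_map ((isOpen_Strip v a).mem_nhds hz)
    refine ⟨M', rfl, ⟨p0, rfl⟩, ?_⟩
    intro v a f hcyl
    refine ⟨fun x => ⟨v, a, f, hcyl, ⟨1, one_pos, by simp⟩, ?_⟩, fun t a' f' ht hcyl' => ?_⟩
    · rw [hdense v a f hcyl]; trivial
    · have h1 : ¬Disjoint (f '' Strip v a) (f' '' Strip (t * v) a') := by
        have hd : Dense (f '' Strip v a) := by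
          rw [dense_iff_closure_eq]
          exact hdense v a f hcyl
        obtain ⟨z, hz⟩ := exists_height hcyl'.ne (a' / 2)
        have hz' : z ∈ Strip (t * v) a' := by
          have := hcyl'.pos
          constructor <;> rw [hz] <;> linarith
        obtain ⟨x, hx1, hx2⟩ := hd.inter_open_nonempty _ (hopen _ _ _ hcyl') ⟨_, z, hz', rfl⟩
        exact fun hdis => disjoint_left.mp hdis hx2 hx1
      obtain ⟨rfl, rfl, _⟩ := h'' X M' v a f t a' f' ht hcyl hcyl' h1
      exact ⟨1, by simp⟩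

end Pool.Agent.Lib.MP_755177_an
end

section
set_option autoImplicit false

/-!
# Adding a triangle to a complex
-/

open Set Filter Topology Complex Metric MeasureTheory
open scoped MatrixGroups ComplexConjugate

namespace Pool.Agent.Lib.MP_755177_an

universe u

theorem bary_cyc (V : Fin 3 → ℂ) (i : Fin 3) (z : ℂ) :
    dd V • z = lam V i z • V i + lam V (i + 1) z • V (i + 1) + lam V (i + 2) z • V (i + 2) := by
  fin_cases i
  · exact bary V z
  · rw [bary V z]
    show lam V 0 z • V 0 + lam V 1 z • V 1 + lam V 2 z • V 2 =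
      lam V 1 z • V 1 + lam V 2 z • V 2 + lam V 0 z • V 0
    ring
  · rw [bary V z]
    show lam V 0 z • V 0 + lam V 1 z • V 1 + lam V 2 z • V 2 =
      lam V 2 z • V 2 + lam V 0 z • V 0 + lam V 1 z • V 1
    ring

theorem sum_lam_cyc (V : Fin 3 → ℂ) (i : Fin 3) (z : ℂ) :
    lam V i z + lam V (i + 1) z + lam V (i + 2) z = dd V := by
  have h := sum_lam V z
  fin_cases i
  · exact h
  · show lam V 1 z + lam V 2 z + lam V 0 z = dd V
    linarith
  · show lam V 2 z + lam V 0 z + lam V 1 z = dd V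
    linarith

theorem isCompact_TC {V : Fin 3 → ℂ} (hV : 0 < dd V) : IsCompact (TC V) := by
  refine Metric.isCompact_of_isClosed_isBounded (isClosed_TC V) ?_
  rw [isBounded_iff_forall_norm_le]
  refine ⟨‖V 0‖ + ‖V 1‖ + ‖V 2‖, fun z hz => ?_⟩
  have h1 := bary V z
  have h2 : ‖dd V • z‖ ≤ dd V * (‖V 0‖ + ‖V 1‖ + ‖V 2‖) := by
    rw [h1]
    refine (norm_add₃_le).trans ?_
    rw [norm_smul, norm_smul, norm_smul, Real.norm_of_nonneg (hz 0), Real.norm_of_nonneg (hz 1),
      Real.norm_of_nonneg (hz 2), mul_add, mul_add]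
    have := lam_le_of_mem_TC hz
    gcongr
    · exact this 0
    · exact this 1
    · exact this 2
  rw [norm_smul, Real.norm_of_nonneg hV.le] at h2
  exact le_of_mul_le_mul_left h2 hV

theorem TC_subset_closure_TI {V : Fin 3 → ℂ} (hV : 0 < dd V) : TC V ⊆ closure (TI V) := by
  intro z hz
  set G : ℂ := (1 / 3 : ℝ) • (V 0 + V 1 + V 2) with hG
  have hGl : ∀ i, lam V i G = dd V / 3 := by
    have e : G = (2 / 3 : ℝ) • ((1 / 2 : ℝ) • V 0 + (1 / 2 : ℝ) • V 1) + (1 / 3 : ℝ) • V 2 := by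
      rw [hG]
      module
    intro i
    rw [e, lam_comb V i _ _ (by norm_num), lam_comb V i _ _ (by norm_num)]
    fin_cases i
    · show 2 / 3 * (1 / 2 * lam V 0 (V 0) + 1 / 2 * lam V 0 (V 1)) + 1 / 3 * lam V 0 (V 2) = _
      rw [lam_self, lam_ne V (show (0 : Fin 3) ≠ 1 by decide),
        lam_ne V (show (0 : Fin 3) ≠ 2 by decide)]
      ring
    · show 2 / 3 * (1 / 2 * lam V 1 (V 0) + 1 / 2 * lam V 1 (V 1)) + 1 / 3 * lam V 1 (V 2) = _
      rw [lam_self, lam_ne V (show (1 : Fin 3) ≠ 0 by decide),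
        lam_ne V (show (1 : Fin 3) ≠ 2 by decide)]
      ring
    · show 2 / 3 * (1 / 2 * lam V 2 (V 0) + 1 / 2 * lam V 2 (V 1)) + 1 / 3 * lam V 2 (V 2) = _
      rw [lam_self, lam_ne V (show (2 : Fin 3) ≠ 0 by decide),
        lam_ne V (show (2 : Fin 3) ≠ 1 by decide)]
      ring
  have hT : Tendsto (fun t : ℝ => (1 - t) • z + t • G) (𝓝[>] 0) (𝓝 z) := by
    have h1 : Tendsto (fun t : ℝ => (1 - t) • z + t • G) (𝓝 0) (𝓝 ((1 - 0 : ℝ) • z + (0 : ℝ) • G)) :=
      Continuous.tendsto (by fun_prop) 0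
    have h2 : (1 - 0 : ℝ) • z + (0 : ℝ) • G = z := by simp
    rw [h2] at h1
    exact h1.mono_left nhdsWithin_le_nhds
  refine mem_closure_of_tendsto hT ?_
  filter_upwards [Ioo_mem_nhdsGT (zero_lt_one' ℝ)] with t ht i
  rw [lam_comb V i z G (by ring), hGl]
  have := hz i
  have h1 : 0 ≤ (1 - t) * lam V i z := mul_nonneg (by linarith [ht.2]) this
  have h2 : 0 < t * (dd V / 3) := mul_pos ht.1 (by positivity)
  linarith

namespace MSurf

variable {X : Type u} [TopologicalSpace X] {M : MSurf X}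

/-- The triangle seen from one of its points. -/
theorem Tri.base [T2Space X] {f : ℂ → X} {V : Fin 3 → ℂ} (h : M.Tri f V) {y z : ℂ} (hy : y ∈ TT V)
    (hz : z ∈ TT V) : z - y ∈ M.Dom (f y) ∧ M.exp (f y) (z - y) = f z := by
  have h1 := h.tr.comp_add y
  have h2 := subset_Dom h1 (p := f y) (fun u hu w hw => ?_) (by simp)
  · have h3 : z - y ∈ {u : ℂ | u + y ∈ TT V} := by
      show z - y + y ∈ TT V
      rwa [sub_add_cancel]
    refine ⟨h2.1 h3, ?_⟩
    rw [h2.2 h3]
    show f (z - y + y) = f z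
    rw [sub_add_cancel]
  · have h3 : w + y ∈ segment ℝ y (u + y) := by
      have := (mem_segment_translate ℝ y).mpr hw
      rwa [add_zero, add_comm y w, add_comm y u] at this
    exact (convex_TT V).segment_subset hy hu h3

/-- The vertices are visible marked points. -/
theorem Tri.vis [T2Space X] {f : ℂ → X} {V : Fin 3 → ℂ} (h : M.Tri f V) {y : ℂ} (hy : y ∈ TT V)
    (j : Fin 3) : M.Vis (f y) (V j - y) := by
  have hv := vertex_mem_TC h.pos j
  have h1 : ∀ t : ℝ, 0 ≤ t → t < 1 → t • (V j - y) ∈ M.Dom (f y) ∧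
      M.exp (f y) (t • (V j - y)) = f (y + t • (V j - y)) := by
    intro t h0 h1
    have := h.base hy (toward_mem hy hv h0 h1)
    rwa [add_sub_cancel_left] at this
  refine ⟨fun t h0 h2 => (h1 t h0 h2).1, fun hD => ?_⟩
  obtain ⟨q, hq, hl⟩ := h.lim j
  have hev : ∀ᶠ t : ℝ in 𝓝[<] 1, 0 ≤ t ∧ t < 1 := by
    filter_upwards [Ioo_mem_nhdsLT (zero_lt_one' ℝ)] with t ht
    exact ⟨ht.1.le, ht.2⟩
  have hT1 : Tendsto (fun t : ℝ => t • (V j - y)) (𝓝[<] 1) (𝓝 (V j - y)) := by
    have h3 : Tendsto (fun t : ℝ => t • (V j - y)) (𝓝 1) (𝓝 ((1 : ℝ) • (V j - y))) :=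
      Continuous.tendsto (by fun_prop) 1
    rw [one_smul] at h3
    exact h3.mono_left nhdsWithin_le_nhds
  have hT2 : Tendsto (fun t : ℝ => y + t • (V j - y)) (𝓝[<] 1) (𝓝[TT V] (V j)) := by
    rw [tendsto_nhdsWithin_iff]
    constructor
    · have h3 := hT1.const_add y
      rwa [add_sub_cancel] at h3
    · filter_upwards [hev] with t ht
      exact toward_mem hy hv ht.1 ht.2
  have hc : Tendsto (M.exp (f y)) (𝓝 (V j - y)) (𝓝 (M.exp (f y) (V j - y))) :=
    (isTr_exp (f y)).continuousOn.continuousAt ((isOpen_Dom _).mem_nhds hD)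
  have h3 : Tendsto (fun t : ℝ => f (y + t • (V j - y))) (𝓝[<] 1)
      (𝓝 (M.exp (f y) (V j - y))) := by
    refine (hc.comp hT1).congr' ?_
    filter_upwards [hev] with t ht
    exact (h1 t ht.1 ht.2).2
  have h4 := tendsto_nhds_unique h3 (hl.comp hT2)
  exact exp_notMem hD (h4 ▸ hq)

/-- Closures of images of closed parts of the triangle. -/
theorem Tri.closure_image [T2Space X] {f : ℂ → X} {V : Fin 3 → ℂ} (h : M.Tri f V) {K : Set ℂ}
    (hK : IsClosed K) : closure (f '' (TT V ∩ K)) ⊆ f '' (TT V ∩ K) ∪ M.Sg := by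
  intro x hx
  rw [mem_closure_iff_ultrafilter] at hx
  obtain ⟨u, hu, hux⟩ := hx
  set v := Ultrafilter.ofComapInfPrincipal hu with hv
  have hv1 : TT V ∩ K ∈ v := Ultrafilter.ofComapInfPrincipal_mem hu
  have hv2 : v.map f = u := Ultrafilter.ofComapInfPrincipal_eq_of_map hu
  have hv3 : (v : Filter ℂ) ≤ 𝓟 (TC V) := by
    rw [le_principal_iff]
    exact mem_of_superset hv1 (inter_subset_left.trans (TT_subset_TC V))
  obtain ⟨z, hz, hvz⟩ := (isCompact_TC h.pos).ultrafilter_le_nhds v hv3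
  have hzK : z ∈ K := by
    have h1 : z ∈ closure K := by
      rw [mem_closure_iff_ultrafilter]
      exact ⟨v, mem_of_superset hv1 inter_subset_right, hvz⟩
    rwa [hK.closure_eq] at h1
  have hvT : (v : Filter ℂ) ≤ 𝓝[TT V] z := by
    refine le_inf hvz ?_
    rw [le_principal_iff]
    exact mem_of_superset hv1 inter_subset_left
  have hux' : Tendsto f (v : Filter ℂ) (𝓝 x) := by
    have h1 : ((v.map f : Ultrafilter X) : Filter X) ≤ 𝓝 x := by
      rw [hv2]
      exact hux
    exact h1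
  rcases mem_TT_or h.pos hz with hT | ⟨j, rfl⟩
  · left
    refine ⟨z, ⟨hT, hzK⟩, ?_⟩
    exact tendsto_nhds_unique ((h.tr.continuousOn z hT).tendsto.mono_left hvT) hux'
  · right
    obtain ⟨q, hq, hl⟩ := h.lim j
    have h1 := tendsto_nhds_unique (hl.mono_left hvT) hux'
    rwa [← h1]

theorem Tri.isOpen_image [T2Space X] {f : ℂ → X} {V : Fin 3 → ℂ} (h : M.Tri f V) :
    IsOpen (f '' TI V) := by
  rw [isOpen_iff_mem_nhds]
  rintro _ ⟨z, hz, rfl⟩
  have h1 := h.tr.mono (TI_subset_TT V)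
  rw [← Patch.IsTr.map_nhds h1 (isOpen_TI V) hz]
  exact image_mem_map ((isOpen_TI V).mem_nhds hz)

/-- Local injectivity of the exponential map. -/
theorem exp_inj_near [T2Space X] {p : X} {y : ℂ} (hy : y ∈ M.Dom p) :
    ∃ ρ > 0, ball y ρ ⊆ M.Dom p ∧ InjOn (M.exp p) (ball y ρ) := by
  obtain ⟨a, ha, ζ, h1, h2, h3, h4⟩ := M.regular (M.exp p y) (exp_notMem hy)
  obtain ⟨c, hc⟩ := (isTr_exp p).1.2 y hy a ha (h2 h1)
  rw [(isOpen_Dom p).nhdsWithin_eq hy] at hc
  obtain ⟨ρ, hρ, hb⟩ := Metric.eventually_nhds_iff_ball.mp (hc.and ((isOpen_Dom p).mem_nhds hy))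
  refine ⟨ρ, hρ, fun z hz => (hb z hz).2, fun z hz w hw he => ?_⟩
  have e1 := (hb z hz).1
  have e2 := (hb w hw).1
  rw [he, e2] at e1
  exact (add_right_cancel e1).symm

/-- An edge survives if the new part of the graph is far away. -/
theorem EdgeAt.persist [T2Space X] {Z N : Set X} {p : X} {b : ℂ} (h : M.EdgeAt Z p b)
    (hp : p ∉ M.Sg) (hN : p ∉ closure N) : M.EdgeAt (Z ∪ N) p b := by
  obtain ⟨t1, t2, h1, h2, h3, h4, h5, h6, r, hr, h7⟩ := h
  have h0 := zero_mem_Dom hp
  have hc : Tendsto (M.exp p) (𝓝 0) (𝓝 p) := by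
    have := (isTr_exp p).continuousOn.continuousAt ((isOpen_Dom p).mem_nhds h0)
    rwa [ContinuousAt, exp_zero hp] at this
  have hev : ∀ᶠ z in 𝓝 (0 : ℂ), M.exp p z ∉ closure N :=
    hc.eventually (isClosed_closure.isOpen_compl.mem_nhds hN)
  obtain ⟨ρ, hρ, hb⟩ := Metric.eventually_nhds_iff_ball.mp hev
  refine ⟨t1, t2, h1, h2, h3, h4, h5, fun t ht1 ht2 => Or.inl (h6 t ht1 ht2), min r ρ,
    by positivity, fun z hz hZ => ?_⟩
  rcases hZ with hZ | hZ
  · exact h7 z (ball_subset_ball (min_le_left _ _) hz) hZ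
  · exact absurd (subset_closure hZ) (hb z (ball_subset_ball (min_le_right _ _) hz))

theorem zero_mem_TT_newV {t1 t2 : ℝ} (h1 : 0 < t1) (h2 : 0 < t2) (h : t1 + t2 = 1) {b z0 : ℂ}
    (hD : 0 < cr b z0) : (0 : ℂ) ∈ TT (newV t1 t2 b z0) := by
  set V := newV t1 t2 b z0 with hV
  have hdd : dd V = cr b z0 := dd_newV h b z0
  intro i
  fin_cases i
  · show 0 ≤ cr (V 1 - 0) (V 2 - 0) ∧ cr (V 1 - 0) (V 2 - 0) < _
    rw [sub_zero, sub_zero, hdd]
    show 0 ≤ cr (t2 • b) z0 ∧ cr (t2 • b) z0 < _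
    rw [cr_smul_left]
    constructor
    · positivity
    · nlinarith
  · show 0 ≤ cr (V 2 - 0) (V 0 - 0) ∧ cr (V 2 - 0) (V 0 - 0) < _
    rw [sub_zero, sub_zero, hdd]
    show 0 ≤ cr z0 (-(t1 • b)) ∧ cr z0 (-(t1 • b)) < _
    rw [cr_neg_right, cr_smul_right, cr_swap z0 b]
    constructor
    · have := mul_pos h1 hD
      linarith
    · nlinarith
  · show 0 ≤ lam V 2 0 ∧ lam V 2 0 < _
    rw [hV, lam_two_newV h, cr_zero_right, ← hV, hdd]
    exact ⟨le_rfl, hD⟩

/-- The new edge. -/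
theorem Tri.newEdge [T2Space X] {p : X} {V : Fin 3 → ℂ} (h : M.Tri (M.exp p) V)
    (hD : TT V ⊆ M.Dom p) {Z : Set X} (hZc : IsClosed Z) {y : ℂ} (hy : y ∈ TT V)
    (hyZ : M.exp p y ∉ Z) {i : Fin 3} (hi : lam V i y = 0) :
    M.EdgeAt (Z ∪ M.exp p '' {z | z ∈ TT V ∧ z ∉ TI V}) (M.exp p y) (V (i + 2) - V (i + 1)) := by
  have hpos := h.pos
  have hsum := sum_lam_cyc V i y
  rw [hi, zero_add] at hsum
  set t1 := lam V (i + 2) y / dd V with ht1
  set t2 := lam V (i + 1) y / dd V with ht2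
  have h1 : 0 < t1 := div_pos (by linarith [(hy (i + 1)).2]) hpos
  have h2 : 0 < t2 := div_pos (by linarith [(hy (i + 2)).2]) hpos
  have h12 : t1 + t2 = 1 := by
    rw [ht1, ht2, ← add_div, add_comm, hsum, div_self hpos.ne']
  have hyy : y = t2 • V (i + 1) + t1 • V (i + 2) := by
    have e1 := bary_cyc V i y
    rw [hi, zero_smul, zero_add] at e1
    have e2 : y = (dd V)⁻¹ • (dd V • y) := by rw [smul_smul, inv_mul_cancel₀ hpos.ne', one_smul]
    rw [e1, smul_add, smul_smul, smul_smul] at e2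
    rw [ht1, ht2, div_eq_inv_mul, div_eq_inv_mul]
    exact e2
  set b := V (i + 2) - V (i + 1) with hb
  have h2b : t2 • b = V (i + 2) - y := by
    have e : t1 = 1 - t2 := by linarith
    rw [hyy, hb, e]
    module
  have h1b : -(t1 • b) = V (i + 1) - y := by
    have e : t2 = 1 - t1 := by linarith
    rw [hyy, hb, e]
    module
  have hi1 : i ≠ i + 1 := by fin_cases i <;> decide
  have hi2 : i ≠ i + 2 := by fin_cases i <;> decide
  have hi12 : i + 1 ≠ i + 2 := by fin_cases i <;> decide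
  have hline : ∀ t : ℝ, y + t • b = (t2 - t) • V (i + 1) + (t1 + t) • V (i + 2) := by
    intro t
    rw [hyy, hb]
    module
  have hlam0 : ∀ t : ℝ, lam V i (y + t • b) = 0 := by
    intro t
    rw [hline, lam_comb V i _ _ (by linarith), lam_ne V hi1, lam_ne V hi2]
    ring
  have hlam1 : ∀ t : ℝ, lam V (i + 1) (y + t • b) = (t2 - t) * dd V := by
    intro t
    rw [hline, lam_comb V _ _ _ (by linarith), lam_self, lam_ne V hi12]
    ring
  have hlam2 : ∀ t : ℝ, lam V (i + 2) (y + t • b) = (t1 + t) * dd V := by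
    intro t
    rw [hline, lam_comb V _ _ _ (by linarith), lam_self, lam_ne V hi12.symm]
    ring
  have hall : ∀ P : Fin 3 → Prop, P i → P (i + 1) → P (i + 2) → ∀ j, P j := by
    intro P a1 a2 a3 j
    fin_cases i <;> fin_cases j <;> assumption
  have hmem : ∀ t : ℝ, -t1 < t → t < t2 → y + t • b ∈ TT V ∧ y + t • b ∉ TI V := by
    intro t e1 e2
    refine ⟨hall _ ?_ ?_ ?_, fun hc => ?_⟩
    · rw [hlam0]
      exact ⟨le_rfl, hpos⟩
    · rw [hlam1]
      exact ⟨mul_nonneg (by linarith) hpos.le, by nlinarith⟩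
    · rw [hlam2]
      exact ⟨mul_nonneg (by linarith) hpos.le, by nlinarith⟩
    · have := hc i
      rw [hlam0] at this
      exact lt_irrefl _ this
  have hyD := hD hy
  have hpS : M.exp p y ∉ M.Sg := exp_notMem hyD
  refine ⟨t1, t2, h1, h2, h12, ?_, ?_, ?_, ?_⟩
  · rw [h2b]
    exact h.vis hy _
  · rw [h1b]
    exact h.vis hy _
  · intro t e1 e2
    right
    have e3 := hmem t e1 e2
    refine ⟨y + t • b, e3, ?_⟩
    have e4 := (h.base hy e3.1).2
    rw [add_sub_cancel_left] at e4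
    exact e4.symm
  · -- local structure
    obtain ⟨ρ1, hρ1, hball, hinj⟩ := exp_inj_near hyD
    obtain ⟨ρ2, hρ2, hbase⟩ := exp_base_near hyD
    have hpos1 : ∀ᶠ z in 𝓝 y, 0 < lam V (i + 1) z ∧ 0 < lam V (i + 2) z := by
      refine ((continuous_lam V (i + 1)).tendsto y |>.eventually (lt_mem_nhds ?_)).and
        ((continuous_lam V (i + 2)).tendsto y |>.eventually (lt_mem_nhds ?_))
      · have : lam V (i + 1) y = t2 * dd V := by rw [ht2, div_mul_cancel₀ _ hpos.ne']
        rw [this]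
        positivity
      · have : lam V (i + 2) y = t1 * dd V := by rw [ht1, div_mul_cancel₀ _ hpos.ne']
        rw [this]
        positivity
    obtain ⟨ρ3, hρ3, hlp⟩ := Metric.eventually_nhds_iff_ball.mp hpos1
    set ρ := min ρ1 ρ3 with hρ
    have hρ0 : 0 < ρ := by positivity
    have hfar : M.exp p y ∉ closure (M.exp p '' (TT V ∩ {w | ρ ≤ ‖w - y‖})) := by
      intro hc
      rcases h.closure_image (isClosed_le continuous_const (by fun_prop)) hc with hc | hc
      · obtain ⟨w, ⟨hw1, hw2⟩, hw3⟩ := hc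
        have hw4 := h.injOn hw1 hy hw3
        have hw5 : ρ ≤ ‖w - y‖ := hw2
        rw [hw4, sub_self, norm_zero] at hw5
        linarith
      · exact hpS hc
    have h0 := zero_mem_Dom hpS
    have hc : Tendsto (M.exp (M.exp p y)) (𝓝 0) (𝓝 (M.exp p y)) := by
      have := (isTr_exp (M.exp p y)).continuousOn.continuousAt ((isOpen_Dom _).mem_nhds h0)
      rwa [ContinuousAt, exp_zero hpS] at this
    have hev : ∀ᶠ z in 𝓝 (0 : ℂ), M.exp (M.exp p y) z ∉ Z ∧
        M.exp (M.exp p y) z ∉ closure (M.exp p '' (TT V ∩ {w | ρ ≤ ‖w - y‖})) ∧ ‖z‖ < ρ ∧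
        ‖z‖ < ρ2 := by
      refine (hc.eventually (hZc.isOpen_compl.mem_nhds hyZ)).and
        ((hc.eventually (isClosed_closure.isOpen_compl.mem_nhds hfar)).and ?_)
      have h3 : Tendsto (fun z : ℂ => ‖z‖) (𝓝 0) (𝓝 ‖(0 : ℂ)‖) := continuous_norm.tendsto 0
      rw [norm_zero] at h3
      exact (h3.eventually (gt_mem_nhds hρ0)).and (h3.eventually (gt_mem_nhds hρ2))
    obtain ⟨r, hr, hrb⟩ := Metric.eventually_nhds_iff_ball.mp hev
    refine ⟨r, hr, fun z hz hzZ => ?_⟩
    obtain ⟨a1, a2, a3, a4⟩ := hrb z hz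
    rcases hzZ with hzZ | ⟨w, ⟨hw1, hw2⟩, hw3⟩
    · exact absurd hzZ a1
    · have hwρ : ‖w - y‖ < ρ := by
        by_contra hcon
        exact a2 (subset_closure ⟨w, ⟨hw1, not_lt.mp hcon⟩, hw3⟩)
      have e1 := (hbase z a4).2.2
      have e2 : M.exp p w = M.exp p (y + z) := by rw [hw3, e1]
      have e3 : w = y + z := by
        refine hinj ?_ ?_ e2
        · rw [mem_ball_iff_norm]
          exact hwρ.trans_le (min_le_left _ _)
        · rw [mem_ball_iff_norm, add_sub_cancel_left]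
          exact a3.trans_le (min_le_left _ _)
      have e4 := hlp w (by
        rw [mem_ball_iff_norm]
        exact hwρ.trans_le (min_le_right _ _))
      have e5 : lam V i w = 0 := by
        by_contra hne
        exact hw2 (hall _ (lt_of_le_of_ne (hw1 i).1 (Ne.symm hne)) e4.1 e4.2)
      rw [e3, lam_add, hi, zero_add] at e5
      have e6 : V (i + 1) - V (i + 2) = -b := by rw [hb]; ring
      rw [e6, cr_neg_right, cr_swap, neg_neg] at e5
      exact e5

end MSurf

open MSurf in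
theorem addTri : AddTri.{u} := by
  intro X _ _ _ M g ε Z n f V p b t1 t2 z0 hG hC hp he hside ht1 ht2 ht12 hcr hTri hTD hTI hdich
    g' ε' hold hnew
  set W := newV t1 t2 b z0 with hW
  set Q : Set X := M.exp p '' {z | z ∈ TT W ∧ z ∉ TI W} with hQ
  have hpos := hTri.pos
  have h0T : (0 : ℂ) ∈ TT W := zero_mem_TT_newV ht1 ht2 ht12 hcr
  -- the open triangle avoids `Z`
  have hTZ : ∀ z ∈ TI W, M.exp p z ∉ Z := by
    intro z hz
    have := (hTI hz).2.2 1 one_pos le_rfl
    rwa [one_smul] at this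
  -- disjointness from the old triangles
  have hdis : ∀ i, Disjoint (M.exp p '' TI W) (f i '' TI (V i)) := by
    intro i
    rw [Set.disjoint_iff_inter_eq_empty]
    by_contra hne
    rw [← Ne, ← Set.nonempty_iff_ne_empty] at hne
    have hS : IsPreconnected (M.exp p '' TI W) :=
      (convex_TI W).isPreconnected.image _
        ((isTr_exp p).continuousOn.mono ((TI_subset_TT W).trans hTD))
    have hsub : M.exp p '' TI W ⊆ f i '' TI (V i) := by
      refine hS.subset_of_closure_inter_subset (hC.tri i).isOpen_image hne ?_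
      rintro x ⟨hx1, hx2⟩
      obtain ⟨z, hz, rfl⟩ := hx2
      have hxZ := hTZ z hz
      have hxS : M.exp p z ∉ M.Sg := fun h => hxZ (hG.sub h)
      have h3 : closure (f i '' TI (V i)) ⊆ closure (f i '' (TT (V i) ∩ univ)) := by
        refine closure_mono (image_mono ?_)
        rw [inter_univ]
        exact TI_subset_TT _
      rcases (hC.tri i).closure_image isClosed_univ (h3 hx1) with h4 | h4
      · obtain ⟨w, ⟨hw, -⟩, hw2⟩ := h4
        by_cases hwT : w ∈ TI (V i)
        · exact ⟨w, hwT, hw2⟩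
        · exact absurd (hw2 ▸ hC.bd i w hw hwT) hxZ
      · exact absurd h4 hxS
    obtain ⟨r, hr, hside'⟩ := hside
    have h0c : (0 : ℂ) ∈ closure (TI W) := TC_subset_closure_TI hpos (TT_subset_TC W h0T)
    obtain ⟨z, hz1, hz2⟩ := mem_closure_iff_nhds.mp h0c (ball 0 r) (ball_mem_nhds 0 hr)
    have hcz : 0 < cr b z := by
      have := hz2 2
      rwa [hW, lam_two_newV ht12] at this
    obtain ⟨y, hy, hyz⟩ := hsub ⟨z, hz2, rfl⟩
    exact hside' z hz1 hcz i y hy hyz
  -- the bad part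
  set N : Set X := M.exp p '' (TT W ∩ {z | ∃ i, lam W i z = 0 ∧
    ∀ z ∈ TT W, lam W i z = 0 → M.exp p z ∉ Z}) with hN
  have hKcl : IsClosed {z : ℂ | ∃ i, lam W i z = 0 ∧
      ∀ z ∈ TT W, lam W i z = 0 → M.exp p z ∉ Z} := by
    have : {z : ℂ | ∃ i, lam W i z = 0 ∧ ∀ z ∈ TT W, lam W i z = 0 → M.exp p z ∉ Z} =
        ⋃ i, {z : ℂ | lam W i z = 0 ∧ ∀ z ∈ TT W, lam W i z = 0 → M.exp p z ∉ Z} := by
      ext z
      simp
    rw [this]
    refine isClosed_iUnion_of_finite fun i => ?_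
    by_cases hb : ∀ z ∈ TT W, lam W i z = 0 → M.exp p z ∉ Z
    · have : {z : ℂ | lam W i z = 0 ∧ ∀ z ∈ TT W, lam W i z = 0 → M.exp p z ∉ Z} =
          {z : ℂ | lam W i z = 0} := by
        ext z
        simp only [mem_ofPred_eq, and_iff_left_iff_imp]
        exact fun _ => hb
      rw [this]
      exact isClosed_eq (continuous_lam W i) continuous_const
    · have : {z : ℂ | lam W i z = 0 ∧ ∀ z ∈ TT W, lam W i z = 0 → M.exp p z ∉ Z} = ∅ := by
        ext z
        simp only [mem_ofPred_eq, mem_empty_iff_false, iff_false, not_and]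
        exact fun _ => hb
      rw [this]
      exact isClosed_empty
  have hNcl : closure N ⊆ N ∪ M.Sg := hTri.closure_image hKcl
  have hZQ : Z ∪ Q = Z ∪ N := by
    apply Subset.antisymm
    · rintro x (hx | ⟨z, ⟨hz1, hz2⟩, rfl⟩)
      · exact Or.inl hx
      · by_cases hxZ : M.exp p z ∈ Z
        · exact Or.inl hxZ
        · right
          have h1 : ∃ i, lam W i z = 0 := by
            by_contra hcon
            push Not at hcon
            exact hz2 fun i => lt_of_le_of_ne (hz1 i).1 (Ne.symm (hcon i))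
          obtain ⟨i, hi⟩ := h1
          refine ⟨z, ⟨hz1, i, hi, ?_⟩, rfl⟩
          rcases hdich i with h2 | h2
          · exact absurd (h2 z hz1 hi) hxZ
          · exact h2
    · rintro x (hx | ⟨z, ⟨hz1, i, hi, -⟩, rfl⟩)
      · exact Or.inl hx
      · right
        exact ⟨z, ⟨hz1, fun h => by have := h i; rw [hi] at this; exact lt_irrefl _ this⟩, rfl⟩
  have hNZ : ∀ x ∈ N, x ∉ Z := by
    rintro _ ⟨z, ⟨hz1, i, hi, hb⟩, rfl⟩
    exact hb z hz1 hi
  have hZ'cl : IsClosed (Z ∪ Q) := by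
    rw [hZQ]
    refine isClosed_of_closure_subset ?_
    rw [closure_union, hG.closed.closure_eq]
    rintro x (hx | hx)
    · exact Or.inl hx
    · rcases hNcl hx with h1 | h1
      · exact Or.inr h1
      · exact Or.inl (hG.sub h1)
  refine ⟨Z ∪ Q, Fin.cons (M.exp p) f, Fin.cons W V, subset_union_left, ⟨hZ'cl,
    hG.sub.trans subset_union_left, ?_⟩, ?_, ?_, ?_, ?_, ?_⟩
  · -- edges
    intro q hq hqS
    by_cases hqZ : q ∈ Z
    · obtain ⟨c, hc, hec⟩ := hG.edge q hqZ hqS
      refine ⟨c, hold c hc, ?_⟩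
      rw [hZQ]
      refine hec.persist hqS fun h1 => ?_
      rcases hNcl h1 with h2 | h2
      · exact hNZ q h2 hqZ
      · exact hqS h2
    · rcases hq with hq | ⟨y, ⟨hy1, hy2⟩, rfl⟩
      · exact absurd hq hqZ
      · have h1 : ∃ i, lam W i y = 0 := by
          by_contra hcon
          push Not at hcon
          exact hy2 fun i => lt_of_le_of_ne (hy1 i).1 (Ne.symm (hcon i))
        obtain ⟨i, hi⟩ := h1
        refine ⟨W (i + 2) - W (i + 1), ?_, hTri.newEdge hTD hG.closed hy1 hqZ hi⟩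
        have h2 := hnew (i + 1)
        have h3 : i + 1 + 1 = i + 2 := by fin_cases i <;> rfl
        rwa [h3] at h2
  · intro i
    refine Fin.cases ?_ (fun i => ?_) i
    · exact hTri
    · exact hC.tri i
  · intro i
    refine Fin.cases ?_ (fun i => ?_) i
    · intro z hz hzZ
      have hz' : z ∈ TI W := hz
      rcases hzZ with h1 | ⟨w, ⟨hw1, hw2⟩, hw3⟩
      · exact hTZ z hz' h1
      · have h2 := hTri.injOn hw1 (TI_subset_TT W hz') hw3
        exact hw2 (h2 ▸ hz')
    · intro z hz hzZ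
      have hz' : z ∈ TI (V i) := hz
      rcases hzZ with h1 | ⟨w, ⟨hw1, hw2⟩, hw3⟩
      · exact hC.int i z hz' h1
      · have hw3' : M.exp p w = f i z := hw3
        have hU : M.exp p ⁻¹' (f i '' TI (V i)) ∈ 𝓝 w := by
          have h3 := (isTr_exp (M := M) p).continuousOn.continuousAt
            ((isOpen_Dom (M := M) p).mem_nhds (hTD hw1))
          refine h3.preimage_mem_nhds ((hC.tri i).isOpen_image.mem_nhds ?_)
          rw [hw3']
          exact ⟨z, hz', rfl⟩
        have hwc : w ∈ closure (TI W) := TC_subset_closure_TI hpos (TT_subset_TC W hw1)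
        obtain ⟨y, hy1, hy2⟩ := mem_closure_iff_nhds.mp hwc _ hU
        exact disjoint_left.mp (hdis i) ⟨y, hy2, rfl⟩ hy1
  · intro i
    refine Fin.cases ?_ (fun i => ?_) i
    · intro z hz hzT
      exact Or.inr ⟨z, ⟨hz, hzT⟩, rfl⟩
    · intro z hz hzT
      exact Or.inl (hC.bd i z hz hzT)
  · intro i
    refine Fin.cases ?_ (fun i => ?_) i
    · exact hnew
    · exact fun j => hold _ (hC.short i j)
  · intro i j
    refine Fin.cases ?_ (fun i => ?_) i <;> refine Fin.cases ?_ (fun j => ?_) j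
    · intro h
      exact absurd rfl h
    · intro _
      exact hdis j
    · intro _
      exact (hdis i).symm
    · intro h
      exact hC.disj i j fun h' => h (by rw [h'])

end Pool.Agent.Lib.MP_755177_an
end

section
set_option autoImplicit false

/-!
# Module SHALF: half ellipses of large area are not contained in the domain of the exponential map
-/

open Set Filter Topology Complex Metric MeasureTheory
open scoped MatrixGroups ComplexConjugate

namespace Pool.Agent.Lib.MP_755177_an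

namespace Half

/-- The linear action preserves the area. -/
theorem volume_preimage_act (g : SL(2, ℝ)) (E : Set ℂ) :
    volume (act g ⁻¹' E) = volume E := by
  have hdet : LinearMap.det (actL g) = 1 := by
    rw [← LinearMap.det_toMatrix Complex.basisOneI, Matrix.det_fin_two]
    simp only [LinearMap.toMatrix_apply, Complex.coe_basisOneI, Complex.coe_basisOneI_repr,
      actL_apply, act]
    have h := g.det_coe
    rw [Matrix.det_fin_two] at h
    simp
    linarith
  have h1 := Measure.addHaar_preimage_linearMap (volume : Measure ℂ) (f := actL g)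
    (by rw [hdet]; exact one_ne_zero) E
  rw [hdet, inv_one, abs_one, ENNReal.ofReal_one, one_mul] at h1
  exact h1

theorem cr_div {v : ℂ} (hv : v ≠ 0) (z : ℂ) : 0 < (z / v).im ↔ 0 < cr v z := by
  have h1 : cr v z = ‖v‖ ^ 2 * (z / v).im := by
    have h2 : (‖v‖ : ℂ) ^ 2 = conj v * v := by rw [mul_comm, Complex.mul_conj, Complex.normSq_eq_norm_sq]; push_cast; rfl
    have h3 : conj v * z = ((‖v‖ ^ 2 : ℝ) : ℂ) * (z / v) := by
      push_cast
      rw [h2]
      field_simp
    rw [cr, h3, Complex.im_ofReal_mul]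
  rw [h1]
  have : 0 < ‖v‖ ^ 2 := by positivity
  constructor
  · intro h
    positivity
  · intro h
    exact (mul_pos_iff_of_pos_left this).mp h

end Half

theorem halfEllipse.{u} (h : AreaBound.{u}) (h' : VolumeHalfDisc) : HalfEllipse.{u} := by
  intro X _ _ _ M
  obtain ⟨A, hA, hb⟩ := h X M
  refine ⟨A + 1, by linarith, fun g hg p b hb0 => ?_⟩
  by_contra hcon
  push Not at hcon
  set E : Set ℂ := {z | 0 < cr b z ∧ ‖act g z‖ < A + 1} with hE
  have hED : E ⊆ M.Dom p := fun z hz => hcon z hz.1 hz.2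
  have hEo : IsOpen E := (isOpen_lt continuous_const (continuous_cr b)).inter (isOpen_normAct_lt g _)
  have hEc : Convex ℝ E := (convex_halfSpace_gt (isLinear_cr b) 0).inter (convex_normAct_lt g _)
  have hf : M.IsTr (M.exp p) E := (MSurf.isTr_exp p).mono hED
  have hinj : InjOn (M.exp p) E := by
    intro z1 hz1 z2 hz2 he
    by_contra hne
    have h1 : M.Closed (z1 - z2) := by
      refine ⟨sub_ne_zero.mpr hne, fun z => M.exp p (z + z2), (hf.comp_add z2).mono ?_, ?_⟩
      · intro z hz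
        show z + z2 ∈ E
        have h4 : z + z2 ∈ segment ℝ z2 z1 := by
          have := (mem_segment_translate ℝ z2).mpr hz
          rwa [add_zero, add_sub_cancel, add_comm z2 z] at this
        exact hEc.segment_subset hz2 hz1 h4
      · simp [he]
    have h2 := hg _ h1
    rw [act_sub'] at h2
    have h3 := norm_sub_le (act g z1) (act g z2)
    have h4 : ‖act g z1‖ < A + 1 := hz1.2
    have h5 : ‖act g z2‖ < A + 1 := hz2.2
    linarith
  have hvol := hb E (M.exp p) hEo hf hinj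
  have hgb : act g b ≠ 0 := act_ne_zero hb0
  have h1 := h' (act g b) (A + 1) hgb (by linarith)
  set H : Set ℂ := {v : ℂ | ‖v‖ < A + 1 ∧ 0 < (v / act g b).im} with hH
  have hEH : E = act g ⁻¹' H := by
    ext z
    simp only [hE, hH, mem_preimage, mem_ofPred_eq]
    rw [Half.cr_div hgb, cr_act, and_comm]
  rw [hEH, Half.volume_preimage_act g H, h1, Complex.volume_ball] at hvol
  have h2 : ENNReal.ofReal (A + 1) ^ 2 * (NNReal.pi : ENNReal) / 2 =
      ENNReal.ofReal ((A + 1) ^ 2 * Real.pi / 2) := by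
    rw [ENNReal.ofReal_div_of_pos (by norm_num), ENNReal.ofReal_mul (by positivity),
      ENNReal.ofReal_pow (by linarith), ENNReal.ofReal_ofNat]
    congr 2
    rw [ENNReal.ofReal, Real.toNNReal_of_nonneg Real.pi_pos.le]
    rfl
  rw [h2, ENNReal.ofReal_le_ofReal_iff hA.le] at hvol
  have h3 := Real.pi_gt_three
  nlinarith

end Pool.Agent.Lib.MP_755177_an
end

section
set_option autoImplicit false

/-!
# Counting disjoint triangles
-/

open Set Filter Topology Complex Metric MeasureTheory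
open scoped MatrixGroups ComplexConjugate

namespace Pool.Agent.Lib.MP_755177_an

universe u

theorem injective_of_dd {V : Fin 3 → ℂ} (hV : 0 < dd V) : Function.Injective V := by
  intro i j h
  by_contra hij
  have h1 := lam_self V i
  rw [h, lam_ne V hij] at h1
  linarith

/-- Near a vertex the triangle contains the sector. -/
theorem sector_subset {V : Fin 3 → ℂ} (hV : 0 < dd V) (j : Fin 3) : ∃ r : ℝ, 0 < r ∧ ∀ u : ℂ,
    ‖u‖ < r → (∃ s t : ℝ, 0 < s ∧ 0 < t ∧ u = s * (V (j + 1) - V j) + t * (V (j + 2) - V j)) →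
    u + V j ∈ TI V := by
  have h1 : ∀ᶠ z in 𝓝 (V j), 0 < lam V j z := by
    refine (continuous_lam V j).tendsto (V j) |>.eventually (lt_mem_nhds ?_)
    rw [lam_self]
    exact hV
  obtain ⟨r, hr, hb⟩ := Metric.eventually_nhds_iff_ball.mp h1
  refine ⟨r, hr, fun u hu hst => ?_⟩
  obtain ⟨s, t, hs, ht, hu2⟩ := hst
  have h2 := hb (u + V j) (by rwa [mem_ball_iff_norm, add_sub_cancel_right])
  have hj1 : j ≠ j + 1 := by fin_cases j <;> decide
  have hj2 : j ≠ j + 2 := by fin_cases j <;> decide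
  have hj12 : j + 1 ≠ j + 2 := by fin_cases j <;> decide
  have e1 : j + 1 + 1 = j + 2 := by fin_cases j <;> rfl
  have e2 : j + 1 + 2 = j := by fin_cases j <;> rfl
  have e3 : j + 2 + 1 = j := by fin_cases j <;> rfl
  have e4 : j + 2 + 2 = j + 1 := by fin_cases j <;> rfl
  have hdd : cr (V (j + 1) - V j) (V (j + 2) - V j) = dd V := by
    have := lam_self V j
    rwa [lam] at this
  have hu3 : u = s • (V (j + 1) - V j) + t • (V (j + 2) - V j) := by
    rw [hu2, Complex.real_smul, Complex.real_smul]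
  have h3 : lam V (j + 1) (u + V j) = s * dd V := by
    rw [add_comm u, lam_add, lam_ne V hj1.symm, zero_add, e1, e2, hu3, cr_add_left, cr_smul_left,
      cr_smul_left, cr_self, hdd]
    ring
  have h4 : lam V (j + 2) (u + V j) = t * dd V := by
    rw [add_comm u, lam_add, lam_ne V hj2.symm, zero_add, e3, e4, hu3, cr_add_left, cr_smul_left,
      cr_smul_left]
    have h5 : V j - V (j + 1) = -(V (j + 1) - V j) := by ring
    rw [h5, cr_neg_right, cr_neg_right, cr_self, cr_swap, hdd]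
    ring
  intro i
  have hall : ∀ P : Fin 3 → Prop, P j → P (j + 1) → P (j + 2) → P i := by
    intro P a1 a2 a3
    fin_cases j <;> fin_cases i <;> assumption
  refine hall (fun i => 0 < lam V i (u + V j)) h2 ?_ ?_
  · show 0 < lam V (j + 1) (u + V j)
    rw [h3]
    positivity
  · show 0 < lam V (j + 2) (u + V j)
    rw [h4]
    positivity

theorem volume_corners_le (hv : VolumeCorners) {V : Fin 3 → ℂ} (hV : 0 < dd V) : ∃ r : ℝ, 0 < r ∧
    ∀ ρ : ℝ, 0 < ρ → ρ < r → volume (ball (0 : ℂ) ρ) / 2 ≤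
      ∑ z ∈ Finset.univ.image V, volume (TI V ∩ ball z ρ) := by
  choose r hr hsec using sector_subset hV
  refine ⟨min (r 0) (min (r 1) (r 2)), by have := hr 0; have := hr 1; have := hr 2; positivity,
    fun ρ hρ0 hρ => ?_⟩
  have hρ' : ∀ j, ρ < r j := by
    intro j
    fin_cases j
    · exact hρ.trans_le (min_le_left _ _)
    · exact hρ.trans_le ((min_le_right _ _).trans (min_le_left _ _))
    · exact hρ.trans_le ((min_le_right _ _).trans (min_le_right _ _))
  have key : ∀ j, volume {v : ℂ | ‖v‖ < ρ ∧ ∃ s t : ℝ, 0 < s ∧ 0 < t ∧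
      v = s * (V (j + 1) - V j) + t * (V (j + 2) - V j)} ≤ volume (TI V ∩ ball (V j) ρ) := by
    intro j
    rw [← measure_preimage_add_right volume (V j) (TI V ∩ ball (V j) ρ)]
    refine measure_mono ?_
    rintro v ⟨hv1, hv2⟩
    refine ⟨hsec j v (hv1.trans (hρ' j)) hv2, ?_⟩
    rw [mem_ball_iff_norm, add_sub_cancel_right]
    exact hv1
  have h0 := hv (V 1 - V 0) (V 2 - V 0) ρ hV hρ0
  rw [Finset.sum_image fun i _ j _ h => injective_of_dd hV h, Fin.sum_univ_three, ← h0]
  have k0 := key 0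
  have k1 := key 1
  have k2 := key 2
  refine add_le_add (add_le_add ?_ ?_) ?_
  · exact k0
  · refine le_trans (measure_mono ?_) k1
    rintro v ⟨hv1, s, t, hs, ht, hv2⟩
    refine ⟨hv1, t, s, ht, hs, ?_⟩
    show v = t * (V 2 - V 1) + s * (V 0 - V 1)
    rw [hv2]
    ring
  · refine le_trans (measure_mono ?_) k2
    rintro v ⟨hv1, s, t, hs, ht, hv2⟩
    refine ⟨hv1, s, t, hs, ht, ?_⟩
    show v = s * (V 0 - V 2) + t * (V 1 - V 2)
    rw [hv2]
    ring

theorem triCount (hC : CornerCount.{u}) (hv : VolumeCorners) : TriCount.{u} := by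
  intro X _ _ _ M
  obtain ⟨K, hK, h⟩ := hC X M
  refine ⟨⌈2 * K⌉₊, fun n f V hT hd => ?_⟩
  choose r hr hr' using fun i => volume_corners_le hv (hT i).pos
  obtain ⟨ρ₀, hρ₀, hρ⟩ := h (Fin n) (fun i => TI (V i)) f (fun i => Finset.univ.image (V i))
    (fun i => isOpen_TI _) (fun i => convex_TI _)
    (fun i => (hT i).tr.mono (TI_subset_TT _))
    (fun i => (hT i).injOn.mono (TI_subset_TT _)) hd (fun i z hz => by
      rw [Finset.mem_image] at hz
      obtain ⟨j, -, rfl⟩ := hz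
      refine ⟨TC_subset_closure_TI (hT i).pos (vertex_mem_TC (hT i).pos j), ?_⟩
      obtain ⟨q, hq, hl⟩ := (hT i).lim j
      exact ⟨q, hq, hl.mono_left (nhdsWithin_mono _ (TI_subset_TT _))⟩)
  obtain ⟨r0, hr0, hr0'⟩ : ∃ r0 : ℝ, 0 < r0 ∧ ∀ i, r0 ≤ r i := by
    rcases isEmpty_or_nonempty (Fin n) with hn | hn
    · exact ⟨1, one_pos, fun i => hn.elim i⟩
    · refine ⟨Finset.univ.inf' Finset.univ_nonempty r, ?_, fun i => Finset.inf'_le _ (Finset.mem_univ i)⟩
      rw [Finset.lt_inf'_iff]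
      exact fun i _ => hr i
  set ρ := min ρ₀ r0 / 2 with hρdef
  have hm : 0 < min ρ₀ r0 := by positivity
  have hρ0 : 0 < ρ := by positivity
  have hρ1 : ρ < ρ₀ := by have := min_le_left ρ₀ r0; linarith
  have hρ2 : ∀ i, ρ < r i := fun i => by have := min_le_right ρ₀ r0; have := hr0' i; linarith
  have h1 := hρ ρ hρ0 hρ1
  have h2 : ∑ _i : Fin n, volume (ball (0 : ℂ) ρ) / 2 ≤
      ENNReal.ofReal K * volume (ball (0 : ℂ) ρ) :=
    (Finset.sum_le_sum fun i _ => hr' i ρ hρ0 (hρ2 i)).trans h1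
  rw [Finset.sum_const, Finset.card_univ, Fintype.card_fin, nsmul_eq_mul] at h2
  have hfin : volume (ball (0 : ℂ) ρ) ≠ ⊤ := measure_ball_lt_top.ne
  have hpos' : volume (ball (0 : ℂ) ρ) ≠ 0 :=
    (isOpen_ball.measure_pos volume ⟨0, mem_ball_self hρ0⟩).ne'
  have h3 : ((n : ℝ)) / 2 ≤ K := by
    have h3 := ENNReal.toReal_mono (ENNReal.mul_ne_top ENNReal.ofReal_ne_top hfin) h2
    rw [ENNReal.toReal_mul, ENNReal.toReal_mul, ENNReal.toReal_div, ENNReal.toReal_natCast,
      ENNReal.toReal_ofReal hK.le] at h3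
    have h4 : 0 < (volume (ball (0 : ℂ) ρ)).toReal := ENNReal.toReal_pos hpos' hfin
    have h5 : (n : ℝ) / 2 * (volume (ball (0 : ℂ) ρ)).toReal ≤
        K * (volume (ball (0 : ℂ) ρ)).toReal := by
      refine le_trans (le_of_eq ?_) h3
      simp only [ENNReal.toReal_ofNat]
      ring
    exact le_of_mul_le_mul_right h5 h4
  have h4 : (n : ℝ) ≤ (⌈2 * K⌉₊ : ℕ) := le_trans (by linarith) (Nat.le_ceil (2 * K))
  exact_mod_cast h4

end Pool.Agent.Lib.MP_755177_an
end
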