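import Pool.Agent.Lib.MP_755177_an.Finite
import Pool.Agent.Lib.MP_755177_an.Defs2
import Pool.Agent.Lib.MP_755177_an.SCount

set_option autoImplicit false

/-!
# A complete family of parallel cylinders crossed by a transverse band
-/

open Set Filter Topology Complex Metric
open scoped MatrixGroups ComplexConjugate

namespace Pool.Agent.Lib.MP_755177_an

namespace Two

/-! ### The cross product as a linear map -/

theorem cr_add (v z w : ℂ) : cr v (z + w) = cr v z + cr v w := by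
  simp only [cr_eq, Complex.add_re, Complex.add_im]; ring

theorem cr_sub (v z w : ℂ) : cr v (z - w) = cr v z - cr v w := by
  simp only [cr_eq, Complex.sub_re, Complex.sub_im]; ring

theorem cr_neg (v z : ℂ) : cr v (-z) = -cr v z := by
  simp only [cr_eq, Complex.neg_re, Complex.neg_im]; ring

theorem cr_zero (v : ℂ) : cr v 0 = 0 := by simp [cr_eq]

theorem cr_rmul (v z : ℂ) (r : ℝ) : cr v (r * z) = r * cr v z := by
  simp only [cr_eq, Complex.re_ofReal_mul, Complex.im_ofReal_mul]; ring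

theorem cr_lmul (v z : ℂ) (r : ℝ) : cr (r * v) z = r * cr v z := by
  simp only [cr_eq, Complex.re_ofReal_mul, Complex.im_ofReal_mul]; ring

theorem cr_self (v : ℂ) : cr v v = 0 := by simp only [cr_eq]; ring

theorem cr_symm (v w : ℂ) : cr v w = -cr w v := by simp only [cr_eq]; ring

theorem cr_add_left (v z w : ℂ) : cr (z + w) v = cr z v + cr w v := by
  simp only [cr_eq, Complex.add_re, Complex.add_im]; ring

theorem cr_neg_left (v z : ℂ) : cr (-v) z = -cr v z := by
  simp only [cr_eq, Complex.neg_re, Complex.neg_im]; ring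

theorem continuous_cr (v : ℂ) : Continuous (cr v) :=
  Complex.continuous_im.comp (continuous_const.mul continuous_id)

theorem isLinearMap_cr (v : ℂ) : IsLinearMap ℝ (cr v) where
  map_add := cr_add v
  map_smul := fun c z => by rw [Complex.real_smul, cr_rmul, smul_eq_mul]

theorem isOpen_Strip (v : ℂ) (a : ℝ) : IsOpen (Strip v a) :=
  (isOpen_lt continuous_const (continuous_cr v)).inter
    (isOpen_lt (continuous_cr v) continuous_const)

theorem convex_Strip (v : ℂ) (a : ℝ) : Convex ℝ (Strip v a) :=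
  (convex_halfSpace_gt (isLinearMap_cr v) 0).inter (convex_halfSpace_lt (isLinearMap_cr v) a)

/-- `cr v` as a continuous linear map. -/
noncomputable def crL (v : ℂ) : ℂ →L[ℝ] ℝ :=
  LinearMap.toContinuousLinearMap (IsLinearMap.mk' (cr v) (isLinearMap_cr v))

theorem crL_apply (v z : ℂ) : crL v z = cr v z := rfl

end Two

open Two

variable {X : Type*} [TopologicalSpace X] {M : MSurf X}

/-- A complete family of parallel cylinders crossed by a transverse band `t0 < t z < t1`. -/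
structure Crossing (M : MSurf X) {n : Type} (v : n → ℂ) (a W : n → ℝ) (g : n → ℂ → X)
    (s t : ℂ →L[ℝ] ℝ) (t0 t1 : ℝ) (φ : ℂ → X) (c : ℂ) : Prop where
  fam : M.IsFam v a g
  Wpos : ∀ j, 0 < W j
  strip : ∀ j z, z ∈ Strip (v j) (a j) ↔ 0 < s z ∧ s z < W j
  sv : ∀ j, s (v j) = 0
  surj : ∀ α β, ∃ z, s z = α ∧ t z = β
  lt : t0 < t1
  tr : M.IsTr φ {z | t0 < t z ∧ t z < t1}
  per : ∀ (k : ℤ) z, t0 < t z → t z < t1 → φ (z + k * c) = φ z
  tc : t c = 0
  sc : 0 < s c

namespace Crossing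

variable {n : Type} {v : n → ℂ} {a W : n → ℝ} {g : n → ℂ → X} {s t : ℂ →L[ℝ] ℝ} {t0 t1 : ℝ}
  {φ : ℂ → X} {c : ℂ}

/-- The translations carrying the band into the `j`-th cylinder. -/
def T (v : n → ℂ) (a : n → ℝ) (g : n → ℂ → X) (t : ℂ →L[ℝ] ℝ) (t0 t1 : ℝ) (φ : ℂ → X) (j : n) :
    Set ℂ :=
  {τ | ∃ z, (t0 < t z ∧ t z < t1) ∧ z + τ ∈ Strip (v j) (a j) ∧ φ z = g j (z + τ)}

/-- The set of the boundary lines. -/
def P (v : n → ℂ) (a : n → ℝ) (g : n → ℂ → X) (s t : ℂ →L[ℝ] ℝ) (t0 t1 : ℝ) (φ : ℂ → X) : Set ℝ :=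
  {p | ∀ z, t0 < t z → t z < t1 → s z = p → ∀ j, φ z ∉ g j '' Strip (v j) (a j)}

omit [TopologicalSpace X] in
theorem convex_band : Convex ℝ {z | t0 < t z ∧ t z < t1} :=
  (convex_halfSpace_gt t.isLinear t0).inter (convex_halfSpace_lt t.isLinear t1)

omit [TopologicalSpace X] in
theorem isOpen_band : IsOpen {z | t0 < t z ∧ t z < t1} :=
  (isOpen_lt continuous_const t.continuous).inter (isOpen_lt t.continuous continuous_const)

theorem convex_shift (v : ℂ) (a : ℝ) (τ : ℂ) : Convex ℝ {z | z + τ ∈ Strip v a} := by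
  have h1 : {z | z + τ ∈ Strip v a} = (fun z => z + τ) ⁻¹' Strip v a := rfl
  rw [h1]
  exact (convex_Strip v a).translate_preimage_left τ

theorem isOpen_shift (v : ℂ) (a : ℝ) (τ : ℂ) : IsOpen {z | z + τ ∈ Strip v a} :=
  (isOpen_Strip v a).preimage (by fun_prop : Continuous fun z => z + τ)

variable (h : Crossing M v a W g s t t0 t1 φ c)

include h

/-- A single coincidence propagates over the whole cylinder. -/
theorem track [T2Space X] {j : n} {τ : ℂ} (hτ : τ ∈ T v a g t t0 t1 φ j) {z : ℂ} (h0 : t0 < t z)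
    (h1 : t z < t1) (hz : z + τ ∈ Strip (v j) (a j)) : φ z = g j (z + τ) := by
  obtain ⟨w, hw, hw2, hw3⟩ := hτ
  have h2 := (h.tr.mono (inter_subset_left (t := {z | z + τ ∈ Strip (v j) (a j)}))).eqOn
    ((((h.fam.cyl j).tr.comp_add τ)).mono inter_subset_right)
    (convex_band.inter (convex_shift _ _ τ)).isPreconnected ⟨hw, hw2⟩ hw3
  exact h2 ⟨⟨h0, h1⟩, hz⟩

theorem exists_mem (p : ℝ) : ∃ z, (t0 < t z ∧ t z < t1) ∧ s z = p := by
  obtain ⟨z, h1, h2⟩ := h.surj p ((t0 + t1) / 2)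
  have := h.lt
  exact ⟨z, ⟨by linarith, by linarith⟩, h1⟩

/-- Two transitions with the same `s`-coordinate. -/
theorem trans_unique [T2Space X] {j k : n} {τ σ : ℂ} (hτ : τ ∈ T v a g t t0 t1 φ j)
    (hσ : σ ∈ T v a g t t0 t1 φ k) (hs : s τ = s σ) : j = k ∧ ∃ l : ℤ, σ = τ + l * v j := by
  have hj := h.Wpos j
  have hk := h.Wpos k
  have hm : 0 < min (W j) (W k) := lt_min hj hk
  obtain ⟨z, hz, hzs⟩ := h.exists_mem (min (W j) (W k) / 2 - s τ)
  have h1 : z + τ ∈ Strip (v j) (a j) := by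
    rw [h.strip, map_add, hzs]
    have := min_le_left (W j) (W k)
    constructor <;> linarith
  have h2 : z + σ ∈ Strip (v k) (a k) := by
    rw [h.strip, map_add, hzs, ← hs]
    have := min_le_right (W j) (W k)
    constructor <;> linarith
  have h3 := h.track hτ hz.1 hz.2 h1
  have h4 := h.track hσ hz.1 hz.2 h2
  have hjk : j = k := by
    by_contra hne
    exact disjoint_left.mp (h.fam.disj j k hne) ⟨_, h1, rfl⟩ ⟨_, h2, by rw [← h4, h3]⟩
  subst hjk
  refine ⟨rfl, ?_⟩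
  obtain ⟨l, hl⟩ := ((h.fam.cyl j).inj _ h1 _ h2).mp (by rw [← h3, h4])
  exact ⟨l, by linear_combination hl⟩

/-- A coincidence at a point of the closure of a strip. -/
theorem closure_unique [T2Space X] {j k : n} {τ σ : ℂ} (hτ : τ ∈ T v a g t t0 t1 φ j) {z : ℂ}
    (h0 : t0 < t z) (h1 : t z < t1) (hz0 : 0 ≤ s z + s τ) (hz1 : s z + s τ ≤ W j)
    (hz : z + σ ∈ Strip (v k) (a k)) (he : φ z = g k (z + σ)) : s τ = s σ ∧ j = k := by
  have hσ : σ ∈ T v a g t t0 t1 φ k := ⟨z, ⟨h0, h1⟩, hz, he⟩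
  have hW := h.Wpos j
  obtain ⟨c', hc1, hc2⟩ := h.surj (W j / 2 - (s z + s τ)) 0
  have h2 : ∀ᶠ ε : ℝ in 𝓝[>] 0, z + (ε : ℂ) * c' + σ ∈ Strip (v k) (a k) := by
    have h3 : Tendsto (fun ε : ℝ => z + (ε : ℂ) * c' + σ) (𝓝[>] 0) (𝓝 (z + (0 : ℝ) * c' + σ)) := by
      apply Tendsto.mono_left _ nhdsWithin_le_nhds
      exact Continuous.tendsto (by fun_prop) _
    apply h3.eventually
    apply (isOpen_Strip _ _).mem_nhds
    simpa using hz
  have h3 : ∀ᶠ ε : ℝ in 𝓝[>] 0, ε ∈ Ioo (0 : ℝ) 1 := Ioo_mem_nhdsGT one_pos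
  obtain ⟨ε, h4, h5⟩ := (h2.and h3).exists
  have hsc : ∀ x : ℝ, s ((x : ℂ) * c') = x * s c' := fun x => by
    rw [← Complex.real_smul, map_smul, smul_eq_mul]
  have htc : ∀ x : ℝ, t ((x : ℂ) * c') = 0 := fun x => by
    rw [← Complex.real_smul, map_smul, hc2, smul_zero]
  have h6 : z + (ε : ℂ) * c' + τ ∈ Strip (v j) (a j) := by
    rw [h.strip, map_add, map_add, hsc, hc1]
    have h5a := h5.1
    have h5b := h5.2
    constructor
    · nlinarith
    · nlinarith
  have ht : t (z + (ε : ℂ) * c') = t z := by rw [map_add, htc, add_zero]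
  have h7 := h.track hτ (z := z + (ε : ℂ) * c') (by rw [ht]; exact h0) (by rw [ht]; exact h1) h6
  have h8 := h.track hσ (z := z + (ε : ℂ) * c') (by rw [ht]; exact h0) (by rw [ht]; exact h1) h4
  have hjk : j = k := by
    by_contra hne
    exact disjoint_left.mp (h.fam.disj j k hne) ⟨_, h6, rfl⟩ ⟨_, h4, by rw [← h8, h7]⟩
  subst hjk
  refine ⟨?_, rfl⟩
  obtain ⟨l, hl⟩ := ((h.fam.cyl j).inj _ h6 _ h4).mp (by rw [← h7, h8])
  have h9 : σ = τ + (l : ℝ) • v j := by
    rw [Complex.real_smul]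
    push_cast
    linear_combination hl
  rw [h9, map_add, map_smul, h.sv, smul_zero, add_zero]

theorem left_mem [T2Space X] {j : n} {τ : ℂ} (hτ : τ ∈ T v a g t t0 t1 φ j) :
    -s τ ∈ P v a g s t t0 t1 φ := by
  rintro z h0 h1 hs k ⟨w, hw, hwz⟩
  have h2 : z + (w - z) = w := by ring
  have h3 := h.closure_unique (k := k) (σ := w - z) hτ h0 h1 (by rw [hs]; simp)
    (by rw [hs]; simpa using (h.Wpos j).le) (by rwa [h2]) (by rw [h2, hwz])
  have h4 := (h.strip k _).mp hw
  rw [map_sub] at h3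
  linarith [h3.1, h4.1]

theorem right_mem [T2Space X] {j : n} {τ : ℂ} (hτ : τ ∈ T v a g t t0 t1 φ j) :
    -s τ + W j ∈ P v a g s t t0 t1 φ := by
  rintro z h0 h1 hs k ⟨w, hw, hwz⟩
  have h2 : z + (w - z) = w := by ring
  have h3 := h.closure_unique (k := k) (σ := w - z) hτ h0 h1
    (by rw [hs]; simpa using (h.Wpos j).le) (by rw [hs]; simp) (by rwa [h2]) (by rw [h2, hwz])
  have h4 := (h.strip k _).mp hw
  rw [map_sub] at h3
  rw [← h3.2] at h4
  linarith [h3.1, h4.2]

theorem gap_notMem {j : n} [T2Space X] {τ : ℂ} (hτ : τ ∈ T v a g t t0 t1 φ j) {p : ℝ}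
    (h0 : -s τ < p) (h1 : p < -s τ + W j) : p ∉ P v a g s t t0 t1 φ := by
  intro hp
  obtain ⟨z, hz, hzs⟩ := h.exists_mem p
  have h2 : z + τ ∈ Strip (v j) (a j) := by
    rw [h.strip, map_add, hzs]
    constructor <;> linarith
  exact hp z hz.1 hz.2 hzs j ⟨_, h2, (h.track hτ hz.1 hz.2 h2).symm⟩

theorem exists_gap {p : ℝ} (hp : p ∉ P v a g s t t0 t1 φ) :
    ∃ j, ∃ τ ∈ T v a g t t0 t1 φ j, -s τ < p ∧ p < -s τ + W j := by
  simp only [P, mem_ofPred_eq, not_forall, not_not] at hp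
  obtain ⟨z, h0, h1, hs, j, w, hw, hwz⟩ := hp
  have h2 : z + (w - z) = w := by ring
  refine ⟨j, w - z, ⟨z, ⟨h0, h1⟩, by rwa [h2], by rw [h2, hwz]⟩, ?_, ?_⟩
  · have := ((h.strip j _).mp hw).1
    rw [map_sub]
    linarith
  · have := ((h.strip j _).mp hw).2
    rw [map_sub]
    linarith

theorem exists_notMem {p q : ℝ} (hpq : p < q) : ∃ r, p < r ∧ r < q ∧ r ∉ P v a g s t t0 t1 φ := by
  by_contra hcon
  push Not at hcon
  obtain ⟨z, hz, hzs⟩ := h.exists_mem ((p + q) / 2)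
  set O : Set ℂ := {z | t0 < t z ∧ t z < t1} ∩ {z | p < s z ∧ s z < q} with hO
  have hOo : IsOpen O := isOpen_band.inter ((isOpen_lt continuous_const s.continuous).inter
    (isOpen_lt s.continuous continuous_const))
  have hzO : z ∈ O := ⟨hz, by constructor <;> linarith⟩
  have h1 : φ '' O ∈ 𝓝 (φ z) := by
    rw [← Patch.IsTr.map_nhds (h.tr.mono inter_subset_left) hOo hzO]
    exact image_mem_map (hOo.mem_nhds hzO)
  have h2 : φ z ∈ ⋃ j, closure (g j '' Strip (v j) (a j)) := by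
    rw [h.fam.cover]
    trivial
  obtain ⟨j, hj⟩ := mem_iUnion.mp h2
  obtain ⟨y, ⟨w, hw, rfl⟩, hy⟩ := mem_closure_iff_nhds.mp hj _ h1
  exact hcon (s w) hw.2.1 hw.2.2 w hw.1.1 hw.1.2 rfl j hy

theorem exists_lb [Finite n] : ∃ ε : ℝ, 0 < ε ∧ ∀ j, ε ≤ W j := by
  rcases isEmpty_or_nonempty n with hn | hn
  · exact ⟨1, one_pos, fun j => (hn.false j).elim⟩
  · obtain ⟨j, hj⟩ := Finite.exists_min W
    exact ⟨W j, h.Wpos j, hj⟩

/-- Every boundary line is the left end of a gap. -/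
theorem exists_right [T2Space X] [Finite n] {p : ℝ} (hp : p ∈ P v a g s t t0 t1 φ) :
    ∃ j, ∃ τ ∈ T v a g t t0 t1 φ j, -s τ = p := by
  obtain ⟨ε, hε, hεW⟩ := h.exists_lb
  have key : ∀ δ, 0 < δ → ∃ j, ∃ τ ∈ T v a g t t0 t1 φ j, p ≤ -s τ ∧ -s τ < p + δ := by
    intro δ hδ
    obtain ⟨r, h1, h2, h3⟩ := h.exists_notMem (p := p) (q := p + min δ ε)
      (by have : 0 < min δ ε := lt_min hδ hε
          linarith)
    obtain ⟨j, τ, hτ, h4, h5⟩ := h.exists_gap h3
    have h6 := min_le_left δ ε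
    refine ⟨j, τ, hτ, ?_, by linarith⟩
    by_contra h7
    push Not at h7
    exact h.gap_notMem hτ h7 (by linarith) hp
  obtain ⟨j, τ, hτ, h1, h2⟩ := key ε hε
  by_cases h3 : -s τ = p
  · exact ⟨j, τ, hτ, h3⟩
  have h4 : p < -s τ := lt_of_le_of_ne h1 (Ne.symm h3)
  obtain ⟨k, σ, hσ, h5, h6⟩ := key (-s τ - p) (by linarith)
  exfalso
  refine h.gap_notMem hσ (p := -s τ) (by linarith) ?_ (h.left_mem hτ)
  have := hεW k
  linarith

/-- The lines which are left ends of gaps of type `j`. -/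
def A (v : n → ℂ) (a : n → ℝ) (g : n → ℂ → X) (s t : ℂ →L[ℝ] ℝ) (t0 t1 : ℝ) (φ : ℂ → X) (j : n) :
    Set ℝ := (fun τ => -s τ) '' T v a g t t0 t1 φ j

theorem A_subset [T2Space X] (j : n) : A v a g s t t0 t1 φ j ⊆ P v a g s t t0 t1 φ := by
  rintro _ ⟨τ, hτ, rfl⟩
  exact h.left_mem hτ

theorem A_unique [T2Space X] {j k : n} {p : ℝ} (hj : p ∈ A v a g s t t0 t1 φ j)
    (hk : p ∈ A v a g s t t0 t1 φ k) : j = k := by
  obtain ⟨τ, hτ, h1⟩ := hj
  obtain ⟨σ, hσ, h2⟩ := hk
  exact (h.trans_unique hτ hσ (by simp only at h1 h2; linarith)).1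

theorem P_eq [T2Space X] [Finite n] : P v a g s t t0 t1 φ = ⋃ j, A v a g s t t0 t1 φ j := by
  apply Subset.antisymm
  · intro p hp
    obtain ⟨j, τ, hτ, h1⟩ := h.exists_right hp
    exact mem_iUnion.mpr ⟨j, τ, hτ, h1⟩
  · exact iUnion_subset h.A_subset

theorem P_nonempty [T2Space X] : (P v a g s t t0 t1 φ).Nonempty := by
  by_cases h0 : (0 : ℝ) ∈ P v a g s t t0 t1 φ
  · exact ⟨0, h0⟩
  · obtain ⟨j, τ, hτ, -, -⟩ := h.exists_gap h0
    exact ⟨_, h.left_mem hτ⟩

theorem P_periodic {p : ℝ} (hp : p ∈ P v a g s t t0 t1 φ) (k : ℤ) :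
    p + k * s c ∈ P v a g s t t0 t1 φ := by
  intro z h0 h1 hs j
  have e1 : ∀ l : ℤ, s ((l : ℂ) * c) = l * s c := fun l => by
    have : ((l : ℂ) * c) = (l : ℝ) • c := by rw [Complex.real_smul]; push_cast; rfl
    rw [this, map_smul, smul_eq_mul]
  have e2 : ∀ l : ℤ, t ((l : ℂ) * c) = 0 := fun l => by
    have : ((l : ℂ) * c) = (l : ℝ) • c := by rw [Complex.real_smul]; push_cast; rfl
    rw [this, map_smul, h.tc, smul_zero]
  have h2 : t (z - k * c) = t z := by rw [map_sub, e2, sub_zero]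
  have h3 := hp (z - k * c) (by rw [h2]; exact h0) (by rw [h2]; exact h1)
    (by rw [map_sub, e1, hs]; ring) j
  have h4 := h.per k (z - k * c) (by rw [h2]; exact h0) (by rw [h2]; exact h1)
  rw [sub_add_cancel] at h4
  rwa [h4]

/-- The main counting formula. -/
theorem count [T2Space X] [Fintype n] {p q : ℝ} (hp : p ∈ P v a g s t t0 t1 φ)
    (hq : q ∈ P v a g s t t0 t1 φ) (hpq : p ≤ q) :
    (∀ j, (A v a g s t t0 t1 φ j ∩ Ico p q).Finite) ∧
      q - p = ∑ j, (A v a g s t t0 t1 φ j ∩ Ico p q).ncard * W j := by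
  classical
  obtain ⟨ε, hε, hεW⟩ := h.exists_lb
  have key : ∀ (N : ℕ) (p : ℝ), p ∈ P v a g s t t0 t1 φ → p ≤ q → q - p ≤ N * ε →
      (∀ j, (A v a g s t t0 t1 φ j ∩ Ico p q).Finite) ∧
      q - p = ∑ j, (A v a g s t t0 t1 φ j ∩ Ico p q).ncard * W j := by
    intro N
    induction N with
    | zero =>
      intro p hp hpq hN
      have h1 : p = q := by
        simp only [Nat.cast_zero, zero_mul] at hN
        linarith
      subst h1
      simp
    | succ N ih =>
      intro p hp hpq hN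
      rcases hpq.eq_or_lt with h1 | h1
      · subst h1
        simp
      obtain ⟨j, τ, hτ, h2⟩ := h.exists_right hp
      have hr := h.right_mem hτ
      rw [h2] at hr
      have hle : p + W j ≤ q := by
        by_contra h3
        push Not at h3
        exact h.gap_notMem hτ (p := q) (by linarith) (by linarith) hq
      have hεj := hεW j
      have hWj := h.Wpos j
      obtain ⟨h3, h4⟩ := ih (p + W j) hr hle (by push_cast at hN; linarith)
      have hA : p ∈ A v a g s t t0 t1 φ j := ⟨τ, hτ, h2⟩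
      have h5 : ∀ k, A v a g s t t0 t1 φ k ∩ Ico p q =
          if k = j then insert p (A v a g s t t0 t1 φ k ∩ Ico (p + W j) q)
          else A v a g s t t0 t1 φ k ∩ Ico (p + W j) q := by
        intro k
        ext r
        have h6 : r ∈ A v a g s t t0 t1 φ k → ¬ (p < r ∧ r < p + W j) := fun hr hc =>
          h.gap_notMem hτ (p := r) (by linarith) (by linarith) (h.A_subset k hr)
        split_ifs with hk
        · subst hk
          constructor
          · rintro ⟨hr, hr1, hr2⟩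
            rcases hr1.eq_or_lt with h7 | h7
            · exact Or.inl h7.symm
            · refine Or.inr ⟨hr, ?_, hr2⟩
              by_contra h8
              exact h6 hr ⟨h7, not_le.mp h8⟩
          · rintro (rfl | ⟨hr, hr1, hr2⟩)
            · exact ⟨hA, le_rfl, h1⟩
            · exact ⟨hr, by linarith, hr2⟩
        · constructor
          · rintro ⟨hr, hr1, hr2⟩
            rcases hr1.eq_or_lt with h7 | h7
            · subst h7
              exact absurd (h.A_unique hr hA) hk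
            · refine ⟨hr, ?_, hr2⟩
              by_contra h8
              exact h6 hr ⟨h7, not_le.mp h8⟩
          · rintro ⟨hr, hr1, hr2⟩
            exact ⟨hr, by linarith, hr2⟩
      have h7 : ∀ k, (A v a g s t t0 t1 φ k ∩ Ico p q).ncard =
          (A v a g s t t0 t1 φ k ∩ Ico (p + W j) q).ncard + if k = j then 1 else 0 := by
        intro k
        rw [h5 k]
        split_ifs with hk
        · rw [ncard_insert_of_notMem _ (h3 k)]
          rintro ⟨-, hr1, -⟩
          linarith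
        · rfl
      refine ⟨fun k => ?_, ?_⟩
      · rw [h5 k]
        split_ifs with hk
        · exact (h3 k).insert p
        · exact h3 k
      · simp only [h7, Nat.cast_add, add_mul, Finset.sum_add_distrib, ← h4]
        simp
        ring
  obtain ⟨N, hN⟩ := exists_nat_ge ((q - p) / ε)
  exact key N p hp hpq (by rwa [div_le_iff₀ hε] at hN)

theorem sub_mem_closure [T2Space X] [Fintype n] {p q : ℝ} (hp : p ∈ P v a g s t t0 t1 φ)
    (hq : q ∈ P v a g s t t0 t1 φ) (hpq : p ≤ q) : q - p ∈ AddSubmonoid.closure (range W) := by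
  rw [(h.count hp hq hpq).2]
  refine sum_mem fun j _ => ?_
  rw [← nsmul_eq_mul]
  exact nsmul_mem (AddSubmonoid.subset_closure (mem_range_self j)) _

theorem finite_P_Icc [T2Space X] [Fintype n] (p q : ℝ) :
    (P v a g s t t0 t1 φ ∩ Icc p q).Finite := by
  obtain ⟨r, hr⟩ := h.P_nonempty
  have hc := h.sc
  obtain ⟨k, hk⟩ := exists_int_lt ((p - r) / s c)
  obtain ⟨l, hl⟩ := exists_int_gt ((q - r) / s c)
  rw [lt_div_iff₀ hc] at hk
  rw [div_lt_iff₀ hc] at hl
  rcases lt_or_ge q p with hqp | hpq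
  · rw [Icc_eq_empty (not_le.mpr hqp), inter_empty]
    exact finite_empty
  have h1 := (h.count (h.P_periodic hr k) (h.P_periodic hr l) (by linarith)).1
  refine (finite_iUnion h1).subset ?_
  rintro x ⟨hx, hx1, hx2⟩
  rw [h.P_eq] at hx
  obtain ⟨j, hj⟩ := mem_iUnion.mp hx
  exact mem_iUnion.mpr ⟨j, hj, by linarith, by linarith⟩

/-- A limit point outside the cylinders lies on a boundary line. -/
theorem lim_mem [T2Space X] {z0 : ℂ} (hz0 : z0 ∈ closure {z | t0 < t z ∧ t z < t1}) {x : X}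
    (hx : Tendsto φ (𝓝[{z | t0 < t z ∧ t z < t1}] z0) (𝓝 x))
    (hxC : ∀ j, x ∉ g j '' Strip (v j) (a j)) : s z0 ∈ P v a g s t t0 t1 φ := by
  by_contra hcon
  obtain ⟨j, τ, hτ, h1, h2⟩ := h.exists_gap hcon
  have h3 : z0 + τ ∈ Strip (v j) (a j) := by
    rw [h.strip, map_add]
    constructor <;> linarith
  have hne : (𝓝[{z | t0 < t z ∧ t z < t1}] z0).NeBot := mem_closure_iff_nhdsWithin_neBot.mp hz0
  have h4 : Tendsto (fun z => z + τ) (𝓝[{z | t0 < t z ∧ t z < t1}] z0) (𝓝 (z0 + τ)) := by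
    apply Tendsto.mono_left _ nhdsWithin_le_nhds
    exact Continuous.tendsto (by fun_prop) _
  have h5 : Tendsto (fun z => g j (z + τ)) (𝓝[{z | t0 < t z ∧ t z < t1}] z0)
      (𝓝 (g j (z0 + τ))) :=
    ((h.fam.cyl j).tr.continuousOn.continuousAt ((isOpen_Strip _ _).mem_nhds h3)).tendsto.comp h4
  have h6 : x = g j (z0 + τ) := by
    refine tendsto_nhds_unique (hx.congr' ?_) h5
    filter_upwards [h4.eventually ((isOpen_Strip _ _).mem_nhds h3), self_mem_nhdsWithin]
      with z hz hz2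
    exact h.track hτ hz2.1 hz2.2 hz
  exact hxC j ⟨_, h3, h6.symm⟩

end Crossing

end Pool.Agent.Lib.MP_755177_an
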