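import Pool.Agent.Lib.MP_755177_an.Spec3

set_option autoImplicit false

/-!
# Module CYLPAR: two parallel maximal cylinders are disjoint or equal

Also basic facts about the cross product and strips.
-/

open Set Filter Topology Complex Metric
open scoped MatrixGroups ComplexConjugate

namespace Pool.Agent.Lib.MP_755177_an

namespace CylP

theorem cr_add (v w w' : ℂ) : cr v (w + w') = cr v w + cr v w' := by
  simp only [cr_eq, add_re, add_im]; ring

theorem cr_sub (v w w' : ℂ) : cr v (w - w') = cr v w - cr v w' := by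
  simp only [cr_eq, sub_re, sub_im]; ring

theorem cr_self (v : ℂ) : cr v v = 0 := by
  simp only [cr_eq]; ring

theorem cr_zero (v : ℂ) : cr v 0 = 0 := by
  simp [cr_eq]

theorem cr_mul_left (t : ℝ) (v w : ℂ) : cr (t * v) w = t * cr v w := by
  simp only [cr_eq, re_ofReal_mul, im_ofReal_mul]; ring

theorem cr_mul_right (t : ℝ) (v w : ℂ) : cr v (t * w) = t * cr v w := by
  simp only [cr_eq, re_ofReal_mul, im_ofReal_mul]; ring

theorem cr_I_mul (v : ℂ) : cr v (I * v) = ‖v‖ ^ 2 := by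
  rw [← Complex.normSq_eq_norm_sq, Complex.normSq_apply, cr_eq]
  simp

theorem continuous_cr (v : ℂ) : Continuous (cr v) := by
  have : cr v = fun w => v.re * w.im - v.im * w.re := funext fun w => cr_eq v w
  rw [this]
  have h1 := Complex.continuous_re
  have h2 := Complex.continuous_im
  fun_prop

theorem isOpenMap_cr {v : ℂ} (hv : v ≠ 0) : IsOpenMap (cr v) := by
  rw [isOpenMap_iff_nhds_le]
  intro z s hs
  rw [Filter.mem_map] at hs
  have hn : (0 : ℝ) < ‖v‖ ^ 2 := by positivity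
  have h1 : ContinuousAt (fun t : ℝ => z + ((t - cr v z) / ‖v‖ ^ 2 : ℝ) * (I * v)) (cr v z) := by
    fun_prop
  have h2 : z + ((cr v z - cr v z) / ‖v‖ ^ 2 : ℝ) * (I * v) = z := by simp
  have h3 : ∀ᶠ t in 𝓝 (cr v z), z + ((t - cr v z) / ‖v‖ ^ 2 : ℝ) * (I * v) ∈ cr v ⁻¹' s := by
    apply h1
    simp only [h2]
    exact hs
  filter_upwards [h3] with t ht
  have h4 : cr v (z + ((t - cr v z) / ‖v‖ ^ 2 : ℝ) * (I * v)) = t := by
    rw [cr_add, cr_mul_right, cr_I_mul]
    field_simp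
    ring
  have h5 := ht
  simp only [mem_preimage] at h5
  rwa [h4] at h5

theorem Strip_eq (v : ℂ) (a : ℝ) : Strip v a = cr v ⁻¹' Ioo 0 a := rfl

theorem isOpen_Strip (v : ℂ) (a : ℝ) : IsOpen (Strip v a) := by
  rw [Strip_eq]
  exact isOpen_Ioo.preimage (continuous_cr v)

theorem convex_slab (v : ℂ) {J : Set ℝ} (hJ : Convex ℝ J) : Convex ℝ (cr v ⁻¹' J) := by
  intro z hz w hw s t hs ht hst
  show cr v (s • z + t • w) ∈ J
  rw [cr_add, Complex.real_smul, Complex.real_smul, cr_mul_right, cr_mul_right]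
  exact hJ hz hw hs ht hst

theorem convex_Strip (v : ℂ) (a : ℝ) : Convex ℝ (Strip v a) := convex_slab v (convex_Ioo 0 a)

theorem closure_slab {v : ℂ} (hv : v ≠ 0) (J : Set ℝ) :
    closure (cr v ⁻¹' J) = cr v ⁻¹' closure J :=
  ((isOpenMap_cr hv).preimage_closure_eq_closure_preimage (continuous_cr v) J).symm

theorem closure_Strip {v : ℂ} (hv : v ≠ 0) {a : ℝ} (ha : 0 < a) :
    closure (Strip v a) = cr v ⁻¹' Icc 0 a := by
  rw [Strip_eq, closure_slab hv, closure_Ioo ha.ne]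

theorem add_mem_Strip {v τ : ℂ} {a : ℝ} (h : cr v τ = 0) {z : ℂ} :
    z + τ ∈ Strip v a ↔ z ∈ Strip v a := by
  simp only [Strip, mem_ofPred_eq, cr_add, h, add_zero]

end CylP

open CylP

namespace MSurf

variable {X : Type*} [TopologicalSpace X] {M : MSurf X}

/-- A marked point cannot be the limit at an interior point of another translation map. -/
theorem no_sing [T2Space X] {f g : ℂ → X} {S T : Set ℂ} (hf : M.IsTr f S) (hS : IsOpen S)
    (he : EqOn f g (S ∩ T)) {w : ℂ} (hw : w ∈ S) (hwT : w ∈ closure T) {q : X} (hq : q ∈ M.Sg)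
    (hl : Tendsto g (𝓝[T] w) (𝓝 q)) : False := by
  have hne : (𝓝[T] w).NeBot := mem_closure_iff_nhdsWithin_neBot.mp hwT
  have h1 : Tendsto f (𝓝[T] w) (𝓝 (f w)) :=
    (hf.continuousOn.continuousAt (hS.mem_nhds hw)).tendsto.mono_left nhdsWithin_le_nhds
  have h2 : ∀ᶠ y in 𝓝[T] w, f y = g y := by
    filter_upwards [self_mem_nhdsWithin, mem_nhdsWithin_of_mem_nhds (hS.mem_nhds hw)] with y h3 h4
    exact he ⟨h4, h3⟩
  have h3 := tendsto_nhds_unique (h1.congr' h2) hl
  exact hf.2 w hw (h3 ▸ hq)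

end MSurf

theorem Ioo_eq_of {a b b' c : ℝ} (hc : 0 < c ∧ c < a)
    (hc' : b < c ∧ c < b') (h1 : ¬ (0 < b ∧ b < a)) (h2 : ¬ (0 < b' ∧ b' < a))
    (h3 : ¬ (b < 0 ∧ 0 < b')) (h4 : ¬ (b < a ∧ a < b')) : b = 0 ∧ b' = a := by
  obtain ⟨hc0, hca⟩ := hc
  obtain ⟨hbc, hcb⟩ := hc'
  constructor
  · rcases lt_trichotomy b 0 with h | h | h
    · exact absurd ⟨h, hc0.trans hcb⟩ h3
    · exact h
    · exact absurd ⟨h, hbc.trans hca⟩ h1
  · rcases lt_trichotomy b' a with h | h | h
    · exact absurd ⟨hc0.trans hcb, h⟩ h2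
    · exact h
    · exact absurd ⟨hbc.trans hca, h⟩ h4

theorem cylPar.{u} : CylPar.{u} := by
  intro X _ _ _ M v a f t a' f' ht hf hf' hnd
  rw [not_disjoint_iff] at hnd
  obtain ⟨x, ⟨z, hz, rfl⟩, ⟨z', hz', hzz'⟩⟩ := hnd
  set τ : ℂ := z' - z with hτ
  have hv := hf.ne
  have htv := hf'.ne
  set b : ℝ := - cr v τ with hb
  set b' : ℝ := b + a' / t with hb'
  set g : ℂ → X := fun w => f' (w + τ) with hg
  set S' : Set ℂ := cr v ⁻¹' Ioo b b' with hS'
  have hmem : ∀ w, w + τ ∈ Strip (t * v) a' ↔ w ∈ S' := by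
    intro w
    simp only [Strip, mem_ofPred_eq, hS', mem_preimage, mem_Ioo, cr_mul_left, cr_add, hb, hb']
    have e : (cr v w < -cr v τ + a' / t) ↔ t * (cr v w + cr v τ) < a' := by
      rw [← lt_div_iff₀' ht]
      constructor <;> intro h <;> linarith
    have e' : (-cr v τ < cr v w) ↔ 0 < t * (cr v w + cr v τ) := by
      rw [mul_pos_iff_of_pos_left ht]
      constructor <;> intro h <;> linarith
    rw [e, e']
  have hS'set : {w | w + τ ∈ Strip (t * v) a'} = S' := Set.ext hmem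
  have hgTr : M.IsTr g S' := by
    have := hf'.tr.comp_add τ
    rwa [hS'set] at this
  have hSo := isOpen_Strip v a
  have hS'o : IsOpen S' := isOpen_Ioo.preimage (continuous_cr v)
  have hS'c : Convex ℝ S' := convex_slab v (convex_Ioo b b')
  have hzS' : z ∈ S' := by
    rw [← hmem, hτ, add_sub_cancel]
    exact hz'
  have hgz : g z = f z := by
    show f' (z + τ) = f z
    rw [hτ, add_sub_cancel]
    exact hzz'
  have hI : EqOn f g (Strip v a ∩ S') :=
    (hf.tr.mono inter_subset_left).eqOn (hgTr.mono inter_subset_right)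
      ((convex_Strip v a).inter hS'c).isPreconnected (z := z) ⟨hz, hzS'⟩ hgz.symm
  have hapos := hf.pos
  have hbb' : b < b' := by
    have : 0 < a' / t := div_pos hf'.pos ht
    rw [hb']
    linarith
  -- limits of g at the boundary points
  have hcl' : closure S' = cr v ⁻¹' Icc b b' := by rw [hS', closure_slab hv, closure_Ioo hbb'.ne]
  have hlim : ∀ w q, Tendsto f' (𝓝[Strip (t * v) a'] w) (𝓝 q) →
      Tendsto g (𝓝[S'] (w - τ)) (𝓝 q) := by
    intro w q hl
    have h1 : Tendsto (fun y => y + τ) (𝓝[S'] (w - τ)) (𝓝[Strip (t * v) a'] w) := by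
      apply tendsto_nhdsWithin_of_tendsto_nhds_of_eventually_within
      · have : ContinuousAt (fun y : ℂ => y + τ) (w - τ) := by fun_prop
        have h2 := this.tendsto
        rw [sub_add_cancel] at h2
        exact h2.mono_left nhdsWithin_le_nhds
      · filter_upwards [self_mem_nhdsWithin] with y hy
        exact (hmem y).mpr hy
    exact hl.comp h1
  have hcr1 : ∀ w s, cr (t * v) w = s → cr v (w - τ) = b + s / t := by
    intro w s hs
    rw [cr_mul_left] at hs
    rw [cr_sub, hb, ← hs]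
    field_simp
    ring
  have k1 : ¬ (0 < b ∧ b < a) := by
    rintro ⟨h1, h2⟩
    obtain ⟨w, hw, q, hq, hl⟩ := hf'.bot
    have h3 := hcr1 w 0 hw
    rw [zero_div, add_zero] at h3
    refine MSurf.no_sing hf.tr hSo hI (w := w - τ) ?_ ?_ hq (hlim w q hl)
    · show 0 < cr v (w - τ) ∧ cr v (w - τ) < a
      rw [h3]; exact ⟨h1, h2⟩
    · rw [hcl', mem_preimage, h3]
      exact ⟨le_rfl, hbb'.le⟩
  have k2 : ¬ (0 < b' ∧ b' < a) := by
    rintro ⟨h1, h2⟩
    obtain ⟨w, hw, q, hq, hl⟩ := hf'.top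
    have h3 := hcr1 w a' hw
    rw [← hb'] at h3
    refine MSurf.no_sing hf.tr hSo hI (w := w - τ) ?_ ?_ hq (hlim w q hl)
    · show 0 < cr v (w - τ) ∧ cr v (w - τ) < a
      rw [h3]; exact ⟨h1, h2⟩
    · rw [hcl', mem_preimage, h3]
      exact ⟨hbb'.le, le_rfl⟩
  have hI' : EqOn g f (S' ∩ Strip v a) := fun y hy => (hI ⟨hy.2, hy.1⟩).symm
  have k3 : ¬ (b < 0 ∧ 0 < b') := by
    rintro ⟨h1, h2⟩
    obtain ⟨w, hw, q, hq, hl⟩ := hf.bot
    refine MSurf.no_sing hgTr hS'o hI' (w := w) ?_ ?_ hq hl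
    · rw [hS', mem_preimage, hw]; exact ⟨h1, h2⟩
    · rw [closure_Strip hv hapos, mem_preimage, hw]
      exact ⟨le_rfl, hapos.le⟩
  have k4 : ¬ (b < a ∧ a < b') := by
    rintro ⟨h1, h2⟩
    obtain ⟨w, hw, q, hq, hl⟩ := hf.top
    refine MSurf.no_sing hgTr hS'o hI' (w := w) ?_ ?_ hq hl
    · rw [hS', mem_preimage, hw]; exact ⟨h1, h2⟩
    · rw [closure_Strip hv hapos, mem_preimage, hw]
      exact ⟨hapos.le, le_rfl⟩
  obtain ⟨hb0, hba⟩ := Ioo_eq_of (c := cr v z) hz hzS' k1 k2 k3 k4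
  have hSS : S' = Strip v a := by rw [hS', hb0, hba, Strip_eq]
  rw [hSS] at hmem hgTr
  have hall : EqOn f g (Strip v a) := by
    rw [hSS, inter_self] at hI
    exact hI
  have hcrτ : cr v τ = 0 := by
    rw [hb] at hb0
    linarith
  have haa : a' = t * a := by
    rw [hb', hb0, zero_add] at hba
    rw [← hba]
    field_simp
  -- periods
  have hzv : z + v ∈ Strip v a := (add_mem_Strip (cr_self v)).mpr hz
  have hztv : z + t * v ∈ Strip v a := by
    refine (add_mem_Strip ?_).mpr hz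
    rw [cr_mul_right, cr_self, mul_zero]
  obtain ⟨n, hn⟩ : ∃ n : ℤ, (n : ℝ) * t = 1 := by
    have e1 : f z = f (z + v) := (hf.inj z hz (z + v) hzv).mpr ⟨1, by push_cast; ring⟩
    rw [hall hz, hall hzv] at e1
    obtain ⟨n, hn⟩ := (hf'.inj (z + τ) ((hmem z).mpr hz) (z + v + τ) ((hmem _).mpr hzv)).mp e1
    refine ⟨n, ?_⟩
    have e2 : v * ((n : ℝ) * t : ℝ) = v * 1 := by
      push_cast
      linear_combination -hn
    have e3 := mul_left_cancel₀ hv e2
    exact_mod_cast e3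
  obtain ⟨m, hm⟩ : ∃ m : ℤ, (m : ℝ) = t := by
    have e1 : f' (z + τ) = f' (z + t * v + τ) :=
      (hf'.inj (z + τ) ((hmem z).mpr hz) (z + t * v + τ) ((hmem _).mpr hztv)).mpr
        ⟨1, by push_cast; ring⟩
    have e1' : g z = g (z + t * v) := e1
    rw [← hall hz, ← hall hztv] at e1'
    obtain ⟨m, hm⟩ := (hf.inj z hz (z + t * v) hztv).mp e1'
    refine ⟨m, ?_⟩
    have e2 : v * ((m : ℝ) : ℂ) = v * (t : ℂ) := by
      push_cast
      linear_combination -hm
    have e3 := mul_left_cancel₀ hv e2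
    exact_mod_cast e3
  have ht1 : t = 1 := by
    have h1 : n * m = 1 := by
      have : ((n * m : ℤ) : ℝ) = 1 := by
        push_cast
        rw [hm]
        exact hn
      exact_mod_cast this
    have hmpos : 0 < m := by
      have : (0 : ℝ) < m := by rw [hm]; exact ht
      exact_mod_cast this
    have hm1 : m = 1 := by
      rcases Int.isUnit_iff.mp (IsUnit.of_mul_eq_one_right n h1) with h | h
      · exact h
      · omega
    rw [← hm, hm1]
    norm_num
  subst ht1
  refine ⟨rfl, by rw [haa, one_mul], ?_⟩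
  have e1 : ((1 : ℝ) : ℂ) * v = v := by simp
  have haa' : a' = a := by rw [haa, one_mul]
  rw [e1, haa'] at hmem
  apply Subset.antisymm
  · rintro _ ⟨w, hw, rfl⟩
    exact ⟨w + τ, (hmem w).mpr hw, (hall hw).symm⟩
  · rintro _ ⟨w, hw, rfl⟩
    have h1 : w - τ ∈ Strip v a := by
      rw [← hmem, sub_add_cancel]
      exact hw
    refine ⟨w - τ, h1, ?_⟩
    rw [hall h1]
    show f' (w - τ + τ) = f' w
    rw [sub_add_cancel]

end Pool.Agent.Lib.MP_755177_an
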