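import Mathlib

set_option autoImplicit false

/-!
# Translation surfaces: definitions

A translation surface is given by a compact connected Hausdorff space `X` and an atlas of local
primitives `w` of the holomorphic one-form `ω = dw`; near every point `p` there is a chart `ζ`
centred at `p` with `w = w(p) + ζ ^ k`.
-/

open Set Filter Topology Complex
open scoped MatrixGroups

namespace Pool.Agent.Lib.MP_755177_an

/-- The linear action of `SL(2,ℝ)` on the plane `ℂ = ℝ²`. -/
def act (A : SL(2, ℝ)) (z : ℂ) : ℂ :=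
  ⟨A 0 0 * z.re + A 0 1 * z.im, A 1 0 * z.re + A 1 1 * z.im⟩

/-- A translation structure on `X`: an atlas of local primitives `(U, w)` of the one-form
`ω = dw`. Two primitives differ by a locally constant function on the overlap of their domains, and
near every point `p` there is a chart `ζ` centred at `p` in which `w = w p + ζ ^ k`, `k ≥ 1`; the
point `p` is a zero of `ω` of order `k - 1`. -/
structure TransStr (X : Type*) [TopologicalSpace X] where
  atlas : Set (Set X × (X → ℂ))
  isOpen_source : ∀ a ∈ atlas, IsOpen a.1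
  compat : ∀ a ∈ atlas, ∀ b ∈ atlas, ∀ p, p ∈ a.1 → p ∈ b.1 →
    ∃ c : ℂ, ∀ᶠ x in 𝓝 p, a.2 x = b.2 x + c
  normal_form : ∀ p : X, ∃ a ∈ atlas, ∃ (k : ℕ) (ζ : OpenPartialHomeomorph X ℂ),
    0 < k ∧ p ∈ ζ.source ∧ ζ.source ⊆ a.1 ∧ ζ p = 0 ∧ ∀ x ∈ ζ.source, a.2 x = a.2 p + ζ x ^ k

namespace TransStr

variable {X : Type*} [TopologicalSpace X] (M : TransStr X)

/-- `f` is a translation map on the planar set `S`: it is continuous and every local primitive
`w` satisfies `w (f z) = z + c` locally. (On an open set `S` such a map automatically avoids the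
zeros of `ω`.) The restriction of `f` to a segment in `S` is a straight-line trajectory. -/
def IsTrans (f : ℂ → X) (S : Set ℂ) : Prop :=
  ContinuousOn f S ∧ ∀ z ∈ S, ∀ a ∈ M.atlas, f z ∈ a.1 → ∃ c : ℂ, ∀ᶠ z' in 𝓝[S] z, a.2 (f z') = z' + c

/-- The open strip of height `h` in direction `u`. -/
def strip (u : ℂ) (h : ℝ) : Set ℂ := {z | 0 < (z / u).im ∧ (z / u).im < h}

/-- `C ⊆ X` is an open annulus of height `h` and circumference `c` foliated by closed straight-line
trajectories of direction `u` (`‖u‖ = 1`) which avoid the zeros of `ω`. -/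
def IsAnnulus (u : ℂ) (c h : ℝ) (C : Set X) : Prop :=
  0 < c ∧ 0 < h ∧ ∃ f : ℂ → X, M.IsTrans f (strip u h) ∧
    (∀ z ∈ strip u h, ∀ z' ∈ strip u h, f z = f z' ↔ ∃ n : ℤ, z' = z + n * (c * u)) ∧
    f '' strip u h = C

/-- `C` is a (maximal) cylinder of direction `u`, circumference `c` and height `h`. -/
def IsCylinder (u : ℂ) (c h : ℝ) (C : Set X) : Prop :=
  M.IsAnnulus u c h C ∧ ∀ c' h' C', M.IsAnnulus u c' h' C' → C ⊆ C' → C' = C

/-- `M` is completely periodic. -/
def CompletelyPeriodic : Prop :=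
  ∀ u : ℂ, ‖u‖ = 1 → (∃ c h C, M.IsCylinder u c h C) →
    (⋃ C ∈ {C : Set X | ∃ c h, M.IsCylinder u c h C}, closure C) = univ

/-- `M` is completely parabolic: completely periodic, and parallel cylinders have rationally
related moduli `h / c`. -/
def CompletelyParabolic : Prop :=
  M.CompletelyPeriodic ∧ ∀ u : ℂ, ‖u‖ = 1 → ∀ c h C c' h' C', M.IsCylinder u c h C →
    M.IsCylinder u c' h' C' → ∃ q : ℚ, (h / c) / (h' / c') = q

/-- `φ` is an affine self-homeomorphism with derivative `A`. -/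
def IsAffine (A : SL(2, ℝ)) (φ : X ≃ₜ X) : Prop :=
  ∀ a ∈ M.atlas, ∀ b ∈ M.atlas, ∀ p, p ∈ a.1 → φ p ∈ b.1 →
    ∃ c : ℂ, ∀ᶠ x in 𝓝 p, b.2 (φ x) = act A (a.2 x) + c

end TransStr

/-- `Γ` is a lattice in `SL(2,ℝ)`: it is discrete and it has finite covolume, i.e. its translates
of some Borel set of finite Haar measure cover `SL(2,ℝ)`. -/
def IsLattice (Γ : Subgroup SL(2, ℝ)) : Prop :=
  DiscreteTopology Γ ∧
    letI : MeasurableSpace SL(2, ℝ) := borel _
    ∃ μ : MeasureTheory.Measure SL(2, ℝ), μ.IsHaarMeasure ∧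
      ∃ F : Set SL(2, ℝ), MeasurableSet F ∧ μ F < ⊤ ∧ ∀ g, ∃ γ ∈ Γ, γ * g ∈ F

end Pool.Agent.Lib.MP_755177_an
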