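import Pool.Agent.Lib.MP_755177_an.Spec3
import Pool.Agent.Lib.MP_755177_an.Cross
import Pool.Agent.Lib.MP_755177_an.Spec

section
set_option autoImplicit false

/-!
# Two transverse complete families of parallel cylinders
-/

open Set Filter Topology Complex Metric
open scoped MatrixGroups ComplexConjugate

namespace Pool.Agent.Lib.MP_755177_an

namespace Two

/-! ### Coordinates -/

/-- The coordinates with respect to the basis `e, e'`. -/
noncomputable def xc (e e' : ℂ) : ℂ →L[ℝ] ℝ := (-(cr e e')⁻¹) • crL e'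

noncomputable def yc (e e' : ℂ) : ℂ →L[ℝ] ℝ := (cr e e')⁻¹ • crL e

theorem xc_apply (e e' z : ℂ) : xc e e' z = -(cr e' z) / cr e e' := by
  show (-(cr e e')⁻¹) • cr e' z = _
  rw [smul_eq_mul]
  ring

theorem yc_apply (e e' z : ℂ) : yc e e' z = cr e z / cr e e' := by
  show (cr e e')⁻¹ • cr e z = _
  rw [smul_eq_mul]
  ring

section coord

variable {e e' : ℂ} (hκ : 0 < cr e e')

include hκ

theorem eq_coord (z : ℂ) : z = xc e e' z * e + yc e e' z * e' := by
  have h1 : cr e e' ≠ 0 := hκ.ne'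
  rw [xc_apply, yc_apply]
  apply Complex.ext
  · simp only [Complex.add_re, Complex.re_ofReal_mul]
    field_simp
    simp only [cr_eq]
    ring
  · simp only [Complex.add_im, Complex.im_ofReal_mul]
    field_simp
    simp only [cr_eq]
    ring

theorem xc_coord (x y : ℝ) : xc e e' (x * e + y * e') = x := by
  rw [xc_apply, cr_add, cr_rmul, cr_rmul, cr_self, cr_symm e' e]
  field_simp
  ring

theorem yc_coord (x y : ℝ) : yc e e' (x * e + y * e') = y := by
  rw [yc_apply, cr_add, cr_rmul, cr_rmul, cr_self]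
  field_simp
  ring

theorem xc_e (x : ℝ) : xc e e' (x * e) = x := by
  have := xc_coord hκ x 0
  simpa using this

theorem yc_e (x : ℝ) : yc e e' (x * e) = 0 := by
  have := yc_coord hκ x 0
  simpa using this

theorem xc_e' (x : ℝ) : xc e e' (x * e') = 0 := by
  have := xc_coord hκ 0 x
  simpa using this

theorem yc_e' (x : ℝ) : yc e e' (x * e') = x := by
  have := yc_coord hκ 0 x
  simpa using this

theorem mem_stripH {γ a : ℝ} (hγ : 0 < γ) (z : ℂ) :
    z ∈ Strip (γ * e) a ↔ 0 < yc e e' z ∧ yc e e' z < a / (γ * cr e e') := by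
  have h1 : 0 < γ * cr e e' := mul_pos hγ hκ
  have h2 : cr (γ * e) z = (γ * cr e e') * yc e e' z := by
    rw [yc_apply, cr_lmul]
    field_simp
  simp only [Strip, mem_ofPred_eq, h2, lt_div_iff₀ h1]
  rw [mul_comm (γ * cr e e')]
  exact and_congr_left fun _ => ⟨fun h => pos_of_mul_pos_left h h1.le, fun h => mul_pos h h1⟩

theorem mem_stripV {δ a : ℝ} (hδ : 0 < δ) (z : ℂ) :
    z ∈ Strip (δ * e') a ↔ 0 < -xc e e' z ∧ -xc e e' z < a / (δ * cr e e') := by
  have h1 : 0 < δ * cr e e' := mul_pos hδ hκ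
  have h2 : cr (δ * e') z = (δ * cr e e') * (-xc e e' z) := by
    rw [xc_apply, cr_lmul]
    field_simp
  simp only [Strip, mem_ofPred_eq, h2, lt_div_iff₀ h1]
  rw [mul_comm (δ * cr e e')]
  exact and_congr_left fun _ => ⟨fun h => pos_of_mul_pos_left h h1.le, fun h => mul_pos h h1⟩

end coord

theorem exists_shift {δ : ℝ} (hδ : 0 < δ) (q y : ℝ) : ∃ l : ℤ, y + l * δ ∈ Ico q (q + δ) := by
  obtain ⟨l, hl, -⟩ := existsUnique_add_zsmul_mem_Ico hδ y q
  exact ⟨l, by rwa [zsmul_eq_mul] at hl⟩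

theorem shift_unique {δ q y : ℝ} (hδ : 0 < δ) {l : ℤ} (h1 : y ∈ Ico q (q + δ))
    (h2 : y + l * δ ∈ Ico q (q + δ)) : l = 0 := by
  obtain ⟨k, hk, hu⟩ := existsUnique_add_zsmul_mem_Ico hδ y q
  have h3 : l = k := hu l (by simpa [zsmul_eq_mul] using h2)
  have h4 : (0 : ℤ) = k := hu 0 (by simpa using h1)
  rw [h3, h4]

variable {X : Type*} [TopologicalSpace X]

/-- The data of the problem. -/
structure Data (M : MSurf X) {m n : Type} (e e' : ℂ) (γ a H : m → ℝ) (δ a' W : n → ℝ)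
    (f : m → ℂ → X) (g : n → ℂ → X) : Prop where
  hκ : 0 < cr e e'
  hγ : ∀ i, 0 < γ i
  hδ : ∀ j, 0 < δ j
  hH : ∀ i, H i = a i / (γ i * cr e e')
  hW : ∀ j, W j = a' j / (δ j * cr e e')
  hf : M.IsFam (fun i => (γ i : ℂ) * e) a f
  hg : M.IsFam (fun j => (δ j : ℂ) * e') a' g

/-- The transition vectors. -/
def TT {m n : Type} (e e' : ℂ) (γ a : m → ℝ) (δ a' : n → ℝ)
    (f : m → ℂ → X) (g : n → ℂ → X) (i : m) (j : n) : Set ℂ :=
  {τ | ∃ z ∈ Strip (γ i * e) (a i), z + τ ∈ Strip (δ j * e') (a' j) ∧ f i z = g j (z + τ)}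

namespace Data

variable {M : MSurf X} {m n : Type} {e e' : ℂ} {γ a H : m → ℝ} {δ a' W : n → ℝ}
    {f : m → ℂ → X} {g : n → ℂ → X} (D : Data M e e' γ a H δ a' W f g)

include D

theorem Hpos (i : m) : 0 < H i := by
  rw [D.hH]
  exact div_pos (D.hf.cyl i).pos (mul_pos (D.hγ i) D.hκ)

theorem Wpos (j : n) : 0 < W j := by
  rw [D.hW]
  exact div_pos (D.hg.cyl j).pos (mul_pos (D.hδ j) D.hκ)

theorem memH (i : m) (z : ℂ) :
    z ∈ Strip (γ i * e) (a i) ↔ 0 < yc e e' z ∧ yc e e' z < H i := by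
  rw [D.hH]
  exact mem_stripH D.hκ (D.hγ i) z

theorem memV (j : n) (z : ℂ) :
    z ∈ Strip (δ j * e') (a' j) ↔ 0 < -xc e e' z ∧ -xc e e' z < W j := by
  rw [D.hW]
  exact mem_stripV D.hκ (D.hδ j) z

theorem stripH_eq (i : m) : Strip (γ i * e) (a i) = {z | 0 < yc e e' z ∧ yc e e' z < H i} := by
  ext z
  exact D.memH i z

theorem stripV_eq (j : n) :
    Strip (δ j * e') (a' j) = {z | -W j < xc e e' z ∧ xc e e' z < 0} := by
  ext z
  rw [D.memV]
  constructor
  · rintro ⟨h1, h2⟩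
    constructor <;> linarith
  · rintro ⟨h1, h2⟩
    constructor <;> linarith

theorem perH (i : m) (k : ℤ) {z : ℂ} (hz : z ∈ Strip (γ i * e) (a i)) :
    z + k * (γ i * e) ∈ Strip (γ i * e) (a i) ∧ f i (z + k * (γ i * e)) = f i z := by
  have h1 : z + k * (γ i * e) ∈ Strip (γ i * e) (a i) := by
    rw [D.memH] at hz ⊢
    have h2 : yc e e' (z + k * (γ i * e)) = yc e e' z := by
      have h3 : (k : ℂ) * (γ i * e) = ((k * γ i : ℝ) : ℂ) * e := by push_cast; ring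
      rw [h3, map_add, yc_e D.hκ, add_zero]
    rwa [h2]
  exact ⟨h1, (((D.hf.cyl i).inj _ hz _ h1).mpr ⟨k, rfl⟩).symm⟩

theorem perV (j : n) (k : ℤ) {z : ℂ} (hz : z ∈ Strip (δ j * e') (a' j)) :
    z + k * (δ j * e') ∈ Strip (δ j * e') (a' j) ∧ g j (z + k * (δ j * e')) = g j z := by
  have h1 : z + k * (δ j * e') ∈ Strip (δ j * e') (a' j) := by
    rw [D.memV] at hz ⊢
    have h2 : xc e e' (z + k * (δ j * e')) = xc e e' z := by
      have h3 : (k : ℂ) * (δ j * e') = ((k * δ j : ℝ) : ℂ) * e' := by push_cast; ring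
      rw [h3, map_add, xc_e' D.hκ, add_zero]
    rwa [h2]
  exact ⟨h1, (((D.hg.cyl j).inj _ hz _ h1).mpr ⟨k, rfl⟩).symm⟩

/-- The horizontal cylinders are crossed by the vertical ones. -/
theorem crossH (i : m) : Crossing M (fun j => (δ j : ℂ) * e') a' W g (-xc e e') (yc e e') 0 (H i)
    (f i) (-(γ i * e)) where
  fam := D.hg
  Wpos := D.Wpos
  strip := fun j z => by rw [D.memV]; rfl
  sv := fun j => by
    show -(xc e e' (δ j * e')) = 0
    rw [xc_e' D.hκ, neg_zero]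
  surj := fun α β => ⟨((-α : ℝ) : ℂ) * e + β * e', by
    show -(xc e e' (((-α : ℝ) : ℂ) * e + β * e')) = α
    rw [xc_coord D.hκ, neg_neg], yc_coord D.hκ _ _⟩
  lt := D.Hpos i
  tr := by
    have := (D.hf.cyl i).tr
    rwa [D.stripH_eq i] at this
  per := fun k z h0 h1 => by
    have h2 : z ∈ Strip (γ i * e) (a i) := (D.memH i z).mpr ⟨h0, h1⟩
    have h3 := (D.perH i (-k) h2).2
    rw [← h3]
    congr 1
    push_cast
    ring
  tc := by rw [map_neg, yc_e D.hκ, neg_zero]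
  sc := by
    show 0 < -(xc e e' (-(γ i * e)))
    rw [map_neg, xc_e D.hκ, neg_neg]
    exact D.hγ i

/-- The vertical cylinders are crossed by the horizontal ones. -/
theorem crossV (j : n) : Crossing M (fun i => (γ i : ℂ) * e) a H f (yc e e') (xc e e') (-W j) 0
    (g j) (δ j * e') where
  fam := D.hf
  Wpos := D.Hpos
  strip := fun i z => D.memH i z
  sv := fun i => yc_e D.hκ _
  surj := fun α β => ⟨(β : ℂ) * e + α * e', yc_coord D.hκ _ _, xc_coord D.hκ _ _⟩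
  lt := by have := D.Wpos j; linarith
  tr := by
    have := (D.hg.cyl j).tr
    rwa [D.stripV_eq j] at this
  per := fun k z h0 h1 => by
    have h2 : z ∈ Strip (δ j * e') (a' j) := by
      rw [D.stripV_eq]
      exact ⟨h0, h1⟩
    exact (D.perV j k h2).2
  tc := xc_e' D.hκ _
  sc := by
    rw [yc_e' D.hκ]
    exact D.hδ j

end Data

/-- The boundary lines in the horizontal cylinders. -/
def PH {m n : Type} (e e' : ℂ) (H : m → ℝ) (δ a' : n → ℝ)
    (f : m → ℂ → X) (g : n → ℂ → X) (i : m) : Set ℝ :=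
  Crossing.P (fun j => (δ j : ℂ) * e') a' g (-xc e e') (yc e e') 0 (H i) (f i)

/-- The boundary lines in the vertical cylinders. -/
def PV {m n : Type} (e e' : ℂ) (γ a : m → ℝ) (W : n → ℝ)
    (f : m → ℂ → X) (g : n → ℂ → X) (j : n) : Set ℝ :=
  Crossing.P (fun i => (γ i : ℂ) * e) a f (yc e e') (xc e e') (-W j) 0 (g j)

namespace Data

variable {M : MSurf X} {m n : Type} {e e' : ℂ} {γ a H : m → ℝ} {δ a' W : n → ℝ}
    {f : m → ℂ → X} {g : n → ℂ → X} (D : Data M e e' γ a H δ a' W f g)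

include D

theorem TH (i : m) (j : n) : Crossing.T (fun j => (δ j : ℂ) * e') a' g (yc e e') 0 (H i) (f i) j =
    TT e e' γ a δ a' f g i j := by
  ext τ
  constructor
  · rintro ⟨z, h1, h2, h3⟩
    exact ⟨z, (D.memH i z).mpr h1, h2, h3⟩
  · rintro ⟨z, h1, h2, h3⟩
    exact ⟨z, (D.memH i z).mp h1, h2, h3⟩

theorem TV (i : m) (j : n) {τ : ℂ} :
    -τ ∈ Crossing.T (fun i => (γ i : ℂ) * e) a f (xc e e') (-W j) 0 (g j) i ↔
    τ ∈ TT e e' γ a δ a' f g i j := by
  constructor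
  · rintro ⟨z, h1, h2, h3⟩
    refine ⟨z + -τ, h2, ?_, ?_⟩
    · rw [neg_add_cancel_right, D.stripV_eq]
      exact h1
    · rw [neg_add_cancel_right]
      exact h3.symm
  · rintro ⟨z, h1, h2, h3⟩
    refine ⟨z + τ, ?_, ?_, ?_⟩
    · rw [D.stripV_eq] at h2
      exact h2
    · rwa [add_neg_cancel_right]
    · rw [add_neg_cancel_right]
      exact h3.symm

theorem AH (i : m) (j : n) :
    Crossing.A (fun j => (δ j : ℂ) * e') a' g (-xc e e') (yc e e') 0 (H i) (f i) j =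
    xc e e' '' TT e e' γ a δ a' f g i j := by
  rw [Crossing.A, D.TH]
  apply image_congr
  intro τ _
  show - -(xc e e' τ) = _
  rw [neg_neg]

theorem AV (i : m) (j : n) :
    Crossing.A (fun i => (γ i : ℂ) * e) a f (yc e e') (xc e e') (-W j) 0 (g j) i =
    yc e e' '' TT e e' γ a δ a' f g i j := by
  ext p
  constructor
  · rintro ⟨τ, hτ, rfl⟩
    refine ⟨-τ, ?_, by rw [map_neg]⟩
    rw [← D.TV]
    rwa [neg_neg]
  · rintro ⟨τ, hτ, rfl⟩
    refine ⟨-τ, D.TV i j |>.mpr hτ, ?_⟩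
    show -(yc e e' (-τ)) = _
    rw [map_neg, neg_neg]

theorem TT_addV {i : m} {j : n} {τ : ℂ} (hτ : τ ∈ TT e e' γ a δ a' f g i j) (l : ℤ) :
    τ + l * (δ j * e') ∈ TT e e' γ a δ a' f g i j := by
  obtain ⟨z, h1, h2, h3⟩ := hτ
  have h4 := D.perV j l h2
  refine ⟨z, h1, ?_, ?_⟩
  · rw [← add_assoc]
    exact h4.1
  · rw [← add_assoc, h4.2, h3]

theorem TT_addH {i : m} {j : n} {τ : ℂ} (hτ : τ ∈ TT e e' γ a δ a' f g i j) (l : ℤ) :
    τ + l * (γ i * e) ∈ TT e e' γ a δ a' f g i j := by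
  obtain ⟨z, h1, h2, h3⟩ := hτ
  have h4 := D.perH i (-l) h1
  refine ⟨z + (-l : ℤ) * (γ i * e), h4.1, ?_, ?_⟩
  · have : z + (-l : ℤ) * (γ i * e) + (τ + l * (γ i * e)) = z + τ := by push_cast; ring
    rwa [this]
  · have : z + (-l : ℤ) * (γ i * e) + (τ + l * (γ i * e)) = z + τ := by push_cast; ring
    rw [this, h4.2, h3]

theorem xc_mem_PH [T2Space X] {i : m} {j : n} {τ : ℂ} (hτ : τ ∈ TT e e' γ a δ a' f g i j) :
    xc e e' τ ∈ PH e e' H δ a' f g i := by
  apply (D.crossH i).A_subset j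
  rw [D.AH]
  exact ⟨τ, hτ, rfl⟩

theorem yc_mem_PV [T2Space X] {i : m} {j : n} {τ : ℂ} (hτ : τ ∈ TT e e' γ a δ a' f g i j) :
    yc e e' τ ∈ PV e e' γ a W f g j := by
  apply (D.crossV j).A_subset i
  rw [D.AV]
  exact ⟨τ, hτ, rfl⟩

theorem TT_eq_of_xc [T2Space X] {i : m} {j : n} {τ σ : ℂ} (hτ : τ ∈ TT e e' γ a δ a' f g i j)
    (hσ : σ ∈ TT e e' γ a δ a' f g i j) (h : xc e e' τ = xc e e' σ) :
    ∃ l : ℤ, σ = τ + l * (δ j * e') := by
  rw [← D.TH] at hτ hσ
  exact ((D.crossH i).trans_unique hτ hσ (by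
    show -(xc e e' τ) = -(xc e e' σ)
    rw [h])).2

theorem TT_eq_of_yc [T2Space X] {i : m} {j : n} {τ σ : ℂ} (hτ : τ ∈ TT e e' γ a δ a' f g i j)
    (hσ : σ ∈ TT e e' γ a δ a' f g i j) (h : yc e e' τ = yc e e' σ) :
    ∃ l : ℤ, σ = τ + l * (γ i * e) := by
  rw [← D.TV] at hτ hσ
  obtain ⟨l, hl⟩ := ((D.crossV j).trans_unique hτ hσ (by rw [map_neg, map_neg, h])).2
  refine ⟨-l, ?_⟩
  push_cast
  linear_combination -hl

/-- The number of intersections computed in the two families. -/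
theorem ncard_eq [T2Space X] (i : m) (j : n) (p q : ℝ) :
    (Crossing.A (fun j => (δ j : ℂ) * e') a' g (-xc e e') (yc e e') 0 (H i) (f i) j ∩
      Ico p (p + γ i)).ncard =
    (Crossing.A (fun i => (γ i : ℂ) * e) a f (yc e e') (xc e e') (-W j) 0 (g j) i ∩
      Ico q (q + δ j)).ncard := by
  rw [D.AH, D.AV]
  set E : Set ℂ := {τ ∈ TT e e' γ a δ a' f g i j |
    xc e e' τ ∈ Ico p (p + γ i) ∧ yc e e' τ ∈ Ico q (q + δ j)} with hE
  have hxe : ∀ l : ℤ, xc e e' (l * (γ i * e)) = l * γ i := fun l => by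
    have : (l : ℂ) * (γ i * e) = ((l * γ i : ℝ) : ℂ) * e := by push_cast; ring
    rw [this, xc_e D.hκ]
  have hye : ∀ l : ℤ, yc e e' (l * (γ i * e)) = 0 := fun l => by
    have : (l : ℂ) * (γ i * e) = ((l * γ i : ℝ) : ℂ) * e := by push_cast; ring
    rw [this, yc_e D.hκ]
  have hxe' : ∀ l : ℤ, xc e e' (l * (δ j * e')) = 0 := fun l => by
    have : (l : ℂ) * (δ j * e') = ((l * δ j : ℝ) : ℂ) * e' := by push_cast; ring
    rw [this, xc_e' D.hκ]
  have hye' : ∀ l : ℤ, yc e e' (l * (δ j * e')) = l * δ j := fun l => by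
    have : (l : ℂ) * (δ j * e') = ((l * δ j : ℝ) : ℂ) * e' := by push_cast; ring
    rw [this, yc_e' D.hκ]
  have h1 : xc e e' '' TT e e' γ a δ a' f g i j ∩ Ico p (p + γ i) = xc e e' '' E := by
    ext r
    constructor
    · rintro ⟨⟨τ, hτ, rfl⟩, hr⟩
      obtain ⟨l, hl⟩ := exists_shift (D.hδ j) q (yc e e' τ)
      refine ⟨τ + l * (δ j * e'), ⟨D.TT_addV hτ l, ?_, ?_⟩, ?_⟩
      · rwa [map_add, hxe', add_zero]
      · rwa [map_add, hye']
      · rw [map_add, hxe', add_zero]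
    · rintro ⟨τ, hτ, rfl⟩
      exact ⟨⟨τ, hτ.1, rfl⟩, hτ.2.1⟩
  have h2 : yc e e' '' TT e e' γ a δ a' f g i j ∩ Ico q (q + δ j) = yc e e' '' E := by
    ext r
    constructor
    · rintro ⟨⟨τ, hτ, rfl⟩, hr⟩
      obtain ⟨l, hl⟩ := exists_shift (D.hγ i) p (xc e e' τ)
      refine ⟨τ + l * (γ i * e), ⟨D.TT_addH hτ l, ?_, ?_⟩, ?_⟩
      · rwa [map_add, hxe]
      · rwa [map_add, hye, add_zero]
      · rw [map_add, hye, add_zero]
    · rintro ⟨τ, hτ, rfl⟩
      exact ⟨⟨τ, hτ.1, rfl⟩, hτ.2.2⟩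
  rw [h1, h2, InjOn.ncard_image, InjOn.ncard_image]
  · intro τ hτ σ hσ h
    obtain ⟨l, hl⟩ := D.TT_eq_of_yc hτ.1 hσ.1 h
    have h3 : l = 0 := by
      apply shift_unique (D.hγ i) hτ.2.1
      rw [← hxe, ← map_add, ← hl]
      exact hσ.2.1
    rw [hl, h3]
    simp
  · intro τ hτ σ hσ h
    obtain ⟨l, hl⟩ := D.TT_eq_of_xc hτ.1 hσ.1 h
    have h3 : l = 0 := by
      apply shift_unique (D.hδ j) hτ.2.2
      rw [← hye', ← map_add, ← hl]
      exact hσ.2.2
    rw [hl, h3]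
    simp

/-- The intersection matrix. -/
theorem exists_I [T2Space X] [Fintype m] [Fintype n] : ∃ I : m → n → ℕ,
    (∀ i, ∑ j, I i j * W j = γ i) ∧ (∀ j, ∑ i, I i j * H i = δ j) ∧
    ∀ i j, (TT e e' γ a δ a' f g i j).Nonempty → 0 < I i j := by
  have hp : ∀ i, ∃ p, p ∈ PH e e' H δ a' f g i := fun i => (D.crossH i).P_nonempty
  have hq : ∀ j, ∃ q, q ∈ PV e e' γ a W f g j := fun j => (D.crossV j).P_nonempty
  choose p hp using hp
  choose q hq using hq
  have hp' : ∀ i, p i + γ i ∈ PH e e' H δ a' f g i := by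
    intro i
    have h1 := (D.crossH i).P_periodic (hp i) 1
    have h2 : (-xc e e') (-(γ i * e)) = γ i := by
      show -(xc e e' (-(γ i * e))) = _
      rw [map_neg, xc_e D.hκ, neg_neg]
    rwa [h2, Int.cast_one, one_mul] at h1
  have hq' : ∀ j, q j + δ j ∈ PV e e' γ a W f g j := by
    intro j
    have h1 := (D.crossV j).P_periodic (hq j) 1
    rwa [yc_e' D.hκ, Int.cast_one, one_mul] at h1
  have hcH := fun i => (D.crossH i).count (hp i) (hp' i) (by linarith [D.hγ i])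
  have hcV := fun j => (D.crossV j).count (hq j) (hq' j) (by linarith [D.hδ j])
  refine ⟨fun i j => (Crossing.A (fun j => (δ j : ℂ) * e') a' g (-xc e e') (yc e e') 0 (H i)
    (f i) j ∩ Ico (p i) (p i + γ i)).ncard, fun i => ?_, fun j => ?_, fun i j hT => ?_⟩
  · rw [← (hcH i).2]
    ring
  · simp only [D.ncard_eq _ j _ (q j)]
    rw [← (hcV j).2]
    ring
  · obtain ⟨τ, hτ⟩ := hT
    obtain ⟨l, hl⟩ := exists_shift (D.hγ i) (p i) (xc e e' τ)
    rw [ncard_pos ((hcH i).1 j)]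
    refine ⟨xc e e' τ + l * γ i, ?_, hl⟩
    rw [D.AH]
    refine ⟨_, D.TT_addH hτ l, ?_⟩
    have : (l : ℂ) * (γ i * e) = ((l * γ i : ℝ) : ℂ) * e := by push_cast; ring
    rw [map_add, this, xc_e D.hκ]

end Data

end Two

end Pool.Agent.Lib.MP_755177_an
end

section
set_option autoImplicit false

/-!
# Two transverse complete families of parallel cylinders: the complement of the cylinders
-/

open Set Filter Topology Complex Metric
open scoped MatrixGroups ComplexConjugate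

namespace Pool.Agent.Lib.MP_755177_an

namespace Two

variable {X : Type*} [TopologicalSpace X]

/-- A connected surface is not disconnected by finitely many points. -/
theorem sep [T1Space X] [ConnectedSpace X] (hX : Patch.PuncConn X) {U V : Set X} (hU : IsOpen U)
    (hV : IsOpen V) (hd : Disjoint U V) (hfin : ((U ∪ V)ᶜ).Finite) (hne : U.Nonempty) :
    V = ∅ := by
  have hopen : ∀ U : Set X, IsOpen U → IsOpen {x | U ∪ {x} ∈ 𝓝 x} := by
    intro U hU
    rw [isOpen_iff_mem_nhds]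
    intro x hx
    filter_upwards [hx] with y hy
    rcases hy with hy | hy
    · exact mem_of_superset (hU.mem_nhds hy) subset_union_left
    · rw [mem_singleton_iff.mp hy]
      exact hx
  have hcov : ∀ x, U ∪ {x} ∈ 𝓝 x ∨ V ∪ {x} ∈ 𝓝 x := by
    intro x
    have hN : ((U ∪ V)ᶜ \ {x})ᶜ ∈ 𝓝 x :=
      (hfin.subset sdiff_subset).isClosed.isOpen_compl.mem_nhds fun h => h.2 rfl
    obtain ⟨N, hNo, hxN, hNs, hNc⟩ := hX x _ hN
    have h1 : N \ {x} ⊆ U ∪ V := by
      rintro y ⟨hy, hyx⟩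
      by_contra hy2
      exact hNs hy ⟨hy2, hyx⟩
    have h2 := isPreconnected_iff_subset_of_disjoint.mp hNc.isPreconnected U V hU hV h1 (by
      rw [hd.inter_eq, inter_empty])
    rcases h2 with h2 | h2
    · left
      refine mem_of_superset (hNo.mem_nhds hxN) fun y hy => ?_
      by_cases hyx : y = x
      · exact Or.inr hyx
      · exact Or.inl (h2 ⟨hy, hyx⟩)
    · right
      refine mem_of_superset (hNo.mem_nhds hxN) fun y hy => ?_
      by_cases hyx : y = x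
      · exact Or.inr hyx
      · exact Or.inl (h2 ⟨hy, hyx⟩)
  have hdisj : ∀ x, U ∪ {x} ∈ 𝓝 x → V ∪ {x} ∈ 𝓝 x → False := by
    intro x h1 h2
    have h3 : {x} ∈ 𝓝 x := by
      filter_upwards [h1, h2] with y h3 h4
      rcases h3 with h3 | h3
      · rcases h4 with h4 | h4
        · exact (disjoint_left.mp hd h3 h4).elim
        · exact h4
      · exact h3
    have h4 := hX.neBot x
    have h5 : (∅ : Set X) ∈ 𝓝[≠] x := by
      have h6 : {x} ∈ 𝓝[≠] x := mem_nhdsWithin_of_mem_nhds h3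
      filter_upwards [h6, self_mem_nhdsWithin] with y h7 h8
      exact h8 h7
    exact h4.ne (empty_mem_iff_bot.mp h5)
  have hcl : IsClopen {x | U ∪ {x} ∈ 𝓝 x} := by
    refine ⟨?_, hopen U hU⟩
    rw [← isOpen_compl_iff]
    convert hopen V hV using 1
    ext x
    constructor
    · intro hx
      exact (hcov x).resolve_left hx
    · intro h1 h2
      exact hdisj x h2 h1
  obtain ⟨x, hx⟩ := hne
  have h1 := hcl.eq_univ ⟨x, mem_of_superset (hU.mem_nhds hx) subset_union_left⟩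
  by_contra hVne
  obtain ⟨y, hy⟩ := nonempty_iff_ne_empty.mpr hVne
  have h2 : y ∈ {x | U ∪ {x} ∈ 𝓝 x} := by rw [h1]; trivial
  exact hdisj y h2 (mem_of_superset (hV.mem_nhds hy) subset_union_left)

namespace Data

variable {M : MSurf X} {m n : Type} {e e' : ℂ} {γ a H : m → ℝ} {δ a' W : n → ℝ}
    {f : m → ℂ → X} {g : n → ℂ → X} (D : Data M e e' γ a H δ a' W f g)

include D

/-- Lifting an ultrafilter to the closed strip. -/
theorem lift [CompactSpace X] [T2Space X] (i : m) {α : Type*} {ψ : α → X} (𝒰 : Ultrafilter α)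
    {q : X} (hψ : Tendsto ψ 𝒰 (𝓝 q))
    (hmem : ∀ᶠ x in (𝒰 : Filter α), ψ x ∈ f i '' Strip (γ i * e) (a i)) :
    ∃ (ζ : α → ℂ) (z0 : ℂ), (∀ᶠ x in (𝒰 : Filter α), ζ x ∈ Strip (γ i * e) (a i) ∧
      f i (ζ x) = ψ x) ∧ Tendsto ζ 𝒰 (𝓝 z0) ∧ z0 ∈ closure (Strip (γ i * e) (a i)) ∧
      Tendsto (f i) (𝓝[Strip (γ i * e) (a i)] z0) (𝓝 q) ∧ xc e e' z0 ∈ Icc 0 (γ i) := by
  have h1 : ∀ x, ∃ z, ψ x ∈ f i '' Strip (γ i * e) (a i) →
      z ∈ Strip (γ i * e) (a i) ∧ f i z = ψ x ∧ xc e e' z ∈ Icc 0 (γ i) := by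
    intro x
    by_cases hx : ψ x ∈ f i '' Strip (γ i * e) (a i)
    · obtain ⟨w, hw, hwx⟩ := hx
      obtain ⟨l, hl⟩ := exists_shift (D.hγ i) 0 (xc e e' w)
      have h2 := D.perH i l hw
      refine ⟨w + l * (γ i * e), fun _ => ⟨h2.1, h2.2.trans hwx, ?_⟩⟩
      have : (l : ℂ) * (γ i * e) = ((l * γ i : ℝ) : ℂ) * e := by push_cast; ring
      rw [map_add, this, xc_e D.hκ]
      rw [zero_add] at hl
      exact ⟨hl.1, hl.2.le⟩
    · exact ⟨0, fun h => absurd h hx⟩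
  choose ζ hζ using h1
  set K : Set ℂ := (fun p : ℝ × ℝ => (p.1 : ℂ) * e + (p.2 : ℂ) * e') ''
    (Icc 0 (γ i) ×ˢ Icc 0 (H i)) with hK
  have hKc : IsCompact K := (isCompact_Icc.prod isCompact_Icc).image (by fun_prop)
  have hev : ∀ᶠ x in (𝒰 : Filter α), ζ x ∈ Strip (γ i * e) (a i) ∧ f i (ζ x) = ψ x ∧
      xc e e' (ζ x) ∈ Icc 0 (γ i) := by
    filter_upwards [hmem] with x hx
    exact hζ x hx
  have hKm : K ∈ 𝒰.map ζ := by
    rw [Ultrafilter.mem_map]
    show ∀ᶠ x in (𝒰 : Filter α), ζ x ∈ K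
    filter_upwards [hev] with x hx
    have h2 := (D.memH i _).mp hx.1
    exact ⟨(xc e e' (ζ x), yc e e' (ζ x)), ⟨hx.2.2, h2.1.le, h2.2.le⟩, (eq_coord D.hκ _).symm⟩
  obtain ⟨z0, hz0, hle⟩ := hKc.ultrafilter_le_nhds' _ hKm
  have ht : Tendsto ζ 𝒰 (𝓝 z0) := hle
  have htS : Tendsto ζ 𝒰 (𝓝[Strip (γ i * e) (a i)] z0) := by
    refine tendsto_nhdsWithin_iff.mpr ⟨ht, ?_⟩
    filter_upwards [hev] with x hx
    exact hx.1
  have hcl : z0 ∈ closure (Strip (γ i * e) (a i)) :=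
    mem_closure_iff_nhdsWithin_neBot.mpr (NeBot.mono (by infer_instance : (map ζ 𝒰).NeBot) htS)
  obtain ⟨q', hq'⟩ := MSurf.exists_lim (D.hf.cyl i).tr.1 (convex_Strip _ _) hcl
  have h3 : q' = q := by
    refine tendsto_nhds_unique (hq'.comp htS) (hψ.congr' ?_)
    filter_upwards [hev] with x hx
    exact hx.2.1.symm
  refine ⟨ζ, z0, ?_, ht, hcl, h3 ▸ hq', ?_⟩
  · filter_upwards [hev] with x hx
    exact ⟨hx.1, hx.2.1⟩
  · obtain ⟨p, hp, hpz⟩ := hz0
    rw [← hpz, xc_coord D.hκ]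
    exact hp.1

/-- The position of a boundary point. -/
theorem bd [T2Space X] (i : m) {z0 : ℂ} (hz0 : z0 ∈ closure (Strip (γ i * e) (a i))) {q : X}
    (hq : Tendsto (f i) (𝓝[Strip (γ i * e) (a i)] z0) (𝓝 q))
    (h1 : q ∉ f i '' Strip (γ i * e) (a i)) (h2 : ∀ j, q ∉ g j '' Strip (δ j * e') (a' j)) :
    -xc e e' z0 ∈ PH e e' H δ a' f g i ∧ (yc e e' z0 = 0 ∨ yc e e' z0 = H i) := by
  constructor
  · rw [D.stripH_eq] at hz0 hq
    exact (D.crossH i).lim_mem hz0 hq h2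
  · have h3 : z0 ∉ Strip (γ i * e) (a i) := by
      intro h3
      have h4 := ((D.hf.cyl i).tr.continuousOn z0 h3).tendsto
      have hne : (𝓝[Strip (γ i * e) (a i)] z0).NeBot := mem_closure_iff_nhdsWithin_neBot.mp hz0
      exact h1 ⟨z0, h3, tendsto_nhds_unique h4 hq⟩
    have h4 : z0 ∈ {z | 0 ≤ yc e e' z ∧ yc e e' z ≤ H i} := by
      have hcl : IsClosed {z | 0 ≤ yc e e' z ∧ yc e e' z ≤ H i} :=
        (isClosed_le continuous_const (yc e e').continuous).inter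
          (isClosed_le (yc e e').continuous continuous_const)
      refine hcl.closure_subset_iff.mpr ?_ hz0
      intro z hz
      have := (D.memH i z).mp hz
      exact ⟨this.1.le, this.2.le⟩
    rw [D.memH] at h3
    rcases h4.1.eq_or_lt with h5 | h5
    · exact Or.inl h5.symm
    · rcases h4.2.eq_or_lt with h6 | h6
      · exact Or.inr h6
      · exact absurd ⟨h5, h6⟩ h3

theorem compl_finite [CompactSpace X] [T2Space X] [Fintype m] [Fintype n] :
    (((⋃ i, f i '' Strip (γ i * e) (a i)) ∪ ⋃ j, g j '' Strip (δ j * e') (a' j))ᶜ).Finite := by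
  have h1 : ∀ i, {z : ℂ | xc e e' z ∈ Icc 0 (γ i) ∧ -xc e e' z ∈ PH e e' H δ a' f g i ∧
      (yc e e' z = 0 ∨ yc e e' z = H i)}.Finite := by
    intro i
    have h2 := (D.crossH i).finite_P_Icc (-γ i) 0
    refine ((h2.prod ((finite_singleton (H i)).insert 0)).image
      (fun p : ℝ × ℝ => ((-p.1 : ℝ) : ℂ) * e + (p.2 : ℂ) * e')).subset ?_
    rintro z ⟨hz1, hz2, hz3⟩
    refine ⟨(-xc e e' z, yc e e' z), ⟨⟨hz2, ?_, ?_⟩, hz3⟩, ?_⟩
    · show -γ i ≤ -xc e e' z
      linarith [hz1.2]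
    · show -xc e e' z ≤ 0
      linarith [hz1.1]
    · show ((- -xc e e' z : ℝ) : ℂ) * e + (yc e e' z : ℂ) * e' = z
      rw [neg_neg]
      exact (eq_coord D.hκ z).symm
  have h2 : (⋃ i, ⋃ z ∈ {z : ℂ | xc e e' z ∈ Icc 0 (γ i) ∧ -xc e e' z ∈ PH e e' H δ a' f g i ∧
      (yc e e' z = 0 ∨ yc e e' z = H i)}, {x : X | z ∈ closure (Strip (γ i * e) (a i)) ∧
      Tendsto (f i) (𝓝[Strip (γ i * e) (a i)] z) (𝓝 x)}).Finite := by
    refine finite_iUnion fun i => (h1 i).biUnion fun z _ => Set.Subsingleton.finite ?_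
    rintro x ⟨hz, hx⟩ y ⟨-, hy⟩
    have hne : (𝓝[Strip (γ i * e) (a i)] z).NeBot := mem_closure_iff_nhdsWithin_neBot.mp hz
    exact tendsto_nhds_unique hx hy
  refine h2.subset fun x hx => ?_
  simp only [mem_compl_iff, mem_union, not_or, mem_iUnion, not_exists] at hx
  have h3 : x ∈ ⋃ i, closure (f i '' Strip (γ i * e) (a i)) := by
    rw [D.hf.cover]
    trivial
  obtain ⟨i, hi⟩ := mem_iUnion.mp h3
  obtain ⟨u, hu, hux⟩ := mem_closure_iff_ultrafilter.mp hi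
  obtain ⟨ζ, z0, -, -, e1, e2, e3⟩ := D.lift i (ψ := id) u (q := x) hux hu
  have h4 := D.bd i e1 e2 (hx.1 i) hx.2
  exact mem_iUnion.mpr ⟨i, mem_iUnion₂.mpr ⟨z0, ⟨e3, h4.1, h4.2⟩, e1, e2⟩⟩

theorem isOpen_imH (i : m) : IsOpen (f i '' Strip (γ i * e) (a i)) := by
  rw [isOpen_iff_mem_nhds]
  rintro _ ⟨z, hz, rfl⟩
  rw [← Patch.IsTr.map_nhds (D.hf.cyl i).tr (isOpen_Strip _ _) hz]
  exact image_mem_map ((isOpen_Strip _ _).mem_nhds hz)

theorem isOpen_imV (j : n) : IsOpen (g j '' Strip (δ j * e') (a' j)) := by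
  rw [isOpen_iff_mem_nhds]
  rintro _ ⟨z, hz, rfl⟩
  rw [← Patch.IsTr.map_nhds (D.hg.cyl j).tr (isOpen_Strip _ _) hz]
  exact image_mem_map ((isOpen_Strip _ _).mem_nhds hz)

theorem nonempty_imH (i : m) : (f i '' Strip (γ i * e) (a i)).Nonempty := by
  refine ⟨_, ((H i / 2 : ℝ) : ℂ) * e', ?_, rfl⟩
  rw [D.memH, yc_e' D.hκ]
  have := D.Hpos i
  constructor <;> linarith

omit [TopologicalSpace X] D in
theorem TT_nonempty {i : m} {j : n} {x : X} (h1 : x ∈ f i '' Strip (γ i * e) (a i))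
    (h2 : x ∈ g j '' Strip (δ j * e') (a' j)) : (TT e e' γ a δ a' f g i j).Nonempty := by
  obtain ⟨z, hz, hzx⟩ := h1
  obtain ⟨w, hw, hwx⟩ := h2
  refine ⟨w - z, z, hz, ?_, ?_⟩
  · rwa [add_sub_cancel]
  · rw [add_sub_cancel, hzx, hwx]

/-- Irreducibility of the intersection matrix. -/
theorem irred [CompactSpace X] [T2Space X] [ConnectedSpace X] [Fintype m] [Fintype n]
    {I : m → n → ℕ} (hI : ∀ i j, (TT e e' γ a δ a' f g i j).Nonempty → 0 < I i j) (s : Set m)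
    (hs : s.Nonempty) (h : ∀ i ∈ s, ∀ j, 0 < I i j → ∀ i', 0 < I i' j → i' ∈ s) : s = univ := by
  set J : Set n := {j | ∃ i ∈ s, 0 < I i j} with hJ
  set U : Set X := (⋃ i ∈ s, f i '' Strip (γ i * e) (a i)) ∪
    ⋃ j ∈ J, g j '' Strip (δ j * e') (a' j) with hU
  set V : Set X := (⋃ i ∈ sᶜ, f i '' Strip (γ i * e) (a i)) ∪
    ⋃ j ∈ Jᶜ, g j '' Strip (δ j * e') (a' j) with hV
  have hUo : IsOpen U := (isOpen_biUnion fun i _ => D.isOpen_imH i).union
    (isOpen_biUnion fun j _ => D.isOpen_imV j)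
  have hVo : IsOpen V := (isOpen_biUnion fun i _ => D.isOpen_imH i).union
    (isOpen_biUnion fun j _ => D.isOpen_imV j)
  have hd : Disjoint U V := by
    rw [disjoint_left]
    rintro x (hx | hx) (hy | hy)
    · obtain ⟨i, hi, hxi⟩ := mem_iUnion₂.mp hx
      obtain ⟨k, hk, hxk⟩ := mem_iUnion₂.mp hy
      exact disjoint_left.mp (D.hf.disj i k fun hik => hk (hik ▸ hi)) hxi hxk
    · obtain ⟨i, hi, hxi⟩ := mem_iUnion₂.mp hx
      obtain ⟨j, hj, hxj⟩ := mem_iUnion₂.mp hy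
      exact hj ⟨i, hi, hI i j (TT_nonempty hxi hxj)⟩
    · obtain ⟨j, hj, hxj⟩ := mem_iUnion₂.mp hx
      obtain ⟨k, hk, hxk⟩ := mem_iUnion₂.mp hy
      obtain ⟨i, hi, hij⟩ := hj
      exact hk (h i hi j hij k (hI k j (TT_nonempty hxk hxj)))
    · obtain ⟨j, hj, hxj⟩ := mem_iUnion₂.mp hx
      obtain ⟨k, hk, hxk⟩ := mem_iUnion₂.mp hy
      exact disjoint_left.mp (D.hg.disj j k fun hjk => hk (hjk ▸ hj)) hxj hxk
  have hfin : ((U ∪ V)ᶜ).Finite := by
    refine D.compl_finite.subset (compl_subset_compl.mpr ?_)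
    rintro x (hx | hx)
    · obtain ⟨i, hi⟩ := mem_iUnion.mp hx
      by_cases his : i ∈ s
      · exact Or.inl (Or.inl (mem_iUnion₂.mpr ⟨i, his, hi⟩))
      · exact Or.inr (Or.inl (mem_iUnion₂.mpr ⟨i, his, hi⟩))
    · obtain ⟨j, hj⟩ := mem_iUnion.mp hx
      by_cases hjs : j ∈ J
      · exact Or.inl (Or.inr (mem_iUnion₂.mpr ⟨j, hjs, hj⟩))
      · exact Or.inr (Or.inr (mem_iUnion₂.mpr ⟨j, hjs, hj⟩))
  obtain ⟨i, hi⟩ := hs
  have hUn : U.Nonempty := by
    obtain ⟨x, hx⟩ := D.nonempty_imH i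
    exact ⟨x, Or.inl (mem_iUnion₂.mpr ⟨i, hi, hx⟩)⟩
  have hVe := sep (Patch.puncConn M.toTransStr) hUo hVo hd hfin hUn
  ext k
  refine ⟨fun _ => trivial, fun _ => ?_⟩
  by_contra hk
  obtain ⟨x, hx⟩ := D.nonempty_imH k
  have : x ∈ V := Or.inl (mem_iUnion₂.mpr ⟨k, hk, hx⟩)
  rw [hVe] at this
  exact this

end Data

end Two

end Pool.Agent.Lib.MP_755177_an
end

section
set_option autoImplicit false

/-!
# Two transverse complete families of parallel cylinders: holonomies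
-/

open Set Filter Topology Complex Metric
open scoped MatrixGroups ComplexConjugate

namespace Pool.Agent.Lib.MP_755177_an

namespace Two

variable {X : Type*} [TopologicalSpace X]

/-- The group of the vectors with coordinates in the groups generated by the widths and by the
heights. -/
noncomputable def Lam {m n : Type} (e e' : ℂ) (H : m → ℝ) (W : n → ℝ) : AddSubgroup ℂ :=
  (AddSubgroup.closure (range W)).comap (xc e e').toLinearMap.toAddMonoidHom ⊓
    (AddSubgroup.closure (range H)).comap (yc e e').toLinearMap.toAddMonoidHom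

theorem mem_Lam {m n : Type} {e e' : ℂ} {H : m → ℝ} {W : n → ℝ} {z : ℂ} : z ∈ Lam e e' H W ↔
    xc e e' z ∈ AddSubgroup.closure (range W) ∧ yc e e' z ∈ AddSubgroup.closure (range H) :=
  Iff.rfl

/-- `z` is a coordinate of the point `p`. -/
def Crd {m n : Type} (e e' : ℂ) (γ a : m → ℝ) (δ a' : n → ℝ) (f : m → ℂ → X) (g : n → ℂ → X)
    (p : X) (z : ℂ) : Prop :=
  (∃ i, z ∈ Strip (γ i * e) (a i) ∧ f i z = p) ∨ ∃ j, z ∈ Strip (δ j * e') (a' j) ∧ g j z = p

/-- The families are normalised: there are marked points at the origin. -/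
def Norm (M : MSurf X) {m n : Type} (e e' : ℂ) (γ a : m → ℝ) (δ a' : n → ℝ) (f : m → ℂ → X)
    (g : n → ℂ → X) : Prop :=
  (∀ i, ∃ q ∈ M.Sg, Tendsto (f i) (𝓝[Strip (γ i * e) (a i)] 0) (𝓝 q)) ∧
    ∀ j, ∃ q ∈ M.Sg, Tendsto (g j) (𝓝[Strip (δ j * e') (a' j)] 0) (𝓝 q)

theorem cr_I_mul (w : ℂ) (r : ℝ) (hw : w ≠ 0) :
    cr w ((r / (w.re * w.re + w.im * w.im) : ℝ) * (Complex.I * w)) = r := by
  have hn : 0 < w.re * w.re + w.im * w.im := by
    have := Complex.normSq_pos.mpr hw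
    rwa [Complex.normSq_apply] at this
  have h1 : cr w (Complex.I * w) = w.re * w.re + w.im * w.im := by
    rw [cr_eq]
    simp only [Complex.mul_re, Complex.mul_im, Complex.I_re, Complex.I_im]
    ring
  rw [cr_rmul, h1, div_mul_cancel₀ _ hn.ne']

/-- A boundary point of the strip is in its closure. -/
theorem mem_closure_strip {w z : ℂ} {b : ℝ} (hw : w ≠ 0) (hb : 0 < b)
    (hz : 0 ≤ cr w z ∧ cr w z ≤ b) : z ∈ closure (Strip w b) := by
  set u : ℂ := ((b / 2 - cr w z) / (w.re * w.re + w.im * w.im) : ℝ) * (Complex.I * w) with hu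
  have h1 : cr w u = b / 2 - cr w z := cr_I_mul w _ hw
  rw [mem_closure_iff_seq_limit]
  refine ⟨fun k => z + ((1 / ((k : ℝ) + 1) : ℝ) : ℂ) * u, fun k => ?_, ?_⟩
  · have h2 : (0 : ℝ) < 1 / ((k : ℝ) + 1) := by positivity
    have h3 : 1 / ((k : ℝ) + 1) ≤ 1 := by
      rw [div_le_one (by positivity)]
      linarith [(Nat.cast_nonneg k : (0 : ℝ) ≤ k)]
    show 0 < cr w _ ∧ cr w _ < b
    rw [cr_add, cr_rmul, h1]
    constructor <;> nlinarith
  · have h2 : Tendsto (fun k : ℕ => 1 / ((k : ℝ) + 1)) atTop (𝓝 0) :=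
      tendsto_one_div_add_atTop_nhds_zero_nat
    have h3 := (((Complex.continuous_ofReal.tendsto _).comp h2).mul_const u).const_add z
    simpa using h3

theorem closure_sub {ι : Type} {W : ι → ℝ} {P : Set ℝ}
    (h : ∀ p ∈ P, ∀ q ∈ P, p ≤ q → q - p ∈ AddSubmonoid.closure (range W)) {p q : ℝ}
    (hp : p ∈ P) (hq : q ∈ P) : q - p ∈ AddSubgroup.closure (range W) := by
  have hle : ∀ x, x ∈ AddSubmonoid.closure (range W) → x ∈ AddSubgroup.closure (range W) := by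
    intro x hx
    have h1 : AddSubmonoid.closure (range W) ≤ (AddSubgroup.closure (range W)).toAddSubmonoid :=
      AddSubmonoid.closure_le.mpr AddSubgroup.subset_closure
    exact h1 hx
  rcases le_total p q with h1 | h1
  · exact hle _ (h p hp q hq h1)
  · have h2 := hle _ (h q hq p hp h1)
    have h3 := neg_mem h2
    rwa [neg_sub] at h3

namespace Data

variable {M : MSurf X} {m n : Type} {e e' : ℂ} {γ a H : m → ℝ} {δ a' W : n → ℝ}
    {f : m → ℂ → X} {g : n → ℂ → X} (D : Data M e e' γ a H δ a' W f g)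
    (N : Norm M e e' γ a δ a' f g)

include D

theorem sg_notMemH {i : m} {q : X} (hq : q ∈ M.Sg) : q ∉ f i '' Strip (γ i * e) (a i) := by
  rintro ⟨z, hz, rfl⟩
  exact (D.hf.cyl i).tr.2 z hz hq

theorem sg_notMemV {j : n} {q : X} (hq : q ∈ M.Sg) : q ∉ g j '' Strip (δ j * e') (a' j) := by
  rintro ⟨z, hz, rfl⟩
  exact (D.hg.cyl j).tr.2 z hz hq

theorem subH [T2Space X] [Fintype n] {i : m} {p q : ℝ} (hp : p ∈ PH e e' H δ a' f g i)
    (hq : q ∈ PH e e' H δ a' f g i) : q - p ∈ AddSubgroup.closure (range W) :=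
  closure_sub (fun _ hp _ hq hpq => (D.crossH i).sub_mem_closure hp hq hpq) hp hq

theorem subV [T2Space X] [Fintype m] {j : n} {p q : ℝ} (hp : p ∈ PV e e' γ a W f g j)
    (hq : q ∈ PV e e' γ a W f g j) : q - p ∈ AddSubgroup.closure (range H) :=
  closure_sub (fun _ hp _ hq hpq => (D.crossV j).sub_mem_closure hp hq hpq) hp hq

theorem PH_add {i : m} {p : ℝ} (hp : p ∈ PH e e' H δ a' f g i) (k : ℤ) :
    p + k * γ i ∈ PH e e' H δ a' f g i := by
  have h1 := (D.crossH i).P_periodic hp k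
  have h2 : (-xc e e') (-(γ i * e)) = γ i := by
    show -(xc e e' (-(γ i * e))) = _
    rw [map_neg, xc_e D.hκ, neg_neg]
  rwa [h2] at h1

theorem PV_add {j : n} {p : ℝ} (hp : p ∈ PV e e' γ a W f g j) (k : ℤ) :
    p + k * δ j ∈ PV e e' γ a W f g j := by
  have h1 := (D.crossV j).P_periodic hp k
  rwa [yc_e' D.hκ] at h1

theorem zero_mem_closureH (i : m) : (0 : ℂ) ∈ closure (Strip (γ i * e) (a i)) :=
  mem_closure_strip (D.hf.cyl i).ne (D.hf.cyl i).pos
    (by rw [cr_zero]; exact ⟨le_rfl, (D.hf.cyl i).pos.le⟩)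

theorem zero_mem_closureV (j : n) : (0 : ℂ) ∈ closure (Strip (δ j * e') (a' j)) :=
  mem_closure_strip (D.hg.cyl j).ne (D.hg.cyl j).pos
    (by rw [cr_zero]; exact ⟨le_rfl, (D.hg.cyl j).pos.le⟩)

include N

theorem zero_memH [T2Space X] (i : m) : (0 : ℝ) ∈ PH e e' H δ a' f g i := by
  obtain ⟨q, hq, hl⟩ := N.1 i
  have h1 := (D.bd i (D.zero_mem_closureH i) hl (D.sg_notMemH hq) fun j => D.sg_notMemV hq).1
  rwa [map_zero, neg_zero] at h1

theorem zero_memV [T2Space X] (j : n) : (0 : ℝ) ∈ PV e e' γ a W f g j := by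
  obtain ⟨q, hq, hl⟩ := N.2 j
  have hz0 := D.zero_mem_closureV j
  rw [D.stripV_eq] at hz0 hl
  have h1 := (D.crossV j).lim_mem hz0 hl fun i => D.sg_notMemH hq
  rwa [map_zero] at h1

/-- Statement (D). -/
theorem transition [T2Space X] [Fintype m] [Fintype n] {i : m} {j : n} {τ : ℂ}
    (hτ : τ ∈ TT e e' γ a δ a' f g i j) : ∃ s ∈ AddSubmonoid.closure (range W),
    ∃ σ ∈ AddSubmonoid.closure (range H), ∃ k l : ℤ, 0 ≤ s ∧ s < γ i ∧ 0 ≤ σ ∧ σ < δ j ∧
      τ = (k * γ i - s : ℝ) * e + (σ + l * δ j : ℝ) * e' := by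
  have h1 := D.xc_mem_PH hτ
  have h2 := D.yc_mem_PV hτ
  obtain ⟨k, hk⟩ := exists_shift (D.hγ i) 0 (-xc e e' τ)
  obtain ⟨l, hl⟩ := exists_shift (D.hδ j) 0 (yc e e' τ)
  rw [zero_add] at hk hl
  have hγ := D.hγ i
  have hδ := D.hδ j
  have h3 := D.PH_add (D.zero_memH N i) k
  have h4 := D.PV_add (D.zero_memV N j) (-l)
  rw [zero_add] at h3 h4
  refine ⟨k * γ i - xc e e' τ, (D.crossH i).sub_mem_closure h1 h3 (by linarith [hk.1]),
    yc e e' τ - (-l : ℤ) * δ j, (D.crossV j).sub_mem_closure h4 h2 ?_, k, -l, by linarith [hk.1],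
    by linarith [hk.2], ?_, ?_, ?_⟩
  · push_cast
    linarith [hl.1]
  · push_cast
    linarith [hl.1]
  · push_cast
    linarith [hl.2]
  · have h5 : ((k * γ i - (k * γ i - xc e e' τ) : ℝ) : ℂ) = xc e e' τ := by push_cast; ring
    have h6 : ((yc e e' τ - (-l : ℤ) * δ j + (-l : ℤ) * δ j : ℝ) : ℂ) = yc e e' τ := by
      push_cast; ring
    rw [h5, h6]
    exact eq_coord D.hκ τ

theorem TT_mem [T2Space X] [Fintype m] [Fintype n] {i : m} {j : n} {τ : ℂ}
    (hτ : τ ∈ TT e e' γ a δ a' f g i j) : τ ∈ Lam e e' H W := by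
  rw [mem_Lam]
  constructor
  · have := D.subH (D.zero_memH N i) (D.xc_mem_PH hτ)
    rwa [sub_zero] at this
  · have := D.subV (D.zero_memV N j) (D.yc_mem_PV hτ)
    rwa [sub_zero] at this

theorem perH_mem [T2Space X] [Fintype n] (i : m) (l : ℤ) :
    (l : ℂ) * (γ i * e) ∈ Lam e e' H W := by
  have h1 : (l : ℂ) * (γ i * e) = ((l * γ i : ℝ) : ℂ) * e := by push_cast; ring
  rw [mem_Lam, h1, xc_e D.hκ, yc_e D.hκ]
  refine ⟨?_, zero_mem _⟩
  have h2 := D.subH (D.zero_memH N i) (D.PH_add (D.zero_memH N i) l)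
  rwa [sub_zero, zero_add] at h2

theorem perV_mem [T2Space X] [Fintype m] (j : n) (l : ℤ) :
    (l : ℂ) * (δ j * e') ∈ Lam e e' H W := by
  have h1 : (l : ℂ) * (δ j * e') = ((l * δ j : ℝ) : ℂ) * e' := by push_cast; ring
  rw [mem_Lam, h1, xc_e' D.hκ, yc_e' D.hκ]
  refine ⟨zero_mem _, ?_⟩
  have h2 := D.subV (D.zero_memV N j) (D.PV_add (D.zero_memV N j) l)
  rwa [sub_zero, zero_add] at h2

/-- Two coordinates of a point differ by an element of the group. -/
theorem crd_sub [T2Space X] [Fintype m] [Fintype n] {p : X} {z z' : ℂ}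
    (h : Crd e e' γ a δ a' f g p z) (h' : Crd e e' γ a δ a' f g p z') :
    z' - z ∈ Lam e e' H W := by
  rcases h with ⟨i, hi, hp⟩ | ⟨j, hj, hp⟩
  · rcases h' with ⟨i', hi', hp'⟩ | ⟨j', hj', hp'⟩
    · have h1 : i = i' := by
        by_contra hne
        exact disjoint_left.mp (D.hf.disj i i' hne) ⟨z, hi, hp⟩ ⟨z', hi', hp'⟩
      subst h1
      obtain ⟨l, hl⟩ := ((D.hf.cyl i).inj z hi z' hi').mp (hp.trans hp'.symm)
      rw [hl, add_sub_cancel_left]
      exact D.perH_mem N i l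
    · apply D.TT_mem N (i := i) (j := j')
      refine ⟨z, hi, ?_, ?_⟩
      · rwa [add_sub_cancel]
      · rw [add_sub_cancel, hp, hp']
  · rcases h' with ⟨i', hi', hp'⟩ | ⟨j', hj', hp'⟩
    · rw [← neg_sub]
      apply neg_mem
      apply D.TT_mem N (i := i') (j := j)
      refine ⟨z', hi', ?_, ?_⟩
      · rwa [add_sub_cancel]
      · rw [add_sub_cancel, hp, hp']
    · have h1 : j = j' := by
        by_contra hne
        exact disjoint_left.mp (D.hg.disj j j' hne) ⟨z, hj, hp⟩ ⟨z', hj', hp'⟩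
      subst h1
      obtain ⟨l, hl⟩ := ((D.hg.cyl j).inj z hj z' hj').mp (hp.trans hp'.symm)
      rw [hl, add_sub_cancel_left]
      exact D.perV_mem N j l

omit N in
/-- Coordinates along a translation map. -/
theorem crd_shift [T2Space X] {h : ℂ → X} {S : Set ℂ} (hh : M.IsTr h S) (hS : IsOpen S) {z : ℂ}
    (hz : z ∈ S) {y : ℂ} (hy : Crd e e' γ a δ a' f g (h z) y) :
    ∀ᶠ z' in 𝓝 z, Crd e e' γ a δ a' f g (h z') (z' + (y - z)) := by
  have key : ∀ (v : ℂ) (b : ℝ) (k : ℂ → X), M.IsTr k (Strip v b) → y ∈ Strip v b → k y = h z →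
      ∀ᶠ z' in 𝓝 z, z' + (y - z) ∈ Strip v b ∧ k (z' + (y - z)) = h z' := by
    intro v b k hk hyS hkz
    have h1 : IsOpen (S ∩ {z' | z' + (y - z) ∈ Strip v b}) := hS.inter (Crossing.isOpen_shift _ _ _)
    have h2 : z ∈ S ∩ {z' | z' + (y - z) ∈ Strip v b} := by
      refine ⟨hz, ?_⟩
      show z + (y - z) ∈ Strip v b
      rwa [add_sub_cancel]
    have h3 := ((hk.comp_add (y - z)).mono inter_subset_right).eventuallyEq
      (hh.mono inter_subset_left) h2 (by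
        show k (z + (y - z)) = h z
        rw [add_sub_cancel, hkz])
    rw [h1.nhdsWithin_eq h2] at h3
    filter_upwards [h3, h1.mem_nhds h2] with z' e1 e2
    exact ⟨e2.2, e1⟩
  rcases hy with ⟨i, hi, hp⟩ | ⟨j, hj, hp⟩
  · filter_upwards [key _ _ _ (D.hf.cyl i).tr hi hp] with z' hz'
    exact Or.inl ⟨i, hz'⟩
  · filter_upwards [key _ _ _ (D.hg.cyl j).tr hj hp] with z' hz'
    exact Or.inr ⟨j, hz'⟩

omit [TopologicalSpace X] D N in
theorem exists_crd {p : X} (hp : p ∈ (⋃ i, f i '' Strip (γ i * e) (a i)) ∪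
    ⋃ j, g j '' Strip (δ j * e') (a' j)) : ∃ z, Crd e e' γ a δ a' f g p z := by
  rcases hp with hp | hp
  · obtain ⟨i, z, hz, hzp⟩ := mem_iUnion.mp hp
    exact ⟨z, Or.inl ⟨i, hz, hzp⟩⟩
  · obtain ⟨j, z, hz, hzp⟩ := mem_iUnion.mp hp
    exact ⟨z, Or.inr ⟨j, hz, hzp⟩⟩

/-- The class of the coordinate is constant along a preconnected set covered by the cylinders. -/
theorem class_const [T2Space X] [Fintype m] [Fintype n] {h : ℂ → X} {S T : Set ℂ}
    (hh : M.IsTr h S) (hS : IsOpen S) (hT : IsPreconnected T) (hTS : T ⊆ S)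
    (hcov : ∀ z ∈ T, h z ∈ (⋃ i, f i '' Strip (γ i * e) (a i)) ∪
      ⋃ j, g j '' Strip (δ j * e') (a' j)) {z : ℂ} (hz : z ∈ T) {c : ℂ}
    (hP : ∀ y, Crd e e' γ a δ a' f g (h z) y → y - z - c ∈ Lam e e' H W) :
    ∀ w ∈ T, ∀ y, Crd e e' γ a δ a' f g (h w) y → y - w - c ∈ Lam e e' H W := by
  refine preconnected_induction hT (fun w hw hPw => ?_) (fun w hw hPw y hy => ?_) hz hP
  · obtain ⟨y, hy⟩ := exists_crd (hcov w hw)
    have h1 := D.crd_shift hh hS (hTS hw) hy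
    filter_upwards [mem_nhdsWithin_of_mem_nhds h1] with w' hw' y' hy'
    have h2 := D.crd_sub N hw' hy'
    have h3 := add_mem h2 (hPw y hy)
    have h4 : y' - (w' + (y - w)) + (y - w - c) = y' - w' - c := by ring
    rwa [h4] at h3
  · have h1 := D.crd_shift hh hS (hTS hw) hy
    obtain ⟨w', h2, h3⟩ := (hPw.and_eventually (mem_nhdsWithin_of_mem_nhds h1)).exists
    have h4 := h2 _ h3
    have h5 : w' + (y - w) - w' - c = y - w - c := by ring
    rwa [h5] at h4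

omit D N in
theorem isPreconnected_punctured {z : ℂ} {r : ℝ} (hr : 0 < r) :
    IsPreconnected (ball z r \ {z}) := by
  have h1 := (Patch.isConnected_punctured_ball hr).isPreconnected
  have h2 : ball z r \ {z} = (fun y => y + z) '' (ball (0 : ℂ) r \ {0}) := by
    ext y
    constructor
    · rintro ⟨h3, h4⟩
      refine ⟨y - z, ⟨?_, ?_⟩, by ring⟩
      · rwa [mem_ball_zero_iff, ← mem_ball_iff_norm]
      · intro h5
        exact h4 (sub_eq_zero.mp h5)
    · rintro ⟨x, ⟨h3, h4⟩, rfl⟩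
      refine ⟨?_, ?_⟩
      · rw [mem_ball_iff_norm, add_sub_cancel_right]
        rwa [mem_ball_zero_iff] at h3
      · intro h5
        exact h4 (by simpa using h5)
  rw [h2]
  exact h1.image _ (by fun_prop)

omit N in
/-- The exceptional points are isolated in a cylinder. -/
theorem isolated [CompactSpace X] [T2Space X] [Fintype m] [Fintype n] {w : ℂ} {b : ℝ}
    {h : ℂ → X} (hC : M.IsCyl w b h) {z : ℂ} (hz : z ∈ Strip w b) : ∃ r > 0,
    ball z r ⊆ Strip w b ∧ ∀ y ∈ ball z r \ {z}, h y ∈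
      (⋃ i, f i '' Strip (γ i * e) (a i)) ∪ ⋃ j, g j '' Strip (δ j * e') (a' j) := by
  have hfin := D.compl_finite
  set U := (⋃ i, f i '' Strip (γ i * e) (a i)) ∪ ⋃ j, g j '' Strip (δ j * e') (a' j) with hU
  have h1 : (Uᶜ \ {h z})ᶜ ∈ 𝓝 (h z) :=
    (hfin.subset sdiff_subset).isClosed.isOpen_compl.mem_nhds fun h => h.2 rfl
  have hc : ContinuousAt h z := hC.tr.continuousOn.continuousAt ((isOpen_Strip _ _).mem_nhds hz)
  have h2 : ∀ᶠ y in 𝓝 z, y ∈ Strip w b ∧ h y ∈ (Uᶜ \ {h z})ᶜ ∧ y ∈ ball z ‖w‖ := by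
    filter_upwards [(isOpen_Strip w b).mem_nhds hz, hc.eventually h1,
      ball_mem_nhds z (norm_pos_iff.mpr hC.ne)] with y e1 e2 e3
    exact ⟨e1, e2, e3⟩
  obtain ⟨r, hr, hrb⟩ := Metric.eventually_nhds_iff_ball.mp h2
  refine ⟨r, hr, fun y hy => (hrb y hy).1, ?_⟩
  rintro y ⟨hy, hyz⟩
  obtain ⟨h3, h4, h5⟩ := hrb y hy
  by_contra hcon
  apply h4
  refine ⟨hcon, fun h6 => ?_⟩
  obtain ⟨l, hl⟩ := (hC.inj z hz y h3).mp h6.symm
  apply hyz
  rw [mem_ball_iff_norm, hl, add_sub_cancel_left, norm_mul, Complex.norm_intCast] at h5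
  have h7 : |(l : ℝ)| < 1 := by
    have := norm_pos_iff.mpr hC.ne
    by_contra h8
    push Not at h8
    nlinarith
  have h8 : l = 0 := by
    have : |l| < 1 := by exact_mod_cast h7
    exact Int.abs_lt_one_iff.mp this
  rw [hl, h8]
  simp

/-- The class of the coordinate is constant along a cylinder. -/
theorem exists_class [CompactSpace X] [T2Space X] [Fintype m] [Fintype n] {w : ℂ} {b : ℝ}
    {h : ℂ → X} (hC : M.IsCyl w b h) : ∃ c, ∀ z ∈ Strip w b, ∀ y,
    Crd e e' γ a δ a' f g (h z) y → y - z - c ∈ Lam e e' H W := by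
  classical
  set Q : ℂ → ℂ → Prop := fun c z =>
    ∀ y, Crd e e' γ a δ a' f g (h z) y → y - z - c ∈ Lam e e' H W with hQ
  have hcc : ∀ {z : ℂ} {r : ℝ} {c : ℂ}, 0 < r → ball z r ⊆ Strip w b →
      (∀ y ∈ ball z r \ {z}, h y ∈ (⋃ i, f i '' Strip (γ i * e) (a i)) ∪
        ⋃ j, g j '' Strip (δ j * e') (a' j)) → ∀ z1 ∈ ball z r \ {z}, Q c z1 →
      ∀ z2 ∈ ball z r \ {z}, Q c z2 := by
    intro z r c hr h1 h2 z1 hz1 hQ1
    exact D.class_const N hC.tr (isOpen_Strip _ _) (isPreconnected_punctured hr)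
      (sdiff_subset.trans h1) h2 hz1 hQ1
  have hne : ∀ z : ℂ, ∀ r : ℝ, 0 < r → ∃ y, y ∈ ball z r \ {z} := by
    intro z r hr
    refine ⟨z + (r / 2 : ℝ), ?_, ?_⟩
    · rw [mem_ball_iff_norm, add_sub_cancel_left, Complex.norm_real, Real.norm_eq_abs,
        abs_of_pos (by linarith)]
      linarith
    · intro h1
      rw [mem_singleton_iff, add_eq_left, Complex.ofReal_eq_zero] at h1
      linarith
  -- a point of the strip
  obtain ⟨z0, hz0⟩ : (Strip w b).Nonempty := by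
    refine ⟨(b / 2 / (w.re * w.re + w.im * w.im) : ℝ) * (Complex.I * w), ?_⟩
    have h1 := cr_I_mul w (b / 2) hC.ne
    have := hC.pos
    exact ⟨by rw [h1]; linarith, by rw [h1]; linarith⟩
  obtain ⟨r0, hr0, hb0, hU0⟩ := D.isolated hC hz0
  obtain ⟨z1, hz1⟩ := hne z0 r0 hr0
  obtain ⟨y1, hy1⟩ := exists_crd (hU0 z1 hz1)
  set c := y1 - z1 with hc
  have hQ1 : Q c z1 := by
    intro y hy
    have h1 := D.crd_sub N hy1 hy
    have h2 : y - z1 - c = y - y1 := by rw [hc]; ring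
    rwa [h2]
  have hR : ∀ z ∈ Strip w b, ∃ r > 0, ∀ y ∈ ball z r \ {z}, Q c y := by
    refine preconnected_induction (convex_Strip w b).isPreconnected
      (fun z hz hP => ?_) (fun z hz hP => ?_) hz0 ⟨r0, hr0, hcc hr0 hb0 hU0 z1 hz1 hQ1⟩
    · obtain ⟨r, hr, hP⟩ := hP
      refine mem_nhdsWithin_of_mem_nhds ?_
      filter_upwards [ball_mem_nhds z hr] with z' hz'
      by_cases hzz : z' = z
      · rw [hzz]
        exact ⟨r, hr, hP⟩
      · obtain ⟨s, hs, hsb⟩ := Metric.isOpen_iff.mp (isOpen_ball.sdiff isClosed_singleton)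
          z' (⟨hz', hzz⟩ : z' ∈ ball z r \ {z})
        exact ⟨s, hs, fun y hy => hP y (hsb hy.1)⟩
    · obtain ⟨r, hr, hb, hU⟩ := D.isolated hC hz
      obtain ⟨z', ⟨s, hs, hPs⟩, hz'⟩ := (hP.and_eventually
        (mem_nhdsWithin_of_mem_nhds (ball_mem_nhds z hr))).exists
      by_cases hzz : z' = z
      · rw [hzz] at hPs
        exact ⟨s, hs, hPs⟩
      · obtain ⟨u, hu, hub⟩ := Metric.isOpen_iff.mp (isOpen_ball.sdiff isClosed_singleton)
          z' (⟨hz', hzz⟩ : z' ∈ ball z r \ {z})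
        obtain ⟨y, hy⟩ := hne z' (min s u) (lt_min hs hu)
        have h1 : y ∈ ball z' s \ {z'} := ⟨ball_subset_ball (min_le_left _ _) hy.1, hy.2⟩
        have h2 : y ∈ ball z r \ {z} := hub (ball_subset_ball (min_le_right _ _) hy.1)
        exact ⟨r, hr, hcc hr hb hU y h2 (hPs y h1)⟩
  refine ⟨c, fun z hz y hy => ?_⟩
  obtain ⟨r, hr, hP⟩ := hR z hz
  obtain ⟨s, hs, hsb⟩ := Metric.eventually_nhds_iff_ball.mp
    (D.crd_shift hC.tr (isOpen_Strip _ _) hz hy)
  obtain ⟨y', hy'⟩ := hne z (min r s) (lt_min hr hs)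
  have h1 := hP y' ⟨ball_subset_ball (min_le_left _ _) hy'.1, hy'.2⟩ _
    (hsb y' (ball_subset_ball (min_le_right _ _) hy'.1))
  have h2 : y' + (y - z) - y' - c = y - z - c := by ring
  rwa [h2] at h1

/-- The class of a singular boundary point of a cylinder. -/
theorem boundary [CompactSpace X] [T2Space X] [Fintype m] [Fintype n] {w : ℂ} {b : ℝ}
    {h : ℂ → X} (hC : M.IsCyl w b h) {c : ℂ} (hc : ∀ z ∈ Strip w b, ∀ y,
    Crd e e' γ a δ a' f g (h z) y → y - z - c ∈ Lam e e' H W) {z0 : ℂ}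
    (hz0 : z0 ∈ closure (Strip w b)) {q : X} (hq : q ∈ M.Sg)
    (hl : Tendsto h (𝓝[Strip w b] z0) (𝓝 q)) : z0 + c ∈ Lam e e' H W := by
  -- points of the horizontal cylinders are dense
  have h1 : z0 ∈ closure (Strip w b ∩ h ⁻¹' ⋃ i, f i '' Strip (γ i * e) (a i)) := by
    have h2 : Strip w b ⊆ closure (Strip w b ∩ h ⁻¹' ⋃ i, f i '' Strip (γ i * e) (a i)) := by
      intro z hz
      rw [_root_.mem_closure_iff]
      intro O hO hzO
      have h3 : h '' (O ∩ Strip w b) ∈ 𝓝 (h z) := by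
        rw [← Patch.IsTr.map_nhds hC.tr (isOpen_Strip _ _) hz]
        exact image_mem_map (inter_mem (hO.mem_nhds hzO) ((isOpen_Strip _ _).mem_nhds hz))
      have h4 : h z ∈ ⋃ i, closure (f i '' Strip (γ i * e) (a i)) := by
        rw [D.hf.cover]
        trivial
      obtain ⟨i, hi⟩ := mem_iUnion.mp h4
      obtain ⟨_, ⟨y, hy, rfl⟩, hyi⟩ := mem_closure_iff_nhds.mp hi _ h3
      exact ⟨y, hy.1, hy.2, mem_iUnion.mpr ⟨i, hyi⟩⟩
    exact closure_minimal h2 isClosed_closure hz0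
  obtain ⟨u, hu, huz⟩ := mem_closure_iff_ultrafilter.mp h1
  have hu1 : ∀ᶠ z in (u : Filter ℂ), z ∈ Strip w b := mem_of_superset hu inter_subset_left
  have hu2 : ∀ᶠ z in (u : Filter ℂ), ∃ i, h z ∈ f i '' Strip (γ i * e) (a i) :=
    mem_of_superset hu fun z hz => mem_iUnion.mp hz.2
  obtain ⟨i, hi⟩ := Ultrafilter.eventually_exists_iff.mp hu2
  have hut : Tendsto h u (𝓝 q) := by
    refine hl.mono_left ?_
    rw [nhdsWithin]
    exact le_inf huz (le_principal_iff.mpr hu1)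
  obtain ⟨ζ, y0, e1, e2, e3, e4, -⟩ := D.lift i u hut hi
  obtain ⟨e5, e6⟩ := D.bd i e3 e4 (D.sg_notMemH hq) fun j => D.sg_notMemV hq
  have hy0 : y0 ∈ Lam e e' H W := by
    rw [mem_Lam]
    constructor
    · have h2 := D.subH e5 (D.zero_memH N i)
      rwa [zero_sub, neg_neg] at h2
    · rcases e6 with e6 | e6
      · rw [e6]
        exact zero_mem _
      · rw [e6]
        exact AddSubgroup.subset_closure (mem_range_self i)
  obtain ⟨C⟩ := MSurf.exists_cone (M := M) q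
  have h2 : ∀ᶠ z in (u : Filter ℂ), ‖z - z0‖ < C.r := by
    have h3 : ∀ᶠ z in 𝓝 z0, ‖z - z0‖ < C.r := by
      filter_upwards [ball_mem_nhds z0 C.hr] with z hz
      exact mem_ball_iff_norm.mp hz
    exact huz h3
  have h3 : ∀ᶠ z in (u : Filter ℂ), ‖ζ z - y0‖ < C.r := by
    have h4 : ∀ᶠ z in 𝓝 y0, ‖z - y0‖ < C.r := by
      filter_upwards [ball_mem_nhds y0 C.hr] with z hz
      exact mem_ball_iff_norm.mp hz
    exact e2.eventually h4
  obtain ⟨z, g1, g2, g3, g4⟩ := (hu1.and (h2.and (h3.and e1))).exists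
  have h4 := C.of_tendsto hC.tr.1 (convex_Strip _ _) hz0 hl g1 g2
  have h5 := C.of_tendsto (D.hf.cyl i).tr.1 (convex_Strip _ _) e3 e4 g4.1 g3
  rw [g4.2, h4.2] at h5
  have h6 := hc z g1 (ζ z) (Or.inl ⟨i, g4⟩)
  have h7 : z0 + c = y0 - (ζ z - z - c) := by linear_combination -h5.2
  rw [h7]
  exact sub_mem hy0 h6

/-- Statement (C) in the normalised case. -/
theorem holonomy [CompactSpace X] [T2Space X] [Fintype m] [Fintype n] {w : ℂ} {b : ℝ}
    {h : ℂ → X} (hC : M.IsCyl w b h) :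
    w ∈ Lam e e' H W ∧ ∃ u ∈ Lam e e' H W, cr w u = b := by
  obtain ⟨c, hc⟩ := D.exists_class N hC
  have hpos := hC.pos
  obtain ⟨zb, hb1, qb, hqb, hlb⟩ := hC.bot
  obtain ⟨zt, ht1, qt, hqt, hlt⟩ := hC.top
  have h1 := D.boundary N hC hc (mem_closure_strip hC.ne hpos ⟨hb1.ge, by linarith⟩) hqb hlb
  have h2 := D.boundary N hC hc (mem_closure_strip hC.ne hpos ⟨by linarith, ht1.le⟩) hqt hlt
  refine ⟨?_, zt - zb, ?_, ?_⟩
  · obtain ⟨z0, hz0⟩ : (Strip w b).Nonempty := by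
      rw [← closure_nonempty_iff]
      exact ⟨zb, mem_closure_strip hC.ne hpos ⟨hb1.ge, by linarith⟩⟩
    obtain ⟨r, hr, hb, hU⟩ := D.isolated hC hz0
    have h3 : z0 + (r / 2 : ℝ) ∈ ball z0 r \ {z0} := by
      refine ⟨?_, ?_⟩
      · rw [mem_ball_iff_norm, add_sub_cancel_left, Complex.norm_real, Real.norm_eq_abs,
          abs_of_pos (by linarith)]
        linarith
      · intro h1
        rw [mem_singleton_iff, add_eq_left, Complex.ofReal_eq_zero] at h1
        linarith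
    obtain ⟨y, hy⟩ := exists_crd (hU _ h3)
    set z := z0 + (r / 2 : ℝ) with hzdef
    have hz : z ∈ Strip w b := hb h3.1
    have hzw : z + (1 : ℤ) * w ∈ Strip w b := by
      have : cr w (z + (1 : ℤ) * w) = cr w z := by
        rw [cr_add, Int.cast_one, one_mul, cr_self, add_zero]
      exact ⟨by rw [this]; exact hz.1, by rw [this]; exact hz.2⟩
    have h4 : h z = h (z + (1 : ℤ) * w) := (hC.inj _ hz _ hzw).mpr ⟨1, rfl⟩
    have h5 := hc z hz y hy
    have h6 := hc _ hzw y (h4 ▸ hy)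
    have h7 := sub_mem h5 h6
    have h8 : y - z - c - (y - (z + (1 : ℤ) * w) - c) = w := by push_cast; ring
    rwa [h8] at h7
  · have h3 := sub_mem h2 h1
    have h4 : zt + c - (zb + c) = zt - zb := by ring
    rwa [h4] at h3
  · rw [cr_sub, hb1, ht1, sub_zero]

end Data

/-! ### Normalisation -/

theorem strip_add {v z0 : ℂ} (hz0 : cr v z0 = 0) {a : ℝ} (z : ℂ) :
    z + z0 ∈ Strip v a ↔ z ∈ Strip v a := by
  simp only [Strip, mem_ofPred_eq, cr_add, hz0, add_zero]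

omit [TopologicalSpace X] in
theorem image_shift {v z0 : ℂ} (hz0 : cr v z0 = 0) {a : ℝ} (f : ℂ → X) :
    (fun z => f (z + z0)) '' Strip v a = f '' Strip v a := by
  ext x
  constructor
  · rintro ⟨z, hz, rfl⟩
    exact ⟨z + z0, (strip_add hz0 z).mpr hz, rfl⟩
  · rintro ⟨z, hz, rfl⟩
    refine ⟨z - z0, ?_, ?_⟩
    · rw [← strip_add hz0, sub_add_cancel]
      exact hz
    · show f (z - z0 + z0) = f z
      rw [sub_add_cancel]

theorem tendsto_shift {v z0 : ℂ} (hz0 : cr v z0 = 0) {a : ℝ} {f : ℂ → X} {z : ℂ} {q : X}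
    (h : Tendsto f (𝓝[Strip v a] (z + z0)) (𝓝 q)) :
    Tendsto (fun z => f (z + z0)) (𝓝[Strip v a] z) (𝓝 q) := by
  refine h.comp (tendsto_nhdsWithin_iff.mpr ⟨?_, ?_⟩)
  · apply Tendsto.mono_left _ nhdsWithin_le_nhds
    exact Continuous.tendsto (by fun_prop) _
  · filter_upwards [self_mem_nhdsWithin] with y hy
    exact (strip_add hz0 y).mpr hy

theorem cyl_shift {M : MSurf X} {v z0 : ℂ} {a : ℝ} {f : ℂ → X} (h : M.IsCyl v a f)
    (hz0 : cr v z0 = 0) : M.IsCyl v a (fun z => f (z + z0)) where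
  ne := h.ne
  pos := h.pos
  tr := (h.tr.comp_add z0).mono fun z hz => (strip_add hz0 z).mpr hz
  inj := fun z hz z' hz' => by
    rw [h.inj _ ((strip_add hz0 z).mpr hz) _ ((strip_add hz0 z').mpr hz')]
    refine exists_congr fun k => ⟨fun h => ?_, fun h => ?_⟩
    · linear_combination h
    · linear_combination h
  bot := by
    obtain ⟨z, hz, q, hq, hl⟩ := h.bot
    refine ⟨z - z0, by rw [cr_sub, hz, hz0, sub_zero], q, hq, tendsto_shift hz0 ?_⟩
    rwa [sub_add_cancel]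
  top := by
    obtain ⟨z, hz, q, hq, hl⟩ := h.top
    refine ⟨z - z0, by rw [cr_sub, hz, hz0, sub_zero], q, hq, tendsto_shift hz0 ?_⟩
    rwa [sub_add_cancel]

theorem fam_norm {M : MSurf X} {ι : Type} {v : ι → ℂ} {a : ι → ℝ} {f : ι → ℂ → X}
    (h : M.IsFam v a f) : ∃ f', M.IsFam v a f' ∧
    ∀ i, ∃ q ∈ M.Sg, Tendsto (f' i) (𝓝[Strip (v i) (a i)] 0) (𝓝 q) := by
  have h1 := fun i => (h.cyl i).bot
  choose z0 hz0 q hq hl using h1
  refine ⟨fun i z => f i (z + z0 i), ⟨fun i => cyl_shift (h.cyl i) (hz0 i), h.par, ?_, ?_⟩, ?_⟩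
  · intro i j hij
    have h2 := h.disj i j hij
    rwa [← image_shift (hz0 i) (f i), ← image_shift (hz0 j) (f j)] at h2
  · have h2 := h.cover
    have h3 : ∀ i, (fun z => f i (z + z0 i)) '' Strip (v i) (a i) = f i '' Strip (v i) (a i) :=
      fun i => image_shift (hz0 i) (f i)
    simp only [h3]
    exact h2
  · intro i
    refine ⟨q i, hq i, tendsto_shift (hz0 i) ?_⟩
    rw [zero_add]
    exact hl i

end Two

/-- Module TWO. -/
theorem twoFam.{u} : TwoFam.{u} := by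
  intro X _ _ _ _ M m n _ _ e e' γ a H δ a' W f g hκ hγ hδ hH hW hf hg
  have D : Two.Data M e e' γ a H δ a' W f g := ⟨hκ, hγ, hδ, hH, hW, hf, hg⟩
  refine ⟨?_, D.compl_finite, ?_, ?_⟩
  · obtain ⟨I, h1, h2, h3⟩ := D.exists_I
    exact ⟨I, h1, h2, fun s hs h => D.irred h3 s hs h⟩
  · intro w b h hC
    obtain ⟨f', hf', hn⟩ := Two.fam_norm hf
    obtain ⟨g', hg', hn'⟩ := Two.fam_norm hg
    have D' : Two.Data M e e' γ a H δ a' W f' g' := ⟨hκ, hγ, hδ, hH, hW, hf', hg'⟩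
    obtain ⟨h1, u, hu, hub⟩ := D'.holonomy ⟨hn, hn'⟩ hC
    refine ⟨⟨_, h1.1, _, h1.2, Two.eq_coord hκ w⟩, _, hu.1, _, hu.2, ?_⟩
    have h2 := Two.eq_coord hκ u
    rw [← hub]
    congr 1
    exact h2.symm
  · intro hn hn' i j z τ hz hzτ he
    exact D.transition ⟨hn, hn'⟩ ⟨z, hz, hzτ, he⟩

end Pool.Agent.Lib.MP_755177_an
end

section
set_option autoImplicit false

/-!
# Final assembly, part A: primitive closed trajectories and finiteness of the numerical data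
-/

open Set Filter Topology Complex Metric
open scoped MatrixGroups ComplexConjugate

namespace Pool.Agent.Lib.MP_755177_an

namespace Final

/-! ### Elementary finiteness -/

theorem exists_lb {S : Set ℝ} (hS : S.Finite) : ∃ ε : ℝ, 0 < ε ∧ ∀ s ∈ S, 0 < s → ε ≤ s := by
  induction S, hS using Set.Finite.induction_on with
  | empty => exact ⟨1, one_pos, by simp⟩
  | @insert a S _ _ ih =>
    obtain ⟨ε, hε, h⟩ := ih
    by_cases ha : 0 < a
    · refine ⟨min a ε, lt_min ha hε, ?_⟩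
      rintro s (rfl | hs) h0
      · exact min_le_left _ _
      · exact (min_le_right _ _).trans (h s hs h0)
    · refine ⟨ε, hε, ?_⟩
      rintro s (rfl | hs) h0
      · exact absurd h0 ha
      · exact h s hs h0

/-- The sums of `n` elements. -/
def sums (S : Set ℝ) : ℕ → Set ℝ
  | 0 => {0}
  | n + 1 => (fun p : ℝ × ℝ => p.1 + p.2) '' (S ×ˢ sums S n)

theorem finite_sums {S : Set ℝ} (hS : S.Finite) : ∀ n, (sums S n).Finite
  | 0 => finite_singleton 0
  | n + 1 => (hS.prod (finite_sums hS n)).image _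

theorem finite_closure_le {S : Set ℝ} (hS : S.Finite) (hpos : ∀ s ∈ S, 0 < s) (B : ℝ) :
    {x | x ∈ AddSubmonoid.closure S ∧ x ≤ B}.Finite := by
  obtain ⟨ε, hε, hεS⟩ := exists_lb hS
  have key : ∀ x ∈ AddSubmonoid.closure S, ∃ n : ℕ, x ∈ sums S n ∧ n * ε ≤ x := by
    intro x hx
    induction hx using AddSubmonoid.closure_induction_left with
    | zero => exact ⟨0, rfl, by simp⟩
    | add_left s hs y hy ih =>
      obtain ⟨n, h1, h2⟩ := ih
      refine ⟨n + 1, ⟨(s, y), ⟨hs, h1⟩, rfl⟩, ?_⟩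
      have := hεS s hs (hpos s hs)
      push_cast
      linarith
  obtain ⟨N, hN⟩ := exists_nat_ge (B / ε)
  refine ((finite_Iic N).biUnion fun n _ => finite_sums hS n).subset ?_
  rintro x ⟨hx, hxB⟩
  obtain ⟨n, h1, h2⟩ := key x hx
  refine mem_iUnion₂.mpr ⟨n, ?_, h1⟩
  rw [div_le_iff₀ hε] at hN
  have h3 : (n : ℝ) * ε ≤ N * ε := by linarith
  exact_mod_cast le_of_mul_le_mul_right h3 hε

theorem cr_coord (v w : ℂ) (x y x' y' : ℝ) :
    cr (x * v + y * w) (x' * v + y' * w) = (x * y' - y * x') * cr v w := by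
  simp only [cr_eq, Complex.add_re, Complex.add_im, Complex.re_ofReal_mul, Complex.im_ofReal_mul]
  ring

theorem abs_cr_le (v w : ℂ) : |cr v w| ≤ ‖v‖ * ‖w‖ := by
  have h1 : |cr v w| ≤ ‖conj v * w‖ := Complex.abs_im_le_norm _
  rwa [norm_mul, Complex.norm_conj] at h1

theorem act_real_mul (g : SL(2, ℝ)) (t : ℝ) (z : ℂ) : act g (t * z) = t * act g z := by
  apply Complex.ext
  · simp only [act, Complex.re_ofReal_mul, Complex.im_ofReal_mul]; ring
  · simp only [act, Complex.re_ofReal_mul, Complex.im_ofReal_mul]; ring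

theorem act_neg (g : SL(2, ℝ)) (z : ℂ) : act g (-z) = -act g z := by
  apply Complex.ext
  · simp only [act, Complex.neg_re, Complex.neg_im]; ring
  · simp only [act, Complex.neg_re, Complex.neg_im]; ring

universe u

variable {X : Type u} [TopologicalSpace X] {M : MSurf X}

/-! ### Primitive closed trajectories -/

/-- The holonomies of the shortest closed trajectories in their directions. -/
def Prim (M : MSurf X) : Set ℂ :=
  {v | M.Closed v ∧ ∀ t : ℝ, 0 < t → t < 1 → ¬ M.Closed (t * v)}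

theorem closed_neg {v : ℂ} (h : M.Closed v) : M.Closed (-v) := by
  obtain ⟨hv, f, hf, h0⟩ := h
  refine ⟨neg_ne_zero.mpr hv, fun z => f (z + v), (hf.comp_add v).mono ?_, ?_⟩
  · intro z hz
    show z + v ∈ segment ℝ 0 v
    have h1 := (mem_segment_translate ℝ v).mpr hz
    rwa [add_zero, add_neg_cancel, segment_symm, add_comm] at h1
  · show f (0 + v) = f (-v + v)
    rw [zero_add, neg_add_cancel, h0]

theorem prim_neg {v : ℂ} (h : v ∈ Prim M) : -v ∈ Prim M := by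
  refine ⟨closed_neg h.1, fun t h0 h1 hc => h.2 t h0 h1 ?_⟩
  have h2 := closed_neg hc
  rwa [mul_neg, neg_neg] at h2

theorem prim_ne_zero {v : ℂ} (h : v ∈ Prim M) : v ≠ 0 := h.1.1

theorem closed_of_cyl {v : ℂ} {a : ℝ} {f : ℂ → X} (h : M.IsCyl v a f) : M.Closed v := by
  have hpos := h.pos
  set z : ℂ := (a / 2 / (v.re * v.re + v.im * v.im) : ℝ) * (Complex.I * v) with hz
  have h1 : cr v z = a / 2 := Two.cr_I_mul v (a / 2) h.ne
  have hs : ∀ w ∈ segment ℝ 0 v, w + z ∈ Strip v a := by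
    intro w hw
    rw [segment_eq_image'] at hw
    obtain ⟨t, -, rfl⟩ := hw
    have h2 : cr v (0 + t • (v - 0) + z) = a / 2 := by
      rw [zero_add, sub_zero, Complex.real_smul, Two.cr_add, Two.cr_rmul, Two.cr_self, h1]
      ring
    exact ⟨by rw [h2]; linarith, by rw [h2]; linarith⟩
  refine ⟨h.ne, fun w => f (w + z), (h.tr.comp_add z).mono hs, ?_⟩
  refine (h.inj _ (hs 0 (left_mem_segment ℝ 0 v)) _ (hs v (right_mem_segment ℝ 0 v))).mpr
    ⟨1, ?_⟩
  push_cast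
  ring

/-- A complete family with a distinguished cylinder of core holonomy `v`. -/
structure FamOf (M : MSurf X) (v : ℂ) {N : ℕ} (γ a : Fin N → ℝ) (f : Fin N → ℂ → X)
    (i0 : Fin N) : Prop where
  pos : ∀ i, 0 < γ i
  one : γ i0 = 1
  fam : M.IsFam (fun i => (γ i : ℂ) * v) a f

theorem exists_fam [CompactSpace X] [T2Space X] (hFam : ExistsFam.{u}) (hC : M.CPar) {v : ℂ}
    {a : ℝ} {f : ℂ → X} (h : M.IsCyl v a f) : ∃ (N : ℕ) (γ a' : Fin N → ℝ) (f' : Fin N → ℂ → X)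
    (i0 : Fin N), FamOf M v γ a' f' i0 ∧ ∀ w b g, M.IsCyl w b g → (∃ t : ℝ, 0 < t ∧ w = t * v) →
      ∃ j, w = γ j * v := by
  obtain ⟨N, v', a', f', i, h1, h2, h3, h4, h5⟩ := hFam X M hC v a f h
  have h6 := fun j => h1.par i j
  choose γ hγ0 hγ using h6
  rw [h2] at hγ
  have h7 : v' = fun j => (γ j : ℂ) * v := funext hγ
  refine ⟨N, γ, a', f', i, ⟨hγ0, ?_, h7 ▸ h1⟩, fun w b g hw ht => ?_⟩
  · have h8 := hγ i
    rw [h2] at h8
    have h9 : ((γ i : ℂ) - 1) * v = 0 := by linear_combination -h8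
    rcases mul_eq_zero.mp h9 with h10 | h10
    · have : (γ i : ℂ) = 1 := by linear_combination h10
      exact_mod_cast this
    · exact absurd h10 h.ne
  · obtain ⟨j, hj⟩ := h5 w b g hw ht
    exact ⟨j, by rw [hj, hγ j]⟩

section prim

variable [CompactSpace X] [T2Space X] [ConnectedSpace X]

theorem exists_core (hMax : MaxCyl.{u}) (hSg : M.Sg.Nonempty) {v : ℂ} (h : M.Closed v) :
    ∃ n : ℕ, 0 < n ∧ ∃ a g, M.IsCyl (((1 / n : ℝ) : ℂ) * v) a g := by
  obtain ⟨hv, f, hf, h0⟩ := h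
  obtain ⟨n, a, g, z, hn, hg, -, -⟩ := hMax X M hSg v f hv hf h0
  refine ⟨n, hn, a, g, ?_⟩
  have : (((1 / n : ℝ) : ℂ) * v) = v / n := by push_cast; ring
  rwa [this]

theorem prim_cyl (hMax : MaxCyl.{u}) (hSg : M.Sg.Nonempty) {v : ℂ} (h : v ∈ Prim M) :
    ∃ a g, M.IsCyl v a g := by
  obtain ⟨n, hn, a, g, hg⟩ := exists_core hMax hSg h.1
  have hn1 : (1 : ℝ) ≤ n := by exact_mod_cast hn
  rcases hn1.eq_or_lt with h1 | h1
  · refine ⟨a, g, ?_⟩
    rw [← h1] at hg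
    simpa using hg
  · exfalso
    refine h.2 (1 / n) (by positivity) ?_ (closed_of_cyl hg)
    rw [div_lt_one (by linarith)]
    exact h1

theorem exists_prim (hMax : MaxCyl.{u}) (hFam : ExistsFam.{u}) (hSg : M.Sg.Nonempty)
    (hC : M.CPar) {v : ℂ} (h : M.Closed v) : ∃ t : ℝ, 0 < t ∧ t ≤ 1 ∧ (t : ℂ) * v ∈ Prim M := by
  obtain ⟨n, hn, a, g, hg⟩ := exists_core hMax hSg h
  have hn1 : (1 : ℝ) ≤ n := by exact_mod_cast hn
  have hn0 : (0 : ℝ) < n := by linarith
  obtain ⟨N, γ, a', f', i0, hF, hall⟩ := exists_fam hFam hC hg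
  have hne : Nonempty (Fin N) := ⟨i0⟩
  obtain ⟨j, hj⟩ := Finite.exists_min γ
  have hjpos := hF.pos j
  -- every closed multiple of `v` is at least the minimal one
  have key : ∀ t : ℝ, 0 < t → M.Closed (t * v) → γ j / n ≤ t := by
    intro t ht hct
    obtain ⟨k, hk, b, g', hg'⟩ := exists_core hMax hSg hct
    have hk1 : (1 : ℝ) ≤ k := by exact_mod_cast hk
    have hk0 : (0 : ℝ) < k := by linarith
    obtain ⟨l, hl⟩ := hall _ _ _ hg' ⟨t * n / k, by positivity, by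
      have : (n : ℂ) ≠ 0 := by exact_mod_cast hn.ne'
      have : (k : ℂ) ≠ 0 := by exact_mod_cast hk.ne'
      push_cast
      field_simp⟩
    have h1 : ((1 / k * t : ℝ) : ℂ) * v = ((γ l * (1 / n) : ℝ) : ℂ) * v := by
      push_cast at hl ⊢
      linear_combination hl
    have h2 : 1 / k * t = γ l * (1 / n) := by
      have := mul_right_cancel₀ h.1 h1
      exact_mod_cast this
    have h3 := hj l
    have h4 : γ j / n ≤ 1 / k * t := by
      rw [h2, mul_one_div]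
      gcongr
    refine h4.trans ?_
    have h5 : 1 / (k : ℝ) ≤ 1 := by
      rw [div_le_one hk0]
      exact hk1
    nlinarith
  refine ⟨γ j / n, by positivity, key 1 one_pos (by simpa using h), ?_, ?_⟩
  · have h1 := closed_of_cyl (hF.fam.cyl j)
    have h2 : (γ j : ℂ) * (((1 / n : ℝ) : ℂ) * v) = ((γ j / n : ℝ) : ℂ) * v := by push_cast; ring
    rwa [h2] at h1
  · intro t h0 h1 hc
    have h2 : (t : ℂ) * (((γ j / n : ℝ) : ℂ) * v) = ((t * (γ j / n) : ℝ) : ℂ) * v := by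
      push_cast; ring
    rw [h2] at hc
    have h3 : 0 < γ j / n := by positivity
    have h4 := key _ (by positivity) hc
    nlinarith

end prim

/-- Two parallel primitive vectors have the same length. -/
theorem prim_parallel {v : ℂ} (hv : v ∈ Prim M) {t : ℝ} (ht : (t : ℂ) * v ∈ Prim M) :
    |t| = 1 := by
  have key : ∀ s : ℝ, 0 < s → (s : ℂ) * v ∈ Prim M → s = 1 := by
    intro s hs h
    by_contra hne
    rcases lt_or_gt_of_ne hne with h1 | h1
    · exact hv.2 s hs h1 h.1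
    · refine h.2 s⁻¹ (by positivity) (inv_lt_one_of_one_lt₀ h1) ?_
      have hs' : (s : ℂ) ≠ 0 := by exact_mod_cast hs.ne'
      have h2 : ((s⁻¹ : ℝ) : ℂ) * (s * v) = v := by
        push_cast
        field_simp
      rw [h2]
      exact hv.1
  rcases lt_trichotomy t 0 with h | h | h
  · have h1 := prim_neg ht
    have h2 : -((t : ℂ) * v) = ((-t : ℝ) : ℂ) * v := by push_cast; ring
    rw [h2] at h1
    have h3 := key (-t) (by linarith) h1
    rw [abs_of_neg h, h3]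
  · subst h
    exact absurd (by simp) (prim_ne_zero ht)
  · rw [abs_of_pos h, key t h ht]

/-! ### The numerical data of the families -/

section num

variable [CompactSpace X] [T2Space X] [ConnectedSpace X]

theorem two_I (hT : TwoFam.{u}) {v w : ℂ} {N N' : ℕ} {γ a : Fin N → ℝ} {f : Fin N → ℂ → X}
    {i0 : Fin N} {δ b : Fin N' → ℝ} {g : Fin N' → ℂ → X} {j0 : Fin N'} (hF : FamOf M v γ a f i0)
    (hG : FamOf M w δ b g j0) (hκ : 0 < cr v w) : ∃ I : Fin N → Fin N' → ℕ,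
      (∀ i, ∑ j, I i j * (b j / (δ j * cr v w)) = γ i) ∧
      (∀ j, ∑ i, I i j * (a i / (γ i * cr v w)) = δ j) ∧
      ∀ s : Set (Fin N), s.Nonempty →
        (∀ i ∈ s, ∀ j, 0 < I i j → ∀ i', 0 < I i' j → i' ∈ s) → s = univ :=
  (hT X M (Fin N) (Fin N') v w γ a (fun i => a i / (γ i * cr v w)) δ b
    (fun j => b j / (δ j * cr v w)) f g hκ hF.pos hG.pos (fun _ => rfl) (fun _ => rfl) hF.fam
    hG.fam).1

/-- The total areas of two transverse families agree. -/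
theorem tot_eq (hT : TwoFam.{u}) {v w : ℂ} {N N' : ℕ} {γ a : Fin N → ℝ} {f : Fin N → ℂ → X}
    {i0 : Fin N} {δ b : Fin N' → ℝ} {g : Fin N' → ℂ → X} {j0 : Fin N'} (hF : FamOf M v γ a f i0)
    (hG : FamOf M w δ b g j0) (hκ : 0 < cr v w) : ∑ i, a i = ∑ j, b j := by
  obtain ⟨I, h1, h2, -⟩ := two_I hT hF hG hκ
  have e1 : ∀ i, a i = ∑ j, I i j * (a i / (γ i * cr v w)) * (b j / (δ j * cr v w)) * cr v w := by
    intro i
    have h3 : ∑ j, I i j * (a i / (γ i * cr v w)) * (b j / (δ j * cr v w)) * cr v w =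
        (∑ j, I i j * (b j / (δ j * cr v w))) * ((a i / (γ i * cr v w)) * cr v w) := by
      rw [Finset.sum_mul]
      exact Finset.sum_congr rfl fun j _ => by ring
    rw [h3, h1 i]
    have := (hF.pos i).ne'
    field_simp
  have e2 : ∀ j, b j = ∑ i, I i j * (a i / (γ i * cr v w)) * (b j / (δ j * cr v w)) * cr v w := by
    intro j
    have h3 : ∑ i, I i j * (a i / (γ i * cr v w)) * (b j / (δ j * cr v w)) * cr v w =
        (∑ i, I i j * (a i / (γ i * cr v w))) * ((b j / (δ j * cr v w)) * cr v w) := by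
      rw [Finset.sum_mul]
      exact Finset.sum_congr rfl fun j _ => by ring
    rw [h3, h2 j]
    have := (hG.pos j).ne'
    field_simp
  calc ∑ i, a i = ∑ i, ∑ j, I i j * (a i / (γ i * cr v w)) * (b j / (δ j * cr v w)) * cr v w :=
        Finset.sum_congr rfl fun i _ => e1 i
    _ = ∑ j, ∑ i, I i j * (a i / (γ i * cr v w)) * (b j / (δ j * cr v w)) * cr v w :=
        Finset.sum_comm
    _ = ∑ j, b j := Finset.sum_congr rfl fun j _ => (e2 j).symm

theorem tot_eq' (hT : TwoFam.{u}) {v w : ℂ} {N N' : ℕ} {γ a : Fin N → ℝ} {f : Fin N → ℂ → X}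
    {i0 : Fin N} {δ b : Fin N' → ℝ} {g : Fin N' → ℂ → X} {j0 : Fin N'} (hF : FamOf M v γ a f i0)
    (hG : FamOf M w δ b g j0) (hκ : cr v w ≠ 0) : ∑ i, a i = ∑ j, b j := by
  rcases lt_or_gt_of_ne hκ with h | h
  · refine (tot_eq hT hG hF ?_).symm
    rw [Two.cr_symm]
    linarith
  · exact tot_eq hT hF hG h

theorem eq_zero_of_cr {v0 w0 v : ℂ} (hκ : 0 < cr v0 w0) (h1 : cr v0 v = 0) (h2 : cr w0 v = 0) :
    v = 0 := by
  rw [Two.eq_coord hκ v, Two.xc_apply, Two.yc_apply, h1, h2]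
  simp

/-- The total area of a family. -/
theorem tot_const (hT : TwoFam.{u}) {v0 w0 : ℂ} {N N' : ℕ} {γ a : Fin N → ℝ}
    {f : Fin N → ℂ → X} {i0 : Fin N} {δ b : Fin N' → ℝ} {g : Fin N' → ℂ → X} {j0 : Fin N'}
    (hF : FamOf M v0 γ a f i0) (hG : FamOf M w0 δ b g j0) (hκ : 0 < cr v0 w0) {v : ℂ} {N1 : ℕ}
    {γ1 a1 : Fin N1 → ℝ} {f1 : Fin N1 → ℂ → X} {i1 : Fin N1} (h : FamOf M v γ1 a1 f1 i1) :
    ∑ l, a1 l = ∑ i, a i := by
  by_cases h1 : cr v0 v = 0
  · have h2 : cr w0 v ≠ 0 := by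
      intro h2
      have h3 := eq_zero_of_cr hκ h1 h2
      exact (h.fam.cyl i1).ne (by simp [h3])
    rw [tot_eq hT hF hG hκ]
    exact (tot_eq' hT hG h h2).symm
  · exact (tot_eq' hT hF h h1).symm

/-- The areas and the circumference ratios of the families take finitely many values. -/
theorem exists_finite (hT : TwoFam.{u}) (hAlg : AlgFinite) (hField : ExistsField) (hC : M.CPar)
    {v0 w0 : ℂ} {N N' : ℕ} {γ a : Fin N → ℝ} {f : Fin N → ℂ → X} {i0 : Fin N}
    {δ b : Fin N' → ℝ} {g : Fin N' → ℂ → X} {j0 : Fin N'} (hF : FamOf M v0 γ a f i0)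
    (hG : FamOf M w0 δ b g j0) (hκ : 0 < cr v0 w0) : ∃ F : Set ℝ, F.Finite ∧
      ∀ (v : ℂ) (N1 : ℕ) (γ1 a1 : Fin N1 → ℝ) (f1 : Fin N1 → ℂ → X) (i1 : Fin N1),
        FamOf M v γ1 a1 f1 i1 → ∀ l, a1 l ∈ F ∧ γ1 l ∈ F := by
  have hTT := hT X M (Fin N) (Fin N') v0 w0 γ a (fun i => a i / (γ i * cr v0 w0)) δ b
    (fun j => b j / (δ j * cr v0 w0)) f g hκ hF.pos hG.pos (fun _ => rfl) (fun _ => rfl) hF.fam
    hG.fam
  obtain ⟨⟨I, hI1, hI2, hI3⟩, -, hhol, -⟩ := hTT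
  set κ := cr v0 w0 with hκdef
  set H : Fin N → ℝ := fun i => a i / (γ i * κ) with hH
  set W : Fin N' → ℝ := fun j => b j / (δ j * κ) with hW
  have hapos := fun i => (hF.fam.cyl i).pos
  have hbpos := fun j => (hG.fam.cyl j).pos
  have hHpos : ∀ i, 0 < H i := fun i => div_pos (hapos i) (mul_pos (hF.pos i) hκ)
  have hWpos : ∀ j, 0 < W j := fun j => div_pos (hbpos j) (mul_pos (hG.pos j) hκ)
  -- rational moduli
  have hq : ∀ {v : ℂ} {N1 : ℕ} {γ1 a1 : Fin N1 → ℝ} {f1 : Fin N1 → ℂ → X} {i1 : Fin N1},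
      FamOf M v γ1 a1 f1 i1 → ∀ l l', ∃ q : ℚ, a1 l' = q * (γ1 l' / γ1 l) ^ 2 * a1 l := by
    intro v N1 γ1 a1 f1 i1 h l l'
    have h1 := (hC _ _ _ (h.fam.cyl l)).2 (γ1 l' / γ1 l) (a1 l') (f1 l')
      (div_pos (h.pos l') (h.pos l))
    apply h1
    have h2 : ((γ1 l' / γ1 l : ℝ) : ℂ) * (γ1 l * v) = γ1 l' * v := by
      have : (γ1 l : ℂ) ≠ 0 := by exact_mod_cast (h.pos l).ne'
      push_cast
      field_simp
    rw [h2]
    exact h.fam.cyl l'
  have hqpos : ∀ {x y z : ℝ} {q : ℚ}, 0 < x → 0 < y → 0 < z → x = q * y ^ 2 * z → 0 < q := by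
    intro x y z q hx hy hz h
    have h1 : 0 < (q : ℝ) * (y ^ 2 * z) := by
      rw [h] at hx
      linarith
    have h2 : 0 < y ^ 2 * z := by positivity
    have h3 := pos_of_mul_pos_left h1 h2.le
    exact_mod_cast h3
  obtain ⟨q, hq1⟩ : ∃ q : Fin N → ℚ, ∀ i, a i = q i * γ i ^ 2 * a i0 := by
    choose q hq using fun i => hq hF i0 i
    refine ⟨q, fun i => ?_⟩
    have := hq i
    rwa [hF.one, div_one] at this
  obtain ⟨q', hq'1⟩ : ∃ q : Fin N' → ℚ, ∀ j, b j = q j * δ j ^ 2 * b j0 := by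
    choose q hq using fun i => hq hG j0 i
    refine ⟨q, fun i => ?_⟩
    have := hq i
    rwa [hG.one, div_one] at this
  have hne : Nonempty (Fin N) := ⟨i0⟩
  obtain ⟨k, hk1, hk2, c1, c2, hc1, hc2, hkW, hkH⟩ := hField (Fin N) (Fin N') I q q' (a i0 / κ)
    (b j0 / κ) H W (fun i => hqpos (hapos i) (hF.pos i) (hapos i0) (hq1 i))
    (fun j => hqpos (hbpos j) (hG.pos j) (hbpos j0) (hq'1 j)) (div_pos (hapos i0) hκ)
    (div_pos (hbpos j0) hκ) hHpos hWpos (fun i => by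
      rw [hI1 i]
      show a i / (γ i * κ) = _
      have := (hF.pos i).ne'
      rw [div_eq_iff (by positivity), hq1 i]
      field_simp) (fun j => by
      rw [hI2 j]
      show b j / (δ j * κ) = _
      have := (hG.pos j).ne'
      rw [div_eq_iff (by positivity), hq'1 j]
      field_simp) hI3
  -- the finitely generated group
  set Λ : Submodule ℤ ℝ := Submodule.span ℤ (range (fun j => c1 * W j) ∪ range fun i => c2 * H i)
    with hΛ
  have hΛfg : Λ.FG := Submodule.fg_span ((finite_range _).union (finite_range _))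
  have hΛk : ∀ x ∈ Λ, x ∈ k := by
    intro x hx
    induction hx using Submodule.span_induction with
    | mem x hx =>
      rcases hx with ⟨j, rfl⟩ | ⟨i, rfl⟩
      · exact hkW j
      · exact hkH i
    | zero => exact zero_mem k
    | add x y _ _ hx hy => exact add_mem hx hy
    | smul n x _ hx => exact zsmul_mem hx n
  have hΛW : ∀ x ∈ AddSubgroup.closure (range W), c1 * x ∈ Λ := by
    intro x hx
    induction hx using AddSubgroup.closure_induction with
    | mem x hx =>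
      obtain ⟨j, rfl⟩ := hx
      exact Submodule.subset_span (Or.inl ⟨j, rfl⟩)
    | zero => rw [mul_zero]; exact zero_mem Λ
    | add x y _ _ hx hy => rw [mul_add]; exact add_mem hx hy
    | neg x _ hx => rw [mul_neg]; exact neg_mem hx
  have hΛH : ∀ x ∈ AddSubgroup.closure (range H), c2 * x ∈ Λ := by
    intro x hx
    induction hx using AddSubgroup.closure_induction with
    | mem x hx =>
      obtain ⟨j, rfl⟩ := hx
      exact Submodule.subset_span (Or.inr ⟨j, rfl⟩)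
    | zero => rw [mul_zero]; exact zero_mem Λ
    | add x y _ _ hx hy => rw [mul_add]; exact add_mem hx hy
    | neg x _ hx => rw [mul_neg]; exact neg_mem hx
  -- the total area
  set A : ℝ := c1 * c2 / κ * ∑ i, a i with hA
  have hAk : A ∈ k := by
    have h1 : A = ∑ i, (c2 * H i) * ∑ j, I i j * (c1 * W j) := by
      rw [hA, Finset.mul_sum]
      refine Finset.sum_congr rfl fun i _ => ?_
      have h2 : ∑ j, I i j * (c1 * W j) = c1 * γ i := by
        rw [← hI1 i, Finset.mul_sum]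
        exact Finset.sum_congr rfl fun j _ => by ring
      rw [h2]
      show _ = c2 * (a i / (γ i * κ)) * (c1 * γ i)
      have := (hF.pos i).ne'
      field_simp
    rw [h1]
    refine sum_mem fun i _ => mul_mem (hkH i) (sum_mem fun j _ => mul_mem ?_ (hkW j))
    exact natCast_mem k _
  obtain ⟨F1, hF1, hfin⟩ := hAlg k hk1 hk2 Λ hΛfg hΛk A hAk
  refine ⟨(fun z => κ / (c1 * c2) * z) '' F1 ∪ F1, (hF1.image _).union hF1, ?_⟩
  intro v N1 γ1 a1 f1 i1 h l
  -- the coordinates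
  have h1 : ∀ l, Two.xc v0 w0 (γ1 l * v) ∈ AddSubgroup.closure (range W) ∧
      Two.yc v0 w0 (γ1 l * v) ∈ AddSubgroup.closure (range H) := by
    intro l
    obtain ⟨x, hx, y, hy, hxy⟩ := (hhol _ _ _ (h.fam.cyl l)).1
    have hxy' : (γ1 l : ℂ) * v = x * v0 + y * w0 := hxy
    rw [hxy', Two.xc_coord hκ, Two.yc_coord hκ]
    exact ⟨hx, hy⟩
  have h2 : ∀ l, ∃ x ∈ AddSubgroup.closure (range W), ∃ y ∈ AddSubgroup.closure (range H),
      cr (γ1 l * v) (x * v0 + y * w0) = a1 l := fun l => (hhol _ _ _ (h.fam.cyl l)).2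
  choose x' hx' y' hy' hxy' using h2
  have h3 : ∀ l, c1 * Two.xc v0 w0 (γ1 l * v) * (c2 * y' l) -
      c2 * Two.yc v0 w0 (γ1 l * v) * (c1 * x' l) = c1 * c2 / κ * a1 l := by
    intro l
    rw [← hxy' l]
    conv_rhs => rw [Two.eq_coord hκ (γ1 l * v)]
    rw [cr_coord]
    field_simp
    ring
  have hlin : ∀ l, Two.xc v0 w0 (γ1 l * v) = γ1 l * Two.xc v0 w0 v ∧
      Two.yc v0 w0 (γ1 l * v) = γ1 l * Two.yc v0 w0 v := by
    intro l
    rw [← Complex.real_smul, map_smul, map_smul, smul_eq_mul, smul_eq_mul]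
    exact ⟨rfl, rfl⟩
  have h4 := hfin (Fin N1) (fun l => c1 * Two.xc v0 w0 (γ1 l * v))
    (fun l => c2 * Two.yc v0 w0 (γ1 l * v)) (fun l => c1 * x' l) (fun l => c2 * y' l)
    (fun l => ⟨hΛW _ (h1 l).1, hΛH _ (h1 l).2, hΛW _ (hx' l), hΛH _ (hy' l)⟩)
    (fun l => by
      have h5 := h3 l
      have h6 : 0 < c1 * c2 / κ * a1 l := by
        have := (h.fam.cyl l).pos
        positivity
      show 0 < c1 * Two.xc v0 w0 (γ1 l * v) * (c2 * y' l) -
        c2 * Two.yc v0 w0 (γ1 l * v) * (c1 * x' l)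
      rw [h5]
      exact h6)
    (fun l l' => by
      have hl := (h.pos l).ne'
      refine ⟨γ1 l' / γ1 l, div_pos (h.pos l') (h.pos l), ?_, ?_, ?_⟩
      · rw [(hlin l).1, (hlin l').1]
        field_simp
      · rw [(hlin l).2, (hlin l').2]
        field_simp
      · obtain ⟨q, hq⟩ := hq h l l'
        refine ⟨q, ?_⟩
        rw [h3 l, h3 l', hq]
        have := (h.pos l').ne'
        field_simp)
    (by
      simp only [h3]
      rw [← Finset.mul_sum, tot_const hT hF hG hκ h])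
  constructor
  · left
    refine ⟨_, h4.1 l, ?_⟩
    simp only [h3]
    field_simp
  · right
    refine h4.2 i1 l (γ1 l) (h.pos l) ?_ ?_
    · rw [(hlin l).1, (hlin i1).1, h.one]
      ring
    · rw [(hlin l).2, (hlin i1).2, h.one]
      ring

end num

end Final

end Pool.Agent.Lib.MP_755177_an
end
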