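import Pool.Agent.Lib.MP_755177_an.Spec
import Pool.Agent.Lib.MP_755177_an.Spec3
import Pool.Agent.Lib.MP_755177_an.CylPar
import Pool.Agent.Lib.MP_755177_an.FinalA

section
set_option autoImplicit false

/-!
# Module SL: the action of `SL(2,ℝ)` on translation structures
-/

open Set Filter Topology Complex
open scoped MatrixGroups ComplexConjugate

namespace Pool.Agent.Lib.MP_755177_an

namespace SLAct

lemma act_add (g : SL(2, ℝ)) (z w : ℂ) : act g (z + w) = act g z + act g w := by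
  apply Complex.ext <;> simp [act] <;> ring

lemma act_zero (g : SL(2, ℝ)) : act g 0 = 0 := by
  apply Complex.ext <;> simp [act]

lemma act_mul (g h : SL(2, ℝ)) (z : ℂ) : act (g * h) z = act g (act h z) := by
  apply Complex.ext <;> simp [act, Matrix.mul_apply, Fin.sum_univ_two] <;> ring

lemma act_one (z : ℂ) : act 1 z = z := by
  apply Complex.ext <;> simp [act]

lemma act_inv_act (g : SL(2, ℝ)) (z : ℂ) : act g⁻¹ (act g z) = z := by
  rw [← act_mul, inv_mul_cancel, act_one]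

lemma act_act_inv (g : SL(2, ℝ)) (z : ℂ) : act g (act g⁻¹ z) = z := by
  rw [← act_mul, mul_inv_cancel, act_one]

lemma continuous_act (g : SL(2, ℝ)) : Continuous (act g) := by
  unfold act
  have h : (fun z : ℂ => (⟨g 0 0 * z.re + g 0 1 * z.im, g 1 0 * z.re + g 1 1 * z.im⟩ : ℂ)) =
      fun z : ℂ => ((g 0 0 * z.re + g 0 1 * z.im : ℝ) : ℂ) +
        ((g 1 0 * z.re + g 1 1 * z.im : ℝ) : ℂ) * I := by
    funext z; apply Complex.ext <;> simp
  rw [h]
  have h1 := Complex.continuous_re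
  have h2 := Complex.continuous_im
  fun_prop

/-- the complex linear part of `act g` -/
noncomputable def al (g : SL(2, ℝ)) : ℂ := ⟨(g 0 0 + g 1 1) / 2, (g 1 0 - g 0 1) / 2⟩
/-- the antilinear part of `act g` -/
noncomputable def be (g : SL(2, ℝ)) : ℂ := ⟨(g 0 0 - g 1 1) / 2, (g 1 0 + g 0 1) / 2⟩

lemma act_eq (g : SL(2, ℝ)) (z : ℂ) : act g z = al g * z + be g * conj z := by
  apply Complex.ext <;> simp [act, al, be] <;> ring

lemma det_eq (g : SL(2, ℝ)) : g 0 0 * g 1 1 - g 0 1 * g 1 0 = 1 := by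
  have := g.det_coe
  rwa [Matrix.det_fin_two] at this

lemma norm_be_lt (g : SL(2, ℝ)) : ‖be g‖ < ‖al g‖ := by
  apply lt_of_pow_lt_pow_left₀ 2 (norm_nonneg _)
  rw [← Complex.normSq_eq_norm_sq, ← Complex.normSq_eq_norm_sq, Complex.normSq_apply,
    Complex.normSq_apply]
  simp only [al, be]
  nlinarith [det_eq g]

lemma al_ne (g : SL(2, ℝ)) : al g ≠ 0 := by
  intro h
  have := norm_be_lt g
  rw [h, norm_zero] at this
  exact absurd this (not_lt.2 (norm_nonneg _))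

/-- the base of the root -/
noncomputable def bas (g : SL(2, ℝ)) (w : ℂ) : ℂ := 1 + be g / al g * (conj w / w)

lemma norm_aux (g : SL(2, ℝ)) (w : ℂ) : ‖be g / al g * (conj w / w)‖ < 1 := by
  rw [norm_mul, norm_div, norm_div]
  have h1 : ‖conj w‖ = ‖w‖ := Complex.norm_conj w
  rw [h1]
  have h2 : ‖w‖ / ‖w‖ ≤ 1 := div_self_le_one _
  have h3 : ‖be g‖ / ‖al g‖ < 1 := by
    rw [div_lt_one (norm_pos_iff.2 (al_ne g))]
    exact norm_be_lt g
  calc ‖be g‖ / ‖al g‖ * (‖w‖ / ‖w‖) ≤ ‖be g‖ / ‖al g‖ * 1 := by gcongr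
    _ < 1 := by rwa [mul_one]

lemma bas_re (g : SL(2, ℝ)) (w : ℂ) : 0 < (bas g w).re := by
  unfold bas
  rw [Complex.add_re, Complex.one_re]
  have h1 := norm_aux g w
  have h2 := Complex.abs_re_le_norm (be g / al g * (conj w / w))
  have h3 := neg_abs_le ((be g / al g * (conj w / w)).re)
  linarith

lemma bas_ne (g : SL(2, ℝ)) (w : ℂ) : bas g w ≠ 0 := by
  intro h
  have := bas_re g w
  rw [h] at this
  simp at this

lemma bas_mul (g : SL(2, ℝ)) (w : ℂ) : al g * bas g w * w = act g w := by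
  by_cases hw : w = 0
  · rw [hw, mul_zero, act_zero]
  · have := al_ne g
    rw [act_eq, bas]; field_simp

/-- the `k`-th root of `act g w / w` -/
noncomputable def rt (g : SL(2, ℝ)) (k : ℕ) (w : ℂ) : ℂ :=
  al g ^ ((k : ℂ)⁻¹) * bas g w ^ ((k : ℂ)⁻¹)

lemma rt_pow (g : SL(2, ℝ)) (k : ℕ) (hk : 0 < k) (w : ℂ) : rt g k w ^ k * w = act g w := by
  rw [rt, mul_pow, Complex.cpow_nat_inv_pow _ hk.ne', Complex.cpow_nat_inv_pow _ hk.ne', bas_mul]

lemma rt_pow' (g : SL(2, ℝ)) (k : ℕ) (hk : 0 < k) (w : ℂ) : rt g k w ^ k = al g * bas g w := by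
  rw [rt, mul_pow, Complex.cpow_nat_inv_pow _ hk.ne', Complex.cpow_nat_inv_pow _ hk.ne']

lemma rt_ne (g : SL(2, ℝ)) (k : ℕ) (w : ℂ) : rt g k w ≠ 0 :=
  mul_ne_zero (Complex.cpow_ne_zero_iff.2 (Or.inl (al_ne g)))
    (Complex.cpow_ne_zero_iff.2 (Or.inl (bas_ne g w)))

lemma continuousAt_rt (g : SL(2, ℝ)) (k : ℕ) {w : ℂ} (hw : w ≠ 0) : ContinuousAt (rt g k) w := by
  unfold rt
  refine continuousAt_const.mul ?_
  have h1 : ContinuousAt (bas g) w := by
    unfold bas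
    exact continuousAt_const.add (continuousAt_const.mul
      (Complex.continuous_conj.continuousAt.div continuousAt_id hw))
  exact h1.cpow continuousAt_const (Or.inl (bas_re g w))

lemma norm_rt_le (g : SL(2, ℝ)) (k : ℕ) (hk : 0 < k) :
    ∃ C : ℝ, 0 < C ∧ ∀ w, ‖rt g k w‖ ≤ C ∧ C⁻¹ ≤ ‖rt g k w‖ := by
  have hal : 0 < ‖al g‖ := norm_pos_iff.2 (al_ne g)
  have hlt := norm_be_lt g
  have hr : 0 < 1 - ‖be g‖ / ‖al g‖ := by
    rw [sub_pos, div_lt_one hal]; exact hlt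
  -- bounds for `al * bas`
  have hub : ∀ w, ‖al g * bas g w‖ ≤ ‖al g‖ * 2 := by
    intro w
    rw [norm_mul]
    gcongr
    unfold bas
    calc ‖1 + be g / al g * (conj w / w)‖ ≤ ‖(1 : ℂ)‖ + ‖be g / al g * (conj w / w)‖ :=
          norm_add_le _ _
      _ ≤ 1 + 1 := by
          have := norm_aux g w
          simp only [norm_one]; linarith
      _ = 2 := by norm_num
  have hlb : ∀ w, ‖al g‖ * (1 - ‖be g‖ / ‖al g‖) ≤ ‖al g * bas g w‖ := by
    intro w
    rw [norm_mul]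
    gcongr
    unfold bas
    have h1 : ‖(1 : ℂ)‖ - ‖be g / al g * (conj w / w)‖ ≤ ‖1 + be g / al g * (conj w / w)‖ := by
      have := norm_sub_norm_le (1 : ℂ) (-(be g / al g * (conj w / w)))
      rwa [norm_neg, sub_neg_eq_add] at this
    rw [norm_one] at h1
    have h2 : ‖be g / al g * (conj w / w)‖ ≤ ‖be g‖ / ‖al g‖ := by
      rw [norm_mul, norm_div, norm_div]
      have h1 : ‖conj w‖ = ‖w‖ := Complex.norm_conj w
      rw [h1]
      have h2 : ‖w‖ / ‖w‖ ≤ 1 := div_self_le_one _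
      calc ‖be g‖ / ‖al g‖ * (‖w‖ / ‖w‖) ≤ ‖be g‖ / ‖al g‖ * 1 := by gcongr
        _ = _ := mul_one _
    linarith
  set U := ‖al g‖ * 2 with hU
  set L := ‖al g‖ * (1 - ‖be g‖ / ‖al g‖) with hL
  have hL0 : 0 < L := mul_pos hal hr
  have hU0 : 0 < U := by positivity
  set C := max 1 (max U L⁻¹) with hC
  have hC1 : 1 ≤ C := le_max_left _ _
  have hC0 : 0 < C := lt_of_lt_of_le one_pos hC1
  have hCk : C ≤ C ^ k := le_self_pow₀ hC1 hk.ne'
  refine ⟨C, hC0, fun w => ⟨?_, ?_⟩⟩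
  · refine le_of_pow_le_pow_left₀ hk.ne' hC0.le ?_
    rw [← norm_pow, rt_pow' g k hk]
    exact (hub w).trans ((le_trans (le_max_left _ _) (le_max_right _ _)).trans hCk)
  · refine le_of_pow_le_pow_left₀ hk.ne' (norm_nonneg _) ?_
    rw [← norm_pow, rt_pow' g k hk]
    refine le_trans ?_ (hlb w)
    rw [inv_pow]
    rw [inv_le_comm₀ (by positivity) hL0]
    exact (le_trans (le_max_right _ _) (le_max_right _ _)).trans hCk

/-- the homeomorphism `h` of the plane with `h z ^ k = act g (z ^ k)` -/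
noncomputable def hom (g : SL(2, ℝ)) (k : ℕ) (hk : 0 < k) : ℂ ≃ₜ ℂ where
  toFun z := z * rt g k (z ^ k)
  invFun y := y * (rt g k (act g⁻¹ (y ^ k)))⁻¹
  left_inv z := by
    have h1 : act g⁻¹ ((z * rt g k (z ^ k)) ^ k) = z ^ k := by
      rw [mul_pow, mul_comm, rt_pow g k hk, act_inv_act]
    simp only [h1]
    rw [mul_assoc, mul_inv_cancel₀ (rt_ne _ _ _), mul_one]
  right_inv y := by
    set w := act g⁻¹ (y ^ k) with hw
    have h1 : (y * (rt g k w)⁻¹) ^ k = w := by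
      have h2 : rt g k w ^ k * w = y ^ k := by
        rw [rt_pow g k hk, hw, act_act_inv]
      rw [mul_pow, inv_pow, ← h2]
      have := pow_ne_zero k (rt_ne g k w)
      field_simp
    change (y * (rt g k w)⁻¹) * rt g k ((y * (rt g k w)⁻¹) ^ k) = y
    rw [h1, mul_assoc, inv_mul_cancel₀ (rt_ne _ _ _), mul_one]
  continuous_toFun := by
    obtain ⟨C, hC0, hC⟩ := norm_rt_le g k hk
    rw [continuous_iff_continuousAt]
    intro z
    by_cases hz : z = 0
    · subst hz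
      rw [ContinuousAt, zero_mul]
      rw [tendsto_zero_iff_norm_tendsto_zero]
      refine squeeze_zero (fun _ => norm_nonneg _) (fun z => ?_)
        (g := fun z : ℂ => ‖z‖ * C) ?_
      · rw [norm_mul]; exact mul_le_mul_of_nonneg_left (hC _).1 (norm_nonneg _)
      · have : Tendsto (fun z : ℂ => ‖z‖ * C) (𝓝 0) (𝓝 (‖(0 : ℂ)‖ * C)) :=
          (continuous_norm.mul continuous_const).tendsto 0
        simpa using this
    · refine continuousAt_id.mul ?_
      have h1 : ContinuousAt (fun z : ℂ => z ^ k) z := (continuous_pow k).continuousAt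
      exact ContinuousAt.comp (f := fun z : ℂ => z ^ k) (continuousAt_rt g k (pow_ne_zero k hz)) h1
  continuous_invFun := by
    obtain ⟨C, hC0, hC⟩ := norm_rt_le g k hk
    rw [continuous_iff_continuousAt]
    intro z
    by_cases hz : z = 0
    · subst hz
      rw [ContinuousAt, zero_mul]
      rw [tendsto_zero_iff_norm_tendsto_zero]
      refine squeeze_zero (fun _ => norm_nonneg _) (fun z => ?_)
        (g := fun z : ℂ => ‖z‖ * C) ?_
      · rw [norm_mul, norm_inv]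
        refine mul_le_mul_of_nonneg_left ?_ (norm_nonneg _)
        rw [inv_le_comm₀ (norm_pos_iff.2 (rt_ne _ _ _)) hC0]
        exact (hC _).2
      · have : Tendsto (fun z : ℂ => ‖z‖ * C) (𝓝 0) (𝓝 (‖(0 : ℂ)‖ * C)) :=
          (continuous_norm.mul continuous_const).tendsto 0
        simpa using this
    · refine continuousAt_id.mul (ContinuousAt.inv₀ ?_ (rt_ne _ _ _))
      have h1 : ContinuousAt (fun z : ℂ => act g⁻¹ (z ^ k)) z :=
        ((continuous_act g⁻¹).comp (continuous_pow k)).continuousAt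
      have h2 : act g⁻¹ (z ^ k) ≠ 0 := by
        intro h
        have := act_act_inv g (z ^ k)
        rw [h, act_zero] at this
        exact pow_ne_zero k hz this.symm
      exact ContinuousAt.comp (f := fun z : ℂ => act g⁻¹ (z ^ k)) (continuousAt_rt g k h2) h1

lemma hom_zero (g : SL(2, ℝ)) (k : ℕ) (hk : 0 < k) : hom g k hk 0 = 0 := by
  change (0 : ℂ) * _ = 0
  rw [zero_mul]

lemma hom_pow (g : SL(2, ℝ)) (k : ℕ) (hk : 0 < k) (z : ℂ) :
    hom g k hk z ^ k = act g (z ^ k) := by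
  change (z * rt g k (z ^ k)) ^ k = _
  rw [mul_pow, mul_comm, rt_pow g k hk]

end SLAct

open SLAct

theorem existsSLAction.{u} : ExistsSLAction.{u} := by
  intro X _ M g
  refine ⟨{
    atlas := (fun a : Set X × (X → ℂ) => (a.1, fun x => act g (a.2 x))) '' M.atlas
    isOpen_source := ?_
    compat := ?_
    normal_form := ?_ }, rfl⟩
  · rintro _ ⟨a, ha, rfl⟩
    exact M.isOpen_source a ha
  · rintro _ ⟨a, ha, rfl⟩ _ ⟨b, hb, rfl⟩ p hpa hpb
    obtain ⟨c, hc⟩ := M.compat a ha b hb p hpa hpb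
    refine ⟨act g c, hc.mono fun x hx => ?_⟩
    simp only [hx, act_add]
  · intro p
    obtain ⟨a, ha, k, ζ, hk, hp, hsub, hζ, hnf⟩ := M.normal_form p
    refine ⟨_, ⟨a, ha, rfl⟩, k, ζ.transHomeomorph (hom g k hk), hk, hp, hsub, ?_, ?_⟩
    · change hom g k hk (ζ p) = 0
      rw [hζ, hom_zero]
    · intro x hx
      change act g (a.2 x) = act g (a.2 p) + (hom g k hk (ζ x)) ^ k
      rw [hom_pow, hnf x hx, act_add]

end Pool.Agent.Lib.MP_755177_an
end

section
set_option autoImplicit false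

/-!
# Module AFF: affine homeomorphisms form a group and act on closed trajectories
-/

open Set Filter Topology Complex Metric
open scoped MatrixGroups ComplexConjugate

namespace Pool.Agent.Lib.MP_755177_an

open CylP

open SLAct

theorem TransStr.exists_chart {X : Type*} [TopologicalSpace X] (M : TransStr X) (p : X) :
    ∃ a ∈ M.atlas, p ∈ a.1 := by
  obtain ⟨a, ha, k, ζ, _, h1, h2, _, _⟩ := M.normal_form p
  exact ⟨a, ha, h2 h1⟩

theorem isAffine_refl {X : Type*} [TopologicalSpace X] (M : TransStr X) :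
    M.IsAffine 1 (Homeomorph.refl X) := by
  intro a ha b hb p hp hq
  obtain ⟨c, hc⟩ := M.compat b hb a ha p hq hp
  refine ⟨c, ?_⟩
  filter_upwards [hc] with x hx
  rw [act_one]
  exact hx

theorem isAffine_symm {X : Type*} [TopologicalSpace X] {M : TransStr X} {A : SL(2, ℝ)}
    {φ : X ≃ₜ X} (h : M.IsAffine A φ) : M.IsAffine A⁻¹ φ.symm := by
  intro a ha b hb p hp hq
  obtain ⟨c, hc⟩ := h b hb a ha (φ.symm p) hq (by rwa [φ.apply_symm_apply])
  refine ⟨act A⁻¹ (-c), ?_⟩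
  have h1 : ∀ᶠ y in 𝓝 p, a.2 (φ (φ.symm y)) = act A (b.2 (φ.symm y)) + c :=
    φ.symm.continuous.continuousAt.eventually hc
  filter_upwards [h1] with y hy
  rw [φ.apply_symm_apply] at hy
  rw [← act_add, hy, add_neg_cancel_right, act_inv_act]

theorem isAffine_trans {X : Type*} [TopologicalSpace X] {M : TransStr X} {A B : SL(2, ℝ)}
    {φ ψ : X ≃ₜ X} (h : M.IsAffine A φ) (h' : M.IsAffine B ψ) :
    M.IsAffine (A * B) (ψ.trans φ) := by
  intro a ha b hb p hp hq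
  obtain ⟨d, hd, hpd⟩ := M.exists_chart (ψ p)
  obtain ⟨c, hc⟩ := h' a ha d hd p hp hpd
  obtain ⟨c', hc'⟩ := h d hd b hb (ψ p) hpd hq
  refine ⟨act A c + c', ?_⟩
  have h1 : ∀ᶠ y in 𝓝 p, b.2 (φ (ψ y)) = act A (d.2 (ψ y)) + c' :=
    ψ.continuous.continuousAt.eventually hc'
  filter_upwards [hc, h1] with y e1 e2
  show b.2 (φ (ψ y)) = _
  rw [e2, e1, act_add, act_mul, add_assoc]

/-- The image of a translation map under an affine homeomorphism. -/
theorem IsTrans_affine {X : Type*} [TopologicalSpace X] {M : TransStr X} {A : SL(2, ℝ)}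
    {φ : X ≃ₜ X} (h : M.IsAffine A φ) {f : ℂ → X} {S : Set ℂ} (hf : M.IsTrans f S) :
    M.IsTrans (fun w => φ (f (act A⁻¹ w))) {w | act A⁻¹ w ∈ S} := by
  have hc : ContinuousOn (act A⁻¹) {w | act A⁻¹ w ∈ S} := (continuous_act _).continuousOn
  have hm : MapsTo (act A⁻¹) {w | act A⁻¹ w ∈ S} S := fun w hw => hw
  refine ⟨φ.continuous.comp_continuousOn (hf.1.comp hc hm), fun w hw b hb hwb => ?_⟩
  obtain ⟨d, hd, hpd⟩ := M.exists_chart (f (act A⁻¹ w))
  obtain ⟨c, hc1⟩ := hf.2 _ hw d hd hpd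
  obtain ⟨c', hc'⟩ := h d hd b hb _ hpd hwb
  have h1 : Tendsto (act A⁻¹) (𝓝[{w | act A⁻¹ w ∈ S}] w) (𝓝[S] (act A⁻¹ w)) :=
    (hc w hw).tendsto_nhdsWithin hm
  have h2 : Tendsto (fun w => f (act A⁻¹ w)) (𝓝[{w | act A⁻¹ w ∈ S}] w) (𝓝 (f (act A⁻¹ w))) :=
    (hf.1 _ hw).tendsto.comp h1
  refine ⟨act A c + c', ?_⟩
  filter_upwards [h1.eventually hc1, h2.eventually hc'] with y e1 e2
  rw [e2, e1, act_add, act_act_inv, add_assoc]

/-- A translation map on a compact set hits a finite set only finitely often. -/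
theorem finite_hits {X : Type*} [TopologicalSpace X] [T2Space X] {M : TransStr X} {f : ℂ → X}
    {K : Set ℂ} (hf : M.IsTrans f K) (hK : IsCompact K) {R : Set X} (hR : R.Finite) :
    {w | w ∈ K ∧ f w ∈ R}.Finite := by
  by_contra hinf
  obtain ⟨x, hxK, hx⟩ := Set.Infinite.exists_accPt_of_subset_isCompact hinf hK (fun w hw => hw.1)
  obtain ⟨a, ha, hxa⟩ := M.exists_chart (f x)
  obtain ⟨c, hc⟩ := hf.2 x hxK a ha hxa
  have h0 := hc.self_of_nhdsWithin hxK
  have h1 : ∀ᶠ w in 𝓝[K] x, f w ∉ R \ {f x} := by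
    have ho : (R \ {f x})ᶜ ∈ 𝓝 (f x) :=
      (hR.subset sdiff_subset).isClosed.isOpen_compl.mem_nhds (fun h => h.2 rfl)
    exact (hf.1 x hxK).eventually ho
  rw [eventually_nhdsWithin_iff] at h1 hc
  have h2 : ∃ᶠ w in 𝓝 x, w ≠ x ∧ w ∈ {w | w ∈ K ∧ f w ∈ R} := accPt_iff_frequently.mp hx
  obtain ⟨w, ⟨hwx, hwK, hwR⟩, e1, e2⟩ := (h2.and_eventually (h1.and hc)).exists
  have e3 : f w = f x := by
    by_contra hne
    exact e1 hwK ⟨hwR, hne⟩
  have e4 := e2 hwK
  rw [e3, h0] at e4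
  exact hwx (add_right_cancel e4).symm

theorem affGroup.{u} : AffGroup.{u} := by
  intro X _ _ _ M
  refine ⟨isAffine_refl _, fun A φ h => isAffine_symm h, fun A φ B ψ h h' => isAffine_trans h h',
    ?_⟩
  rintro A φ v h ⟨hv, f, hf, hfv⟩
  have hcomp : IsCompact (segment ℝ 0 v) := by
    rw [segment_eq_image]
    exact isCompact_Icc.image (by fun_prop)
  obtain ⟨δ, hδ, F, hF, he⟩ := MSurf.exists_tube hf hcomp (convex_segment 0 v)
  have h0s := left_mem_segment ℝ 0 v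
  have hvs := right_mem_segment ℝ 0 v
  -- periodicity near `0`
  have hper : ∀ w ∈ ball (0 : ℂ) δ, F w = F (w + v) := by
    have h1 : ball (0 : ℂ) δ ⊆ thickening δ (segment ℝ 0 v) := ball_subset_thickening h0s δ
    have h2 : ball (0 : ℂ) δ ⊆ {w | w + v ∈ thickening δ (segment ℝ 0 v)} := by
      intro w hw
      refine ball_subset_thickening hvs δ ?_
      rw [mem_ball_iff_norm, add_sub_cancel_right]
      rwa [mem_ball_zero_iff] at hw
    have h3 := (hF.mono h1).eqOn ((hF.comp_add v).mono h2) (convex_ball 0 δ).isPreconnected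
      (z := 0) (mem_ball_self hδ) (by
        show F 0 = F (0 + v)
        rw [zero_add, he h0s, he hvs, hfv])
    exact fun w hw => h3 hw
  -- the bad set
  have hKT : cthickening (δ / 2) (segment ℝ 0 v) ⊆ thickening δ (segment ℝ 0 v) :=
    cthickening_subset_thickening' hδ (by linarith) _
  have hKc : IsCompact (cthickening (δ / 2) (segment ℝ 0 v)) := hcomp.cthickening
  have hfin := finite_hits (hF.mono hKT).1 hKc (R := φ ⁻¹' M.Sg)
    (M.finite_Sg.preimage φ.injective.injOn)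
  have hfin2 := hfin.image (fun w => cr v w / ‖v‖ ^ 2)
  have hvpos : 0 < ‖v‖ := norm_pos_iff.mpr hv
  obtain ⟨ε, ⟨hε0, hε1⟩, hε⟩ : ∃ ε ∈ Ioo (0 : ℝ) (δ / (2 * ‖v‖)),
      ε ∉ (fun w => cr v w / ‖v‖ ^ 2) ''
        {w | w ∈ cthickening (δ / 2) (segment ℝ 0 v) ∧ F w ∈ φ ⁻¹' M.Sg} :=
    ((Ioo_infinite (by positivity : (0 : ℝ) < δ / (2 * ‖v‖))).sdiff hfin2).nonempty
  have hεv : ‖(ε : ℂ) * (I * v)‖ < δ / 2 := by
    rw [norm_mul, norm_mul, Complex.norm_I, one_mul, Complex.norm_real, Real.norm_of_nonneg hε0.le]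
    rw [lt_div_iff₀ (by positivity)] at hε1
    linarith
  set u : ℂ := (ε : ℂ) * (I * v) with hu
  have hsh : ∀ w ∈ segment ℝ 0 v, w + u ∈ cthickening (δ / 2) (segment ℝ 0 v) := by
    intro w hw
    refine thickening_subset_cthickening _ _ (ball_subset_thickening hw (δ / 2) ?_)
    rw [mem_ball_iff_norm, add_sub_cancel_left]
    exact hεv
  have hsub : segment ℝ 0 v ⊆ {w | w + u ∈ thickening δ (segment ℝ 0 v)} :=
    fun w hw => hKT (hsh w hw)
  have hG : M.IsTr (fun w => F (w + u)) (segment ℝ 0 v) := (hF.comp_add u).mono hsub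
  have hsegcr : ∀ w ∈ segment ℝ 0 v, cr v w = 0 := by
    rintro w ⟨s, t, _, _, _, rfl⟩
    rw [cr_add, Complex.real_smul, Complex.real_smul, cr_mul_right, cr_mul_right, cr_self, cr_zero]
    simp
  have hgood : ∀ w ∈ segment ℝ 0 v, φ (F (w + u)) ∉ M.Sg := by
    intro w hw hbad
    apply hε
    refine ⟨w + u, ⟨hsh w hw, hbad⟩, ?_⟩
    show cr v (w + u) / ‖v‖ ^ 2 = ε
    rw [cr_add, hsegcr w hw, hu, cr_mul_right, cr_I_mul]
    field_simp
    ring
  have hact : ∀ w ∈ segment ℝ 0 (act A v), act A⁻¹ w ∈ segment ℝ 0 v := by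
    rintro w ⟨s, t, hs, ht, hst, rfl⟩
    refine ⟨s, t, hs, ht, hst, ?_⟩
    have e1 : ∀ (g : SL(2, ℝ)) (r : ℝ) (z : ℂ), act g (r • z) = r • act g z := by
      intro g r z
      apply Complex.ext <;> simp [act] <;> ring
    rw [act_add, e1, e1, act_inv_act, act_zero]
  refine ⟨fun h0 => hv ?_, fun w => φ (F (act A⁻¹ w + u)), ⟨?_, ?_⟩, ?_⟩
  · rw [← act_inv_act A v, h0, act_zero]
  · exact (IsTrans_affine h hG.1).mono hact
  · intro w hw
    exact hgood _ (hact w hw)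
  · show φ (F (act A⁻¹ 0 + u)) = φ (F (act A⁻¹ (act A v) + u))
    rw [act_zero, act_inv_act, zero_add, add_comm v u, ← hper u]
    rw [mem_ball_zero_iff]
    linarith

end Pool.Agent.Lib.MP_755177_an
end

section
set_option autoImplicit false

/-!
# Final assembly, part B: the lattice property of a marked completely parabolic surface
-/

open Set Filter Topology Complex Metric
open scoped MatrixGroups ComplexConjugate

namespace Pool.Agent.Lib.MP_755177_an

namespace Final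

/-! ### Linear algebra -/

/-- Stretching a vector. -/
theorem exists_stretch {v : ℂ} (hv : v ≠ 0) {L : ℝ} (hL : 0 < L) :
    ∃ g : SL(2, ℝ), ‖act g v‖ = L := by
  have hn : 0 < v.re * v.re + v.im * v.im := by
    have := Complex.normSq_pos.mpr hv
    rwa [Complex.normSq_apply] at this
  set S := v.re * v.re + v.im * v.im with hS
  have hdet : (!![L * v.re / S, L * v.im / S; -v.im / L, v.re / L] :
      Matrix (Fin 2) (Fin 2) ℝ).det = 1 := by
    rw [Matrix.det_fin_two_of]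
    field_simp
    rw [hS]
    ring
  refine ⟨⟨_, hdet⟩, ?_⟩
  have h1 : act ⟨_, hdet⟩ v = (L : ℂ) := by
    apply Complex.ext
    · simp only [act, Matrix.of_apply, Matrix.cons_val',
        Matrix.cons_val_zero, Matrix.cons_val_one, Matrix.cons_val_fin_one, Complex.ofReal_re]
      field_simp
      rw [hS]
      ring
    · simp only [act, Matrix.of_apply, Matrix.cons_val',
        Matrix.cons_val_zero, Matrix.cons_val_one, Matrix.cons_val_fin_one, Complex.ofReal_im]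
      field_simp
      ring
  rw [h1, Complex.norm_real, Real.norm_eq_abs, abs_of_pos hL]

/-- The shears fixing a vector. -/
theorem exists_shear (v : ℂ) (s : ℝ) : ∃ g : SL(2, ℝ), ∀ z, act g z = z + (s * cr v z : ℝ) * v := by
  have hdet : (!![1 - s * (v.re * v.im), s * (v.re * v.re); -(s * (v.im * v.im)),
      1 + s * (v.re * v.im)] : Matrix (Fin 2) (Fin 2) ℝ).det = 1 := by
    rw [Matrix.det_fin_two_of]
    ring
  refine ⟨⟨_, hdet⟩, fun z => ?_⟩
  apply Complex.ext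
  · simp only [act, Matrix.of_apply, Matrix.cons_val',
      Matrix.cons_val_zero, Matrix.cons_val_one, Matrix.cons_val_fin_one, Complex.add_re,
      Complex.re_ofReal_mul, cr_eq]
    ring
  · simp only [act, Matrix.of_apply, Matrix.cons_val',
      Matrix.cons_val_zero, Matrix.cons_val_one, Matrix.cons_val_fin_one, Complex.add_im,
      Complex.im_ofReal_mul, cr_eq]
    ring

universe u

variable {X : Type u} [TopologicalSpace X] {M : MSurf X}

/-- The affine group. -/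
def aff [CompactSpace X] [T2Space X] (hAff : AffGroup.{u}) (M : MSurf X) : Subgroup SL(2, ℝ) where
  carrier := {A | ∃ φ : X ≃ₜ X, M.toTransStr.IsAffine A φ}
  one_mem' := ⟨_, (hAff X M).1⟩
  mul_mem' := by
    rintro A B ⟨φ, hφ⟩ ⟨ψ, hψ⟩
    exact ⟨_, (hAff X M).2.2.1 A φ B ψ hφ hψ⟩
  inv_mem' := by
    rintro A ⟨φ, hφ⟩
    exact ⟨_, (hAff X M).2.1 A φ hφ⟩

theorem mem_aff [CompactSpace X] [T2Space X] {hAff : AffGroup.{u}} {A : SL(2, ℝ)} :
    A ∈ aff hAff M ↔ ∃ φ : X ≃ₜ X, M.toTransStr.IsAffine A φ := Iff.rfl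

theorem prim_act [CompactSpace X] [T2Space X] (hAff : AffGroup.{u}) {A : SL(2, ℝ)}
    (hA : A ∈ aff hAff M) {v : ℂ} (hv : v ∈ Prim M) : act A v ∈ Prim M := by
  obtain ⟨φ, hφ⟩ := hA
  refine ⟨(hAff X M).2.2.2 A φ v hφ hv.1, fun t h0 h1 hc => hv.2 t h0 h1 ?_⟩
  have h2 := (hAff X M).2.2.2 _ _ _ ((hAff X M).2.1 A φ hφ) hc
  rw [← act_real_mul, SLAct.act_inv_act] at h2
  exact h2

section main

variable [CompactSpace X] [T2Space X] [ConnectedSpace X]

/-- The short primitive vectors. -/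
theorem exists_short (hS : ShortCyl.{u}) (hMax : MaxCyl.{u}) (hFam : ExistsFam.{u})
    (hSg : M.Sg.Nonempty) (hC : M.CPar) : ∃ C : ℝ, 0 < C ∧ ∀ g : SL(2, ℝ), ∃ v ∈ Prim M,
      ‖act g v‖ ≤ C := by
  obtain ⟨C, hCs⟩ := hS X M hSg
  refine ⟨max C 1, by positivity, fun g => ?_⟩
  obtain ⟨v, hv, hle⟩ := hCs g
  obtain ⟨t, h0, h1, ht⟩ := exists_prim hMax hFam hSg hC hv
  refine ⟨_, ht, ?_⟩
  rw [act_real_mul, norm_mul, Complex.norm_real, Real.norm_eq_abs, abs_of_pos h0]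
  refine le_trans ?_ (hle.trans (le_max_left _ _))
  exact mul_le_of_le_one_left (norm_nonneg _) h1

omit [CompactSpace X] [T2Space X] [ConnectedSpace X] in
/-- A companion of a primitive vector in the metric of `g`. -/
theorem exists_companion {C : ℝ} (hC0 : 0 < C)
    (hshort : ∀ g : SL(2, ℝ), ∃ v ∈ Prim M, ‖act g v‖ ≤ C) {v : ℂ} (hv : v ∈ Prim M)
    {g : SL(2, ℝ)} (hg : ‖act g v‖ = 2 * C) : ∃ w ∈ Prim M, 0 < cr v w ∧ cr v w ≤ 2 * C * C ∧
      ‖act g w‖ ≤ C := by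
  obtain ⟨w, hw, hle⟩ := hshort g
  have h1 : cr v w ≠ 0 := by
    intro h1
    have hv0 := prim_ne_zero hv
    have hn : 0 < v.re * v.re + v.im * v.im := by
      have := Complex.normSq_pos.mpr hv0
      rwa [Complex.normSq_apply] at this
    have h2 : w = (((v.re * w.re + v.im * w.im) / (v.re * v.re + v.im * v.im) : ℝ) : ℂ) * v := by
      rw [cr_eq] at h1
      apply Complex.ext
      · rw [Complex.re_ofReal_mul, div_mul_eq_mul_div, eq_div_iff hn.ne']
        linear_combination -v.im * h1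
      · rw [Complex.im_ofReal_mul, div_mul_eq_mul_div, eq_div_iff hn.ne']
        linear_combination v.re * h1
    set t := (v.re * w.re + v.im * w.im) / (v.re * v.re + v.im * v.im)
    have h3 := prim_parallel hv (t := t) (h2 ▸ hw)
    rw [h2, act_real_mul, norm_mul, Complex.norm_real, Real.norm_eq_abs, h3, hg, one_mul] at hle
    linarith
  have h2 : |cr v w| ≤ 2 * C * C := by
    rw [← cr_act g]
    refine (abs_cr_le _ _).trans ?_
    rw [hg]
    gcongr
  rcases lt_or_gt_of_ne h1 with h3 | h3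
  · refine ⟨-w, prim_neg hw, ?_, ?_, ?_⟩
    · rw [Two.cr_neg]
      linarith
    · rw [Two.cr_neg]
      exact (neg_le_abs _).trans h2
    · rw [act_neg, norm_neg]
      exact hle
  · exact ⟨w, hw, h3, (le_abs_self _).trans h2, hle⟩

/-- Finiteness of the pairs of primitive vectors with bounded cross product. -/
theorem pairs (hT : TwoFam.{u}) (hMax : MaxCyl.{u}) (hFam : ExistsFam.{u})
    (hPair : PairFinite.{u}) (hAff : AffGroup.{u}) (hAlg : AlgFinite) (hField : ExistsField)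
    (hSg : M.Sg.Nonempty) (hC : M.CPar) {v0 w0 : ℂ} (hv0 : v0 ∈ Prim M) (hw0 : w0 ∈ Prim M)
    (hκ : 0 < cr v0 w0) (B : ℝ) : ∃ (K : Set ℝ) (S : Set (ℂ × ℂ)), K.Finite ∧ S.Finite ∧
      ∀ v ∈ Prim M, ∀ w ∈ Prim M, 0 < cr v w → cr v w ≤ B →
        cr v w ∈ K ∧ ∃ A ∈ aff hAff M, (act A v, act A w) ∈ S := by
  have hfam : ∀ v ∈ Prim M, ∃ (N : ℕ) (γ a' : Fin N → ℝ) (f' : Fin N → ℂ → X)
      (i0 : Fin N), FamOf M v γ a' f' i0 := by
    intro v hv
    obtain ⟨a, f, h⟩ := prim_cyl hMax hSg hv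
    obtain ⟨N, γ, a', f', i0, hF, -⟩ := exists_fam hFam hC h
    exact ⟨N, γ, a', f', i0, hF⟩
  obtain ⟨N0, γ0, a0, f0, i0, hF0⟩ := hfam v0 hv0
  obtain ⟨N0', δ0, b0, g0, j0, hG0⟩ := hfam w0 hw0
  obtain ⟨F, hF, hFall⟩ := exists_finite hT hAlg hField hC hF0 hG0 hκ
  obtain ⟨ε, hε, hεF⟩ := exists_lb hF
  set tot := ∑ i, a0 i with htot
  obtain ⟨Nmax, hNmax⟩ := exists_nat_ge (tot / ε)
  have hN : ∀ {v : ℂ} {N1 : ℕ} {γ1 a1 : Fin N1 → ℝ} {f1 : Fin N1 → ℂ → X} {i1 : Fin N1},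
      FamOf M v γ1 a1 f1 i1 → N1 ≤ Nmax := by
    intro v N1 γ1 a1 f1 i1 h
    have h1 : (N1 : ℝ) * ε ≤ tot := by
      rw [htot, ← tot_const hT hF0 hG0 hκ h]
      have h2 : ∑ _l : Fin N1, ε ≤ ∑ l, a1 l :=
        Finset.sum_le_sum fun l _ => hεF _ (hFall _ _ _ _ _ _ h l).1 (h.fam.cyl l).pos
      simpa using h2
    have h3 : (N1 : ℝ) ≤ Nmax := by
      refine le_trans ?_ hNmax
      rwa [le_div_iff₀ hε]
    exact_mod_cast h3
  -- the values of the cross product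
  set S1 : Set ℝ := (fun p : ℝ × ℝ => p.1 / p.2) '' ({x ∈ F | 0 < x} ×ˢ {x ∈ F | 0 < x}) with hS1
  have hS1f : S1.Finite := ((hF.subset fun x hx => hx.1).prod (hF.subset fun x hx => hx.1)).image _
  have hS1p : ∀ s ∈ S1, 0 < s := by
    rintro _ ⟨p, ⟨h1, h2⟩, rfl⟩
    exact div_pos h1.2 h2.2
  set K : Set ℝ := {x | x ∈ AddSubmonoid.closure S1 ∧ x ≤ B} with hK
  have hKf : K.Finite := finite_closure_le hS1f hS1p B
  obtain ⟨S, hS, hSall⟩ := hPair X M (K ∪ F) Nmax (hKf.union hF)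
  refine ⟨K, S, hKf, hS, fun v hv w hw h0 h1 => ?_⟩
  obtain ⟨N1, γ1, a1, f1, i1, h2⟩ := hfam v hv
  obtain ⟨N2, δ1, b1, g1, j1, h3⟩ := hfam w hw
  have hKmem : cr v w ∈ K := by
    refine ⟨?_, h1⟩
    obtain ⟨I, hI, -, -⟩ := two_I hT h2 h3 h0
    have h4 := hI i1
    rw [h2.one] at h4
    have h5 : cr v w = ∑ j, (I i1 j : ℝ) * (b1 j / δ1 j) := by
      calc cr v w = cr v w * ∑ j, I i1 j * (b1 j / (δ1 j * cr v w)) := by rw [h4, mul_one]
        _ = ∑ j, (I i1 j : ℝ) * (b1 j / δ1 j) := by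
          rw [Finset.mul_sum]
          refine Finset.sum_congr rfl fun j _ => ?_
          have := (h3.pos j).ne'
          field_simp
    rw [h5]
    refine sum_mem fun j _ => ?_
    rw [← nsmul_eq_mul]
    have h6 : b1 j / δ1 j ∈ S1 := ⟨(b1 j, δ1 j), ⟨⟨(hFall _ _ _ _ _ _ h3 j).1,
      (h3.fam.cyl j).pos⟩, ⟨(hFall _ _ _ _ _ _ h3 j).2, h3.pos j⟩⟩, rfl⟩
    exact nsmul_mem (AddSubmonoid.subset_closure h6) _
  refine ⟨hKmem, ?_⟩
  obtain ⟨A, ⟨φ, hφ⟩, hAS⟩ := hSall N1 N2 v w γ1 a1 δ1 b1 f1 g1 (hN h2) (hN h3) h0 (Or.inl hKmem)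
    (fun i => ⟨h2.pos i, Or.inr (hFall _ _ _ _ _ _ h2 i).2⟩)
    (fun j => ⟨h3.pos j, Or.inr (hFall _ _ _ _ _ _ h3 j).2⟩)
    (fun i => Or.inr (hFall _ _ _ _ _ _ h2 i).1) (fun j => Or.inr (hFall _ _ _ _ _ _ h3 j).1)
    h2.fam h3.fam
  exact ⟨A, ⟨φ, hφ⟩, hAS⟩

omit [CompactSpace X] [T2Space X] [ConnectedSpace X] in
/-- Infinitely many companions. -/
theorem infinite_companions {C : ℝ} (hC0 : 0 < C)
    (hshort : ∀ g : SL(2, ℝ), ∃ v ∈ Prim M, ‖act g v‖ ≤ C) {v : ℂ} (hv : v ∈ Prim M) :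
    {w | w ∈ Prim M ∧ 0 < cr v w ∧ cr v w ≤ 2 * C * C}.Infinite := by
  intro hfin
  obtain ⟨g, hg⟩ := exists_stretch (prim_ne_zero hv) (L := 2 * C) (by linarith)
  obtain ⟨ε, hε, hεF⟩ := exists_lb (hfin.image (cr v))
  obtain ⟨D, hD⟩ := (hfin.image (fun w => ‖act g w‖)).bddAbove
  have hε' : 0 < 2 * C * ε := by positivity
  set s : ℝ := (C + |D| + 1) / (2 * C * ε) with hs
  have hs0 : 0 < s := by positivity
  obtain ⟨k, hk⟩ := exists_shear v s
  have hkv : act k v = v := by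
    rw [hk, Two.cr_self]
    simp
  obtain ⟨w, hw, h1, h2, h3⟩ := exists_companion hC0 hshort hv (g := g * k) (by
    rw [SLAct.act_mul, hkv, hg])
  have hwE : w ∈ {w | w ∈ Prim M ∧ 0 < cr v w ∧ cr v w ≤ 2 * C * C} := ⟨hw, h1, h2⟩
  have h4 : ε ≤ cr v w := hεF _ ⟨w, hwE, rfl⟩ h1
  have h5 : ‖act g w‖ ≤ |D| := (hD ⟨w, hwE, rfl⟩).trans (le_abs_self D)
  rw [SLAct.act_mul, hk, SLAct.act_add, act_real_mul] at h3
  have h6 : ‖((s * cr v w : ℝ) : ℂ) * act g v‖ = s * cr v w * (2 * C) := by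
    rw [norm_mul, hg, Complex.norm_real, Real.norm_eq_abs, abs_of_pos (mul_pos hs0 h1)]
  have h7 : ‖((s * cr v w : ℝ) : ℂ) * act g v‖ ≤
      ‖act g w + ((s * cr v w : ℝ) : ℂ) * act g v‖ + ‖act g w‖ := by
    have := norm_sub_le (act g w + ((s * cr v w : ℝ) : ℂ) * act g v) (act g w)
    rwa [add_sub_cancel_left] at this
  rw [h6] at h7
  have h8 : s * ε * (2 * C) ≤ s * cr v w * (2 * C) := by gcongr
  have h9 : s * ε * (2 * C) = C + |D| + 1 := by
    rw [hs]
    field_simp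
  linarith

/-- The lattice property. -/
theorem isLattice_aff (hS : ShortCyl.{u}) (hT : TwoFam.{u}) (hMax : MaxCyl.{u})
    (hFam : ExistsFam.{u}) (hPair : PairFinite.{u}) (hAff : AffGroup.{u}) (hAlg : AlgFinite)
    (hField : ExistsField) (hLC : LatticeCriterion) (hSg : M.Sg.Nonempty) (hC : M.CPar) :
    IsLattice (aff hAff M) := by
  obtain ⟨C, hC0, hshort⟩ := exists_short hS hMax hFam hSg hC
  -- two fixed vectors
  obtain ⟨v0, hv0, -⟩ := hshort 1
  have hcomp : ∀ v ∈ Prim M, ∃ w ∈ Prim M, 0 < cr v w ∧ cr v w ≤ 2 * C * C := by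
    intro v hv
    obtain ⟨g, hg⟩ := exists_stretch (prim_ne_zero hv) (L := 2 * C) (by linarith)
    obtain ⟨w, hw, h1, h2, -⟩ := exists_companion hC0 hshort hv hg
    exact ⟨w, hw, h1, h2⟩
  obtain ⟨w0, hw0, hκ, -⟩ := hcomp v0 hv0
  have hpairs := fun B => pairs hT hMax hFam hPair hAff hAlg hField hSg hC hv0 hw0 hκ B
  refine hLC (aff hAff M) (Prim M) C (fun γ hγ v hv => prim_act hAff hγ hv)
    (fun h => prim_ne_zero h rfl) ⟨v0, hv0, w0, hw0, hκ.ne'⟩ (fun R => ?_) ?_ (fun v hv => ?_)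
    hshort
  · -- local finiteness
    obtain ⟨K, S, hK, -, hall⟩ := hpairs (R * ‖v0‖ + R * ‖w0‖)
    set K' : Set ℝ := K ∪ (fun x => -x) '' K ∪ {0} with hK'
    have hK'f : K'.Finite := (hK.union (hK.image _)).union (finite_singleton 0)
    have hmem : ∀ v ∈ Prim M, ‖v‖ ≤ R → ∀ w ∈ Prim M, R * ‖w‖ ≤ R * ‖v0‖ + R * ‖w0‖ →
        cr v w ∈ K' := by
      intro v hv hR w hw hle
      have h1 : |cr v w| ≤ R * ‖v0‖ + R * ‖w0‖ :=
        ((abs_cr_le v w).trans (by gcongr)).trans hle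
      rcases lt_trichotomy (cr v w) 0 with h | h | h
      · left; right
        refine ⟨cr w v, (hall w hw v hv ?_ ?_).1, ?_⟩
        · rw [Two.cr_symm]; linarith
        · rw [Two.cr_symm]; exact (neg_le_abs _).trans h1
        · exact (Two.cr_symm v w).symm
      · exact Or.inr h
      · exact Or.inl (Or.inl (hall v hv w hw h ((le_abs_self _).trans h1)).1)
    refine Set.Finite.of_finite_image (f := fun v => (cr v v0, cr v w0))
      ((hK'f.prod hK'f).subset ?_) ?_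
    · rintro _ ⟨v, ⟨hv, hR⟩, rfl⟩
      have hR0 : 0 ≤ R := (norm_nonneg v).trans hR
      exact ⟨hmem v hv hR v0 hv0 (by nlinarith [norm_nonneg w0]),
        hmem v hv hR w0 hw0 (by nlinarith [norm_nonneg v0])⟩
    · intro v _ w _ h
      obtain ⟨h1, h2⟩ := Prod.mk.inj h
      rw [Two.eq_coord hκ v, Two.eq_coord hκ w, Two.xc_apply, Two.xc_apply, Two.yc_apply,
        Two.yc_apply, Two.cr_symm w0 v, Two.cr_symm w0 w, Two.cr_symm v0 v, Two.cr_symm v0 w,
        h1, h2]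
  · -- finitely many orbits
    obtain ⟨K, S, -, hSf, hall⟩ := hpairs (2 * C * C)
    refine ⟨(Prod.fst '' S) ∩ Prim M, (hSf.image _).subset inter_subset_left, inter_subset_right,
      fun v hv => ?_⟩
    obtain ⟨w, hw, h1, h2⟩ := hcomp v hv
    obtain ⟨-, A, hA, hAS⟩ := hall v hv w hw h1 h2
    exact ⟨A, hA, ⟨_, hAS, rfl⟩, prim_act hAff hA hv⟩
  · -- non trivial stabilisers
    obtain ⟨K, S, -, hSf, hall⟩ := hpairs (2 * C * C)
    have hinf := infinite_companions hC0 hshort hv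
    have h1 : ∀ w, ∃ A, w ∈ {w | w ∈ Prim M ∧ 0 < cr v w ∧ cr v w ≤ 2 * C * C} →
        A ∈ aff hAff M ∧ (act A v, act A w) ∈ S := by
      intro w
      by_cases hw : w ∈ {w | w ∈ Prim M ∧ 0 < cr v w ∧ cr v w ≤ 2 * C * C}
      · obtain ⟨-, A, hA, hAS⟩ := hall v hv w hw.1 hw.2.1 hw.2.2
        exact ⟨A, fun _ => ⟨hA, hAS⟩⟩
      · exact ⟨1, fun h => absurd h hw⟩
    choose A hA using h1
    obtain ⟨w, hw, w', hw', hne, he⟩ := hinf.exists_ne_map_eq_of_mapsTo
      (f := fun w => (act (A w) v, act (A w) w)) (t := S) (fun w hw => (hA w hw).2) hSf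
    obtain ⟨h2, h3⟩ := Prod.mk.inj he
    refine ⟨(A w')⁻¹ * A w, mul_mem (inv_mem (hA w' hw').1) (hA w hw).1, ?_, ?_⟩
    · intro h4
      apply hne
      have h5 : A w = A w' := by
        rw [inv_mul_eq_one] at h4
        exact h4.symm
      rw [h5] at h3
      rw [← SLAct.act_inv_act (A w') w, h3, SLAct.act_inv_act]
    · rw [SLAct.act_mul, h2, SLAct.act_inv_act]

end main

end Final

/-- FINAL assembly from the modules. -/
theorem final_of.{u} (hS : ShortCyl.{u}) (hT : TwoFam.{u}) (hMax : MaxCyl.{u})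
    (hFam : ExistsFam.{u}) (hPair : PairFinite.{u}) (hAff : AffGroup.{u}) (hAlg : AlgFinite)
    (hField : ExistsField) (hLC : LatticeCriterion) (hTr : TransCPar.{u}) (X : Type u)
    [TopologicalSpace X] [CompactSpace X] [T2Space X] [ConnectedSpace X] (M : TransStr X)
    (hM : M.CompletelyParabolic) :
    ∃ Γ : Subgroup SL(2, ℝ), (∀ A, A ∈ Γ ↔ ∃ φ : X ≃ₜ X, M.IsAffine A φ) ∧ IsLattice Γ := by
  obtain ⟨M', rfl, hSg, hC⟩ := hTr X M hM
  exact ⟨Final.aff hAff M', fun A => Iff.rfl,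
    Final.isLattice_aff hS hT hMax hFam hPair hAff hAlg hField hLC hSg hC⟩

end Pool.Agent.Lib.MP_755177_an
end
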