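import Pool.Agent.Lib.MP_755177_an.Spec

set_option autoImplicit false

/-!
# A criterion for lattices in `SL(2,ℝ)`
-/

open Set Filter Topology Complex MeasureTheory
open scoped MatrixGroups ComplexConjugate ENNReal

namespace Pool.Agent.Lib.MP_755177_an

namespace LC

/-! ### Algebra -/

lemma act_mul (A B : SL(2, ℝ)) (z : ℂ) : act (A * B) z = act A (act B z) := by
  apply Complex.ext <;>
    simp [act, Matrix.mul_apply, Fin.sum_univ_two] <;> ring

lemma act_one (z : ℂ) : act 1 z = z := by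
  apply Complex.ext <;> simp [act]

lemma det_eq (M : SL(2, ℝ)) : M 0 0 * M 1 1 - M 0 1 * M 1 0 = 1 := by
  have h := M.2
  rw [Matrix.det_fin_two] at h
  exact h

lemma eq_one_of_fix {A : SL(2, ℝ)} {v v' : ℂ} (h : (conj v * v').im ≠ 0) (hv : act A v = v)
    (hv' : act A v' = v') : A = 1 := by
  have h1 := congrArg Complex.re hv
  have h2 := congrArg Complex.im hv
  have h3 := congrArg Complex.re hv'
  have h4 := congrArg Complex.im hv'
  simp only [act] at h1 h2 h3 h4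
  simp only [mul_im, conj_re, conj_im] at h
  have e00 : A 0 0 = 1 := by
    have : (A 0 0 - 1) * (v.re * v'.im + -v.im * v'.re) = 0 := by
      linear_combination v'.im * h1 - v.im * h3
    rcases mul_eq_zero.1 this with h5 | h5
    · linarith
    · exact absurd h5 h
  have e01 : A 0 1 = 0 := by
    have : (A 0 1) * (v.re * v'.im + -v.im * v'.re) = 0 := by
      linear_combination v.re * h3 - v'.re * h1
    rcases mul_eq_zero.1 this with h5 | h5
    · exact h5
    · exact absurd h5 h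
  have e10 : A 1 0 = 0 := by
    have : (A 1 0) * (v.re * v'.im + -v.im * v'.re) = 0 := by
      linear_combination v'.im * h2 - v.im * h4
    rcases mul_eq_zero.1 this with h5 | h5
    · exact h5
    · exact absurd h5 h
  have e11 : A 1 1 = 1 := by
    have : (A 1 1 - 1) * (v.re * v'.im + -v.im * v'.re) = 0 := by
      linear_combination v.re * h4 - v'.re * h2
    rcases mul_eq_zero.1 this with h5 | h5
    · linarith
    · exact absurd h5 h
  ext i j
  fin_cases i <;> fin_cases j <;> simp [e00, e01, e10, e11]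

/-- Squared length of the first column. -/
def q (M : SL(2, ℝ)) : ℝ := M 0 0 ^ 2 + M 1 0 ^ 2

/-- The horocyclic coordinate. -/
noncomputable def P (M : SL(2, ℝ)) : ℝ := -(M 0 0 * M 0 1 + M 1 0 * M 1 1) / q M

lemma q_pos (M : SL(2, ℝ)) : 0 < q M := by
  have h := det_eq M
  unfold q
  rcases eq_or_ne (M 0 0) 0 with h0 | h0
  · rcases eq_or_ne (M 1 0) 0 with h1 | h1
    · rw [h0, h1] at h; norm_num at h
    · positivity
  · positivity

/-- Upper unipotent matrices. -/
def uni (t : ℝ) : SL(2, ℝ) := ⟨!![1, t; 0, 1], by simp [Matrix.det_fin_two]⟩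

/-- The diagonal matrix `diag(2,1/2)`. -/
noncomputable def dg : SL(2, ℝ) := ⟨!![2, 0; 0, 1 / 2], by simp [Matrix.det_fin_two]⟩

lemma mul_entry (M N : SL(2, ℝ)) (i j : Fin 2) :
    (M * N) i j = M i 0 * N 0 j + M i 1 * N 1 j := by
  simp [Matrix.mul_apply, Fin.sum_univ_two]

@[simp] lemma uni_00 (t : ℝ) : uni t 0 0 = 1 := rfl
@[simp] lemma uni_01 (t : ℝ) : uni t 0 1 = t := rfl
@[simp] lemma uni_10 (t : ℝ) : uni t 1 0 = 0 := rfl
@[simp] lemma uni_11 (t : ℝ) : uni t 1 1 = 1 := rfl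
@[simp] lemma dg_00 : dg 0 0 = 2 := rfl
@[simp] lemma dg_01 : dg 0 1 = 0 := rfl
@[simp] lemma dg_10 : dg 1 0 = 0 := rfl
@[simp] lemma dg_11 : dg 1 1 = 1 / 2 := rfl

lemma q_uni (M : SL(2, ℝ)) (t : ℝ) : q (M * uni t) = q M := by
  simp only [q, mul_entry, uni_00, uni_10]; ring

lemma P_uni (M : SL(2, ℝ)) (t : ℝ) : P (M * uni t) = P M - t := by
  have h := (q_pos M).ne'
  have h2 : P (M * uni t) * q M = (P M - t) * q M := by
    unfold P
    rw [q_uni, sub_mul, div_mul_cancel₀ _ h, div_mul_cancel₀ _ h]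
    simp only [q, mul_entry, uni_00, uni_01, uni_10, uni_11]; ring
  exact mul_right_cancel₀ h h2

lemma q_dg (M : SL(2, ℝ)) : q (M * dg) = 4 * q M := by
  simp only [q, mul_entry, dg_00, dg_10]; ring

lemma P_dg (M : SL(2, ℝ)) : P (M * dg) = P M / 4 := by
  have h := (q_pos M).ne'
  have h2 : P (M * dg) * (4 * q M) = (P M / 4) * (4 * q M) := by
    have e : (P M / 4) * (4 * q M) = P M * q M := by ring
    rw [e]
    unfold P
    rw [q_dg, div_mul_cancel₀ _ (by positivity), div_mul_cancel₀ _ h]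
    simp only [mul_entry, dg_00, dg_01, dg_10, dg_11]; ring
  exact mul_right_cancel₀ (by positivity) h2

lemma uni_add (s t : ℝ) : uni s * uni t = uni (s + t) := by
  ext i j
  rw [mul_entry]
  fin_cases i <;> fin_cases j <;> simp [add_comm]

lemma uni_zero : uni 0 = 1 := by
  ext i j
  fin_cases i <;> fin_cases j <;> simp [uni]

lemma uni_inv (t : ℝ) : (uni t)⁻¹ = uni (-t) := by
  rw [inv_eq_iff_mul_eq_one, uni_add, add_neg_cancel, uni_zero]

lemma uni_pow (t : ℝ) (n : ℕ) : uni t ^ n = uni (n * t) := by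
  induction n with
  | zero => simp [uni_zero]
  | succ n ih => rw [pow_succ, ih, uni_add]; congr 1; push_cast; ring

lemma uni_zpow (t : ℝ) (n : ℤ) : uni t ^ n = uni (n * t) := by
  cases n with
  | ofNat n => simpa using uni_pow t n
  | negSucc n =>
    rw [zpow_negSucc, uni_pow, uni_inv]; congr 1; push_cast; ring

lemma exists_frame {v : ℂ} (hv : v ≠ 0) : ∃ h : SL(2, ℝ), act h 1 = v := by
  have hn : v.re ^ 2 + v.im ^ 2 ≠ 0 := by
    intro h
    apply hv
    have h1 : v.re = 0 := by nlinarith [sq_nonneg v.re, sq_nonneg v.im]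
    have h2 : v.im = 0 := by nlinarith [sq_nonneg v.re, sq_nonneg v.im]
    exact Complex.ext h1 h2
  refine ⟨⟨!![v.re, -v.im / (v.re ^ 2 + v.im ^ 2); v.im, v.re / (v.re ^ 2 + v.im ^ 2)], ?_⟩, ?_⟩
  · rw [Matrix.det_fin_two]
    simp only [Matrix.of_apply, Matrix.cons_val', Matrix.cons_val_zero, Matrix.cons_val_one,
      Matrix.empty_val', Matrix.cons_val_fin_one]
    field_simp
    ring
  · apply Complex.ext <;> simp [act]

lemma eq_uni_of_fix {N : SL(2, ℝ)} (h : act N 1 = 1) : N = uni (N 0 1) := by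
  have h1 := congrArg Complex.re h
  have h2 := congrArg Complex.im h
  simp [act] at h1 h2
  have h3 := det_eq N
  rw [h1, h2] at h3
  ext i j
  fin_cases i <;> fin_cases j <;> simp [uni, h1, h2] <;> linarith

lemma normSq_act_one (M : SL(2, ℝ)) : ‖act M 1‖ ^ 2 = q M := by
  rw [← Complex.normSq_eq_norm_sq, Complex.normSq_apply]
  simp [act, q]; ring

/-! ### Measure -/

lemma locallyCompactSpace_SL : LocallyCompactSpace SL(2, ℝ) := by
  have : LocallyCompactSpace (Matrix (Fin 2) (Fin 2) ℝ) :=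
    inferInstanceAs (LocallyCompactSpace (Fin 2 → Fin 2 → ℝ))
  exact (Matrix.SpecialLinearGroup.isClosedEmbedding_val
    (n := Fin 2) (R := ℝ)).locallyCompactSpace

lemma continuous_entry (i j : Fin 2) : Continuous fun M : SL(2, ℝ) => M i j := by
  have h : Continuous fun M : SL(2, ℝ) => (M : Matrix (Fin 2) (Fin 2) ℝ) :=
    continuous_subtype_val
  exact h.matrix_elem i j

lemma continuous_act (z : ℂ) : Continuous fun M : SL(2, ℝ) => act M z := by
  have h : (fun M : SL(2, ℝ) => act M z) = fun M : SL(2, ℝ) =>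
      ((M 0 0 * z.re + M 0 1 * z.im : ℝ) : ℂ) + ((M 1 0 * z.re + M 1 1 * z.im : ℝ) : ℂ) * I := by
    funext M
    apply Complex.ext <;> simp [act]
  rw [h]
  have h00 := continuous_entry 0 0
  have h01 := continuous_entry 0 1
  have h10 := continuous_entry 1 0
  have h11 := continuous_entry 1 1
  fun_prop

lemma continuous_q : Continuous q := by
  unfold q
  have h00 := continuous_entry 0 0
  have h10 := continuous_entry 1 0
  fun_prop

lemma continuous_P : Continuous P := by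
  unfold P
  have h00 := continuous_entry 0 0
  have h01 := continuous_entry 0 1
  have h10 := continuous_entry 1 0
  have h11 := continuous_entry 1 1
  exact Continuous.div (by fun_prop) continuous_q fun M => (q_pos M).ne'

/-- Slabs. -/
def slab (R a b : ℝ) : Set SL(2, ℝ) := {M | R / 4 < q M ∧ q M ≤ R ∧ a ≤ P M ∧ P M < b}

section measure

variable [MeasurableSpace SL(2, ℝ)] [BorelSpace SL(2, ℝ)] (μ : Measure SL(2, ℝ))
  [μ.IsMulLeftInvariant] [IsFiniteMeasureOnCompacts μ]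

/-- The set of inverses. -/
def pre (D : Set SL(2, ℝ)) : Set SL(2, ℝ) := {g | g⁻¹ ∈ D}

omit [MeasurableSpace SL(2, ℝ)] [BorelSpace SL(2, ℝ)] in
lemma mem_pre {D : Set SL(2, ℝ)} {g : SL(2, ℝ)} : g ∈ pre D ↔ g⁻¹ ∈ D := Iff.rfl

lemma measurable_pre {D : Set SL(2, ℝ)} (hD : MeasurableSet D) : MeasurableSet (pre D) :=
  (continuous_inv : Continuous fun g : SL(2, ℝ) => g⁻¹).measurable hD

lemma measurableSet_slab (R a b : ℝ) : MeasurableSet (slab R a b) := by
  have hq := continuous_q.measurable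
  have hP := continuous_P.measurable
  refine (measurableSet_lt measurable_const hq).inter
    ((measurableSet_le hq measurable_const).inter
    ((measurableSet_le measurable_const hP).inter (measurableSet_lt hP measurable_const)))

omit [IsFiniteMeasureOnCompacts μ] in
lemma measure_pre_mul (k : SL(2, ℝ)) (D : Set SL(2, ℝ)) :
    μ (pre {M | M * k ∈ D}) = μ (pre D) := by
  have h := measure_preimage_mul μ k⁻¹ (pre D)
  rw [← h]
  congr 1
  ext g
  simp [pre]

omit [IsFiniteMeasureOnCompacts μ] in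
lemma measure_slab_shift (R a b t : ℝ) :
    μ (pre (slab R (a + t) (b + t))) = μ (pre (slab R a b)) := by
  rw [← measure_pre_mul μ (uni t) (slab R a b)]
  congr 1
  ext g
  simp only [mem_pre, slab, mem_ofPred_eq, q_uni, P_uni]
  constructor <;> rintro ⟨h1, h2, h3, h4⟩ <;> exact ⟨h1, h2, by linarith, by linarith⟩

omit [IsFiniteMeasureOnCompacts μ] in
lemma measure_slab_scale (R l : ℝ) :
    μ (pre (slab (R / 4) 0 l)) = μ (pre (slab R 0 (l / 4))) := by
  rw [← measure_pre_mul μ dg (slab R 0 (l / 4))]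
  congr 1
  ext g
  simp only [mem_pre, slab, mem_ofPred_eq, q_dg, P_dg]
  constructor <;> rintro ⟨h1, h2, h3, h4⟩ <;>
    exact ⟨by linarith, by linarith, by linarith, by linarith⟩

omit [IsFiniteMeasureOnCompacts μ] in
lemma measure_slab_halve (R l : ℝ) (_hl : 0 ≤ l) :
    μ (pre (slab R 0 (2 * l))) = 2 * μ (pre (slab R 0 l)) := by
  have h1 : pre (slab R 0 (2 * l)) = pre (slab R 0 l) ∪ pre (slab R (0 + l) (l + l)) := by
    ext g
    simp only [mem_union, mem_pre, slab, mem_ofPred_eq]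
    constructor
    · rintro ⟨h1, h2, h3, h4⟩
      rcases lt_or_ge (P g⁻¹) l with h | h
      · exact Or.inl ⟨h1, h2, h3, h⟩
      · exact Or.inr ⟨h1, h2, by linarith, by linarith⟩
    · rintro (⟨h1, h2, h3, h4⟩ | ⟨h1, h2, h3, h4⟩)
      · exact ⟨h1, h2, h3, by linarith⟩
      · exact ⟨h1, h2, by linarith, by linarith⟩
  rw [h1, measure_union ?_ (measurable_pre (measurableSet_slab _ _ _)), measure_slab_shift,
    two_mul]
  rw [Set.disjoint_left]
  rintro g ⟨_, _, _, h4⟩ ⟨_, _, h5, _⟩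
  linarith

omit [IsFiniteMeasureOnCompacts μ] in
lemma measure_slab_quarter (R l : ℝ) (hl : 0 ≤ l) :
    μ (pre (slab (R / 4) 0 l)) = (4 : ℝ≥0∞)⁻¹ * μ (pre (slab R 0 l)) := by
  have h1 := measure_slab_halve μ R (l / 4) (by linarith)
  have h2 := measure_slab_halve μ R (l / 2) (by linarith)
  rw [show 2 * (l / 4) = l / 2 by ring] at h1
  rw [show 2 * (l / 2) = l by ring, h1, ← mul_assoc] at h2
  rw [measure_slab_scale, h2, ← mul_assoc]
  norm_num
  rw [ENNReal.inv_mul_cancel (by norm_num) (by norm_num), one_mul]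

omit [BorelSpace SL(2, ℝ)] [μ.IsMulLeftInvariant] in
lemma measure_slab_lt_top {R : ℝ} (hR : 0 < R) (l : ℝ) : μ (pre (slab R 0 l)) < ⊤ := by
  set B : ℝ := R + l ^ 2 * R + 4 / R with hB
  have hB0 : 0 ≤ B := by positivity
  let K : Set (Fin 2 → Fin 2 → ℝ) := Set.pi univ fun _ => Set.pi univ fun _ => Icc (-(B + 1)) (B + 1)
  have hK : IsCompact K := isCompact_univ_pi fun _ => isCompact_univ_pi fun _ => isCompact_Icc
  have hK' : IsCompact ((fun M : SL(2, ℝ) => (M : Matrix (Fin 2) (Fin 2) ℝ)) ⁻¹' K) :=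
    (Matrix.SpecialLinearGroup.isClosedEmbedding_val (n := Fin 2) (R := ℝ)).isCompact_preimage hK
  refine lt_of_le_of_lt (measure_mono ?_) hK'.measure_lt_top
  intro g hg
  obtain ⟨h1, h2, h3, h4⟩ := hg
  set M := g⁻¹ with hM
  have hgM : g = M⁻¹ := by rw [hM, inv_inv]
  have hq := q_pos M
  have hdet := det_eq M
  have hPq : P M * q M = -(M 0 0 * M 0 1 + M 1 0 * M 1 1) := by
    unfold P; rw [div_mul_cancel₀ _ hq.ne']
  have hy : (M 0 1 ^ 2 + M 1 1 ^ 2) * q M = (P M * q M) ^ 2 + 1 := by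
    rw [hPq]
    have h9 : (M 0 0 * M 1 1 - M 0 1 * M 1 0) ^ 2 = 1 := by rw [hdet]; norm_num
    unfold q
    linear_combination h9
  have hy2 : M 0 1 ^ 2 + M 1 1 ^ 2 = P M ^ 2 * q M + 1 / q M := by
    field_simp
    linear_combination hy
  have h5 : P M ^ 2 * q M ≤ l ^ 2 * R := by
    apply mul_le_mul _ h2 hq.le (by positivity)
    exact pow_le_pow_left₀ h3 h4.le 2
  have h6 : 1 / q M ≤ 4 / R := by
    rw [div_le_div_iff₀ hq hR]; linarith
  have h7 : 0 ≤ 4 / R := by positivity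
  have h8 : 0 ≤ l ^ 2 * R := by positivity
  have hx : M 0 0 ^ 2 + M 1 0 ^ 2 ≤ R := h2
  have b00 : M 0 0 ^ 2 ≤ B := by nlinarith [sq_nonneg (M 1 0)]
  have b10 : M 1 0 ^ 2 ≤ B := by nlinarith [sq_nonneg (M 0 0)]
  have b01 : M 0 1 ^ 2 ≤ B := by nlinarith [sq_nonneg (M 1 1)]
  have b11 : M 1 1 ^ 2 ≤ B := by nlinarith [sq_nonneg (M 0 1)]
  have key : ∀ x : ℝ, x ^ 2 ≤ B → x ∈ Icc (-(B + 1)) (B + 1) := by
    intro x hx
    have : |x| ≤ B + 1 := by
      apply abs_le_of_sq_le_sq _ (by linarith)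
      nlinarith
    exact abs_le.1 this
  have hentries : ∀ i j, g i j ∈ Icc (-(B + 1)) (B + 1) := by
    rw [hgM]
    intro i j
    have e : ((M⁻¹ : SL(2, ℝ)) : Matrix (Fin 2) (Fin 2) ℝ) = !![M 1 1, -M 0 1; -M 1 0, M 0 0] := by
      rw [Matrix.SpecialLinearGroup.coe_inv, Matrix.adjugate_fin_two]
    have e' : (M⁻¹ : SL(2, ℝ)) i j = (!![M 1 1, -M 0 1; -M 1 0, M 0 0] : Matrix _ _ ℝ) i j := by
      rw [← e]
    rw [e']
    apply key
    fin_cases i <;> fin_cases j <;> simp [b00, b10, b01, b11]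
  exact fun i _ j _ => hentries i j

/-- Cusp neighbourhoods. -/
def cusp (R l : ℝ) : Set SL(2, ℝ) := {M | q M ≤ R ∧ 0 ≤ P M ∧ P M < l}

lemma measurableSet_cusp (R l : ℝ) : MeasurableSet (cusp R l) := by
  have hq := continuous_q.measurable
  have hP := continuous_P.measurable
  exact (measurableSet_le hq measurable_const).inter
    ((measurableSet_le measurable_const hP).inter (measurableSet_lt hP measurable_const))

lemma measure_cusp_lt_top {R l : ℝ} (hR : 0 < R) (hl : 0 ≤ l) : μ (pre (cusp R l)) < ⊤ := by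
  have hsub : pre (cusp R l) ⊆ ⋃ n : ℕ, pre (slab (R / 4 ^ n) 0 l) := by
    rintro g ⟨h1, h2, h3⟩
    have hq := q_pos g⁻¹
    obtain ⟨n, hn1, hn2⟩ := exists_nat_pow_near_of_lt_one (x := q g⁻¹ / R) (y := 4⁻¹)
      (by positivity) (by rw [div_le_one hR]; exact h1) (by norm_num) (by norm_num)
    refine mem_iUnion.2 ⟨n, ?_, ?_, h2, h3⟩
    · rw [div_div, ← pow_succ]
      rw [lt_div_iff₀ hR, inv_pow] at hn1
      calc R / 4 ^ (n + 1) = (4 ^ (n + 1))⁻¹ * R := by rw [div_eq_inv_mul]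
        _ < _ := hn1
    · rw [div_le_iff₀ hR, inv_pow] at hn2
      calc _ ≤ (4 ^ n)⁻¹ * R := hn2
        _ = R / 4 ^ n := by rw [div_eq_inv_mul]
  have hval : ∀ n : ℕ, μ (pre (slab (R / 4 ^ n) 0 l)) = (4 : ℝ≥0∞)⁻¹ ^ n * μ (pre (slab R 0 l)) := by
    intro n
    induction n with
    | zero => simp
    | succ n ih =>
      rw [pow_succ, ← div_div, measure_slab_quarter μ _ _ hl, ih, pow_succ, ← mul_assoc,
        mul_comm (4⁻¹ : ℝ≥0∞) (4⁻¹ ^ n)]
  calc μ (pre (cusp R l)) ≤ ∑' n : ℕ, μ (pre (slab (R / 4 ^ n) 0 l)) :=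
        (measure_mono hsub).trans (measure_iUnion_le _)
    _ = (∑' n : ℕ, (4 : ℝ≥0∞)⁻¹ ^ n) * μ (pre (slab R 0 l)) := by
        rw [← ENNReal.tsum_mul_right]; exact tsum_congr hval
    _ < ⊤ := by
        apply ENNReal.mul_lt_top _ (measure_slab_lt_top μ hR l)
        rw [ENNReal.tsum_geometric]
        apply ENNReal.inv_lt_top.2
        apply tsub_pos_of_lt
        exact ENNReal.inv_lt_one.2 (by norm_num)

end measure

lemma exists_shift (x : ℝ) {α : ℝ} (hα : α ≠ 0) : ∃ n : ℤ, 0 ≤ x + n * α ∧ x + n * α < |α| := by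
  obtain ⟨m, hm, -⟩ := existsUnique_add_zsmul_mem_Ico (abs_pos.2 hα) x 0
  rw [zero_add] at hm
  rcases lt_or_gt_of_ne hα with h | h
  · refine ⟨-m, ?_⟩
    rw [abs_of_neg h] at hm ⊢
    push_cast
    obtain ⟨h1, h2⟩ := hm
    rw [zsmul_eq_mul] at h1 h2
    exact ⟨by linarith, by linarith⟩
  · refine ⟨m, ?_⟩
    rw [abs_of_pos h] at hm ⊢
    obtain ⟨h1, h2⟩ := hm
    rw [zsmul_eq_mul] at h1 h2
    exact ⟨h1, h2⟩

end LC

open LC

theorem latticeCriterion : LatticeCriterion := by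
  intro Γ V C hΓV h0 hind hfin ⟨s, hsfin, hsV, hs⟩ hpar hC
  constructor
  · -- discreteness
    obtain ⟨v, hv, v', hv', hvv'⟩ := hind
    have hiso : ∀ w ∈ V, ∃ U : Set SL(2, ℝ), IsOpen U ∧ (1 : SL(2, ℝ)) ∈ U ∧
        ∀ γ ∈ Γ, γ ∈ U → act γ w = w := by
      intro w hw
      have hF : ({u ∈ V | ‖u‖ ≤ ‖w‖ + 1} \ {w}).Finite := (hfin _).subset sdiff_subset
      have hopen : IsOpen (({u ∈ V | ‖u‖ ≤ ‖w‖ + 1} \ {w})ᶜ ∩ Metric.ball w 1) :=
        hF.isClosed.isOpen_compl.inter Metric.isOpen_ball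
      refine ⟨_, hopen.preimage (continuous_act w), ?_, ?_⟩
      · simp [act_one]
      · rintro γ hγ ⟨h1, h2⟩
        by_contra hne
        apply h1
        refine ⟨⟨hΓV γ hγ w hw, ?_⟩, hne⟩
        have : ‖act γ w - w‖ < 1 := by rw [← dist_eq_norm]; exact h2
        calc ‖act γ w‖ = ‖(act γ w - w) + w‖ := by ring_nf
          _ ≤ ‖act γ w - w‖ + ‖w‖ := norm_add_le _ _
          _ ≤ ‖w‖ + 1 := by linarith
    obtain ⟨U, hU, h1U, hU'⟩ := hiso v hv
    obtain ⟨U', hU2, h1U', hU2'⟩ := hiso v' hv'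
    apply discreteTopology_of_isOpen_singleton_one
    have : ({1} : Set Γ) = (fun γ : Γ => (γ : SL(2, ℝ))) ⁻¹' (U ∩ U') := by
      ext γ
      simp only [mem_singleton_iff, mem_preimage, mem_inter_iff]
      constructor
      · rintro rfl; exact ⟨h1U, h1U'⟩
      · rintro ⟨h1, h2⟩
        apply Subtype.ext
        exact eq_one_of_fix hvv' (hU' _ γ.2 h1) (hU2' _ γ.2 h2)
    rw [this]
    exact (hU.inter hU2).preimage continuous_subtype_val
  · -- finite covolume
    letI : MeasurableSpace SL(2, ℝ) := borel _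
    haveI : BorelSpace SL(2, ℝ) := ⟨rfl⟩
    haveI := locallyCompactSpace_SL
    have hCpos : 0 < C := by
      obtain ⟨v, hv, hvC⟩ := hC 1
      rw [act_one] at hvC
      have : v ≠ 0 := fun h => h0 (h ▸ hv)
      exact lt_of_lt_of_le (norm_pos_iff.2 this) hvC
    refine ⟨Measure.haar, inferInstance, ?_⟩
    have hdata : ∀ v ∈ V, ∃ (h : SL(2, ℝ)) (α : ℝ) (γ : SL(2, ℝ)), γ ∈ Γ ∧ α ≠ 0 ∧
        act h 1 = v ∧ h⁻¹ * γ * h = uni α := by
      intro v hv
      have hv0 : v ≠ 0 := fun h => h0 (h ▸ hv)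
      obtain ⟨h, hh⟩ := exists_frame hv0
      obtain ⟨γ, hγ, hγ1, hγv⟩ := hpar v hv
      have hfix : act (h⁻¹ * γ * h) 1 = 1 := by
        rw [act_mul, act_mul, hh, hγv, ← hh, ← act_mul, inv_mul_cancel, act_one]
      have hu := eq_uni_of_fix hfix
      refine ⟨h, _, γ, hγ, ?_, hh, hu⟩
      intro hα
      rw [hα, uni_zero] at hu
      apply hγ1
      have : γ = h * (h⁻¹ * γ * h) * h⁻¹ := by group
      rw [this, hu]; group
    choose! h α γ hγΓ hα hh hu using hdata
    refine ⟨⋃ v ∈ s, {g | g⁻¹ * h v ∈ cusp (C ^ 2) |α v|}, ?_, ?_, ?_⟩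
    · apply hsfin.measurableSet_biUnion
      intro v _
      exact ((continuous_inv.mul continuous_const : Continuous fun g : SL(2, ℝ) =>
        g⁻¹ * h v).measurable) (measurableSet_cusp _ _)
    · apply measure_biUnion_lt_top hsfin
      intro v _
      have := measure_pre_mul (Measure.haar (G := SL(2, ℝ))) (h v) (cusp (C ^ 2) |α v|)
      change Measure.haar (pre {M | M * h v ∈ cusp (C ^ 2) |α v|}) < ⊤
      rw [this]
      exact measure_cusp_lt_top _ (by positivity) (abs_nonneg _)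
    · intro g
      obtain ⟨v, hv, hvC⟩ := hC g⁻¹
      obtain ⟨γ₀, hγ₀, hγv⟩ := hs v hv
      set v₁ := act γ₀ v with hv₁
      have hv₁V : v₁ ∈ V := hsV hγv
      set M : SL(2, ℝ) := (γ₀ * g)⁻¹ * h v₁ with hM
      have hM1 : act M 1 = act g⁻¹ v := by
        rw [hM, act_mul, hh v₁ hv₁V, mul_inv_rev, act_mul, hv₁, ← act_mul γ₀⁻¹, inv_mul_cancel,
          act_one]
      obtain ⟨n, hn1, hn2⟩ := exists_shift (P M) (hα v₁ hv₁V)
      refine ⟨γ v₁ ^ n * γ₀, Γ.mul_mem (Γ.zpow_mem (hγΓ v₁ hv₁V) n) hγ₀, ?_⟩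
      refine mem_biUnion hγv ?_
      have hzp : (h v₁)⁻¹ * (γ v₁) ^ (-n) * h v₁ = uni (-(n * α v₁)) := by
        have h1 : ((h v₁)⁻¹ * γ v₁ * h v₁) ^ (-n) = (h v₁)⁻¹ * (γ v₁) ^ (-n) * h v₁ := by
          have := conj_zpow (a := (h v₁)⁻¹) (b := γ v₁) (i := -n)
          rwa [inv_inv] at this
        rw [← h1, hu v₁ hv₁V, uni_zpow]; congr 1; push_cast; ring
      have hkey : (γ v₁ ^ n * γ₀ * g)⁻¹ * h v₁ = M * uni (-(n * α v₁)) := by
        rw [← hzp, hM]; group
      change (γ v₁ ^ n * γ₀ * g)⁻¹ * h v₁ ∈ cusp (C ^ 2) |α v₁|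
      rw [hkey]
      refine ⟨?_, ?_, ?_⟩
      · rw [q_uni, ← normSq_act_one, hM1]
        exact pow_le_pow_left₀ (norm_nonneg _) hvC 2
      · rw [P_uni]; linarith
      · rw [P_uni]; linarith

end Pool.Agent.Lib.MP_755177_an
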