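import Pool.Agent.Lib.MP_755177_an.Finite

set_option autoImplicit false

/-!
# Exact statements of further modules (as propositions)
-/

open Set Filter Topology Complex Metric MeasureTheory
open scoped MatrixGroups ComplexConjugate

namespace Pool.Agent.Lib.MP_755177_an

/-- Module PATCH: two systems of translation charts with the same overlap pattern are related by an
affine homeomorphism. -/
def PatchStatement.{u} : Prop :=
  ∀ (X : Type u) [TopologicalSpace X] [CompactSpace X] [T2Space X] (M : MSurf X) (A : SL(2, ℝ))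
    (ι : Type) [Finite ι] (E : ι → Set ℂ) (F G : ι → ℂ → X),
    (∀ i, IsOpen (E i)) → (∀ i, M.IsTr (F i) (E i)) → (∀ i, M.IsTr (G i) (act A '' E i)) →
    ((⋃ i, F i '' E i)ᶜ).Finite → ((⋃ i, G i '' (act A '' E i))ᶜ).Finite →
    (∀ i j, ∀ z ∈ E i, ∀ w ∈ E j, F i z = F j w ↔ G i (act A z) = G j (act A w)) →
    ∃ φ : X ≃ₜ X, M.toTransStr.IsAffine A φ

/-- Module AREA: injective translation maps have bounded area. -/
def AreaBound.{u} : Prop :=
  ∀ (X : Type u) [TopologicalSpace X] [CompactSpace X] [T2Space X] (M : MSurf X),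
    ∃ A : ℝ, 0 < A ∧ ∀ (E : Set ℂ) (f : ℂ → X), IsOpen E → M.IsTr f E → InjOn f E →
      volume E ≤ ENNReal.ofReal A

/-- Module COUNT: the corners of disjoint convex pieces at the marked points have bounded total
angle. -/
def CornerCount.{u} : Prop :=
  ∀ (X : Type u) [TopologicalSpace X] [CompactSpace X] [T2Space X] (M : MSurf X),
    ∃ K : ℝ, 0 < K ∧ ∀ (ι : Type) [Fintype ι] (E : ι → Set ℂ) (f : ι → ℂ → X) (Z : ι → Finset ℂ),
      (∀ i, IsOpen (E i)) → (∀ i, Convex ℝ (E i)) → (∀ i, M.IsTr (f i) (E i)) →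
      (∀ i, InjOn (f i) (E i)) → (∀ i j, i ≠ j → Disjoint (f i '' E i) (f j '' E j)) →
      (∀ i, ∀ z ∈ Z i, z ∈ closure (E i) ∧ ∃ q ∈ M.Sg, Tendsto (f i) (𝓝[E i] z) (𝓝 q)) →
      ∃ ρ₀ : ℝ, 0 < ρ₀ ∧ ∀ ρ : ℝ, 0 < ρ → ρ < ρ₀ →
        ∑ i, ∑ z ∈ Z i, volume (E i ∩ ball z ρ) ≤ ENNReal.ofReal K * volume (ball (0 : ℂ) ρ)

/-- Module MONO: a translation map on an open set avoids the zeros. -/
def MonoStatement.{u} : Prop :=
  ∀ (X : Type u) [TopologicalSpace X] (M : TransStr X) (f : ℂ → X) (S : Set ℂ), IsOpen S →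
    M.IsTrans f S → ∀ z ∈ S, ∀ a ∈ M.atlas, ∀ (k : ℕ) (ζ : OpenPartialHomeomorph X ℂ), 0 < k →
      f z ∈ ζ.source → ζ.source ⊆ a.1 → ζ (f z) = 0 →
      (∀ x ∈ ζ.source, a.2 x = a.2 (f z) + ζ x ^ k) → k = 1

end Pool.Agent.Lib.MP_755177_an
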