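import Pool.Agent.Lib.MP_755177_an.Spec
import Pool.Agent.Lib.MP_755177_an.Spec2
import Pool.Agent.Lib.MP_755177_an.Spec3

section
set_option autoImplicit false

/-!
# Finite complete families of parallel cylinders
-/

open Set Filter Topology Complex Metric MeasureTheory
open scoped MatrixGroups ComplexConjugate

namespace Pool.Agent.Lib.MP_755177_an

namespace Fam

theorem cr_eq_im_div {v : ℂ} (hv : v ≠ 0) (z : ℂ) : cr v z = ‖v‖ ^ 2 * (z / v).im := by
  have h1 : z = (z / v) * v := by field_simp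
  have h2 : ‖v‖ ^ 2 = v.re ^ 2 + v.im ^ 2 := by
    rw [← Complex.normSq_eq_norm_sq, Complex.normSq_apply]; ring
  rw [h2]
  conv_lhs => rw [h1]
  rw [cr_eq, Complex.mul_re, Complex.mul_im]
  ring

theorem cr_add_right (v z w : ℂ) : cr v (z + w) = cr v z + cr v w := by
  simp only [cr_eq, Complex.add_re, Complex.add_im]; ring

theorem cr_sub_right (v z w : ℂ) : cr v (z - w) = cr v z - cr v w := by
  simp only [cr_eq, Complex.sub_re, Complex.sub_im]; ring

theorem continuous_cr (v : ℂ) : Continuous (cr v) := by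
  unfold cr
  fun_prop

theorem isOpen_Strip (v : ℂ) (a : ℝ) : IsOpen (Strip v a) :=
  (isOpen_lt continuous_const (continuous_cr v)).inter (isOpen_lt (continuous_cr v) continuous_const)

theorem convex_Strip (v : ℂ) (a : ℝ) : Convex ℝ (Strip v a) := by
  have hl : IsLinearMap ℝ (cr v) := by
    constructor
    · intro x y; exact cr_add_right v x y
    · intro c x; simp only [cr_eq, Complex.real_smul, Complex.mul_re, Complex.mul_im,
        Complex.ofReal_re, Complex.ofReal_im, smul_eq_mul]; ring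
  exact (convex_halfSpace_gt hl 0).inter (convex_halfSpace_lt hl a)

/-- One period of the strip, with the point of abscissa `x` in the middle. -/
def Per (v : ℂ) (a x : ℝ) : Set ℂ := Strip v a ∩ {z | x - 1 / 2 < (z / v).re ∧ (z / v).re < x + 1 / 2}

theorem isOpen_Per (v : ℂ) (a x : ℝ) : IsOpen (Per v a x) := by
  refine (isOpen_Strip v a).inter ?_
  have h : Continuous fun z : ℂ => (z / v).re := by fun_prop
  exact (isOpen_lt continuous_const h).inter (isOpen_lt h continuous_const)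

theorem convex_Per (v : ℂ) (a x : ℝ) : Convex ℝ (Per v a x) := by
  refine (convex_Strip v a).inter ?_
  have hl : IsLinearMap ℝ (fun z : ℂ => (z / v).re) := by
    constructor
    · intro x y; simp [add_div]
    · intro c x; simp [mul_div_assoc]
  exact (convex_halfSpace_gt hl _).inter (convex_halfSpace_lt hl _)

theorem Per_inter_ball {v : ℂ} (hv : v ≠ 0) {a : ℝ} {z : ℂ} (hz : cr v z = 0)
    {ρ : ℝ} (h1 : ρ * ‖v‖ < a) (h2 : ρ < ‖v‖ / 2) :
    Per v a (z / v).re ∩ ball z ρ = (fun w => w + z) '' {w : ℂ | ‖w‖ < ρ ∧ 0 < (w / v).im} := by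
  have hv' : 0 < ‖v‖ := norm_pos_iff.mpr hv
  have key : ∀ w : ℂ, (w / v).re ≤ ‖w‖ / ‖v‖ ∧ -(‖w‖ / ‖v‖) ≤ (w / v).re ∧ (w / v).im ≤ ‖w‖ / ‖v‖ := by
    intro w
    have e1 := Complex.abs_re_le_norm (w / v)
    have e2 := Complex.abs_im_le_norm (w / v)
    rw [norm_div] at e1 e2
    exact ⟨(le_abs_self _).trans e1, (abs_le.mp e1).1, (le_abs_self _).trans e2⟩
  ext y
  simp only [mem_inter_iff, mem_image, mem_ofPred_eq, mem_ball_iff_norm]
  constructor
  · rintro ⟨⟨⟨h3, h4⟩, h5⟩, h6⟩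
    refine ⟨y - z, ⟨h6, ?_⟩, by ring⟩
    have h7 : cr v (y - z) = cr v y := by rw [cr_sub_right, hz, sub_zero]
    rw [cr_eq_im_div hv] at h7
    rw [← h7] at h3
    exact pos_of_mul_pos_right h3 (by positivity)
  · rintro ⟨w, ⟨h3, h4⟩, rfl⟩
    obtain ⟨k1, k2, k3⟩ := key w
    have hlt : ‖w‖ / ‖v‖ < 1 / 2 := by
      rw [div_lt_iff₀ hv']
      linarith
    refine ⟨⟨⟨?_, ?_⟩, ?_, ?_⟩, ?_⟩
    · rw [cr_add_right, hz, add_zero, cr_eq_im_div hv]
      positivity
    · rw [cr_add_right, hz, add_zero, cr_eq_im_div hv]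
      calc ‖v‖ ^ 2 * (w / v).im ≤ ‖v‖ ^ 2 * (‖w‖ / ‖v‖) := by gcongr
        _ = ‖w‖ * ‖v‖ := by field_simp
        _ < ρ * ‖v‖ := by gcongr
        _ < a := h1
    · rw [add_div, Complex.add_re]; linarith
    · rw [add_div, Complex.add_re]; linarith
    · simpa using h3

theorem volume_Per_inter_ball (hh : VolumeHalfDisc) {v : ℂ} (hv : v ≠ 0) {a : ℝ} {z : ℂ}
    (hz : cr v z = 0) {ρ : ℝ} (h0 : 0 < ρ) (h1 : ρ * ‖v‖ < a) (h2 : ρ < ‖v‖ / 2) :
    volume (Per v a (z / v).re ∩ ball z ρ) = volume (ball (0 : ℂ) ρ) / 2 := by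
  rw [Per_inter_ball hv hz h1 h2, image_add_right, measure_preimage_add_right]
  exact hh v ρ hv h0

variable {X : Type*} [TopologicalSpace X] {M : MSurf X}

theorem injOn_Per {v : ℂ} {a : ℝ} {f : ℂ → X} (h : M.IsCyl v a f) (x : ℝ) :
    InjOn f (Per v a x) := by
  intro z hz z' hz' he
  obtain ⟨n, hn⟩ := (h.inj z hz.1 z' hz'.1).mp he
  have h1 : (z' / v).re = (z / v).re + n := by
    rw [hn, add_div, mul_div_assoc, div_self h.ne, mul_one, Complex.add_re]
    simp
  have h2 := hz.2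
  have h3 := hz'.2
  simp only [mem_ofPred_eq] at h2 h3
  have h4 : (n : ℝ) < 1 := by linarith
  have h5 : (-1 : ℝ) < n := by linarith
  have h6 : n = 0 := by
    have h7 : n < 1 := by exact_mod_cast h4
    have h8 : -1 < n := by exact_mod_cast h5
    omega
  rw [hn, h6]
  simp

/-- The number of pairwise disjoint parallel cylinders is bounded. -/
theorem card_le_of_disjoint.{u} (hC : CornerCount.{u}) (hh : VolumeHalfDisc) {X : Type u}
    [TopologicalSpace X] [CompactSpace X] [T2Space X] (M : MSurf X) :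
    ∃ B : ℕ, ∀ (n : ℕ) (v : Fin n → ℂ) (a : Fin n → ℝ) (f : Fin n → ℂ → X),
      (∀ i, M.IsCyl (v i) (a i) (f i)) →
      (∀ i j, i ≠ j → Disjoint (f i '' Strip (v i) (a i)) (f j '' Strip (v j) (a j))) → n ≤ B := by
  classical
  obtain ⟨K, hK, h⟩ := hC X M
  refine ⟨⌈2 * K⌉₊, fun n v a f hcyl hdisj => ?_⟩
  choose z hz0 q hq hzq using fun i => (hcyl i).bot
  have hsub : ∀ i, Per (v i) (a i) (z i / v i).re ⊆ Strip (v i) (a i) := fun i => inter_subset_left
  -- the small radius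
  have hsmall : ∀ i, ∃ r : ℝ, 0 < r ∧ ∀ ρ : ℝ, 0 < ρ → ρ < r →
      ρ * ‖v i‖ < a i ∧ ρ < ‖v i‖ / 2 := by
    intro i
    have hv' : 0 < ‖v i‖ := norm_pos_iff.mpr (hcyl i).ne
    have ha := (hcyl i).pos
    refine ⟨min (a i / ‖v i‖) (‖v i‖ / 2), by positivity, fun ρ _ h1 => ⟨?_, ?_⟩⟩
    · have := h1.trans_le (min_le_left _ _)
      rwa [lt_div_iff₀ hv'] at this
    · exact h1.trans_le (min_le_right _ _)
  choose r hr hr' using hsmall
  have hvol : ∀ i (ρ : ℝ), 0 < ρ → ρ < r i →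
      volume (Per (v i) (a i) (z i / v i).re ∩ ball (z i) ρ) = volume (ball (0 : ℂ) ρ) / 2 :=
    fun i ρ h0 h1 => volume_Per_inter_ball hh (hcyl i).ne (hz0 i) h0 (hr' i ρ h0 h1).1 (hr' i ρ h0 h1).2
  have hpos : ∀ ρ : ℝ, 0 < ρ → 0 < volume (ball (0 : ℂ) ρ) / 2 := by
    intro ρ hρ
    refine ENNReal.div_pos ?_ (by norm_num)
    exact (isOpen_ball.measure_pos volume ⟨0, mem_ball_self hρ⟩).ne'
  have hcl : ∀ i, z i ∈ closure (Per (v i) (a i) (z i / v i).re) := by
    intro i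
    rw [Metric.mem_closure_iff]
    intro ε hε
    have hm : 0 < min ε (r i / 2) := by have := hr i; positivity
    have h1 := hvol i (min ε (r i / 2)) hm
      ((min_le_right _ _).trans_lt (by have := hr i; linarith))
    have h2 : (Per (v i) (a i) (z i / v i).re ∩ ball (z i) (min ε (r i / 2))).Nonempty := by
      refine nonempty_of_measure_ne_zero (μ := volume) ?_
      rw [h1]
      exact (hpos _ hm).ne'
    obtain ⟨b, hb, hb'⟩ := h2
    refine ⟨b, hb, ?_⟩
    rw [dist_comm]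
    exact (mem_ball.mp hb').trans_le (min_le_left _ _)
  obtain ⟨ρ₀, hρ₀, hρ⟩ := h (Fin n) (fun i => Per (v i) (a i) (z i / v i).re) f (fun i => {z i})
    (fun i => isOpen_Per _ _ _) (fun i => convex_Per _ _ _)
    (fun i => (hcyl i).tr.mono (hsub i)) (fun i => injOn_Per (hcyl i) _)
    (fun i j hij => (hdisj i j hij).mono (image_mono (hsub i)) (image_mono (hsub j)))
    (fun i w hw => by
      rw [Finset.mem_singleton] at hw
      subst hw
      exact ⟨hcl i, q i, hq i, (hzq i).mono_left (nhdsWithin_mono _ (hsub i))⟩)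
  -- choose a radius
  obtain ⟨r0, hr0, hr0'⟩ : ∃ r0 : ℝ, 0 < r0 ∧ ∀ i, r0 ≤ r i := by
    rcases isEmpty_or_nonempty (Fin n) with hn | hn
    · exact ⟨1, one_pos, fun i => hn.elim i⟩
    · refine ⟨Finset.univ.inf' Finset.univ_nonempty r, ?_, fun i => Finset.inf'_le _ (Finset.mem_univ i)⟩
      rw [Finset.lt_inf'_iff]
      exact fun i _ => hr i
  set ρ := min ρ₀ r0 / 2 with hρdef
  have hm : 0 < min ρ₀ r0 := by positivity
  have hρ0 : 0 < ρ := by positivity
  have hρ1 : ρ < ρ₀ := by have := min_le_left ρ₀ r0; linarith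
  have hρ2 : ∀ i, ρ < r i := fun i => by have := min_le_right ρ₀ r0; have := hr0' i; linarith
  have h1 := hρ ρ hρ0 hρ1
  simp only [Finset.sum_singleton] at h1
  rw [Finset.sum_congr rfl (fun i _ => hvol i ρ hρ0 (hρ2 i)), Finset.sum_const, Finset.card_univ,
    Fintype.card_fin, nsmul_eq_mul] at h1
  have hfin : volume (ball (0 : ℂ) ρ) ≠ ⊤ := measure_ball_lt_top.ne
  have hpos' : volume (ball (0 : ℂ) ρ) ≠ 0 :=
    (isOpen_ball.measure_pos volume ⟨0, mem_ball_self hρ0⟩).ne'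
  have h2 : ((n : ℝ)) / 2 ≤ K := by
    have h3 := ENNReal.toReal_mono (ENNReal.mul_ne_top ENNReal.ofReal_ne_top hfin) h1
    rw [ENNReal.toReal_mul, ENNReal.toReal_mul, ENNReal.toReal_div, ENNReal.toReal_natCast,
      ENNReal.toReal_ofReal hK.le] at h3
    have h4 : 0 < (volume (ball (0 : ℂ) ρ)).toReal := ENNReal.toReal_pos hpos' hfin
    have h5 : (n : ℝ) / 2 * (volume (ball (0 : ℂ) ρ)).toReal ≤
        K * (volume (ball (0 : ℂ) ρ)).toReal := by
      refine le_trans (le_of_eq ?_) h3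
      simp only [ENNReal.toReal_ofNat]
      ring
    exact le_of_mul_le_mul_right h5 h4
  have h3 : (n : ℝ) ≤ (⌈2 * K⌉₊ : ℕ) := le_trans (by linarith) (Nat.le_ceil (2 * K))
  exact_mod_cast h3

end Fam

open Fam in
/-- Module FAM. -/
theorem existsFam.{u} (h : CylPar.{u}) (h' : CornerCount.{u}) (h'' : VolumeHalfDisc) :
    ExistsFam.{u} := by
  intro X _ _ _ M hM v a f hf
  obtain ⟨B, hB⟩ := card_le_of_disjoint h' h'' M
  -- the families
  let P : ℕ → Prop := fun n => ∃ (v' : Fin n → ℂ) (a' : Fin n → ℝ) (f' : Fin n → ℂ → X) (i : Fin n),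
    (∀ i, M.IsCyl (v' i) (a' i) (f' i)) ∧ (∀ i, ∃ t : ℝ, 0 < t ∧ v' i = t * v) ∧
    (∀ i j, i ≠ j → Disjoint (f' i '' Strip (v' i) (a' i)) (f' j '' Strip (v' j) (a' j))) ∧
    v' i = v ∧ a' i = a ∧ f' i = f
  have hP1 : P 1 := by
    refine ⟨fun _ => v, fun _ => a, fun _ => f, 0, fun _ => hf, fun _ => ⟨1, one_pos, by simp⟩,
      fun i j hij => absurd (Subsingleton.elim i j) hij, rfl, rfl, rfl⟩
  have hPB : ∀ n, P n → n ≤ B := by
    rintro n ⟨v', a', f', i, h1, h2, h3, -⟩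
    exact hB n v' a' f' h1 h3
  obtain ⟨n, hn, hn1⟩ : ∃ n, P n ∧ ¬ P (n + 1) := by
    by_contra hcon
    push Not at hcon
    have hall : ∀ k, P (k + 1) := by
      intro k
      induction k with
      | zero => exact hP1
      | succ k ih => exact hcon _ ih
    have := hPB _ (hall B)
    omega
  obtain ⟨v', a', f', i, h1, h2, h3, h4, h5, h6⟩ := hn
  -- every parallel cylinder meets a member of the family
  have hmeet : ∀ w b g, M.IsCyl w b g → (∃ t : ℝ, 0 < t ∧ w = t * v) →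
      ∃ j, w = v' j ∧ g '' Strip w b = f' j '' Strip (v' j) (a' j) := by
    intro w b g hg ht
    by_contra hcon
    push Not at hcon
    have hd : ∀ j, Disjoint (f' j '' Strip (v' j) (a' j)) (g '' Strip w b) := by
      intro j
      by_contra hnd
      obtain ⟨t, ht, htw⟩ := ht
      obtain ⟨s, hs, hsv⟩ := h2 j
      have e1 : w = ((t / s : ℝ) : ℂ) * v' j := by
        rw [htw, hsv]
        have : (s : ℂ) ≠ 0 := by exact_mod_cast hs.ne'
        push_cast
        field_simp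
      have e2 := h X M (v' j) (a' j) (f' j) (t / s) b g (by positivity) (h1 j) (e1 ▸ hg)
        (by rw [← e1]; exact hnd)
      rw [e2.1] at e1
      simp only [ofReal_one, one_mul] at e1
      refine hcon j e1 ?_
      rw [e1, ← e2.2.1, ← e2.2.2]
    apply hn1
    refine ⟨Fin.cons w v', Fin.cons b a', Fin.cons g f', i.succ, ?_, ?_, ?_, ?_, ?_, ?_⟩
    · intro k
      refine Fin.cases ?_ (fun k => ?_) k
      · simpa using hg
      · simpa using h1 k
    · intro k
      refine Fin.cases ?_ (fun k => ?_) k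
      · simpa using ht
      · simpa using h2 k
    · intro k l
      refine Fin.cases ?_ (fun k => ?_) k <;> refine Fin.cases ?_ (fun l => ?_) l
      · intro hkl; exact absurd rfl hkl
      · intro _; simpa using (hd l).symm
      · intro _; simpa using hd k
      · intro hkl
        have : k ≠ l := fun e => hkl (by rw [e])
        simpa using h3 k l this
    · simpa using h4
    · simpa using h5
    · simpa using h6
  refine ⟨n, v', a', f', i, ⟨h1, ?_, h3, ?_⟩, h4, h5, h6, ?_⟩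
  · intro k l
    obtain ⟨s, hs, hsv⟩ := h2 k
    obtain ⟨t, ht, htv⟩ := h2 l
    refine ⟨t / s, by positivity, ?_⟩
    rw [hsv, htv]
    have : (s : ℂ) ≠ 0 := by exact_mod_cast hs.ne'
    push_cast
    field_simp
  · rw [eq_univ_iff_forall]
    intro x
    obtain ⟨w, b, g, hg, ht, hx⟩ := (hM v a f hf).1 x
    obtain ⟨j, -, hj⟩ := hmeet w b g hg ht
    rw [hj] at hx
    exact mem_iUnion.mpr ⟨j, hx⟩
  · intro w b g hg ht
    obtain ⟨j, hj, -⟩ := hmeet w b g hg ht
    exact ⟨j, hj⟩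

end Pool.Agent.Lib.MP_755177_an
end

section
set_option autoImplicit false

/-!
# Module PAIR: finiteness of pairs of transverse complete families of cylinders with bounded data
-/

open Set Filter Topology Complex Metric MeasureTheory
open scoped MatrixGroups ComplexConjugate

namespace Pool.Agent.Lib.MP_755177_an
namespace PairAux

/-! ### linear algebra -/

theorem cr_add (v w w' : ℂ) : cr v (w + w') = cr v w + cr v w' := by
  simp only [cr_eq, Complex.add_re, Complex.add_im]; ring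

theorem cr_real (v w : ℂ) (t : ℝ) : cr v (t * w) = t * cr v w := by
  simp only [cr_eq, Complex.mul_re, Complex.mul_im, Complex.ofReal_re, Complex.ofReal_im]; ring

theorem cr_real_left (v w : ℂ) (t : ℝ) : cr (t * v) w = t * cr v w := by
  simp only [cr_eq, Complex.mul_re, Complex.mul_im, Complex.ofReal_re, Complex.ofReal_im]; ring

theorem cr_self (v : ℂ) : cr v v = 0 := by
  simp only [cr_eq]; ring

theorem coord {e e' : ℂ} {κ : ℝ} (h : cr e e' = κ) (hκ : κ ≠ 0) (z : ℂ) :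
    z = ((cr z e' / κ : ℝ) : ℂ) * e + ((cr e z / κ : ℝ) : ℂ) * e' := by
  rw [cr_eq] at h
  apply Complex.ext
  · simp only [Complex.add_re, Complex.mul_re, Complex.ofReal_re, Complex.ofReal_im, cr_eq]
    field_simp
    rw [← h]
    ring
  · simp only [Complex.add_im, Complex.mul_im, Complex.ofReal_re, Complex.ofReal_im, cr_eq]
    field_simp
    rw [← h]
    ring

theorem act_add' (A : SL(2, ℝ)) (z w : ℂ) : act A (z + w) = act A z + act A w := by
  apply Complex.ext <;> simp [act] <;> ring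

theorem act_real' (A : SL(2, ℝ)) (t : ℝ) (w : ℂ) : act A (t * w) = t * act A w := by
  apply Complex.ext <;> simp [act] <;> ring

theorem act_surj (A : SL(2, ℝ)) (z : ℂ) : ∃ w, act A w = z := by
  have h := A.det_coe
  rw [Matrix.det_fin_two] at h
  refine ⟨⟨A 1 1 * z.re - A 0 1 * z.im, -(A 1 0) * z.re + A 0 0 * z.im⟩, ?_⟩
  apply Complex.ext
  · simp only [act]
    linear_combination z.re * h
  · simp only [act]
    linear_combination z.im * h

theorem exists_SL {e e' e0 e0' : ℂ} {κ : ℝ} (hκ : κ ≠ 0) (h : cr e e' = κ) (h0 : cr e0 e0' = κ) :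
    ∃ A : SL(2, ℝ), act A e = e0 ∧ act A e' = e0' := by
  rw [cr_eq] at h h0
  refine ⟨⟨!![(e0.re * e'.im - e0'.re * e.im) / κ, (-(e0.re * e'.re) + e0'.re * e.re) / κ;
    (e0.im * e'.im - e0'.im * e.im) / κ, (-(e0.im * e'.re) + e0'.im * e.re) / κ], ?_⟩, ?_, ?_⟩
  · rw [Matrix.det_fin_two_of]
    field_simp
    linear_combination (e.re * e'.im - e.im * e'.re) * h0 + κ * h
  · apply Complex.ext
    · simp only [act, Matrix.of_apply, Matrix.cons_val', Matrix.cons_val_zero,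
        Matrix.cons_val_one]
      field_simp
      linear_combination e0.re * h
    · simp only [act, Matrix.of_apply, Matrix.cons_val', Matrix.cons_val_zero,
        Matrix.cons_val_one]
      field_simp
      linear_combination e0.im * h
  · apply Complex.ext
    · simp only [act, Matrix.of_apply, Matrix.cons_val', Matrix.cons_val_zero,
        Matrix.cons_val_one]
      field_simp
      linear_combination e0'.re * h
    · simp only [act, Matrix.of_apply, Matrix.cons_val', Matrix.cons_val_zero,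
        Matrix.cons_val_one]
      field_simp
      linear_combination e0'.im * h

theorem convex_Strip (v : ℂ) (a : ℝ) : Convex ℝ (Strip v a) := by
  intro z hz w hw s t hs ht hst
  have e : cr v (s • z + t • w) = s * cr v z + t * cr v w := by
    rw [cr_add, Complex.real_smul, Complex.real_smul, cr_real, cr_real]
  constructor
  · rw [e]
    have h1 := hz.1
    have h2 := hw.1
    rcases hs.eq_or_lt with h | h
    · rw [← h] at hst ⊢
      have : t = 1 := by linarith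
      rw [this]; linarith
    · have := mul_pos h h1
      have := mul_nonneg ht h2.le
      linarith
  · rw [e]
    have h1 := hz.2
    have h2 := hw.2
    rcases hs.eq_or_lt with h | h
    · rw [← h] at hst ⊢
      have : t = 1 := by linarith
      rw [this]; linarith
    · have := mul_lt_mul_of_pos_left h1 h
      have := mul_le_mul_of_nonneg_left h2.le ht
      have e2 : a = s * a + t * a := by rw [← add_mul, hst, one_mul]
      linarith

theorem continuous_cr (v : ℂ) : Continuous (fun z => cr v z) := by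
  have : (fun z => cr v z) = fun z : ℂ => v.re * z.im - v.im * z.re := by
    funext z; exact cr_eq v z
  rw [this]
  fun_prop

theorem isOpen_Strip (v : ℂ) (a : ℝ) : IsOpen (Strip v a) :=
  (isOpen_lt continuous_const (continuous_cr v)).inter (isOpen_lt (continuous_cr v) continuous_const)

theorem act_image_Strip (A : SL(2, ℝ)) (v : ℂ) (a : ℝ) :
    act A '' Strip v a = Strip (act A v) a := by
  ext z
  constructor
  · rintro ⟨w, hw, rfl⟩
    show 0 < cr (act A v) (act A w) ∧ cr (act A v) (act A w) < a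
    rw [cr_act]
    exact hw
  · intro hz
    obtain ⟨w, rfl⟩ := act_surj A z
    refine ⟨w, ?_, rfl⟩
    have h : 0 < cr (act A v) (act A w) ∧ cr (act A v) (act A w) < a := hz
    rw [cr_act] at h
    exact h

/-! ### finiteness of the possible shifts -/

theorem exists_coeff {n : ℕ} {W : Fin n → ℝ} {s : ℝ} (hs : s ∈ AddSubmonoid.closure (range W)) :
    ∃ c : Fin n → ℕ, s = ∑ j, c j * W j := by
  induction hs using AddSubmonoid.closure_induction with
  | mem x hx =>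
    obtain ⟨j, rfl⟩ := hx
    refine ⟨Pi.single j 1, ?_⟩
    rw [Finset.sum_eq_single j]
    · simp
    · intro b _ hb
      rw [Pi.single_eq_of_ne hb]; simp
    · simp
  | zero => exact ⟨0, by simp⟩
  | add x y _ _ hx hy =>
    obtain ⟨c, rfl⟩ := hx
    obtain ⟨d, rfl⟩ := hy
    refine ⟨c + d, ?_⟩
    rw [← Finset.sum_add_distrib]
    apply Finset.sum_congr rfl
    intro j _
    simp only [Pi.add_apply, Nat.cast_add]
    ring

theorem finite_closure {n : ℕ} {W : Fin n → ℝ} (hW : ∀ j, 0 < W j) (γ : ℝ) :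
    {s : ℝ | s ∈ AddSubmonoid.closure (range W) ∧ s < γ}.Finite := by
  obtain ⟨B, hB⟩ : ∃ B : ℕ, ∀ j, γ / W j ≤ B := by
    obtain ⟨B, hB⟩ := exists_nat_ge (∑ j, |γ / W j|)
    refine ⟨B, fun j => ?_⟩
    refine le_trans (le_abs_self _) (le_trans ?_ hB)
    exact Finset.single_le_sum (f := fun j => |γ / W j|) (fun i _ => abs_nonneg _) (Finset.mem_univ j)
  have hfin : (Set.univ.pi (fun _ : Fin n => Set.Iic B)).Finite :=
    Set.Finite.pi fun _ => Set.finite_Iic B
  refine (hfin.image (fun c : Fin n → ℕ => ∑ j, (c j : ℝ) * W j)).subset ?_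
  rintro s ⟨hs, hsγ⟩
  obtain ⟨c, rfl⟩ := exists_coeff hs
  refine ⟨c, ?_, rfl⟩
  intro j _
  show c j ≤ B
  have h1 : (c j : ℝ) * W j ≤ ∑ j, (c j : ℝ) * W j :=
    Finset.single_le_sum (f := fun j => (c j : ℝ) * W j)
      (fun i _ => mul_nonneg (Nat.cast_nonneg _) (hW i).le) (Finset.mem_univ j)
  have h2 : (c j : ℝ) < γ / W j := by
    rw [lt_div_iff₀ (hW j)]
    linarith
  have h3 : (c j : ℝ) < B := h2.trans_le (hB j)
  exact_mod_cast h3.le

/-! ### normalisation -/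

universe u
variable {X : Type u} [TopologicalSpace X] {M : MSurf X}

theorem cr_shift {v z0 : ℂ} (h : cr v z0 = 0) (z : ℂ) : cr v (z + z0) = cr v z := by
  rw [cr_add, h, add_zero]

theorem mem_Strip_shift {v z0 : ℂ} {a : ℝ} (h : cr v z0 = 0) (z : ℂ) :
    z + z0 ∈ Strip v a ↔ z ∈ Strip v a := by
  show (0 < cr v (z + z0) ∧ cr v (z + z0) < a) ↔ _
  rw [cr_shift h]
  rfl

theorem tendsto_shift {v z0 z1 : ℂ} {a : ℝ} (h : cr v z0 = 0) {f : ℂ → X} {q : X}
    (hq : Tendsto f (𝓝[Strip v a] (z1 + z0)) (𝓝 q)) :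
    Tendsto (fun z => f (z + z0)) (𝓝[Strip v a] z1) (𝓝 q) := by
  have hc : ContinuousWithinAt (fun z : ℂ => z + z0) (Strip v a) z1 := by fun_prop
  have h1 : Tendsto (fun z : ℂ => z + z0) (𝓝[Strip v a] z1) (𝓝[Strip v a] (z1 + z0)) :=
    hc.tendsto_nhdsWithin fun z hz => (mem_Strip_shift h z).2 hz
  exact hq.comp h1

theorem isCyl_shift {v z0 : ℂ} {a : ℝ} {f : ℂ → X} (hf : M.IsCyl v a f) (h : cr v z0 = 0) :
    M.IsCyl v a (fun z => f (z + z0)) := by
  refine ⟨hf.ne, hf.pos, ?_, ?_, ?_, ?_⟩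
  · refine (hf.tr.comp_add z0).mono fun z hz => ?_
    exact (mem_Strip_shift h z).2 hz
  · intro z hz z' hz'
    rw [hf.inj _ ((mem_Strip_shift h z).2 hz) _ ((mem_Strip_shift h z').2 hz')]
    constructor
    · rintro ⟨n, hn⟩
      exact ⟨n, by linear_combination hn⟩
    · rintro ⟨n, hn⟩
      exact ⟨n, by linear_combination hn⟩
  · obtain ⟨z, hz, q, hq, ht⟩ := hf.bot
    refine ⟨z - z0, ?_, q, hq, ?_⟩
    · have := cr_shift h (z - z0)
      rw [sub_add_cancel] at this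
      rw [← this, hz]
    · apply tendsto_shift h
      rwa [sub_add_cancel]
  · obtain ⟨z, hz, q, hq, ht⟩ := hf.top
    refine ⟨z - z0, ?_, q, hq, ?_⟩
    · have := cr_shift h (z - z0)
      rw [sub_add_cancel] at this
      rw [← this, hz]
    · apply tendsto_shift h
      rwa [sub_add_cancel]

theorem image_shift {v z0 : ℂ} {a : ℝ} {f : ℂ → X} (h : cr v z0 = 0) :
    (fun z => f (z + z0)) '' Strip v a = f '' Strip v a := by
  ext x
  constructor
  · rintro ⟨z, hz, rfl⟩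
    exact ⟨z + z0, (mem_Strip_shift h z).2 hz, rfl⟩
  · rintro ⟨z, hz, rfl⟩
    refine ⟨z - z0, (mem_Strip_shift h _).1 (by rwa [sub_add_cancel]), ?_⟩
    simp only [sub_add_cancel]

theorem normalise {ι : Type} {v : ι → ℂ} {a : ι → ℝ} {f : ι → ℂ → X} (hf : M.IsFam v a f) :
    ∃ f' : ι → ℂ → X, M.IsFam v a f' ∧
      ∀ i, ∃ q ∈ M.Sg, Tendsto (f' i) (𝓝[Strip (v i) (a i)] 0) (𝓝 q) := by
  have h1 : ∀ i, ∃ z, cr (v i) z = 0 ∧ ∃ q ∈ M.Sg, Tendsto (f i) (𝓝[Strip (v i) (a i)] z) (𝓝 q) :=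
    fun i => (hf.cyl i).bot
  choose z hz q hq ht using h1
  refine ⟨fun i w => f i (w + z i), ⟨fun i => isCyl_shift (hf.cyl i) (hz i), hf.par, ?_, ?_⟩, ?_⟩
  · intro i j hij
    rw [image_shift (hz i), image_shift (hz j)]
    exact hf.disj i j hij
  · have : ∀ i, (fun w => f i (w + z i)) '' Strip (v i) (a i) = f i '' Strip (v i) (a i) :=
      fun i => image_shift (hz i)
    simp only [this]
    exact hf.cover
  · intro i
    refine ⟨q i, hq i, ?_⟩
    apply tendsto_shift (hz i)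
    rw [zero_add]
    exact ht i

/-! ### overlap patterns -/

/-- The overlap pattern of two strips, in the coordinates given by `e`, `e'`. -/
def pat (e e' : ℂ) (γ a δ a' : ℝ) (f g : ℂ → X) : Set (ℝ × ℝ) :=
  {p | ∃ z, z ∈ Strip (γ * e) a ∧ z + (p.1 * e + p.2 * e') ∈ Strip (δ * e') a' ∧
    f z = g (z + (p.1 * e + p.2 * e'))}

/-- All points of the overlap with the same difference of coordinates. -/
theorem pat_all [T2Space X] {e e' : ℂ} {γ a δ a' : ℝ} {f g : ℂ → X}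
    (hf : M.IsCyl (γ * e) a f) (hg : M.IsCyl (δ * e') a' g) {p : ℝ × ℝ}
    (hp : p ∈ pat e e' γ a δ a' f g) {z : ℂ} (h1 : z ∈ Strip (γ * e) a)
    (h2 : z + (p.1 * e + p.2 * e') ∈ Strip (δ * e') a') : f z = g (z + (p.1 * e + p.2 * e')) := by
  obtain ⟨w, hw1, hw2, hw⟩ := hp
  set τ : ℂ := p.1 * e + p.2 * e' with hτ
  have hconv : Convex ℝ (Strip (γ * e) a ∩ {z | z + τ ∈ Strip (δ * e') a'}) := by
    apply (convex_Strip _ _).inter
    have : {z | z + τ ∈ Strip (δ * e') a'} = (fun z => τ + z) ⁻¹' (Strip (δ * e') a') := by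
      ext z
      simp [add_comm]
    rw [this]
    exact (convex_Strip _ _).translate_preimage_right τ
  have t1 := hf.tr.mono (inter_subset_left (s := Strip (γ * e) a)
    (t := {z | z + τ ∈ Strip (δ * e') a'}))
  have t2 := (hg.tr.comp_add τ).mono (inter_subset_right (s := Strip (γ * e) a)
    (t := {z | z + τ ∈ Strip (δ * e') a'}))
  exact t1.eqOn t2 hconv.isPreconnected ⟨hw1, hw2⟩ hw ⟨h1, h2⟩

theorem pat_iff [T2Space X] {e e' : ℂ} {κ : ℝ} (hκ : κ ≠ 0) (he : cr e e' = κ)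
    {γ a δ a' : ℝ} {f g : ℂ → X} (hf : M.IsCyl (γ * e) a f) (hg : M.IsCyl (δ * e') a' g) {z w : ℂ}
    (h1 : z ∈ Strip (γ * e) a) (h2 : w ∈ Strip (δ * e') a') :
    f z = g w ↔ ((cr (w - z) e' / κ, cr e (w - z) / κ) : ℝ × ℝ) ∈ pat e e' γ a δ a' f g := by
  have hc := coord he hκ (w - z)
  have hw : z + (((cr (w - z) e' / κ : ℝ) : ℂ) * e + ((cr e (w - z) / κ : ℝ) : ℂ) * e') = w := by
    rw [← hc]; ring
  constructor
  · intro h
    refine ⟨z, h1, ?_, ?_⟩
    · simp only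
      rw [hw]; exact h2
    · simp only
      rw [hw]; exact h
  · intro h
    have := pat_all hf hg h h1 (by simp only; rw [hw]; exact h2)
    simp only at this
    rw [hw] at this
    exact this

/-- the periodic set generated by a set of representatives -/
def per (γ δ : ℝ) (U : Set (ℝ × ℝ)) : Set (ℝ × ℝ) :=
  {p | ∃ q ∈ U, ∃ k l : ℤ, p = (k * γ - q.1, q.2 + l * δ)}

theorem pat_shift_left {e e' : ℂ} {γ a δ a' : ℝ} {f g : ℂ → X}
    (hf : M.IsCyl (γ * e) a f) {x y : ℝ} (h : (x, y) ∈ pat e e' γ a δ a' f g) (k : ℤ) :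
    (x + k * γ, y) ∈ pat e e' γ a δ a' f g := by
  obtain ⟨z, h1, h2, h3⟩ := h
  simp only at h2 h3
  have hcr : cr (γ * e) (-(k * (γ * e))) = 0 := by
    have : -((k : ℂ) * (γ * e)) = ((-k : ℝ) : ℂ) * (γ * e) := by push_cast; ring
    rw [this, cr_real, cr_self, mul_zero]
  have h4 : z + -(k * (γ * e)) ∈ Strip (γ * e) a := (mem_Strip_shift hcr z).2 h1
  refine ⟨z + -(k * (γ * e)), h4, ?_, ?_⟩
  · simp only
    have e1 : z + -(k * (γ * e)) + (((x + k * γ : ℝ) : ℂ) * e + (y : ℂ) * e') = z + (x * e + y * e') := by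
      push_cast; ring
    rw [e1]; exact h2
  · simp only
    have e1 : z + -(k * (γ * e)) + (((x + k * γ : ℝ) : ℂ) * e + (y : ℂ) * e') = z + (x * e + y * e') := by
      push_cast; ring
    rw [e1, ← h3]
    rw [hf.inj _ h4 _ h1]
    exact ⟨k, by ring⟩

theorem pat_shift_right {e e' : ℂ} {γ a δ a' : ℝ} {f g : ℂ → X}
    (hg : M.IsCyl (δ * e') a' g) {x y : ℝ} (h : (x, y) ∈ pat e e' γ a δ a' f g) (l : ℤ) :
    (x, y + l * δ) ∈ pat e e' γ a δ a' f g := by
  obtain ⟨z, h1, h2, h3⟩ := h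
  simp only at h2 h3
  have hcr : cr (δ * e') (l * (δ * e')) = 0 := by
    have : ((l : ℂ) * (δ * e')) = ((l : ℝ) : ℂ) * (δ * e') := by push_cast; ring
    rw [this, cr_real, cr_self, mul_zero]
  have e1 : z + ((x : ℂ) * e + ((y + l * δ : ℝ) : ℂ) * e') = z + (x * e + y * e') + l * (δ * e') := by
    push_cast; ring
  have h5 := (mem_Strip_shift (a := a') hcr _).2 h2
  refine ⟨z, h1, ?_, ?_⟩
  · simp only
    rw [e1]
    exact h5
  · simp only
    rw [e1, h3]
    rw [hg.inj _ h2 _ h5]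
    exact ⟨l, rfl⟩

theorem pat_eq_per {e e' : ℂ} {γ a δ a' : ℝ} {f g : ℂ → X}
    (hf : M.IsCyl (γ * e) a f) (hg : M.IsCyl (δ * e') a' g) {F : Set (ℝ × ℝ)}
    (hF : ∀ p ∈ pat e e' γ a δ a' f g, ∃ q ∈ F, ∃ k l : ℤ, p = (k * γ - q.1, q.2 + l * δ)) :
    pat e e' γ a δ a' f g = per γ δ {q ∈ F | (-q.1, q.2) ∈ pat e e' γ a δ a' f g} := by
  ext p
  constructor
  · intro hp
    obtain ⟨q, hq, k, l, rfl⟩ := hF p hp
    refine ⟨q, ⟨hq, ?_⟩, k, l, rfl⟩
    have h1 := pat_shift_right hg (pat_shift_left hf hp (-k)) (-l)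
    have e1 : (k * γ - q.1 + ((-k : ℤ) : ℝ) * γ, q.2 + l * δ + ((-l : ℤ) : ℝ) * δ) = (-q.1, q.2) := by
      push_cast
      ext <;> simp <;> ring
    rwa [e1] at h1
  · rintro ⟨q, ⟨_, hq⟩, k, l, rfl⟩
    have h1 := pat_shift_right hg (pat_shift_left hf hq k) l
    have e1 : (-q.1 + (k : ℝ) * γ, q.2 + l * δ) = (k * γ - q.1, q.2 + l * δ) := by
      ext <;> simp; ring
    rwa [e1] at h1


/-! ### the patching step -/

/-- normalised pairs of transverse families -/
structure Norm (M : MSurf X) {m n : ℕ} (κ : ℝ) (γ a : Fin m → ℝ) (δ a' : Fin n → ℝ) (e e' : ℂ)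
    (f : Fin m → ℂ → X) (g : Fin n → ℂ → X) : Prop where
  cross : cr e e' = κ
  fam : M.IsFam (fun i => γ i * e) a f
  fam' : M.IsFam (fun j => δ j * e') a' g
  lim : ∀ i, ∃ q ∈ M.Sg, Tendsto (f i) (𝓝[Strip (γ i * e) (a i)] 0) (𝓝 q)
  lim' : ∀ j, ∃ q ∈ M.Sg, Tendsto (g j) (𝓝[Strip (δ j * e') (a' j)] 0) (𝓝 q)

section
variable [CompactSpace X] [T2Space X] [ConnectedSpace X]

theorem two_finite (hT : TwoFam.{u}) {m n : ℕ} {κ : ℝ} (hκ : 0 < κ) {γ a : Fin m → ℝ}
    {δ a' : Fin n → ℝ} (hγ : ∀ i, 0 < γ i) (hδ : ∀ j, 0 < δ j) {e e' : ℂ} {f : Fin m → ℂ → X}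
    {g : Fin n → ℂ → X} (h : Norm M κ γ a δ a' e e' f g) :
    (((⋃ i, f i '' Strip (γ i * e) (a i)) ∪ ⋃ j, g j '' Strip (δ j * e') (a' j))ᶜ).Finite :=
  (hT X M (Fin m) (Fin n) e e' γ a (fun i => a i / (γ i * cr e e')) δ a'
    (fun j => a' j / (δ j * cr e e')) f g (by rw [h.cross]; exact hκ) hγ hδ (fun _ => rfl)
    (fun _ => rfl) h.fam h.fam').2.1

theorem two_pat (hT : TwoFam.{u}) {m n : ℕ} {κ : ℝ} (hκ : 0 < κ) {γ a : Fin m → ℝ}
    {δ a' : Fin n → ℝ} (hγ : ∀ i, 0 < γ i) (hδ : ∀ j, 0 < δ j) {e e' : ℂ} {f : Fin m → ℂ → X}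
    {g : Fin n → ℂ → X} (h : Norm M κ γ a δ a' e e' f g) (i : Fin m) (j : Fin n) :
    ∀ p ∈ pat e e' (γ i) (a i) (δ j) (a' j) (f i) (g j),
      ∃ q ∈ {q : ℝ × ℝ | (q.1 ∈ AddSubmonoid.closure (range fun j => a' j / (δ j * κ)) ∧ q.1 < γ i) ∧
        (q.2 ∈ AddSubmonoid.closure (range fun i => a i / (γ i * κ)) ∧ q.2 < δ j)},
        ∃ k l : ℤ, p = (k * γ i - q.1, q.2 + l * δ j) := by
  rintro ⟨x, y⟩ ⟨z, h1, h2, h3⟩
  simp only at h2 h3
  have hT' := (hT X M (Fin m) (Fin n) e e' γ a (fun i => a i / (γ i * cr e e')) δ a'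
    (fun j => a' j / (δ j * cr e e')) f g (by rw [h.cross]; exact hκ) hγ hδ (fun _ => rfl)
    (fun _ => rfl) h.fam h.fam').2.2.2 h.lim h.lim' i j z _ h1 h2 h3
  rw [h.cross] at hT'
  obtain ⟨s, hs, σ, hσ, k, l, hs0, hsγ, hσ0, hσδ, hτ⟩ := hT'
  refine ⟨(s, σ), ⟨⟨hs, hsγ⟩, hσ, hσδ⟩, k, l, ?_⟩
  -- compare coordinates
  have c1 : cr (x * e + y * e') e' = cr ((k * γ i - s : ℝ) * e + (σ + l * δ j : ℝ) * e') e' := by
    rw [hτ]
  have c2 : cr e (x * e + y * e') = cr e ((k * γ i - s : ℝ) * e + (σ + l * δ j : ℝ) * e') := by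
    rw [hτ]
  have ee : ∀ x y : ℝ, cr e (x * e + y * e') = y * κ := by
    intro x y
    rw [cr_add, cr_real, cr_real, cr_self, h.cross]
    ring
  have ee' : ∀ x y : ℝ, cr (x * e + y * e') e' = x * κ := by
    intro x y
    have : cr (x * e + y * e') e' = x * cr e e' + y * cr e' e' := by
      simp only [cr_eq, Complex.add_re, Complex.add_im, Complex.mul_re, Complex.mul_im,
        Complex.ofReal_re, Complex.ofReal_im]
      ring
    rw [this, cr_self, h.cross]
    ring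
  rw [ee', ee'] at c1
  rw [ee, ee] at c2
  have hx := mul_right_cancel₀ hκ.ne' c1
  have hy := mul_right_cancel₀ hκ.ne' c2
  rw [hx, hy]

omit [CompactSpace X] [ConnectedSpace X] in
theorem same_iff {m : ℕ} {γ a : Fin m → ℝ} {e e0 : ℂ} {f f0 : Fin m → ℂ → X}
    (hf : M.IsFam (fun i => γ i * e) a f) (hf0 : M.IsFam (fun i => γ i * e0) a f0)
    {A : SL(2, ℝ)} (hA : act A e = e0) {i i' : Fin m} {z w : ℂ} (hz : z ∈ Strip (γ i * e) (a i))
    (hw : w ∈ Strip (γ i' * e) (a i')) : f i z = f i' w ↔ f0 i (act A z) = f0 i' (act A w) := by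
  have hA' : ∀ (γ : ℝ), act A (γ * e) = γ * e0 := by
    intro γ; rw [act_real', hA]
  have hz0 : act A z ∈ Strip (γ i * e0) (a i) := by
    rw [← hA', ← act_image_Strip]; exact mem_image_of_mem _ hz
  have hw0 : act A w ∈ Strip (γ i' * e0) (a i') := by
    rw [← hA', ← act_image_Strip]; exact mem_image_of_mem _ hw
  by_cases hii : i = i'
  · subst hii
    rw [(hf.cyl i).inj z hz w hw, (hf0.cyl i).inj _ hz0 _ hw0]
    constructor
    · rintro ⟨n, hn⟩
      refine ⟨n, ?_⟩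
      rw [hn, act_add']
      congr 1
      have e1 : ((n : ℂ) * (γ i * e)) = ((n : ℝ) : ℂ) * (γ i * e) := by push_cast; ring
      rw [e1, act_real', hA']
      push_cast
      ring
    · rintro ⟨n, hn⟩
      refine ⟨n, ?_⟩
      have e1 : ((n : ℂ) * (γ i * e0)) = act A ((n : ℂ) * (γ i * e)) := by
        have e2 : ((n : ℂ) * (γ i * e)) = ((n : ℝ) : ℂ) * (γ i * e) := by push_cast; ring
        rw [e2, act_real', hA']
        push_cast
        ring
      rw [e1, ← act_add'] at hn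
      have hinj : ∀ u v : ℂ, act A u = act A v → u = v := by
        intro u v huv
        have h := A.det_coe
        rw [Matrix.det_fin_two] at h
        have h1 := congrArg Complex.re huv
        have h2 := congrArg Complex.im huv
        simp only [act] at h1 h2
        apply Complex.ext
        · linear_combination (u.re * (-1) + v.re) * h + A 1 1 * h1 - A 0 1 * h2
        · linear_combination (u.im * (-1) + v.im) * h - A 1 0 * h1 + A 0 0 * h2
      exact hinj _ _ hn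
  · constructor
    · intro h
      exact absurd h (fun h => Set.disjoint_left.mp (hf.disj i i' hii) ⟨z, hz, rfl⟩ ⟨w, hw, h.symm⟩)
    · intro h
      exact absurd h (fun h => Set.disjoint_left.mp (hf0.disj i i' hii) ⟨_, hz0, rfl⟩ ⟨_, hw0, h.symm⟩)

omit [CompactSpace X] [ConnectedSpace X] in
theorem cross_iff {m n : ℕ} {κ : ℝ} (hκ : 0 < κ) {γ a : Fin m → ℝ} {δ a' : Fin n → ℝ}
    {e e' e0 e0' : ℂ} {f f0 : Fin m → ℂ → X} {g g0 : Fin n → ℂ → X}
    (h : Norm M κ γ a δ a' e e' f g) (h0 : Norm M κ γ a δ a' e0 e0' f0 g0)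
    (hp : ∀ i j, pat e e' (γ i) (a i) (δ j) (a' j) (f i) (g j)
      = pat e0 e0' (γ i) (a i) (δ j) (a' j) (f0 i) (g0 j))
    {A : SL(2, ℝ)} (hA : act A e = e0) (hA' : act A e' = e0') {i : Fin m} {j : Fin n} {z w : ℂ}
    (hz : z ∈ Strip (γ i * e) (a i)) (hw : w ∈ Strip (δ j * e') (a' j)) :
    f i z = g j w ↔ f0 i (act A z) = g0 j (act A w) := by
  have hz0 : act A z ∈ Strip (γ i * e0) (a i) := by
    rw [← hA, ← act_real', ← act_image_Strip]; exact mem_image_of_mem _ hz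
  have hw0 : act A w ∈ Strip (δ j * e0') (a' j) := by
    rw [← hA', ← act_real', ← act_image_Strip]; exact mem_image_of_mem _ hw
  rw [pat_iff hκ.ne' h.cross (h.fam.cyl i) (h.fam'.cyl j) hz hw,
    pat_iff hκ.ne' h0.cross (h0.fam.cyl i) (h0.fam'.cyl j) hz0 hw0, hp i j]
  have e1 : act A w - act A z = act A (w - z) := by
    have : act A w = act A (w - z) + act A z := by rw [← act_add']; congr 1; ring
    rw [this]; ring
  have c1 : cr (act A w - act A z) e0' = cr (w - z) e' := by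
    rw [e1, ← hA', cr_act]
  have c2 : cr e0 (act A w - act A z) = cr e (w - z) := by
    rw [e1, ← hA, cr_act]
  rw [c1, c2]

theorem patch_pair (hT : TwoFam.{u}) (hP : PatchStatement.{u}) {m n : ℕ} {κ : ℝ} (hκ : 0 < κ)
    {γ a : Fin m → ℝ} {δ a' : Fin n → ℝ} (hγ : ∀ i, 0 < γ i) (hδ : ∀ j, 0 < δ j)
    {e e' e0 e0' : ℂ} {f f0 : Fin m → ℂ → X} {g g0 : Fin n → ℂ → X}
    (h : Norm M κ γ a δ a' e e' f g) (h0 : Norm M κ γ a δ a' e0 e0' f0 g0)
    (hp : ∀ i j, pat e e' (γ i) (a i) (δ j) (a' j) (f i) (g j)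
      = pat e0 e0' (γ i) (a i) (δ j) (a' j) (f0 i) (g0 j)) :
    ∃ A : SL(2, ℝ), (∃ φ : X ≃ₜ X, M.toTransStr.IsAffine A φ) ∧ act A e = e0 ∧ act A e' = e0' := by
  obtain ⟨A, hA, hA'⟩ := exists_SL hκ.ne' h.cross h0.cross
  refine ⟨A, ?_, hA, hA'⟩
  have hAγ : ∀ i, act A '' Strip (γ i * e) (a i) = Strip (γ i * e0) (a i) := by
    intro i; rw [act_image_Strip, act_real', hA]
  have hAδ : ∀ j, act A '' Strip (δ j * e') (a' j) = Strip (δ j * e0') (a' j) := by
    intro j; rw [act_image_Strip, act_real', hA']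
  refine hP X M A (Fin m ⊕ Fin n)
    (Sum.elim (fun i => Strip (γ i * e) (a i)) (fun j => Strip (δ j * e') (a' j)))
    (Sum.elim f g) (Sum.elim f0 g0) ?_ ?_ ?_ ?_ ?_ ?_
  · rintro (i | j)
    · exact isOpen_Strip _ _
    · exact isOpen_Strip _ _
  · rintro (i | j)
    · exact (h.fam.cyl i).tr
    · exact (h.fam'.cyl j).tr
  · rintro (i | j)
    · simp only [Sum.elim_inl]
      rw [hAγ]
      exact (h0.fam.cyl i).tr
    · simp only [Sum.elim_inr]
      rw [hAδ]
      exact (h0.fam'.cyl j).tr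
  · have := two_finite hT hκ hγ hδ h
    rw [iUnion_sum]
    exact this
  · have := two_finite hT hκ hγ hδ h0
    rw [iUnion_sum]
    simp only [Sum.elim_inl, Sum.elim_inr, hAγ, hAδ]
    exact this
  · rintro (i | j) (i' | j') z hz w hw
    · simp only [Sum.elim_inl] at hz hw ⊢
      exact same_iff h.fam h0.fam hA hz hw
    · simp only [Sum.elim_inl, Sum.elim_inr] at hz hw ⊢
      exact cross_iff hκ h h0 hp hA hA' hz hw
    · simp only [Sum.elim_inl, Sum.elim_inr] at hz hw ⊢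
      have := cross_iff hκ h h0 hp hA hA' hw hz
      rw [eq_comm, this, eq_comm]
    · simp only [Sum.elim_inr] at hz hw ⊢
      exact same_iff h.fam' h0.fam' hA' hz hw

theorem fixed (hT : TwoFam.{u}) (hP : PatchStatement.{u}) (M : MSurf X) (m n : ℕ) (κ : ℝ)
    (hκ : 0 < κ) (γ a : Fin m → ℝ) (δ a' : Fin n → ℝ) (hγ : ∀ i, 0 < γ i) (hδ : ∀ j, 0 < δ j) :
    ∃ S : Set (ℂ × ℂ), S.Finite ∧ ∀ (e e' : ℂ) (f : Fin m → ℂ → X) (g : Fin n → ℂ → X),
      cr e e' = κ → M.IsFam (fun i => γ i * e) a f → M.IsFam (fun j => δ j * e') a' g →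
      ∃ A : SL(2, ℝ), (∃ φ : X ≃ₜ X, M.toTransStr.IsAffine A φ) ∧ (act A e, act A e') ∈ S := by
  -- the realised patterns
  let R : Set (Fin m → Fin n → Set (ℝ × ℝ)) := {U | ∃ (ee : ℂ × ℂ) (f : Fin m → ℂ → X)
    (g : Fin n → ℂ → X), Norm M κ γ a δ a' ee.1 ee.2 f g ∧
      ∀ i j, pat ee.1 ee.2 (γ i) (a i) (δ j) (a' j) (f i) (g j) = U i j}
  by_cases hpos : (∀ i, 0 < a i) ∧ ∀ j, 0 < a' j
  · have hRfin : R.Finite := by
      have hW : ∀ j, 0 < a' j / (δ j * κ) := fun j => div_pos (hpos.2 j) (mul_pos (hδ j) hκ)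
      have hH : ∀ i, 0 < a i / (γ i * κ) := fun i => div_pos (hpos.1 i) (mul_pos (hγ i) hκ)
      let F : Fin m → Fin n → Set (ℝ × ℝ) := fun i j =>
        {q : ℝ × ℝ | (q.1 ∈ AddSubmonoid.closure (range fun j => a' j / (δ j * κ)) ∧ q.1 < γ i) ∧
        (q.2 ∈ AddSubmonoid.closure (range fun i => a i / (γ i * κ)) ∧ q.2 < δ j)}
      have hF : ∀ i j, (F i j).Finite := by
        intro i j
        have := (finite_closure hW (γ i)).prod (finite_closure hH (δ j))
        refine this.subset ?_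
        rintro ⟨x, y⟩ h
        exact h
      have hfin : (Set.univ.pi fun i : Fin m => Set.univ.pi fun j : Fin n =>
          (per (γ i) (δ j)) '' (𝒫 (F i j))).Finite := by
        apply Set.Finite.pi
        intro i
        apply Set.Finite.pi
        intro j
        exact (hF i j).finite_subsets.image _
      refine hfin.subset ?_
      rintro U ⟨ee, f, g, hN, hU⟩ i _ j _
      show U i j ∈ _
      rw [← hU i j, pat_eq_per (hN.fam.cyl i) (hN.fam'.cyl j) (two_pat hT hκ hγ hδ hN i j)]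
      exact ⟨_, fun q hq => hq.1, rfl⟩
    have hch : ∀ U ∈ R, ∃ (ee : ℂ × ℂ) (f : Fin m → ℂ → X)
        (g : Fin n → ℂ → X), Norm M κ γ a δ a' ee.1 ee.2 f g ∧
          ∀ i j, pat ee.1 ee.2 (γ i) (a i) (δ j) (a' j) (f i) (g j) = U i j := fun U hU => hU
    choose! rep f0 g0 hN0 hpat using hch
    refine ⟨rep '' R, hRfin.image _, ?_⟩
    intro e e' f g hcr hf hg
    obtain ⟨f', hf', hlim⟩ := normalise hf
    obtain ⟨g', hg', hlim'⟩ := normalise hg
    have hN : Norm M κ γ a δ a' e e' f' g' := ⟨hcr, hf', hg', hlim, hlim'⟩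
    set U : Fin m → Fin n → Set (ℝ × ℝ) := fun i j =>
      pat e e' (γ i) (a i) (δ j) (a' j) (f' i) (g' j) with hU
    have hUR : U ∈ R := ⟨(e, e'), f', g', hN, fun i j => rfl⟩
    obtain ⟨A, hφ, h1, h2⟩ := patch_pair hT hP hκ hγ hδ hN (hN0 U hUR)
      (fun i j => (hpat U hUR i j).symm)
    refine ⟨A, hφ, U, hUR, ?_⟩
    rw [h1, h2]
  · refine ⟨∅, Set.finite_empty, ?_⟩
    intro e e' f g _ hf hg
    exact absurd ⟨fun i => (hf.cyl i).pos, fun j => (hg.cyl j).pos⟩ hpos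

end

end PairAux

open PairAux in
/-- Module PAIR. -/
theorem pairFinite.{u} (hT : TwoFam.{u}) (hP : PatchStatement.{u}) : PairFinite.{u} := by
  intro X _ _ _ _ M P N hPfin
  have key : ∀ (m n : ℕ) (κ : ℝ) (γ a : Fin m → ℝ) (δ a' : Fin n → ℝ), ∃ S : Set (ℂ × ℂ),
      S.Finite ∧ ((0 < κ ∧ (∀ i, 0 < γ i) ∧ ∀ j, 0 < δ j) →
      ∀ (e e' : ℂ) (f : Fin m → ℂ → X) (g : Fin n → ℂ → X),
      cr e e' = κ → M.IsFam (fun i => γ i * e) a f → M.IsFam (fun j => δ j * e') a' g →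
      ∃ A : SL(2, ℝ), (∃ φ : X ≃ₜ X, M.toTransStr.IsAffine A φ) ∧ (act A e, act A e') ∈ S) := by
    intro m n κ γ a δ a'
    by_cases h : 0 < κ ∧ (∀ i, 0 < γ i) ∧ ∀ j, 0 < δ j
    · obtain ⟨S, hS, h'⟩ := fixed hT hP M m n κ h.1 γ a δ a' h.2.1 h.2.2
      exact ⟨S, hS, fun _ => h'⟩
    · exact ⟨∅, Set.finite_empty, fun h' => absurd h' h⟩
  choose S hSfin hS using key
  have hpi : ∀ m : ℕ, {γ : Fin m → ℝ | ∀ i, γ i ∈ P}.Finite := by
    intro m
    have := Set.Finite.pi (ι := Fin m) (t := fun _ => P) fun _ => hPfin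
    refine this.subset ?_
    intro γ hγ i _
    exact hγ i
  refine ⟨⋃ m ∈ Set.Iic N, ⋃ n ∈ Set.Iic N, ⋃ κ ∈ P, ⋃ γ ∈ {γ : Fin m → ℝ | ∀ i, γ i ∈ P},
    ⋃ a ∈ {a : Fin m → ℝ | ∀ i, a i ∈ P}, ⋃ δ ∈ {δ : Fin n → ℝ | ∀ i, δ i ∈ P},
    ⋃ a' ∈ {a' : Fin n → ℝ | ∀ i, a' i ∈ P}, S m n κ γ a δ a', ?_, ?_⟩
  · refine (Set.finite_Iic N).biUnion fun m _ => (Set.finite_Iic N).biUnion fun n _ =>
      hPfin.biUnion fun κ _ => (hpi m).biUnion fun γ _ => (hpi m).biUnion fun a _ =>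
      (hpi n).biUnion fun δ _ => (hpi n).biUnion fun a' _ => hSfin m n κ γ a δ a'
  · intro m n e e' γ a δ a' f g hm hn hpos hκ hγ hδ ha ha' hf hg
    obtain ⟨A, hφ, hA⟩ := hS m n (cr e e') γ a δ a' ⟨hpos, fun i => (hγ i).1, fun j => (hδ j).1⟩
      e e' f g rfl hf hg
    refine ⟨A, hφ, ?_⟩
    simp only [Set.mem_iUnion]
    exact ⟨m, hm, n, hn, cr e e', hκ, γ, fun i => (hγ i).2, a, ha, δ, fun j => (hδ j).2, a', ha', hA⟩

end Pool.Agent.Lib.MP_755177_an
end
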