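import Pool.Agent.Lib.MP_755177_an.Spec
import Pool.Agent.Lib.MP_755177_an.Spec4
import Pool.Agent.Lib.MP_755177_an.SCount

section
set_option autoImplicit false

/-!
# Module ALG1: finiteness of areas and circumference ratios
-/

open Set

namespace Pool.Agent.Lib.MP_755177_an

section general

variable {K : Type*} [Field K] [NumberField K]

/-- common denominator of a finitely generated subgroup of a number field -/
lemma alg1_denom (M : Submodule ℤ K) (hM : M.FG) :
    ∃ N : ℤ, N ≠ 0 ∧ ∀ x ∈ M, IsIntegral ℤ ((N : K) * x) := by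
  obtain ⟨s, rfl⟩ := hM
  have halg : Algebra.IsAlgebraic ℤ K := by
    refine ⟨fun x => ?_⟩
    have h : IsAlgebraic ℚ x := (NumberField.isAlgebraic (K := K)).isAlgebraic x
    exact (IsFractionRing.isAlgebraic_iff ℤ ℚ K).2 h
  obtain ⟨N, hN, h⟩ := Algebra.IsAlgebraic.exists_integral_multiples ℤ s
  refine ⟨N, hN, fun x hx => ?_⟩
  induction hx using Submodule.span_induction with
  | mem x hx => simpa [zsmul_eq_mul] using h x hx
  | zero => simpa using isIntegral_zero
  | add x y _ _ hx hy => rw [mul_add]; exact hx.add hy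
  | smul a x _ hx =>
    have : (N : K) * (a • x) = a • ((N : K) * x) := by
      simp only [zsmul_eq_mul]; ring
    rw [this]; exact hx.smul a

lemma alg1_finite_of_denom (N : ℤ) (hN : N ≠ 0) (B : ℝ) :
    {z : K | IsIntegral ℤ ((N : K) * z) ∧ ∀ φ : K →+* ℂ, ‖φ z‖ ≤ B}.Finite := by
  have h1 := NumberField.Embeddings.finite_of_norm_le K ℂ (|(N : ℝ)| * B)
  have hN' : (N : K) ≠ 0 := by exact_mod_cast hN
  refine Set.Finite.of_finite_image (f := fun z : K => (N : K) * z) (h1.subset ?_) ?_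
  · rintro _ ⟨z, ⟨hz1, hz2⟩, rfl⟩
    refine ⟨hz1, fun φ => ?_⟩
    have : ‖φ ((N : K) * z)‖ = |(N : ℝ)| * ‖φ z‖ := by
      rw [map_mul, norm_mul, map_intCast]
      simp
    rw [this]
    exact mul_le_mul_of_nonneg_left (hz2 φ) (abs_nonneg _)
  · intro a _ b _ hab
    exact mul_left_cancel₀ hN' hab

/-- a nonzero algebraic integer has a large conjugate -/
lemma alg1_large (z : K) (hz : IsIntegral ℤ z) (h0 : z ≠ 0) : ∃ φ : K →+* ℂ, 1 ≤ ‖φ z‖ := by
  by_contra hcon
  push Not at hcon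
  have w : NumberField.InfinitePlace K := Classical.arbitrary _
  let a : NumberField.RingOfIntegers K := ⟨z, hz⟩
  have ha : a ≠ 0 := by
    intro h
    apply h0
    have := congrArg (fun t : NumberField.RingOfIntegers K => algebraMap _ K t) h
    rw [map_zero] at this
    exact this
  have hlt : ∀ v : NumberField.InfinitePlace K, v (a : K) < 1 := by
    intro v
    have := hcon v.embedding
    rw [NumberField.InfinitePlace.norm_embedding_eq] at this
    exact this
  have := NumberField.InfinitePlace.one_le_of_lt_one (w := w) ha (fun v _ => hlt v)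
  exact absurd (hlt w) (not_lt.2 this)

/-- finiteness of the ratios `t` for a given pair of areas -/
lemma alg1_ratio (L : Submodule ℤ K) (hL : L.FG) (a a' : K) (ha : a ≠ 0) (ha' : a' ≠ 0) :
    {t : K | t ≠ 0 ∧ (∃ q : ℚ, a' = q * t ^ 2 * a) ∧ t * a ∈ L ∧ t⁻¹ * a' ∈ L}.Finite := by
  obtain ⟨N, hN, hden⟩ := alg1_denom (L.map (LinearMap.mulLeft ℤ (a⁻¹)) ⊔
    L.map (LinearMap.mulLeft ℤ (a'⁻¹))) ((hL.map _).sup (hL.map _))
  have hN' : (N : K) ≠ 0 := by exact_mod_cast hN
  set B : ℝ := ∑ φ : K →+* ℂ, ∑ ψ : K →+* ℂ,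
    (‖φ a'‖ / ‖φ a‖) * ((N : ℝ) ^ 2 * ‖ψ a‖ / ‖ψ a'‖) with hB
  have hB0 : ∀ φ ψ : K →+* ℂ, (‖φ a'‖ / ‖φ a‖) * ((N : ℝ) ^ 2 * ‖ψ a‖ / ‖ψ a'‖) ≤ B := by
    intro φ ψ
    have h1 : ∀ φ ψ : K →+* ℂ, 0 ≤ (‖φ a'‖ / ‖φ a‖) * ((N : ℝ) ^ 2 * ‖ψ a‖ / ‖ψ a'‖) := by
      intro φ ψ; positivity
    calc (‖φ a'‖ / ‖φ a‖) * ((N : ℝ) ^ 2 * ‖ψ a‖ / ‖ψ a'‖)
        ≤ ∑ ψ : K →+* ℂ, (‖φ a'‖ / ‖φ a‖) * ((N : ℝ) ^ 2 * ‖ψ a‖ / ‖ψ a'‖) :=
          Finset.single_le_sum (f := fun ψ : K →+* ℂ =>
            (‖φ a'‖ / ‖φ a‖) * ((N : ℝ) ^ 2 * ‖ψ a‖ / ‖ψ a'‖)) (fun ψ _ => h1 φ ψ)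
            (Finset.mem_univ ψ)
      _ ≤ B := Finset.single_le_sum (f := fun φ : K →+* ℂ => ∑ ψ : K →+* ℂ,
            (‖φ a'‖ / ‖φ a‖) * ((N : ℝ) ^ 2 * ‖ψ a‖ / ‖ψ a'‖))
            (fun φ _ => Finset.sum_nonneg (fun ψ _ => h1 φ ψ)) (Finset.mem_univ φ)
  refine (alg1_finite_of_denom N hN (1 + B)).subset ?_
  rintro t ⟨ht0, ⟨q, hq⟩, hta, hta'⟩
  have hint : IsIntegral ℤ ((N : K) * t) := by
    have : t ∈ L.map (LinearMap.mulLeft ℤ (a⁻¹)) := ⟨t * a, hta, by
      simp only [LinearMap.mulLeft_apply]; field_simp⟩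
    exact hden _ (Submodule.mem_sup_left this)
  have hint' : IsIntegral ℤ ((N : K) * t⁻¹) := by
    have : t⁻¹ ∈ L.map (LinearMap.mulLeft ℤ (a'⁻¹)) := ⟨t⁻¹ * a', hta', by
      simp only [LinearMap.mulLeft_apply]; field_simp⟩
    exact hden _ (Submodule.mem_sup_right this)
  refine ⟨hint, fun φ => ?_⟩
  obtain ⟨ψ, hψ⟩ := alg1_large ((N : K) * t⁻¹) hint' (mul_ne_zero hN' (inv_ne_zero ht0))
  have key : ∀ χ : K →+* ℂ, ‖χ a'‖ = |(q : ℝ)| * ‖χ t‖ ^ 2 * ‖χ a‖ := by
    intro χ
    conv_lhs => rw [hq]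
    rw [map_mul, map_mul, norm_mul, norm_mul, map_pow, norm_pow, map_ratCast]
    simp
  have hapos : ∀ χ : K →+* ℂ, 0 < ‖χ a‖ := fun χ => norm_pos_iff.2 ((map_ne_zero χ).2 ha)
  have ha'pos : ∀ χ : K →+* ℂ, 0 < ‖χ a'‖ := fun χ => norm_pos_iff.2 ((map_ne_zero χ).2 ha')
  have htpos : ∀ χ : K →+* ℂ, 0 < ‖χ t‖ := fun χ => norm_pos_iff.2 ((map_ne_zero χ).2 ht0)
  have hψt : ‖ψ t‖ ^ 2 ≤ (N : ℝ) ^ 2 := by
    have h1 : ‖ψ ((N : K) * t⁻¹)‖ = |(N : ℝ)| * ‖ψ t‖⁻¹ := by
      rw [map_mul, norm_mul, map_intCast, map_inv₀, norm_inv]; simp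
    rw [h1] at hψ
    have h2 : ‖ψ t‖ ≤ |(N : ℝ)| := by
      have := mul_le_mul_of_nonneg_right hψ (htpos ψ).le
      rwa [one_mul, mul_assoc, inv_mul_cancel₀ (htpos ψ).ne', mul_one] at this
    calc ‖ψ t‖ ^ 2 ≤ |(N : ℝ)| ^ 2 := by gcongr
      _ = (N : ℝ) ^ 2 := sq_abs _
  have hqpos : 0 < |(q : ℝ)| := by
    have h1 := key ψ
    have h2 := ha'pos ψ
    rw [h1] at h2
    have h3 : 0 < ‖ψ t‖ ^ 2 * ‖ψ a‖ := mul_pos (pow_pos (htpos ψ) 2) (hapos ψ)
    by_contra h
    have h4 : |(q : ℝ)| = 0 := le_antisymm (not_lt.1 h) (abs_nonneg _)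
    rw [h4] at h2; simp at h2
  -- lower bound for `|q|`
  have hq1 : ‖ψ a'‖ ≤ |(q : ℝ)| * (N : ℝ) ^ 2 * ‖ψ a‖ := by
    rw [key ψ]
    gcongr
  have hsq : ‖φ t‖ ^ 2 ≤ B := by
    refine le_trans ?_ (hB0 φ ψ)
    have e1 : ‖φ t‖ ^ 2 = ‖φ a'‖ / ‖φ a‖ * (1 / |(q : ℝ)|) := by
      have h1 := (hapos φ).ne'
      rw [key φ]; field_simp
    rw [e1]
    refine mul_le_mul_of_nonneg_left ?_ (by positivity)
    rw [div_le_div_iff₀ hqpos (ha'pos ψ)]
    nlinarith [hq1]
  nlinarith [sq_nonneg (‖φ t‖ - 1), norm_nonneg (φ t)]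

end general

theorem algFinite : AlgFinite := by
  classical
  intro k hfd hreal Λ hΛ hΛk A hA
  have : NumberField k := ⟨⟩
  let f : k →ₗ[ℤ] ℝ := (algebraMap k ℝ).toAddMonoidHom.toIntLinearMap
  have hfc : ∀ z : k, f z = (z : ℝ) := fun z => rfl
  have hfinj : Function.Injective f := fun a b h => Subtype.ext h
  let ΛK : Submodule ℤ k := Λ.comap f
  have hmap : ΛK.map f = Λ := by
    apply le_antisymm (Submodule.map_comap_le _ _)
    intro x hx
    exact ⟨⟨x, hΛk x hx⟩, hx, rfl⟩
  have hΛKfg : ΛK.FG := Submodule.fg_of_fg_map_injective f hfinj (by rw [hmap]; exact hΛ)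
  let L : Submodule ℤ k := ΛK * ΛK
  have hLfg : L.FG := hΛKfg.mul hΛKfg
  let AK : k := ⟨A, hA⟩
  let BA : ℝ := ∑ φ : k →+* ℂ, ‖φ AK‖
  obtain ⟨N, hN, hden⟩ := alg1_denom L hLfg
  let F1 : Set k := {z : k | IsIntegral ℤ ((N : k) * z) ∧ ∀ φ : k →+* ℂ, ‖φ z‖ ≤ BA}
  have hF1 : F1.Finite := alg1_finite_of_denom N hN BA
  let R : k → k → Set k := fun a a' =>
    {t : k | a ≠ 0 ∧ a' ≠ 0 ∧ t ≠ 0 ∧ (∃ q : ℚ, a' = q * t ^ 2 * a) ∧ t * a ∈ L ∧ t⁻¹ * a' ∈ L}
  have hR : ∀ a a', (R a a').Finite := by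
    intro a a'
    by_cases ha : a = 0
    · refine (Set.finite_empty).subset ?_
      rintro t ⟨h, _⟩; exact absurd ha h
    by_cases ha' : a' = 0
    · refine (Set.finite_empty).subset ?_
      rintro t ⟨_, h, _⟩; exact absurd ha' h
    refine (alg1_ratio L hLfg a a' ha ha').subset ?_
    rintro t ⟨_, _, h⟩; exact h
  refine ⟨(fun z : k => (z : ℝ)) '' (F1 ∪ ⋃ a ∈ F1, ⋃ a' ∈ F1, R a a'), ?_, ?_⟩
  · apply Set.Finite.image
    apply hF1.union
    apply hF1.biUnion
    intro a _
    apply hF1.biUnion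
    intro a' _
    exact hR a a'
  intro ι _ x y ξ η hmem hpos hrat hsum
  -- lifts to `k`
  let X : ι → k := fun l => ⟨x l, hΛk _ (hmem l).1⟩
  let Y : ι → k := fun l => ⟨y l, hΛk _ (hmem l).2.1⟩
  let Ξ : ι → k := fun l => ⟨ξ l, hΛk _ (hmem l).2.2.1⟩
  let H : ι → k := fun l => ⟨η l, hΛk _ (hmem l).2.2.2⟩
  have hX : ∀ l, X l ∈ ΛK := fun l => (hmem l).1
  have hY : ∀ l, Y l ∈ ΛK := fun l => (hmem l).2.1
  have hΞ : ∀ l, Ξ l ∈ ΛK := fun l => (hmem l).2.2.1
  have hH : ∀ l, H l ∈ ΛK := fun l => (hmem l).2.2.2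
  let a : ι → k := fun l => X l * H l - Y l * Ξ l
  have hac : ∀ l, ((a l : k) : ℝ) = x l * η l - y l * ξ l := fun l => rfl
  have haL : ∀ l, a l ∈ L := fun l =>
    L.sub_mem (Submodule.mul_mem_mul (hX l) (hH l)) (Submodule.mul_mem_mul (hY l) (hΞ l))
  have ha0 : ∀ l, a l ≠ 0 := by
    intro l h
    have h1 := hpos l
    rw [← hac l, h] at h1
    simp at h1
  have hxy : ∀ l, x l ≠ 0 ∨ y l ≠ 0 := by
    intro l
    by_contra hcon
    push Not at hcon
    have h1 := hpos l
    rw [hcon.1, hcon.2] at h1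
    simp at h1
  -- ratio data
  have hratK : ∀ l l' (t : ℝ), 0 < t → x l' = t * x l → y l' = t * y l →
      ∃ T : k, (T : ℝ) = t ∧ T ≠ 0 ∧ (∃ q : ℚ, 0 < q ∧ a l' = q * T ^ 2 * a l) ∧ T * a l ∈ L ∧
        T⁻¹ * a l' ∈ L := by
    intro l l' t ht hxt hyt
    obtain ⟨t', ht', hxt', hyt', q, hq⟩ := hrat l l'
    have htt : t' = t := by
      rcases hxy l with h | h
      · exact mul_right_cancel₀ h (hxt'.symm.trans hxt)
      · exact mul_right_cancel₀ h (hyt'.symm.trans hyt)
    subst htt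
    have htk : t' ∈ k := by
      rcases hxy l with h | h
      · have : t' = x l' / x l := by rw [hxt]; field_simp
        rw [this]; exact k.div_mem (hΛk _ (hmem l').1) (hΛk _ (hmem l).1)
      · have : t' = y l' / y l := by rw [hyt]; field_simp
        rw [this]; exact k.div_mem (hΛk _ (hmem l').2.1) (hΛk _ (hmem l).2.1)
    let T : k := ⟨t', htk⟩
    have hT0 : T ≠ 0 := by
      intro h
      have := congrArg (fun z : k => (z : ℝ)) h
      simp only [T] at this
      exact ht.ne' this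
    have hXT : X l' = T * X l := Subtype.ext hxt
    have hYT : Y l' = T * Y l := Subtype.ext hyt
    refine ⟨T, rfl, hT0, ⟨q, ?_, ?_⟩, ?_, ?_⟩
    · have h1 : 0 < (q : ℝ) * (x l * η l - y l * ξ l) := by
        rw [← hq]; exact div_pos (hpos l') (by positivity)
      have h2 : 0 < (q : ℝ) := by
        by_contra h
        exact absurd h1 (not_lt.2 (mul_nonpos_of_nonpos_of_nonneg (not_lt.1 h) (hpos l).le))
      exact_mod_cast h2
    · apply Subtype.ext
      have h1 : x l' * η l' - y l' * ξ l' = q * t' ^ 2 * (x l * η l - y l * ξ l) := by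
        have : t' ^ 2 ≠ 0 := by positivity
        rw [div_eq_iff this] at hq
        rw [hq]; ring
      have h2 : (((q : k) * T ^ 2 * a l : k) : ℝ) = q * t' ^ 2 * (x l * η l - y l * ξ l) := by
        push_cast
        rw [hac l]
      rw [h2, hac l', h1]
    · have : T * a l = X l' * H l - Y l' * Ξ l := by
        rw [hXT, hYT]; simp only [a]; ring
      rw [this]
      exact L.sub_mem (Submodule.mul_mem_mul (hX l') (hH l)) (Submodule.mul_mem_mul (hY l') (hΞ l))
    · have : T⁻¹ * a l' = X l * H l' - Y l * Ξ l' := by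
        simp only [a]; rw [hXT, hYT]; field_simp
      rw [this]
      exact L.sub_mem (Submodule.mul_mem_mul (hX l) (hH l')) (Submodule.mul_mem_mul (hY l) (hΞ l'))
  -- areas
  have haF : ∀ l, a l ∈ F1 := by
    intro l
    refine ⟨hden _ (haL l), fun φ => ?_⟩
    have hre : ∀ z : k, ‖φ z‖ = |(φ z).re| := by
      intro z
      have : φ z = ((φ z).re : ℂ) := Complex.ext rfl (by simp [hreal φ z])
      conv_lhs => rw [this]
      simp
    have hsumK : ∑ m, a m = AK := by
      apply Subtype.ext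
      have : ((∑ m, a m : k) : ℝ) = ∑ m, (x m * η m - y m * ξ m) := by
        push_cast
        exact Finset.sum_congr rfl (fun m _ => hac m)
      rw [this, hsum]
    have hsumre : ∑ m, (φ (a m)).re = (φ AK).re := by
      rw [← hsumK, map_sum, Complex.re_sum]
    have hsign : ∀ m, ∃ c : ℝ, 0 ≤ c ∧ (φ (a m)).re = c * (φ (a l)).re := by
      intro m
      obtain ⟨t, ht, hx, hy, _⟩ := hrat l m
      obtain ⟨T, hT, hT0, ⟨q, hq0, hq⟩, _, _⟩ := hratK l m t ht hx hy
      refine ⟨q * (φ T).re ^ 2, by positivity, ?_⟩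
      rw [hq, map_mul, map_mul, map_pow, map_ratCast]
      have e1 : φ T = ((φ T).re : ℂ) := Complex.ext rfl (by simp [hreal φ T])
      have e2 : φ (a l) = ((φ (a l)).re : ℂ) := Complex.ext rfl (by simp [hreal φ (a l)])
      rw [e1, e2]
      norm_cast
    have hle : ‖φ (a l)‖ ≤ ‖φ AK‖ := by
      rw [hre, hre, ← hsumre]
      choose c hc hcl using hsign
      have h1 : ∑ m, (φ (a m)).re = (∑ m, c m) * (φ (a l)).re := by
        rw [Finset.sum_mul]; exact Finset.sum_congr rfl (fun m _ => hcl m)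
      rw [h1, abs_mul]
      by_cases hz : (φ (a l)).re = 0
      · rw [hz]; simp
      have hcl1 : c l = 1 := by
        have := hcl l
        have h2 : (c l - 1) * (φ (a l)).re = 0 := by linarith
        rcases mul_eq_zero.1 h2 with h | h
        · linarith
        · exact absurd h hz
      have h3 : 1 ≤ ∑ m, c m := by
        calc (1 : ℝ) = c l := hcl1.symm
          _ ≤ ∑ m, c m := Finset.single_le_sum (fun m _ => hc m) (Finset.mem_univ l)
      have h4 : 1 ≤ |∑ m, c m| := le_trans h3 (le_abs_self _)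
      nlinarith [abs_nonneg ((φ (a l)).re)]
    exact hle.trans (Finset.single_le_sum (f := fun φ : k →+* ℂ => ‖φ AK‖)
      (fun _ _ => norm_nonneg _) (Finset.mem_univ φ))
  refine ⟨fun l => ⟨a l, Or.inl (haF l), rfl⟩, ?_⟩
  intro l l' t ht hxt hyt
  obtain ⟨T, hT, hT0, ⟨q, _, hq⟩, h1, h2⟩ := hratK l l' t ht hxt hyt
  refine ⟨T, Or.inr ?_, hT⟩
  simp only [Set.mem_iUnion]
  exact ⟨a l, haF l, a l', haF l', ha0 l, ha0 l', hT0, ⟨q, hq⟩, h1, h2⟩

end Pool.Agent.Lib.MP_755177_an
end

section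
set_option autoImplicit false

/-!
# Module ALG2: the totally real field of a pair of transverse periodic directions
-/

open Set Filter Topology Complex Matrix
open scoped MatrixGroups ComplexConjugate

namespace Pool.Agent.Lib.MP_755177_an

/-- A symmetric rational matrix times a positive diagonal one has real eigenvalues. -/
theorem real_eigenvalue {m : Type} [Fintype m] (B : m → m → ℝ) (q : m → ℝ) (hq : ∀ i, 0 < q i)
    (hB : ∀ i i', q i * B i i' = q i' * B i' i) (z : ℂ) (u : m → ℂ) (hu : u ≠ 0)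
    (h : ∀ i, ∑ i', (B i i' : ℂ) * u i' = z * u i) : z.im = 0 := by
  -- `∑ q i conj (u i) (B u) i` is real
  set T : ℂ := ∑ i, ∑ i', (q i * B i i' : ℂ) * (conj (u i) * u i') with hT
  have hTr : conj T = T := by
    rw [hT, map_sum]
    simp_rw [map_sum, map_mul, conj_ofReal, conj_conj]
    rw [Finset.sum_comm]
    refine Finset.sum_congr rfl fun i _ => Finset.sum_congr rfl fun i' _ => ?_
    have : (q i' * B i' i : ℂ) = q i * B i i' := by
      have := hB i' i
      exact_mod_cast this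
    rw [this]
    ring
  set N : ℝ := ∑ i, q i * normSq (u i) with hN
  have hTN : T = z * N := by
    rw [hT, hN]
    push_cast
    rw [Finset.mul_sum]
    refine Finset.sum_congr rfl fun i _ => ?_
    have : ∑ i', (q i * B i i' : ℂ) * (conj (u i) * u i') =
        q i * conj (u i) * ∑ i', (B i i' : ℂ) * u i' := by
      rw [Finset.mul_sum]
      exact Finset.sum_congr rfl fun i' _ => by ring
    rw [this, h i, normSq_eq_conj_mul_self]
    ring
  have hNpos : 0 < N := by
    obtain ⟨i, hi⟩ := Function.ne_iff.1 hu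
    refine Finset.sum_pos' (fun j _ => mul_nonneg (hq j).le (normSq_nonneg _)) ⟨i, Finset.mem_univ _, ?_⟩
    exact mul_pos (hq i) (normSq_pos.2 hi)
  have h1 : T.im = 0 := by
    have := congrArg Complex.im hTr
    rw [conj_im] at this
    linarith
  rw [hTN, mul_im, ofReal_im, ofReal_re, mul_zero, zero_add] at h1
  exact (mul_eq_zero.1 h1).resolve_right hNpos.ne'

/-- Perron-Frobenius: an eigenvector for the eigenvalue of a positive eigenvector is
proportional to it. -/
theorem perron {m : Type} [Fintype m] [Nonempty m] (B : m → m → ℝ) (hB : ∀ i i', 0 ≤ B i i')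
    (μ : ℝ) (h v : m → ℝ) (hpos : ∀ i, 0 < h i) (hh : ∀ i, ∑ i', B i i' * h i' = μ * h i)
    (hv : ∀ i, ∑ i', B i i' * v i' = μ * v i)
    (hconn : ∀ s : Set m, s.Nonempty → (∀ i ∈ s, ∀ i', 0 < B i i' → i' ∈ s) → s = univ) :
    ∃ r : ℝ, ∀ i, v i = r * h i := by
  obtain ⟨i₀, -, hi₀⟩ := Finset.exists_max_image (Finset.univ : Finset m) (fun i => v i / h i)
    Finset.univ_nonempty
  set r := v i₀ / h i₀ with hr
  have hy : ∀ i, 0 ≤ r * h i - v i := by
    intro i
    have := hi₀ i (Finset.mem_univ _)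
    rw [div_le_iff₀ (hpos i)] at this
    linarith
  have hs : {i | r * h i - v i = 0} = univ := by
    apply hconn
    · refine ⟨i₀, ?_⟩
      show r * h i₀ - v i₀ = 0
      rw [hr, div_mul_cancel₀ _ (hpos i₀).ne', sub_self]
    · intro i hi i' hii'
      have hi : r * h i - v i = 0 := hi
      show r * h i' - v i' = 0
      have h0 : ∑ i', B i i' * (r * h i' - v i') = 0 := by
        have : ∀ i', B i i' * (r * h i' - v i') = r * (B i i' * h i') - B i i' * v i' := by
          intro i'; ring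
        simp_rw [this]
        rw [Finset.sum_sub_distrib, ← Finset.mul_sum, hh, hv]
        have : r * (μ * h i) - μ * v i = μ * (r * h i - v i) := by ring
        rw [this, hi, mul_zero]
      have h1 := (Finset.sum_eq_zero_iff_of_nonneg
        (fun j _ => mul_nonneg (hB i j) (hy j))).1 h0 i' (Finset.mem_univ _)
      exact (mul_eq_zero.1 h1).resolve_left hii'.ne'
  refine ⟨r, fun i => ?_⟩
  have : i ∈ {i | r * h i - v i = 0} := by rw [hs]; exact mem_univ _
  have this : r * h i - v i = 0 := this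
  linarith

theorem existsField : ExistsField := by
  classical
  intro m n _ _ _ I q q' t t' h w hq hq' ht ht' hh hw hhw hwh hconn
  -- the rational matrix
  set B : Matrix m m ℚ := fun i i' => q i * ∑ j, I i j * q' j * I i' j with hBdef
  set μ : ℝ := 1 / (t * t') with hμ
  have hμpos : 0 < μ := by positivity
  have hBh : ∀ i, ∑ i', (B i i' : ℝ) * h i' = μ * h i := by
    intro i
    have h1 : h i = t * t' * ∑ i', (B i i' : ℝ) * h i' := by
      conv_lhs => rw [hhw i]
      simp_rw [hwh]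
      rw [Finset.mul_sum, Finset.mul_sum]
      simp_rw [Finset.mul_sum]
      rw [Finset.sum_comm]
      refine Finset.sum_congr rfl fun i' _ => ?_
      rw [hBdef]
      push_cast
      rw [Finset.mul_sum, Finset.sum_mul, Finset.mul_sum]
      refine Finset.sum_congr rfl fun j _ => ?_
      ring
    rw [hμ]
    conv_rhs => rw [h1]
    field_simp
  -- the characteristic polynomial
  have hint : IsIntegral ℚ μ := by
    refine ⟨B.charpoly, B.charpoly_monic, ?_⟩
    rw [Polynomial.eval₂_eq_eval_map, ← Matrix.charpoly_map, Matrix.eval_charpoly]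
    rw [← Matrix.exists_mulVec_eq_zero_iff]
    refine ⟨h, ?_, ?_⟩
    · intro h0
      obtain ⟨i⟩ := (inferInstance : Nonempty m)
      have := hh i
      rw [h0] at this
      exact lt_irrefl _ this
    · rw [Matrix.sub_mulVec]
      funext i
      rw [Pi.sub_apply, Pi.zero_apply, sub_eq_zero]
      have := hBh i
      simp only [Matrix.scalar_apply, Matrix.mulVec_diagonal]
      rw [← this]
      rfl
  set k : IntermediateField ℚ ℝ := IntermediateField.adjoin ℚ {μ} with hk
  have hμk : μ ∈ k := IntermediateField.mem_adjoin_simple_self ℚ μ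
  set μk : k := ⟨μ, hμk⟩ with hμk'
  have hfd : FiniteDimensional ℚ k := IntermediateField.adjoin.finiteDimensional hint
  -- the matrix over `k`
  set Mk : Matrix m m k := B.map (algebraMap ℚ k) - Matrix.scalar m μk with hMk
  have hdet : Mk.det = 0 := by
    have h1 : (Mk.map (algebraMap k ℝ)).det = 0 := by
      rw [← Matrix.exists_mulVec_eq_zero_iff]
      refine ⟨h, ?_, ?_⟩
      · intro h0
        obtain ⟨i⟩ := (inferInstance : Nonempty m)
        have := hh i
        rw [h0] at this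
        exact lt_irrefl _ this
      · funext i
        have hi := hBh i
        have : ∀ i', (Mk.map (algebraMap k ℝ)) i i' * h i' =
            (B i i' : ℝ) * h i' - (if i = i' then μ * h i' else 0) := by
          intro i'
          simp only [hMk, Matrix.map_apply, Matrix.sub_apply, map_sub, Matrix.scalar_apply,
            Matrix.diagonal_apply]
          by_cases hii : i = i'
          · simp only [hii, if_true]
            rw [sub_mul]
            congr 1
          · simp only [hii, if_false, map_zero, sub_zero]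
            congr 1
        simp only [Matrix.mulVec, dotProduct, Pi.zero_apply]
        simp_rw [this]
        rw [Finset.sum_sub_distrib, hi]
        simp
    have h2 : (algebraMap k ℝ) Mk.det = (Mk.map (algebraMap k ℝ)).det :=
      RingHom.map_det (algebraMap k ℝ) Mk
    rw [h1] at h2
    exact (map_eq_zero (algebraMap k ℝ)).1 h2
  refine ⟨k, hfd, ?_, ?_⟩
  · -- totally real
    intro σ
    -- the image of the generator is real
    have hz : (σ μk).im = 0 := by
      have h2 : (Mk.map σ).det = 0 := by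
        have := RingHom.map_det σ Mk
        rw [hdet, map_zero] at this
        exact this.symm
      obtain ⟨u, hu, hu0⟩ := (Matrix.exists_mulVec_eq_zero_iff).2 h2
      refine real_eigenvalue (fun i i' => (B i i' : ℝ)) (fun i => ((q i)⁻¹ : ℝ))
        (fun i => inv_pos.2 (by exact_mod_cast hq i)) ?_ (σ μk) u hu ?_
      · intro i i'
        have hi : (q i : ℝ) ≠ 0 := by exact_mod_cast (hq i).ne'
        have hi' : (q i' : ℝ) ≠ 0 := by exact_mod_cast (hq i').ne'
        simp only [hBdef]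
        push_cast
        rw [inv_mul_cancel_left₀ hi, inv_mul_cancel_left₀ hi']
        exact Finset.sum_congr rfl fun j _ => by ring
      · intro i
        have hi := congrFun hu0 i
        simp only [Matrix.mulVec, dotProduct, Pi.zero_apply] at hi
        have : ∀ i', (Mk.map σ) i i' * u i' =
            ((B i i' : ℝ) : ℂ) * u i' - (if i = i' then σ μk * u i' else 0) := by
          intro i'
          simp only [hMk, Matrix.map_apply, Matrix.sub_apply, map_sub, Matrix.scalar_apply,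
            Matrix.diagonal_apply]
          have hc : σ (algebraMap ℚ k (B i i')) = ((B i i' : ℝ) : ℂ) := by
            rw [eq_ratCast, map_ratCast]
            push_cast
            rfl
          by_cases hii : i = i'
          · simp only [hii, if_true] at hc ⊢
            rw [sub_mul, hc]
          · simp only [hii, if_false, map_zero, sub_zero]
            rw [hc]
        simp_rw [this] at hi
        rw [Finset.sum_sub_distrib, sub_eq_zero] at hi
        rw [hi]
        simp
    -- hence `σ` and its conjugate agree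
    intro x
    have hext : σ.toRatAlgHom = ((starRingEnd ℂ).comp σ).toRatAlgHom := by
      apply IntermediateField.algHom_ext_of_eq_adjoin ℚ (s := {μ}) hk
      intro y hy
      obtain rfl : y = μ := hy
      show σ _ = (starRingEnd ℂ) (σ _)
      exact ((conj_eq_iff_im).2 hz).symm
    have hx : σ x = (starRingEnd ℂ) (σ x) := congrArg (fun f : k →ₐ[ℚ] ℂ => f x) hext
    exact conj_eq_iff_im.1 hx.symm
  · -- the eigenvector
    obtain ⟨v, hv, hv0⟩ := (Matrix.exists_mulVec_eq_zero_iff).2 hdet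
    have hvR : ∀ i, ∑ i', (B i i' : ℝ) * (v i' : ℝ) = μ * (v i : ℝ) := by
      intro i
      have hi := congrFun hv0 i
      simp only [Matrix.mulVec, dotProduct, Pi.zero_apply] at hi
      have : ∀ i', Mk i i' * v i' =
          (algebraMap ℚ k (B i i')) * v i' - (if i = i' then μk * v i' else 0) := by
        intro i'
        simp only [hMk, Matrix.map_apply, Matrix.sub_apply, Matrix.scalar_apply,
          Matrix.diagonal_apply]
        by_cases hii : i = i'
        · simp only [hii, if_true, sub_mul]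
        · simp only [hii, if_false, sub_zero]
      simp_rw [this] at hi
      rw [Finset.sum_sub_distrib, sub_eq_zero] at hi
      have h3 := congrArg (algebraMap k ℝ) hi
      rw [map_sum] at h3
      simp only [Finset.sum_ite_eq, Finset.mem_univ, if_true, map_mul] at h3
      exact h3
    obtain ⟨r, hr⟩ := perron (fun i i' => (B i i' : ℝ)) (fun i i' => by
        simp only [hBdef]
        push_cast
        refine mul_nonneg (by exact_mod_cast (hq i).le) (Finset.sum_nonneg fun j _ => ?_)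
        have := (hq' j).le
        have : (0 : ℝ) ≤ q' j := by exact_mod_cast this
        positivity) μ h (fun i => (v i : ℝ)) hh hBh hvR (by
        intro s hs hcl
        apply hconn s hs
        intro i hi j hij i' hij'
        apply hcl i hi i'
        simp only [hBdef]
        push_cast
        refine mul_pos (by exact_mod_cast (hq i)) (Finset.sum_pos' (fun j _ => ?_) ⟨j, Finset.mem_univ _, ?_⟩)
        · have : (0 : ℝ) ≤ q' j := by exact_mod_cast (hq' j).le
          positivity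
        · have h1 : (0 : ℝ) < q' j := by exact_mod_cast (hq' j)
          have h2 : (0 : ℝ) < I i j := by exact_mod_cast hij
          have h3 : (0 : ℝ) < I i' j := by exact_mod_cast hij'
          positivity)
    have hr0 : r ≠ 0 := by
      rintro rfl
      apply hv
      funext i
      have := hr i
      rw [zero_mul] at this
      exact_mod_cast this
    have hmem : ∀ i, |r| * h i ∈ k := by
      intro i
      have h1 : r * h i ∈ k := by
        rw [← hr i]
        exact (v i).2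
      rcases abs_choice r with h2 | h2
      · rw [h2]; exact h1
      · rw [h2, neg_mul]; exact neg_mem h1
    refine ⟨|r| / t', |r|, by positivity, by positivity, fun j => ?_, hmem⟩
    rw [hwh j]
    have : |r| / t' * (q' j * t' * ∑ i, I i j * h i) = q' j * ∑ i, I i j * (|r| * h i) := by
      rw [Finset.mul_sum, Finset.mul_sum, Finset.mul_sum]
      refine Finset.sum_congr rfl fun i _ => ?_
      field_simp
    rw [this]
    refine mul_mem (by
      have := k.algebraMap_mem (q' j)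
      simp at this ⊢) (sum_mem fun i _ => mul_mem (natCast_mem k _) (hmem i))

end Pool.Agent.Lib.MP_755177_an
end

section
set_option autoImplicit false

/-!
# Module PM: planar measure lemmas
-/

open Set Filter Topology Complex MeasureTheory
open scoped ComplexConjugate

namespace Pool.Agent.Lib.MP_755177_an

theorem volumeLocalTranslation : VolumeLocalTranslation := by
  intro E g hE hinj hloc
  have hd : ∀ z ∈ E, HasFDerivWithinAt g (ContinuousLinearMap.id ℝ ℂ) E z := by
    intro z hz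
    obtain ⟨c, hc⟩ := hloc z hz
    have h1 : HasFDerivWithinAt (fun z' : ℂ => z' + c) (ContinuousLinearMap.id ℝ ℂ) E z :=
      (hasFDerivWithinAt_id z E).add_const c
    exact h1.congr_of_eventuallyEq hc (hc.self_of_nhdsWithin hz)
  have h2 := MeasureTheory.lintegral_abs_det_fderiv_eq_addHaar_image volume hE hd hinj
  rw [← h2]
  have : (ContinuousLinearMap.id ℝ ℂ).det = 1 := by
    rw [ContinuousLinearMap.det]; simp
  simp only [this]
  simp

namespace PlaneMeasure

/-- the `ℝ`-linear functional `v ↦ Im (conj c * v)` -/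
noncomputable def fn (c : ℂ) : ℂ →ₗ[ℝ] ℝ where
  toFun v := (conj c * v).im
  map_add' x y := by rw [mul_add, Complex.add_im]
  map_smul' m x := by
    simp only [Complex.real_smul, RingHom.id_apply, smul_eq_mul]
    simp; ring

lemma fn_apply (c v : ℂ) : fn c v = (conj c * v).im := rfl

lemma fn_neg (c v : ℂ) : fn c (-v) = - fn c v := map_neg _ _

lemma fn_sub_left (c d v : ℂ) : fn (c - d) v = fn c v - fn d v := by
  simp only [fn_apply, map_sub, sub_mul, Complex.sub_im]

lemma fn_add (c v w : ℂ) : fn c (v + w) = fn c v + fn c w := map_add _ _ _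

lemma fn_smul (c : ℂ) (s : ℝ) (w : ℂ) : fn c (s * w) = s * fn c w := by
  have := (fn c).map_smul s w
  simpa using this

lemma fn_self (c : ℂ) : fn c c = 0 := by
  rw [fn_apply, mul_comm, Complex.mul_conj]; simp

lemma fn_swap (a b : ℂ) : fn b a = - fn a b := by
  simp [fn_apply]; ring

lemma continuous_fn (c : ℂ) : Continuous (fn c) := by
  have : ⇑(fn c) = fun v => (conj c * v).im := rfl
  rw [this]
  exact Complex.continuous_im.comp (continuous_const.mul continuous_id)

lemma measurableSet_pos (c : ℂ) : MeasurableSet {v : ℂ | 0 < fn c v} :=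
  (isOpen_lt continuous_const (continuous_fn c)).measurableSet

lemma measurableSet_neg (c : ℂ) : MeasurableSet {v : ℂ | fn c v < 0} :=
  (isOpen_lt (continuous_fn c) continuous_const).measurableSet

lemma null_line (c : ℂ) (hc : c ≠ 0) : volume {v : ℂ | fn c v = 0} = 0 := by
  have h1 : ((LinearMap.ker (fn c) : Submodule ℝ ℂ) : Set ℂ) = {v : ℂ | fn c v = 0} := by
    ext v; simp
  rw [← h1]
  apply MeasureTheory.Measure.addHaar_submodule
  intro h
  have h2 : (I * c : ℂ) ∈ LinearMap.ker (fn c) := by rw [h]; trivial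
  rw [LinearMap.mem_ker, fn_apply] at h2
  have h3 : conj c * (I * c) = (Complex.normSq c : ℂ) * I := by
    rw [Complex.normSq_eq_conj_mul_self]; ring
  rw [h3] at h2
  simp at h2
  exact hc h2

/-- splitting a set along a line -/
lemma split (c : ℂ) (hc : c ≠ 0) (E : Set ℂ) :
    volume E = volume (E ∩ {v | fn c v < 0}) + volume (E ∩ {v | 0 < fn c v}) := by
  have h1 := measure_inter_add_sdiff (μ := volume) E (measurableSet_neg c)
  rw [← h1]
  congr 1
  apply measure_congr
  have hnull : ∀ᵐ v ∂(volume : Measure ℂ), fn c v ≠ 0 := by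
    rw [ae_iff]
    simpa using null_line c hc
  filter_upwards [hnull] with v hv
  apply propext
  change (v ∈ E ∧ ¬ (fn c v < 0)) ↔ (v ∈ E ∧ 0 < fn c v)
  constructor
  · rintro ⟨h1, h2⟩
    exact ⟨h1, lt_of_le_of_ne (not_lt.1 h2) (Ne.symm hv)⟩
  · rintro ⟨h1, h2⟩
    exact ⟨h1, not_lt.2 h2.le⟩

lemma volume_neg_set (E : Set ℂ) : volume {v : ℂ | -v ∈ E} = volume E := by
  have : {v : ℂ | -v ∈ E} = -E := rfl
  rw [this, MeasureTheory.Measure.measure_neg]

lemma half_disc (c : ℂ) (hc : c ≠ 0) (r : ℝ) :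
    volume ({v : ℂ | ‖v‖ < r} ∩ {v | 0 < fn c v}) = volume (Metric.ball (0 : ℂ) r) / 2 := by
  have hb : Metric.ball (0 : ℂ) r = {v : ℂ | ‖v‖ < r} := by
    ext v; simp
  have h1 := split c hc {v : ℂ | ‖v‖ < r}
  have h2 : volume ({v : ℂ | ‖v‖ < r} ∩ {v | fn c v < 0}) =
      volume ({v : ℂ | ‖v‖ < r} ∩ {v | 0 < fn c v}) := by
    rw [← volume_neg_set ({v : ℂ | ‖v‖ < r} ∩ {v | 0 < fn c v})]
    congr 1
    ext v
    simp only [mem_inter_iff, mem_ofPred_eq, norm_neg, fn_neg]
    constructor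
    · rintro ⟨h, h'⟩; exact ⟨h, by linarith⟩
    · rintro ⟨h, h'⟩; exact ⟨h, by linarith⟩
  rw [hb, h1, h2, ← two_mul, mul_comm]
  exact (ENNReal.mul_div_cancel_right (by norm_num) (by norm_num)).symm

lemma im_div_pos (u v : ℂ) (hu : u ≠ 0) : 0 < (v / u).im ↔ 0 < fn u v := by
  have h1 : v / u = ((Complex.normSq u)⁻¹ : ℝ) * (conj u * v) := by
    rw [div_eq_mul_inv, Complex.inv_def]
    push_cast
    ring
  have h2 : (v / u).im = (Complex.normSq u)⁻¹ * fn u v := by
    rw [h1, fn_apply, Complex.im_ofReal_mul]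
  rw [h2]
  have h3 : 0 < (Complex.normSq u)⁻¹ := inv_pos.2 (Complex.normSq_pos.2 hu)
  exact mul_pos_iff_of_pos_left h3

end PlaneMeasure

open PlaneMeasure

theorem volumeHalfDisc : VolumeHalfDisc := by
  intro u r hu _
  have : {v : ℂ | ‖v‖ < r ∧ 0 < (v / u).im} = {v : ℂ | ‖v‖ < r} ∩ {v | 0 < fn u v} := by
    ext v
    simp only [mem_ofPred_eq, mem_inter_iff, im_div_pos u v hu]
  rw [this, half_disc u hu r]

theorem volumeCorners : VolumeCorners := by
  intro a b r hab hr
  have hD : 0 < fn a b := hab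
  have hD' : fn b a = - fn a b := fn_swap a b
  have ha : a ≠ 0 := by
    rintro rfl
    simp [fn_apply] at hD
  have hb : b ≠ 0 := by
    rintro rfl
    simp at hD
  have hba : b - a ≠ 0 := by
    intro h
    have : b = a := sub_eq_zero.1 h
    rw [this, fn_self] at hD
    exact lt_irrefl _ hD
  have haa := fn_self a
  have hbb := fn_self b
  -- decomposition in the basis `a, b`
  have hdec : ∀ v : ℂ, v = ((-(fn b v) / fn a b : ℝ) : ℂ) * a + ((fn a v / fn a b : ℝ) : ℂ) * b := by
    intro v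
    have hD2 : (fn a b : ℝ) ≠ 0 := hD.ne'
    have h1 : fn a b = a.re * b.im - a.im * b.re := by simp [fn_apply]; ring
    have h2 : fn b v = b.re * v.im - b.im * v.re := by simp [fn_apply]; ring
    have h3 : fn a v = a.re * v.im - a.im * v.re := by simp [fn_apply]; ring
    apply Complex.ext
    · simp only [Complex.add_re, Complex.re_ofReal_mul]
      field_simp
      rw [h1, h2, h3]; ring
    · simp only [Complex.add_im, Complex.im_ofReal_mul]
      field_simp
      rw [h1, h2, h3]; ring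
  set H := {v : ℂ | ‖v‖ < r} ∩ {v | 0 < fn a v} with hH
  have hS1 : {v : ℂ | ‖v‖ < r ∧ ∃ s t : ℝ, 0 < s ∧ 0 < t ∧ v = s * a + t * b} =
      H ∩ {v | fn b v < 0} := by
    ext v
    simp only [hH, mem_ofPred_eq, mem_inter_iff]
    constructor
    · rintro ⟨h, s, t, hs, ht, rfl⟩
      refine ⟨⟨h, ?_⟩, ?_⟩
      · rw [fn_add, fn_smul, fn_smul, haa]; nlinarith
      · rw [fn_add, fn_smul, fn_smul, hbb, hD']; nlinarith
    · rintro ⟨⟨h, h1⟩, h2⟩
      exact ⟨h, _, _, div_pos (by linarith) hD, div_pos h1 hD, hdec v⟩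
  have hS3 : {v : ℂ | -v ∈ {v : ℂ | ‖v‖ < r ∧ ∃ s t : ℝ, 0 < s ∧ 0 < t ∧
      v = s * (-b) + t * (a - b)}} = (H ∩ {v | 0 < fn b v}) ∩ {v | fn (b - a) v < 0} := by
    ext v
    simp only [hH, mem_ofPred_eq, mem_inter_iff, norm_neg]
    constructor
    · rintro ⟨h, s, t, hs, ht, hv⟩
      have hv' : v = s * b + t * (b - a) := by
        have : v = -(-v) := (neg_neg v).symm
        rw [this, hv]; ring
      have e1 : fn a v = (s + t) * fn a b := by
        rw [hv', fn_add, fn_smul, fn_smul, map_sub, haa]; ring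
      have e2 : fn b v = t * fn a b := by
        rw [hv', fn_add, fn_smul, fn_smul, map_sub, hbb, hD']; ring
      refine ⟨⟨⟨h, ?_⟩, ?_⟩, ?_⟩
      · rw [e1]; positivity
      · rw [e2]; positivity
      · rw [fn_sub_left, e1, e2]; nlinarith
    · rintro ⟨⟨⟨h, h1⟩, h2⟩, h3⟩
      rw [fn_sub_left] at h3
      refine ⟨h, (fn a v - fn b v) / fn a b, fn b v / fn a b, div_pos (by linarith) hD,
        div_pos h2 hD, ?_⟩
      conv_lhs => rw [hdec v]
      push_cast
      ring
  have hS2 : {v : ℂ | ‖v‖ < r ∧ ∃ s t : ℝ, 0 < s ∧ 0 < t ∧ v = s * (-a) + t * (b - a)} =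
      (H ∩ {v | 0 < fn b v}) ∩ {v | 0 < fn (b - a) v} := by
    ext v
    simp only [hH, mem_ofPred_eq, mem_inter_iff]
    constructor
    · rintro ⟨h, s, t, hs, ht, rfl⟩
      have e1 : fn a (s * (-a) + t * (b - a)) = t * fn a b := by
        rw [fn_add, fn_smul, fn_smul, map_sub, haa, map_neg, haa]; ring
      have e2 : fn b (s * (-a) + t * (b - a)) = (s + t) * fn a b := by
        rw [fn_add, fn_smul, fn_smul, map_sub, hbb, map_neg, hD']; ring
      refine ⟨⟨⟨h, ?_⟩, ?_⟩, ?_⟩
      · rw [e1]; positivity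
      · rw [e2]; positivity
      · rw [fn_sub_left, e1, e2]; nlinarith
    · rintro ⟨⟨⟨h, h1⟩, h2⟩, h3⟩
      rw [fn_sub_left] at h3
      refine ⟨h, (fn b v - fn a v) / fn a b, fn a v / fn a b, div_pos (by linarith) hD,
        div_pos h1 hD, ?_⟩
      conv_lhs => rw [hdec v]
      push_cast
      ring
  rw [← half_disc a ha r]
  rw [split b hb ({v : ℂ | ‖v‖ < r} ∩ {v | 0 < fn a v}),
    split (b - a) hba (({v : ℂ | ‖v‖ < r} ∩ {v | 0 < fn a v}) ∩ {v | 0 < fn b v})]
  rw [hS1, hS2, ← volume_neg_set {v : ℂ | ‖v‖ < r ∧ ∃ s t : ℝ, 0 < s ∧ 0 < t ∧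
      v = s * (-b) + t * (a - b)}, hS3]
  rw [add_assoc]
  congr 1
  rw [add_comm]

end Pool.Agent.Lib.MP_755177_an
end

section
set_option autoImplicit false

/-!
# Module SAREA: small triangles do not cover the surface
-/

open Set Filter Topology Complex Metric MeasureTheory
open scoped MatrixGroups ComplexConjugate

namespace Pool.Agent.Lib.MP_755177_an

namespace SArea

open MSurf

theorem null_cr {c : ℂ} (hc : c ≠ 0) (x : ℂ) : volume {z : ℂ | cr c (z - x) = 0} = 0 := by
  have h1 : {z : ℂ | cr c (z - x) = 0} = (fun z => z + -x) ⁻¹' {v : ℂ | cr c v = 0} := by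
    ext z
    simp only [mem_preimage, mem_ofPred_eq, sub_eq_add_neg]
  rw [h1, measure_preimage_add_right]
  exact PlaneMeasure.null_line c hc

/-- A triangle with short edges is contained in an ellipse. -/
theorem TI_subset {g : SL(2, ℝ)} {ε : ℝ} {V : Fin 3 → ℂ}
    (hs : ∀ j, ‖act g (V (j + 1) - V j)‖ < ε) :
    TI V ⊆ {z | ‖act g (z - V 0)‖ < ε} := by
  intro z hz
  have h0 := hz 0
  have h1 := hz 1
  have h2 := hz 2
  have hsum := sum_lam V z
  have hd : 0 < dd V := by linarith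
  have hb := bary V z
  have ha1 : ‖act g (V 1 - V 0)‖ < ε := hs 0
  have ha2 : ‖act g (V 2 - V 0)‖ < ε := by
    have h3 : ‖act g (V 0 - V 2)‖ < ε := hs 2
    rwa [← norm_neg, ← act_neg', neg_sub] at h3
  have h3 : dd V • (z - V 0) = lam V 1 z • (V 1 - V 0) + lam V 2 z • (V 2 - V 0) := by
    rw [smul_sub, hb, ← hsum]
    simp only [add_smul, smul_sub]
    ring
  have h4 : dd V * ‖act g (z - V 0)‖ ≤
      lam V 1 z * ‖act g (V 1 - V 0)‖ + lam V 2 z * ‖act g (V 2 - V 0)‖ := by
    have h5 : dd V * ‖act g (z - V 0)‖ = ‖act g (dd V • (z - V 0))‖ := by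
      rw [normAct_smul, abs_of_pos hd]
    rw [h5, h3]
    refine (normAct_add_le _ _ _).trans ?_
    rw [normAct_smul, normAct_smul, abs_of_pos h1, abs_of_pos h2]
  have h5 : dd V * ‖act g (z - V 0)‖ < dd V * ε := by
    have hε : 0 < ε := (norm_nonneg _).trans_lt ha1
    have e1 : lam V 1 z * ‖act g (V 1 - V 0)‖ < lam V 1 z * ε := by gcongr
    have e2 : lam V 2 z * ‖act g (V 2 - V 0)‖ < lam V 2 z * ε := by gcongr
    have e3 : 0 < lam V 0 z * ε := by positivity
    have e4 : dd V * ε = lam V 0 z * ε + lam V 1 z * ε + lam V 2 z * ε := by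
      rw [← hsum]
      ring
    linarith
  exact lt_of_mul_lt_mul_left h5 hd.le

theorem exp_inj_ball {X : Type*} [TopologicalSpace X] [T2Space X] {M : MSurf X} {p : X}
    (hp : p ∉ M.Sg) : ∃ ρ > 0, ball 0 ρ ⊆ M.Dom p ∧ InjOn (M.exp p) (ball 0 ρ) := by
  have hy := zero_mem_Dom hp
  obtain ⟨a, ha, ζ, h1, h2, h3, h4⟩ := M.regular (M.exp p 0) (exp_notMem hy)
  obtain ⟨c, hc⟩ := (isTr_exp p).1.2 0 hy a ha (h2 h1)
  rw [(isOpen_Dom p).nhdsWithin_eq hy] at hc
  obtain ⟨ρ, hρ, hb⟩ := Metric.eventually_nhds_iff_ball.mp (hc.and ((isOpen_Dom p).mem_nhds hy))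
  refine ⟨ρ, hρ, fun z hz => (hb z hz).2, fun z hz w hw he => ?_⟩
  have e1 := (hb z hz).1
  have e2 := (hb w hw).1
  rw [he, e2] at e1
  exact (add_right_cancel e1).symm

theorem isOpen_image_TI {X : Type*} [TopologicalSpace X] [T2Space X] {M : MSurf X} {f : ℂ → X}
    {V : Fin 3 → ℂ} (h : M.Tri f V) : IsOpen (f '' TI V) := by
  rw [isOpen_iff_mem_nhds]
  rintro _ ⟨z, hz, rfl⟩
  have h1 := h.tr.mono (TI_subset_TT V)
  rw [← Patch.IsTr.map_nhds h1 (isOpen_TI V) hz]
  exact image_mem_map ((isOpen_TI V).mem_nhds hz)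

/-- The part of a disc covered by a triangle has area at most the area of the triangle. -/
theorem volume_part (hVol : VolumeLocalTranslation) {X : Type*} [TopologicalSpace X] [T2Space X]
    {M : MSurf X} {E : ℂ → X} {B : Set ℂ} (hB : IsOpen B) (hE : M.IsTr E B) (hinj : InjOn E B)
    {f : ℂ → X} {V : Fin 3 → ℂ} (h : M.Tri f V) :
    volume (B ∩ E ⁻¹' (f '' TI V)) ≤ volume (TI V) := by
  classical
  set O := B ∩ E ⁻¹' (f '' TI V) with hO
  have hOo : IsOpen O := hE.continuousOn.isOpen_inter_preimage hB (isOpen_image_TI h)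
  have hex : ∀ z : ℂ, ∃ y : ℂ, z ∈ O → y ∈ TI V ∧ f y = E z := by
    intro z
    by_cases hz : z ∈ O
    · obtain ⟨y, hy, he⟩ := hz.2
      exact ⟨y, fun _ => ⟨hy, he⟩⟩
    · exact ⟨0, fun h => absurd h hz⟩
  choose G hG using hex
  have hfinj : InjOn f (TI V) := h.injOn.mono (TI_subset_TT V)
  have hGinj : InjOn G O := by
    intro z hz z' hz' he
    apply hinj hz.1 hz'.1
    rw [← (hG z hz).2, ← (hG z' hz').2, he]
  have hloc : ∀ z ∈ O, ∃ c : ℂ, ∀ᶠ z' in 𝓝[O] z, G z' = z' + c := by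
    intro z hz
    obtain ⟨hy, he⟩ := hG z hz
    refine ⟨G z - z, ?_⟩
    set c := G z - z with hc
    have hzc : z + c = G z := by rw [hc]; ring
    set S : Set ℂ := B ∩ {z' | z' + c ∈ TI V} with hS
    have hSo : IsOpen S := hB.inter ((isOpen_TI V).preimage (by fun_prop))
    have hzS : z ∈ S := ⟨hz.1, by show z + c ∈ TI V; rw [hzc]; exact hy⟩
    have h1 : M.IsTr E S := hE.mono inter_subset_left
    have h2 : M.IsTr (fun z' => f (z' + c)) S :=
      ((h.tr.mono (TI_subset_TT V)).comp_add c).mono inter_subset_right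
    have h3 := h2.eventuallyEq h1 hzS (by show f (z + c) = E z; rw [hzc]; exact he)
    rw [hSo.nhdsWithin_eq hzS] at h3
    rw [hOo.nhdsWithin_eq hz]
    filter_upwards [h3, hSo.mem_nhds hzS, hOo.mem_nhds hz] with z' e1 e2 e3
    exact hfinj (hG z' e3).1 e2.2 ((hG z' e3).2.trans e1.symm)
  rw [← hVol O G hOo.measurableSet hGinj hloc]
  apply measure_mono
  rintro _ ⟨z, hz, rfl⟩
  exact (hG z hz).1

end SArea

open SArea MSurf in
/-- Module SAREA. -/
theorem triArea.{u} (h : VolumeLocalTranslation) : TriArea.{u} := by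
  intro X _ _ _ M p₀ hp₀
  obtain ⟨r, hr, hrD, hinj⟩ := exp_inj_ball hp₀
  refine ⟨r ^ 2, by positivity, ?_⟩
  intro g ε Z n f V hε hG hC hcov
  have hE : M.IsTr (M.exp p₀) (ball 0 r) := (isTr_exp p₀).mono hrD
  set N : Set ℂ := ball 0 r ∩ M.exp p₀ ⁻¹' Z with hN
  have hN0 : volume N = 0 := by
    apply measure_null_of_locally_null
    intro x hx
    obtain ⟨c, -, hce, ρ, hρ, hl⟩ := hG.localLine (hrD hx.1) hx.2
    refine ⟨N ∩ ball x ρ, inter_mem self_mem_nhdsWithin
      (mem_nhdsWithin_of_mem_nhds (ball_mem_nhds x hρ)), ?_⟩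
    refine measure_mono_null ?_ (null_cr hce.ne x)
    rintro z ⟨hz, hzx⟩
    have h1 := (hl (z - x) (by rwa [← mem_ball_iff_norm])).2
    rw [add_sub_cancel] at h1
    exact h1.1 hz.2
  have hsub : ball (0 : ℂ) r ⊆ N ∪ ⋃ i, (ball 0 r ∩ M.exp p₀ ⁻¹' (f i '' TI (V i))) := by
    intro z hz
    obtain ⟨i, y, hy, he⟩ := hcov (M.exp p₀ z) (exp_notMem (hrD hz))
    by_cases hyI : y ∈ TI (V i)
    · right
      exact mem_iUnion.2 ⟨i, hz, y, hyI, he⟩
    · left
      refine ⟨hz, ?_⟩
      show M.exp p₀ z ∈ Z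
      rw [← he]
      exact hC.bd i y hy hyI
  have hpart : ∀ i, volume (ball (0 : ℂ) r ∩ M.exp p₀ ⁻¹' (f i '' TI (V i))) ≤
      volume (ball (0 : ℂ) ε) := by
    intro i
    refine (volume_part h isOpen_ball hE hinj (hC.tri i)).trans ?_
    refine (measure_mono (TI_subset (hC.short i))).trans ?_
    have h1 : {z : ℂ | ‖act g (z - V i 0)‖ < ε} =
        (fun z => z + -V i 0) ⁻¹' (act g ⁻¹' ball 0 ε) := by
      ext z
      simp [sub_eq_add_neg]
    rw [h1, measure_preimage_add_right, Half.volume_preimage_act]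
  have hvol : volume (ball (0 : ℂ) r) ≤ n * volume (ball (0 : ℂ) ε) := by
    calc volume (ball (0 : ℂ) r) ≤ volume (N ∪ ⋃ i, (ball 0 r ∩ M.exp p₀ ⁻¹' (f i '' TI (V i)))) :=
          measure_mono hsub
      _ ≤ volume N + volume (⋃ i, (ball 0 r ∩ M.exp p₀ ⁻¹' (f i '' TI (V i)))) :=
          measure_union_le _ _
      _ = volume (⋃ i, (ball 0 r ∩ M.exp p₀ ⁻¹' (f i '' TI (V i)))) := by rw [hN0, zero_add]
      _ ≤ ∑ i, volume (ball 0 r ∩ M.exp p₀ ⁻¹' (f i '' TI (V i))) := by
          refine (measure_iUnion_le _).trans ?_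
          rw [tsum_fintype]
      _ ≤ ∑ _i : Fin n, volume (ball (0 : ℂ) ε) := Finset.sum_le_sum fun i _ => hpart i
      _ = n * volume (ball (0 : ℂ) ε) := by simp
  rw [Complex.volume_ball, Complex.volume_ball] at hvol
  have h2 : ∀ t : ℝ, 0 < t → ENNReal.ofReal t ^ 2 * (NNReal.pi : ENNReal) =
      ENNReal.ofReal (t ^ 2 * Real.pi) := by
    intro t ht
    rw [ENNReal.ofReal_mul (by positivity), ENNReal.ofReal_pow ht.le]
    congr 1
    rw [ENNReal.ofReal, Real.toNNReal_of_nonneg Real.pi_pos.le]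
    rfl
  rw [h2 r hr, h2 ε hε, ← ENNReal.ofReal_natCast, ← ENNReal.ofReal_mul (by positivity),
    ENNReal.ofReal_le_ofReal_iff (by positivity)] at hvol
  have h3 := Real.pi_pos
  nlinarith

end Pool.Agent.Lib.MP_755177_an
end

section
set_option autoImplicit false

/-!
# Module SBDY: a complex which does not cover the surface has a free side
-/

open Set Filter Topology Complex Metric MeasureTheory
open scoped MatrixGroups ComplexConjugate

namespace Pool.Agent.Lib.MP_755177_an

namespace SBdy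

/-- An open set whose boundary is finite and whose complement has ... : if the boundary of the open
set `W` is contained in the finite set `S`, then `W` contains the complement of `S`. -/
theorem compl_subset_of_frontier {X : Type*} [TopologicalSpace X] [T1Space X] [ConnectedSpace X]
    (hX : Patch.PuncConn X) {S W : Set X} (hS : S.Finite) (hW : IsOpen W) (hne : W.Nonempty)
    (hWS : W ⊆ Sᶜ) (hcl : ∀ x ∈ closure W, x ∉ S → x ∈ W) : Sᶜ ⊆ W := by
  set V : Set X := (closure W ∪ S)ᶜ with hV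
  have hVo : IsOpen V := (isClosed_closure.union hS.isClosed).isOpen_compl
  have hdisj : Disjoint W V := by
    rw [disjoint_left]
    intro x hx hxV
    exact hxV (Or.inl (subset_closure hx))
  have hcover : ∀ x, x ∉ S → x ∈ W ∨ x ∈ V := by
    intro x hx
    by_cases h : x ∈ closure W
    · exact Or.inl (hcl x h hx)
    · right
      rintro (h' | h')
      · exact h h'
      · exact hx h'
  have hloc : ∀ s ∈ S, ∃ U, IsOpen U ∧ s ∈ U ∧ (U \ {s} ⊆ W ∨ U \ {s} ⊆ V) := by
    intro s hs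
    have h1 : (S \ {s})ᶜ ∈ 𝓝 s :=
      (hS.subset sdiff_subset).isClosed.isOpen_compl.mem_nhds fun h => h.2 rfl
    obtain ⟨U, hU, hsU, hUV, hUc⟩ := hX s _ h1
    refine ⟨U, hU, hsU, ?_⟩
    have h2 : U \ {s} ⊆ W ∪ V := by
      intro x hx
      have hxS : x ∉ S := fun h => hUV hx.1 ⟨h, hx.2⟩
      exact hcover x hxS
    exact hUc.isPreconnected.subset_or_subset hW hVo hdisj h2
  set W' : Set X := W ∪ {s | s ∈ S ∧ ∃ U, IsOpen U ∧ s ∈ U ∧ U \ {s} ⊆ W} with hW'
  have hW'o : IsOpen W' := by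
    rw [isOpen_iff_mem_nhds]
    rintro x (hx | ⟨hxS, U, hU, hxU, hUW⟩)
    · exact mem_of_superset (hW.mem_nhds hx) subset_union_left
    · refine mem_of_superset (hU.mem_nhds hxU) fun y hy => ?_
      by_cases hyx : y = x
      · subst hyx
        exact Or.inr ⟨hxS, U, hU, hxU, hUW⟩
      · exact Or.inl (hUW ⟨hy, hyx⟩)
  have hPunc : ∀ s : X, ∀ U, IsOpen U → s ∈ U → (U \ {s}).Nonempty := by
    intro s U hU hs
    obtain ⟨U', _, _, hU'U, hc⟩ := hX s U (hU.mem_nhds hs)
    obtain ⟨y, hy⟩ := hc.nonempty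
    exact ⟨y, hU'U hy.1, hy.2⟩
  have hW'c : IsClosed W' := by
    rw [← isOpen_compl_iff, isOpen_iff_mem_nhds]
    intro x hx
    by_cases hxS : x ∈ S
    · obtain ⟨U, hU, hxU, h | h⟩ := hloc x hxS
      · exact absurd (Or.inr ⟨hxS, U, hU, hxU, h⟩) hx
      · refine mem_of_superset (hU.mem_nhds hxU) fun y hy => ?_
        by_cases hyx : y = x
        · subst hyx; exact hx
        · have hyV := h ⟨hy, hyx⟩
          rintro (hyW | ⟨hyS, _⟩)
          · exact disjoint_left.mp hdisj hyW hyV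
          · exact hyV (Or.inr hyS)
    · rcases hcover x hxS with h | h
      · exact absurd (Or.inl h) hx
      · refine mem_of_superset (hVo.mem_nhds h) fun y hy => ?_
        rintro (hyW | ⟨hyS, _⟩)
        · exact disjoint_left.mp hdisj hyW hy
        · exact hy (Or.inr hyS)
  have huniv : W' = univ := by
    refine IsClopen.eq_univ ⟨hW'c, hW'o⟩ ?_
    obtain ⟨x, hx⟩ := hne
    exact ⟨x, Or.inl hx⟩
  intro x hx
  have : x ∈ W' := by rw [huniv]; trivial
  rcases this with h | ⟨h, _⟩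
  · exact h
  · exact absurd h hx

variable {X : Type*} [TopologicalSpace X] [T2Space X] {M : MSurf X}

omit [T2Space X] in
theorem isCompact_TC {V : Fin 3 → ℂ} (hV : 0 < dd V) : IsCompact (TC V) := by
  refine Metric.isCompact_of_isClosed_isBounded (isClosed_TC V) ?_
  rw [isBounded_iff_forall_norm_le]
  refine ⟨‖V 0‖ + ‖V 1‖ + ‖V 2‖, fun z hz => ?_⟩
  have h := bary V z
  have h0 := hz 0
  have h1 := hz 1
  have h2 := hz 2
  have l0 := lam_le_of_mem_TC hz 0
  have l1 := lam_le_of_mem_TC hz 1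
  have l2 := lam_le_of_mem_TC hz 2
  have h3 : dd V * ‖z‖ ≤ dd V * (‖V 0‖ + ‖V 1‖ + ‖V 2‖) := by
    calc dd V * ‖z‖ = ‖dd V • z‖ := by rw [norm_smul, Real.norm_of_nonneg hV.le]
      _ = ‖lam V 0 z • V 0 + lam V 1 z • V 1 + lam V 2 z • V 2‖ := by rw [h]
      _ ≤ ‖lam V 0 z • V 0‖ + ‖lam V 1 z • V 1‖ + ‖lam V 2 z • V 2‖ :=
        (norm_add_le _ _).trans (by gcongr; exact norm_add_le _ _)
      _ = lam V 0 z * ‖V 0‖ + lam V 1 z * ‖V 1‖ + lam V 2 z * ‖V 2‖ := by
        rw [norm_smul, norm_smul, norm_smul, Real.norm_of_nonneg h0, Real.norm_of_nonneg h1,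
          Real.norm_of_nonneg h2]
      _ ≤ dd V * ‖V 0‖ + dd V * ‖V 1‖ + dd V * ‖V 2‖ := by gcongr
      _ = dd V * (‖V 0‖ + ‖V 1‖ + ‖V 2‖) := by ring
  exact le_of_mul_le_mul_left h3 hV

/-- The closure of the image of a triangle. -/
theorem closure_image_TT {f : ℂ → X} {V : Fin 3 → ℂ} (h : M.Tri f V) {x : X}
    (hx : x ∈ closure (f '' TT V)) (hxS : x ∉ M.Sg) : x ∈ f '' TT V := by
  rw [mem_closure_iff_ultrafilter] at hx
  obtain ⟨u, hu, hux⟩ := hx
  obtain ⟨v, hvT, hv⟩ : ∃ v : Ultrafilter ℂ, TT V ∈ v ∧ Ultrafilter.map f v = u := by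
    have h1 : ∃ v : Ultrafilter ℂ, (v : Filter ℂ) ≤ 𝓟 (TT V) ⊓ comap f u := by
      have : (𝓟 (TT V) ⊓ comap f (u : Filter X)).NeBot := by
        rw [inf_comm]
        exact Filter.comap_inf_principal_neBot_of_image_mem inferInstance hu
      exact Ultrafilter.exists_le _
    obtain ⟨v, hv⟩ := h1
    refine ⟨v, le_principal_iff.1 (hv.trans inf_le_left), ?_⟩
    apply Ultrafilter.coe_le_coe.1
    rw [Ultrafilter.coe_map]
    exact map_le_iff_le_comap.2 (hv.trans inf_le_right)
  obtain ⟨z, hz, hvz⟩ := (isCompact_TC h.pos).ultrafilter_le_nhds v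
    (le_principal_iff.2 (mem_of_superset hvT (TT_subset_TC V)))
  have hvz' : (v : Filter ℂ) ≤ 𝓝[TT V] z := le_inf hvz (le_principal_iff.2 hvT)
  have hlim : ∀ y, Tendsto f (𝓝[TT V] z) (𝓝 y) → x = y := by
    intro y hy
    have h1 : map f (v : Filter ℂ) ≤ 𝓝 y := (map_mono hvz').trans hy
    have h2 : map f (v : Filter ℂ) ≤ 𝓝 x := by
      rw [← Ultrafilter.coe_map, hv]
      exact hux
    exact tendsto_nhds_unique (f := f) (l := (v : Filter ℂ)) h2 h1
  rcases mem_TT_or h.pos hz with hT | ⟨j, rfl⟩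
  · exact ⟨z, hT, (hlim _ (h.tr.continuousOn z hT)).symm⟩
  · obtain ⟨q, hq, hl⟩ := h.lim j
    rw [hlim q hl] at hxS
    exact absurd hq hxS

end SBdy

open SBdy MSurf in
/-- Module SBDY. -/
theorem freeSide.{u} : FreeSide.{u} := by
  intro X _ _ _ _ M g ε Z n f V hG hC ⟨p0, hp0Z, hp0S⟩ ⟨x0, hx0S, hx0⟩
  by_contra hcon
  push Not at hcon
  set W : Set X := ⋃ i, f i '' TT (V i) with hW
  have hTIo : ∀ i, IsOpen (f i '' TI (V i)) := by
    intro i
    rw [isOpen_iff_mem_nhds]
    rintro _ ⟨y, hy, rfl⟩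
    rw [← Patch.IsTr.map_nhds ((hC.tri i).tr.mono (TI_subset_TT _)) (isOpen_TI _) hy]
    exact image_mem_map ((isOpen_TI _).mem_nhds hy)
  have hcl : ∀ x ∈ closure W, x ∉ M.Sg → x ∈ W := by
    intro x hx hxS
    rw [hW, closure_iUnion_of_finite, mem_iUnion] at hx
    obtain ⟨i, hi⟩ := hx
    exact mem_iUnion.2 ⟨i, closure_image_TT (hC.tri i) hi hxS⟩
  have hclTI : ∀ i, ∀ x ∈ closure (f i '' TI (V i)), x ∉ Z → x ∈ f i '' TI (V i) := by
    intro i x hx hxZ
    have h1 := closure_image_TT (hC.tri i) (closure_mono (image_mono (TI_subset_TT _)) hx)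
      (fun h => hxZ (hG.sub h))
    obtain ⟨y, hy, rfl⟩ := h1
    by_cases hyI : y ∈ TI (V i)
    · exact ⟨y, hyI, rfl⟩
    · exact absurd (hC.bd i y hy hyI) hxZ
  -- half discs at a point of an edge
  have hhalf : ∀ p ∈ Z, p ∉ M.Sg → ∀ b, ‖act g b‖ < ε → M.EdgeAt Z p b → ∀ r : ℝ, 0 < r →
      ball (0 : ℂ) r ⊆ M.Dom p → (∀ z ∈ ball (0 : ℂ) r, M.exp p z ∈ Z → cr b z = 0) →
      ∀ z ∈ ball (0 : ℂ) r, 0 < cr b z → M.exp p z ∈ W := by
    intro p hpZ hpS b hb he r hr hrD hrZ z hz hzb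
    obtain ⟨z1, hz1, hz1b, i, y, hy, hfy⟩ := hcon p hpZ hpS b hb he r hr
    set D : Set ℂ := ball 0 r ∩ {z | 0 < cr b z} with hD
    have hDc : Convex ℝ D := by
      refine (convex_ball _ _).inter ?_
      exact convex_halfSpace_gt (isLinear_cr b) 0
    have hDD : D ⊆ M.Dom p := fun z hz => hrD hz.1
    have hpre : IsPreconnected (M.exp p '' D) :=
      hDc.isPreconnected.image _ ((isTr_exp p).continuousOn.mono hDD)
    have hsub : M.exp p '' D ⊆ f i '' TI (V i) := by
      refine hpre.subset_of_closure_inter_subset (hTIo i) ?_ ?_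
      · exact ⟨M.exp p z1, ⟨z1, ⟨hz1, hz1b⟩, rfl⟩, ⟨y, hy, hfy⟩⟩
      · rintro _ ⟨hx, z', hz', rfl⟩
        refine hclTI i _ hx fun hZ => ?_
        have h1 := hrZ z' hz'.1 hZ
        have h2 : 0 < cr b z' := hz'.2
        rw [h1] at h2
        exact lt_irrefl _ h2
    obtain ⟨y', hy', he'⟩ := hsub ⟨z, ⟨hz, hzb⟩, rfl⟩
    rw [← he']
    exact mem_iUnion.2 ⟨i, y', TI_subset_TT _ hy', rfl⟩
  have hWo : IsOpen W := by
    rw [isOpen_iff_mem_nhds]
    intro x hx
    obtain ⟨i, y, hy, rfl⟩ := mem_iUnion.1 hx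
    by_cases hyI : y ∈ TI (V i)
    · refine mem_of_superset ((hTIo i).mem_nhds ⟨y, hyI, rfl⟩) ?_
      exact (image_mono (TI_subset_TT _)).trans (subset_iUnion (fun i => f i '' TT (V i)) i)
    · set p := f i y with hp
      have hpZ : p ∈ Z := hC.bd i y hy hyI
      have hpS : p ∉ M.Sg := (hC.tri i).tr.2 y hy
      obtain ⟨b, hb, he⟩ := hG.edge p hpZ hpS
      have hb' : ‖act g (-b)‖ < ε := by rw [act_neg', norm_neg]; exact hb
      have he' := he.neg
      have hbne := he.ne
      obtain ⟨_, _, _, _, _, _, _, _, r1, hr1, hrZ1⟩ := id he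
      obtain ⟨r2, hr2, hr2D⟩ := Metric.isOpen_iff.mp (isOpen_Dom (M := M) p) 0 (zero_mem_Dom hpS)
      set r := min r1 r2 with hr
      have hrpos : 0 < r := lt_min hr1 hr2
      have hrD : ball (0 : ℂ) r ⊆ M.Dom p := (ball_subset_ball (min_le_right _ _)).trans hr2D
      have hrZ : ∀ z ∈ ball (0 : ℂ) r, M.exp p z ∈ Z → cr b z = 0 := fun z hz =>
        hrZ1 z (ball_subset_ball (min_le_left _ _) hz)
      have hup := hhalf p hpZ hpS b hb he r hrpos hrD hrZ
      have hdown := hhalf p hpZ hpS (-b) hb' he' r hrpos hrD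
        (fun z hz hZ => by rw [cr_neg_left, hrZ z hz hZ, neg_zero])
      have hall : ∀ z ∈ ball (0 : ℂ) r, M.exp p z ∈ W := by
        intro z hz
        rcases lt_trichotomy (cr b z) 0 with h | h | h
        · exact hdown z hz (by rw [cr_neg_left]; linarith)
        · refine hcl _ ?_ (exp_notMem (hrD hz))
          -- `z` is a limit of points of the upper half disc
          have h1 : Tendsto (fun t : ℝ => z + t • (I * b)) (𝓝[>] 0) (𝓝 z) := by
            have h2 : Continuous (fun t : ℝ => z + t • (I * b)) := by fun_prop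
            have h3 := h2.tendsto 0
            rw [zero_smul, add_zero] at h3
            exact h3.mono_left nhdsWithin_le_nhds
          have h2 : Tendsto (fun t : ℝ => M.exp p (z + t • (I * b))) (𝓝[>] 0)
              (𝓝 (M.exp p z)) := by
            have h3 : ContinuousAt (M.exp p) z :=
              (isTr_exp p).continuousOn.continuousAt ((isOpen_Dom p).mem_nhds (hrD hz))
            exact h3.tendsto.comp h1
          refine mem_closure_of_tendsto h2 ?_
          filter_upwards [self_mem_nhdsWithin, h1.eventually (isOpen_ball.mem_nhds hz)] with t ht ht2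
          refine hup _ ht2 ?_
          have h4 : cr b (I * b) = b.re * b.re + b.im * b.im := by
            simp only [cr_eq, Complex.mul_re, Complex.mul_im, Complex.I_re, Complex.I_im]; ring
          rw [cr_add_right, cr_smul_right, h, zero_add, h4, ← Complex.normSq_apply]
          exact mul_pos ht (Complex.normSq_pos.2 hbne)
        · exact hup z hz h
      have hmap := Patch.IsTr.map_nhds (isTr_exp (M := M) p) (isOpen_Dom p) (zero_mem_Dom hpS)
      rw [exp_zero hpS] at hmap
      rw [← hmap]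
      exact mem_map.2 (mem_of_superset (ball_mem_nhds 0 hrpos) hall)
  have hWne : W.Nonempty := by
    obtain ⟨b, hb, he⟩ := hG.edge p0 hp0Z hp0S
    obtain ⟨z1, _, _, i, y, hy, _⟩ := hcon p0 hp0Z hp0S b hb he 1 one_pos
    exact ⟨f i y, mem_iUnion.2 ⟨i, y, TI_subset_TT _ hy, rfl⟩⟩
  have hWS : W ⊆ M.Sgᶜ := by
    intro x hx
    obtain ⟨i, y, hy, rfl⟩ := mem_iUnion.1 hx
    exact (hC.tri i).tr.2 y hy
  have hfin := compl_subset_of_frontier (Patch.puncConn M.toTransStr) M.finite_Sg hWo hWne hWS hcl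
  obtain ⟨i, y, hy, he⟩ := mem_iUnion.1 (hfin hx0S)
  exact hx0 i y hy he

end Pool.Agent.Lib.MP_755177_an
end
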