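import Pool.Agent.Lib.MP_755177_an.Spec2
import Pool.Agent.Lib.MP_755177_an.FinalB
import Pool.Agent.Lib.MP_755177_an.Spec4
import Pool.Agent.Lib.MP_755177_an.SBdy
import Pool.Agent.Lib.MP_755177_an.SCount
import Pool.Agent.Lib.MP_755177_an.CylPar
import Pool.Agent.Lib.MP_755177_an.Pair
import Pool.Agent.Lib.MP_755177_an.LatticeCrit

section
set_option autoImplicit false

/-!
# Module MONO
-/

open Set Filter Topology Complex Metric MeasureTheory
open scoped MatrixGroups ComplexConjugate

namespace Pool.Agent.Lib.MP_755177_an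

namespace Mono

/-- There is no continuous `k`-th root around the origin for `k ≥ 2`. -/
theorem no_root {k : ℕ} (hk : 0 < k) {ε : ℝ} (hε : 0 < ε) {r : ℂ → ℂ}
    (hr : ContinuousOn r (ball 0 ε)) (hrk : ∀ w ∈ ball (0 : ℂ) ε, r w ^ k = w) : k = 1 := by
  set ρ : ℝ := ε / 2 with hρ
  have hρ0 : 0 < ρ := by positivity
  set w : ℝ → ℂ := fun θ => (ρ : ℂ) * Complex.exp (θ * Complex.I) with hw
  have hwb : ∀ θ, w θ ∈ ball (0 : ℂ) ε := by
    intro θ
    rw [mem_ball_zero_iff, hw]
    simp only
    rw [norm_mul, Complex.norm_exp_ofReal_mul_I, Complex.norm_real, Real.norm_eq_abs,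
      abs_of_pos hρ0]
    linarith
  have hwc : Continuous w := by fun_prop
  set q : ℝ → ℂ := fun θ => r (w θ) * Complex.exp (-(θ * Complex.I / k)) with hq
  have hqc : Continuous q := by
    have h1 : Continuous fun θ => r (w θ) := hr.comp_continuous hwc hwb
    exact h1.mul (by fun_prop)
  have hk0 : (k : ℂ) ≠ 0 := by exact_mod_cast hk.ne'
  have hqk : ∀ θ, q θ ^ k = (ρ : ℂ) := by
    intro θ
    rw [hq]
    simp only
    rw [mul_pow, hrk _ (hwb θ), ← Complex.exp_nat_mul, hw]
    simp only
    rw [mul_assoc, ← Complex.exp_add]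
    have : (θ : ℂ) * Complex.I + (k : ℂ) * -((θ : ℂ) * Complex.I / k) = 0 := by
      field_simp
      ring
    rw [this, Complex.exp_zero, mul_one]
  have hfin : {y : ℂ | y ^ k = (ρ : ℂ)}.Finite := by
    have : {y : ℂ | y ^ k = (ρ : ℂ)} ⊆ (Polynomial.nthRoots k (ρ : ℂ)).toFinset := by
      intro y hy
      simp only [Finset.mem_coe, Multiset.mem_toFinset]
      rw [Polynomial.mem_nthRoots hk]
      exact hy
    exact (Finset.finite_toSet _).subset this
  have hfi : Finite {y : ℂ | y ^ k = (ρ : ℂ)} := hfin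
  have hconst : q 0 = q (2 * Real.pi) :=
    isPreconnected_univ.constant_of_mapsTo (T := {y : ℂ | y ^ k = (ρ : ℂ)}) hfin.isDiscrete
      hqc.continuousOn (fun θ _ => hqk θ) (mem_univ _) (mem_univ _)
  have hw0 : w 0 = (ρ : ℂ) := by rw [hw]; simp
  have hw1 : w (2 * Real.pi) = (ρ : ℂ) := by
    rw [hw]
    simp only
    push_cast
    rw [Complex.exp_two_pi_mul_I, mul_one]
  have hr0 : r (ρ : ℂ) ≠ 0 := by
    intro h
    have := hrk (ρ : ℂ) (by rw [← hw0]; exact hwb 0)
    rw [h, zero_pow hk.ne'] at this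
    exact hρ0.ne' (by exact_mod_cast this.symm)
  rw [hq] at hconst
  simp only [hw0, hw1] at hconst
  have h1 : Complex.exp (-(((2 * Real.pi : ℝ) : ℂ) * Complex.I / k)) = 1 := by
    have h2 := mul_left_cancel₀ hr0 hconst
    rw [← h2]
    simp
  rw [Complex.exp_eq_one_iff] at h1
  obtain ⟨m, hm⟩ := h1
  have h2 : (m : ℂ) * k = -1 := by
    have hpi : (2 * (Real.pi : ℂ) * Complex.I) ≠ 0 := Complex.two_pi_I_ne_zero
    push_cast at hm
    have h3 : (2 * (Real.pi : ℂ) * Complex.I) * ((m : ℂ) * k + 1) = 0 := by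
      have h5 : -(2 * (Real.pi : ℂ) * Complex.I / k) * k = m * (2 * Real.pi * Complex.I) * k := by
        rw [hm]
      have h6 : -(2 * (Real.pi : ℂ) * Complex.I / k) * k = -(2 * (Real.pi : ℂ) * Complex.I) := by
        field_simp
      rw [h6] at h5
      linear_combination -h5
    rcases mul_eq_zero.1 h3 with h | h
    · exact absurd h hpi
    · linear_combination h
  have h3 : m * (k : ℤ) = -1 := by exact_mod_cast h2
  have h4 : IsUnit (k : ℤ) := by
    rw [Int.isUnit_iff]
    rcases Int.mul_eq_neg_one_iff_eq_one_or_neg_one.1 h3 with h | h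
    · right; exact h.2
    · left; exact h.2
  rw [Int.isUnit_iff] at h4
  omega

end Mono

open Mono in
theorem monoStatement : MonoStatement := by
  intro X _ M f S hS hf z hz a ha k ζ hk h1 h2 h3 h4
  obtain ⟨c, hc⟩ := hf.2 z hz a ha (h2 h1)
  rw [hS.nhdsWithin_eq hz] at hc
  have hfz : ContinuousAt f z := hf.1.continuousAt (hS.mem_nhds hz)
  have h5 : ∀ᶠ z' in 𝓝 z, f z' ∈ ζ.source := hfz.eventually (ζ.open_source.mem_nhds h1)
  have h6 := hc.self_of_nhds
  obtain ⟨ε, hε, hball⟩ := Metric.eventually_nhds_iff_ball.1 ((hc.and h5).and (hS.mem_nhds hz))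
  apply no_root hk hε (r := fun w => ζ (f (z + w)))
  · intro w hw
    have hw' : z + w ∈ ball z ε := by
      rw [mem_ball_iff_norm, add_sub_cancel_left]
      simpa using hw
    have h7 := hball _ hw'
    apply ContinuousAt.continuousWithinAt
    have h8 : ContinuousAt f (z + w) := hf.1.continuousAt (hS.mem_nhds h7.2)
    have h9 : ContinuousAt (fun w => f (z + w)) w :=
      ContinuousAt.comp (g := f) (f := fun w => z + w) h8 (by fun_prop)
    exact ContinuousAt.comp (g := ζ) (f := fun w => f (z + w)) (ζ.continuousAt h7.1.2) h9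
  · intro w hw
    have hw' : z + w ∈ ball z ε := by
      rw [mem_ball_iff_norm, add_sub_cancel_left]
      simpa using hw
    have h7 := hball _ hw'
    have h8 := h4 _ h7.1.2
    rw [h7.1.1, h6] at h8
    linear_combination -h8

end Pool.Agent.Lib.MP_755177_an
end

section
set_option autoImplicit false

/-!
# Final assembly
-/

open Set Filter Topology Complex Metric
open scoped MatrixGroups ComplexConjugate

namespace Pool.Agent.Lib.MP_755177_an

/-- Module FINAL. -/
theorem final.{u} (hS : ShortCyl.{u}) (hT : TwoFam.{u}) : FinalStatement.{u} :=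
  fun X _ _ _ _ M hM => final_of hS hT (maxCyl areaBound)
    (existsFam cylPar cornerCount volumeHalfDisc) (pairFinite hT patchStatement) affGroup
    algFinite existsField latticeCriterion
    (transCPar (maxCyl areaBound) monoStatement cylPar) X M hM

end Pool.Agent.Lib.MP_755177_an
end
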