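import Pool.Agent.Lib.MP_755177_an.Defs

section
set_option autoImplicit false

/-!
# Translation maps: basic properties
-/

open Set Filter Topology Complex Metric
open scoped MatrixGroups

namespace Pool.Agent.Lib.MP_755177_an

/-- Induction on a preconnected set. -/
theorem preconnected_induction {α : Type*} [TopologicalSpace α] {S : Set α} (hS : IsPreconnected S)
    {P : α → Prop} (hopen : ∀ z ∈ S, P z → ∀ᶠ z' in 𝓝[S] z, P z')
    (hclosed : ∀ z ∈ S, (∃ᶠ z' in 𝓝[S] z, P z') → P z) {z : α} (hz : z ∈ S) (hP : P z) :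
    ∀ w ∈ S, P w := by
  have hps : PreconnectedSpace S := isPreconnected_iff_preconnectedSpace.mp hS
  have hcl : IsClosed {w : S | P w} := by
    rw [isClosed_iff_frequently]
    rintro w h
    refine hclosed w w.2 ?_
    rw [← map_nhds_subtype_val, Filter.frequently_map]
    exact h
  have hop : IsOpen {w : S | P w} := by
    rw [isOpen_iff_eventually]
    rintro w (h : P w)
    have h1 := hopen w w.2 h
    rwa [← map_nhds_subtype_val, Filter.eventually_map] at h1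
  have h1 : {w : S | P w} = univ := IsClopen.eq_univ ⟨hcl, hop⟩ ⟨⟨z, hz⟩, hP⟩
  intro w hw
  have h2 : (⟨w, hw⟩ : S) ∈ {w : S | P w} := by rw [h1]; trivial
  exact h2

/-- A translation surface with a finite set `Sg` of marked points containing all zeros. -/
structure MSurf (X : Type*) [TopologicalSpace X] extends TransStr X where
  Sg : Set X
  finite_Sg : Sg.Finite
  regular : ∀ p, p ∉ Sg → ∃ a ∈ atlas, ∃ ζ : OpenPartialHomeomorph X ℂ,
    p ∈ ζ.source ∧ ζ.source ⊆ a.1 ∧ ζ p = 0 ∧ ∀ x ∈ ζ.source, a.2 x = a.2 p + ζ x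

namespace MSurf

variable {X : Type*} [TopologicalSpace X] (M : MSurf X)

/-- Translation maps avoiding the marked points. -/
def IsTr (f : ℂ → X) (S : Set ℂ) : Prop := M.IsTrans f S ∧ ∀ z ∈ S, f z ∉ M.Sg

variable {M}

theorem _root_.Pool.Agent.Lib.MP_755177_an.TransStr.IsTrans.of_local {M : TransStr X}
    {f : ℂ → X} {S : Set ℂ} (hf : ContinuousOn f S)
    (h : ∀ z ∈ S, ∃ a ∈ M.atlas, f z ∈ a.1 ∧ ∃ c : ℂ, ∀ᶠ z' in 𝓝[S] z, a.2 (f z') = z' + c) :
    M.IsTrans f S := by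
  refine ⟨hf, fun z hz b hb hzb => ?_⟩
  obtain ⟨a, ha, hza, c, hc⟩ := h z hz
  obtain ⟨c', hc'⟩ := M.compat b hb a ha (f z) hzb hza
  refine ⟨c + c', ?_⟩
  have h1 : ∀ᶠ z' in 𝓝[S] z, b.2 (f z') = a.2 (f z') + c' := (hf z hz).eventually hc'
  filter_upwards [h1, hc] with z' h1 h2
  rw [h1, h2]
  ring

theorem IsTr.continuousOn {f : ℂ → X} {S : Set ℂ} (h : M.IsTr f S) : ContinuousOn f S := h.1.1

theorem IsTr.mono {f : ℂ → X} {S T : Set ℂ} (h : M.IsTr f S) (hT : T ⊆ S) : M.IsTr f T := by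
  refine ⟨⟨h.1.1.mono hT, fun z hz a ha hza => ?_⟩, fun z hz => h.2 z (hT hz)⟩
  obtain ⟨c, hc⟩ := h.1.2 z (hT hz) a ha hza
  exact ⟨c, hc.filter_mono (nhdsWithin_mono z hT)⟩

theorem IsTr.congr {f g : ℂ → X} {S : Set ℂ} (h : M.IsTr f S) (hg : EqOn g f S) : M.IsTr g S := by
  refine ⟨⟨h.1.1.congr hg, fun z hz a ha hza => ?_⟩, fun z hz => by rw [hg hz]; exact h.2 z hz⟩
  rw [hg hz] at hza
  obtain ⟨c, hc⟩ := h.1.2 z hz a ha hza
  refine ⟨c, ?_⟩
  filter_upwards [hc, self_mem_nhdsWithin] with z' h1 h2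
  rw [hg h2, h1]

/-- A function which near every point of `S` agrees on `S` with a translation map on a set which is
a neighbourhood within `S` is a translation map. -/
theorem IsTr.of_locally {f : ℂ → X} {S : Set ℂ}
    (h : ∀ z ∈ S, ∃ (g : ℂ → X) (T : Set ℂ), z ∈ T ∧ T ∈ 𝓝[S] z ∧ M.IsTr g T ∧ EqOn f g T) :
    M.IsTr f S := by
  refine ⟨⟨fun z hz => ?_, fun z hz a ha hza => ?_⟩, fun z hz => ?_⟩
  · obtain ⟨g, T, hzT, hT, hg, he⟩ := h z hz
    have h1 : ContinuousWithinAt f T z := (hg.1.1.congr he) z hzT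
    exact h1.mono_of_mem_nhdsWithin hT
  · obtain ⟨g, T, hzT, hT, hg, he⟩ := h z hz
    have h1 := (hg.congr he).1.2 z hzT a ha hza
    obtain ⟨c, hc⟩ := h1
    refine ⟨c, ?_⟩
    have : 𝓝[S] z ≤ 𝓝[T] z := nhdsWithin_le_of_mem hT
    exact hc.filter_mono this
  · obtain ⟨g, T, hzT, hT, hg, he⟩ := h z hz
    rw [he hzT]
    exact hg.2 z hzT

theorem IsTr.comp_add {f : ℂ → X} {S : Set ℂ} (h : M.IsTr f S) (v : ℂ) :
    M.IsTr (fun z => f (z + v)) {z | z + v ∈ S} := by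
  have hc : ContinuousOn (fun z => z + v) {z | z + v ∈ S} := by fun_prop
  have hm : MapsTo (fun z => z + v) {z | z + v ∈ S} S := fun z hz => hz
  refine ⟨⟨h.1.1.comp hc hm, fun z hz a ha hza => ?_⟩, fun z hz => h.2 _ hz⟩
  obtain ⟨c, hc'⟩ := h.1.2 (z + v) hz a ha hza
  refine ⟨v + c, ?_⟩
  have h1 : Tendsto (fun z => z + v) (𝓝[{z | z + v ∈ S}] z) (𝓝[S] (z + v)) :=
    (hc z hz).tendsto_nhdsWithin hm
  filter_upwards [h1.eventually hc'] with z' h2
  rw [h2]
  ring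

theorem isTr_singleton {f : ℂ → X} {z : ℂ} (h : f z ∉ M.Sg) : M.IsTr f {z} := by
  refine ⟨⟨continuousOn_singleton _ _, fun w hw a ha hwa => ?_⟩, fun w hw => ?_⟩
  · refine ⟨a.2 (f z) - z, ?_⟩
    rw [mem_singleton_iff] at hw
    subst hw
    rw [nhdsWithin_singleton]
    simp
  · rw [mem_singleton_iff] at hw
    subst hw
    exact h

section T2

variable [T2Space X]

omit [T2Space X] in
/-- Local uniqueness. -/
theorem IsTr.eventuallyEq {f g : ℂ → X} {S : Set ℂ} (hf : M.IsTr f S) (hg : M.IsTr g S) {z : ℂ}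
    (hz : z ∈ S) (he : f z = g z) : ∀ᶠ z' in 𝓝[S] z, f z' = g z' := by
  obtain ⟨a, ha, ζ, hp, hs, h0, hζ⟩ := M.regular (f z) (hf.2 z hz)
  obtain ⟨c, hc⟩ := hf.1.2 z hz a ha (hs hp)
  obtain ⟨c', hc'⟩ := hg.1.2 z hz a ha (he ▸ hs hp)
  have h1 : ∀ᶠ z' in 𝓝[S] z, f z' ∈ ζ.source :=
    (hf.1.1 z hz).eventually (ζ.open_source.mem_nhds hp)
  have h2 : ∀ᶠ z' in 𝓝[S] z, g z' ∈ ζ.source :=
    (hg.1.1 z hz).eventually (ζ.open_source.mem_nhds (he ▸ hp))
  have h3 := hc.self_of_nhdsWithin hz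
  have h4 := hc'.self_of_nhdsWithin hz
  have hcc : c = c' := by
    rw [he, h4] at h3
    exact (add_left_cancel h3).symm
  filter_upwards [hc, hc', h1, h2] with z' e1 e2 e3 e4
  apply ζ.injOn e3 e4
  have e5 := hζ _ e3
  have e6 := hζ _ e4
  rw [e1] at e5
  rw [e2, ← hcc, e5] at e6
  exact add_left_cancel e6

/-- Uniqueness of translation maps on preconnected sets. -/
theorem IsTr.eqOn {f g : ℂ → X} {S : Set ℂ} (hf : M.IsTr f S) (hg : M.IsTr g S)
    (hS : IsPreconnected S) {z : ℂ} (hz : z ∈ S) (he : f z = g z) : EqOn f g S := by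
  intro w hw
  refine preconnected_induction hS (P := fun w => f w = g w) (fun w hw h => ?_) (fun w hw h => ?_)
    hz he w hw
  · exact hf.eventuallyEq hg hw h
  · by_contra hne
    obtain ⟨U, V, hU, hV, hfU, hgV, hd⟩ := t2_separation hne
    have h1 : ∀ᶠ z' in 𝓝[S] w, f z' ∈ U := (hf.1.1 w hw).eventually (hU.mem_nhds hfU)
    have h2 : ∀ᶠ z' in 𝓝[S] w, g z' ∈ V := (hg.1.1 w hw).eventually (hV.mem_nhds hgV)
    obtain ⟨z', h3, h4, h5⟩ := (h.and_eventually (h1.and h2)).exists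
    rw [h3] at h4
    exact disjoint_left.mp hd h4 h5

theorem exists_regChart {p : X} (hp : p ∉ M.Sg) : ∃ a ∈ M.atlas, ∃ ζ : OpenPartialHomeomorph X ℂ,
    ∃ r > 0, p ∈ ζ.source ∧ ζ.source ⊆ a.1 ∧ ζ p = 0 ∧ (∀ x ∈ ζ.source, a.2 x = a.2 p + ζ x) ∧
      ball 0 r ⊆ ζ.target ∧ ∀ x ∈ ζ.source, x ∉ M.Sg := by
  obtain ⟨a, ha, ζ, h1, h2, h3, h4⟩ := M.regular p hp
  have ho : IsOpen (M.Sgᶜ) := M.finite_Sg.isClosed.isOpen_compl
  have hps : p ∈ (ζ.restrOpen _ ho).source := by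
    rw [OpenPartialHomeomorph.restrOpen_source]
    exact ⟨h1, hp⟩
  have h5 : (0 : ℂ) ∈ (ζ.restrOpen _ ho).target := by
    have h6 := (ζ.restrOpen _ ho).map_source hps
    have h7 : (ζ.restrOpen _ ho) p = 0 := h3
    rwa [h7] at h6
  obtain ⟨r, hr, hrt⟩ := Metric.isOpen_iff.mp (ζ.restrOpen _ ho).open_target 0 h5
  refine ⟨a, ha, ζ.restrOpen _ ho, r, hr, hps, ?_, ?_, ?_, hrt, ?_⟩
  · rw [OpenPartialHomeomorph.restrOpen_source]
    exact inter_subset_left.trans h2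
  · exact h3
  · intro x hx
    rw [OpenPartialHomeomorph.restrOpen_source] at hx
    exact h4 x hx.1
  · intro x hx
    rw [OpenPartialHomeomorph.restrOpen_source] at hx
    exact hx.2

omit [T2Space X] in
/-- The inverse of a simple chart is a translation map. -/
theorem isTr_symm {a : Set X × (X → ℂ)} (ha : a ∈ M.atlas) {ζ : OpenPartialHomeomorph X ℂ} {w : ℂ}
    (h1 : ζ.source ⊆ a.1) (h2 : ∀ x ∈ ζ.source, a.2 x = w + ζ x)
    (h3 : ∀ x ∈ ζ.source, x ∉ M.Sg) {z0 : ℂ} :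
    M.IsTr (fun z => ζ.symm (z - z0)) {z | z - z0 ∈ ζ.target} := by
  have hm : MapsTo (fun z => z - z0) {z | z - z0 ∈ ζ.target} ζ.target := fun z hz => hz
  refine ⟨TransStr.IsTrans.of_local ?_ fun z hz => ?_, fun z hz => h3 _ (ζ.map_target hz)⟩
  · exact ζ.continuousOn_symm.comp (by fun_prop) hm
  · refine ⟨a, ha, h1 (ζ.map_target hz), w - z0, ?_⟩
    filter_upwards [self_mem_nhdsWithin] with z' hz'
    rw [h2 _ (ζ.map_target hz'), ζ.right_inv hz']
    ring

theorem exists_local {p : X} (hp : p ∉ M.Sg) (z0 : ℂ) :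
    ∃ r > 0, ∃ g : ℂ → X, M.IsTr g (ball z0 r) ∧ g z0 = p := by
  obtain ⟨a, ha, ζ, r, hr, h1, h2, h3, h4, h5, h6⟩ := exists_regChart hp
  refine ⟨r, hr, fun z => ζ.symm (z - z0), (isTr_symm ha h2 h4 h6).mono fun z hz => h5 ?_, ?_⟩
  · rwa [mem_ball_zero_iff, ← mem_ball_iff_norm]
  · show ζ.symm (z0 - z0) = p
    rw [sub_self, ← h3]
    exact ζ.left_inv h1

end T2

/-- Cone charts. -/
structure Cone (M : MSurf X) (p : X) where
  a : Set X × (X → ℂ)
  ha : a ∈ M.atlas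
  k : ℕ
  hk : 0 < k
  ζ : OpenPartialHomeomorph X ℂ
  mem : p ∈ ζ.source
  sub : ζ.source ⊆ a.1
  zero : ζ p = 0
  form : ∀ x ∈ ζ.source, a.2 x = a.2 p + ζ x ^ k
  r : ℝ
  hr : 0 < r
  tgt : ∀ y : ℂ, ‖y‖ ^ k ≤ 2 * r → y ∈ ζ.target
  hSg : ∀ x ∈ ζ.source, x ∈ M.Sg → x = p

theorem exists_cone [T2Space X] (p : X) : Nonempty (M.Cone p) := by
  obtain ⟨a, ha, k, ζ, hk, h1, h2, h3, h4⟩ := M.normal_form p
  have ho : IsOpen ((M.Sg \ {p})ᶜ) := (M.finite_Sg.subset sdiff_subset).isClosed.isOpen_compl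
  have hps : p ∈ (ζ.restrOpen _ ho).source := by
    rw [OpenPartialHomeomorph.restrOpen_source]
    exact ⟨h1, fun h => h.2 rfl⟩
  have h5 : (0 : ℂ) ∈ (ζ.restrOpen _ ho).target := by
    have h6 := (ζ.restrOpen _ ho).map_source hps
    have h7 : (ζ.restrOpen _ ho) p = 0 := h3
    rwa [h7] at h6
  obtain ⟨s, hs, hst⟩ := Metric.isOpen_iff.mp (ζ.restrOpen _ ho).open_target 0 h5
  refine ⟨⟨a, ha, k, hk, ζ.restrOpen _ ho, hps, ?_, ?_, ?_, s ^ k / 4, by positivity, ?_, ?_⟩⟩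
  · rw [OpenPartialHomeomorph.restrOpen_source]
    exact inter_subset_left.trans h2
  · exact h3
  · intro x hx
    rw [OpenPartialHomeomorph.restrOpen_source] at hx
    exact h4 x hx.1
  · intro y hy
    apply hst
    rw [mem_ball_zero_iff]
    have h6 : ‖y‖ ^ k < s ^ k := by
      have : 0 < s ^ k := by positivity
      linarith
    exact lt_of_pow_lt_pow_left₀ k hs.le h6
  · intro x hx hxS
    rw [OpenPartialHomeomorph.restrOpen_source] at hx
    by_contra hne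
    exact hx.2 ⟨hxS, hne⟩

/-- A translation map which starts deep inside a cone chart stays inside. -/
theorem Cone.stay [T2Space X] {p : X} (C : M.Cone p) {f : ℂ → X} {S : Set ℂ} (hf : M.IsTrans f S)
    (hS : IsPreconnected S) {z1 : ℂ} (hz1 : z1 ∈ S) (h1 : f z1 ∈ C.ζ.source)
    (h : ∀ z ∈ S, ‖z - z1‖ + ‖C.ζ (f z1)‖ ^ C.k ≤ 2 * C.r) :
    ∀ z ∈ S, f z ∈ C.ζ.source ∧ C.ζ (f z) ^ C.k = z - z1 + C.ζ (f z1) ^ C.k := by
  have hK : IsCompact (C.ζ.symm '' {y : ℂ | ‖y‖ ^ C.k ≤ 2 * C.r}) := by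
    have hc : IsCompact {y : ℂ | ‖y‖ ^ C.k ≤ 2 * C.r} := by
      refine Metric.isCompact_of_isClosed_isBounded (isClosed_le (by fun_prop) (by fun_prop)) ?_
      rw [isBounded_iff_forall_norm_le]
      refine ⟨max 1 (2 * C.r), fun y hy => ?_⟩
      rcases le_or_gt ‖y‖ 1 with h5 | h5
      · exact le_max_of_le_left h5
      · refine le_max_of_le_right ((le_self_pow₀ h5.le C.hk.ne').trans hy)
    exact hc.image_of_continuousOn (C.ζ.continuousOn_symm.mono fun y hy => C.tgt y hy)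
  refine preconnected_induction hS (fun z hz hP => ?_) (fun z hz hP => ?_) hz1 ⟨h1, by ring⟩
  · obtain ⟨hs, hk⟩ := hP
    obtain ⟨c, hc⟩ := hf.2 z hz C.a C.ha (C.sub hs)
    have h3 : ∀ᶠ z' in 𝓝[S] z, f z' ∈ C.ζ.source :=
      (hf.1 z hz).eventually (C.ζ.open_source.mem_nhds hs)
    have h4 := hc.self_of_nhdsWithin hz
    rw [C.form _ hs] at h4
    filter_upwards [hc, h3] with z' h5 h6
    refine ⟨h6, ?_⟩
    rw [C.form _ h6] at h5
    linear_combination h5 - h4 + hk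
  · have h2 : f z ∈ C.ζ.symm '' {y : ℂ | ‖y‖ ^ C.k ≤ 2 * C.r} := by
      have hcl := hK.isClosed
      by_contra hne
      have h3 : ∀ᶠ z' in 𝓝[S] z, f z' ∈ (C.ζ.symm '' {y : ℂ | ‖y‖ ^ C.k ≤ 2 * C.r})ᶜ :=
        (hf.1 z hz).eventually (hcl.isOpen_compl.mem_nhds hne)
      obtain ⟨z', ⟨h4, h5⟩, h6, h7⟩ := (hP.and_eventually (h3.and self_mem_nhdsWithin)).exists
      apply h6
      refine ⟨C.ζ (f z'), ?_, C.ζ.left_inv h4⟩
      have h8 : ‖C.ζ (f z')‖ ^ C.k = ‖z' - z1 + C.ζ (f z1) ^ C.k‖ := by rw [← norm_pow, h5]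
      show ‖C.ζ (f z')‖ ^ C.k ≤ 2 * C.r
      rw [h8]
      refine (norm_add_le _ _).trans ?_
      rw [norm_pow]
      exact h z' h7
    obtain ⟨y, hy, hyf⟩ := h2
    have hs : f z ∈ C.ζ.source := by
      rw [← hyf]
      exact C.ζ.map_target (C.tgt y hy)
    refine ⟨hs, ?_⟩
    have hcont : Tendsto (fun z' => C.ζ (f z') ^ C.k - (z' - z1 + C.ζ (f z1) ^ C.k)) (𝓝[S] z)
        (𝓝 (C.ζ (f z) ^ C.k - (z - z1 + C.ζ (f z1) ^ C.k))) := by
      have e1 : Tendsto (fun z' => C.ζ (f z')) (𝓝[S] z) (𝓝 (C.ζ (f z))) :=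
        (C.ζ.continuousAt hs).tendsto.comp (hf.1 z hz)
      have e2 : Tendsto (fun z' : ℂ => z') (𝓝[S] z) (𝓝 z) := nhdsWithin_le_nhds
      exact (e1.pow _).sub ((e2.sub_const _).add_const _)
    by_contra hne
    have h3 : C.ζ (f z) ^ C.k - (z - z1 + C.ζ (f z1) ^ C.k) ≠ 0 := sub_ne_zero.mpr hne
    obtain ⟨z', h4, h5⟩ := (hP.and_eventually (hcont.eventually (isOpen_ne.mem_nhds h3))).exists
    exact h5 (sub_eq_zero.mpr h4.2)

/-- A translation map with a limit at a point `z` of the closure of its convex domain: normal form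
near `z`. -/
theorem Cone.of_tendsto [T2Space X] {p : X} (C : M.Cone p) {f : ℂ → X} {S : Set ℂ}
    (hf : M.IsTrans f S) (hS : Convex ℝ S) {z : ℂ} (hz : z ∈ closure S)
    (hl : Tendsto f (𝓝[S] z) (𝓝 p)) {y : ℂ} (hy : y ∈ S) (hyr : ‖y - z‖ < C.r) :
    f y ∈ C.ζ.source ∧ C.ζ (f y) ^ C.k = y - z := by
  have hne : (𝓝[S] z).NeBot := mem_closure_iff_nhdsWithin_neBot.mp hz
  have h1 : ∀ᶠ z1 in 𝓝[S] z, f z1 ∈ C.ζ.source :=
    hl.eventually (C.ζ.open_source.mem_nhds C.mem)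
  have h2 : Tendsto (fun z1 => C.ζ (f z1) ^ C.k) (𝓝[S] z) (𝓝 0) := by
    have := ((C.ζ.continuousAt C.mem).tendsto.comp hl).pow C.k
    rw [C.zero, zero_pow C.hk.ne'] at this
    exact this
  have h3 : ∀ᶠ z1 in 𝓝[S] z, ‖C.ζ (f z1) ^ C.k‖ < C.r / 4 := by
    have := h2.norm
    rw [norm_zero] at this
    exact this.eventually (gt_mem_nhds (by have := C.hr; positivity))
  have h4 : ∀ᶠ z1 in 𝓝[S] z, ‖z1 - z‖ < C.r / 4 := by
    have : ball z (C.r / 4) ∈ 𝓝 z := ball_mem_nhds _ (by have := C.hr; positivity)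
    filter_upwards [mem_nhdsWithin_of_mem_nhds this] with z1 h
    exact mem_ball_iff_norm.mp h
  have key : ∀ᶠ z1 in 𝓝[S] z, f y ∈ C.ζ.source ∧
      C.ζ (f y) ^ C.k = y - z1 + C.ζ (f z1) ^ C.k := by
    filter_upwards [h1, h3, h4, self_mem_nhdsWithin] with z1 e1 e3 e4 e5
    have hT : Convex ℝ (S ∩ ball z C.r) := hS.inter (convex_ball _ _)
    have hr := C.hr
    have hz1 : z1 ∈ S ∩ ball z C.r := ⟨e5, by rw [mem_ball_iff_norm]; linarith⟩
    refine C.stay (S := S ∩ ball z C.r) ⟨hf.1.mono inter_subset_left, fun w hw a ha hwa => ?_⟩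
      hT.isPreconnected hz1 e1 (fun w hw => ?_) y ⟨hy, mem_ball_iff_norm.mpr hyr⟩
    · obtain ⟨c, hc⟩ := hf.2 w hw.1 a ha hwa
      exact ⟨c, hc.filter_mono (nhdsWithin_mono w inter_subset_left)⟩
    · have h5 : ‖w - z‖ < C.r := mem_ball_iff_norm.mp hw.2
      have h6 : ‖w - z1‖ ≤ ‖w - z‖ + ‖z1 - z‖ := by
        have := norm_sub_le (w - z) (z1 - z)
        rwa [sub_sub_sub_cancel_right] at this
      rw [← norm_pow]
      linarith
  refine ⟨key.exists.choose_spec.1, ?_⟩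
  have h5 : Tendsto (fun z1 => y - z1 + C.ζ (f z1) ^ C.k) (𝓝[S] z) (𝓝 (y - z + 0)) := by
    have e2 : Tendsto (fun z' : ℂ => z') (𝓝[S] z) (𝓝 z) := nhdsWithin_le_nhds
    exact (tendsto_const_nhds.sub e2).add h2
  rw [add_zero] at h5
  refine tendsto_nhds_unique (tendsto_const_nhds.congr' ?_) h5
  filter_upwards [key] with z1 h
  exact h.2

end MSurf

end Pool.Agent.Lib.MP_755177_an
end

section
set_option autoImplicit false

/-!
# Limits of translation maps, tubes, and the exponential map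
-/

open Set Filter Topology Complex Metric
open scoped MatrixGroups

namespace Pool.Agent.Lib.MP_755177_an

namespace MSurf

variable {X : Type*} [TopologicalSpace X] {M : MSurf X}

theorem _root_.Pool.Agent.Lib.MP_755177_an.TransStr.IsTrans.mono {M : TransStr X} {f : ℂ → X}
    {S T : Set ℂ} (h : M.IsTrans f S) (hT : T ⊆ S) : M.IsTrans f T := by
  refine ⟨h.1.mono hT, fun z hz a ha hza => ?_⟩
  obtain ⟨c, hc⟩ := h.2 z (hT hz) a ha hza
  exact ⟨c, hc.filter_mono (nhdsWithin_mono z hT)⟩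

/-- A translation map on a convex set has limits at all points of the closure. -/
theorem exists_lim [CompactSpace X] [T2Space X] {f : ℂ → X} {S : Set ℂ} (hf : M.IsTrans f S)
    (hS : Convex ℝ S) {z : ℂ} (hz : z ∈ closure S) : ∃ q, Tendsto f (𝓝[S] z) (𝓝 q) := by
  have hne : (𝓝[S] z).NeBot := mem_closure_iff_nhdsWithin_neBot.mp hz
  obtain ⟨q, hq⟩ := exists_clusterPt_of_compactSpace (map f (𝓝[S] z))
  refine ⟨q, ?_⟩
  obtain ⟨C⟩ := exists_cone (M := M) q
  have hr := C.hr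
  have key : ∀ ε : ℝ, 0 < ε → ε < C.r →
      ∀ᶠ y in 𝓝[S] z, f y ∈ C.ζ.source ∧ ‖C.ζ (f y)‖ ^ C.k < ε := by
    intro ε hε hεr
    have h1 : ∀ᶠ x in 𝓝 q, x ∈ C.ζ.source ∧ ‖C.ζ x‖ ^ C.k < ε / 4 := by
      have h2 : Tendsto (fun x => ‖C.ζ x‖ ^ C.k) (𝓝 q) (𝓝 0) := by
        have h3 := ((C.ζ.continuousAt C.mem).tendsto.norm).pow C.k
        rw [C.zero, norm_zero, zero_pow C.hk.ne'] at h3
        exact h3
      have h4 : ∀ᶠ x in 𝓝 q, x ∈ C.ζ.source := C.ζ.open_source.mem_nhds C.mem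
      exact h4.and (h2.eventually (gt_mem_nhds (by positivity : (0 : ℝ) < ε / 4)))
    have h2 : ∃ᶠ y in 𝓝[S] z, f y ∈ C.ζ.source ∧ ‖C.ζ (f y)‖ ^ C.k < ε / 4 := by
      have := hq.frequently h1
      rwa [Filter.frequently_map] at this
    have h3 : ∀ᶠ y in 𝓝[S] z, y ∈ S ∩ ball z (ε / 4) := by
      have : ball z (ε / 4) ∈ 𝓝 z := ball_mem_nhds _ (by positivity)
      exact Filter.inter_mem self_mem_nhdsWithin (mem_nhdsWithin_of_mem_nhds this)
    obtain ⟨z1, ⟨e1, e2⟩, e3⟩ := (h2.and_eventually h3).exists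
    have hT : Convex ℝ (S ∩ ball z (ε / 4)) := hS.inter (convex_ball _ _)
    filter_upwards [h3] with y hy
    have hd : ∀ w ∈ S ∩ ball z (ε / 4), ‖w - z1‖ < ε / 2 := by
      intro w hw
      have h5 : ‖w - z‖ < ε / 4 := mem_ball_iff_norm.mp hw.2
      have h7 : ‖z1 - z‖ < ε / 4 := mem_ball_iff_norm.mp e3.2
      have h6 : ‖w - z1‖ ≤ ‖w - z‖ + ‖z1 - z‖ := by
        have := norm_sub_le (w - z) (z1 - z)
        rwa [sub_sub_sub_cancel_right] at this
      linarith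
    have := C.stay (S := S ∩ ball z (ε / 4)) (hf.mono inter_subset_left) hT.isPreconnected e3 e1
      (fun w hw => by have := hd w hw; linarith) y hy
    refine ⟨this.1, ?_⟩
    rw [← norm_pow, this.2]
    refine (norm_add_le _ _).trans_lt ?_
    rw [norm_pow]
    have := hd y hy
    linarith
  have h1 : Tendsto (fun y => C.ζ (f y)) (𝓝[S] z) (𝓝 0) := by
    rw [tendsto_zero_iff_norm_tendsto_zero]
    rw [Metric.tendsto_nhds]
    intro ε hε
    have hm : 0 < min (ε ^ C.k) (C.r / 2) := by positivity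
    filter_upwards [key (min (ε ^ C.k) (C.r / 2)) hm
      ((min_le_right _ _).trans_lt (by linarith))] with y hy
    rw [dist_zero_right, norm_norm]
    exact lt_of_pow_lt_pow_left₀ C.k hε.le (hy.2.trans_le (min_le_left _ _))
  have h2 : ∀ᶠ y in 𝓝[S] z, f y ∈ C.ζ.source := by
    filter_upwards [key (C.r / 2) (by positivity) (by linarith)] with y hy
    exact hy.1
  have h0 : (0 : ℂ) ∈ C.ζ.target := C.zero ▸ C.ζ.map_source C.mem
  have h3 : Tendsto (fun y => C.ζ.symm (C.ζ (f y))) (𝓝[S] z) (𝓝 (C.ζ.symm 0)) :=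
    (C.ζ.continuousAt_symm h0).tendsto.comp h1
  have h4 : C.ζ.symm 0 = q := by rw [← C.zero]; exact C.ζ.left_inv C.mem
  rw [h4] at h3
  refine h3.congr' ?_
  filter_upwards [h2] with y hy
  exact C.ζ.left_inv hy

/-- A simple cone at a regular point. -/
theorem exists_cone_reg [T2Space X] {p : X} (hp : p ∉ M.Sg) :
    ∃ C : M.Cone p, C.k = 1 ∧ ∀ x ∈ C.ζ.source, x ∉ M.Sg := by
  obtain ⟨a, ha, ζ, r, hr, h1, h2, h3, h4, h5, h6⟩ := exists_regChart hp
  refine ⟨⟨a, ha, 1, one_pos, ζ, h1, h2, h3, fun x hx => by rw [pow_one]; exact h4 x hx, r / 4,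
    by positivity, fun y hy => h5 ?_, fun x hx hxS => absurd hxS (h6 x hx)⟩, rfl, h6⟩
  rw [mem_ball_zero_iff]
  rw [pow_one] at hy
  linarith

/-- Extension of a translation map through a regular limit point. -/
theorem exists_extend [T2Space X] {f : ℂ → X} {S : Set ℂ} (hf : M.IsTrans f S)
    (hS : Convex ℝ S) {z : ℂ} (hz : z ∈ closure S) {p : X} (hp : p ∉ M.Sg)
    (hl : Tendsto f (𝓝[S] z) (𝓝 p)) :
    ∃ r > 0, ∃ g : ℂ → X, M.IsTr g (ball z r) ∧ g z = p ∧ EqOn f g (S ∩ ball z r) := by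
  obtain ⟨C, hk, hC⟩ := exists_cone_reg (M := M) hp
  have h0 : ∀ x ∈ C.ζ.source, C.a.2 x = C.a.2 p + C.ζ x := by
    intro x hx
    have := C.form x hx
    rwa [hk, pow_one] at this
  refine ⟨C.r, C.hr, fun y => C.ζ.symm (y - z), ?_, ?_, ?_⟩
  · refine (isTr_symm C.ha C.sub h0 hC).mono fun y hy => C.tgt _ ?_
    rw [hk, pow_one, ← mem_closedBall_iff_norm]
    exact closedBall_subset_closedBall (by have := C.hr; linarith) (ball_subset_closedBall hy)
  · show C.ζ.symm (z - z) = p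
    rw [sub_self, ← C.zero]
    exact C.ζ.left_inv C.mem
  · intro y hy
    have h1 := C.of_tendsto hf hS hz hl hy.1 (mem_ball_iff_norm.mp hy.2)
    show f y = C.ζ.symm (y - z)
    rw [hk, pow_one] at h1
    rw [← h1.2]
    exact (C.ζ.left_inv h1.1).symm

/-- Tubes: a translation map on a compact convex set extends to a neighbourhood. -/
theorem exists_tube [T2Space X] {f : ℂ → X} {K : Set ℂ} (hf : M.IsTr f K)
    (hK : IsCompact K) (hc : Convex ℝ K) :
    ∃ δ > 0, ∃ g : ℂ → X, M.IsTr g (thickening δ K) ∧ EqOn g f K := by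
  have h1 : ∀ z ∈ K, ∃ r > 0, ∃ g : ℂ → X, M.IsTr g (ball z r) ∧ EqOn f g (K ∩ ball z r) := by
    intro z hz
    obtain ⟨r, hr, g, h1, h2, h3⟩ := exists_extend hf.1 hc (subset_closure hz) (hf.2 z hz)
      (hf.1.1 z hz)
    exact ⟨r, hr, g, h1, h3⟩
  have : Nonempty X := ⟨f 0⟩
  choose! r hr g hg he using h1
  obtain ⟨δ, hδ, hL⟩ := lebesgue_number_lemma_of_metric (s := K) (c := fun z : K => ball (z : ℂ) (r z))
    hK (fun _ => isOpen_ball) (fun z hz => mem_iUnion.mpr ⟨⟨z, hz⟩, mem_ball_self (hr z hz)⟩)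
  have hL' : ∀ x ∈ K, ∃ i : ℂ, i ∈ K ∧ ball x δ ⊆ ball i (r i) := fun x hx => by
    obtain ⟨i, hi⟩ := hL x hx
    exact ⟨i, i.2, hi⟩
  choose! i hiK hi using hL'
  -- the local pieces
  have hG : ∀ x ∈ K, M.IsTr (g (i x)) (ball x δ) := fun x hx => (hg _ (hiK x hx)).mono (hi x hx)
  have hE : ∀ x ∈ K, EqOn f (g (i x)) (K ∩ ball x δ) := fun x hx y hy =>
    he _ (hiK x hx) ⟨hy.1, hi x hx hy.2⟩
  have hcomp : ∀ x ∈ K, ∀ y ∈ K, EqOn (g (i x)) (g (i y)) (ball x δ ∩ ball y δ) := by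
    intro x hx y hy z hz
    have hxy : dist x y < 2 * δ := by
      have h2 := dist_triangle_left x y z
      have h3 := mem_ball.mp hz.1
      have h4 := mem_ball.mp hz.2
      linarith
    have hm : midpoint ℝ x y ∈ K := by
      apply hc.segment_subset hx hy
      exact midpoint_mem_segment x y
    have hm1 : midpoint ℝ x y ∈ ball x δ := by
      rw [mem_ball, dist_midpoint_left]
      norm_num
      linarith
    have hm2 : midpoint ℝ x y ∈ ball y δ := by
      rw [mem_ball, dist_midpoint_right]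
      norm_num
      linarith
    have h2 := ((hG x hx).mono inter_subset_left).eqOn ((hG y hy).mono inter_subset_right)
      ((convex_ball x δ).inter (convex_ball y δ)).isPreconnected (z := midpoint ℝ x y) ⟨hm1, hm2⟩
      (by rw [← hE x hx ⟨hm, hm1⟩, ← hE y hy ⟨hm, hm2⟩])
    exact h2 hz
  have hT : ∀ z ∈ thickening δ K, ∃ x ∈ K, z ∈ ball x δ := by
    intro z hz
    rw [mem_thickening_iff] at hz
    exact hz
  choose! c hcK hcb using hT
  refine ⟨δ, hδ, fun z => g (i (c z)) z, ?_, ?_⟩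
  · refine IsTr.of_locally fun z hz => ⟨g (i (c z)), ball (c z) δ, hcb z hz, ?_, hG _ (hcK z hz), ?_⟩
    · exact mem_nhdsWithin_of_mem_nhds (isOpen_ball.mem_nhds (hcb z hz))
    · intro y hy
      have hy' : y ∈ thickening δ K := mem_thickening_iff.mpr ⟨c z, hcK z hz, hy⟩
      exact hcomp _ (hcK y hy') _ (hcK z hz) ⟨hcb y hy', hy⟩
  · intro z hz
    have hz' : z ∈ thickening δ K := self_subset_thickening hδ K hz
    exact (hE _ (hcK z hz') ⟨hz, hcb z hz'⟩).symm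

/-- Gluing two translation maps. -/
theorem IsTr.glue {f g : ℂ → X} {S T : Set ℂ} (hf : M.IsTr f S) (hg : M.IsTr g T)
    (he : EqOn f g (S ∩ T)) (hS : ∀ z ∈ S, S ∈ 𝓝[S ∪ T] z) (hT : ∀ z ∈ T, T ∈ 𝓝[S ∪ T] z) :
    ∃ h : ℂ → X, M.IsTr h (S ∪ T) ∧ EqOn h f S ∧ EqOn h g T := by
  classical
  have h1 : EqOn (S.piecewise f g) f S := fun z hz => piecewise_eq_of_mem _ _ _ hz
  have h2 : EqOn (S.piecewise f g) g T := by
    intro z hz
    by_cases hzS : z ∈ S
    · rw [piecewise_eq_of_mem _ _ _ hzS]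
      exact he ⟨hzS, hz⟩
    · exact piecewise_eq_of_notMem _ _ _ hzS
  refine ⟨S.piecewise f g, IsTr.of_locally fun z hz => ?_, h1, h2⟩
  rcases hz with hz | hz
  · exact ⟨f, S, hz, hS z hz, hf, h1⟩
  · exact ⟨g, T, hz, hT z hz, hg, h2⟩

variable (M) in
/-- The vectors `v` such that the straight segment of vector `v` starting at `p` avoids the marked
points. -/
def Dom (p : X) : Set ℂ := {v | ∃ f : ℂ → X, M.IsTr f (segment ℝ 0 v) ∧ f 0 = p}

open Classical in
variable (M) in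
/-- The exponential map. -/
noncomputable def exp (p : X) (v : ℂ) : X :=
  if h : ∃ f : ℂ → X, M.IsTr f (segment ℝ 0 v) ∧ f 0 = p then h.choose v else p

theorem exp_eq [T2Space X] {p : X} {v : ℂ} {f : ℂ → X} (hf : M.IsTr f (segment ℝ 0 v))
    (h0 : f 0 = p) : M.exp p v = f v := by
  have h : ∃ f : ℂ → X, M.IsTr f (segment ℝ 0 v) ∧ f 0 = p := ⟨f, hf, h0⟩
  rw [exp, dif_pos h]
  exact h.choose_spec.1.eqOn hf (convex_segment 0 v).isPreconnected (left_mem_segment ℝ 0 v)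
    (h.choose_spec.2.trans h0.symm) (right_mem_segment ℝ 0 v)

theorem zero_mem_Dom {p : X} (hp : p ∉ M.Sg) : (0 : ℂ) ∈ M.Dom p := by
  refine ⟨fun _ => p, ?_, rfl⟩
  rw [segment_same]
  exact isTr_singleton hp

theorem notMem_of_mem_Dom {p : X} {v : ℂ} (hv : v ∈ M.Dom p) : p ∉ M.Sg := by
  obtain ⟨f, hf, h0⟩ := hv
  rw [← h0]
  exact hf.2 0 (left_mem_segment ℝ 0 v)

theorem exp_zero [T2Space X] {p : X} (hp : p ∉ M.Sg) : M.exp p 0 = p := by
  have : M.IsTr (fun _ => p) (segment ℝ (0 : ℂ) 0) := by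
    rw [segment_same]
    exact isTr_singleton hp
  exact exp_eq this rfl

/-- The universal property of the exponential map. -/
theorem subset_Dom [T2Space X] {p : X} {f : ℂ → X} {S : Set ℂ} (hf : M.IsTr f S)
    (hS : ∀ v ∈ S, segment ℝ 0 v ⊆ S) (h0 : f 0 = p) : S ⊆ M.Dom p ∧ EqOn (M.exp p) f S :=
  ⟨fun v hv => ⟨f, hf.mono (hS v hv), h0⟩, fun v hv => exp_eq (hf.mono (hS v hv)) h0⟩

theorem segment_subset_of_mem {v w : ℂ} (hw : w ∈ segment ℝ 0 v) :
    segment ℝ 0 w ⊆ segment ℝ 0 v :=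
  (convex_segment 0 v).segment_subset (left_mem_segment ℝ 0 v) hw

theorem segment_subset_Dom [T2Space X] {p : X} {v : ℂ} (hv : v ∈ M.Dom p) :
    segment ℝ 0 v ⊆ M.Dom p := by
  obtain ⟨f, hf, h0⟩ := hv
  exact (subset_Dom hf (fun w hw => segment_subset_of_mem hw) h0).1

theorem smul_mem_segment_zero {v : ℂ} {t : ℝ} (h0 : 0 ≤ t) (h1 : t ≤ 1) :
    t • v ∈ segment ℝ 0 v := by
  refine ⟨1 - t, t, by linarith, h0, by ring, ?_⟩
  simp

theorem smul_mem_Dom [T2Space X] {p : X} {v : ℂ} (hv : v ∈ M.Dom p) {t : ℝ} (h0 : 0 ≤ t)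
    (h1 : t ≤ 1) : t • v ∈ M.Dom p :=
  segment_subset_Dom hv (smul_mem_segment_zero h0 h1)

/-- Near every point of its domain the exponential map is a translation map. -/
theorem exp_tube [T2Space X] {p : X} {v : ℂ} (hv : v ∈ M.Dom p) :
    ∃ δ > 0, thickening δ (segment ℝ 0 v) ⊆ M.Dom p ∧
      M.IsTr (M.exp p) (thickening δ (segment ℝ 0 v)) := by
  obtain ⟨f, hf, h0⟩ := hv
  have hcomp : IsCompact (segment ℝ 0 v) := by
    rw [segment_eq_image]
    exact isCompact_Icc.image (by fun_prop)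
  obtain ⟨δ, hδ, g, hg, he⟩ := exists_tube hf hcomp (convex_segment 0 v)
  have hc : Convex ℝ (thickening δ (segment ℝ 0 v)) := (convex_segment 0 v).thickening δ
  have h0' : (0 : ℂ) ∈ thickening δ (segment ℝ 0 v) :=
    self_subset_thickening hδ _ (left_mem_segment ℝ 0 v)
  have h1 := subset_Dom hg (fun w hw => hc.segment_subset h0' hw)
    ((he (left_mem_segment ℝ 0 v)).trans h0)
  exact ⟨δ, hδ, h1.1, hg.congr h1.2⟩

theorem isOpen_Dom [T2Space X] (p : X) : IsOpen (M.Dom p) := by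
  rw [isOpen_iff_mem_nhds]
  intro v hv
  obtain ⟨δ, hδ, h1, h2⟩ := exp_tube hv
  refine mem_of_superset (isOpen_thickening.mem_nhds ?_) h1
  exact self_subset_thickening hδ _ (right_mem_segment ℝ 0 v)

theorem isTr_exp [T2Space X] (p : X) : M.IsTr (M.exp p) (M.Dom p) := by
  refine IsTr.of_locally fun v hv => ?_
  obtain ⟨δ, hδ, h1, h2⟩ := exp_tube hv
  have hm : v ∈ thickening δ (segment ℝ 0 v) :=
    self_subset_thickening hδ _ (right_mem_segment ℝ 0 v)
  exact ⟨M.exp p, _, hm, mem_nhdsWithin_of_mem_nhds (isOpen_thickening.mem_nhds hm), h2,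
    fun _ _ => rfl⟩

theorem exp_notMem [T2Space X] {p : X} {v : ℂ} (hv : v ∈ M.Dom p) : M.exp p v ∉ M.Sg :=
  (isTr_exp p).2 v hv

/-- Change of base point. -/
theorem exp_exp [T2Space X] {p : X} {v : ℂ} {S : Set ℂ} (hS : S ⊆ M.Dom p)
    (hstar : ∀ z ∈ S, segment ℝ v z ⊆ S) {z : ℂ} (hz : z ∈ S) :
    z - v ∈ M.Dom (M.exp p v) ∧ M.exp (M.exp p v) (z - v) = M.exp p z := by
  have h1 : M.IsTr (fun y => M.exp p (y + v)) {y | y + v ∈ S} :=
    ((isTr_exp p).mono hS).comp_add v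
  have h2 : ∀ y ∈ {y | y + v ∈ S}, segment ℝ 0 y ⊆ {y | y + v ∈ S} := by
    intro y hy x hx
    have h3 : x + v ∈ segment ℝ v (y + v) := by
      have := (mem_segment_translate ℝ v).mpr hx
      rwa [add_zero, add_comm v x, add_comm v y] at this
    exact hstar _ hy h3
  have h3 := subset_Dom h1 h2 (p := M.exp p v) (by simp)
  have h4 : z - v ∈ {y | y + v ∈ S} := by
    show z - v + v ∈ S
    rwa [sub_add_cancel]
  refine ⟨h3.1 h4, ?_⟩
  have := h3.2 h4
  rw [this]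
  simp

variable (M) in
/-- `v` is the position of a marked point visible from `p`. -/
def Vis (p : X) (v : ℂ) : Prop := (∀ t : ℝ, 0 ≤ t → t < 1 → t • v ∈ M.Dom p) ∧ v ∉ M.Dom p

theorem Vis.ne_zero {p : X} {v : ℂ} (h : M.Vis p v) : v ≠ 0 := by
  rintro rfl
  have := h.1 0 le_rfl one_pos
  rw [smul_zero] at this
  exact h.2 this

theorem Vis.notMem {p : X} {v : ℂ} (h : M.Vis p v) : p ∉ M.Sg :=
  notMem_of_mem_Dom (h.1 0 le_rfl one_pos)

/-- First hit. -/
theorem exists_first_hit [T2Space X] {p : X} (hp : p ∉ M.Sg) {v : ℂ} (hv : v ∉ M.Dom p) :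
    ∃ t : ℝ, 0 < t ∧ t ≤ 1 ∧ M.Vis p (t • v) := by
  set B : Set ℝ := Icc 0 1 ∩ {t : ℝ | t • v ∈ (M.Dom p)ᶜ} with hB
  have hcl : IsClosed B := by
    refine isClosed_Icc.inter (IsClosed.preimage (by fun_prop) ?_)
    exact (isOpen_Dom p).isClosed_compl
  have hne : B.Nonempty := ⟨1, ⟨zero_le_one, le_rfl⟩, by
    show (1 : ℝ) • v ∈ (M.Dom p)ᶜ
    rwa [one_smul]⟩
  have hbd : BddBelow B := ⟨0, fun t ht => ht.1.1⟩
  have hmem := hcl.csInf_mem hne hbd
  set t := sInf B with ht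
  have ht0 : t ≠ 0 := by
    intro h0
    have := hmem.2
    rw [h0] at this
    simp only [mem_ofPred_eq, zero_smul] at this
    exact this (zero_mem_Dom hp)
  have htpos : 0 < t := lt_of_le_of_ne hmem.1.1 ht0.symm
  refine ⟨t, htpos, hmem.1.2, fun s hs0 hs1 => ?_, hmem.2⟩
  by_contra hne'
  have h1 : s * t ∈ B := by
    refine ⟨⟨by positivity, ?_⟩, ?_⟩
    · have := hmem.1.2
      nlinarith
    · show (s * t) • v ∈ (M.Dom p)ᶜ
      rwa [mul_smul]
  have h2 := csInf_le hbd h1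
  rw [← ht] at h2
  nlinarith

end MSurf

end Pool.Agent.Lib.MP_755177_an
end

section
set_option autoImplicit false

/-!
# Visible marked points: limits, local uniqueness, finiteness
-/

open Set Filter Topology Complex Metric
open scoped MatrixGroups

namespace Pool.Agent.Lib.MP_755177_an

namespace MSurf

variable {X : Type*} [TopologicalSpace X] {M : MSurf X}

/-- Gluing over open convex sets. -/
theorem IsTr.glue_convex [T2Space X] {f g : ℂ → X} {S T : Set ℂ} (hf : M.IsTr f S)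
    (hg : M.IsTr g T) (hSo : IsOpen S) (hTo : IsOpen T) (hS : Convex ℝ S) (hT : Convex ℝ T) {z : ℂ}
    (hzS : z ∈ S) (hzT : z ∈ T) (he : f z = g z) :
    ∃ h : ℂ → X, M.IsTr h (S ∪ T) ∧ EqOn h f S ∧ EqOn h g T := by
  refine hf.glue hg ?_ (fun w hw => mem_nhdsWithin_of_mem_nhds (hSo.mem_nhds hw))
    (fun w hw => mem_nhdsWithin_of_mem_nhds (hTo.mem_nhds hw))
  exact (hf.mono inter_subset_left).eqOn (hg.mono inter_subset_right)
    (hS.inter hT).isPreconnected ⟨hzS, hzT⟩ he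

/-- Concatenation of two straight segments. -/
theorem mem_Dom_concat [T2Space X] {p : X} {v : ℂ} {t : ℝ} (h0 : 0 ≤ t)
    (hy : t • v ∈ M.Dom p) (h : v - t • v ∈ M.Dom (M.exp p (t • v))) : v ∈ M.Dom p := by
  obtain ⟨δ1, hδ1, ha1, hb1⟩ := exp_tube hy
  obtain ⟨δ2, hδ2, ha2, hb2⟩ := exp_tube h
  have hp := notMem_of_mem_Dom hy
  have hp' := notMem_of_mem_Dom h
  have hb2' := hb2.comp_add (-(t • v))
  set U1 := thickening δ1 (segment ℝ 0 (t • v)) with hU1
  set U2 := {z : ℂ | z + -(t • v) ∈ thickening δ2 (segment ℝ 0 (v - t • v))} with hU2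
  have hc1 : Convex ℝ U1 := (convex_segment _ _).thickening _
  have hc2 : Convex ℝ U2 := by
    have := ((convex_segment (𝕜 := ℝ) 0 (v - t • v)).thickening δ2).translate_preimage_left
      (-(t • v))
    exact this
  have ho2 : IsOpen U2 := isOpen_thickening.preimage (by fun_prop)
  have hm1 : t • v ∈ U1 := self_subset_thickening hδ1 _ (right_mem_segment ℝ _ _)
  have hm2 : t • v ∈ U2 := by
    show t • v + -(t • v) ∈ thickening δ2 (segment ℝ 0 (v - t • v))
    rw [add_neg_cancel]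
    exact self_subset_thickening hδ2 _ (left_mem_segment ℝ _ _)
  obtain ⟨h, hh, he1, he2⟩ := hb1.glue_convex hb2' isOpen_thickening ho2 hc1 hc2 hm1 hm2
    (by rw [add_neg_cancel, exp_zero hp'])
  refine ⟨h, hh.mono ?_, ?_⟩
  · intro z hz
    rw [segment_eq_image] at hz
    obtain ⟨s, hs, rfl⟩ := hz
    simp only [smul_zero, zero_add]
    rcases le_or_gt s t with hst | hst
    · left
      refine self_subset_thickening hδ1 _ ?_
      rcases h0.eq_or_lt with h00 | h00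
      · have : s = 0 := le_antisymm (hst.trans h00.symm.le) hs.1
        rw [this, zero_smul]
        exact left_mem_segment ℝ _ _
      · have := smul_mem_segment_zero (v := t • v) (t := s / t) (div_nonneg hs.1 h0)
          (by rw [div_le_one h00]; exact hst)
        rwa [smul_smul, div_mul_cancel₀ _ h00.ne'] at this
    · right
      show s • v + -(t • v) ∈ thickening δ2 (segment ℝ 0 (v - t • v))
      refine self_subset_thickening hδ2 _ ?_
      have h1t : 0 < 1 - t := by linarith [hs.2]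
      have := smul_mem_segment_zero (v := v - t • v) (t := (s - t) / (1 - t))
        (div_nonneg (by linarith) h1t.le) (by rw [div_le_one h1t]; linarith [hs.2])
      have h3 : ((s - t) / (1 - t)) • (v - t • v) = s • v + -(t • v) := by
        have h4 : v - t • v = (1 - t) • v := by rw [sub_smul, one_smul]
        rw [h4, smul_smul, div_mul_cancel₀ _ h1t.ne', sub_smul, sub_eq_add_neg]
      rwa [h3] at this
  · rw [he1 (self_subset_thickening hδ1 _ (left_mem_segment ℝ _ _)), exp_zero hp]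

/-- The half-open segment. -/
theorem convex_half (v : ℂ) : Convex ℝ {z : ℂ | ∃ t : ℝ, 0 ≤ t ∧ t < 1 ∧ z = t • v} := by
  rintro x ⟨t, ht0, ht1, rfl⟩ y ⟨s, hs0, hs1, rfl⟩ a b ha hb hab
  refine ⟨a * t + b * s, by positivity, ?_, by simp [add_smul, mul_smul]⟩
  rcases ha.eq_or_lt with h | h
  · subst h
    have : b = 1 := by linarith
    subst this
    linarith
  · nlinarith

/-- The limit at a visible marked point. -/
theorem Vis.exists_lim [CompactSpace X] [T2Space X] {p : X} {v : ℂ} (h : M.Vis p v) {U : Set ℂ}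
    (hU : Convex ℝ U) (hUD : U ⊆ M.Dom p) (hsub : ∀ t : ℝ, 0 ≤ t → t < 1 → t • v ∈ U) :
    v ∈ closure U ∧ ∃ q ∈ M.Sg, Tendsto (M.exp p) (𝓝[U] v) (𝓝 q) := by
  have htend : Tendsto (fun t : ℝ => t • v) (𝓝[<] 1) (𝓝 v) := by
    have h1 : Tendsto (fun t : ℝ => t • v) (𝓝 1) (𝓝 ((1 : ℝ) • v)) := by
      apply Continuous.tendsto
      fun_prop
    rw [one_smul] at h1
    exact h1.mono_left nhdsWithin_le_nhds
  have hev : ∀ᶠ t : ℝ in 𝓝[<] 1, 0 ≤ t ∧ t < 1 := by
    filter_upwards [Ioo_mem_nhdsLT (zero_lt_one' ℝ)] with t ht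
    exact ⟨ht.1.le, ht.2⟩
  have hcl : v ∈ closure U := by
    refine mem_closure_of_tendsto htend ?_
    filter_upwards [hev] with t ht
    exact hsub t ht.1 ht.2
  refine ⟨hcl, ?_⟩
  have hf : M.IsTr (M.exp p) U := (isTr_exp p).mono hUD
  obtain ⟨q, hq⟩ := MSurf.exists_lim hf.1 hU hcl
  refine ⟨q, ?_, hq⟩
  by_contra hqS
  obtain ⟨r, hr, g, hg1, hg2, hg3⟩ := exists_extend hf.1 hU hcl hqS hq
  -- glue at a point close to v
  have hev2 : ∀ᶠ t : ℝ in 𝓝[<] 1, t • v ∈ ball v r := htend.eventually (ball_mem_nhds v hr)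
  obtain ⟨t, ⟨ht0, ht1⟩, htb⟩ := (hev.and hev2).exists
  have hD : t • v ∈ M.Dom p := h.1 t ht0 ht1
  refine h.2 (mem_Dom_concat ht0 hD ?_)
  have h3 : M.IsTr (fun z => g (z + t • v)) {z | z + t • v ∈ ball v r} := hg1.comp_add _
  refine ⟨fun z => g (z + t • v), h3.mono ?_, ?_⟩
  · intro z hz
    show z + t • v ∈ ball v r
    have h4 : z + t • v ∈ segment ℝ (t • v) v := by
      have := (mem_segment_translate ℝ (t • v)).mpr hz
      rwa [add_zero, add_sub_cancel, add_comm (t • v) z] at this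
    exact (convex_ball v r).segment_subset htb (mem_ball_self hr) h4
  · show g (0 + t • v) = _
    rw [zero_add]
    exact (hg3 ⟨hsub t ht0 ht1, htb⟩).symm

/-- The compact core of a cone chart. -/
theorem Cone.isCompact_core {p : X} (C : M.Cone p) :
    IsCompact (C.ζ.symm '' {y : ℂ | ‖y‖ ^ C.k ≤ 2 * C.r}) := by
  have hc : IsCompact {y : ℂ | ‖y‖ ^ C.k ≤ 2 * C.r} := by
    refine Metric.isCompact_of_isClosed_isBounded (isClosed_le (by fun_prop) (by fun_prop)) ?_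
    rw [isBounded_iff_forall_norm_le]
    refine ⟨max 1 (2 * C.r), fun y hy => ?_⟩
    rcases le_or_gt ‖y‖ 1 with h5 | h5
    · exact le_max_of_le_left h5
    · refine le_max_of_le_right ((le_self_pow₀ h5.le C.hk.ne').trans hy)
  exact hc.image_of_continuousOn (C.ζ.continuousOn_symm.mono fun y hy => C.tgt y hy)

theorem Cone.core_subset {p : X} (C : M.Cone p) :
    C.ζ.symm '' {y : ℂ | ‖y‖ ^ C.k ≤ 2 * C.r} ⊆ C.ζ.source := by
  rintro _ ⟨y, hy, rfl⟩
  exact C.ζ.map_target (C.tgt y hy)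

theorem Cone.mem_core {p : X} (C : M.Cone p) {x : X} (hx : x ∈ C.ζ.source)
    (h : ‖C.ζ x‖ ^ C.k ≤ 2 * C.r) : x ∈ C.ζ.symm '' {y : ℂ | ‖y‖ ^ C.k ≤ 2 * C.r} :=
  ⟨C.ζ x, h, C.ζ.left_inv hx⟩

/-- Positions of visible marked points in a cone. -/
theorem Cone.vis_eq [CompactSpace X] [T2Space X] {q : X} (C : M.Cone q) {p : X} {v : ℂ}
    (hv : M.Vis p v) (hp : p ∈ C.ζ.source) (h : ‖v‖ + ‖C.ζ p‖ ^ C.k ≤ 2 * C.r) :
    v = -C.ζ p ^ C.k := by
  set U : Set ℂ := {z : ℂ | ∃ t : ℝ, 0 ≤ t ∧ t < 1 ∧ z = t • v} with hU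
  have hpS := hv.notMem
  have hc : Convex ℝ U := convex_half v
  have hUD : U ⊆ M.Dom p := by
    rintro _ ⟨t, h0, h1, rfl⟩
    exact hv.1 t h0 h1
  obtain ⟨hcl, q', hq', hl⟩ := hv.exists_lim hc hUD (fun t h0 h1 => ⟨t, h0, h1, rfl⟩)
  have h0U : (0 : ℂ) ∈ U := ⟨0, le_rfl, one_pos, by simp⟩
  have hst : ∀ z ∈ U, M.exp p z ∈ C.ζ.source ∧ C.ζ (M.exp p z) ^ C.k = z + C.ζ p ^ C.k := by
    intro z hz
    have := C.stay ((isTr_exp p).mono hUD).1 hc.isPreconnected h0U
      (by rw [exp_zero hpS]; exact hp) (fun z hz => ?_) z hz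
    · rwa [exp_zero hpS, sub_zero] at this
    · rw [exp_zero hpS, sub_zero]
      obtain ⟨t, h0, h1, rfl⟩ := hz
      refine le_trans ?_ h
      rw [norm_smul, Real.norm_of_nonneg h0]
      nlinarith [norm_nonneg v]
  have hne : (𝓝[U] v).NeBot := mem_closure_iff_nhdsWithin_neBot.mp hcl
  have hcore : q' ∈ C.ζ.symm '' {y : ℂ | ‖y‖ ^ C.k ≤ 2 * C.r} := by
    refine C.isCompact_core.isClosed.mem_of_tendsto hl ?_
    filter_upwards [self_mem_nhdsWithin] with z hz
    refine C.mem_core (hst z hz).1 ?_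
    rw [← norm_pow, (hst z hz).2]
    refine (norm_add_le _ _).trans ?_
    rw [norm_pow]
    obtain ⟨t, h0, h1, rfl⟩ := hz
    refine le_trans ?_ h
    rw [norm_smul, Real.norm_of_nonneg h0]
    nlinarith [norm_nonneg v]
  have hsrc := C.core_subset hcore
  have hqq : q' = q := C.hSg q' hsrc hq'
  have h1 : Tendsto (fun z => C.ζ (M.exp p z) ^ C.k) (𝓝[U] v) (𝓝 0) := by
    have := ((C.ζ.continuousAt hsrc).tendsto.comp hl).pow C.k
    rw [hqq, C.zero, zero_pow C.hk.ne'] at this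
    exact this
  have h2 : Tendsto (fun z => z + C.ζ p ^ C.k) (𝓝[U] v) (𝓝 (v + C.ζ p ^ C.k)) := by
    have e2 : Tendsto (fun z' : ℂ => z') (𝓝[U] v) (𝓝 v) := nhdsWithin_le_nhds
    exact e2.add_const _
  have h3 : v + C.ζ p ^ C.k = 0 := by
    refine tendsto_nhds_unique h2 (h1.congr' ?_)
    filter_upwards [self_mem_nhdsWithin] with z hz
    exact (hst z hz).2
  exact eq_neg_of_add_eq_zero_left h3

/-- At most one marked point is visible at small distance. -/
theorem exists_unif [CompactSpace X] [T2Space X] (M : MSurf X) : ∃ r : ℝ, 0 < r ∧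
    ∀ p v w, M.Vis p v → M.Vis p w → ‖v‖ < r → ‖w‖ < r → v = w := by
  have hC : ∀ q : X, Nonempty (M.Cone q) := fun q => exists_cone q
  let C : ∀ q : X, M.Cone q := fun q => (hC q).some
  let N : X → Set X := fun q => (C q).ζ.source ∩ (C q).ζ ⁻¹' {y | ‖y‖ ^ (C q).k < (C q).r}
  have hN : ∀ q : X, N q ∈ 𝓝 q := by
    intro q
    have h1 : ContinuousOn (C q).ζ (C q).ζ.source := (C q).ζ.continuousOn
    have h2 : IsOpen (N q) := h1.isOpen_inter_preimage (C q).ζ.open_source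
      (isOpen_lt (by fun_prop) (by fun_prop))
    refine h2.mem_nhds ⟨(C q).mem, ?_⟩
    show ‖(C q).ζ q‖ ^ (C q).k < (C q).r
    rw [(C q).zero, norm_zero, zero_pow (C q).hk.ne']
    exact (C q).hr
  obtain ⟨t, ht⟩ := CompactSpace.elim_nhds_subcover N hN
  have hr : ∃ r : ℝ, 0 < r ∧ ∀ q ∈ t, r ≤ (C q).r := by
    by_cases hne : t.Nonempty
    · refine ⟨t.inf' hne fun q => (C q).r, ?_, fun q hq => Finset.inf'_le _ hq⟩
      rw [Finset.lt_inf'_iff]
      exact fun q _ => (C q).hr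
    · rw [Finset.not_nonempty_iff_eq_empty] at hne
      exact ⟨1, one_pos, by simp [hne]⟩
  obtain ⟨r, hr0, hr⟩ := hr
  refine ⟨r, hr0, fun p v w hv hw hvr hwr => ?_⟩
  have hp : p ∈ ⋃ q ∈ t, N q := by rw [ht]; trivial
  rw [mem_iUnion₂] at hp
  obtain ⟨q, hq, hpq⟩ := hp
  have h1 : ‖(C q).ζ p‖ ^ (C q).k < (C q).r := hpq.2
  have h2 := hr q hq
  rw [(C q).vis_eq hv hpq.1 (by linarith), (C q).vis_eq hw hpq.1 (by linarith)]

end MSurf

end Pool.Agent.Lib.MP_755177_an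
end

section
set_option autoImplicit false

/-!
# Finiteness of the visible marked points in bounded sets
-/

open Set Filter Topology Complex Metric
open scoped MatrixGroups

namespace Pool.Agent.Lib.MP_755177_an

namespace MSurf

variable {X : Type*} [TopologicalSpace X] {M : MSurf X}

/-- Two visible marked points on the same ray are equal. -/
theorem Vis.eq_of_smul [T2Space X] {p : X} {v w : ℂ} (hv : M.Vis p v) (hw : M.Vis p w) {c : ℝ}
    (hc : 0 < c) (h : w = c • v) : v = w := by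
  rcases lt_trichotomy c 1 with h1 | h1 | h1
  · exact absurd (h ▸ hv.1 c hc.le h1) hw.2
  · rw [h, h1, one_smul]
  · exfalso
    refine hv.2 ?_
    have h2 := hw.1 c⁻¹ (by positivity) (inv_lt_one_of_one_lt₀ h1)
    rwa [h, smul_smul, inv_mul_cancel₀ hc.ne', one_smul] at h2

/-- The same straight ray seen from an intermediate point. -/
theorem Vis.base [T2Space X] {p : X} {v : ℂ} (hv : M.Vis p v) {t : ℝ} (h0 : 0 ≤ t) (h1 : t < 1) :
    M.Vis (M.exp p (t • v)) (v - t • v) := by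
  have hS : ∀ s : ℝ, 0 ≤ s → s < 1 → s • (v - t • v) ∈ M.Dom (M.exp p (t • v)) := by
    intro s hs0 hs1
    have h3 : t + s * (1 - t) < 1 := by nlinarith
    have h4 : 0 ≤ t + s * (1 - t) := by nlinarith
    have h5 : (t + s * (1 - t)) • v ∈ M.Dom p := hv.1 _ h4 h3
    have h6 := (exp_exp (M := M) (p := p) (v := t • v)
      (S := segment ℝ (t • v) ((t + s * (1 - t)) • v)) ?_ ?_
      (right_mem_segment ℝ (t • v) ((t + s * (1 - t)) • v))).1
    · have h7 : (t + s * (1 - t)) • v - t • v = s • (v - t • v) := by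
        simp only [Complex.real_smul]
        push_cast
        ring
      rwa [h7] at h6
    · refine Subset.trans ?_ (segment_subset_Dom h5)
      refine (convex_segment 0 _).segment_subset ?_ (right_mem_segment ℝ _ _)
      rcases h4.eq_or_lt with h8 | h8
      · have h9 : t = 0 := by nlinarith
        have h10 : (t + s * (1 - t)) • v = 0 := by rw [← h8, zero_smul]
        rw [h10, h9, zero_smul]
        exact left_mem_segment ℝ _ _
      · have h9 := smul_mem_segment_zero (v := (t + s * (1 - t)) • v) (t := t / (t + s * (1 - t)))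
          (by positivity) (by rw [div_le_one h8]; nlinarith)
        rwa [smul_smul, div_mul_cancel₀ _ h8.ne'] at h9
    · intro z hz
      exact (convex_segment _ _).segment_subset (left_mem_segment ℝ _ _) hz
  exact ⟨hS, fun h => hv.2 (mem_Dom_concat h0 (hv.1 t h0 h1) h)⟩

theorem im_smul_div (t : ℝ) (z w : ℂ) : ((t • z) / w).im = t * (z / w).im := by
  rw [Complex.real_smul, mul_div_assoc, Complex.im_ofReal_mul]

theorem re_smul_div (t : ℝ) (z w : ℂ) : ((t • z) / w).re = t * (z / w).re := by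
  rw [Complex.real_smul, mul_div_assoc, Complex.re_ofReal_mul]

/-- The key step: two visible marked points in a thin sector free of closer ones. -/
theorem key_sector [CompactSpace X] [T2Space X] {r : ℝ}
    (hr : ∀ p v w, M.Vis p v → M.Vis p w → ‖v‖ < r → ‖w‖ < r → v = w)
    {p : X} {R δ : ℝ} (hδ0 : 0 < δ) (hδ : r = 8 * δ) (hR : 4 * δ ≤ R) {K : Set ℂ}
    (hK : Convex ℝ K) (hcone : ∀ z ∈ K, ∀ t : ℝ, 0 < t → t • z ∈ K) (h0K : (0 : ℂ) ∉ K)
    (hbad : ∀ b ∈ K, M.Vis p b → R < ‖b‖) {v w : ℂ} (hv : M.Vis p v) (hw : M.Vis p w)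
    (hvK : v ∈ K) (hwK : w ∈ K) (hvR : ‖v‖ ≤ R + δ) (hwR : ‖w‖ ≤ R + δ) (hd : ‖v - w‖ < 2 * δ)
    (hvw : v ≠ w) : False := by
  have hp := hv.notMem
  -- the points at distance `2 δ` before the marked points
  have aux : ∀ u : ℂ, u ∈ K → M.Vis p u → ‖u‖ ≤ R + δ → ∃ t : ℝ, 0 < t ∧ t < 1 ∧
      ‖u - t • u‖ = 2 * δ ∧ ‖t • u‖ ≤ R - δ := by
    intro u huK hu huR
    have h1 := hbad u huK hu
    have h2 : 0 < ‖u‖ := by linarith
    refine ⟨1 - 2 * δ / ‖u‖, ?_, ?_, ?_, ?_⟩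
    · rw [sub_pos, div_lt_one h2]
      linarith
    · have : 0 < 2 * δ / ‖u‖ := by positivity
      linarith
    · have : u - (1 - 2 * δ / ‖u‖) • u = (2 * δ / ‖u‖) • u := by
        rw [sub_smul, one_smul, sub_sub_cancel]
      rw [this, norm_smul, Real.norm_of_nonneg (by positivity), div_mul_cancel₀ _ h2.ne']
    · have h3 : 0 ≤ 1 - 2 * δ / ‖u‖ := by
        rw [sub_nonneg, div_le_one h2]
        linarith
      rw [norm_smul, Real.norm_of_nonneg h3, sub_mul, div_mul_cancel₀ _ h2.ne']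
      linarith
  obtain ⟨t1, ht10, ht11, ht1d, ht1n⟩ := aux v hvK hv hvR
  obtain ⟨t2, ht20, ht21, ht2d, ht2n⟩ := aux w hwK hw hwR
  set y1 := t1 • v with hy1
  set y2 := t2 • w with hy2
  have hy1K : y1 ∈ K := hcone v hvK t1 ht10
  have hy2K : y2 ∈ K := hcone w hwK t2 ht20
  have hy1D : y1 ∈ M.Dom p := hv.1 t1 ht10.le ht11
  have hy2D : y2 ∈ M.Dom p := hw.1 t2 ht20.le ht21
  have hA : segment ℝ y1 y2 ⊆ M.Dom p := by
    intro z hz
    have hzK : z ∈ K := hK.segment_subset hy1K hy2K hz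
    have hzn : ‖z‖ ≤ R - δ := by
      have h1 : segment ℝ y1 y2 ⊆ closedBall 0 (R - δ) :=
        (convex_closedBall 0 (R - δ)).segment_subset (by simpa using ht1n) (by simpa using ht2n)
      simpa using h1 hz
    by_contra hzD
    obtain ⟨t, h0, h1, h2⟩ := exists_first_hit hp hzD
    have h3 := hbad _ (hcone z hzK t h0) h2
    rw [norm_smul, Real.norm_of_nonneg h0.le] at h3
    nlinarith [norm_nonneg z]
  set p' := M.exp p y1 with hp'
  have hp'S : p' ∉ M.Sg := exp_notMem hy1D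
  have hv' : M.Vis p' (v - y1) := hv.base ht10.le ht11
  have hC : ∀ α β : ℝ, 0 ≤ α → 0 ≤ β → α + β ≤ 1 →
      α • (y2 - y1) + β • (w - y1) ∈ M.Dom p' := by
    intro α β hα hβ hαβ
    by_contra hzD
    obtain ⟨s, hs0, hs1, hs2⟩ := exists_first_hit hp'S hzD
    have hn1 : ‖w - y1‖ < 4 * δ := by
      have : w - y1 = -(v - w) + (v - y1) := by ring
      rw [this]
      refine (norm_add_le _ _).trans_lt ?_
      rw [norm_neg]
      linarith
    have hn2 : ‖y2 - y1‖ < 6 * δ := by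
      have : y2 - y1 = -(w - y2) + (w - y1) := by ring
      rw [this]
      refine (norm_add_le _ _).trans_lt ?_
      rw [norm_neg]
      linarith
    have hn3 : ‖s • (α • (y2 - y1) + β • (w - y1))‖ < r := by
      rw [norm_smul, Real.norm_of_nonneg hs0.le]
      have h1 : ‖α • (y2 - y1) + β • (w - y1)‖ ≤ α * (6 * δ) + β * (6 * δ) := by
        refine (norm_add_le _ _).trans ?_
        rw [norm_smul, norm_smul, Real.norm_of_nonneg hα, Real.norm_of_nonneg hβ]
        gcongr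
        linarith
      nlinarith [norm_nonneg (α • (y2 - y1) + β • (w - y1))]
    have heq := hr p' _ _ hs2 hv' hn3 (by rw [ht1d]; linarith)
    have hvy : v - y1 ≠ 0 := by
      intro h
      rw [h, norm_zero] at ht1d
      linarith
    have hpos : 0 < α + β := by
      rcases (add_nonneg hα hβ).eq_or_lt with h | h
      · exfalso
        have h1 : α = 0 := by linarith
        have h2 : β = 0 := by linarith
        rw [h1, h2] at heq
        simp at heq
        exact hvy heq.symm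
      · exact h
    -- `w` is a real multiple of `v`
    have hc : ∃ c : ℝ, w = c • v := by
      have h1 : s * (α * t2 + β) ≠ 0 := by
        have : 0 < α * t2 + β := by
          rcases hα.eq_or_lt with h | h
          · rw [← h] at hpos ⊢
            linarith
          · positivity
        positivity
      refine ⟨(s * (α * t2 + β))⁻¹ * (1 - t1 + s * (α + β) * t1), ?_⟩
      have h2 : (s * (α * t2 + β)) • w = (1 - t1 + s * (α + β) * t1) • v := by
        simp only [hy1, hy2, Complex.real_smul] at heq ⊢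
        push_cast
        linear_combination heq
      rw [mul_smul, ← h2, smul_smul, inv_mul_cancel₀ h1, one_smul]
    obtain ⟨c, hc⟩ := hc
    rcases lt_or_ge 0 c with h | h
    · exact hvw (hv.eq_of_smul hw h hc)
    · apply h0K
      have h1 := hK hvK hwK (a := -c / (1 - c)) (b := 1 / (1 - c))
        (div_nonneg (by linarith) (by linarith)) (div_nonneg zero_le_one (by linarith))
        (by rw [← add_div]; exact (div_eq_one_iff_eq (by linarith)).mpr (by ring))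
      have h2 : (-c / (1 - c)) • v + (1 / (1 - c)) • w = 0 := by
        rw [hc, smul_smul, ← add_smul]
        have : -c / (1 - c) + 1 / (1 - c) * c = 0 := by ring
        rw [this, zero_smul]
      rwa [h2] at h1
  -- continue along the second ray
  have hb := exp_exp (M := M) (p := p) (v := y1) hA
    (fun z hz => (convex_segment _ _).segment_subset (left_mem_segment ℝ _ _) hz)
    (right_mem_segment ℝ y1 y2)
  refine hw.2 (mem_Dom_concat ht20.le hy2D ?_)
  refine ⟨fun z => M.exp p' (z + (y2 - y1)), ((isTr_exp p').comp_add (y2 - y1)).mono ?_, ?_⟩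
  · intro z hz
    rw [segment_eq_image] at hz
    obtain ⟨s, hs, rfl⟩ := hz
    have h1 := hC (1 - s) s (by linarith [hs.2]) hs.1 (by linarith)
    show (1 - s) • (0 : ℂ) + s • (w - y2) + (y2 - y1) ∈ M.Dom p'
    have h2 : (1 - s) • (y2 - y1) + s • (w - y1) =
        (1 - s) • (0 : ℂ) + s • (w - y2) + (y2 - y1) := by
      simp only [Complex.real_smul]
      push_cast
      ring
    rwa [h2] at h1
  · show M.exp p' (0 + (y2 - y1)) = M.exp p y2
    rw [zero_add]
    exact hb.2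

theorem isLinear_im (σ : ℝ) (x : ℂ) : IsLinearMap ℝ (fun z : ℂ => σ * (z / x).im) :=
  ⟨fun z w => by rw [add_div, Complex.add_im]; ring, fun t z => by
    rw [im_smul_div, smul_eq_mul]; ring⟩

theorem isLinear_reim (σ ε : ℝ) (x : ℂ) :
    IsLinearMap ℝ (fun z : ℂ => ε * (z / x).re - σ * (z / x).im) :=
  ⟨fun z w => by rw [add_div, Complex.add_im, Complex.add_re]; ring, fun t z => by
    rw [im_smul_div, re_smul_div, smul_eq_mul]; ring⟩

/-- One side of an accumulation direction. -/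
theorem no_acc_side [CompactSpace X] [T2Space X] {r : ℝ}
    (hr : ∀ p v w, M.Vis p v → M.Vis p w → ‖v‖ < r → ‖w‖ < r → v = w)
    {p : X} {R δ : ℝ} (hδ0 : 0 < δ) (hδ : r = 8 * δ) (hR : 4 * δ ≤ R)
    (ih : {v : ℂ | ‖v‖ ≤ R ∧ M.Vis p v}.Finite) {x : ℂ} (hx0 : x ≠ 0) (σ : ℝ)
    (h : ∃ᶠ y in 𝓝 x, (‖y‖ ≤ R + δ ∧ M.Vis p y) ∧ 0 < σ * (y / x).im) : False := by
  -- a small aperture
  have hε : ∃ ε : ℝ, 0 < ε ∧ ∀ b ∈ {v : ℂ | ‖v‖ ≤ R ∧ M.Vis p v},
      ¬ (0 < σ * (b / x).im ∧ 0 < ε * (b / x).re - σ * (b / x).im) := by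
    have h1 : ∀ᶠ ε : ℝ in 𝓝[>] 0, ∀ b ∈ {v : ℂ | ‖v‖ ≤ R ∧ M.Vis p v},
        ¬ (0 < σ * (b / x).im ∧ 0 < ε * (b / x).re - σ * (b / x).im) := by
      rw [Filter.eventually_all_finite ih]
      intro b _
      by_cases hb : 0 < σ * (b / x).im
      · have h2 : Tendsto (fun ε : ℝ => ε * (b / x).re - σ * (b / x).im) (𝓝[>] 0)
            (𝓝 (0 * (b / x).re - σ * (b / x).im)) := by
          refine Tendsto.mono_left (Continuous.tendsto (by fun_prop) 0) nhdsWithin_le_nhds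
        have h3 : 0 * (b / x).re - σ * (b / x).im < 0 := by linarith
        filter_upwards [h2.eventually (gt_mem_nhds h3)] with ε h4 h5
        linarith [h5.2]
      · exact Filter.Eventually.of_forall fun ε h5 => hb h5.1
    obtain ⟨ε, h2, h3⟩ := (h1.and self_mem_nhdsWithin).exists
    exact ⟨ε, h3, h2⟩
  obtain ⟨ε, hε0, hε⟩ := hε
  set K : Set ℂ := {z | 0 < σ * (z / x).im} ∩ {z | 0 < ε * (z / x).re - σ * (z / x).im} with hKdef
  have hK : Convex ℝ K := (convex_halfSpace_gt (isLinear_im σ x) 0).inter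
    (convex_halfSpace_gt (isLinear_reim σ ε x) 0)
  have hcone : ∀ z ∈ K, ∀ t : ℝ, 0 < t → t • z ∈ K := by
    rintro z ⟨h1, h2⟩ t ht
    have h1' : 0 < σ * (z / x).im := h1
    have h2' : 0 < ε * (z / x).re - σ * (z / x).im := h2
    refine ⟨?_, ?_⟩
    · show 0 < σ * ((t • z) / x).im
      rw [im_smul_div]
      have := mul_pos ht h1'
      linarith
    · show 0 < ε * ((t • z) / x).re - σ * ((t • z) / x).im
      rw [im_smul_div, re_smul_div]
      have := mul_pos ht h2'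
      linarith
  have h0K : (0 : ℂ) ∉ K := by
    intro h0
    have : 0 < σ * ((0 : ℂ) / x).im := h0.1
    simp at this
  have hbad : ∀ b ∈ K, M.Vis p b → R < ‖b‖ := by
    intro b hb hvis
    by_contra hle
    exact hε b ⟨not_lt.mp hle, hvis⟩ ⟨hb.1, hb.2⟩
  -- points near `x` are in `K`
  have hc : Tendsto (fun y : ℂ => ε * (y / x).re - σ * (y / x).im) (𝓝 x)
      (𝓝 (ε * (x / x).re - σ * (x / x).im)) := by
    apply Continuous.tendsto
    fun_prop
  rw [div_self hx0] at hc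
  have hnear : ∀ᶠ y in 𝓝 x, 0 < ε * (y / x).re - σ * (y / x).im ∧ ‖y - x‖ < δ := by
    refine (hc.eventually (lt_mem_nhds ?_)).and ?_
    · simp [hε0]
    · filter_upwards [ball_mem_nhds x hδ0] with y hy
      exact mem_ball_iff_norm.mp hy
  obtain ⟨v, ⟨⟨hv1, hv2⟩, hv3⟩, hv4, hv5⟩ := (h.and_eventually hnear).exists
  have hvx : v ≠ x := by
    rintro rfl
    rw [div_self hx0] at hv3
    simp at hv3
  have hne : ∀ᶠ y in 𝓝 x, y ≠ v := isOpen_ne.mem_nhds hvx.symm
  obtain ⟨w, ⟨⟨hw1, hw2⟩, hw3⟩, ⟨hw4, hw5⟩, hw6⟩ := (h.and_eventually (hnear.and hne)).exists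
  refine key_sector hr hδ0 hδ hR hK hcone h0K hbad hv2 hw2 ⟨hv3, hv4⟩ ⟨hw3, hw4⟩ hv1 hw1 ?_
    hw6.symm
  have : v - w = (v - x) - (w - x) := by ring
  rw [this]
  refine (norm_sub_le _ _).trans_lt ?_
  linarith

/-- Only finitely many marked points are visible in a bounded set. -/
theorem finite_vis [CompactSpace X] [T2Space X] (M : MSurf X) (p : X) (R : ℝ) :
    {v : ℂ | ‖v‖ ≤ R ∧ M.Vis p v}.Finite := by
  obtain ⟨r, hr0, hr⟩ := exists_unif M
  set δ := r / 8 with hδ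
  have hδ0 : 0 < δ := by positivity
  have hrδ : r = 8 * δ := by rw [hδ]; ring
  suffices h : ∀ n : ℕ, {v : ℂ | ‖v‖ ≤ (4 + n) * δ ∧ M.Vis p v}.Finite by
    obtain ⟨n, hn⟩ := exists_nat_gt (R / δ)
    refine (h n).subset fun v hv => ⟨?_, hv.2⟩
    have h1 : R < n * δ := by rwa [div_lt_iff₀ hδ0] at hn
    have h2 := hv.1
    nlinarith
  intro n
  induction n with
  | zero =>
    refine Set.Subsingleton.finite ?_
    rintro v ⟨hv1, hv2⟩ w ⟨hw1, hw2⟩
    refine hr p v w hv2 hw2 ?_ ?_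
    · rw [hrδ]
      push_cast at hv1
      linarith
    · rw [hrδ]
      push_cast at hw1
      linarith
  | succ n ih =>
    set R' : ℝ := (4 + n) * δ with hR'
    have hR'4 : 4 * δ ≤ R' := by
      rw [hR']
      have : (0 : ℝ) ≤ n := Nat.cast_nonneg n
      nlinarith
    have hR'' : (4 + (n + 1 : ℕ)) * δ = R' + δ := by
      rw [hR']
      push_cast
      ring
    rw [hR'']
    by_contra hinf
    have hinf' : {v : ℂ | ‖v‖ ≤ R' + δ ∧ M.Vis p v}.Infinite := hinf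
    have hinf2 : ({v : ℂ | ‖v‖ ≤ R' + δ ∧ M.Vis p v} \
      {v : ℂ | ‖v‖ ≤ R' ∧ M.Vis p v}).Infinite := hinf'.sdiff ih
    obtain ⟨x, hx, hacc⟩ := hinf2.exists_accPt_of_subset_isCompact
      (isCompact_closedBall (0 : ℂ) (R' + δ)) (fun v hv => by simpa using hv.1.1)
    rw [accPt_iff_frequently] at hacc
    have hacc' : ∃ᶠ y in 𝓝 x, y ≠ x ∧ ‖y‖ ≤ R' + δ ∧ M.Vis p y :=
      hacc.mono fun y hy => ⟨hy.1, hy.2.1⟩
    have hx0 : x ≠ 0 := by
      rintro rfl
      obtain ⟨y, hy, hy'⟩ := hacc'.exists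
      have h0 := zero_mem_Dom hy'.2.notMem
      obtain ⟨y', hy1, hy2⟩ := (hacc'.and_eventually ((isOpen_Dom p).mem_nhds h0)).exists
      exact hy1.2.2.2 hy2
    have hpos : ∀ᶠ y : ℂ in 𝓝 x, 0 < (y / x).re := by
      have hc : Tendsto (fun y : ℂ => (y / x).re) (𝓝 x) (𝓝 (x / x).re) := by
        apply Continuous.tendsto
        fun_prop
      rw [div_self hx0] at hc
      exact hc.eventually (lt_mem_nhds (by simp))
    have hfreq : ∃ᶠ y in 𝓝 x, (‖y‖ ≤ R' + δ ∧ M.Vis p y) ∧ (y / x).im ≠ 0 := by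
      by_contra hcon
      rw [Filter.not_frequently] at hcon
      obtain ⟨v, ⟨hv1, hv2⟩, hv3, hv4⟩ := (hacc'.and_eventually (hcon.and hpos)).exists
      have hne : ∀ᶠ y in 𝓝 x, y ≠ v := isOpen_ne.mem_nhds hv1.symm
      obtain ⟨w, ⟨hw1, hw2⟩, ⟨hw3, hw4⟩, hw5⟩ :=
        (hacc'.and_eventually ((hcon.and hpos).and hne)).exists
      have him1 : (v / x).im = 0 := by
        by_contra h
        exact hv3 ⟨hv2, h⟩
      have him2 : (w / x).im = 0 := by
        by_contra h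
        exact hw3 ⟨hw2, h⟩
      have key : ∀ y : ℂ, 0 < (y / x).re → (y / x).im = 0 → ∃ A : ℝ, 0 < A ∧ y = A * x := by
        intro y hy1 hy2
        refine ⟨(y / x).re, hy1, ?_⟩
        rw [← div_eq_iff hx0]
        apply Complex.ext <;> simp [hy2]
      obtain ⟨A, hA, e1⟩ := key v hv4 him1
      obtain ⟨B, hB, e2⟩ := key w hw4 him2
      have h1 : w = (B / A) • v := by
        have hA' : (A : ℂ) ≠ 0 := by exact_mod_cast hA.ne'
        rw [Complex.real_smul, e1, e2]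
        push_cast
        field_simp
      exact hw5 (hv2.2.eq_of_smul hw2.2 (by positivity) h1).symm
    have hor : ∃ᶠ y in 𝓝 x, ((‖y‖ ≤ R' + δ ∧ M.Vis p y) ∧ 0 < 1 * (y / x).im) ∨
        ((‖y‖ ≤ R' + δ ∧ M.Vis p y) ∧ 0 < (-1) * (y / x).im) := by
      refine hfreq.mono fun y hy => ?_
      rcases lt_or_gt_of_ne hy.2 with h | h
      · exact Or.inr ⟨hy.1, by linarith⟩
      · exact Or.inl ⟨hy.1, by linarith⟩
    rw [Filter.frequently_or_distrib] at hor
    rcases hor with h | h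
    · exact no_acc_side hr hδ0 hrδ hR'4 ih hx0 1 h
    · exact no_acc_side hr hδ0 hrδ hR'4 ih hx0 (-1) h

end MSurf

end Pool.Agent.Lib.MP_755177_an
end
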