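import Pool.Agent.Lib.MP_755177_an.Spec4

section
set_option autoImplicit false

/-!
# Module SSTART: a first saddle connection
-/

open Set Filter Topology Complex Metric MeasureTheory
open scoped MatrixGroups ComplexConjugate

namespace Pool.Agent.Lib.MP_755177_an

namespace Start

variable {X : Type*} [TopologicalSpace X] {M : MSurf X}

/-- The exponential map is locally injective near the origin. -/
theorem loc_inj [T2Space X] {p : X} (hp : p ∉ M.Sg) :
    ∃ ε > 0, ∀ z w : ℂ, ‖z‖ < ε → ‖w‖ < ε → M.exp p z = M.exp p w → z = w := by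
  have h0 := MSurf.zero_mem_Dom hp
  have hE := MSurf.isTr_exp (M := M) p
  obtain ⟨a, ha, ζ, h1, h2, h3, h4⟩ := M.regular p hp
  obtain ⟨c, hc⟩ := hE.1.2 0 h0 a ha (by rw [MSurf.exp_zero hp]; exact h2 h1)
  rw [(MSurf.isOpen_Dom p).nhdsWithin_eq h0] at hc
  obtain ⟨ε, hε, h6⟩ := Metric.eventually_nhds_iff.1 hc
  refine ⟨ε, hε, fun z w hz hw hzw => ?_⟩
  have h7 := h6 (by rwa [dist_zero_right] : dist z 0 < ε)
  have h8 := h6 (by rwa [dist_zero_right] : dist w 0 < ε)
  rw [hzw, h8] at h7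
  exact (add_right_cancel h7).symm

/-- The triangle `0, v1, v2` without the vertices `v1, v2`. -/
def UU (v1 v2 : ℂ) : Set ℂ :=
  {z | ∃ a c : ℝ, 0 ≤ a ∧ 0 ≤ c ∧ a < 1 ∧ c < 1 ∧ a + c ≤ 1 ∧ z = a • v1 + c • v2}

theorem convex_UU (v1 v2 : ℂ) : Convex ℝ (UU v1 v2) := by
  rintro x ⟨a, c, h1, h2, h3, h4, h5, rfl⟩ y ⟨a', c', h1', h2', h3', h4', h5', rfl⟩ s t hs ht hst
  refine ⟨s * a + t * a', s * c + t * c', by positivity, by positivity, ?_, ?_, ?_, ?_⟩
  · rcases hs.eq_or_lt with h | h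
    · have : t = 1 := by linarith
      subst this
      subst h
      linarith
    · nlinarith
  · rcases hs.eq_or_lt with h | h
    · have : t = 1 := by linarith
      subst this
      subst h
      linarith
    · nlinarith
  · nlinarith
  · simp only [Complex.real_smul]
    push_cast
    ring

/-- The side `v1, v2`. -/
def LL (v1 b : ℂ) : Set ℂ := {z | ∃ s : ℝ, 0 < s ∧ s < 1 ∧ z = v1 + s • b}

theorem convex_LL (v1 b : ℂ) : Convex ℝ (LL v1 b) := by
  rintro x ⟨a, h1, h2, rfl⟩ y ⟨a', h1', h2', rfl⟩ s t hs ht hst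
  refine ⟨s * a + t * a', ?_, ?_, ?_⟩
  · rcases hs.eq_or_lt with h | h
    · have : t = 1 := by linarith
      subst this
      subst h
      linarith
    · nlinarith
  · rcases hs.eq_or_lt with h | h
    · have : t = 1 := by linarith
      subst this
      subst h
      linarith
    · nlinarith
  · have hs' : (s : ℂ) + t = 1 := by exact_mod_cast hst
    simp only [Complex.real_smul]
    push_cast
    linear_combination v1 * hs'

theorem LL_subset (v1 v2 : ℂ) : LL v1 (v2 - v1) ⊆ UU v1 v2 := by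
  rintro z ⟨s, h0, h1, rfl⟩
  refine ⟨1 - s, s, by linarith, h0.le, by linarith, h1, by linarith, ?_⟩
  simp only [Complex.real_smul]
  push_cast
  ring

/-- The main construction. -/
theorem main [CompactSpace X] [T2Space X] {p : X} {v1 v2 : ℂ} (h1 : M.Vis p v1)
    (h2 : M.Vis p v2) (hcr : 0 < cr v1 v2) (hU : UU v1 v2 ⊆ M.Dom p) :
    ∃ Z : Set X, IsClosed Z ∧ M.Sg ⊆ Z ∧ (∃ p ∈ Z, p ∉ M.Sg) ∧
      ∀ p ∈ Z, p ∉ M.Sg → M.EdgeAt Z p (v2 - v1) := by
  set b := v2 - v1 with hb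
  have hbne : b ≠ 0 := by
    intro h
    rw [hb, sub_eq_zero] at h
    rw [h, cr_self] at hcr
    exact lt_irrefl _ hcr
  set L := LL v1 b with hL
  have hLU : L ⊆ UU v1 v2 := LL_subset v1 v2
  have hLD : L ⊆ M.Dom p := hLU.trans hU
  have hf : M.IsTr (M.exp p) L := (MSurf.isTr_exp p).mono hLD
  obtain ⟨hc1, q1, hq1, hl1⟩ := h1.exists_lim (convex_UU v1 v2) hU (fun t ht0 ht1 =>
    ⟨t, 0, ht0, le_rfl, ht1, one_pos, by linarith, by simp⟩)
  obtain ⟨hc2, q2, hq2, hl2⟩ := h2.exists_lim (convex_UU v1 v2) hU (fun t ht0 ht1 =>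
    ⟨0, t, le_rfl, ht0, one_pos, ht1, by linarith, by simp⟩)
  have hl1' : Tendsto (M.exp p) (𝓝[L] v1) (𝓝 q1) := hl1.mono_left (nhdsWithin_mono _ hLU)
  have hl2' : Tendsto (M.exp p) (𝓝[L] v2) (𝓝 q2) := hl2.mono_left (nhdsWithin_mono _ hLU)
  -- the points of `L` near the end `v2`
  have hv2 : ∀ s : ℝ, v1 + s • b - v2 = -((1 - s) • b) := by
    intro s
    rw [hb]
    simp only [Complex.real_smul]
    push_cast
    ring
  -- limits along `L`
  have hlimit : ∀ (w : Ultrafilter ℂ), L ∈ w → ∃ z q, (w : Filter ℂ) ≤ 𝓝 z ∧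
      Tendsto (M.exp p) w (𝓝 q) ∧ ((z ∈ L ∧ q = M.exp p z) ∨ q ∈ M.Sg) := by
    intro w hw
    have hK : IsCompact (segment ℝ v1 v2) := by
      rw [segment_eq_image]
      exact isCompact_Icc.image (by fun_prop)
    have hLK : L ⊆ segment ℝ v1 v2 := by
      rintro _ ⟨s, h0, h1, rfl⟩
      refine ⟨1 - s, s, by linarith, h0.le, by ring, ?_⟩
      rw [hb]
      simp only [Complex.real_smul]
      push_cast
      ring
    obtain ⟨z, hz, hwz⟩ := isCompact_iff_ultrafilter_le_nhds.mp hK w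
      (le_principal_iff.mpr (mem_of_superset hw hLK))
    have hwz' : (w : Filter ℂ) ≤ 𝓝[L] z := le_inf hwz (le_principal_iff.mpr hw)
    rw [segment_eq_image] at hz
    obtain ⟨s, ⟨hs0, hs1⟩, rfl⟩ := hz
    rcases hs0.eq_or_lt with h | h
    · subst h
      refine ⟨_, q1, hwz, ?_, Or.inr hq1⟩
      have : (1 - (0 : ℝ)) • v1 + (0 : ℝ) • v2 = v1 := by simp
      simp only at hwz'
      rw [this] at hwz'
      exact hl1'.mono_left hwz'
    rcases hs1.eq_or_lt with h' | h'
    · subst h'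
      refine ⟨_, q2, hwz, ?_, Or.inr hq2⟩
      have : (1 - (1 : ℝ)) • v1 + (1 : ℝ) • v2 = v2 := by simp
      simp only at hwz'
      rw [this] at hwz'
      exact hl2'.mono_left hwz'
    · have hzL : (1 - s) • v1 + s • v2 ∈ L := by
        refine ⟨s, h, h', ?_⟩
        rw [hb]
        simp only [Complex.real_smul]
        push_cast
        ring
      exact ⟨_, _, hwz, (hf.continuousOn _ hzL).tendsto.mono_left hwz', Or.inl ⟨hzL, rfl⟩⟩
  -- injectivity
  have hinj : ∀ s s' : ℝ, 0 < s → s < s' → s' < 1 →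
      M.exp p (v1 + s • b) = M.exp p (v1 + s' • b) → False := by
    intro s s' hs0 hss hs1 he
    set w := (s' - s) • b with hw
    set S : Set ℂ := {z | ∃ t : ℝ, 0 < t ∧ t < 1 - (s' - s) ∧ z = v1 + t • b} with hS
    have hSL : S ⊆ L := by
      rintro z ⟨t, h0, h1, rfl⟩
      exact ⟨t, h0, by linarith, rfl⟩
    have hSL' : ∀ z ∈ S, z + w ∈ L := by
      rintro z ⟨t, h0, h1, rfl⟩
      refine ⟨t + (s' - s), by linarith, by linarith, ?_⟩
      rw [hw, add_smul]
      ring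
    have hSp : IsPreconnected S := by
      have : S = (fun t : ℝ => v1 + t • b) '' Ioo 0 (1 - (s' - s)) := by
        ext z
        constructor
        · rintro ⟨t, h0, h1, rfl⟩
          exact ⟨t, ⟨h0, h1⟩, rfl⟩
        · rintro ⟨t, ⟨h0, h1⟩, rfl⟩
          exact ⟨t, h0, h1, rfl⟩
      rw [this]
      exact isPreconnected_Ioo.image _ (Continuous.continuousOn (by fun_prop))
    have heq : EqOn (M.exp p) (fun z => M.exp p (z + w)) S := by
      refine (hf.mono hSL).eqOn ((hf.comp_add w).mono hSL') hSp (z := v1 + s • b) ?_ ?_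
      · exact ⟨s, hs0, by linarith, rfl⟩
      · show M.exp p (v1 + s • b) = M.exp p (v1 + s • b + w)
        rw [he, hw, sub_smul]
        congr 1
        ring
    set σ := 1 - (s' - s) with hσ
    have hσ0 : 0 < σ := by linarith
    have hev : ∀ᶠ t : ℝ in 𝓝[<] σ, 0 < t ∧ t < σ := by
      filter_upwards [Ioo_mem_nhdsLT hσ0] with t ht
      exact ⟨ht.1, ht.2⟩
    have hzL : v1 + σ • b ∈ L := ⟨σ, hσ0, by linarith, rfl⟩
    have ht1 : Tendsto (fun t : ℝ => M.exp p (v1 + t • b)) (𝓝[<] σ) (𝓝 (M.exp p (v1 + σ • b))) := by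
      refine (hf.continuousOn _ hzL).tendsto.comp ?_
      rw [tendsto_nhdsWithin_iff]
      refine ⟨(Continuous.tendsto (by fun_prop) σ).mono_left nhdsWithin_le_nhds, ?_⟩
      filter_upwards [hev] with t ht
      exact hSL ⟨t, ht.1, ht.2, rfl⟩
    have ht2 : Tendsto (fun t : ℝ => M.exp p (v1 + t • b + w)) (𝓝[<] σ) (𝓝 q2) := by
      refine hl2'.comp ?_
      rw [tendsto_nhdsWithin_iff]
      constructor
      · have h3 : v1 + σ • b + w = v2 := by
          rw [hσ, hw, hb]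
          simp only [Complex.real_smul]
          push_cast
          ring
        have h4 : Tendsto (fun t : ℝ => v1 + t • b + w) (𝓝 σ) (𝓝 (v1 + σ • b + w)) :=
          Continuous.tendsto (by fun_prop) σ
        rw [h3] at h4
        exact h4.mono_left nhdsWithin_le_nhds
      · filter_upwards [hev] with t ht
        exact hSL' _ ⟨t, ht.1, ht.2, rfl⟩
    have h5 : M.exp p (v1 + σ • b) = q2 := by
      refine tendsto_nhds_unique ht1 (ht2.congr' ?_)
      filter_upwards [hev] with t ht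
      exact (heq ⟨t, ht.1, ht.2, rfl⟩).symm
    exact hf.2 _ hzL (h5 ▸ hq2)
  refine ⟨M.Sg ∪ M.exp p '' L, ?_, subset_union_left, ?_, ?_⟩
  · -- closed
    rw [← closure_subset_iff_isClosed]
    intro x hx
    rw [closure_union] at hx
    rcases hx with hx | hx
    · left
      rwa [M.finite_Sg.isClosed.closure_eq] at hx
    · rw [mem_closure_iff_ultrafilter] at hx
      obtain ⟨u, hu, hux⟩ := hx
      obtain ⟨z, q, -, hq, hzq⟩ := hlimit (Ultrafilter.ofComapInfPrincipal hu)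
        (Ultrafilter.ofComapInfPrincipal_mem hu)
      have h3 : Ultrafilter.map (M.exp p) (Ultrafilter.ofComapInfPrincipal hu) = u :=
        Ultrafilter.ofComapInfPrincipal_eq_of_map hu
      have h4 : (u : Filter X) ≤ 𝓝 q := by
        rw [← h3]
        exact hq
      have h5 : x = q := eq_of_nhds_neBot (u.neBot.mono (le_inf hux h4))
      rw [h5]
      rcases hzq with ⟨h6, h7⟩ | h6
      · exact Or.inr ⟨z, h6, h7.symm⟩
      · exact Or.inl h6
  · have hm : v1 + (1 / 2 : ℝ) • b ∈ L := ⟨1 / 2, by norm_num, by norm_num, rfl⟩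
    exact ⟨_, Or.inr ⟨_, hm, rfl⟩, hf.2 _ hm⟩
  · rintro p' hp' hpS
    rcases hp' with hp' | ⟨z, hzL, rfl⟩
    · exact absurd hp' hpS
    obtain ⟨s, hs0, hs1, rfl⟩ := hzL
    set z := v1 + s • b with hz
    have hzL : z ∈ L := ⟨s, hs0, hs1, rfl⟩
    have hLc : Convex ℝ L := convex_LL v1 b
    -- base change along `L`
    have hbase : ∀ t : ℝ, -s < t → t < 1 - s → t • b ∈ M.Dom (M.exp p z) ∧
        M.exp (M.exp p z) (t • b) = M.exp p (z + t • b) := by
      intro t ht1 ht2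
      have hm : z + t • b ∈ L := ⟨s + t, by linarith, by linarith, by rw [hz, add_smul]; ring⟩
      have := MSurf.exp_exp (M := M) (p := p) (v := z) hLD
        (fun y hy => hLc.segment_subset hzL hy) hm
      rwa [add_sub_cancel_left] at this
    -- the two ends
    have hend : ∀ (τ : ℝ) (q : X), q ∈ M.Sg → τ ≠ 0 → (∀ t : ℝ, 0 ≤ t → t < 1 →
        -s < t * τ ∧ t * τ < 1 - s) → Tendsto (M.exp p) (𝓝[L] (z + τ • b)) (𝓝 q) →
        M.Vis (M.exp p z) (τ • b) := by
      intro τ q hq hτ hτr hlim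
      refine ⟨fun t ht0 ht1 => ?_, fun hD => ?_⟩
      · rw [smul_smul]
        exact (hbase _ (hτr t ht0 ht1).1 (hτr t ht0 ht1).2).1
      · have hev : ∀ᶠ t : ℝ in 𝓝[<] 1, 0 < t ∧ t < 1 := by
          filter_upwards [Ioo_mem_nhdsLT (zero_lt_one' ℝ)] with t ht
          exact ⟨ht.1, ht.2⟩
        have hto : Tendsto (fun t : ℝ => t • (τ • b)) (𝓝[<] 1) (𝓝 (τ • b)) := by
          have h4 : Tendsto (fun t : ℝ => t • (τ • b)) (𝓝 1) (𝓝 ((1 : ℝ) • (τ • b))) :=
            Continuous.tendsto (by fun_prop) 1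
          rw [one_smul] at h4
          exact h4.mono_left nhdsWithin_le_nhds
        have hcont : Tendsto (M.exp (M.exp p z)) (𝓝 (τ • b)) (𝓝 (M.exp (M.exp p z) (τ • b))) :=
          (MSurf.isTr_exp (M := M) _).continuousOn.continuousAt
            ((MSurf.isOpen_Dom _).mem_nhds hD)
        have h5 := hcont.comp hto
        have h6 : Tendsto (fun t : ℝ => M.exp p (z + t • (τ • b))) (𝓝[<] 1) (𝓝 q) := by
          refine hlim.comp ?_
          rw [tendsto_nhdsWithin_iff]
          refine ⟨hto.const_add z, ?_⟩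
          filter_upwards [hev] with t ht
          have h7 := hτr t ht.1.le ht.2
          refine ⟨s + t * τ, by linarith [h7.1], by linarith [h7.2], ?_⟩
          rw [hz, smul_smul, add_smul]
          ring
        have h8 : M.exp (M.exp p z) (τ • b) = q := by
          refine tendsto_nhds_unique h5 (h6.congr' ?_)
          filter_upwards [hev] with t ht
          have h7 := hτr t ht.1.le ht.2
          have h9 := (hbase _ h7.1 h7.2).2
          simp only [Function.comp_apply]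
          rw [smul_smul, h9]
        exact MSurf.exp_notMem hD (h8 ▸ hq)
    refine ⟨s, 1 - s, hs0, by linarith, by ring, ?_, ?_, ?_, ?_⟩
    · refine hend (1 - s) q2 hq2 (by linarith) (fun t ht0 ht1 => ⟨?_, ?_⟩) ?_
      · nlinarith
      · nlinarith
      · have : z + (1 - s) • b = v2 := by
          rw [hz, hb]
          simp only [Complex.real_smul]
          push_cast
          ring
        rw [this]
        exact hl2'
    · rw [← neg_smul]
      refine hend (-s) q1 hq1 (by linarith) (fun t ht0 ht1 => ⟨?_, ?_⟩) ?_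
      · nlinarith
      · nlinarith
      · have : z + (-s) • b = v1 := by
          rw [hz, neg_smul]
          ring
        rw [this]
        exact hl1'
    · intro t ht0 ht1
      rw [(hbase t ht0 ht1).2]
      exact Or.inr ⟨_, ⟨s + t, by linarith, by linarith, by rw [hz, add_smul]; ring⟩, rfl⟩
    · -- near `p'` the set is a line
      by_contra hcon
      push Not at hcon
      have hfreq : ∃ᶠ y in 𝓝 (0 : ℂ), M.exp (M.exp p z) y ∈ M.Sg ∪ M.exp p '' L ∧
          cr b y ≠ 0 := by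
        rw [Filter.frequently_iff]
        intro U hU
        obtain ⟨r, hr, hrU⟩ := Metric.mem_nhds_iff.mp hU
        obtain ⟨y, hy1, hy2, hy3⟩ := hcon r hr
        exact ⟨y, hrU hy1, hy2, hy3⟩
      have hD0 : ∀ᶠ y in 𝓝 (0 : ℂ), y ∈ M.Dom (M.exp p z) :=
        (MSurf.isOpen_Dom _).mem_nhds (MSurf.zero_mem_Dom hpS)
      have hfreq2 : ∃ᶠ y in 𝓝 (0 : ℂ), M.exp (M.exp p z) y ∈ M.exp p '' L ∧ cr b y ≠ 0 := by
        refine (hfreq.and_eventually hD0).mono fun y hy => ?_
        obtain ⟨⟨hy1, hy2⟩, hy3⟩ := hy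
        rcases hy1 with hy1 | hy1
        · exact absurd hy1 (MSurf.exp_notMem hy3)
        · exact ⟨hy1, hy2⟩
      set T : Set ℂ := {y | M.exp (M.exp p z) y ∈ M.exp p '' L ∧ cr b y ≠ 0} with hT
      have hne : (𝓝 (0 : ℂ) ⊓ 𝓟 T).NeBot := by
        rw [← nhdsWithin, ← mem_closure_iff_nhdsWithin_neBot, mem_closure_iff_frequently]
        exact hfreq2
      have hW : ((Ultrafilter.of (𝓝 (0 : ℂ) ⊓ 𝓟 T) : Ultrafilter ℂ) : Filter ℂ) ≤ 𝓝 0 ⊓ 𝓟 T :=
        Ultrafilter.of_le _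
      set W : Ultrafilter ℂ := Ultrafilter.of (𝓝 (0 : ℂ) ⊓ 𝓟 T)
      have hW0 : (W : Filter ℂ) ≤ 𝓝 0 := hW.trans inf_le_left
      have hWT : T ∈ W := le_principal_iff.mp (hW.trans inf_le_right)
      have hch : ∀ y ∈ T, ∃ x ∈ L, M.exp p x = M.exp (M.exp p z) y := fun y hy => hy.1
      choose! σ hσL hσe using hch
      have hσW : L ∈ Ultrafilter.map σ W := by
        rw [Ultrafilter.mem_map]
        exact mem_of_superset hWT hσL
      obtain ⟨z', q, hz', hq, hzq⟩ := hlimit (Ultrafilter.map σ W) hσW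
      have h3 : Tendsto (fun y => M.exp p (σ y)) W (𝓝 q) := hq
      have h4 : Tendsto (M.exp (M.exp p z)) W (𝓝 (M.exp p z)) := by
        have h5 : ContinuousAt (M.exp (M.exp p z)) 0 :=
          (MSurf.isTr_exp (M := M) _).continuousOn.continuousAt hD0
        have h6 := h5.tendsto.mono_left hW0
        rwa [MSurf.exp_zero hpS] at h6
      have h5 : q = M.exp p z := by
        refine tendsto_nhds_unique h3 (h4.congr' ?_)
        filter_upwards [hWT] with y hy
        exact (hσe y hy).symm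
      have h6 : z' = z := by
        rcases hzq with ⟨⟨s', hs0', hs1', rfl⟩, h7⟩ | h7
        · rw [h5] at h7
          rcases lt_trichotomy s s' with h8 | h8 | h8
          · exact (hinj s s' hs0 h8 hs1' h7).elim
          · rw [hz, h8]
          · exact (hinj s' s hs0' h8 hs1 h7.symm).elim
        · exact absurd (h5 ▸ h7) hpS
      rw [h6] at hz'
      obtain ⟨ε, hε, hli⟩ := loc_inj hpS
      have h7 : ∀ᶠ y in (W : Filter ℂ), ‖y‖ < ε := by
        have : ball (0 : ℂ) ε ∈ 𝓝 (0 : ℂ) := ball_mem_nhds _ hε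
        filter_upwards [hW0 this] with y hy
        exact mem_ball_zero_iff.mp hy
      have h8 : ∀ᶠ y in (W : Filter ℂ), ‖σ y - z‖ < ε := by
        have : ball z ε ∈ 𝓝 z := ball_mem_nhds _ hε
        have h9 : σ ⁻¹' (ball z ε) ∈ (W : Filter ℂ) := hz' this
        filter_upwards [h9] with y hy
        exact mem_ball_iff_norm.mp hy
      obtain ⟨y, hy1, hy2, hy3⟩ := (h7.and (h8.and hWT)).exists
      obtain ⟨t, ht0, ht1, ht2⟩ := hσL y hy3
      have h9 : σ y - z = (t - s) • b := by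
        rw [ht2, hz, sub_smul]
        ring
      have h10 : M.exp (M.exp p z) (σ y - z) = M.exp (M.exp p z) y := by
        rw [h9, (hbase _ (by linarith) (by linarith)).2, ← h9, add_sub_cancel, hσe y hy3]
      have h11 := hli _ _ hy2 hy1 h10
      apply hy3.2
      rw [← h11, h9, cr_smul_right, cr_self, mul_zero]

end Start

theorem startGraph.{u} (h : HalfEllipse.{u}) : StartGraph.{u} := by
  intro X _ _ _ M p hp
  obtain ⟨R, hR, hRg⟩ := h X M
  refine ⟨2 * R, by linarith, fun g hg => ?_⟩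
  have hg' : ∀ v, M.Closed v → 2 * R < ‖act g v‖ := fun v hv => by
    have := hg v hv
    linarith
  have hvis : ∀ b : ℂ, b ≠ 0 → ∃ v, M.Vis p v ∧ 0 < cr b v ∧ ‖act g v‖ < R := by
    intro b hb
    obtain ⟨z, hz1, hz2, hz3⟩ := hRg g hg' p b hb
    obtain ⟨t, ht0, ht1, ht2⟩ := MSurf.exists_first_hit hp hz3
    refine ⟨t • z, ht2, ?_, ?_⟩
    · rw [cr_smul_right]
      positivity
    · rw [normAct_smul, abs_of_pos ht0]
      nlinarith [norm_nonneg (act g z)]
  obtain ⟨v1, hv1, -, hv1n⟩ := hvis 1 one_ne_zero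
  obtain ⟨w, hw1, hw2, hw3⟩ := hvis v1 hv1.ne_zero
  -- the candidates for the second marked point
  obtain ⟨c, hc0, hc⟩ := exists_norm_le g
  have hfin : {v : ℂ | M.Vis p v ∧ 0 < cr v1 v ∧ ‖act g v‖ < R}.Finite := by
    refine (MSurf.finite_vis M p (c * R)).subset ?_
    rintro v ⟨h1, h2, h3⟩
    exact ⟨(hc v).trans (by gcongr), h1⟩
  obtain ⟨v2, ⟨hv2, hcr, hv2n⟩, hmin⟩ := hfin.exists_minimalFor (fun v => cr v1 v) _ ⟨w, hw1, hw2, hw3⟩
  have hno : ∀ a c : ℝ, 0 ≤ a → 0 < c → a + c ≤ 1 → c < 1 → ¬ M.Vis p (a • v1 + c • v2) := by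
    intro a c ha hc hac hc1 hV
    have h1 : cr v1 (a • v1 + c • v2) = c * cr v1 v2 := by
      rw [cr_add_right, cr_smul_right, cr_smul_right, cr_self]
      ring
    have h2 : ‖act g (a • v1 + c • v2)‖ < R := by
      refine (normAct_add_le _ _ _).trans_lt ?_
      rw [normAct_smul, normAct_smul, abs_of_nonneg ha, abs_of_pos hc]
      nlinarith
    have h3 := hmin (j := a • v1 + c • v2) ⟨hV, by rw [h1]; positivity, h2⟩ (by
      show cr v1 (a • v1 + c • v2) ≤ cr v1 v2
      rw [h1]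
      nlinarith)
    have h4 : cr v1 v2 ≤ cr v1 (a • v1 + c • v2) := h3
    rw [h1] at h4
    nlinarith
  have hU : Start.UU v1 v2 ⊆ M.Dom p := by
    rintro _ ⟨a, c, ha0, hc0, ha1, hc1, hac, rfl⟩
    rcases hc0.eq_or_lt with h0 | h0
    · rw [← h0, zero_smul, add_zero]
      exact hv1.1 a ha0 ha1
    · by_contra hD
      obtain ⟨t, ht0, ht1, ht2⟩ := MSurf.exists_first_hit hp hD
      rw [smul_add, smul_smul, smul_smul] at ht2
      refine hno (t * a) (t * c) (by positivity) (by positivity) ?_ ?_ ht2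
      · nlinarith
      · nlinarith
  obtain ⟨Z, h1, h2, h3, h4⟩ := Start.main hv1 hv2 hcr hU
  refine ⟨Z, v2 - v1, ?_, ?_, h1, h2, h3, h4⟩
  · intro h5
    rw [sub_eq_zero] at h5
    rw [h5, cr_self] at hcr
    exact lt_irrefl _ hcr
  · rw [act_sub']
    refine (norm_sub_le _ _).trans_lt ?_
    linarith

end Pool.Agent.Lib.MP_755177_an
end

section
set_option autoImplicit false

/-!
# The short cylinder theorem from its parts
-/

open Set Filter Topology Complex Metric MeasureTheory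
open scoped MatrixGroups ComplexConjugate

namespace Pool.Agent.Lib.MP_755177_an

universe u

/-- The inductive statement: arbitrarily short complexes of `n` triangles on surfaces without short
closed trajectories. -/
def PP {X : Type u} [TopologicalSpace X] (M : MSurf X) (n : ℕ) : Prop :=
  ∀ ε : ℝ, 0 < ε → ∀ L : ℝ, ∃ (g : SL(2, ℝ)) (Z : Set X) (f : Fin n → ℂ → X)
    (V : Fin n → Fin 3 → ℂ), (∀ v, M.Closed v → L < ‖act g v‖) ∧ M.IsGraph g ε Z ∧
      (∃ p ∈ Z, p ∉ M.Sg) ∧ M.Cpx g ε Z n f V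

theorem PP_zero (hS : StartGraph.{u}) {X : Type u} [TopologicalSpace X] [CompactSpace X]
    [T2Space X] (M : MSurf X) {p₀ : X} (hp₀ : p₀ ∉ M.Sg)
    (hno : ∀ L : ℝ, ∃ g : SL(2, ℝ), ∀ v, M.Closed v → L < ‖act g v‖) : PP M 0 := by
  obtain ⟨R, hR, hSt⟩ := hS X M p₀ hp₀
  intro ε hε L
  set c : ℝ := min 1 (ε / R) with hc
  have hc0 : 0 < c := by positivity
  have hc1 : c ≤ 1 := min_le_left _ _
  obtain ⟨g, hg⟩ := hno (max (2 * R) (L / c))
  obtain ⟨Z, b, hb, hbR, hZc, hZS, hZp, hZe⟩ := hSt g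
    fun v hv => (le_max_left _ _).trans_lt (hg v hv)
  obtain ⟨h, hh1, hh2⟩ := exists_contraction (act_ne_zero (g := g) hb) hc0 hc1
  refine ⟨h * g, Z, Fin.elim0, Fin.elim0, fun v hv => ?_, ⟨hZc, hZS, fun p hp hpS => ⟨b, ?_,
    hZe p hp hpS⟩⟩, hZp, ⟨fun i => i.elim0, fun i => i.elim0, fun i => i.elim0,
    fun i => i.elim0, fun i => i.elim0⟩⟩
  · rw [act_mul']
    have h1 := hg v hv
    have h2 := (hh2 (act g v)).1
    have h3 : L / c < ‖act g v‖ := (le_max_right _ _).trans_lt h1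
    rw [div_lt_iff₀ hc0] at h3
    linarith
  · rw [act_mul', hh1]
    have h4 : c ≤ ε / R := min_le_right _ _
    calc c * ‖act g b‖ < c * R := by gcongr
      _ ≤ ε / R * R := by gcongr
      _ = ε := div_mul_cancel₀ _ hR.ne'

theorem PP_succ (hA : TriArea.{u}) (hF : FreeSide.{u}) (hH : HalfEllipse.{u}) (hAdd : AddTri.{u})
    {X : Type u} [TopologicalSpace X] [CompactSpace X] [T2Space X] [ConnectedSpace X] (M : MSurf X)
    {p₀ : X} (hp₀ : p₀ ∉ M.Sg) {n : ℕ} (hn : PP M n) : PP M (n + 1) := by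
  obtain ⟨c₀, hc₀, hA'⟩ := hA X M p₀ hp₀
  obtain ⟨R, hR, hH'⟩ := hH X M
  intro ε hε L
  -- choose the size of the previous complex
  obtain ⟨s, hs0, hs1, hs2, hs3⟩ : ∃ s : ℝ, 0 < s ∧ s ≤ 1 ∧ s * (R + 4) ≤ ε ∧
      n * (s ^ 2) ^ 2 < c₀ := by
    have h1 : Tendsto (fun s : ℝ => (n : ℝ) * (s ^ 2) ^ 2) (𝓝[>] 0) (𝓝 (n * (0 ^ 2) ^ 2)) :=
      Tendsto.mono_left (Continuous.tendsto (by fun_prop) 0) nhdsWithin_le_nhds
    have h2 : Tendsto (fun s : ℝ => s * (R + 4)) (𝓝[>] 0) (𝓝 (0 * (R + 4))) :=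
      Tendsto.mono_left (Continuous.tendsto (by fun_prop) 0) nhdsWithin_le_nhds
    have h3 : ∀ᶠ s : ℝ in 𝓝[>] 0, 0 < s ∧ s < 1 := by
      filter_upwards [Ioo_mem_nhdsGT (zero_lt_one' ℝ)] with s hs
      exact hs
    have h4 : (n : ℝ) * (0 ^ 2) ^ 2 < c₀ := by simpa using hc₀
    have h5 : 0 * (R + 4) < ε := by simpa using hε
    obtain ⟨s, ⟨hs0, hs1⟩, hs2, hs3⟩ :=
      (h3.and ((h2.eventually (gt_mem_nhds h5)).and (h1.eventually (gt_mem_nhds h4)))).exists
    exact ⟨s, hs0, hs1.le, hs2.le, hs3⟩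
  obtain ⟨g, Z, f, V, hcl, hG, hZp, hCpx⟩ := hn (s ^ 2) (by positivity) (max (2 * R) (L / s))
  have hcl1 : ∀ v, M.Closed v → 2 * R < ‖act g v‖ := fun v hv =>
    (le_max_left _ _).trans_lt (hcl v hv)
  -- the complex does not cover
  have hnc : ∃ x, x ∉ M.Sg ∧ ∀ i, ∀ z ∈ TT (V i), f i z ≠ x := by
    by_contra hcon
    push Not at hcon
    have := hA' g (s ^ 2) Z n f V (by positivity) hG hCpx hcon
    linarith
  obtain ⟨p, hpZ, hp, b, hb, he, hside⟩ := hF X M g (s ^ 2) Z n f V hG hCpx hZp hnc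
  have hb0 : b ≠ 0 := he.ne
  obtain ⟨z, hz, hzR, hzD⟩ := hH' g hcl1 p b hb0
  obtain ⟨t1, t2, z0, ht1, ht2, ht12, hcr, hz0R, hTri, hTD, hTI, _, hdich⟩ :=
    MSurf.exists_tri hG he hp (by positivity) hb hz hzR (fun h => hzD h.2.1)
  have hs21 : s ^ 2 ≤ 1 := by nlinarith
  -- the contracted edge
  set e := z0 - t2 • b with hedef
  have he0 : e ≠ 0 := by
    intro h
    rw [hedef, sub_eq_zero] at h
    rw [h, cr_smul_right, cr_self, mul_zero] at hcr
    exact lt_irrefl _ hcr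
  obtain ⟨h, hh1, hh2⟩ := exists_contraction (act_ne_zero (g := g) he0) hs0 hs1
  have hbs : ‖act g (t2 • b)‖ ≤ s ^ 2 := by
    rw [normAct_smul, abs_of_pos ht2]
    nlinarith [norm_nonneg (act g b)]
  have hen : ‖act g e‖ < R + 2 := by
    rw [hedef, act_sub']
    refine (norm_sub_le _ _).trans_lt ?_
    linarith
  have hold : ∀ v, ‖act g v‖ < s ^ 2 → ‖act (h * g) v‖ < s := by
    intro v hv
    rw [act_mul']
    refine (hh2 (act g v)).2.trans_lt ?_
    calc s⁻¹ * ‖act g v‖ < s⁻¹ * s ^ 2 := by gcongr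
      _ = s := by field_simp
  have hnew1 : ‖act (h * g) e‖ < s * (R + 2) := by
    rw [act_mul', hh1]
    gcongr
  have hsR : s < s * (R + 4) := by nlinarith
  have hε1 : ∀ v, ‖act g v‖ < s ^ 2 → ‖act (h * g) v‖ < ε := fun v hv => by
    have := hold v hv
    linarith
  have hVs : ∀ j, ‖act (h * g) (MSurf.newV t1 t2 b z0 (j + 1) - MSurf.newV t1 t2 b z0 j)‖ < ε := by
    intro j
    fin_cases j
    · show ‖act (h * g) (t2 • b - -(t1 • b))‖ < ε
      have h1 : t2 • b - -(t1 • b) = b := by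
        rw [sub_neg_eq_add, ← add_smul, add_comm t2 t1, ht12, one_smul]
      rw [h1]
      exact hε1 b hb
    · show ‖act (h * g) (z0 - t2 • b)‖ < ε
      have h2 : s * (R + 2) ≤ s * (R + 4) := by gcongr; linarith
      linarith
    · show ‖act (h * g) (-(t1 • b) - z0)‖ < ε
      have h1 : -(t1 • b) - z0 = -(e + b) := by
        have h2 : t2 = 1 - t1 := by linarith
        rw [hedef, h2, sub_smul, one_smul]
        ring
      rw [h1, act_neg', norm_neg]
      refine (normAct_add_le _ _ _).trans_lt ?_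
      have h2 := hold b hb
      have h3 : s * (R + 2) + s ≤ s * (R + 4) := by nlinarith
      linarith
  obtain ⟨Z', f', V', hZZ, hG', hCpx'⟩ := hAdd X M g (s ^ 2) Z n f V p b t1 t2 z0 hG hCpx hp he
    hside ht1 ht2 ht12 hcr hTri hTD hTI hdich (h * g) ε hε1 hVs
  refine ⟨h * g, Z', f', V', fun v hv => ?_, hG', ⟨p, hZZ hpZ, hp⟩, hCpx'⟩
  rw [act_mul']
  have h1 := hcl v hv
  have h2 := (hh2 (act g v)).1
  have h3 : L / s < ‖act g v‖ := (le_max_right _ _).trans_lt h1
  rw [div_lt_iff₀ hs0] at h3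
  linarith

theorem shortCyl (hC : TriCount.{u}) (hA : TriArea.{u}) (hF : FreeSide.{u}) (hH : HalfEllipse.{u})
    (hAdd : AddTri.{u}) (hS : StartGraph.{u}) : ShortCyl.{u} := by
  intro X _ _ _ _ M hSg
  by_contra hcon
  push Not at hcon
  -- a regular point
  have hp₀ : ∃ p₀, p₀ ∉ M.Sg := by
    obtain ⟨q, hq⟩ := hSg
    obtain ⟨C⟩ := MSurf.exists_cone (M := M) q
    obtain ⟨y, hy, hy0⟩ : ∃ y : ℂ, ‖y‖ ^ C.k ≤ 2 * C.r ∧ y ≠ 0 := by
      have hr := C.hr
      refine ⟨(min 1 (2 * C.r) : ℝ), ?_, ?_⟩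
      · have h1 : 0 < min 1 (2 * C.r) := by positivity
        rw [Complex.norm_real, Real.norm_of_nonneg h1.le]
        exact (pow_le_of_le_one h1.le (min_le_left _ _) C.hk.ne').trans (min_le_right _ _)
      · have h1 : 0 < min 1 (2 * C.r) := by positivity
        exact_mod_cast h1.ne'
    have hyt := C.tgt y hy
    refine ⟨C.ζ.symm y, fun h => hy0 ?_⟩
    have h1 := C.hSg _ (C.ζ.map_target hyt) h
    rw [← C.ζ.right_inv hyt, h1, C.zero]
  obtain ⟨p₀, hp₀⟩ := hp₀
  have hPP : ∀ n, PP M n := by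
    intro n
    induction n with
    | zero => exact PP_zero hS M hp₀ hcon
    | succ n ih => exact PP_succ hA hF hH hAdd M hp₀ ih
  obtain ⟨N, hN⟩ := hC X M
  obtain ⟨g, Z, f, V, -, -, -, hCpx⟩ := hPP (N + 1) 1 one_pos 0
  have := hN (N + 1) f V hCpx.tri hCpx.disj
  omega

end Pool.Agent.Lib.MP_755177_an
end
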