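import Pool.Agent.Lib.MP_755177_an.Defs2
import Pool.Agent.Lib.MP_755177_an.Finite

section
set_option autoImplicit false

/-!
# Algebra of the cross product and of the linear action
-/

open Set Filter Topology Complex Metric
open scoped MatrixGroups ComplexConjugate

namespace Pool.Agent.Lib.MP_755177_an

theorem cr_add_right (v w x : ℂ) : cr v (w + x) = cr v w + cr v x := by
  simp only [cr_eq, Complex.add_re, Complex.add_im]
  ring

theorem cr_sub_right (v w x : ℂ) : cr v (w - x) = cr v w - cr v x := by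
  simp only [cr_eq, Complex.sub_re, Complex.sub_im]
  ring

theorem cr_neg_right (v w : ℂ) : cr v (-w) = -cr v w := by
  simp only [cr_eq, Complex.neg_re, Complex.neg_im]
  ring

theorem cr_smul_right (t : ℝ) (v w : ℂ) : cr v (t • w) = t * cr v w := by
  simp only [cr_eq, Complex.smul_re, Complex.smul_im, smul_eq_mul]
  ring

theorem cr_add_left (v w x : ℂ) : cr (v + w) x = cr v x + cr w x := by
  simp only [cr_eq, Complex.add_re, Complex.add_im]
  ring

theorem cr_sub_left (v w x : ℂ) : cr (v - w) x = cr v x - cr w x := by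
  simp only [cr_eq, Complex.sub_re, Complex.sub_im]
  ring

theorem cr_neg_left (v w : ℂ) : cr (-v) w = -cr v w := by
  simp only [cr_eq, Complex.neg_re, Complex.neg_im]
  ring

theorem cr_smul_left (t : ℝ) (v w : ℂ) : cr (t • v) w = t * cr v w := by
  simp only [cr_eq, Complex.smul_re, Complex.smul_im, smul_eq_mul]
  ring

@[simp] theorem cr_self (v : ℂ) : cr v v = 0 := by
  rw [cr_eq]
  ring

@[simp] theorem cr_zero_right (v : ℂ) : cr v 0 = 0 := by
  simp [cr_eq]

@[simp] theorem cr_zero_left (v : ℂ) : cr 0 v = 0 := by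
  simp [cr_eq]

theorem cr_swap (v w : ℂ) : cr v w = -cr w v := by
  simp only [cr_eq]
  ring

theorem continuous_cr (v : ℂ) : Continuous (cr v) := by
  unfold cr
  fun_prop

@[fun_prop] theorem continuous_cr_right (v : ℂ) : Continuous (fun z => cr v z) := continuous_cr v

theorem isLinear_cr (v : ℂ) : IsLinearMap ℝ (cr v) :=
  ⟨fun w x => cr_add_right v w x, fun t w => by rw [cr_smul_right, smul_eq_mul]⟩

theorem exists_smul_of_cr_eq_zero {v w : ℂ} (hv : v ≠ 0) (h : cr v w = 0) : ∃ t : ℝ, w = t • v := by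
  have hn : v.re * v.re + v.im * v.im ≠ 0 := by
    rw [← Complex.normSq_apply]
    exact (Complex.normSq_pos.mpr hv).ne'
  refine ⟨(v.re * w.re + v.im * w.im) / (v.re * v.re + v.im * v.im), ?_⟩
  rw [cr_eq] at h
  apply Complex.ext
  · rw [Complex.smul_re, smul_eq_mul, div_mul_eq_mul_div, eq_div_iff hn]
    linear_combination -v.im * h
  · rw [Complex.smul_im, smul_eq_mul, div_mul_eq_mul_div, eq_div_iff hn]
    linear_combination v.re * h

theorem cr_ne_zero_of {v w : ℂ} (hv : v ≠ 0) (h : ¬ ∃ t : ℝ, w = t • v) : cr v w ≠ 0 :=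
  fun h0 => h (exists_smul_of_cr_eq_zero hv h0)

/-- The action as a linear map. -/
noncomputable def actL (g : SL(2, ℝ)) : ℂ →ₗ[ℝ] ℂ where
  toFun := act g
  map_add' z w := by
    apply Complex.ext <;> simp [act] <;> ring
  map_smul' t z := by
    apply Complex.ext <;> simp [act] <;> ring

@[simp] theorem actL_apply (g : SL(2, ℝ)) (z : ℂ) : actL g z = act g z := rfl

theorem act_add' (g : SL(2, ℝ)) (z w : ℂ) : act g (z + w) = act g z + act g w := (actL g).map_add z w

theorem act_sub' (g : SL(2, ℝ)) (z w : ℂ) : act g (z - w) = act g z - act g w := (actL g).map_sub z w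

theorem act_neg' (g : SL(2, ℝ)) (z : ℂ) : act g (-z) = -act g z := (actL g).map_neg z

theorem act_smul' (g : SL(2, ℝ)) (t : ℝ) (z : ℂ) : act g (t • z) = t • act g z := (actL g).map_smul t z

@[simp] theorem act_zero' (g : SL(2, ℝ)) : act g 0 = 0 := (actL g).map_zero

theorem act_mul' (g h : SL(2, ℝ)) (z : ℂ) : act (g * h) z = act g (act h z) := by
  apply Complex.ext <;> simp [act, Matrix.mul_apply, Fin.sum_univ_two] <;> ring

@[simp] theorem act_one' (z : ℂ) : act 1 z = z := by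
  apply Complex.ext <;> simp [act]

theorem act_inv_act' (g : SL(2, ℝ)) (z : ℂ) : act g⁻¹ (act g z) = z := by
  rw [← act_mul', inv_mul_cancel, act_one']

theorem act_act_inv' (g : SL(2, ℝ)) (z : ℂ) : act g (act g⁻¹ z) = z := by
  rw [← act_mul', mul_inv_cancel, act_one']

theorem act_ne_zero {g : SL(2, ℝ)} {z : ℂ} (hz : z ≠ 0) : act g z ≠ 0 := by
  intro h
  apply hz
  rw [← act_inv_act' g z, h, act_zero']

@[fun_prop] theorem continuous_act' (g : SL(2, ℝ)) : Continuous (act g) :=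
  (actL g).continuous_of_finiteDimensional

theorem normAct_add_le (g : SL(2, ℝ)) (z w : ℂ) : ‖act g (z + w)‖ ≤ ‖act g z‖ + ‖act g w‖ := by
  rw [act_add']
  exact norm_add_le _ _

theorem normAct_smul (g : SL(2, ℝ)) (t : ℝ) (z : ℂ) : ‖act g (t • z)‖ = |t| * ‖act g z‖ := by
  rw [act_smul', norm_smul, Real.norm_eq_abs]

theorem convex_normAct_le (g : SL(2, ℝ)) (R : ℝ) : Convex ℝ {z : ℂ | ‖act g z‖ ≤ R} := by
  have : {z : ℂ | ‖act g z‖ ≤ R} = (actL g) ⁻¹' (closedBall 0 R) := by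
    ext z
    simp
  rw [this]
  exact (convex_closedBall _ _).linear_preimage _

theorem convex_normAct_lt (g : SL(2, ℝ)) (R : ℝ) : Convex ℝ {z : ℂ | ‖act g z‖ < R} := by
  have : {z : ℂ | ‖act g z‖ < R} = (actL g) ⁻¹' (ball 0 R) := by
    ext z
    simp
  rw [this]
  exact (convex_ball _ _).linear_preimage _

theorem isOpen_normAct_lt (g : SL(2, ℝ)) (R : ℝ) : IsOpen {z : ℂ | ‖act g z‖ < R} :=
  isOpen_lt (by fun_prop) (by fun_prop)

/-- The two norms are comparable. -/
theorem exists_norm_le (g : SL(2, ℝ)) : ∃ c : ℝ, 0 < c ∧ ∀ z, ‖z‖ ≤ c * ‖act g z‖ := by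
  have h := (actL g⁻¹).toContinuousLinearMap.le_opNorm
  refine ⟨‖(actL g⁻¹).toContinuousLinearMap‖ + 1, by positivity, fun z => ?_⟩
  have h1 := h (act g z)
  have h2 : (actL g⁻¹).toContinuousLinearMap (act g z) = z := act_inv_act' g z
  rw [h2] at h1
  nlinarith [norm_nonneg (act g z)]

/-- Contraction of a given vector. -/
theorem exists_contraction {e : ℂ} (he : e ≠ 0) {c : ℝ} (hc0 : 0 < c) (hc1 : c ≤ 1) :
    ∃ h : SL(2, ℝ), ‖act h e‖ = c * ‖e‖ ∧ ∀ z, c * ‖z‖ ≤ ‖act h z‖ ∧ ‖act h z‖ ≤ c⁻¹ * ‖z‖ := by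
  set n := ‖e‖ with hn
  have hn0 : 0 < n := norm_pos_iff.mpr he
  set p := e.re / n with hp
  set q := e.im / n with hq
  have hpq : p ^ 2 + q ^ 2 = 1 := by
    rw [hp, hq, div_pow, div_pow, ← add_div, div_eq_one_iff_eq (by positivity), hn,
      ← Complex.normSq_eq_norm_sq, Complex.normSq_apply]
    ring
  have hcc : c * c⁻¹ = 1 := mul_inv_cancel₀ hc0.ne'
  set d := c⁻¹ with hd
  have hd1 : 1 ≤ d := by
    rw [hd]
    exact (one_le_inv₀ hc0).mpr hc1
  have hdet : (!![c * p ^ 2 + d * q ^ 2, (c - d) * (p * q); (c - d) * (p * q),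
      c * q ^ 2 + d * p ^ 2] : Matrix (Fin 2) (Fin 2) ℝ).det = 1 := by
    rw [Matrix.det_fin_two_of]
    have : (c * p ^ 2 + d * q ^ 2) * (c * q ^ 2 + d * p ^ 2) - (c - d) * (p * q) *
        ((c - d) * (p * q)) = c * d * (p ^ 2 + q ^ 2) ^ 2 := by ring
    rw [this, hcc, hpq]
    norm_num
  have key : ∀ z : ℂ, ‖act ⟨_, hdet⟩ z‖ ^ 2 =
      c ^ 2 * (p * z.re + q * z.im) ^ 2 + d ^ 2 * (p * z.im - q * z.re) ^ 2 := by
    intro z
    rw [← Complex.normSq_eq_norm_sq, Complex.normSq_apply]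
    simp only [act, Matrix.of_apply, Matrix.cons_val',
      Matrix.cons_val_zero, Matrix.cons_val_one, Matrix.cons_val_fin_one]
    have h1 : (c * p ^ 2 + d * q ^ 2) * z.re + (c - d) * (p * q) * z.im =
        c * p * (p * z.re + q * z.im) - d * q * (p * z.im - q * z.re) := by ring
    have h2 : (c - d) * (p * q) * z.re + (c * q ^ 2 + d * p ^ 2) * z.im =
        c * q * (p * z.re + q * z.im) + d * p * (p * z.im - q * z.re) := by ring
    rw [h1, h2]
    have h3 : (c * p * (p * z.re + q * z.im) - d * q * (p * z.im - q * z.re)) *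
        (c * p * (p * z.re + q * z.im) - d * q * (p * z.im - q * z.re)) +
        (c * q * (p * z.re + q * z.im) + d * p * (p * z.im - q * z.re)) *
        (c * q * (p * z.re + q * z.im) + d * p * (p * z.im - q * z.re)) =
        (p ^ 2 + q ^ 2) * (c ^ 2 * (p * z.re + q * z.im) ^ 2 +
          d ^ 2 * (p * z.im - q * z.re) ^ 2) := by ring
    rw [h3, hpq, one_mul]
  have hz : ∀ z : ℂ, ‖z‖ ^ 2 = (p * z.re + q * z.im) ^ 2 + (p * z.im - q * z.re) ^ 2 := by
    intro z
    rw [← Complex.normSq_eq_norm_sq, Complex.normSq_apply]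
    have : (p * z.re + q * z.im) ^ 2 + (p * z.im - q * z.re) ^ 2 =
        (p ^ 2 + q ^ 2) * (z.re * z.re + z.im * z.im) := by ring
    rw [this, hpq, one_mul]
  have hcd : c ^ 2 ≤ 1 := by nlinarith
  have hdd : 1 ≤ d ^ 2 := by nlinarith
  refine ⟨⟨_, hdet⟩, ?_, fun z => ⟨?_, ?_⟩⟩
  · have h1 := key e
    have h2 : p * e.im - q * e.re = 0 := by
      rw [hp, hq]
      ring
    have h3 := hz e
    rw [h2] at h1 h3
    have h4 : ‖act ⟨_, hdet⟩ e‖ ^ 2 = (c * n) ^ 2 := by
      rw [h1, mul_pow, hn, h3]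
      ring
    exact (pow_left_inj₀ (norm_nonneg _) (by positivity) two_ne_zero).mp h4
  · refine le_of_sq_le_sq ?_ (norm_nonneg _)
    rw [key z, mul_pow, hz z]
    have : c ^ 2 * (p * z.im - q * z.re) ^ 2 ≤ d ^ 2 * (p * z.im - q * z.re) ^ 2 := by
      gcongr
      linarith
    linarith
  · refine le_of_sq_le_sq ?_ (by positivity)
    rw [key z, mul_pow, hz z]
    have : c ^ 2 * (p * z.re + q * z.im) ^ 2 ≤ d ^ 2 * (p * z.re + q * z.im) ^ 2 := by
      gcongr
      linarith
    linarith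

end Pool.Agent.Lib.MP_755177_an
end

section
set_option autoImplicit false

/-!
# Graphs of short saddle connections and sweeping
-/

open Set Filter Topology Complex Metric
open scoped MatrixGroups ComplexConjugate

namespace Pool.Agent.Lib.MP_755177_an

theorem isOpen_star {U : Set ℂ} (hU : IsOpen U) : IsOpen {z : ℂ | segment ℝ 0 z ⊆ U} := by
  rw [isOpen_iff_mem_nhds]
  intro z hz
  have hcomp : IsCompact (segment ℝ 0 z) := by
    rw [segment_eq_image]
    exact isCompact_Icc.image (by fun_prop)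
  obtain ⟨δ, hδ, h⟩ := hcomp.exists_thickening_subset_open hU hz
  have h0 : (0 : ℂ) ∈ thickening δ (segment ℝ 0 z) :=
    self_subset_thickening hδ _ (left_mem_segment ℝ _ _)
  have h1 : thickening δ (segment ℝ 0 z) ∈ 𝓝 z :=
    isOpen_thickening.mem_nhds (self_subset_thickening hδ _ (right_mem_segment ℝ _ _))
  filter_upwards [h1] with y hy
  exact (((convex_segment 0 z).thickening δ).segment_subset h0 hy).trans h

namespace MSurf

variable {X : Type*} [TopologicalSpace X] {M : MSurf X}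

variable (M) in
/-- `p` lies on the saddle connection of holonomy `b`, contained in `Z`, and `Z` is a straight
segment near `p`. -/
def EdgeAt (Z : Set X) (p : X) (b : ℂ) : Prop :=
  ∃ t1 t2 : ℝ, 0 < t1 ∧ 0 < t2 ∧ t1 + t2 = 1 ∧ M.Vis p (t2 • b) ∧ M.Vis p (-(t1 • b)) ∧
    (∀ t : ℝ, -t1 < t → t < t2 → M.exp p (t • b) ∈ Z) ∧
    ∃ r > 0, ∀ z ∈ ball (0 : ℂ) r, M.exp p z ∈ Z → cr b z = 0

variable (M) in
/-- Near the point `y` (in the domain of the exponential map at `p`) the set `Z` is a line in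
direction `c`. -/
def LocalLine (Z : Set X) (p : X) (y c : ℂ) : Prop :=
  ∃ ρ > 0, ∀ u : ℂ, ‖u‖ < ρ → y + u ∈ M.Dom p ∧ (M.exp p (y + u) ∈ Z ↔ cr c u = 0)

variable (M) in
/-- A closed graph of saddle connections of length less than `ε` in the metric `‖act g ·‖`. -/
structure IsGraph (g : SL(2, ℝ)) (ε : ℝ) (Z : Set X) : Prop where
  closed : IsClosed Z
  sub : M.Sg ⊆ Z
  edge : ∀ p ∈ Z, p ∉ M.Sg → ∃ b, ‖act g b‖ < ε ∧ M.EdgeAt Z p b

theorem EdgeAt.neg {Z : Set X} {p : X} {b : ℂ} (h : M.EdgeAt Z p b) : M.EdgeAt Z p (-b) := by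
  obtain ⟨t1, t2, h1, h2, h3, h4, h5, h6, r, hr, h7⟩ := h
  refine ⟨t2, t1, h2, h1, by linarith, ?_, ?_, ?_, r, hr, ?_⟩
  · rwa [smul_neg]
  · rwa [smul_neg, neg_neg]
  · intro t ht1 ht2
    rw [smul_neg, ← neg_smul]
    exact h6 (-t) (by linarith) (by linarith)
  · intro z hz hZ
    rw [cr_neg_left, h7 z hz hZ, neg_zero]

theorem EdgeAt.ne {Z : Set X} {p : X} {b : ℂ} (h : M.EdgeAt Z p b) : b ≠ 0 := by
  obtain ⟨t1, t2, h1, h2, h3, h4, h5, h6, r, hr, h7⟩ := h
  rintro rfl
  exact h4.ne_zero (smul_zero _)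

/-- The exponential map near a point of its domain, seen from that point. -/
theorem exp_base_near [T2Space X] {p : X} {y : ℂ} (hy : y ∈ M.Dom p) : ∃ ρ > 0, ∀ u : ℂ, ‖u‖ < ρ →
    y + u ∈ M.Dom p ∧ u ∈ M.Dom (M.exp p y) ∧ M.exp (M.exp p y) u = M.exp p (y + u) := by
  obtain ⟨ρ, hρ, hb⟩ := Metric.isOpen_iff.mp (isOpen_Dom p) y hy
  refine ⟨ρ, hρ, fun u hu => ?_⟩
  have hm : y + u ∈ ball y ρ := by
    rw [mem_ball_iff_norm, add_sub_cancel_left]
    exact hu
  have := exp_exp (M := M) (p := p) (v := y) hb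
    (fun z hz => (convex_ball y ρ).segment_subset (mem_ball_self hρ) hz) hm
  rw [add_sub_cancel_left] at this
  exact ⟨hb hm, this⟩

theorem IsGraph.localLine [T2Space X] {g : SL(2, ℝ)} {ε : ℝ} {Z : Set X} (hZ : M.IsGraph g ε Z)
    {p : X} {y : ℂ} (hy : y ∈ M.Dom p) (hyZ : M.exp p y ∈ Z) :
    ∃ c, ‖act g c‖ < ε ∧ M.EdgeAt Z (M.exp p y) c ∧ M.LocalLine Z p y c := by
  obtain ⟨c, hc, he⟩ := hZ.edge _ hyZ (exp_notMem hy)
  refine ⟨c, hc, he, ?_⟩
  have hc0 := he.ne
  obtain ⟨t1, t2, h1, h2, h3, h4, h5, h6, r, hr, h7⟩ := he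
  obtain ⟨ρ, hρ, hb⟩ := exp_base_near hy
  have hcn : 0 < ‖c‖ := norm_pos_iff.mpr hc0
  refine ⟨min ρ (min r (min t1 t2 * ‖c‖)), by positivity, fun u hu => ?_⟩
  obtain ⟨hu1, hu2, hu3⟩ := hb u (hu.trans_le (min_le_left _ _))
  have hur : ‖u‖ < r := hu.trans_le ((min_le_right _ _).trans (min_le_left _ _))
  have hut : ‖u‖ < min t1 t2 * ‖c‖ := hu.trans_le ((min_le_right _ _).trans (min_le_right _ _))
  refine ⟨hu1, ?_⟩
  rw [← hu3]
  constructor
  · intro h
    exact h7 u (by rwa [mem_ball_zero_iff]) h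
  · intro h
    obtain ⟨t, rfl⟩ := exists_smul_of_cr_eq_zero hc0 h
    rw [norm_smul, Real.norm_eq_abs] at hut
    have ht : |t| < min t1 t2 := lt_of_mul_lt_mul_right hut hcn.le
    rw [abs_lt] at ht
    exact h6 t (by have := min_le_left t1 t2; linarith) (by have := min_le_right t1 t2; linarith)

variable (M) in
/-- The points of the upper side of `b` which are seen from `p` without crossing `Z`. -/
def Free (Z : Set X) (p : X) (b : ℂ) : Set ℂ :=
  {z | 0 < cr b z ∧ z ∈ M.Dom p ∧ ∀ s : ℝ, 0 < s → s ≤ 1 → M.exp p (s • z) ∉ Z}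

section Sweep

variable [T2Space X] {g : SL(2, ℝ)} {ε : ℝ} {Z : Set X} {p : X} {b : ℂ}

theorem Free.smul {z : ℂ} (hz : z ∈ M.Free Z p b) {s : ℝ} (h0 : 0 < s) (h1 : s ≤ 1) :
    s • z ∈ M.Free Z p b := by
  refine ⟨?_, smul_mem_Dom hz.2.1 h0.le h1, fun t ht0 ht1 => ?_⟩
  · rw [cr_smul_right]
    exact mul_pos h0 hz.1
  · rw [smul_smul]
    exact hz.2.2 (t * s) (by positivity) (by nlinarith)

/-- The open set whose star is the free region. -/
theorem free_aux (hZ : M.IsGraph g ε Z) (he : M.EdgeAt Z p b) (hp : p ∉ M.Sg) :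
    ∃ O : Set ℂ, IsOpen O ∧ (0 : ℂ) ∈ O ∧ (∀ z ∈ O, 0 < cr b z → z ∈ M.Dom p ∧ M.exp p z ∉ Z) ∧
      ∀ z ∈ M.Dom p, M.exp p z ∉ Z → z ∈ O := by
  obtain ⟨t1, t2, h1, h2, h3, h4, h5, h6, r, hr, h7⟩ := he
  have h0 := zero_mem_Dom hp
  obtain ⟨ρ, hρ, hb⟩ := Metric.isOpen_iff.mp (isOpen_Dom (M := M) p) 0 h0
  refine ⟨(M.Dom p ∩ M.exp p ⁻¹' Zᶜ) ∪ ball 0 (min r ρ), ?_, ?_, ?_, ?_⟩
  · refine IsOpen.union ?_ isOpen_ball
    exact (isTr_exp p).continuousOn.isOpen_inter_preimage (isOpen_Dom p) hZ.closed.isOpen_compl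
  · right
    exact mem_ball_self (by positivity)
  · rintro z (hz | hz) hcr
    · exact ⟨hz.1, hz.2⟩
    · have hz1 : z ∈ ball (0 : ℂ) r := ball_subset_ball (min_le_left _ _) hz
      have hz2 : z ∈ ball (0 : ℂ) ρ := ball_subset_ball (min_le_right _ _) hz
      exact ⟨hb hz2, fun h => by rw [h7 z hz1 h] at hcr; exact lt_irrefl _ hcr⟩
  · intro z hz hzZ
    left
    exact ⟨hz, hzZ⟩

theorem free_iff (hZ : M.IsGraph g ε Z) (he : M.EdgeAt Z p b) (hp : p ∉ M.Sg) :
    ∃ O : Set ℂ, IsOpen O ∧ (0 : ℂ) ∈ O ∧ (∀ z ∈ O, 0 < cr b z → z ∈ M.Dom p ∧ M.exp p z ∉ Z) ∧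
      (∀ z ∈ M.Dom p, M.exp p z ∉ Z → z ∈ O) ∧
      ∀ z, z ∈ M.Free Z p b ↔ 0 < cr b z ∧ segment ℝ 0 z ⊆ O := by
  obtain ⟨O, hO, h0, h1, h2⟩ := free_aux hZ he hp
  refine ⟨O, hO, h0, h1, h2, fun z => ⟨fun hz => ⟨hz.1, ?_⟩, fun hz => ⟨hz.1, ?_, ?_⟩⟩⟩
  · intro w hw
    rw [segment_eq_image] at hw
    obtain ⟨s, hs, rfl⟩ := hw
    simp only [smul_zero, zero_add]
    rcases hs.1.eq_or_lt with h | h
    · rw [← h, zero_smul]
      exact h0
    · have := Free.smul hz h hs.2
      exact h2 _ this.2.1 (by simpa using this.2.2 1 one_pos le_rfl)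
  · exact (h1 z (hz.2 (right_mem_segment ℝ _ _)) hz.1).1
  · intro s hs0 hs1
    refine (h1 (s • z) (hz.2 (smul_mem_segment_zero hs0.le hs1)) ?_).2
    rw [cr_smul_right]
    exact mul_pos hs0 hz.1

theorem isOpen_free (hZ : M.IsGraph g ε Z) (he : M.EdgeAt Z p b) (hp : p ∉ M.Sg) :
    IsOpen (M.Free Z p b) := by
  obtain ⟨O, hO, h0, h1, h2, h3⟩ := free_iff hZ he hp
  have : M.Free Z p b = {z | 0 < cr b z} ∩ {z | segment ℝ 0 z ⊆ O} := by
    ext z
    exact h3 z
  rw [this]
  exact (isOpen_lt continuous_const (continuous_cr b)).inter (isOpen_star hO)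

/-- First obstacle on a ray. -/
theorem free_first_hit (hZ : M.IsGraph g ε Z) (he : M.EdgeAt Z p b) (hp : p ∉ M.Sg) {z : ℂ}
    (hz : 0 < cr b z) (hzF : z ∉ M.Free Z p b) :
    ∃ t : ℝ, 0 < t ∧ t ≤ 1 ∧ (∀ s : ℝ, 0 < s → s < 1 → s • (t • z) ∈ M.Free Z p b) ∧
      (M.Vis p (t • z) ∨ (t • z ∈ M.Dom p ∧ M.exp p (t • z) ∈ Z)) := by
  obtain ⟨O, hO, h0, h1, h2, h3⟩ := free_iff hZ he hp
  set B : Set ℝ := Icc 0 1 ∩ {t : ℝ | t • z ∈ Oᶜ} with hB
  have hcl : IsClosed B := isClosed_Icc.inter (IsClosed.preimage (by fun_prop) hO.isClosed_compl)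
  have hne : B.Nonempty := by
    have h4 : ¬ segment ℝ 0 z ⊆ O := fun h => hzF ((h3 z).mpr ⟨hz, h⟩)
    rw [not_subset] at h4
    obtain ⟨w, hw, hwO⟩ := h4
    rw [segment_eq_image] at hw
    obtain ⟨s, hs, rfl⟩ := hw
    simp only [smul_zero, zero_add] at hwO
    exact ⟨s, hs, hwO⟩
  have hbd : BddBelow B := ⟨0, fun t ht => ht.1.1⟩
  have hmem := hcl.csInf_mem hne hbd
  set t := sInf B with ht
  have ht0 : t ≠ 0 := by
    intro h
    have h4 : t • z ∈ Oᶜ := hmem.2
    rw [h, zero_smul] at h4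
    exact h4 h0
  have htpos : 0 < t := lt_of_le_of_ne hmem.1.1 ht0.symm
  have hlt : ∀ s : ℝ, 0 ≤ s → s < t → s • z ∈ O := by
    intro s hs0 hs1
    by_contra h
    have h4 : s ∈ B := ⟨⟨hs0, hs1.le.trans hmem.1.2⟩, h⟩
    exact absurd (csInf_le hbd h4) (not_le.mpr hs1)
  have hfree : ∀ s : ℝ, 0 < s → s < 1 → s • (t • z) ∈ M.Free Z p b := by
    intro s hs0 hs1
    rw [h3, smul_smul]
    refine ⟨?_, ?_⟩
    · rw [cr_smul_right]
      positivity
    · intro w hw
      rw [segment_eq_image] at hw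
      obtain ⟨s', hs', rfl⟩ := hw
      simp only [smul_zero, zero_add, smul_smul]
      refine hlt _ (by have := hs'.1; positivity) ?_
      have h5 : s' * (s * t) ≤ 1 * (s * t) := by
        have := hs'.2
        gcongr
      nlinarith
  refine ⟨t, htpos, hmem.1.2, hfree, ?_⟩
  have hcr : 0 < cr b (t • z) := by
    rw [cr_smul_right]
    positivity
  by_cases hD : t • z ∈ M.Dom p
  · right
    refine ⟨hD, ?_⟩
    by_contra hnZ
    exact hmem.2 (h2 _ hD hnZ)
  · left
    refine ⟨fun s hs0 hs1 => ?_, hD⟩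
    rcases hs0.eq_or_lt with h | h
    · rw [← h, zero_smul]
      exact zero_mem_Dom hp
    · exact (hfree s h hs1).2.1

/-- The sweeping lemma: the line of `Z` through `y` is followed as long as no marked point is
seen. -/
theorem sweep (hZ : M.IsGraph g ε Z) (he : M.EdgeAt Z p b) (hp : p ∉ M.Sg) {y c : ℂ}
    (hc : c ≠ 0) (hyc : cr c y ≠ 0) {S : Set ℝ} (hS : IsPreconnected S) (h0S : (0 : ℝ) ∈ S)
    (hpos : ∀ σ ∈ S, 0 < cr b (y + σ • c))
    (hNV : ∀ σ ∈ S, ∀ τ : ℝ, 0 < τ → τ ≤ 1 → M.Vis p (τ • (y + σ • c)) →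
      (∀ s : ℝ, 0 < s → s < 1 → s • (τ • (y + σ • c)) ∈ M.Free Z p b) → False)
    (h0 : ∀ s : ℝ, 0 < s → s < 1 → s • y ∈ M.Free Z p b) (hl : M.LocalLine Z p y c) :
    ∀ σ ∈ S, (∀ s : ℝ, 0 < s → s < 1 → s • (y + σ • c) ∈ M.Free Z p b) ∧
      M.LocalLine Z p (y + σ • c) c := by
  obtain ⟨O, hO, hO0, hO1, hO2, hO3⟩ := free_iff hZ he hp
  have hcrc : ∀ σ : ℝ, cr c (y + σ • c) = cr c y := by
    intro σ
    rw [cr_add_right, cr_smul_right, cr_self, mul_zero, add_zero]
  have hct : ∀ σ : ℝ, Tendsto (fun σ' : ℝ => y + σ' • c) (𝓝[S] σ) (𝓝 (y + σ • c)) := by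
    intro σ
    refine Tendsto.mono_left (Continuous.tendsto (by fun_prop) σ) nhdsWithin_le_nhds
  refine preconnected_induction hS (fun σ hσ hP => ?_) (fun σ hσ hP => ?_) h0S
    ⟨by simpa using h0, by simpa using hl⟩
  · -- openness
    obtain ⟨hF, ρ, hρ, hρ1⟩ := hP
    have hU : segment ℝ 0 (y + σ • c) ⊆ O ∪ ball (y + σ • c) ρ := by
      intro w hw
      rw [segment_eq_image] at hw
      obtain ⟨s, hs, rfl⟩ := hw
      simp only [smul_zero, zero_add]
      rcases hs.1.eq_or_lt with h | h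
      · left
        rw [← h, zero_smul]
        exact hO0
      rcases hs.2.eq_or_lt with h' | h'
      · right
        rw [h', one_smul]
        exact mem_ball_self hρ
      · left
        exact ((hO3 _).mp (hF s h h')).2 (right_mem_segment ℝ _ _)
    have hopen := (isOpen_star (hO.union (isOpen_ball (x := y + σ • c) (ε := ρ))))
    have hev1 : ∀ᶠ σ' in 𝓝[S] σ, segment ℝ 0 (y + σ' • c) ⊆ O ∪ ball (y + σ • c) ρ :=
      (hct σ).eventually (hopen.mem_nhds hU)
    have hev2 : ∀ᶠ σ' in 𝓝[S] σ, y + σ' • c ∈ ball (y + σ • c) (ρ / 2) :=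
      (hct σ).eventually (ball_mem_nhds _ (by positivity))
    filter_upwards [hev1, hev2, self_mem_nhdsWithin] with σ' h1 h2 h3
    have h2' : ‖(σ' - σ) • c‖ < ρ / 2 := by
      have := mem_ball_iff_norm.mp h2
      have h4 : y + σ' • c - (y + σ • c) = (σ' - σ) • c := by
        rw [sub_smul]
        ring
      rwa [h4] at this
    refine ⟨fun s hs0 hs1 => ?_, ρ / 2, by positivity, fun u hu => ?_⟩
    · rw [hO3]
      have hcr : 0 < cr b (s • (y + σ' • c)) := by
        rw [cr_smul_right]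
        exact mul_pos hs0 (hpos σ' h3)
      refine ⟨hcr, ?_⟩
      intro w hw
      rw [segment_eq_image] at hw
      obtain ⟨s', hs', rfl⟩ := hw
      simp only [smul_zero, zero_add, smul_smul]
      have hlt : s' * s < 1 := by
        have := hs'.2
        nlinarith
      have hge : 0 ≤ s' * s := mul_nonneg hs'.1 hs0.le
      rcases h1 (smul_mem_segment_zero hge hlt.le) with h5 | h5
      · exact h5
      · rcases hge.eq_or_lt with h6 | h6
        · rw [← h6, zero_smul]
          exact hO0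
        have h7 : ‖(s' * s) • (y + σ' • c) - (y + σ • c)‖ < ρ := mem_ball_iff_norm.mp h5
        have h8 := hρ1 _ h7
        rw [add_sub_cancel] at h8
        refine hO2 _ h8.1 fun hZ' => ?_
        have h9 := h8.2.mp hZ'
        rw [cr_sub_right, cr_smul_right, hcrc, hcrc] at h9
        have h10 : (s' * s - 1) * cr c y = 0 := by linarith
        rcases mul_eq_zero.mp h10 with h11 | h11
        · linarith
        · exact hyc h11
    · have h4 : ‖(σ' - σ) • c + u‖ < ρ := by
        refine (norm_add_le _ _).trans_lt ?_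
        linarith
      have h5 := hρ1 _ h4
      have h6 : y + σ • c + ((σ' - σ) • c + u) = y + σ' • c + u := by
        rw [sub_smul]
        ring
      rw [h6] at h5
      refine ⟨h5.1, h5.2.trans ?_⟩
      rw [cr_add_right, cr_smul_right, cr_self, mul_zero, zero_add]
  · -- closedness
    have hcrpos := hpos σ hσ
    have hfree : ∀ s : ℝ, 0 < s → s < 1 → s • (y + σ • c) ∈ M.Free Z p b := by
      intro s hs0 hs1
      by_contra hnot
      obtain ⟨t, ht0, ht1, ht2, ht3⟩ := free_first_hit hZ he hp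
        (by rw [cr_smul_right]; positivity) hnot
      rw [smul_smul] at ht2 ht3
      have hts0 : 0 < t * s := by positivity
      have hts1 : t * s < 1 := by nlinarith
      rcases ht3 with h | ⟨h, h'⟩
      · exact hNV σ hσ (t * s) hts0 hts1.le h ht2
      · set x := (t * s) • (y + σ • c) with hx
        obtain ⟨c', _, hec', hlc'⟩ := hZ.localLine h h'
        obtain ⟨ρ, hρ, hρ1⟩ := hlc'
        by_cases hc'x : cr c' x = 0
        · -- the line of `Z` is along the ray
          have hxn : 0 < ‖x‖ := by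
            rw [norm_pos_iff]
            rintro h00
            have h1 : cr b x = (t * s) * cr b (y + σ • c) := by rw [hx, cr_smul_right]
            rw [h00, cr_zero_right] at h1
            have : 0 < (t * s) * cr b (y + σ • c) := by positivity
            linarith
          obtain ⟨δ, hδ0, hδ1, hδ2⟩ : ∃ δ : ℝ, 0 < δ ∧ δ < 1 ∧ δ * ‖x‖ < ρ := by
            refine ⟨min (1 / 2) (ρ / (2 * ‖x‖)), by positivity,
              (min_le_left _ _).trans_lt (by norm_num), ?_⟩
            calc min (1 / 2) (ρ / (2 * ‖x‖)) * ‖x‖ ≤ ρ / (2 * ‖x‖) * ‖x‖ := by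
                  gcongr
                  exact min_le_right _ _
              _ = ρ / 2 := by field_simp
              _ < ρ := by linarith
          have h1 := hρ1 (-(δ • x)) (by
            rw [norm_neg, norm_smul, Real.norm_of_nonneg hδ0.le]
            exact hδ2)
          have h2 : x + -(δ • x) = (1 - δ) • x := by
            rw [sub_smul, one_smul, sub_eq_add_neg]
          rw [h2] at h1
          have h3 := h1.2.mpr (by rw [cr_neg_right, cr_smul_right, hc'x]; ring)
          have h4 := ht2 (1 - δ) (by linarith) (by linarith)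
          exact (by simpa using h4.2.2 1 one_pos le_rfl : M.exp p ((1 - δ) • x) ∉ Z) h3
        · -- the line of `Z` is transverse to the ray
          have h1 : cr c' (y + σ • c) ≠ 0 := by
            intro h2
            apply hc'x
            rw [hx, cr_smul_right, h2, mul_zero]
          have h2 : Tendsto (fun σ' : ℝ => cr c' x / cr c' (y + σ' • c)) (𝓝[S] σ)
              (𝓝 (cr c' x / cr c' (y + σ • c))) := by
            refine Tendsto.div tendsto_const_nhds ?_ h1
            exact ((continuous_cr c').tendsto _).comp (hct σ)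
          have h3 : cr c' x / cr c' (y + σ • c) = t * s := by
            rw [hx, cr_smul_right, mul_div_cancel_right₀ _ h1]
          rw [h3] at h2
          have h4 : Tendsto (fun σ' : ℝ => (cr c' x / cr c' (y + σ' • c)) • (y + σ' • c) - x)
              (𝓝[S] σ) (𝓝 ((t * s) • (y + σ • c) - x)) :=
            (h2.smul (hct σ)).sub_const x
          rw [← hx, sub_self] at h4
          have hev1 : ∀ᶠ σ' in 𝓝[S] σ, ‖(cr c' x / cr c' (y + σ' • c)) • (y + σ' • c) - x‖ < ρ := by
            have := h4.norm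
            rw [norm_zero] at this
            exact this.eventually (gt_mem_nhds hρ)
          have hev2 : ∀ᶠ σ' in 𝓝[S] σ, 0 < cr c' x / cr c' (y + σ' • c) :=
            h2.eventually (lt_mem_nhds hts0)
          have hev3 : ∀ᶠ σ' in 𝓝[S] σ, cr c' x / cr c' (y + σ' • c) < 1 :=
            h2.eventually (gt_mem_nhds hts1)
          obtain ⟨σ', ⟨h5, _⟩, h6, h7, h8⟩ :=
            (hP.and_eventually (hev1.and (hev2.and hev3))).exists
          have h9 := hρ1 _ h6
          rw [add_sub_cancel] at h9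
          have h10 : cr c' (y + σ' • c) ≠ 0 := by
            intro h11
            rw [h11, div_zero] at h7
            exact lt_irrefl _ h7
          have h11 := h9.2.mpr (by
            rw [cr_sub_right, cr_smul_right, div_mul_cancel₀ _ h10, sub_self])
          have h12 := h5 _ h7 h8
          have h13 := h12.2.2 1 one_pos le_rfl
          rw [one_smul] at h13
          exact h13 h11
    refine ⟨hfree, ?_⟩
    have hD : y + σ • c ∈ M.Dom p := by
      by_contra hD
      refine hNV σ hσ 1 one_pos le_rfl ?_ (by simpa using hfree)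
      rw [one_smul]
      refine ⟨fun s hs0 hs1 => ?_, hD⟩
      rcases hs0.eq_or_lt with h | h
      · rw [← h, zero_smul]
        exact zero_mem_Dom hp
      · exact (hfree s h hs1).2.1
    have hcl : M.exp p (y + σ • c) ∈ Z := by
      by_contra hnZ
      have hO' : IsOpen (M.Dom p ∩ M.exp p ⁻¹' Zᶜ) :=
        (isTr_exp p).continuousOn.isOpen_inter_preimage (isOpen_Dom p) hZ.closed.isOpen_compl
      obtain ⟨σ', ⟨_, ρ, hρ, h5⟩, h6⟩ :=
        (hP.and_eventually ((hct σ).eventually (hO'.mem_nhds ⟨hD, hnZ⟩))).exists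
      have h7 := h5 0 (by rwa [norm_zero])
      rw [add_zero] at h7
      exact h6.2 (h7.2.mpr (cr_zero_right c))
    obtain ⟨c', _, hec', ρ, hρ, hρ1⟩ := hZ.localLine hD hcl
    by_cases hcc : cr c' c = 0
    · refine ⟨ρ, hρ, fun u hu => ⟨(hρ1 u hu).1, (hρ1 u hu).2.trans ?_⟩⟩
      obtain ⟨k, hk⟩ := exists_smul_of_cr_eq_zero hec'.ne hcc
      have hk0 : k ≠ 0 := by
        rintro rfl
        rw [zero_smul] at hk
        exact hc hk
      rw [hk, cr_smul_left]
      constructor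
      · intro h
        rw [h, mul_zero]
      · intro h
        exact (mul_eq_zero.mp h).resolve_left hk0
    · -- then `σ` itself is in the set
      have hev : ∀ᶠ σ' in 𝓝[S] σ, y + σ' • c ∈ ball (y + σ • c) ρ :=
        (hct σ).eventually (ball_mem_nhds _ hρ)
      obtain ⟨σ', ⟨h1, h2⟩, h3⟩ := (hP.and_eventually hev).exists
      have h4 : ‖(σ' - σ) • c‖ < ρ := by
        have := mem_ball_iff_norm.mp h3
        have h4 : y + σ' • c - (y + σ • c) = (σ' - σ) • c := by
          rw [sub_smul]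
          ring
        rwa [h4] at this
      have h5 := hρ1 _ h4
      have h6 : y + σ • c + (σ' - σ) • c = y + σ' • c := by
        rw [sub_smul]
        ring
      rw [h6] at h5
      have h7 : M.exp p (y + σ' • c) ∈ Z := by
        obtain ⟨ρ', hρ', h8⟩ := h2
        have h9 := h8 0 (by rwa [norm_zero])
        rw [add_zero] at h9
        exact h9.2.mpr (cr_zero_right c)
      have h8 := h5.2.mp h7
      rw [cr_smul_right] at h8
      have h9 : σ' = σ := by
        rcases mul_eq_zero.mp h8 with h | h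
        · linarith
        · exact absurd h hcc
      rw [h9] at h2
      exact h2

end Sweep

end MSurf

end Pool.Agent.Lib.MP_755177_an
end

section
set_option autoImplicit false

/-!
# Triangles with marked vertices are injective
-/

open Set Filter Topology Complex Metric
open scoped MatrixGroups ComplexConjugate

namespace Pool.Agent.Lib.MP_755177_an

/-- Twice the area of the triangle. -/
def dd (V : Fin 3 → ℂ) : ℝ := cr (V 1 - V 0) (V 2 - V 0)

/-- Unnormalised barycentric coordinates. -/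
def lam (V : Fin 3 → ℂ) (i : Fin 3) (z : ℂ) : ℝ := cr (V (i + 1) - z) (V (i + 2) - z)

theorem lam_zero (V : Fin 3 → ℂ) (z : ℂ) : lam V 0 z = cr (V 1 - z) (V 2 - z) := rfl
theorem lam_one (V : Fin 3 → ℂ) (z : ℂ) : lam V 1 z = cr (V 2 - z) (V 0 - z) := rfl
theorem lam_two (V : Fin 3 → ℂ) (z : ℂ) : lam V 2 z = cr (V 0 - z) (V 1 - z) := rfl

theorem sum_lam (V : Fin 3 → ℂ) (z : ℂ) : lam V 0 z + lam V 1 z + lam V 2 z = dd V := by
  simp only [lam_zero, lam_one, lam_two, dd, cr_eq, Complex.sub_re, Complex.sub_im]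
  ring

theorem lam_self (V : Fin 3 → ℂ) (i : Fin 3) : lam V i (V i) = dd V := by
  fin_cases i
  · simp [lam, dd]
  · show cr (V 2 - V 1) (V 0 - V 1) = dd V
    simp only [dd, cr_eq, Complex.sub_re, Complex.sub_im]
    ring
  · show cr (V 0 - V 2) (V 1 - V 2) = dd V
    simp only [dd, cr_eq, Complex.sub_re, Complex.sub_im]
    ring

theorem lam_ne (V : Fin 3 → ℂ) {i j : Fin 3} (h : i ≠ j) : lam V i (V j) = 0 := by
  fin_cases i <;> fin_cases j <;> first | exact absurd rfl h | simp [lam]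

theorem lam_add (V : Fin 3 → ℂ) (i : Fin 3) (z w : ℂ) :
    lam V i (z + w) = lam V i z + cr w (V (i + 1) - V (i + 2)) := by
  simp only [lam, cr_eq, Complex.sub_re, Complex.sub_im, Complex.add_re, Complex.add_im]
  ring

theorem lam_comb (V : Fin 3 → ℂ) (i : Fin 3) (z w : ℂ) {s t : ℝ} (h : s + t = 1) :
    lam V i (s • z + t • w) = s * lam V i z + t * lam V i w := by
  have hs : s = 1 - t := by linarith
  subst hs
  simp only [lam, cr_eq, Complex.sub_re, Complex.sub_im, Complex.add_re, Complex.add_im,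
    Complex.smul_re, Complex.smul_im, smul_eq_mul]
  ring

theorem bary (V : Fin 3 → ℂ) (z : ℂ) :
    dd V • z = lam V 0 z • V 0 + lam V 1 z • V 1 + lam V 2 z • V 2 := by
  apply Complex.ext
  · simp only [lam_zero, lam_one, lam_two, dd, cr_eq, Complex.sub_re, Complex.sub_im,
      Complex.add_re, Complex.smul_re, smul_eq_mul]
    ring
  · simp only [lam_zero, lam_one, lam_two, dd, cr_eq, Complex.sub_re, Complex.sub_im,
      Complex.add_im, Complex.smul_im, smul_eq_mul]
    ring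

theorem continuous_lam (V : Fin 3 → ℂ) (i : Fin 3) : Continuous (lam V i) := by
  unfold lam cr
  fun_prop

theorem eq_of_lam {V : Fin 3 → ℂ} (hV : dd V ≠ 0) {z w : ℂ} (h : ∀ i, lam V i z = lam V i w) :
    z = w := by
  have h1 := bary V z
  rw [h 0, h 1, h 2, ← bary V w] at h1
  have h2 : dd V • (z - w) = 0 := by rw [smul_sub, h1, sub_self]
  rcases smul_eq_zero.mp h2 with h3 | h3
  · exact absurd h3 hV
  · exact sub_eq_zero.mp h3

/-- The closed triangle. -/
def TC (V : Fin 3 → ℂ) : Set ℂ := {z | ∀ i, 0 ≤ lam V i z}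

/-- The closed triangle without its vertices. -/
def TT (V : Fin 3 → ℂ) : Set ℂ := {z | ∀ i, 0 ≤ lam V i z ∧ lam V i z < dd V}

/-- The open triangle. -/
def TI (V : Fin 3 → ℂ) : Set ℂ := {z | ∀ i, 0 < lam V i z}

theorem lam_le_of_mem_TC {V : Fin 3 → ℂ} {z : ℂ} (h : z ∈ TC V) (i : Fin 3) : lam V i z ≤ dd V := by
  have h0 := h 0
  have h1 := h 1
  have h2 := h 2
  have := sum_lam V z
  fin_cases i
  · show lam V 0 z ≤ _; linarith
  · show lam V 1 z ≤ _; linarith
  · show lam V 2 z ≤ _; linarith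

theorem lam_lt_of_mem_TI {V : Fin 3 → ℂ} {z : ℂ} (h : z ∈ TI V) (i : Fin 3) : lam V i z < dd V := by
  have h0 := h 0
  have h1 := h 1
  have h2 := h 2
  have := sum_lam V z
  fin_cases i
  · show lam V 0 z < _; linarith
  · show lam V 1 z < _; linarith
  · show lam V 2 z < _; linarith

theorem TI_subset_TT (V : Fin 3 → ℂ) : TI V ⊆ TT V :=
  fun _ hz i => ⟨(hz i).le, lam_lt_of_mem_TI hz i⟩

theorem TT_subset_TC (V : Fin 3 → ℂ) : TT V ⊆ TC V := fun _ hz i => (hz i).1

theorem isOpen_TI (V : Fin 3 → ℂ) : IsOpen (TI V) := by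
  have : TI V = ⋂ i, {z | 0 < lam V i z} := by
    ext z
    simp [TI]
  rw [this]
  exact isOpen_iInter_of_finite fun i => isOpen_lt continuous_const (continuous_lam V i)

theorem isClosed_TC (V : Fin 3 → ℂ) : IsClosed (TC V) := by
  have : TC V = ⋂ i, {z | 0 ≤ lam V i z} := by
    ext z
    simp [TC]
  rw [this]
  exact isClosed_iInter fun i => isClosed_le continuous_const (continuous_lam V i)

theorem comb_nonneg {a b x y : ℝ} (ha : 0 ≤ a) (hb : 0 ≤ b) (hx : 0 ≤ x) (hy : 0 ≤ y) :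
    0 ≤ a * x + b * y := by positivity

theorem comb_pos {a b x y : ℝ} (ha : 0 ≤ a) (hb : 0 ≤ b) (hab : a + b = 1) (hx : 0 < x)
    (hy : 0 < y) : 0 < a * x + b * y := by
  rcases ha.eq_or_lt with h | h
  · rw [← h] at hab ⊢
    have : b = 1 := by linarith
    rw [this]
    linarith
  · have := mul_pos h hx
    have := mul_nonneg hb hy.le
    linarith

theorem comb_lt {a b x y d : ℝ} (ha : 0 ≤ a) (hb : 0 ≤ b) (hab : a + b = 1) (hx : x < d)
    (hy : y < d) : a * x + b * y < d := by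
  have h := comb_pos ha hb hab (x := d - x) (y := d - y) (by linarith) (by linarith)
  have : a * (d - x) + b * (d - y) = (a + b) * d - (a * x + b * y) := by ring
  rw [this, hab] at h
  linarith

theorem convex_TC (V : Fin 3 → ℂ) : Convex ℝ (TC V) := by
  intro z hz w hw a b ha hb hab i
  rw [lam_comb V i z w hab]
  exact comb_nonneg ha hb (hz i) (hw i)

theorem convex_TT (V : Fin 3 → ℂ) : Convex ℝ (TT V) := by
  intro z hz w hw a b ha hb hab i
  rw [lam_comb V i z w hab]
  exact ⟨comb_nonneg ha hb (hz i).1 (hw i).1, comb_lt ha hb hab (hz i).2 (hw i).2⟩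

theorem convex_TI (V : Fin 3 → ℂ) : Convex ℝ (TI V) := by
  intro z hz w hw a b ha hb hab i
  rw [lam_comb V i z w hab]
  exact comb_pos ha hb hab (hz i) (hw i)

theorem vertex_mem_TC {V : Fin 3 → ℂ} (hV : 0 < dd V) (i : Fin 3) : V i ∈ TC V := by
  intro j
  by_cases h : j = i
  · rw [h, lam_self]
    exact hV.le
  · rw [lam_ne V h]

/-- Points of the closed triangle which are not vertices. -/
theorem mem_TT_or {V : Fin 3 → ℂ} (hV : 0 < dd V) {z : ℂ} (hz : z ∈ TC V) :
    z ∈ TT V ∨ ∃ i, z = V i := by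
  by_cases h : z ∈ TT V
  · exact Or.inl h
  · right
    have h1 : ∃ i, dd V ≤ lam V i z := by
      by_contra hcon
      push Not at hcon
      exact h fun i => ⟨hz i, hcon i⟩
    obtain ⟨i, hi⟩ := h1
    have h0 := hz 0
    have h1 := hz 1
    have h2 := hz 2
    have hs := sum_lam V z
    refine ⟨i, eq_of_lam hV.ne' fun j => ?_⟩
    by_cases hji : j = i
    · subst hji
      rw [lam_self]
      exact le_antisymm (lam_le_of_mem_TC hz j) hi
    · rw [lam_ne V hji]
      fin_cases i <;> fin_cases j <;> first | exact absurd rfl hji | skip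
      all_goals
        simp only [Fin.zero_eta, Fin.mk_one, Fin.reduceFinMk] at hi ⊢
        linarith

/-- Going from a point of the triangle to a vertex. -/
theorem toward_mem {V : Fin 3 → ℂ} {y z : ℂ} (hy : y ∈ TT V) (hz : z ∈ TC V) {t : ℝ} (h0 : 0 ≤ t)
    (h1 : t < 1) : y + t • (z - y) ∈ TT V := by
  have : y + t • (z - y) = (1 - t) • y + t • z := by
    rw [smul_sub, sub_smul, one_smul]
    ring
  rw [this]
  intro i
  rw [lam_comb V i y z (by ring)]
  have h2 := lam_le_of_mem_TC hz i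
  have h3 := (hy i).2
  have h4 := (hy i).1
  have h5 := hz i
  have h6 : 0 < 1 - t := by linarith
  refine ⟨by positivity, ?_⟩
  nlinarith [mul_pos h6 (sub_pos.mpr h3), mul_nonneg h0 (sub_nonneg.mpr h2)]

namespace MSurf

variable {X : Type*} [TopologicalSpace X] {M : MSurf X}

variable (M) in
/-- A translation map on a triangle with marked vertices. -/
structure Tri (f : ℂ → X) (V : Fin 3 → ℂ) : Prop where
  pos : 0 < dd V
  tr : M.IsTr f (TT V)
  lim : ∀ i, ∃ q ∈ M.Sg, Tendsto f (𝓝[TT V] (V i)) (𝓝 q)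

theorem Tri.core [T2Space X] {f : ℂ → X} {V : Fin 3 → ℂ} (h : M.Tri f V) {y1 y2 : ℂ}
    (hy1 : y1 ∈ TT V) (hy2 : y2 ∈ TT V) (he : f y1 = f y2) (hne : y1 ≠ y2) {i : Fin 3}
    (hi : V i - (y2 - y1) ∈ TC V) : False := by
  obtain ⟨q, hq, hl⟩ := h.lim i
  set S : Set ℂ := (fun t : ℝ => y1 + t • (V i - y2)) '' Ico 0 1 with hS
  have hSp : IsPreconnected S := by
    refine isPreconnected_Ico.image _ (Continuous.continuousOn (by fun_prop))
  have hvi := vertex_mem_TC h.pos i
  have hS1 : ∀ t : ℝ, 0 ≤ t → t < 1 → y1 + t • (V i - y2) ∈ TT V := by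
    intro t h0 h1
    have := toward_mem hy1 hi h0 h1
    have h2 : V i - (y2 - y1) - y1 = V i - y2 := by ring
    rwa [h2] at this
  have hS2 : ∀ t : ℝ, 0 ≤ t → t < 1 → y1 + t • (V i - y2) + (y2 - y1) ∈ TT V := by
    intro t h0 h1
    have := toward_mem hy2 hvi h0 h1
    have h2 : y1 + t • (V i - y2) + (y2 - y1) = y2 + t • (V i - y2) := by ring
    rwa [h2]
  have heq : EqOn f (fun z => f (z + (y2 - y1))) S := by
    refine (h.tr.mono ?_).eqOn ((h.tr.comp_add (y2 - y1)).mono ?_) hSp (z := y1) ?_ ?_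
    · rintro _ ⟨t, ht, rfl⟩
      exact hS1 t ht.1 ht.2
    · rintro _ ⟨t, ht, rfl⟩
      exact hS2 t ht.1 ht.2
    · exact ⟨0, ⟨le_rfl, one_pos⟩, by simp⟩
    · show f y1 = f (y1 + (y2 - y1))
      rw [add_sub_cancel]
      exact he
  have hev : ∀ᶠ t : ℝ in 𝓝[<] 1, 0 ≤ t ∧ t < 1 := by
    filter_upwards [Ioo_mem_nhdsLT (zero_lt_one' ℝ)] with t ht
    exact ⟨ht.1.le, ht.2⟩
  have hl1 : Tendsto (fun t : ℝ => y1 + t • (V i - y2) + (y2 - y1)) (𝓝[<] 1) (𝓝[TT V] (V i)) := by
    rw [tendsto_nhdsWithin_iff]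
    constructor
    · have h1 : Tendsto (fun t : ℝ => y1 + t • (V i - y2) + (y2 - y1)) (𝓝 1)
          (𝓝 (y1 + (1 : ℝ) • (V i - y2) + (y2 - y1))) := Continuous.tendsto (by fun_prop) 1
      have h2 : y1 + (1 : ℝ) • (V i - y2) + (y2 - y1) = V i := by
        rw [one_smul]
        ring
      rw [h2] at h1
      exact h1.mono_left nhdsWithin_le_nhds
    · filter_upwards [hev] with t ht
      exact hS2 t ht.1 ht.2
  have hl2 : Tendsto (fun t : ℝ => f (y1 + t • (V i - y2))) (𝓝[<] 1) (𝓝 q) := by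
    refine (hl.comp hl1).congr' ?_
    filter_upwards [hev] with t ht
    exact (heq ⟨t, ht, rfl⟩).symm
  rcases mem_TT_or h.pos hi with hT | ⟨j, hj⟩
  · have hl3 : Tendsto (fun t : ℝ => y1 + t • (V i - y2)) (𝓝[<] 1)
        (𝓝[TT V] (V i - (y2 - y1))) := by
      rw [tendsto_nhdsWithin_iff]
      constructor
      · have h1 : Tendsto (fun t : ℝ => y1 + t • (V i - y2)) (𝓝 1)
            (𝓝 (y1 + (1 : ℝ) • (V i - y2))) := Continuous.tendsto (by fun_prop) 1
        have h2 : y1 + (1 : ℝ) • (V i - y2) = V i - (y2 - y1) := by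
          rw [one_smul]
          ring
        rw [h2] at h1
        exact h1.mono_left nhdsWithin_le_nhds
      · filter_upwards [hev] with t ht
        exact hS1 t ht.1 ht.2
    have h4 := tendsto_nhds_unique ((h.tr.continuousOn _ hT).tendsto.comp hl3) hl2
    exact h.tr.2 _ hT (h4 ▸ hq)
  · by_cases hij : i = j
    · subst hij
      apply hne
      have : y2 - y1 = 0 := by linear_combination -hj
      exact (sub_eq_zero.mp this).symm
    · have h1 : y2 = y1 + (V i - V j) := by linear_combination -hj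
      have h2 := lam_add V j y1 (V i - V j)
      rw [← h1] at h2
      have h3 := lam_add V j (V j) (V i - V j)
      rw [add_sub_cancel, lam_self, lam_ne V (Ne.symm hij)] at h3
      have h4 := (hy2 j).1
      have h5 := (hy1 j).2
      linarith

/-- A triangle with marked vertices is injective. -/
theorem Tri.injOn [T2Space X] {f : ℂ → X} {V : Fin 3 → ℂ} (h : M.Tri f V) : InjOn f (TT V) := by
  intro y1 hy1 y2 hy2 he
  by_contra hne
  set w := y2 - y1 with hw
  have hd : ∀ j, lam V j y2 = lam V j y1 + cr w (V (j + 1) - V (j + 2)) := by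
    intro j
    rw [← lam_add, hw, add_sub_cancel]
  have hneg : ∀ i j, lam V j (V i - w) = lam V j (V i) - cr w (V (j + 1) - V (j + 2)) := by
    intro i j
    rw [sub_eq_add_neg, lam_add, cr_neg_left]
    ring
  have hpos : ∀ i j, lam V j (V i + w) = lam V j (V i) + cr w (V (j + 1) - V (j + 2)) := by
    intro i j
    rw [lam_add]
  have hsum := sum_lam V y1
  have hsum2 := sum_lam V y2
  rw [hd 0, hd 1, hd 2] at hsum2
  -- the two ways to get a contradiction
  have A : ∀ i, (∀ j, j ≠ i → cr w (V (j + 1) - V (j + 2)) ≤ 0) → False := by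
    intro i hi
    refine h.core hy1 hy2 he hne (i := i) ?_
    intro j
    rw [← hw, hneg]
    by_cases hji : j = i
    · subst hji
      rw [lam_self]
      have h1 := (hy2 j).2
      have h2 := (hy1 j).1
      rw [hd j] at h1
      linarith
    · rw [lam_ne V hji]
      have := hi j hji
      linarith
  have B : ∀ i, (∀ j, j ≠ i → 0 ≤ cr w (V (j + 1) - V (j + 2))) → False := by
    intro i hi
    refine h.core hy2 hy1 he.symm (Ne.symm hne) (i := i) ?_
    intro j
    have hw' : y1 - y2 = -w := by rw [hw]; ring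
    rw [hw', sub_neg_eq_add, hpos]
    by_cases hji : j = i
    · subst hji
      rw [lam_self]
      have h1 := (hy1 j).2
      have h2 := (hy2 j).1
      rw [hd j] at h2
      linarith
    · rw [lam_ne V hji]
      have := hi j hji
      linarith
  set d0 := cr w (V (0 + 1) - V (0 + 2)) with hd0
  set d1 := cr w (V (1 + 1) - V (1 + 2)) with hd1
  set d2 := cr w (V (2 + 1) - V (2 + 2)) with hd2
  have F : ∀ P : Fin 3 → Prop, P 0 → P 1 → P 2 → ∀ j, P j := by
    intro P h0 h1 h2 j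
    fin_cases j <;> assumption
  rcases le_total d0 0 with h0 | h0 <;> rcases le_total d1 0 with h1 | h1 <;>
    rcases le_total d2 0 with h2 | h2
  · exact A 2 (F _ (fun _ => h0) (fun _ => h1) (fun h => absurd rfl h))
  · exact A 2 (F _ (fun _ => h0) (fun _ => h1) (fun h => absurd rfl h))
  · exact A 1 (F _ (fun _ => h0) (fun h => absurd rfl h) (fun _ => h2))
  · exact B 0 (F _ (fun h => absurd rfl h) (fun _ => h1) (fun _ => h2))
  · exact A 0 (F _ (fun h => absurd rfl h) (fun _ => h1) (fun _ => h2))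
  · exact B 1 (F _ (fun _ => h0) (fun h => absurd rfl h) (fun _ => h2))
  · exact B 2 (F _ (fun _ => h0) (fun _ => h1) (fun h => absurd rfl h))
  · exact B 2 (F _ (fun _ => h0) (fun _ => h1) (fun h => absurd rfl h))

end MSurf

end Pool.Agent.Lib.MP_755177_an
end

section
set_option autoImplicit false

/-!
# Finding a new triangle over a free side of an edge
-/

open Set Filter Topology Complex Metric
open scoped MatrixGroups ComplexConjugate

namespace Pool.Agent.Lib.MP_755177_an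

namespace MSurf

variable {X : Type*} [TopologicalSpace X] {M : MSurf X}

section

variable [T2Space X] {g : SL(2, ℝ)} {ε : ℝ} {Z : Set X} {p : X} {b : ℂ}

omit [T2Space X] in
theorem LocalLine.neg {y c : ℂ} (h : M.LocalLine Z p y c) : M.LocalLine Z p y (-c) := by
  obtain ⟨ρ, hρ, h1⟩ := h
  refine ⟨ρ, hρ, fun u hu => ⟨(h1 u hu).1, (h1 u hu).2.trans ?_⟩⟩
  rw [cr_neg_left, neg_eq_zero]

omit [T2Space X] in
theorem LocalLine.mem {y c : ℂ} (h : M.LocalLine Z p y c) : y ∈ M.Dom p ∧ M.exp p y ∈ Z := by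
  obtain ⟨ρ, hρ, h1⟩ := h
  have := h1 0 (by rwa [norm_zero])
  rw [add_zero] at this
  exact ⟨this.1, this.2.mpr (cr_zero_right c)⟩

omit [T2Space X] in
/-- Points of the line close to `y`. -/
theorem LocalLine.eventually {y c : ℂ} (h : M.LocalLine Z p y c) (d : ℂ) :
    ∀ᶠ δ : ℝ in 𝓝 0, y + δ • d ∈ M.Dom p ∧ (M.exp p (y + δ • d) ∈ Z ↔ δ * cr c d = 0) := by
  obtain ⟨ρ, hρ, h1⟩ := h
  have h2 : Tendsto (fun δ : ℝ => ‖δ • d‖) (𝓝 0) (𝓝 ‖(0 : ℝ) • d‖) :=
    Continuous.tendsto (by fun_prop) 0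
  rw [zero_smul, norm_zero] at h2
  filter_upwards [h2.eventually (gt_mem_nhds hρ)] with δ hδ
  have := h1 _ hδ
  rwa [cr_smul_right] at this

omit [T2Space X] in
theorem cr_ne_of_free {y c : ℂ}
    (hfree : ∀ s : ℝ, 0 < s → s < 1 → s • y ∈ M.Free Z p b) (hl : M.LocalLine Z p y c) :
    cr c y ≠ 0 := by
  intro hcy
  have h1 := hl.eventually y
  have h2 : ∀ᶠ δ : ℝ in 𝓝[<] 0, -1 < δ ∧ δ < 0 := by
    filter_upwards [Ioo_mem_nhdsLT (show (-1 : ℝ) < 0 by norm_num)] with δ hδ
    exact hδ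
  obtain ⟨δ, h3, h4, h5⟩ := ((h1.filter_mono nhdsWithin_le_nhds).and h2).exists
  have h6 : y + δ • y = (1 + δ) • y := by rw [add_smul, one_smul]
  rw [h6] at h3
  have h7 := h3.2.mpr (by rw [hcy, mul_zero])
  have h8 := (hfree (1 + δ) (by linarith) (by linarith)).2.2 1 one_pos le_rfl
  rw [one_smul] at h8
  exact h8 h7

variable (M) in
/-- A marked point visible in the free region. -/
def VisF (Z : Set X) (p : X) (b : ℂ) (z : ℂ) : Prop :=
  M.Vis p z ∧ 0 < cr b z ∧ ∀ s : ℝ, 0 < s → s < 1 → s • z ∈ M.Free Z p b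

/-- Existence of a visible marked point at bounded distance. -/
theorem exists_visF (hZ : M.IsGraph g ε Z) (he : M.EdgeAt Z p b) (hp : p ∉ M.Sg) {R : ℝ}
    (hε : 0 < ε) {z : ℂ} (hz : 0 < cr b z) (hzR : ‖act g z‖ < R) (hzF : z ∉ M.Free Z p b) :
    ∃ w, M.VisF Z p b w ∧ ‖act g w‖ < R + ε := by
  obtain ⟨t, ht0, ht1, hfree, hor⟩ := free_first_hit hZ he hp hz hzF
  set y := t • z with hy
  have hcr : 0 < cr b y := by
    rw [hy, cr_smul_right]
    positivity
  have hyR : ‖act g y‖ < R := by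
    rw [hy, normAct_smul, abs_of_pos ht0]
    nlinarith [norm_nonneg (act g z)]
  clear_value y
  rcases hor with h | ⟨hD, hyZ⟩
  · exact ⟨y, ⟨h, hcr, hfree⟩, by linarith⟩
  · obtain ⟨c0, hc0, hec0, hl0⟩ := hZ.localLine hD hyZ
    -- choose the sign of the direction
    obtain ⟨c, hc, hec, hl, hbc⟩ : ∃ c, ‖act g c‖ < ε ∧ M.EdgeAt Z (M.exp p y) c ∧
        M.LocalLine Z p y c ∧ 0 ≤ cr b c := by
      rcases le_total 0 (cr b c0) with h | h
      · exact ⟨c0, hc0, hec0, hl0, h⟩
      · refine ⟨-c0, ?_, hec0.neg, hl0.neg, ?_⟩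
        · rwa [act_neg', norm_neg]
        · rw [cr_neg_right]
          linarith
    have hyc := cr_ne_of_free hfree hl
    obtain ⟨t1, t2, h1, h2, h3, h4, -, -⟩ := hec
    have hc' : c ≠ 0 := fun h => h4.ne_zero (by rw [h, smul_zero])
    by_contra hcon
    push Not at hcon
    have hnorm : ∀ σ : ℝ, 0 ≤ σ → σ ≤ t2 → ∀ τ : ℝ, 0 < τ → τ ≤ 1 →
        ‖act g (τ • (y + σ • c))‖ < R + ε := by
      intro σ hσ0 hσ1 τ hτ0 hτ1
      rw [normAct_smul, abs_of_pos hτ0]
      have h5 : ‖act g (y + σ • c)‖ < R + ε := by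
        refine (normAct_add_le g _ _).trans_lt ?_
        rw [normAct_smul, abs_of_nonneg hσ0]
        have : σ * ‖act g c‖ ≤ 1 * ‖act g c‖ := by
          gcongr
          linarith
        linarith
      nlinarith [norm_nonneg (act g (y + σ • c))]
    have hpos : ∀ σ ∈ Icc (0 : ℝ) t2, 0 < cr b (y + σ • c) := by
      intro σ hσ
      rw [cr_add_right, cr_smul_right]
      have := mul_nonneg hσ.1 hbc
      linarith
    have hsw := sweep hZ he hp hc' hyc isPreconnected_Icc (left_mem_Icc.mpr h2.le) hpos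
      (fun σ hσ τ hτ0 hτ1 hvis hfr => by
        have := hcon _ ⟨hvis, by rw [cr_smul_right]; exact mul_pos hτ0 (hpos σ hσ), hfr⟩
        exact absurd (hnorm σ hσ.1 hσ.2 τ hτ0 hτ1) (not_lt.mpr this)) hfree hl
    have hseg : segment ℝ y (y + t2 • c) ⊆ M.Dom p := by
      intro w hw
      rw [segment_eq_image'] at hw
      obtain ⟨s, hs, rfl⟩ := hw
      have h6 := (hsw (s * t2) ⟨mul_nonneg hs.1 h2.le, by nlinarith [hs.2]⟩).2.mem.1
      have h7 : y + s • (y + t2 • c - y) = y + (s * t2) • c := by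
        rw [add_sub_cancel_left, smul_smul]
      simp only [h7]
      exact h6
    have h8 := (exp_exp (M := M) (p := p) (v := y) hseg
      (fun w hw => (convex_segment _ _).segment_subset (left_mem_segment ℝ _ _) hw)
      (right_mem_segment ℝ y (y + t2 • c))).1
    rw [add_sub_cancel_left] at h8
    exact h4.2 h8

/-- The half of a minimal triangle is free. -/
theorem half_free (hZ : M.IsGraph g ε Z) (he : M.EdgeAt Z p b) (hp : p ∉ M.Sg) {R : ℝ}
    {B z0 : ℂ} {κ : ℝ} (hκ : κ ≠ 0) (hB : B = κ • b) (hBR : ‖act g B‖ < R)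
    (hBZ : ∀ s : ℝ, 0 < s → s < 1 → s • B ∈ M.Dom p ∧ M.exp p (s • B) ∈ Z)
    (hz0 : M.VisF Z p b z0) (hz0R : ‖act g z0‖ < R)
    (hmin : ∀ w, M.VisF Z p b w → ‖act g w‖ < R → cr b z0 ≤ cr b w) :
    ∀ α β : ℝ, 0 < α → 0 < β → α + β < 1 → α • B + β • z0 ∈ M.Free Z p b := by
  -- no visible point in the open triangle or on the open side
  have hno : ∀ α β : ℝ, 0 < α → 0 < β → α + β ≤ 1 → ¬ M.VisF Z p b (α • B + β • z0) := by
    intro α β hα hβ hαβ hvis
    have h1 : ‖act g (α • B + β • z0)‖ < R := by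
      refine (normAct_add_le g _ _).trans_lt ?_
      rw [normAct_smul, normAct_smul, abs_of_pos hα, abs_of_pos hβ]
      have h2 : α * ‖act g B‖ < α * R := by gcongr
      have h3 : β * ‖act g z0‖ < β * R := by gcongr
      have h4 : 0 < R := (norm_nonneg _).trans_lt hBR
      nlinarith
    have h2 := hmin _ hvis h1
    rw [cr_add_right, cr_smul_right, cr_smul_right, hB, cr_smul_right, cr_self] at h2
    have := hz0.2.1
    nlinarith
  intro α' β' hα' hβ' hαβ'
  by_contra hnot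
  have hcr' : 0 < cr b (α' • B + β' • z0) := by
    rw [cr_add_right, cr_smul_right, cr_smul_right, hB, cr_smul_right, cr_self]
    have := mul_pos hβ' hz0.2.1
    linarith
  obtain ⟨t, ht0, ht1, hfree, hor⟩ := free_first_hit hZ he hp hcr' hnot
  have hty : t • (α' • B + β' • z0) = (t * α') • B + (t * β') • z0 := by
    rw [smul_add, smul_smul, smul_smul]
  rw [hty] at hfree hor
  set α := t * α' with hα
  set β := t * β' with hβ
  have hα0 : 0 < α := by positivity
  have hβ0 : 0 < β := by positivity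
  have hαβ : α + β < 1 := by nlinarith
  clear_value α β
  set y := α • B + β • z0 with hy
  have hcrz : 0 < cr b z0 := hz0.2.1
  have hcr : 0 < cr b y := by
    rw [hy, cr_add_right, cr_smul_right, cr_smul_right, hB, cr_smul_right, cr_self]
    have := mul_pos hβ0 hcrz
    linarith
  rcases hor with h | ⟨hD, hyZ⟩
  · exact hno α β hα0 hβ0 hαβ.le ⟨h, hcr, hfree⟩
  obtain ⟨c0, _, hec0, hl0⟩ := hZ.localLine hD hyZ
  -- coordinates in the basis `B, z0`
  have hBz : cr B z0 ≠ 0 := by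
    rw [hB, cr_smul_left]
    exact mul_ne_zero hκ hcrz.ne'
  have hcoord : ∀ w : ℂ, w = (cr w z0 / cr B z0) • B + (cr B w / cr B z0) • z0 := by
    intro w
    have h1 : cr B z0 • w = cr w z0 • B + cr B w • z0 := by
      apply Complex.ext
      · simp only [cr_eq, Complex.add_re, Complex.smul_re, smul_eq_mul]
        ring
      · simp only [cr_eq, Complex.add_im, Complex.smul_im, smul_eq_mul]
        ring
    have h2 : w = (cr B z0)⁻¹ • (cr B z0 • w) := by
      rw [smul_smul, inv_mul_cancel₀ hBz, one_smul]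
    rw [h1, smul_add, smul_smul, smul_smul] at h2
    rw [div_eq_inv_mul, div_eq_inv_mul]
    exact h2
  obtain ⟨c, hl, l, m, hcl, hlm⟩ : ∃ c, M.LocalLine Z p y c ∧ ∃ l m : ℝ, c = l • B + m • z0 ∧
      l + m ≤ 0 := by
    rcases le_total (cr c0 z0 / cr B z0 + cr B c0 / cr B z0) 0 with h | h
    · exact ⟨c0, hl0, _, _, hcoord c0, h⟩
    · refine ⟨-c0, hl0.neg, -(cr c0 z0 / cr B z0), -(cr B c0 / cr B z0), ?_, by linarith⟩
      conv_lhs => rw [hcoord c0]
      rw [neg_smul, neg_smul, neg_add]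
  have hyc := cr_ne_of_free hfree hl
  have hc0 : c ≠ 0 := by
    rintro rfl
    exact hyc (cr_zero_left y)
  -- the exit time
  set E : Set ℝ := {σ : ℝ | 0 ≤ σ ∧ (α + σ * l ≤ 0 ∨ β + σ * m ≤ 0)} with hE
  have hEcl : IsClosed E := by
    have : E = Ici 0 ∩ ({σ | α + σ * l ≤ 0} ∪ {σ | β + σ * m ≤ 0}) := rfl
    rw [this]
    exact isClosed_Ici.inter ((isClosed_le (by fun_prop) (by fun_prop)).union
      (isClosed_le (by fun_prop) (by fun_prop)))
  have hEne : E.Nonempty := by
    rcases lt_or_ge l 0 with h | h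
    · refine ⟨α / (-l), div_nonneg hα0.le (by linarith), Or.inl ?_⟩
      have : α / (-l) * l = -α := by
        rw [div_neg, neg_mul, div_mul_cancel₀ _ h.ne]
      linarith
    · have hm : m < 0 := by
        rcases (show m ≤ 0 by linarith).lt_or_eq with h' | h'
        · exact h'
        · exfalso
          have : l = 0 := by linarith
          apply hc0
          rw [hcl, this, h']
          simp
      refine ⟨β / (-m), div_nonneg hβ0.le (by linarith), Or.inr ?_⟩
      have : β / (-m) * m = -β := by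
        rw [div_neg, neg_mul, div_mul_cancel₀ _ hm.ne]
      linarith
  have hEbd : BddBelow E := ⟨0, fun σ hσ => hσ.1⟩
  have hmem := hEcl.csInf_mem hEne hEbd
  set σ₁ := sInf E with hσ₁
  have hlt : ∀ σ : ℝ, 0 ≤ σ → σ < σ₁ → 0 < α + σ * l ∧ 0 < β + σ * m := by
    intro σ h0 h1
    have h2 : σ ∉ E := fun h => absurd (csInf_le hEbd h) (not_le.mpr h1)
    simp only [hE, mem_ofPred_eq, not_and, not_or, not_le] at h2
    exact h2 h0
  have hσ₁0 : 0 < σ₁ := by
    rcases hmem.1.eq_or_lt with h | h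
    · exfalso
      have := hmem.2
      rw [← h] at this
      rcases this with h' | h' <;> linarith
    · exact h
  have hyσ : ∀ σ : ℝ, y + σ • c = (α + σ * l) • B + (β + σ * m) • z0 := by
    intro σ
    rw [hy, hcl, smul_add, smul_smul, smul_smul, add_smul, add_smul]
    ring
  have hsum : ∀ σ : ℝ, 0 ≤ σ → (α + σ * l) + (β + σ * m) < 1 := by
    intro σ h0
    nlinarith
  have hpos : ∀ σ ∈ Ico (0 : ℝ) σ₁, 0 < cr b (y + σ • c) := by
    intro σ hσ
    rw [hyσ, cr_add_right, cr_smul_right, cr_smul_right, hB, cr_smul_right, cr_self]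
    have := mul_pos (hlt σ hσ.1 hσ.2).2 hcrz
    linarith
  have hsw := sweep hZ he hp hc0 hyc isPreconnected_Ico (left_mem_Ico.mpr hσ₁0) hpos
    (fun σ hσ τ hτ0 hτ1 hvis hfr => by
      have h1 := hlt σ hσ.1 hσ.2
      have h2 := hsum σ hσ.1
      have h3 : τ • (y + σ • c) = (τ * (α + σ * l)) • B + (τ * (β + σ * m)) • z0 := by
        rw [hyσ, smul_add, smul_smul, smul_smul]
      refine hno (τ * (α + σ * l)) (τ * (β + σ * m)) (mul_pos hτ0 h1.1) (mul_pos hτ0 h1.2)
        (by nlinarith) ?_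
      rw [← h3]
      exact ⟨hvis, by rw [cr_smul_right]; exact mul_pos hτ0 (hpos σ hσ), hfr⟩) hfree hl
  -- continuity at the exit time
  have hge : 0 ≤ α + σ₁ * l ∧ 0 ≤ β + σ₁ * m := by
    have hT1 : Tendsto (fun σ : ℝ => α + σ * l) (𝓝[<] σ₁) (𝓝 (α + σ₁ * l)) :=
      Tendsto.mono_left (Continuous.tendsto (by fun_prop) _) nhdsWithin_le_nhds
    have hT2 : Tendsto (fun σ : ℝ => β + σ * m) (𝓝[<] σ₁) (𝓝 (β + σ₁ * m)) :=
      Tendsto.mono_left (Continuous.tendsto (by fun_prop) _) nhdsWithin_le_nhds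
    have hev : ∀ᶠ σ : ℝ in 𝓝[<] σ₁, 0 ≤ σ ∧ σ < σ₁ := by
      filter_upwards [Ioo_mem_nhdsLT hσ₁0] with σ hσ
      exact ⟨hσ.1.le, hσ.2⟩
    constructor
    · refine ge_of_tendsto hT1 ?_
      filter_upwards [hev] with σ hσ
      exact (hlt σ hσ.1 hσ.2).1.le
    · refine ge_of_tendsto hT2 ?_
      filter_upwards [hev] with σ hσ
      exact (hlt σ hσ.1 hσ.2).2.le
  have hcy1 : cr c (y + σ₁ • c) ≠ 0 := by
    rwa [cr_add_right, cr_smul_right, cr_self, mul_zero, add_zero]
  have hev : ∀ᶠ σ : ℝ in 𝓝[<] σ₁, 0 ≤ σ ∧ σ < σ₁ := by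
    filter_upwards [Ioo_mem_nhdsLT hσ₁0] with σ hσ
    exact ⟨hσ.1.le, hσ.2⟩
  have hT : Tendsto (fun σ : ℝ => y + σ • c) (𝓝[<] σ₁) (𝓝 (y + σ₁ • c)) :=
    Tendsto.mono_left (Continuous.tendsto (by fun_prop) _) nhdsWithin_le_nhds
  have hs1 := hsum σ₁ hσ₁0.le
  by_cases hβ1 : β + σ₁ * m = 0
  · -- the line would cross the edge
    have hy1 : y + σ₁ • c = (α + σ₁ * l) • B := by
      rw [hyσ, hβ1, zero_smul, add_zero]
    have hα1 : 0 < α + σ₁ * l := by
      rcases hge.1.eq_or_lt with h | h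
      · exfalso
        rw [hy1, ← h, zero_smul, cr_zero_right] at hcy1
        exact hcy1 rfl
      · exact h
    have hlt1 : α + σ₁ * l < 1 := by linarith
    obtain ⟨hD1, hZ1⟩ := hBZ _ hα1 hlt1
    obtain ⟨c', _, hec', hl'⟩ := hZ.localLine hD1 hZ1
    -- the local line is along `B`
    have hcB : cr c' B = 0 := by
      have h1 := hl'.eventually B
      have h2 : ∀ᶠ δ : ℝ in 𝓝[>] 0, 0 < δ ∧ δ < 1 - (α + σ₁ * l) := by
        filter_upwards [Ioo_mem_nhdsGT (show (0 : ℝ) < 1 - (α + σ₁ * l) by linarith)] with δ hδ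
        exact hδ
      obtain ⟨δ, h3, h4, h5⟩ := ((h1.filter_mono nhdsWithin_le_nhds).and h2).exists
      have h6 : (α + σ₁ * l) • B + δ • B = (α + σ₁ * l + δ) • B := (add_smul _ _ _).symm
      rw [h6] at h3
      have h7 := h3.2.mp (hBZ _ (by linarith) (by linarith)).2
      exact (mul_eq_zero.mp h7).resolve_left h4.ne'
    have hcc : cr c' c = 0 := by
      have h1 := hl'.eventually c
      rw [← hy1] at h1
      have hT0 : Tendsto (fun σ : ℝ => σ - σ₁) (𝓝[<] σ₁) (𝓝 0) := by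
        have : Tendsto (fun σ : ℝ => σ - σ₁) (𝓝 σ₁) (𝓝 (σ₁ - σ₁)) :=
          Continuous.tendsto (by fun_prop) _
        rw [sub_self] at this
        exact this.mono_left nhdsWithin_le_nhds
      obtain ⟨σ, h2, h3, h4⟩ := ((hT0.eventually h1).and hev).exists
      have h5 : y + σ₁ • c + (σ - σ₁) • c = y + σ • c := by
        rw [sub_smul]
        ring
      rw [h5] at h2
      have h6 := h2.2.mp (hsw σ ⟨h3, h4⟩).2.mem.2
      exact (mul_eq_zero.mp h6).resolve_left (by linarith)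
    -- contradiction
    obtain ⟨k1, hk1⟩ := exists_smul_of_cr_eq_zero hec'.ne hcB
    obtain ⟨k2, hk2⟩ := exists_smul_of_cr_eq_zero hec'.ne hcc
    apply hcy1
    rw [hy1, hk1, hk2, cr_smul_left, cr_smul_right, cr_smul_right, cr_self]
    ring
  · have hβ1' : 0 < β + σ₁ * m := lt_of_le_of_ne hge.2 (Ne.symm hβ1)
    have hα1 : α + σ₁ * l = 0 := by
      rcases hmem.2 with h | h
      · exact le_antisymm h hge.1
      · exact absurd (le_antisymm h hge.2) hβ1
    have hy1 : y + σ₁ • c = (β + σ₁ * m) • z0 := by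
      rw [hyσ, hα1, zero_smul, zero_add]
    have hfr := hz0.2.2 _ hβ1' (by linarith)
    have hO' : IsOpen (M.Dom p ∩ M.exp p ⁻¹' Zᶜ) :=
      (isTr_exp p).continuousOn.isOpen_inter_preimage (isOpen_Dom p) hZ.closed.isOpen_compl
    have hmem' : y + σ₁ • c ∈ M.Dom p ∩ M.exp p ⁻¹' Zᶜ := by
      rw [hy1]
      have h1 := hfr.2.2 1 one_pos le_rfl
      rw [one_smul] at h1
      exact ⟨hfr.2.1, h1⟩
    obtain ⟨σ, h2, h3, h4⟩ := ((hT.eventually (hO'.mem_nhds hmem')).and hev).exists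
    exact h2.2 (hsw σ ⟨h3, h4⟩).2.mem.2

end

end MSurf

end Pool.Agent.Lib.MP_755177_an
end

section
set_option autoImplicit false

/-!
# The new triangle
-/

open Set Filter Topology Complex Metric
open scoped MatrixGroups ComplexConjugate

namespace Pool.Agent.Lib.MP_755177_an

namespace MSurf

variable {X : Type*} [TopologicalSpace X] {M : MSurf X}

section

variable [T2Space X] {g : SL(2, ℝ)} {ε : ℝ} {Z : Set X} {p : X} {b : ℂ}

omit [T2Space X] in
/-- The open side of a minimal triangle consists of regular points. -/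
theorem half_side (hp : p ∉ M.Sg) {R : ℝ}
    {B z0 : ℂ} {κ : ℝ} (hB : B = κ • b) (hBR : ‖act g B‖ < R)
    (hz0 : M.VisF Z p b z0) (hz0R : ‖act g z0‖ < R)
    (hmin : ∀ w, M.VisF Z p b w → ‖act g w‖ < R → cr b z0 ≤ cr b w)
    (hhalf : ∀ α β : ℝ, 0 < α → 0 < β → α + β < 1 → α • B + β • z0 ∈ M.Free Z p b)
    {α β : ℝ} (hα : 0 < α) (hβ : 0 < β) (hαβ : α + β = 1) : α • B + β • z0 ∈ M.Dom p := by
  by_contra hD
  have hfree : ∀ s : ℝ, 0 < s → s < 1 → s • (α • B + β • z0) ∈ M.Free Z p b := by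
    intro s h0 h1
    rw [smul_add, smul_smul, smul_smul]
    exact hhalf _ _ (by positivity) (by positivity) (by nlinarith)
  have hcr : cr b (α • B + β • z0) = β * cr b z0 := by
    rw [cr_add_right, cr_smul_right, cr_smul_right, hB, cr_smul_right, cr_self]
    ring
  have hpos : 0 < cr b (α • B + β • z0) := by
    rw [hcr]
    exact mul_pos hβ hz0.2.1
  have hvis : M.Vis p (α • B + β • z0) := by
    refine ⟨fun s h0 h1 => ?_, hD⟩
    rcases h0.eq_or_lt with h | h
    · rw [← h, zero_smul]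
      exact zero_mem_Dom hp
    · exact (hfree s h h1).2.1
  have h1 : ‖act g (α • B + β • z0)‖ < R := by
    refine (normAct_add_le g _ _).trans_lt ?_
    rw [normAct_smul, normAct_smul, abs_of_pos hα, abs_of_pos hβ]
    have h2 : α * ‖act g B‖ < α * R := by gcongr
    have h3 : β * ‖act g z0‖ < β * R := by gcongr
    have h4 : α * R + β * R = R := by rw [← add_mul, hαβ, one_mul]
    linarith
  have h2 := hmin _ ⟨hvis, hpos, hfree⟩ h1
  rw [hcr] at h2
  have := hz0.2.1
  nlinarith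

/-- An open side is contained in `Z` or disjoint from `Z`. -/
theorem side_dichotomy (hZ : M.IsGraph g ε Z) {B z0 : ℂ} (hBz : cr B z0 ≠ 0)
    (hhalf : ∀ α β : ℝ, 0 < α → 0 < β → α + β < 1 → α • B + β • z0 ∈ M.Free Z p b)
    (hside : ∀ s ∈ Ioo (0 : ℝ) 1, (1 - s) • B + s • z0 ∈ M.Dom p) :
    (∀ s ∈ Ioo (0 : ℝ) 1, M.exp p ((1 - s) • B + s • z0) ∈ Z) ∨
      ∀ s ∈ Ioo (0 : ℝ) 1, M.exp p ((1 - s) • B + s • z0) ∉ Z := by
  by_cases h : ∃ s ∈ Ioo (0 : ℝ) 1, M.exp p ((1 - s) • B + s • z0) ∈ Z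
  · left
    obtain ⟨s0, hs0, h0⟩ := h
    have hct : ∀ s : ℝ, Tendsto (fun s' : ℝ => (1 - s') • B + s' • z0) (𝓝[Ioo 0 1] s)
        (𝓝 ((1 - s) • B + s • z0)) := by
      intro s
      exact Tendsto.mono_left (Continuous.tendsto (by fun_prop) s) nhdsWithin_le_nhds
    refine preconnected_induction isPreconnected_Ioo (fun s hs hP => ?_) (fun s hs hP => ?_)
      hs0 h0
    · obtain ⟨c, _, _, hl⟩ := hZ.localLine (hside s hs) hP
      have hcc : cr c (z0 - B) = 0 := by
        by_contra hne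
        set l := cr c z0 / cr B z0 with hl'
        set m := cr B c / cr B z0 with hm'
        have hc : c = l • B + m • z0 := by
          have h1 : cr B z0 • c = cr c z0 • B + cr B c • z0 := by
            apply Complex.ext
            · simp only [cr_eq, Complex.add_re, Complex.smul_re, smul_eq_mul]
              ring
            · simp only [cr_eq, Complex.add_im, Complex.smul_im, smul_eq_mul]
              ring
          have h2 : c = (cr B z0)⁻¹ • (cr B z0 • c) := by
            rw [smul_smul, inv_mul_cancel₀ hBz, one_smul]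
          rw [h1, smul_add, smul_smul, smul_smul] at h2
          rw [hl', hm', div_eq_inv_mul, div_eq_inv_mul]
          exact h2
        clear_value l m
        have hlm : l + m ≠ 0 := by
          intro h1
          apply hne
          have h2 : l = -m := by linarith
          rw [hc, h2, cr_add_left, cr_smul_left, cr_smul_left, cr_sub_right, cr_sub_right,
            cr_self, cr_self, cr_swap z0 B]
          ring
        -- a point of the line in the free region
        have h1 := hl.eventually c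
        have hev1 : ∀ᶠ δ : ℝ in 𝓝 0, 0 < 1 - s + δ * l := by
          have : Tendsto (fun δ : ℝ => 1 - s + δ * l) (𝓝 0) (𝓝 (1 - s + 0 * l)) :=
            Continuous.tendsto (by fun_prop) 0
          refine this.eventually (lt_mem_nhds ?_)
          linarith [hs.2]
        have hev2 : ∀ᶠ δ : ℝ in 𝓝 0, 0 < s + δ * m := by
          have : Tendsto (fun δ : ℝ => s + δ * m) (𝓝 0) (𝓝 (s + 0 * m)) :=
            Continuous.tendsto (by fun_prop) 0
          refine this.eventually (lt_mem_nhds ?_)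
          linarith [hs.1]
        have hev3 : ∃ᶠ δ : ℝ in 𝓝 0, δ * (l + m) < 0 := by
          rcases lt_or_gt_of_ne hlm with h2 | h2
          · have : ∀ᶠ δ : ℝ in 𝓝[>] 0, δ * (l + m) < 0 := by
              filter_upwards [self_mem_nhdsWithin] with δ hδ
              exact mul_neg_of_pos_of_neg hδ h2
            exact this.frequently.filter_mono nhdsWithin_le_nhds
          · have : ∀ᶠ δ : ℝ in 𝓝[<] 0, δ * (l + m) < 0 := by
              filter_upwards [self_mem_nhdsWithin] with δ hδ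
              exact mul_neg_of_neg_of_pos hδ h2
            exact this.frequently.filter_mono nhdsWithin_le_nhds
        obtain ⟨δ, h2, h3, h4, h5⟩ := (hev3.and_eventually (h1.and (hev1.and hev2))).exists
        have h6 : (1 - s) • B + s • z0 + δ • c = (1 - s + δ * l) • B + (s + δ * m) • z0 := by
          rw [hc, smul_add, smul_smul, smul_smul, add_smul, add_smul]
          ring
        rw [h6] at h3
        have h7 := h3.2.mpr (by rw [cr_self, mul_zero])
        have h8 := (hhalf _ _ h4 h5 (by linarith)).2.2 1 one_pos le_rfl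
        rw [one_smul] at h8
        exact h8 h7
      have h1 := hl.eventually (z0 - B)
      have hT0 : Tendsto (fun s' : ℝ => s' - s) (𝓝[Ioo 0 1] s) (𝓝 0) := by
        have : Tendsto (fun s' : ℝ => s' - s) (𝓝 s) (𝓝 (s - s)) :=
          Continuous.tendsto (by fun_prop) _
        rw [sub_self] at this
        exact this.mono_left nhdsWithin_le_nhds
      filter_upwards [hT0.eventually h1] with s' h2
      have h3 : (1 - s) • B + s • z0 + (s' - s) • (z0 - B) = (1 - s') • B + s' • z0 := by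
        rw [smul_sub, sub_smul, sub_smul, sub_smul, sub_smul]
        ring
      rw [h3] at h2
      exact h2.2.mpr (by rw [hcc, mul_zero])
    · by_contra hnZ
      have hO' : IsOpen (M.Dom p ∩ M.exp p ⁻¹' Zᶜ) :=
        (isTr_exp p).continuousOn.isOpen_inter_preimage (isOpen_Dom p) hZ.closed.isOpen_compl
      obtain ⟨s', h1, h2⟩ :=
        (hP.and_eventually ((hct s).eventually (hO'.mem_nhds ⟨hside s hs, hnZ⟩))).exists
      exact h2.2 h1
  · right
    push Not at h
    exact h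

end

/-- The vertices of the new triangle. -/
noncomputable def newV (t1 t2 : ℝ) (b z0 : ℂ) : Fin 3 → ℂ := ![-(t1 • b), t2 • b, z0]

theorem dd_newV {t1 t2 : ℝ} (h : t1 + t2 = 1) (b z0 : ℂ) : dd (newV t1 t2 b z0) = cr b z0 := by
  have h2 : t2 = 1 - t1 := by linarith
  subst h2
  simp only [dd, newV, Matrix.cons_val_zero, Matrix.cons_val_one, Matrix.cons_val_two,
    Matrix.tail_cons, Matrix.head_cons, cr_eq, Complex.sub_re, Complex.sub_im, Complex.neg_re,
    Complex.neg_im, Complex.smul_re, Complex.smul_im, smul_eq_mul]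
  ring

theorem lam_two_newV {t1 t2 : ℝ} (h : t1 + t2 = 1) (b z0 z : ℂ) :
    lam (newV t1 t2 b z0) 2 z = cr b z := by
  have h2 : t2 = 1 - t1 := by linarith
  subst h2
  simp only [lam_two, newV, Matrix.cons_val_zero, Matrix.cons_val_one, cr_eq, Complex.sub_re,
    Complex.sub_im, Complex.neg_re, Complex.neg_im, Complex.smul_re, Complex.smul_im, smul_eq_mul]
  ring

/-- Coordinates of the points of the new triangle. -/
theorem newV_cases {t1 t2 : ℝ} (h1 : 0 < t1) (h2 : 0 < t2) (h : t1 + t2 = 1) {b z0 : ℂ}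
    (hD : 0 < cr b z0) {z : ℂ} (hz : z ∈ TC (newV t1 t2 b z0)) :
    ∃ x y w : ℝ, x = lam (newV t1 t2 b z0) 0 z / cr b z0 ∧ y = lam (newV t1 t2 b z0) 1 z / cr b z0 ∧
      w = lam (newV t1 t2 b z0) 2 z / cr b z0 ∧ 0 ≤ x ∧ 0 ≤ y ∧ 0 ≤ w ∧ x + y + w = 1 ∧
      ((∃ α : ℝ, 0 ≤ α ∧ α ≤ y ∧ (0 < x → 0 < α → α < y) ∧ (x = 0 → α = y) ∧
          z = α • (t2 • b) + w • z0) ∨
        ∃ α : ℝ, 0 ≤ α ∧ α ≤ x ∧ (0 < y → 0 < α → α < x) ∧ (y = 0 → α = x) ∧
          z = α • (-(t1 • b)) + w • z0) := by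
  set V := newV t1 t2 b z0 with hV
  have hdd : dd V = cr b z0 := dd_newV h b z0
  have hsum := sum_lam V z
  have hb := bary V z
  rw [hdd] at hsum hb
  set x := lam V 0 z / cr b z0 with hx
  set y := lam V 1 z / cr b z0 with hy
  set w := lam V 2 z / cr b z0 with hw
  have hx0 : 0 ≤ x := div_nonneg (hz 0) hD.le
  have hy0 : 0 ≤ y := div_nonneg (hz 1) hD.le
  have hw0 : 0 ≤ w := div_nonneg (hz 2) hD.le
  have hxyw : x + y + w = 1 := by
    rw [hx, hy, hw, ← add_div, ← add_div, hsum, div_self hD.ne']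
  have hzz : z = x • V 0 + y • V 1 + w • V 2 := by
    have h3 : z = (cr b z0)⁻¹ • (cr b z0 • z) := by
      rw [smul_smul, inv_mul_cancel₀ hD.ne', one_smul]
    rw [hb, smul_add, smul_add, smul_smul, smul_smul, smul_smul] at h3
    rw [hx, hy, hw, div_eq_inv_mul, div_eq_inv_mul, div_eq_inv_mul]
    exact h3
  have hV0 : V 0 = -(t1 • b) := rfl
  have hV1 : V 1 = t2 • b := rfl
  have hV2 : V 2 = z0 := rfl
  rw [hV0, hV1, hV2] at hzz
  refine ⟨x, y, w, rfl, rfl, rfl, hx0, hy0, hw0, hxyw, ?_⟩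
  clear_value x y w
  rcases le_total 0 (y * t2 - x * t1) with hc | hc
  · left
    refine ⟨(y * t2 - x * t1) / t2, div_nonneg hc h2.le, ?_, ?_, ?_, ?_⟩
    · rw [div_le_iff₀ h2]
      nlinarith
    · intro hx' _
      rw [div_lt_iff₀ h2]
      nlinarith
    · intro hx'
      rw [hx']
      field_simp
      ring
    · have e : ((y * t2 - x * t1) / t2) • (t2 • b) = (y * t2 - x * t1) • b := by
        rw [smul_smul, div_mul_cancel₀ _ h2.ne']
      rw [hzz, e]
      module
  · right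
    refine ⟨(x * t1 - y * t2) / t1, div_nonneg (by linarith) h1.le, ?_, ?_, ?_, ?_⟩
    · rw [div_le_iff₀ h1]
      nlinarith
    · intro hy' _
      rw [div_lt_iff₀ h1]
      nlinarith
    · intro hy'
      rw [hy']
      field_simp
      ring
    · have e : ((x * t1 - y * t2) / t1) • (-(t1 • b)) = -((x * t1 - y * t2) • b) := by
        rw [smul_neg, smul_smul, div_mul_cancel₀ _ h1.ne']
      rw [hzz, e]
      module

/-- The new triangle. -/
theorem exists_tri [CompactSpace X] [T2Space X] {g : SL(2, ℝ)} {ε : ℝ} {Z : Set X} {p : X} {b : ℂ}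
    (hZ : M.IsGraph g ε Z) (he : M.EdgeAt Z p b) (hp : p ∉ M.Sg) {R : ℝ}
    (hε : 0 < ε) (hb : ‖act g b‖ < ε) {z : ℂ} (hz : 0 < cr b z) (hzR : ‖act g z‖ < R)
    (hzF : z ∉ M.Free Z p b) :
    ∃ (t1 t2 : ℝ) (z0 : ℂ), 0 < t1 ∧ 0 < t2 ∧ t1 + t2 = 1 ∧ 0 < cr b z0 ∧
      ‖act g z0‖ < R + ε ∧ M.Tri (M.exp p) (newV t1 t2 b z0) ∧ TT (newV t1 t2 b z0) ⊆ M.Dom p ∧
      TI (newV t1 t2 b z0) ⊆ M.Free Z p b ∧
      (∀ z ∈ TT (newV t1 t2 b z0), lam (newV t1 t2 b z0) 2 z = 0 → M.exp p z ∈ Z) ∧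
      ∀ i, (∀ z ∈ TT (newV t1 t2 b z0), lam (newV t1 t2 b z0) i z = 0 → M.exp p z ∈ Z) ∨
        ∀ z ∈ TT (newV t1 t2 b z0), lam (newV t1 t2 b z0) i z = 0 → M.exp p z ∉ Z := by
  have hR : 0 < R := (norm_nonneg _).trans_lt hzR
  obtain ⟨w, hw, hwR⟩ := exists_visF hZ he hp hε hz hzR hzF
  -- the lowest visible marked point
  obtain ⟨C, hC, hC'⟩ := exists_norm_le g
  set F : Set ℂ := {w | M.VisF Z p b w ∧ ‖act g w‖ < R + ε} with hF
  have hFfin : F.Finite := by
    refine (finite_vis M p (C * (R + ε))).subset ?_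
    rintro v ⟨hv1, hv2⟩
    refine ⟨(hC' v).trans ?_, hv1.1⟩
    gcongr
  obtain ⟨z0, ⟨hz0, hz0R⟩, hmin'⟩ := Set.exists_min_image F (cr b) hFfin ⟨w, hw, hwR⟩
  have hmin : ∀ w, M.VisF Z p b w → ‖act g w‖ < R + ε → cr b z0 ≤ cr b w :=
    fun w h1 h2 => hmin' w ⟨h1, h2⟩
  have hcrz : 0 < cr b z0 := hz0.2.1
  obtain ⟨t1, t2, h1, h2, h3, h4, h5, h6, r, hr, h7⟩ := id he
  have hBR : ‖act g (t2 • b)‖ < R + ε := by
    rw [normAct_smul, abs_of_pos h2]
    nlinarith [norm_nonneg (act g b)]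
  have hAR : ‖act g (-(t1 • b))‖ < R + ε := by
    rw [act_neg', norm_neg, normAct_smul, abs_of_pos h1]
    nlinarith [norm_nonneg (act g b)]
  have hBZ : ∀ s : ℝ, 0 < s → s < 1 → s • (t2 • b) ∈ M.Dom p ∧ M.exp p (s • (t2 • b)) ∈ Z := by
    intro s hs0 hs1
    refine ⟨h4.1 s hs0.le hs1, ?_⟩
    rw [smul_smul]
    exact h6 _ (by have := mul_pos hs0 h2; linarith) (by nlinarith)
  have hAZ : ∀ s : ℝ, 0 < s → s < 1 →
      s • (-(t1 • b)) ∈ M.Dom p ∧ M.exp p (s • (-(t1 • b))) ∈ Z := by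
    intro s hs0 hs1
    refine ⟨h5.1 s hs0.le hs1, ?_⟩
    rw [smul_neg, smul_smul, ← neg_smul]
    exact h6 _ (by nlinarith) (by have := mul_pos hs0 h1; linarith)
  have hAeq : -(t1 • b) = (-t1) • b := by rw [neg_smul]
  have hhB := half_free hZ he hp h2.ne' rfl hBR hBZ hz0 hz0R hmin
  have hhA := half_free hZ he hp (neg_ne_zero.mpr h1.ne') hAeq hAR hAZ hz0 hz0R hmin
  have hsB : ∀ α β : ℝ, 0 < α → 0 < β → α + β = 1 → α • (t2 • b) + β • z0 ∈ M.Dom p :=
    fun α β hα hβ hαβ => half_side hp rfl hBR hz0 hz0R hmin hhB hα hβ hαβ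
  have hsA : ∀ α β : ℝ, 0 < α → 0 < β → α + β = 1 → α • (-(t1 • b)) + β • z0 ∈ M.Dom p :=
    fun α β hα hβ hαβ => half_side hp hAeq hAR hz0 hz0R hmin hhA hα hβ hαβ
  have h0D := zero_mem_Dom hp
  -- all points
  have hall : ∀ B : ℂ, (∀ s : ℝ, 0 < s → s < 1 → s • B ∈ M.Dom p) →
      (∀ α β : ℝ, 0 < α → 0 < β → α + β < 1 → α • B + β • z0 ∈ M.Free Z p b) →
      (∀ α β : ℝ, 0 < α → 0 < β → α + β = 1 → α • B + β • z0 ∈ M.Dom p) →
      ∀ α β : ℝ, 0 ≤ α → 0 ≤ β → α + β ≤ 1 → α < 1 → β < 1 →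
        (α • B + β • z0 ∈ M.Dom p ∧ (0 < β → α + β < 1 → α • B + β • z0 ∈ M.Free Z p b)) := by
    intro B hB hf hs α β hα hβ hαβ hα1 hβ1
    rcases hβ.eq_or_lt with hb0 | hb0
    · refine ⟨?_, fun h => absurd h (by rw [← hb0]; exact lt_irrefl _)⟩
      rw [← hb0, zero_smul, add_zero]
      rcases hα.eq_or_lt with ha0 | ha0
      · rw [← ha0, zero_smul]
        exact h0D
      · exact hB α ha0 hα1
    · rcases hα.eq_or_lt with ha0 | ha0
      · rw [← ha0, zero_smul, zero_add]
        exact ⟨(hz0.2.2 β hb0 hβ1).2.1, fun _ _ => hz0.2.2 β hb0 hβ1⟩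
      · rcases hαβ.lt_or_eq with h | h
        · exact ⟨(hf α β ha0 hb0 h).2.1, fun _ _ => hf α β ha0 hb0 h⟩
        · exact ⟨hs α β ha0 hb0 h, fun _ h' => absurd h h'.ne⟩
  set V := newV t1 t2 b z0 with hV
  have hdd : dd V = cr b z0 := dd_newV h3 b z0
  have hTD : TT V ⊆ M.Dom p := by
    intro z hz
    obtain ⟨x, y, w, hx, hy, hw, hx0, hy0, hw0, hxyw, hor⟩ :=
      newV_cases h1 h2 h3 hcrz (TT_subset_TC V hz)
    have hx1 : x < 1 := by
      rw [hx, div_lt_one hcrz, ← hdd]
      exact (hz 0).2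
    have hy1 : y < 1 := by
      rw [hy, div_lt_one hcrz, ← hdd]
      exact (hz 1).2
    have hw1 : w < 1 := by
      rw [hw, div_lt_one hcrz, ← hdd]
      exact (hz 2).2
    rcases hor with ⟨α, hα0, hα1, -, -, rfl⟩ | ⟨α, hα0, hα1, -, -, rfl⟩
    · exact (hall _ (fun s h h' => (hBZ s h h').1) hhB hsB α w hα0 hw0 (by linarith)
        (by linarith) hw1).1
    · exact (hall _ (fun s h h' => (hAZ s h h').1) hhA hsA α w hα0 hw0 (by linarith)
        (by linarith) hw1).1
  have hTI : TI V ⊆ M.Free Z p b := by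
    intro z hz
    have hz' := TI_subset_TT V hz
    obtain ⟨x, y, w, hx, hy, hw, hx0, hy0, hw0, hxyw, hor⟩ :=
      newV_cases h1 h2 h3 hcrz (TT_subset_TC V hz')
    have hx1 : 0 < x := by
      rw [hx]
      exact div_pos (hz 0) hcrz
    have hy1 : 0 < y := by
      rw [hy]
      exact div_pos (hz 1) hcrz
    have hw1 : 0 < w := by
      rw [hw]
      exact div_pos (hz 2) hcrz
    rcases hor with ⟨α, hα0, hα1, hα2, -, rfl⟩ | ⟨α, hα0, hα1, hα2, -, rfl⟩
    · refine (hall _ (fun s h h' => (hBZ s h h').1) hhB hsB α w hα0 hw0 (by linarith)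
        (by linarith) (by linarith)).2 hw1 (by linarith)
    · refine (hall _ (fun s h h' => (hAZ s h h').1) hhA hsA α w hα0 hw0 (by linarith)
        (by linarith) (by linarith)).2 hw1 (by linarith)
  have h0T : (0 : ℂ) ∈ TT V := by
    intro i
    fin_cases i
    · show 0 ≤ cr (V 1 - 0) (V 2 - 0) ∧ cr (V 1 - 0) (V 2 - 0) < _
      rw [sub_zero, sub_zero, hdd]
      show 0 ≤ cr (t2 • b) z0 ∧ cr (t2 • b) z0 < _
      rw [cr_smul_left]
      constructor
      · positivity
      · nlinarith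
    · show 0 ≤ cr (V 2 - 0) (V 0 - 0) ∧ cr (V 2 - 0) (V 0 - 0) < _
      rw [sub_zero, sub_zero, hdd]
      show 0 ≤ cr z0 (-(t1 • b)) ∧ cr z0 (-(t1 • b)) < _
      rw [cr_neg_right, cr_smul_right, cr_swap z0 b]
      constructor
      · have := mul_pos h1 hcrz
        linarith
      · nlinarith
    · show 0 ≤ lam V 2 0 ∧ lam V 2 0 < _
      rw [hV, lam_two_newV h3, cr_zero_right, ← hV, hdd]
      exact ⟨le_rfl, hcrz⟩
  have hVis : ∀ i, M.Vis p (V i) := by
    intro i
    fin_cases i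
    · exact h5
    · exact h4
    · exact hz0.1
  have hpos : 0 < dd V := by rw [hdd]; exact hcrz
  have hTri : M.Tri (M.exp p) V := by
    refine ⟨hpos, (isTr_exp p).mono hTD, fun i => ?_⟩
    refine ((hVis i).exists_lim (convex_TT V) hTD fun t ht0 ht1 => ?_).2
    have := toward_mem h0T (vertex_mem_TC hpos i) ht0 ht1
    rwa [zero_add, sub_zero] at this
  have hBz : cr (t2 • b) z0 ≠ 0 := by
    rw [cr_smul_left]
    positivity
  have hAz : cr (-(t1 • b)) z0 ≠ 0 := by
    rw [cr_neg_left, cr_smul_left]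
    exact neg_ne_zero.mpr (by positivity)
  have hdB := side_dichotomy hZ hBz hhB
    (fun s hs => hsB (1 - s) s (by linarith [hs.2]) hs.1 (by ring))
  have hdA := side_dichotomy hZ hAz hhA
    (fun s hs => hsA (1 - s) s (by linarith [hs.2]) hs.1 (by ring))
  -- parametrisation of the sides
  have hparB : ∀ z ∈ TT V, lam V 0 z = 0 → ∃ s ∈ Ioo (0 : ℝ) 1, z = (1 - s) • (t2 • b) + s • z0 := by
    intro z hz hz0'
    obtain ⟨x, y, w, hx, hy, hw, hx0, hy0, hw0, hxyw, hor⟩ :=
      newV_cases h1 h2 h3 hcrz (TT_subset_TC V hz)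
    have hy1 : y < 1 := by
      rw [hy, div_lt_one hcrz, ← hdd]
      exact (hz 1).2
    have hw1 : w < 1 := by
      rw [hw, div_lt_one hcrz, ← hdd]
      exact (hz 2).2
    have hx' : x = 0 := by
      rw [hx, ← hV, hz0', zero_div]
    have hy' : y = 1 - w := by linarith
    refine ⟨w, ⟨by linarith, hw1⟩, ?_⟩
    rcases hor with ⟨α, hα0, hα1, -, hα3, hzz⟩ | ⟨α, hα0, hα1, hα2, hα3, hzz⟩
    · rw [hzz, hα3 hx', hy']
    · exfalso
      have hα : α = 0 := by linarith
      have h8 : lam V 0 z = 0 := hz0'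
      rw [hzz, hα, zero_smul, zero_add] at h8
      have h9 : lam V 0 (w • z0) = (1 - w) * cr (t2 • b) z0 := by
        show cr (t2 • b - w • z0) (z0 - w • z0) = _
        simp only [cr_sub_left, cr_sub_right, cr_smul_right, cr_smul_left, cr_self]
        ring
      rw [h9] at h8
      rcases mul_eq_zero.mp h8 with h10 | h10
      · linarith
      · exact hBz h10
  have hparA : ∀ z ∈ TT V, lam V 1 z = 0 →
      ∃ s ∈ Ioo (0 : ℝ) 1, z = (1 - s) • (-(t1 • b)) + s • z0 := by
    intro z hz hz0'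
    obtain ⟨x, y, w, hx, hy, hw, hx0, hy0, hw0, hxyw, hor⟩ :=
      newV_cases h1 h2 h3 hcrz (TT_subset_TC V hz)
    have hx1 : x < 1 := by
      rw [hx, div_lt_one hcrz, ← hdd]
      exact (hz 0).2
    have hw1 : w < 1 := by
      rw [hw, div_lt_one hcrz, ← hdd]
      exact (hz 2).2
    have hy' : y = 0 := by
      rw [hy, ← hV, hz0', zero_div]
    have hx' : x = 1 - w := by linarith
    refine ⟨w, ⟨by linarith, hw1⟩, ?_⟩
    rcases hor with ⟨α, hα0, hα1, hα2, hα3, hzz⟩ | ⟨α, hα0, hα1, -, hα3, hzz⟩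
    · exfalso
      have hα : α = 0 := by linarith
      have h8 : lam V 1 z = 0 := hz0'
      rw [hzz, hα, zero_smul, zero_add] at h8
      have h9 : lam V 1 (w • z0) = -((1 - w) * cr (-(t1 • b)) z0) := by
        show cr (z0 - w • z0) (-(t1 • b) - w • z0) = _
        simp only [cr_sub_left, cr_sub_right, cr_smul_right, cr_smul_left, cr_self, cr_neg_left,
          cr_neg_right]
        rw [cr_swap z0 b]
        ring
      rw [h9] at h8
      rcases mul_eq_zero.mp (neg_eq_zero.mp h8) with h10 | h10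
      · linarith
      · exact hAz h10
    · rw [hzz, hα3 hy', hx']
  have hpar2 : ∀ z ∈ TT V, lam V 2 z = 0 → M.exp p z ∈ Z := by
    intro z hz hz0'
    obtain ⟨x, y, w, hx, hy, hw, hx0, hy0, hw0, hxyw, hor⟩ :=
      newV_cases h1 h2 h3 hcrz (TT_subset_TC V hz)
    have hx1 : x < 1 := by
      rw [hx, div_lt_one hcrz, ← hdd]
      exact (hz 0).2
    have hy1 : y < 1 := by
      rw [hy, div_lt_one hcrz, ← hdd]
      exact (hz 1).2
    have hw' : w = 0 := by
      rw [hw, ← hV, hz0', zero_div]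
    have h00 : M.exp p 0 ∈ Z := by
      have := h6 0 (by linarith) h2
      rwa [zero_smul] at this
    rcases hor with ⟨α, hα0, hα1, -, -, hzz⟩ | ⟨α, hα0, hα1, -, -, hzz⟩
    · rw [hzz, hw', zero_smul, add_zero]
      rcases hα0.eq_or_lt with h | h
      · rw [← h, zero_smul]
        exact h00
      · exact (hBZ α h (by linarith)).2
    · rw [hzz, hw', zero_smul, add_zero]
      rcases hα0.eq_or_lt with h | h
      · rw [← h, zero_smul]
        exact h00
      · exact (hAZ α h (by linarith)).2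
  refine ⟨t1, t2, z0, h1, h2, h3, hcrz, hz0R, hTri, hTD, hTI, hpar2, fun i => ?_⟩
  fin_cases i
  · rcases hdB with h | h
    · left
      intro z hz hz'
      obtain ⟨s, hs, rfl⟩ := hparB z hz hz'
      exact h s hs
    · right
      intro z hz hz'
      obtain ⟨s, hs, rfl⟩ := hparB z hz hz'
      exact h s hs
  · rcases hdA with h | h
    · left
      intro z hz hz'
      obtain ⟨s, hs, rfl⟩ := hparA z hz hz'
      exact h s hs
    · right
      intro z hz hz'
      obtain ⟨s, hs, rfl⟩ := hparA z hz hz'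
      exact h s hs
  · left
    exact hpar2

end MSurf

end Pool.Agent.Lib.MP_755177_an
end
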