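import Pool.Agent.Lib.MP_755177_an.FinalB

set_option autoImplicit false

/-!
# The Veech group
-/

open scoped MatrixGroups

namespace Pool.Agent.Lib.MP_755177_an

/-- The Veech group of a translation surface: the group of derivatives of its affine
self-homeomorphisms. -/
def TransStr.veechGroup {X : Type*} [TopologicalSpace X] (M : TransStr X) :
    Subgroup SL(2, ℝ) where
  carrier := {A | ∃ φ : X ≃ₜ X, M.IsAffine A φ}
  mul_mem' := by
    rintro A B ⟨φ, hφ⟩ ⟨ψ, hψ⟩
    exact ⟨ψ.trans φ, isAffine_trans hφ hψ⟩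
  one_mem' := ⟨Homeomorph.refl X, isAffine_refl M⟩
  inv_mem' := by
    rintro A ⟨φ, hφ⟩
    exact ⟨φ.symm, isAffine_symm hφ⟩

end Pool.Agent.Lib.MP_755177_an
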